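import Pool.Agent.Lib.MP_be9f18_nt.Defs

/-!
Module M3 (`BlockStatement`): units of `ℤ[2cos(2π/7)]`.
-/

set_option autoImplicit false

namespace Pool.Agent.Lib.MP_be9f18_nt

namespace Block

/-- triples of conjugates of elements of `ℤ[θ]` -/
def Rep (t1 t2 t3 y1 y2 y3 : ℝ) : Prop :=
  ∃ k m n : ℤ, y1 = yv t1 k m n ∧ y2 = yv t2 k m n ∧ y3 = yv t3 k m n

theorem yv_mul {t : ℝ} (ht : t ^ 3 + t ^ 2 - 2 * t - 1 = 0) (k m n k' m' n' : ℤ) :
    yv t k m n * yv t k' m' n' =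
      yv t (k * k' - (m * n' + n * m') - n * n')
        (k * m' + m * k' - 2 * (m * n' + n * m') - n * n')
        (-(m * m' - k * n' - n * k' + (m * n' + n * m') + 3 * (n * n'))) := by
  have h3 : t ^ 3 = 1 + 2 * t - t ^ 2 := by linarith
  have h4 : t ^ 4 = -1 - t + 3 * t ^ 2 := by
    have : t ^ 4 = t * t ^ 3 := by ring
    rw [this, h3]
    have : t * (1 + 2 * t - t ^ 2) = t + 2 * t ^ 2 - t ^ 3 := by ring
    rw [this, h3]; ring
  unfold yv
  push_cast
  have : ((k : ℝ) + m * t - n * t ^ 2) * (k' + m' * t - n' * t ^ 2) =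
      k * k' + (k * m' + m * k') * t + (m * m' - k * n' - n * k') * t ^ 2
        - (m * n' + n * m') * t ^ 3 + n * n' * t ^ 4 := by ring
  rw [this, h3, h4]
  ring

theorem Rep.mul {t1 t2 t3 y1 y2 y3 z1 z2 z3 : ℝ} (R : Roots t1 t2 t3)
    (h : Rep t1 t2 t3 y1 y2 y3) (h' : Rep t1 t2 t3 z1 z2 z3) :
    Rep t1 t2 t3 (y1 * z1) (y2 * z2) (y3 * z3) := by
  obtain ⟨k, m, n, e1, e2, e3⟩ := h
  obtain ⟨k', m', n', f1, f2, f3⟩ := h'
  rw [e1, e2, e3, f1, f2, f3]
  exact ⟨k * k' - (m * n' + n * m') - n * n',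
    k * m' + m * k' - 2 * (m * n' + n * m') - n * n',
    -(m * m' - k * n' - n * k' + (m * n' + n * m') + 3 * (n * n')),
    yv_mul R.r1 k m n k' m' n', yv_mul R.r2 k m n k' m' n', yv_mul R.r3 k m n k' m' n'⟩

theorem Rep.one {t1 t2 t3 : ℝ} : Rep t1 t2 t3 1 1 1 :=
  ⟨1, 0, 0, by simp [yv], by simp [yv], by simp [yv]⟩

theorem Rep.pow {t1 t2 t3 y1 y2 y3 : ℝ} (R : Roots t1 t2 t3) (h : Rep t1 t2 t3 y1 y2 y3) (n : ℕ) :
    Rep t1 t2 t3 (y1 ^ n) (y2 ^ n) (y3 ^ n) := by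
  induction n with
  | zero => simpa using Rep.one
  | succ n ih =>
    rw [pow_succ, pow_succ, pow_succ]
    exact ih.mul R h

theorem Rep.zpow {t1 t2 t3 y1 y2 y3 : ℝ} (R : Roots t1 t2 t3) (h : Rep t1 t2 t3 y1 y2 y3)
    (h' : Rep t1 t2 t3 y1⁻¹ y2⁻¹ y3⁻¹) (n : ℤ) :
    Rep t1 t2 t3 (y1 ^ n) (y2 ^ n) (y3 ^ n) := by
  obtain ⟨k, rfl | rfl⟩ := n.eq_nat_or_neg
  · simpa using h.pow R k
  · simpa [zpow_neg, inv_pow] using h'.pow R k

theorem e1 {t1 t2 t3 : ℝ} (R : Roots t1 t2 t3) : t1 + t2 + t3 = -1 := by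
  have d12 : t1 - t2 ≠ 0 := by have := R.l1; have := R.u2; linarith
  have d13 : t1 - t3 ≠ 0 := by have := R.l1; have := R.u3; linarith
  have d23 : t2 - t3 ≠ 0 := by
    have := R.u2; have := R.l3
    intro h; linarith
  have hA : t1 ^ 2 + t1 * t2 + t2 ^ 2 + t1 + t2 - 2 = 0 := by
    have h : (t1 - t2) * (t1 ^ 2 + t1 * t2 + t2 ^ 2 + t1 + t2 - 2) = 0 := by
      have := R.r1; have := R.r2
      linear_combination R.r1 - R.r2
    rcases mul_eq_zero.mp h with h | h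
    · exact absurd h d12
    · exact h
  have hB : t1 ^ 2 + t1 * t3 + t3 ^ 2 + t1 + t3 - 2 = 0 := by
    have h : (t1 - t3) * (t1 ^ 2 + t1 * t3 + t3 ^ 2 + t1 + t3 - 2) = 0 := by
      linear_combination R.r1 - R.r3
    rcases mul_eq_zero.mp h with h | h
    · exact absurd h d13
    · exact h
  have h : (t2 - t3) * (t1 + t2 + t3 + 1) = 0 := by linear_combination hA - hB
  rcases mul_eq_zero.mp h with h | h
  · exact absurd h d23
  · linarith

theorem e3 {t1 t2 t3 : ℝ} (R : Roots t1 t2 t3) : t1 * t2 * t3 = 1 := by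
  have h1 := e1 R
  have d12 : t1 - t2 ≠ 0 := by have := R.l1; have := R.u2; linarith
  have hA : t1 ^ 2 + t1 * t2 + t2 ^ 2 + t1 + t2 - 2 = 0 := by
    have h : (t1 - t2) * (t1 ^ 2 + t1 * t2 + t2 ^ 2 + t1 + t2 - 2) = 0 := by
      linear_combination R.r1 - R.r2
    rcases mul_eq_zero.mp h with h | h
    · exact absurd h d12
    · exact h
  have h3 : t3 = -1 - t1 - t2 := by linarith
  rw [h3]
  linear_combination R.r1 - t1 * hA

theorem e2 {t1 t2 t3 : ℝ} (R : Roots t1 t2 t3) : t1 * t2 + t1 * t3 + t2 * t3 = -2 := by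
  have h1 := e1 R
  have d12 : t1 - t2 ≠ 0 := by have := R.l1; have := R.u2; linarith
  have hA : t1 ^ 2 + t1 * t2 + t2 ^ 2 + t1 + t2 - 2 = 0 := by
    have h : (t1 - t2) * (t1 ^ 2 + t1 * t2 + t2 ^ 2 + t1 + t2 - 2) = 0 := by
      linear_combination R.r1 - R.r2
    rcases mul_eq_zero.mp h with h | h
    · exact absurd h d12
    · exact h
  have h3 : t3 = -1 - t1 - t2 := by linarith
  rw [h3]
  linear_combination -hA

theorem inv_t {t : ℝ} (ht : t ^ 3 + t ^ 2 - 2 * t - 1 = 0) : t⁻¹ = -2 + t + t ^ 2 := by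
  apply inv_eq_of_mul_eq_one_right
  linear_combination ht

theorem inv_t1 {t : ℝ} (ht : t ^ 3 + t ^ 2 - 2 * t - 1 = 0) : (1 + t)⁻¹ = 2 - t ^ 2 := by
  apply inv_eq_of_mul_eq_one_right
  linear_combination -ht

theorem rep_t {t1 t2 t3 : ℝ} : Rep t1 t2 t3 t1 t2 t3 :=
  ⟨0, 1, 0, by simp [yv], by simp [yv], by simp [yv]⟩

theorem rep_t_inv {t1 t2 t3 : ℝ} (R : Roots t1 t2 t3) : Rep t1 t2 t3 t1⁻¹ t2⁻¹ t3⁻¹ :=
  ⟨-2, 1, -1, by rw [inv_t R.r1]; simp [yv], by rw [inv_t R.r2]; simp [yv],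
    by rw [inv_t R.r3]; simp [yv]⟩

theorem rep_s {t1 t2 t3 : ℝ} : Rep t1 t2 t3 (1 + t1) (1 + t2) (1 + t3) :=
  ⟨1, 1, 0, by simp [yv], by simp [yv], by simp [yv]⟩

theorem rep_s_inv {t1 t2 t3 : ℝ} (R : Roots t1 t2 t3) :
    Rep t1 t2 t3 (1 + t1)⁻¹ (1 + t2)⁻¹ (1 + t3)⁻¹ :=
  ⟨2, 0, 1, by rw [inv_t1 R.r1]; simp [yv], by rw [inv_t1 R.r2]; simp [yv],
    by rw [inv_t1 R.r3]; simp [yv]⟩

/-- `r`-th conjugate of the unit `θ^(2i) (1+θ)^(2j)` -/
noncomputable def U (t : ℝ) (i j : ℤ) : ℝ := (t ^ 2) ^ i * ((1 + t) ^ 2) ^ j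

theorem rep_U {t1 t2 t3 : ℝ} (R : Roots t1 t2 t3) (i j : ℤ) :
    Rep t1 t2 t3 (U t1 i j) (U t2 i j) (U t3 i j) := by
  have h1 : Rep t1 t2 t3 (t1 ^ 2) (t2 ^ 2) (t3 ^ 2) := rep_t.pow R 2
  have h2 : Rep t1 t2 t3 (t1 ^ 2)⁻¹ (t2 ^ 2)⁻¹ (t3 ^ 2)⁻¹ := by
    simpa [inv_pow] using (rep_t_inv R).pow R 2
  have h3 : Rep t1 t2 t3 ((1 + t1) ^ 2) ((1 + t2) ^ 2) ((1 + t3) ^ 2) := rep_s.pow R 2
  have h4 : Rep t1 t2 t3 ((1 + t1) ^ 2)⁻¹ ((1 + t2) ^ 2)⁻¹ ((1 + t3) ^ 2)⁻¹ := by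
    simpa [inv_pow] using (rep_s_inv R).pow R 2
  exact (h1.zpow R h2 i).mul R (h3.zpow R h4 j)

theorem int_descent : ∀ (N : ℕ) (P n : ℤ), n.natAbs ≤ N →
    P ^ 3 + P ^ 2 * n - 2 * P * n ^ 2 - n ^ 3 = 0 → n = 0 := by
  intro N
  induction N with
  | zero => intro P n hn _; omega
  | succ N ih =>
    intro P n hn h
    by_contra hne
    have key : P % 2 = 0 ∧ n % 2 = 0 := by
      have h2 : (P ^ 3 + P ^ 2 * n - 2 * P * n ^ 2 - n ^ 3) % 2 = 0 := by rw [h]; rfl
      rcases Int.emod_two_eq_zero_or_one P with hP | hP <;>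
        rcases Int.emod_two_eq_zero_or_one n with hN | hN
      · exact ⟨hP, hN⟩
      · exfalso
        obtain ⟨a, rfl⟩ : ∃ a, P = 2 * a := ⟨P / 2, by omega⟩
        obtain ⟨b, rfl⟩ : ∃ b, n = 2 * b + 1 := ⟨n / 2, by omega⟩
        ring_nf at h2
        omega
      · exfalso
        obtain ⟨a, rfl⟩ : ∃ a, P = 2 * a + 1 := ⟨P / 2, by omega⟩
        obtain ⟨b, rfl⟩ : ∃ b, n = 2 * b := ⟨n / 2, by omega⟩
        ring_nf at h2
        omega
      · exfalso
        obtain ⟨a, rfl⟩ : ∃ a, P = 2 * a + 1 := ⟨P / 2, by omega⟩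
        obtain ⟨b, rfl⟩ : ∃ b, n = 2 * b + 1 := ⟨n / 2, by omega⟩
        ring_nf at h2
        omega
    obtain ⟨a, rfl⟩ : ∃ a, P = 2 * a := ⟨P / 2, by omega⟩
    obtain ⟨b, rfl⟩ : ∃ b, n = 2 * b := ⟨n / 2, by omega⟩
    have h3 : a ^ 3 + a ^ 2 * b - 2 * a * b ^ 2 - b ^ 3 = 0 := by
      have : 8 * (a ^ 3 + a ^ 2 * b - 2 * a * b ^ 2 - b ^ 3) = 0 := by linear_combination h
      omega
    have := ih a b (by omega) h3
    omega

/-- `t` is not of the form `P / n` -/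
theorem irr_t {t : ℝ} (ht : t ^ 3 + t ^ 2 - 2 * t - 1 = 0) (P n : ℤ) (h : (P : ℝ) = n * t) :
    n = 0 := by
  apply int_descent n.natAbs P n le_rfl
  have : ((P ^ 3 + P ^ 2 * n - 2 * P * n ^ 2 - n ^ 3 : ℤ) : ℝ) = 0 := by
    push_cast
    rw [h]
    linear_combination (n : ℝ) ^ 3 * ht
  exact_mod_cast this

theorem U_pos {t : ℝ} (h0 : t ≠ 0) (h1 : 1 + t ≠ 0) (i j : ℤ) : 0 < U t i j := by
  unfold U
  positivity

theorem log_U {t : ℝ} (h0 : t ≠ 0) (h1 : 1 + t ≠ 0) (i j : ℤ) :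
    Real.log (U t i j) = i * Real.log (t ^ 2) + j * Real.log ((1 + t) ^ 2) := by
  unfold U
  rw [Real.log_mul (by positivity) (by positivity), Real.log_zpow, Real.log_zpow]

theorem nz {t1 t2 t3 : ℝ} (R : Roots t1 t2 t3) :
    (t1 ≠ 0 ∧ 1 + t1 ≠ 0) ∧ (t2 ≠ 0 ∧ 1 + t2 ≠ 0) ∧ (t3 ≠ 0 ∧ 1 + t3 ≠ 0) := by
  have := R.l1; have := R.u2; have := R.l3; have := R.u3
  refine ⟨⟨?_, ?_⟩, ⟨?_, ?_⟩, ⟨?_, ?_⟩⟩
  · intro h; linarith
  · intro h; linarith
  · intro h; linarith
  · intro h; linarith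
  · intro h; linarith
  · intro h; linarith

theorem U_prod {t1 t2 t3 : ℝ} (R : Roots t1 t2 t3) (i j : ℤ) :
    U t1 i j * U t2 i j * U t3 i j = 1 := by
  have h3 := e3 R
  have h2 := e2 R
  have h1 := e1 R
  have hs : (1 + t1) * (1 + t2) * (1 + t3) = -1 := by linear_combination h1 + h2 + h3
  have : U t1 i j * U t2 i j * U t3 i j =
      ((t1 * t2 * t3) ^ 2) ^ i * (((1 + t1) * (1 + t2) * (1 + t3)) ^ 2) ^ j := by
    unfold U
    rw [mul_pow, mul_pow, mul_zpow, mul_zpow, mul_pow, mul_pow, mul_zpow, mul_zpow]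
    ring
  rw [this, h3, hs]
  norm_num

theorem indep {t1 t2 t3 : ℝ} (R : Roots t1 t2 t3) (i j : ℤ)
    (h : (i : ℝ) * (Real.log (t1 ^ 2) - Real.log (t2 ^ 2)) =
      j * (Real.log ((1 + t1) ^ 2) - Real.log ((1 + t2) ^ 2))) : i = 0 ∧ j = 0 := by
  obtain ⟨⟨a1, b1⟩, ⟨a2, b2⟩, ⟨a3, b3⟩⟩ := nz R
  have l1 := log_U a1 b1 i (-j)
  have l2 := log_U a2 b2 i (-j)
  have l3 := log_U a3 b3 i (-j)
  have p1 := U_pos a1 b1 i (-j)
  have p2 := U_pos a2 b2 i (-j)
  have p3 := U_pos a3 b3 i (-j)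
  have heq : Real.log (U t1 i (-j)) = Real.log (U t2 i (-j)) := by
    rw [l1, l2]; push_cast; linarith
  have hU : U t1 i (-j) = U t2 i (-j) := Real.log_injOn_pos p1 p2 heq
  obtain ⟨k, m, n, f1, f2, f3⟩ := rep_U R i (-j)
  have d12 : t1 - t2 ≠ 0 := by have := R.l1; have := R.u2; intro h; linarith
  have hsum := e1 R
  have hm : (m : ℝ) - n * (t1 + t2) = 0 := by
    have : (t1 - t2) * ((m : ℝ) - n * (t1 + t2)) = 0 := by
      rw [f1, f2] at hU
      unfold yv at hU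
      linear_combination hU
    rcases mul_eq_zero.mp this with h | h
    · exact absurd h d12
    · exact h
  have hn : n = 0 := by
    apply irr_t R.r3 (-m - n) n
    push_cast
    linear_combination (-1) * hm - (n : ℝ) * hsum
  subst hn
  have hm0 : m = 0 := by
    have : (m : ℝ) = 0 := by simpa using hm
    exact_mod_cast this
  subst hm0
  have g1 : U t1 i (-j) = k := by rw [f1]; simp [yv]
  have g2 : U t2 i (-j) = k := by rw [f2]; simp [yv]
  have g3 : U t3 i (-j) = k := by rw [f3]; simp [yv]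
  have hprod := U_prod R i (-j)
  rw [g1, g2, g3] at hprod
  have hk : k = 1 := by
    have hk0 : (0 : ℝ) < k := by rw [← g1]; exact p1
    have hk0' : 0 < k := by exact_mod_cast hk0
    have hk3 : k * k * k = 1 := by exact_mod_cast hprod
    have : k ∣ 1 := ⟨k * k, by linarith⟩
    exact Int.eq_one_of_dvd_one hk0'.le this
  subst hk
  rw [g1] at l1
  rw [g3] at l3
  simp only [Int.cast_one, Real.log_one, Int.cast_neg] at l1 l3
  have u1 := R.u1; have w1 := R.l1; have w3 := R.l3; have u3 := R.u3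
  have L1 : 0 < Real.log (t1 ^ 2) := Real.log_pos (by nlinarith)
  have M1 : 3 * Real.log (t1 ^ 2) < Real.log ((1 + t1) ^ 2) := by
    have : (3 : ℝ) * Real.log (t1 ^ 2) = Real.log ((t1 ^ 2) ^ 3) := by
      rw [Real.log_pow]; norm_num
    rw [this]
    apply Real.log_lt_log (by positivity)
    have h2 : t1 ^ 2 < 1.56 := by nlinarith
    have h3 : (t1 ^ 2) ^ 3 < 1.56 ^ 3 := by
      apply pow_lt_pow_left₀ h2 (by positivity) (by norm_num)
    have h4 : (5 : ℝ) < (1 + t1) ^ 2 := by nlinarith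
    calc (t1 ^ 2) ^ 3 < 1.56 ^ 3 := h3
      _ < 5 := by norm_num
      _ < (1 + t1) ^ 2 := h4
  have M3 : Real.log ((1 + t3) ^ 2) < 0 := Real.log_neg (by nlinarith) (by nlinarith)
  have L3 : Real.log (t3 ^ 2) < Real.log ((1 + t3) ^ 2) :=
    Real.log_lt_log (by nlinarith) (by nlinarith)
  rcases lt_trichotomy j 0 with hj | hj | hj
  · exfalso
    have hj' : (j : ℝ) < 0 := by exact_mod_cast hj
    have h1 : (i : ℝ) < 3 * j := by
      by_contra hcon
      push Not at hcon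
      nlinarith
    nlinarith
  · subst hj
    refine ⟨?_, rfl⟩
    have : (i : ℝ) * Real.log (t1 ^ 2) = 0 := by simpa using l1.symm
    rcases mul_eq_zero.mp this with h | h
    · exact_mod_cast h
    · exact absurd h L1.ne'
  · exfalso
    have hj' : (0 : ℝ) < j := by exact_mod_cast hj
    have h1 : 3 * (j : ℝ) < i := by
      by_contra hcon
      push Not at hcon
      nlinarith
    nlinarith

/-- the subgroup of logarithms -/
noncomputable def S (t1 t2 : ℝ) : AddSubgroup ℝ :=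
  AddSubgroup.closure {(Real.log (t1 ^ 2) - Real.log (t2 ^ 2)) / 2,
    (Real.log ((1 + t1) ^ 2) - Real.log ((1 + t2) ^ 2)) / 2}

theorem S_dense {t1 t2 t3 : ℝ} (R : Roots t1 t2 t3) : Dense (S t1 t2 : Set ℝ) := by
  rcases AddSubgroup.dense_or_cyclic (S t1 t2) with h | ⟨g, hg⟩
  · exact h
  · exfalso
    have hα : (Real.log (t1 ^ 2) - Real.log (t2 ^ 2)) / 2 ∈ S t1 t2 :=
      AddSubgroup.subset_closure (by simp)
    have hβ : (Real.log ((1 + t1) ^ 2) - Real.log ((1 + t2) ^ 2)) / 2 ∈ S t1 t2 :=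
      AddSubgroup.subset_closure (by simp)
    rw [hg, AddSubgroup.mem_closure_singleton] at hα hβ
    obtain ⟨i, hi⟩ := hα
    obtain ⟨j, hj⟩ := hβ
    have hαne : Real.log (t1 ^ 2) - Real.log (t2 ^ 2) ≠ 0 := by
      have u1 := R.u1; have w1 := R.l1; have u2 := R.u2
      have : Real.log (t1 ^ 2) < Real.log (t2 ^ 2) :=
        Real.log_lt_log (by nlinarith) (by nlinarith)
      linarith
    simp only [zsmul_eq_mul] at hi hj
    have := indep R j i (by
      have h1 : Real.log (t1 ^ 2) - Real.log (t2 ^ 2) = 2 * (i * g) := by linarith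
      have h2 : Real.log ((1 + t1) ^ 2) - Real.log ((1 + t2) ^ 2) = 2 * (j * g) := by linarith
      rw [h1, h2]; ring)
    have hi0 : i = 0 := this.2
    rw [hi0, Int.cast_zero, zero_mul] at hi
    apply hαne
    linarith

/-- the function of one variable that is bounded below -/
noncomputable def phi (a b e d c s : ℝ) : ℝ :=
  c * max ((a * Real.cosh s + b * Real.sinh s) ^ 2) ((e * Real.cosh s + d * Real.sinh s) ^ 2)

theorem phi_cont (a b e d c : ℝ) : Continuous (phi a b e d c) := by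
  unfold phi
  fun_prop

theorem G_scale {c r σ u v : ℝ} (hc : 0 < c) (hr : |r| = Real.exp (-(2 * σ))) :
    G (Real.exp σ * u) (Real.exp σ * v) (c * r) = c * max (u ^ 2) (v ^ 2) := by
  unfold G
  rw [abs_mul, abs_of_pos hc, hr, mul_pow, mul_pow,
    ← mul_max_of_nonneg _ _ (by positivity : (0 : ℝ) ≤ Real.exp σ ^ 2)]
  have : Real.exp (-(2 * σ)) * Real.exp σ ^ 2 = 1 := by
    rw [← Real.exp_nat_mul, ← Real.exp_add]
    norm_num
  calc c * Real.exp (-(2 * σ)) * (Real.exp σ ^ 2 * max (u ^ 2) (v ^ 2))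
      = c * (Real.exp (-(2 * σ)) * Real.exp σ ^ 2) * max (u ^ 2) (v ^ 2) := by ring
    _ = c * max (u ^ 2) (v ^ 2) := by rw [this]; ring

theorem key {t1 t2 t3 a b e d c : ℝ}
    (H : ∀ k m n : ℤ, ¬(k = 0 ∧ m = 0 ∧ n = 0) →
      1 ≤ G (a * ((yv t1 k m n + yv t2 k m n) / 2) + b * ((yv t1 k m n - yv t2 k m n) / 2))
            (e * ((yv t1 k m n + yv t2 k m n) / 2) + d * ((yv t1 k m n - yv t2 k m n) / 2))
            (c * yv t3 k m n)) {y1 y2 y3 : ℝ} (h : Rep t1 t2 t3 y1 y2 y3) (h0 : y1 ≠ 0) :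
    1 ≤ G (a * ((y1 + y2) / 2) + b * ((y1 - y2) / 2))
            (e * ((y1 + y2) / 2) + d * ((y1 - y2) / 2)) (c * y3) := by
  obtain ⟨k, m, n, e1, e2, e3⟩ := h
  rw [e1, e2, e3]
  apply H
  rintro ⟨rfl, rfl, rfl⟩
  apply h0
  rw [e1]
  simp [yv]

/-- first family -/
theorem famA {t1 t2 t3 a b e d c : ℝ} (R : Roots t1 t2 t3) (hc : 0 < c)
    (H : ∀ k m n : ℤ, ¬(k = 0 ∧ m = 0 ∧ n = 0) →
      1 ≤ G (a * ((yv t1 k m n + yv t2 k m n) / 2) + b * ((yv t1 k m n - yv t2 k m n) / 2))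
            (e * ((yv t1 k m n + yv t2 k m n) / 2) + d * ((yv t1 k m n - yv t2 k m n) / 2))
            (c * yv t3 k m n)) (s : ℝ) : 1 ≤ phi a b e d c s := by
  have hcl : IsClosed {s : ℝ | 1 ≤ phi a b e d c s} :=
    isClosed_le continuous_const (phi_cont a b e d c)
  have hsub : (S t1 t2 : Set ℝ) ⊆ {s : ℝ | 1 ≤ phi a b e d c s} := by
    intro s hs
    obtain ⟨i, j, hij⟩ := AddSubgroup.mem_closure_pair.mp hs
    obtain ⟨⟨a1, b1⟩, ⟨a2, b2⟩, ⟨a3, b3⟩⟩ := nz R
    have p1 := U_pos a1 b1 i j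
    have p2 := U_pos a2 b2 i j
    have p3 := U_pos a3 b3 i j
    have l1 := log_U a1 b1 i j
    have l2 := log_U a2 b2 i j
    have hprod := U_prod R i j
    set σ := (Real.log (U t1 i j) + Real.log (U t2 i j)) / 2 with hσ
    have hs' : s = (Real.log (U t1 i j) - Real.log (U t2 i j)) / 2 := by
      rw [← hij, l1, l2]
      simp only [zsmul_eq_mul]
      ring
    have y1 : U t1 i j = Real.exp (σ + s) := by
      rw [hσ, hs', show (Real.log (U t1 i j) + Real.log (U t2 i j)) / 2 +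
        (Real.log (U t1 i j) - Real.log (U t2 i j)) / 2 = Real.log (U t1 i j) by ring,
        Real.exp_log p1]
    have y2 : U t2 i j = Real.exp (σ - s) := by
      rw [hσ, hs', show (Real.log (U t1 i j) + Real.log (U t2 i j)) / 2 -
        (Real.log (U t1 i j) - Real.log (U t2 i j)) / 2 = Real.log (U t2 i j) by ring,
        Real.exp_log p2]
    have y3 : |U t3 i j| = Real.exp (-(2 * σ)) := by
      rw [abs_of_pos p3, Real.exp_neg]
      rw [y1, y2, ← Real.exp_add] at hprod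
      have : σ + s + (σ - s) = 2 * σ := by ring
      rw [this] at hprod
      exact eq_inv_of_mul_eq_one_right hprod
    have h1 := key H (rep_U R i j) p1.ne'
    rw [y1, y2] at h1
    have h2 : a * ((Real.exp (σ + s) + Real.exp (σ - s)) / 2) +
        b * ((Real.exp (σ + s) - Real.exp (σ - s)) / 2) =
        Real.exp σ * (a * Real.cosh s + b * Real.sinh s) := by
      have g1 : Real.exp (σ + s) = Real.exp σ * Real.exp s := Real.exp_add _ _
      have g2 : Real.exp (σ - s) = Real.exp σ * Real.exp (-s) := by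
        rw [sub_eq_add_neg, Real.exp_add]
      rw [Real.cosh_eq, Real.sinh_eq, g1, g2]
      ring
    have h3 : e * ((Real.exp (σ + s) + Real.exp (σ - s)) / 2) +
        d * ((Real.exp (σ + s) - Real.exp (σ - s)) / 2) =
        Real.exp σ * (e * Real.cosh s + d * Real.sinh s) := by
      have g1 : Real.exp (σ + s) = Real.exp σ * Real.exp s := Real.exp_add _ _
      have g2 : Real.exp (σ - s) = Real.exp σ * Real.exp (-s) := by
        rw [sub_eq_add_neg, Real.exp_add]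
      rw [Real.cosh_eq, Real.sinh_eq, g1, g2]
      ring
    rw [h2, h3, G_scale hc y3] at h1
    exact h1
  have := (hcl.closure_subset_iff).mpr hsub
  rw [(S_dense R).closure_eq] at this
  exact this (Set.mem_univ s)

/-- second family -/
theorem famB {t1 t2 t3 a b e d c : ℝ} (R : Roots t1 t2 t3) (hc : 0 < c)
    (H : ∀ k m n : ℤ, ¬(k = 0 ∧ m = 0 ∧ n = 0) →
      1 ≤ G (a * ((yv t1 k m n + yv t2 k m n) / 2) + b * ((yv t1 k m n - yv t2 k m n) / 2))
            (e * ((yv t1 k m n + yv t2 k m n) / 2) + d * ((yv t1 k m n - yv t2 k m n) / 2))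
            (c * yv t3 k m n)) (s : ℝ) : 1 ≤ phi b a d e c s := by
  set δ := (Real.log (t1 ^ 2) - Real.log (t2 ^ 2)) / 4 with hδ
  have hcl : IsClosed {s : ℝ | 1 ≤ phi b a d e c (s + δ)} :=
    isClosed_le continuous_const ((phi_cont b a d e c).comp (continuous_id.add continuous_const))
  have hsub : (S t1 t2 : Set ℝ) ⊆ {s : ℝ | 1 ≤ phi b a d e c (s + δ)} := by
    intro s hs
    obtain ⟨i, j, hij⟩ := AddSubgroup.mem_closure_pair.mp hs
    obtain ⟨⟨a1, b1⟩, ⟨a2, b2⟩, ⟨a3, b3⟩⟩ := nz R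
    have p1 := U_pos a1 b1 i j
    have p2 := U_pos a2 b2 i j
    have p3 := U_pos a3 b3 i j
    have l1 := log_U a1 b1 i j
    have l2 := log_U a2 b2 i j
    have hprod := U_prod R i j
    have ht := e3 R
    have tp1 : 0 < t1 := by have := R.l1; linarith
    have tn2 : t2 < 0 := by have := R.u2; linarith
    have tn3 : t3 < 0 := by have := R.u3; linarith
    have q1 : Real.log (t1 ^ 2) = 2 * Real.log t1 := by rw [Real.log_pow]; norm_num
    have q2 : Real.log (t2 ^ 2) = 2 * Real.log (-t2) := by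
      rw [← neg_sq, Real.log_pow]; norm_num
    set σ := (Real.log (U t1 i j) + Real.log (U t2 i j) + Real.log t1 + Real.log (-t2)) / 2
      with hσ
    have hs' : s + δ =
        (Real.log (U t1 i j) - Real.log (U t2 i j) + Real.log t1 - Real.log (-t2)) / 2 := by
      rw [← hij, l1, l2, hδ, q1, q2]
      simp only [zsmul_eq_mul]
      ring
    set r := s + δ with hr
    have y1 : t1 * U t1 i j = Real.exp (σ + r) := by
      rw [hσ, hs', show (Real.log (U t1 i j) + Real.log (U t2 i j) + Real.log t1 +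
        Real.log (-t2)) / 2 +
        (Real.log (U t1 i j) - Real.log (U t2 i j) + Real.log t1 - Real.log (-t2)) / 2
        = Real.log t1 + Real.log (U t1 i j) by ring,
        Real.exp_add, Real.exp_log p1, Real.exp_log tp1]
    have y2 : t2 * U t2 i j = -Real.exp (σ - r) := by
      rw [hσ, hs', show (Real.log (U t1 i j) + Real.log (U t2 i j) + Real.log t1 +
        Real.log (-t2)) / 2 -
        (Real.log (U t1 i j) - Real.log (U t2 i j) + Real.log t1 - Real.log (-t2)) / 2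
        = Real.log (-t2) + Real.log (U t2 i j) by ring,
        Real.exp_add, Real.exp_log p2, Real.exp_log (by linarith)]
      ring
    have y3 : |t3 * U t3 i j| = Real.exp (-(2 * σ)) := by
      rw [abs_mul, abs_of_pos p3, abs_of_neg tn3, Real.exp_neg]
      have h5 : (t1 * U t1 i j) * (t2 * U t2 i j) * (t3 * U t3 i j) = 1 := by
        have : (t1 * U t1 i j) * (t2 * U t2 i j) * (t3 * U t3 i j) =
          (t1 * t2 * t3) * (U t1 i j * U t2 i j * U t3 i j) := by ring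
        rw [this, ht, hprod]; norm_num
      rw [y1, y2] at h5
      have h6 : Real.exp (σ + r) * Real.exp (σ - r) = Real.exp (2 * σ) := by
        rw [← Real.exp_add]; ring_nf
      apply eq_inv_of_mul_eq_one_right
      rw [← h6]
      linear_combination h5
    have h0 : t1 * U t1 i j ≠ 0 := by positivity
    have h1 := key H (rep_t.mul R (rep_U R i j)) h0
    rw [y1, y2] at h1
    have h2 : a * ((Real.exp (σ + r) + -Real.exp (σ - r)) / 2) +
        b * ((Real.exp (σ + r) - -Real.exp (σ - r)) / 2) =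
        Real.exp σ * (b * Real.cosh r + a * Real.sinh r) := by
      have g1 : Real.exp (σ + r) = Real.exp σ * Real.exp r := Real.exp_add _ _
      have g2 : Real.exp (σ - r) = Real.exp σ * Real.exp (-r) := by
        rw [sub_eq_add_neg, Real.exp_add]
      rw [Real.cosh_eq, Real.sinh_eq, g1, g2]
      ring
    have h3 : e * ((Real.exp (σ + r) + -Real.exp (σ - r)) / 2) +
        d * ((Real.exp (σ + r) - -Real.exp (σ - r)) / 2) =
        Real.exp σ * (d * Real.cosh r + e * Real.sinh r) := by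
      have g1 : Real.exp (σ + r) = Real.exp σ * Real.exp r := Real.exp_add _ _
      have g2 : Real.exp (σ - r) = Real.exp σ * Real.exp (-r) := by
        rw [sub_eq_add_neg, Real.exp_add]
      rw [Real.cosh_eq, Real.sinh_eq, g1, g2]
      ring
    rw [h2, h3, G_scale hc y3] at h1
    exact h1
  have := (hcl.closure_subset_iff).mpr hsub
  rw [(S_dense R).closure_eq] at this
  have h := this (Set.mem_univ (s - δ))
  simpa using h

/-- evaluation at the good point -/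
theorem eval_phi {a b e d c : ℝ} (ha : 9 / 10 ≤ a) (ha' : a ≤ 11 / 10) (hb : |b| ≤ 1 / 10)
    (he : |e| ≤ 1 / 10) (hd : 9 / 10 ≤ d) (hd' : d ≤ 11 / 10) (hc : 0 < c) (hc' : c ≤ 11 / 10)
    (H : ∀ s, 1 ≤ phi a b e d c s) : 1 ≤ c * (a ^ 2 - b ^ 2) := by
  have hb2 : b ^ 2 ≤ 1 / 100 := by
    have := abs_le.mp hb
    nlinarith
  have he2 := abs_le.mp he
  have hb3 := abs_le.mp hb
  have hq : 0 < a ^ 2 - b ^ 2 := by nlinarith
  set w := Real.sqrt (a ^ 2 - b ^ 2) with hw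
  have hw0 : 0 < w := Real.sqrt_pos.mpr hq
  have hw2 : w ^ 2 = a ^ 2 - b ^ 2 := Real.sq_sqrt hq.le
  set s := Real.arsinh (-(b / w)) with hs
  have hsinh : Real.sinh s = -(b / w) := Real.sinh_arsinh _
  have hcosh : Real.cosh s = a / w := by
    have h1 : Real.cosh s ^ 2 = (a / w) ^ 2 := by
      rw [Real.cosh_sq, hsinh]
      field_simp
      rw [hw2]; ring
    have h2 : 0 < Real.cosh s := Real.cosh_pos s
    have h3 : 0 < a / w := by positivity
    exact (pow_left_inj₀ h2.le h3.le two_ne_zero).mp h1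
  have h := H s
  unfold phi at h
  rw [hsinh, hcosh] at h
  have e1 : (a * (a / w) + b * -(b / w)) ^ 2 = a ^ 2 - b ^ 2 := by
    have : a * (a / w) + b * -(b / w) = w := by
      field_simp
      rw [hw2]
      ring
    rw [this, hw2]
  have e2 : c * (e * (a / w) + d * -(b / w)) ^ 2 < 1 := by
    have h1 : (e * (a / w) + d * -(b / w)) ^ 2 = (e * a - d * b) ^ 2 / (a ^ 2 - b ^ 2) := by
      rw [← hw2]
      field_simp
      ring
    rw [h1]
    have h2 : (e * a - d * b) ^ 2 ≤ (22 / 100) ^ 2 := by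
      apply sq_le_sq'
      · nlinarith
      · nlinarith
    have h3 : 8 / 10 ≤ a ^ 2 - b ^ 2 := by nlinarith
    rw [← mul_div_assoc, div_lt_one hq]
    nlinarith
  rw [e1] at h
  rcases le_total ((e * (a / w) + d * -(b / w)) ^ 2) (a ^ 2 - b ^ 2) with h4 | h4
  · rwa [max_eq_left h4] at h
  · rw [max_eq_right h4] at h
    linarith

end Block

theorem block : BlockStatement := by
  intro t1 t2 t3 R a b e d c ha hb he hd hc H
  have ha' := abs_le.mp ha
  have hb' := abs_le.mp hb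
  have he' := abs_le.mp he
  have hd' := abs_le.mp hd
  have hc' := abs_le.mp hc
  have hc0 : 0 < c := by linarith
  have h1 : 1 ≤ c * (a ^ 2 - b ^ 2) :=
    Block.eval_phi (by linarith) (by linarith) hb he (by linarith) (by linarith) hc0
      (by linarith) (Block.famA R hc0 H)
  have h2 : 1 ≤ c * (d ^ 2 - e ^ 2) := by
    apply Block.eval_phi (a := d) (b := e) (e := b) (d := a) (by linarith) (by linarith) he hb
      (by linarith) (by linarith) hc0 (by linarith)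
    intro s
    have := Block.famB R hc0 H s
    unfold Block.phi at this ⊢
    rwa [max_comm] at this
  have h3 : 0 < a * d - b * e := by nlinarith
  have h4 : 1 ≤ (c * (a ^ 2 - b ^ 2)) * (c * (d ^ 2 - e ^ 2)) := by nlinarith
  have h5 : (c * (a * d - b * e)) ^ 2 =
      (c * (a ^ 2 - b ^ 2)) * (c * (d ^ 2 - e ^ 2)) + c ^ 2 * (a * e - b * d) ^ 2 := by ring
  have h6 : 1 ≤ (c * (a * d - b * e)) ^ 2 := by
    rw [h5]
    have : 0 ≤ c ^ 2 * (a * e - b * d) ^ 2 := by positivity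
    linarith
  have h7 : 0 < c * (a * d - b * e) := by positivity
  nlinarith

end Pool.Agent.Lib.MP_be9f18_nt
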