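/-!
Kernel checker for the main branch and bound of MP_be9f18_nt (definitions only, no imports, so
that the certificate modules load fast).  Everything is written with the `Nat` functions that the
kernel evaluates natively.

Conventions. `Q = 2^14`, `S = 2^15`, `M = 2^128`, `H = 2^127`.
* A box is given by 14 naturals `pl ph al ah bl bh xl xh el eh sl sh tl th` (lower and upper
  bounds of `p, a1, a2, x, |e|, s, t`); the real value is `(n - off)/Q` with `off = 0` for
  `p, a2, x, |e|`, `off = 2^16` for `a1` and `off = 2^13` for `s, t`.
* The sign of `e` is the parameter `om`, equal to `1` or `M - 1`.
* Signed integers are represented by naturals modulo `M`; `dist ((x + H) mod M) H` is the absolute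
  value of the signed integer represented by `x`.
* In units `1/S` the box has centre `pc, a1c, a2c, xc, ea, sc, tc` (`a1c, sc, tc` signed) and half
  widths `pw, a1w, a2w, xw, ew, sw, tw`; `nom = -om`, `es = om ea`, `ns = -es`, `a1a = |a1c|`.
* For the lattice point `(k,m,n)`: `v3 = k + m s + n t`, `v1 = v3 + (m + n x) a1 - n e a2`,
  `v2 = p v3 + (m + n x) a2 + n e a1`; centres `v3c = k S + m sc + n tc` (unit `1/S`),
  `v1c = k S^2 + m p1m + n p1n`, `v2c = k p2k + m p2m + n p2n` (unit `1/S^2`), and
  `u = |m S + n xc|`; half widths `v3w = |m| sw + |n| tw`, `v1w = S v3w + u a1w + |n| W1`,
  `v2w = pc v3w + pw (|v3c| + v3w) + u a2w + |n| W2`.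
* Literals: a lattice point is `k0 + 64 m0 + 2048 n0` with `k = k0 - 32`, `m = m0 - 16`,
  `n = n0 - 16`.  A row is a lattice point with `v3 > 0` and two weights:
  `k0 + 2^6 m0 + 2^11 n0 + 2^16 r + 2^26 w` (44 bits); it contributes
  `w r^3 v3 + 2^22 w |vf| - 49152 w r ≥ 0` to the combination (`f = 1` or `2` is the face).
  A leaf `L y` has header `n1 + 2^4 n2 + 2^8 mu + 2^26 nu` (44 bits, `mu, nu` in units `2^20`),
  followed by `n1` rows of face 1 and `n2` rows of face 2.
-/

set_option autoImplicit false
set_option linter.unusedVariables false

namespace Pool.Agent.Lib.MP_be9f18_nt.Chk

/-- Certificate trees. `s0 .. s6`: split of `p, a1, a2, x, |e|, s, t` at `c`.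
`S y`: the lattice point `y` has `G < 1` on the whole box.  `L y`: combination of rows.
`R`: determinant at least `7/2`, or not reduced.  `A`: contained in an accepted box. -/
inductive T : Type
  | s0 (c : Nat) (l r : T) : T
  | s1 (c : Nat) (l r : T) : T
  | s2 (c : Nat) (l r : T) : T
  | s3 (c : Nat) (l r : T) : T
  | s4 (c : Nat) (l r : T) : T
  | s5 (c : Nat) (l r : T) : T
  | s6 (c : Nat) (l r : T) : T
  | S (y : Nat) : T
  | L (y : Nat) : T
  | R : T
  | A : T

/-- `c` rows (of one face `f`; `g` is the other face), then `K`.  The centres of `vf`, `vg` are
`k fk + m fm + n fn`, `k gk + m gm + n gn`, the half widths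
`fS v3w + fp M3 + u fa + |n| fW`, `gS v3w + gp M3 + u ga + |n| gW` with `M3 = v3c + v3w`.
State: remaining literal `z`, `Gv = sum a v3c`, `Gf = sum w |vfc|`, `am = sum a m`,
`an = sum a n`, `bm = sum b m`, `bn = sum b n`, `h = sum b v3c`, `cs = sum w r`, where
`a = w r^3`, `b = 2^22 w sign(vfc)`; `bad` is zero iff all rows so far are valid. -/
noncomputable def rows
    (K : Nat → Nat → Nat → Nat → Nat → Nat → Nat → Nat → Nat → Nat → Bool)
    (sc sw tc tw xc fk fm fn fS fp fa fW gk gm gn gS gp ga gW : Nat) (c : Nat) :
    Nat → Nat → Nat → Nat → Nat → Nat → Nat → Nat → Nat → Nat → Bool :=
  @Nat.rec (fun _ => Nat → Nat → Nat → Nat → Nat → Nat → Nat → Nat → Nat → Nat → Bool)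
    K
    (fun _ ih z Gv Gf am an bm bn h cs bad =>
      (fun (m0 n0 r w : Nat) =>
      (fun (k m n na rw : Nat) =>
      (fun (v3c v3w tf u a : Nat) =>
      (fun (M3 af b : Nat) =>
      (fun (vfw Mg : Nat) =>
      (fun (d Mf : Nat) =>
        ih (Nat.shiftRight z 0x2c) (Nat.add Gv (Nat.mul a v3c)) (Nat.add Gf (Nat.mul w af))
          (Nat.add am (Nat.mul a m)) (Nat.add an (Nat.mul a n)) (Nat.add bm (Nat.mul b m))
          (Nat.add bn (Nat.mul b n)) (Nat.add h (Nat.mul b v3c)) (Nat.add cs rw)
          (Nat.add
            bad
            (Nat.add
              (Nat.add (Nat.sub 1 v3c) (Nat.sub v3c 0x10000000000))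
              (Nat.sub
                (Nat.add
                  (Nat.mul M3 (Nat.add (Nat.mul Mg Mg) (Nat.mul d d)))
                  (Nat.mul (Nat.sub v3w v3c) (Nat.mul Mf Mf)))
                0x7ffffffffffffffffff))))
        (Nat.sub vfw af) (Nat.add af vfw))
        (Nat.add
          (Nat.add (Nat.mul fS v3w) (Nat.mul fp M3))
          (Nat.add (Nat.mul u fa) (Nat.mul na fW)))
        (Nat.add
          (Nat.add
            (Nat.sub
              (Nat.mod
                (Nat.add
                  (Nat.add (Nat.add (Nat.mul k gk) (Nat.mul m gm)) (Nat.mul n gn))
                  0x80000000000000000000000000000000)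
                0x100000000000000000000000000000000)
              0x80000000000000000000000000000000)
            (Nat.sub
              0x80000000000000000000000000000000
              (Nat.mod
                (Nat.add
                  (Nat.add (Nat.add (Nat.mul k gk) (Nat.mul m gm)) (Nat.mul n gn))
                  0x80000000000000000000000000000000)
                0x100000000000000000000000000000000)))
          (Nat.add
            (Nat.add (Nat.mul gS v3w) (Nat.mul gp M3))
            (Nat.add (Nat.mul u ga) (Nat.mul na gW)))))
        (Nat.add v3c v3w)
        (Nat.add
          (Nat.sub tf 0x80000000000000000000000000000000)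
          (Nat.sub 0x80000000000000000000000000000000 tf))
        (Nat.mul
          w
          (Nat.add 0xffffffffffffffffffffffffffc00000 (Nat.mul (Nat.shiftRight tf 0x7f) 0x800000))))
        (Nat.mod
          (Nat.add (Nat.add (Nat.mul k 0x8000) (Nat.mul m sc)) (Nat.mul n tc))
          0x100000000000000000000000000000000)
        (Nat.add (Nat.mul (Nat.add (Nat.sub m0 0x10) (Nat.sub 0x10 m0)) sw) (Nat.mul na tw))
        (Nat.mod
          (Nat.add
            (Nat.add (Nat.add (Nat.mul k fk) (Nat.mul m fm)) (Nat.mul n fn))
            0x80000000000000000000000000000000)
          0x100000000000000000000000000000000)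
        (Nat.add
          (Nat.sub
            (Nat.mod
              (Nat.add
                (Nat.add (Nat.mul 0x8000 m) (Nat.mul n xc))
                0x80000000000000000000000000000000)
              0x100000000000000000000000000000000)
            0x80000000000000000000000000000000)
          (Nat.sub
            0x80000000000000000000000000000000
            (Nat.mod
              (Nat.add
                (Nat.add (Nat.mul 0x8000 m) (Nat.mul n xc))
                0x80000000000000000000000000000000)
              0x100000000000000000000000000000000)))
        (Nat.mul rw (Nat.mul r r)))
        (Nat.add (Nat.mod z 0x40) 0xffffffffffffffffffffffffffffffe0)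
        (Nat.add m0 0xfffffffffffffffffffffffffffffff0)
        (Nat.add n0 0xfffffffffffffffffffffffffffffff0)
        (Nat.add (Nat.sub n0 0x10) (Nat.sub 0x10 n0)) (Nat.mul w r))
        (Nat.mod (Nat.shiftRight z 6) 0x20) (Nat.mod (Nat.shiftRight z 0xb) 0x20)
        (Nat.mod (Nat.shiftRight z 0x10) 0x400) (Nat.mod (Nat.shiftRight z 0x1a) 0x40000))
    c

/-- The final test: the upper bound `U` (unit `1/S^3`) of the combination is negative and
`bad = 0`. -/
noncomputable def fin
    (nom pc pw a1c a1w a2c a2w xc xw ea ew sc sw tc tw es ns a1a
      mu nu Gv Gf am an c1 E1 c2 E2 hp cs bad : Nat) : Bool :=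
  (fun (N2 E2a : Nat) =>
  (fun (C1 C2 C3 C4 C5 C6 C7 C8 C9 C10 : Nat) =>
    (Nat.beq (Nat.add bad (Nat.sub 0x80000000000000000000000000000000 (Nat.mod (Nat.add (Nat.add (Nat.add (Nat.add C1 C2) (Nat.add C3 C4)) (Nat.add (Nat.add C5 C6) (Nat.add C7 C8))) (Nat.add C9 C10)) 0x100000000000000000000000000000000))) 0))
    (Nat.mul
      0x8000
      (Nat.add
        (Nat.add (Nat.mul 0x8000 Gv) (Nat.mul 0x400000 Gf))
        (Nat.mul 0xffffffffffffffffffffd00000000000 cs)))
    (Nat.add
      (Nat.mul
        mu
        (Nat.add 0x700000000000 (Nat.mul 0xffffffffffffffffffffffffffffffff (Nat.mul ea N2))))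
      (Nat.mul
        (Nat.mul 0x8000 nu)
        (Nat.add (Nat.add (Nat.mul xc xc) (Nat.mul ea ea)) 0xffffffffffffffffffffffffc0000000)))
    (Nat.mul
      0x8000
      (Nat.add
        (Nat.add
          (Nat.mul
            (Nat.add
              (Nat.sub
                (Nat.mod
                  (Nat.add hp 0x80000000000000000000000000000000)
                  0x100000000000000000000000000000000)
                0x80000000000000000000000000000000)
              (Nat.sub
                0x80000000000000000000000000000000
                (Nat.mod
                  (Nat.add hp 0x80000000000000000000000000000000)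
                  0x100000000000000000000000000000000)))
            pw)
          (Nat.mul
            (Nat.add
              (Nat.sub
                (Nat.mod
                  (Nat.add
                    (Nat.add (Nat.mul 0x8000 (Nat.add am c1)) (Nat.mul pc c2))
                    0x80000000000000000000000000000000)
                  0x100000000000000000000000000000000)
                0x80000000000000000000000000000000)
              (Nat.sub
                0x80000000000000000000000000000000
                (Nat.mod
                  (Nat.add
                    (Nat.add (Nat.mul 0x8000 (Nat.add am c1)) (Nat.mul pc c2))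
                    0x80000000000000000000000000000000)
                  0x100000000000000000000000000000000)))
            sw))
        (Nat.mul
          (Nat.add
            (Nat.sub
              (Nat.mod
                (Nat.add
                  (Nat.add (Nat.mul 0x8000 (Nat.add an E1)) (Nat.mul pc E2))
                  0x80000000000000000000000000000000)
                0x100000000000000000000000000000000)
              0x80000000000000000000000000000000)
            (Nat.sub
              0x80000000000000000000000000000000
              (Nat.mod
                (Nat.add
                  (Nat.add (Nat.mul 0x8000 (Nat.add an E1)) (Nat.mul pc E2))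
                  0x80000000000000000000000000000000)
                0x100000000000000000000000000000000)))
          tw)))
    (Nat.mul
      (Nat.add
        (Nat.sub
          (Nat.mod
            (Nat.add
              (Nat.add
                (Nat.mul
                  0x8000
                  (Nat.add (Nat.add (Nat.mul 0x8000 c1) (Nat.mul E1 xc)) (Nat.mul E2 es)))
                (Nat.mul 0xfffffffffffffffffffffffffffffffe (Nat.mul mu (Nat.mul ea a1c))))
              0x80000000000000000000000000000000)
            0x100000000000000000000000000000000)
          0x80000000000000000000000000000000)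
        (Nat.sub
          0x80000000000000000000000000000000
          (Nat.mod
            (Nat.add
              (Nat.add
                (Nat.mul
                  0x8000
                  (Nat.add (Nat.add (Nat.mul 0x8000 c1) (Nat.mul E1 xc)) (Nat.mul E2 es)))
                (Nat.mul 0xfffffffffffffffffffffffffffffffe (Nat.mul mu (Nat.mul ea a1c))))
              0x80000000000000000000000000000000)
            0x100000000000000000000000000000000)))
      a1w)
    (Nat.mul
      (Nat.add
        (Nat.sub
          (Nat.mod
            (Nat.add
              (Nat.add
                (Nat.mul
                  0x8000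
                  (Nat.add (Nat.add (Nat.mul 0x8000 c2) (Nat.mul E2 xc)) (Nat.mul E1 ns)))
                (Nat.mul 0xfffffffffffffffffffffffffffffffe (Nat.mul mu (Nat.mul ea a2c))))
              0x80000000000000000000000000000000)
            0x100000000000000000000000000000000)
          0x80000000000000000000000000000000)
        (Nat.sub
          0x80000000000000000000000000000000
          (Nat.mod
            (Nat.add
              (Nat.add
                (Nat.mul
                  0x8000
                  (Nat.add (Nat.add (Nat.mul 0x8000 c2) (Nat.mul E2 xc)) (Nat.mul E1 ns)))
                (Nat.mul 0xfffffffffffffffffffffffffffffffe (Nat.mul mu (Nat.mul ea a2c))))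
              0x80000000000000000000000000000000)
            0x100000000000000000000000000000000)))
      a2w)
    (Nat.mul
      0x8000
      (Nat.mul
        (Nat.add
          (Nat.sub
            (Nat.mod
              (Nat.add
                (Nat.add (Nat.add (Nat.mul E1 a1c) (Nat.mul E2 a2c)) (Nat.mul 2 (Nat.mul nu xc)))
                0x80000000000000000000000000000000)
              0x100000000000000000000000000000000)
            0x80000000000000000000000000000000)
          (Nat.sub
            0x80000000000000000000000000000000
            (Nat.mod
              (Nat.add
                (Nat.add (Nat.add (Nat.mul E1 a1c) (Nat.mul E2 a2c)) (Nat.mul 2 (Nat.mul nu xc)))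
                0x80000000000000000000000000000000)
              0x100000000000000000000000000000000)))
        xw))
    (Nat.mul
      (Nat.add
        (Nat.sub
          (Nat.mod
            (Nat.add
              (Nat.add
                (Nat.mul
                  0x8000
                  (Nat.add
                    (Nat.add
                      (Nat.mul E2 a1c)
                      (Nat.mul 0xffffffffffffffffffffffffffffffff (Nat.mul E1 a2c)))
                    (Nat.mul 2 (Nat.mul nu es))))
                (Nat.mul nom (Nat.mul mu N2)))
              0x80000000000000000000000000000000)
            0x100000000000000000000000000000000)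
          0x80000000000000000000000000000000)
        (Nat.sub
          0x80000000000000000000000000000000
          (Nat.mod
            (Nat.add
              (Nat.add
                (Nat.mul
                  0x8000
                  (Nat.add
                    (Nat.add
                      (Nat.mul E2 a1c)
                      (Nat.mul 0xffffffffffffffffffffffffffffffff (Nat.mul E1 a2c)))
                    (Nat.mul 2 (Nat.mul nu es))))
                (Nat.mul nom (Nat.mul mu N2)))
              0x80000000000000000000000000000000)
            0x100000000000000000000000000000000)))
      ew)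
    (Nat.mul
      0x8000
      (Nat.add
        (Nat.add
          (Nat.mul
            pw
            (Nat.add
              (Nat.mul
                (Nat.add
                  (Nat.sub
                    (Nat.mod
                      (Nat.add c2 0x80000000000000000000000000000000)
                      0x100000000000000000000000000000000)
                    0x80000000000000000000000000000000)
                  (Nat.sub
                    0x80000000000000000000000000000000
                    (Nat.mod
                      (Nat.add c2 0x80000000000000000000000000000000)
                      0x100000000000000000000000000000000)))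
                sw)
              (Nat.mul E2a tw)))
          (Nat.mul
            (Nat.add
              (Nat.sub
                (Nat.mod
                  (Nat.add E1 0x80000000000000000000000000000000)
                  0x100000000000000000000000000000000)
                0x80000000000000000000000000000000)
              (Nat.sub
                0x80000000000000000000000000000000
                (Nat.mod
                  (Nat.add E1 0x80000000000000000000000000000000)
                  0x100000000000000000000000000000000)))
            (Nat.add (Nat.mul xw a1w) (Nat.mul ew a2w))))
        (Nat.mul E2a (Nat.add (Nat.mul ew a1w) (Nat.mul xw a2w)))))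
    (Nat.mul (Nat.mul 2 (Nat.mul mu ew)) (Nat.add (Nat.mul a1a a1w) (Nat.mul a2c a2w)))
    (Nat.mul (Nat.mul 0x8000 nu) (Nat.add (Nat.mul xw xw) (Nat.mul ew ew))))
    (Nat.add (Nat.mul a1c a1c) (Nat.mul a2c a2c))
    (Nat.add
      (Nat.sub
        (Nat.mod
          (Nat.add E2 0x80000000000000000000000000000000)
          0x100000000000000000000000000000000)
        0x80000000000000000000000000000000)
      (Nat.sub
        0x80000000000000000000000000000000
        (Nat.mod
          (Nat.add E2 0x80000000000000000000000000000000)
          0x100000000000000000000000000000000)))

/-- Leaf with a combination of rows. -/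
noncomputable def leafL
    (y nom pc pw a1c a1w a2c a2w xc xw ea ew sc sw tc tw es ns a1a
      W1 W2 p1m p1n p2k p2m p2n : Nat) : Bool :=
  rows (fun z Gv Gf am an c1 E1 _ cs bad =>
      rows (fun _ Gv Gf am an c2 E2 hp cs bad =>
          fin nom pc pw a1c a1w a2c a2w xc xw ea ew sc sw tc tw es ns a1a
            (Nat.mul 0x100000 (Nat.mod (Nat.shiftRight y 8) 0x40000))
            (Nat.mul 0x100000 (Nat.mod (Nat.shiftRight y 0x1a) 0x40000))
            Gv Gf am an c1 E1 c2 E2 hp cs bad)
        sc sw tc tw xc p2k p2m p2n pc pw a2w W2 0x40000000 p1m p1n 0x8000 0 a1w W1
        (Nat.mod (Nat.shiftRight y 4) 0x10) z Gv Gf am an 0 0 0 cs bad)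
    sc sw tc tw xc 0x40000000 p1m p1n 0x8000 0 a1w W1 p2k p2m p2n pc pw a2w W2
    (Nat.mod y 0x10) (Nat.shiftRight y 0x2c) 0 0 0 0 0 0 0 0 0

/-- Leaf killed by one lattice point. -/
noncomputable def leafS (y sc sw tc tw xc pc pw a1w a2w W1 W2 p1m p1n p2k p2m p2n : Nat) : Bool :=
  (fun (k0 m0 n0 : Nat) =>
  (fun (k m n na : Nat) =>
  (fun (v3w u : Nat) =>
  (fun (M3 : Nat) =>
  (fun (M1 M2 : Nat) =>
    (Nat.beq
      (Nat.add
        (Nat.sub
          1
          (Nat.add
            (Nat.add (Nat.sub k0 0x20) (Nat.sub 0x20 k0))
            (Nat.add (Nat.add (Nat.sub m0 0x10) (Nat.sub 0x10 m0)) na)))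
        (Nat.add
          (Nat.sub (Nat.mul M3 (Nat.mul M1 M1)) 0x7ffffffffffffffffff)
          (Nat.sub (Nat.mul M3 (Nat.mul M2 M2)) 0x7ffffffffffffffffff)))
      0))
    (Nat.add
      (Nat.add
        (Nat.sub
          (Nat.mod
            (Nat.add
              (Nat.add (Nat.add (Nat.mul k 0x40000000) (Nat.mul m p1m)) (Nat.mul n p1n))
              0x80000000000000000000000000000000)
            0x100000000000000000000000000000000)
          0x80000000000000000000000000000000)
        (Nat.sub
          0x80000000000000000000000000000000
          (Nat.mod
            (Nat.add
              (Nat.add (Nat.add (Nat.mul k 0x40000000) (Nat.mul m p1m)) (Nat.mul n p1n))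
              0x80000000000000000000000000000000)
            0x100000000000000000000000000000000)))
      (Nat.add (Nat.mul 0x8000 v3w) (Nat.add (Nat.mul u a1w) (Nat.mul na W1))))
    (Nat.add
      (Nat.add
        (Nat.sub
          (Nat.mod
            (Nat.add
              (Nat.add (Nat.add (Nat.mul k p2k) (Nat.mul m p2m)) (Nat.mul n p2n))
              0x80000000000000000000000000000000)
            0x100000000000000000000000000000000)
          0x80000000000000000000000000000000)
        (Nat.sub
          0x80000000000000000000000000000000
          (Nat.mod
            (Nat.add
              (Nat.add (Nat.add (Nat.mul k p2k) (Nat.mul m p2m)) (Nat.mul n p2n))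
              0x80000000000000000000000000000000)
            0x100000000000000000000000000000000)))
      (Nat.add (Nat.add (Nat.mul pc v3w) (Nat.mul pw M3)) (Nat.add (Nat.mul u a2w) (Nat.mul na W2)))))
    (Nat.add
      (Nat.add
        (Nat.sub
          (Nat.mod
            (Nat.add
              (Nat.add (Nat.add (Nat.mul k 0x8000) (Nat.mul m sc)) (Nat.mul n tc))
              0x80000000000000000000000000000000)
            0x100000000000000000000000000000000)
          0x80000000000000000000000000000000)
        (Nat.sub
          0x80000000000000000000000000000000
          (Nat.mod
            (Nat.add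
              (Nat.add (Nat.add (Nat.mul k 0x8000) (Nat.mul m sc)) (Nat.mul n tc))
              0x80000000000000000000000000000000)
            0x100000000000000000000000000000000)))
      v3w))
    (Nat.add (Nat.mul (Nat.add (Nat.sub m0 0x10) (Nat.sub 0x10 m0)) sw) (Nat.mul na tw))
    (Nat.add
      (Nat.sub
        (Nat.mod
          (Nat.add (Nat.add (Nat.mul 0x8000 m) (Nat.mul n xc)) 0x80000000000000000000000000000000)
          0x100000000000000000000000000000000)
        0x80000000000000000000000000000000)
      (Nat.sub
        0x80000000000000000000000000000000
        (Nat.mod
          (Nat.add (Nat.add (Nat.mul 0x8000 m) (Nat.mul n xc)) 0x80000000000000000000000000000000)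
          0x100000000000000000000000000000000))))
    (Nat.add k0 0xffffffffffffffffffffffffffffffe0)
    (Nat.add m0 0xfffffffffffffffffffffffffffffff0)
    (Nat.add n0 0xfffffffffffffffffffffffffffffff0) (Nat.add (Nat.sub n0 0x10) (Nat.sub 0x10 n0)))
    (Nat.mod y 0x40) (Nat.mod (Nat.shiftRight y 6) 0x20) (Nat.mod (Nat.shiftRight y 0xb) 0x20)

/-- `md = 0`: leaf `S y`, otherwise leaf `L y`. -/
noncomputable def fr3
    (md y nom pc pw a1c a1w a2c a2w xc xw ea ew sc sw tc tw es ns a1a
      W1 W2 p1m p1n p2k p2m p2n : Nat) : Bool :=
  @Nat.rec (fun _ => Bool)
    (leafS y sc sw tc tw xc pc pw a1w a2w W1 W2 p1m p1n p2k p2m p2n)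
    (fun _ _ => leafL y nom pc pw a1c a1w a2c a2w xc xw ea ew sc sw tc tw es ns a1a
      W1 W2 p1m p1n p2k p2m p2n)
    md

noncomputable def fr2
    (md y nom pc pw a1c a1w a2c a2w xc xw ea ew sc sw tc tw es ns a1a
      b1 b2 A1 A2 : Nat) : Bool :=
  fr3 md y nom pc pw a1c a1w a2c a2w xc xw ea ew sc sw tc tw es ns a1a
    (Nat.add (Nat.mul xw A1) (Nat.add (Nat.mul ea a2w) (Nat.mul ew A2)))
    (Nat.add (Nat.mul xw A2) (Nat.add (Nat.mul ea a1w) (Nat.mul ew A1)))
    (Nat.mul 0x8000 (Nat.add sc a1c)) (Nat.add (Nat.mul 0x8000 tc) b1) (Nat.mul 0x8000 pc)
    (Nat.add (Nat.mul pc sc) (Nat.mul 0x8000 a2c)) (Nat.add (Nat.mul pc tc) b2)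

noncomputable def fr1
    (md y nom pc pw a1c a1w a2c a2w xc xw ea ew sc sw tc tw es ns a1a : Nat) : Bool :=
  fr2 md y nom pc pw a1c a1w a2c a2w xc xw ea ew sc sw tc tw es ns a1a
    (Nat.add (Nat.mul xc a1c) (Nat.mul ns a2c)) (Nat.add (Nat.mul xc a2c) (Nat.mul es a1c))
    (Nat.add a1a a1w) (Nat.add a2c a2w)

noncomputable def fr0
    (md y om nom pc pw a1c a1w a2c a2w xc xw ea ew sc sw tc tw a1o : Nat) : Bool :=
  fr1 md y nom pc pw a1c a1w a2c a2w xc xw ea ew sc sw tc tw
    (Nat.mul om ea) (Nat.mul nom ea) (Nat.add (Nat.sub a1o 0x20000) (Nat.sub 0x20000 a1o))

/-- Leaf `S y` (`md = 0`) or `L y` (`md = 1`) on a box. -/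
noncomputable def fr (md y om pl ph al ah bl bh xl xh el eh sl sh tl th : Nat) : Bool :=
  fr0 md y om (Nat.sub 0x100000000000000000000000000000000 om)
    (Nat.add pl ph) (Nat.sub ph pl) (Nat.add (Nat.add al ah) 0xfffffffffffffffffffffffffffe0000)
    (Nat.sub ah al) (Nat.add bl bh) (Nat.sub bh bl) (Nat.add xl xh) (Nat.sub xh xl)
    (Nat.add el eh) (Nat.sub eh el) (Nat.add (Nat.add sl sh) 0xffffffffffffffffffffffffffffc000)
    (Nat.sub sh sl) (Nat.add (Nat.add tl th) 0xffffffffffffffffffffffffffffc000) (Nat.sub th tl)
    (Nat.add al ah)

/-- `R` leaf: `|e| |α|² ≥ 7/2` on the box, or `x² + e² < 1` on the box. -/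
noncomputable def leafR (al ah bl xh el eh : Nat) : Bool :=
  (Nat.beq
    (Nat.mul
      (Nat.sub
        0x1c0000000000
        (Nat.mul
          (Nat.mul 2 el)
          (Nat.add
            (Nat.mul
              (Nat.add (Nat.sub al 0x10000) (Nat.sub 0x10000 ah))
              (Nat.add (Nat.sub al 0x10000) (Nat.sub 0x10000 ah)))
            (Nat.mul bl bl))))
      (Nat.sub (Nat.add (Nat.add (Nat.mul xh xh) (Nat.mul eh eh)) 1) 0x10000000))
    0)

/-- Zero iff the first box is contained in the second one. -/
noncomputable def inB (pl ph al ah bl bh xl xh el eh sl sh tl th
    pl' ph' al' ah' bl' bh' xl' xh' el' eh' sl' sh' tl' th' : Nat) : Nat :=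
  (Nat.add
    (Nat.add
      (Nat.add
        (Nat.add
          (Nat.add
            (Nat.add
              (Nat.add (Nat.sub pl' pl) (Nat.sub ph ph'))
              (Nat.add (Nat.sub al' al) (Nat.sub ah ah')))
            (Nat.add (Nat.sub bl' bl) (Nat.sub bh bh')))
          (Nat.add (Nat.sub xl' xl) (Nat.sub xh xh')))
        (Nat.add (Nat.sub el' el) (Nat.sub eh eh')))
      (Nat.add (Nat.sub sl' sl) (Nat.sub sh sh')))
    (Nat.add (Nat.sub tl' tl) (Nat.sub th th')))

/-- `A` leaf: the box lies in one of the accepted boxes (two for `e > 0`, four for `e < 0`). -/
noncomputable def leafA (om pl ph al ah bl bh xl xh el eh sl sh tl th : Nat) : Bool :=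
  (Nat.beq
    (Nat.mul
      (Nat.add
        (Nat.sub om 1)
        (Nat.mul
          (inB
            pl
            ph
            al
            ah
            bl
            bh
            xl
            xh
            el
            eh
            sl
            sh
            tl
            th
            0
            6144
            62464
            75776
            22528
            28672
            0
            8192
            18432
            27648
            256
            1536
            4352
            5632)
          (inB
            pl
            ph
            al
            ah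
            bl
            bh
            xl
            xh
            el
            eh
            sl
            sh
            tl
            th
            0
            7168
            59392
            69632
            21760
            27904
            0
            8192
            20992
            28672
            14848
            16128
            11520
            12800)))
      (Nat.add
        (Nat.sub 0xffffffffffffffffffffffffffffffff om)
        (Nat.mul
          (Nat.mul
            (Nat.mul
              (inB
                pl
                ph
                al
                ah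
                bl
                bh
                xl
                xh
                el
                eh
                sl
                sh
                tl
                th
                0
                7680
                67072
                75776
                23040
                30720
                0
                7168
                15872
                25600
                256
                1536
                10752
                12032)
              (inB
                pl
                ph
                al
                ah
                bl
                bh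
                xl
                xh
                el
                eh
                sl
                sh
                tl
                th
                1536
                7680
                63488
                69632
                22528
                28160
                0
                6144
                20480
                27648
                14848
                16128
                3584
                4864))
            (inB
              pl
              ph
              al
              ah
              bl
              bh
              xl
              xh
              el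
              eh
              sl
              sh
              tl
              th
              0
              4096
              55296
              66560
              21760
              27648
              0
              8192
              19456
              28160
              14848
              16128
              10752
              12032))
          (inB
            pl
            ph
            al
            ah
            bl
            bh
            xl
            xh
            el
            eh
            sl
            sh
            tl
            th
            0
            3072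
            61440
            68608
            22528
            27648
            2048
            8192
            21504
            27648
            256
            1536
            3584
            4864))))
    0)

/-- The checker. -/
noncomputable def check (om : Nat) (t : T) :
    Nat → Nat → Nat → Nat → Nat → Nat → Nat → Nat → Nat → Nat → Nat → Nat → Nat → Nat → Bool :=
  @T.rec (fun _ => Nat → Nat → Nat → Nat → Nat → Nat → Nat → Nat → Nat → Nat → Nat → Nat →
      Nat → Nat → Bool)
    (fun c _ _ hl hr pl ph al ah bl bh xl xh el eh sl sh tl th =>
      @Bool.rec (fun _ => Bool) Bool.false
        (@Bool.rec (fun _ => Bool) Bool.false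
          (hr c ph al ah bl bh xl xh el eh sl sh tl th)
          (hl pl c al ah bl bh xl xh el eh sl sh tl th))
        (Nat.ble c ph))
    (fun c _ _ hl hr pl ph al ah bl bh xl xh el eh sl sh tl th =>
      @Bool.rec (fun _ => Bool) Bool.false
        (@Bool.rec (fun _ => Bool) Bool.false
          (hr pl ph c ah bl bh xl xh el eh sl sh tl th)
          (hl pl ph al c bl bh xl xh el eh sl sh tl th))
        (Nat.ble c ah))
    (fun c _ _ hl hr pl ph al ah bl bh xl xh el eh sl sh tl th =>
      @Bool.rec (fun _ => Bool) Bool.false
        (@Bool.rec (fun _ => Bool) Bool.false
          (hr pl ph al ah c bh xl xh el eh sl sh tl th)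
          (hl pl ph al ah bl c xl xh el eh sl sh tl th))
        (Nat.ble c bh))
    (fun c _ _ hl hr pl ph al ah bl bh xl xh el eh sl sh tl th =>
      @Bool.rec (fun _ => Bool) Bool.false
        (@Bool.rec (fun _ => Bool) Bool.false
          (hr pl ph al ah bl bh c xh el eh sl sh tl th)
          (hl pl ph al ah bl bh xl c el eh sl sh tl th))
        (Nat.ble c xh))
    (fun c _ _ hl hr pl ph al ah bl bh xl xh el eh sl sh tl th =>
      @Bool.rec (fun _ => Bool) Bool.false
        (@Bool.rec (fun _ => Bool) Bool.false
          (hr pl ph al ah bl bh xl xh c eh sl sh tl th)
          (hl pl ph al ah bl bh xl xh el c sl sh tl th))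
        (Nat.ble c eh))
    (fun c _ _ hl hr pl ph al ah bl bh xl xh el eh sl sh tl th =>
      @Bool.rec (fun _ => Bool) Bool.false
        (@Bool.rec (fun _ => Bool) Bool.false
          (hr pl ph al ah bl bh xl xh el eh c sh tl th)
          (hl pl ph al ah bl bh xl xh el eh sl c tl th))
        (Nat.ble c sh))
    (fun c _ _ hl hr pl ph al ah bl bh xl xh el eh sl sh tl th =>
      @Bool.rec (fun _ => Bool) Bool.false
        (@Bool.rec (fun _ => Bool) Bool.false
          (hr pl ph al ah bl bh xl xh el eh sl sh c th)
          (hl pl ph al ah bl bh xl xh el eh sl sh tl c))
        (Nat.ble c th))
    (fun y pl ph al ah bl bh xl xh el eh sl sh tl th =>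
      fr 0 y om pl ph al ah bl bh xl xh el eh sl sh tl th)
    (fun y pl ph al ah bl bh xl xh el eh sl sh tl th =>
      fr 1 y om pl ph al ah bl bh xl xh el eh sl sh tl th)
    (fun _ _ al ah bl _ _ xh el eh _ _ _ _ => leafR al ah bl xh el eh)
    (fun pl ph al ah bl bh xl xh el eh sl sh tl th =>
      leafA om pl ph al ah bl bh xl xh el eh sl sh tl th)
    t

end Pool.Agent.Lib.MP_be9f18_nt.Chk
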