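import Pool.Agent.Lib.MP_be9f18_nt.Defs

/-!
Real lemmas behind the kernel checker of the branch-and-bound (problem MP_be9f18_nt):
centred bounds for the coordinates of a lattice point, the linear inequality obtained from one
lattice point, and the upper bound of the dual (Farkas) combination.

Everything is stated over `ℝ` with a positive scale `S`; `c` is a centre and `w` a half-width,
i.e. the hypotheses read `|S * z - c| ≤ w`.
-/

set_option autoImplicit false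

namespace Pool.Agent.Lib.MP_be9f18_nt
namespace Core

/-- third coordinate -/
theorem v3_bound {S s t sc tc sw tw : ℝ} (k m n : ℝ)
    (hs : |S * s - sc| ≤ sw) (ht : |S * t - tc| ≤ tw) :
    |S * (k + m * s + n * t) - (k * S + m * sc + n * tc)| ≤ |m| * sw + |n| * tw := by
  have e : S * (k + m * s + n * t) - (k * S + m * sc + n * tc)
      = m * (S * s - sc) + n * (S * t - tc) := by ring
  rw [e]
  refine (abs_add_le _ _).trans ?_
  rw [abs_mul, abs_mul]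
  exact add_le_add (mul_le_mul_of_nonneg_left hs (abs_nonneg _))
    (mul_le_mul_of_nonneg_left ht (abs_nonneg _))

theorem abs_mul_le {a b A B : ℝ} (ha : |a| ≤ A) (hb : |b| ≤ B) : |a * b| ≤ A * B := by
  rw [abs_mul]
  exact mul_le_mul ha hb (abs_nonneg _) ((abs_nonneg _).trans ha)

/-- `|S z| ≤ |c| + w`. -/
theorem abs_le_of {S z c w : ℝ} (h : |S * z - c| ≤ w) : |S * z| ≤ |c| + w := by
  have := abs_add_le c (S * z - c)
  have e : c + (S * z - c) = S * z := by ring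
  rw [e] at this
  linarith

/-- first coordinate -/
theorem v1_bound {S a1 a2 x e v3 a1c a2c xc ec v3c a1w a2w xw ew v3w : ℝ} (m n : ℝ)
    (hS : 0 ≤ S)
    (h1 : |S * a1 - a1c| ≤ a1w) (h2 : |S * a2 - a2c| ≤ a2w)
    (hx : |S * x - xc| ≤ xw) (he : |S * e - ec| ≤ ew) (h3 : |S * v3 - v3c| ≤ v3w) :
    |S ^ 2 * (v3 + (m + n * x) * a1 - n * e * a2)
        - (S * v3c + S * m * a1c + n * (xc * a1c - ec * a2c))| ≤
      S * v3w + |m * S + n * xc| * a1w
        + |n| * (xw * (|a1c| + a1w) + |ec| * a2w + ew * (|a2c| + a2w)) := by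
  have e1 : S ^ 2 * (v3 + (m + n * x) * a1 - n * e * a2)
        - (S * v3c + S * m * a1c + n * (xc * a1c - ec * a2c))
      = S * (S * v3 - v3c) + (m * S + n * xc) * (S * a1 - a1c)
        + n * ((S * x - xc) * (S * a1) - ec * (S * a2 - a2c) - (S * e - ec) * (S * a2)) := by
    ring
  rw [e1]
  refine (abs_add_le _ _).trans ?_
  refine add_le_add ((abs_add_le _ _).trans (add_le_add ?_ ?_)) ?_
  · exact abs_mul_le (abs_of_nonneg hS).le h3
  · exact abs_mul_le le_rfl h1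
  · refine abs_mul_le le_rfl ?_
    refine (abs_sub _ _).trans (add_le_add ((abs_sub _ _).trans (add_le_add ?_ ?_)) ?_)
    · exact abs_mul_le hx (abs_le_of h1)
    · exact abs_mul_le le_rfl h2
    · exact abs_mul_le he (abs_le_of h2)

/-- second coordinate -/
theorem v2_bound {S p a1 a2 x e v3 pc a1c a2c xc ec v3c pw a1w a2w xw ew v3w : ℝ} (m n : ℝ)
    (hpc : 0 ≤ pc) (hp : |S * p - pc| ≤ pw)
    (h1 : |S * a1 - a1c| ≤ a1w) (h2 : |S * a2 - a2c| ≤ a2w)
    (hx : |S * x - xc| ≤ xw) (he : |S * e - ec| ≤ ew) (h3 : |S * v3 - v3c| ≤ v3w) :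
    |S ^ 2 * (p * v3 + (m + n * x) * a2 + n * e * a1)
        - (pc * v3c + S * m * a2c + n * (xc * a2c + ec * a1c))| ≤
      pc * v3w + pw * (|v3c| + v3w) + |m * S + n * xc| * a2w
        + |n| * (xw * (|a2c| + a2w) + |ec| * a1w + ew * (|a1c| + a1w)) := by
  have e1 : S ^ 2 * (p * v3 + (m + n * x) * a2 + n * e * a1)
        - (pc * v3c + S * m * a2c + n * (xc * a2c + ec * a1c))
      = pc * (S * v3 - v3c) + (S * p - pc) * (S * v3) + (m * S + n * xc) * (S * a2 - a2c)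
        + n * ((S * x - xc) * (S * a2) + ec * (S * a1 - a1c) + (S * e - ec) * (S * a1)) := by
    ring
  rw [e1]
  refine (abs_add_le _ _).trans ?_
  refine add_le_add ((abs_add_le _ _).trans (add_le_add ((abs_add_le _ _).trans
    (add_le_add ?_ ?_)) ?_)) ?_
  · exact abs_mul_le (abs_of_nonneg hpc).le h3
  · exact abs_mul_le hp (abs_le_of h3)
  · exact abs_mul_le le_rfl h2
  · refine abs_mul_le le_rfl ?_
    refine (abs_add_le _ _).trans (add_le_add ((abs_add_le _ _).trans (add_le_add ?_ ?_)) ?_)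
    · exact abs_mul_le hx (abs_le_of h2)
    · exact abs_mul_le le_rfl h1
    · exact abs_mul_le he (abs_le_of h1)

/-- weighted AM-GM for one row: `V3 V² ≥ 1` implies `r³ V3 + 2 R³ V ≥ 3 R² r`. -/
theorem amgm {V3 V r R : ℝ} (hV : 0 < V) (h : 1 ≤ V3 * V ^ 2) (hr : 0 ≤ r)
    (hR : 0 ≤ R) : 3 * R ^ 2 * r ≤ r ^ 3 * V3 + 2 * R ^ 3 * V := by
  -- multiply by `V ^ 2`: `r³ V3 V² + 2 (R V)³ ≥ r³ + 2 (RV)³ ≥ 3 r (RV)²`.
  have h2 : 0 < V ^ 2 := by positivity
  have key : 3 * r * (R * V) ^ 2 ≤ r ^ 3 + 2 * (R * V) ^ 3 := by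
    have hb : 0 ≤ R * V := by positivity
    nlinarith [mul_nonneg hr (sq_nonneg (r - R * V)), mul_nonneg hb (sq_nonneg (r - R * V)),
      mul_nonneg (add_nonneg hr hb) (sq_nonneg (r - R * V))]
  have h4 : r ^ 3 * 1 ≤ r ^ 3 * (V3 * V ^ 2) := mul_le_mul_of_nonneg_left h (by positivity)
  have h5 : (3 * R ^ 2 * r) * V ^ 2 ≤ (r ^ 3 * V3 + 2 * R ^ 3 * V) * V ^ 2 := by nlinarith
  exact le_of_mul_le_mul_right h5 h2

/-- A product of the form `|v3| v²` is `< 1` when the scaled bounds say so. -/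
theorem small_prod {S v3 v A B : ℝ} (hS : 0 < S) (h3 : |S * v3| ≤ A) (h : |S ^ 2 * v| ≤ B)
    (hAB : A * B ^ 2 < S ^ 5) : |v3| * v ^ 2 < 1 := by
  have hB : (S ^ 2 * v) ^ 2 ≤ B ^ 2 := sq_le_sq' (by linarith [neg_abs_le (S ^ 2 * v)])
    ((le_abs_self _).trans h)
  have hA : |S * v3| = S * |v3| := by rw [abs_mul, abs_of_pos hS]
  rw [hA] at h3
  have h0 : 0 ≤ S * |v3| := by positivity
  have hA0 : 0 ≤ A := h0.trans h3
  have h5 : S * |v3| * (S ^ 2 * v) ^ 2 ≤ A * B ^ 2 :=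
    mul_le_mul h3 hB (sq_nonneg _) hA0
  have h6 : S * |v3| * (S ^ 2 * v) ^ 2 = S ^ 5 * (|v3| * v ^ 2) := by ring
  have h7 : S ^ 5 * (|v3| * v ^ 2) < S ^ 5 * 1 := by linarith
  exact lt_of_mul_lt_mul_left h7 (by positivity)

/-- The row lemma.  `vf` is the coordinate of the chosen face, `vg` the other one. -/
theorem row {S v3 vf vg v3c v3w vfc vfw vgc vgw sg : ℝ} (hS : 0 < S)
    (h3 : |S * v3 - v3c| ≤ v3w) (hf : |S ^ 2 * vf - vfc| ≤ vfw)
    (hg : |S ^ 2 * vg - vgc| ≤ vgw) (hv3c : 0 ≤ v3c) (hsg : sg = 1 ∨ sg = -1)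
    (c1 : (v3c + v3w) * (|vgc| + vgw) ^ 2 < S ^ 5)
    (c2 : (v3c + v3w) * (max 0 (vfw - sg * vfc)) ^ 2 < S ^ 5)
    (c3 : (max 0 (v3w - v3c)) * (|vfc| + vfw) ^ 2 < S ^ 5)
    (hG : 1 ≤ |v3| * max (vf ^ 2) (vg ^ 2)) :
    0 < v3 ∧ 0 < sg * vf ∧ 1 ≤ v3 * (sg * vf) ^ 2 := by
  have h3' := abs_le_of h3
  rw [abs_of_nonneg hv3c] at h3'
  have hf' := abs_le_of hf
  have hg' := abs_le_of hg
  have hsg2 : sg ^ 2 = 1 := by rcases hsg with h | h <;> rw [h] <;> norm_num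
  have q1 : |v3| * vg ^ 2 < 1 := small_prod hS h3' hg' c1
  have q2 : 1 ≤ |v3| * vf ^ 2 := by
    rcases le_total (vf ^ 2) (vg ^ 2) with h | h
    · rw [max_eq_right h] at hG; linarith
    · rwa [max_eq_left h] at hG
  have q3 : 0 < v3 := by
    by_contra hneg
    push Not at hneg
    have h4 : |S * v3| ≤ max 0 (v3w - v3c) := by
      have h5 : S * v3 ≤ 0 := mul_nonpos_of_nonneg_of_nonpos hS.le hneg
      rw [abs_of_nonpos h5]
      refine le_trans ?_ (le_max_right _ _)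
      have := (abs_le.mp h3).1
      linarith
    have := small_prod hS h4 hf' c3
    linarith
  have q4 : 0 < sg * vf := by
    by_contra hneg
    push Not at hneg
    have h4 : |S ^ 2 * vf| ≤ max 0 (vfw - sg * vfc) := by
      have e1 : |S ^ 2 * vf| = |S ^ 2 * (sg * vf)| := by
        rcases hsg with h | h <;> rw [h]
        · rw [one_mul]
        · rw [neg_one_mul, mul_neg, abs_neg]
      have h5 : S ^ 2 * (sg * vf) ≤ 0 := mul_nonpos_of_nonneg_of_nonpos (by positivity) hneg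
      rw [e1, abs_of_nonpos h5]
      refine le_trans ?_ (le_max_right _ _)
      have h6 := abs_le.mp hf
      rcases hsg with h | h <;> rw [h] <;> linarith [h6.1, h6.2]
    have := small_prod hS h3' h4 c2
    linarith
  refine ⟨q3, q4, ?_⟩
  rw [mul_pow, hsg2, one_mul]
  rwa [abs_of_pos q3] at q2

/-- The row lemma in the form used by the checker. -/
theorem row_ineq {S v3 vf vg v3c v3w vfc vfw vgc vgw sg R r w : ℝ} (hS : 0 < S)
    (h3 : |S * v3 - v3c| ≤ v3w) (hf : |S ^ 2 * vf - vfc| ≤ vfw)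
    (hg : |S ^ 2 * vg - vgc| ≤ vgw) (hv3c : 0 ≤ v3c) (hsg : sg = 1 ∨ sg = -1)
    (c1 : (v3c + v3w) * (|vgc| + vgw) ^ 2 < S ^ 5)
    (c2 : (v3c + v3w) * (max 0 (vfw - sg * vfc)) ^ 2 < S ^ 5)
    (c3 : (max 0 (v3w - v3c)) * (|vfc| + vfw) ^ 2 < S ^ 5)
    (hG : 1 ≤ |v3| * max (vf ^ 2) (vg ^ 2)) (hR : 0 ≤ R) (hr : 0 ≤ r) (hw : 0 ≤ w) :
    3 * R ^ 2 * w * r ≤ w * r ^ 3 * v3 + 2 * R ^ 3 * w * sg * vf := by
  obtain ⟨-, q4, q5⟩ := row hS h3 hf hg hv3c hsg c1 c2 c3 hG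
  have := mul_le_mul_of_nonneg_left (amgm q4 q5 hr hR) hw
  nlinarith [this]

/-- upper bound of a term `L * d` -/
theorem term_le {L d w : ℝ} (h : |d| ≤ w) : L * d ≤ |L| * w :=
  (le_abs_self _).trans (abs_mul_le le_rfl h)

/-- upper bound of a bilinear term -/
theorem term2_le {c d d' w w' : ℝ} (h : |d| ≤ w) (h' : |d'| ≤ w') :
    c * (d * d') ≤ |c| * (w * w') :=
  (le_abs_self _).trans (abs_mul_le le_rfl (abs_mul_le h h'))

/-- lower bound of a bilinear term -/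
theorem term2_ge {c d d' w w' : ℝ} (h : |d| ≤ w) (h' : |d'| ≤ w') :
    -(c * (d * d')) ≤ |c| * (w * w') :=
  (neg_le_abs _).trans (abs_mul_le le_rfl (abs_mul_le h h'))

/-- The dual function. -/
noncomputable def P (K0 Ms Ns c1 E1 H2 c2 E2 C mu nu o : ℝ) (p a1 a2 x e s t : ℝ) : ℝ :=
  K0 + Ms * s + Ns * t + c1 * a1 + E1 * (x * a1 - e * a2) + p * (H2 + c2 * s + E2 * t)
    + c2 * a2 + E2 * (x * a2 + e * a1) - C + mu * (7 / 2 - o * e * (a1 ^ 2 + a2 ^ 2))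
    + nu * (x ^ 2 + e ^ 2 - 1)

/-- `S³ P` at the centre. -/
noncomputable def Pc (S K0 Ms Ns c1 E1 H2 c2 E2 C mu nu o : ℝ) (pc a1c a2c xc ec sc tc : ℝ) : ℝ :=
  S ^ 3 * K0 + S ^ 2 * Ms * sc + S ^ 2 * Ns * tc + S ^ 2 * c1 * a1c
    + S * E1 * (xc * a1c - ec * a2c) + S * pc * (H2 * S + c2 * sc + E2 * tc)
    + S ^ 2 * c2 * a2c + S * E2 * (xc * a2c + ec * a1c) - S ^ 3 * C
    + mu * (7 / 2 * S ^ 3 - o * ec * (a1c ^ 2 + a2c ^ 2))
    + nu * (S * xc ^ 2 + S * ec ^ 2 - S ^ 3)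

/-- The final bound. -/
theorem final {S K0 Ms Ns c1 E1 H2 c2 E2 C mu nu o p a1 a2 x e s t
    pc a1c a2c xc ec sc tc pw a1w a2w xw ew sw tw : ℝ} (hS : 0 ≤ S) (hmu : 0 ≤ mu)
    (hnu : 0 ≤ nu) (ho : o = 1 ∨ o = -1) (hoe : 0 ≤ o * e)
    (hp : |S * p - pc| ≤ pw) (h1 : |S * a1 - a1c| ≤ a1w) (h2 : |S * a2 - a2c| ≤ a2w)
    (hx : |S * x - xc| ≤ xw) (he : |S * e - ec| ≤ ew) (hs : |S * s - sc| ≤ sw)
    (ht : |S * t - tc| ≤ tw) :
    S ^ 3 * P K0 Ms Ns c1 E1 H2 c2 E2 C mu nu o p a1 a2 x e s t ≤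
      Pc S K0 Ms Ns c1 E1 H2 c2 E2 C mu nu o pc a1c a2c xc ec sc tc
      + |S * (H2 * S + c2 * sc + E2 * tc)| * pw
      + |S * (S * Ms + pc * c2)| * sw
      + |S * (S * Ns + pc * E2)| * tw
      + |S * (S * c1 + E1 * xc + E2 * ec) - 2 * mu * o * ec * a1c| * a1w
      + |S * (S * c2 + E2 * xc - E1 * ec) - 2 * mu * o * ec * a2c| * a2w
      + |S * (E1 * a1c + E2 * a2c) + 2 * nu * S * xc| * xw
      + |S * (E2 * a1c - E1 * a2c) - mu * o * (a1c ^ 2 + a2c ^ 2) + 2 * nu * S * ec| * ew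
      + S * (|c2| * pw * sw + |E2| * pw * tw + |E1| * (xw * a1w + ew * a2w)
          + |E2| * (ew * a1w + xw * a2w))
      + 2 * mu * ew * (|a1c| * a1w + |a2c| * a2w)
      + nu * S * (xw ^ 2 + ew ^ 2) := by
  have E : S ^ 3 * P K0 Ms Ns c1 E1 H2 c2 E2 C mu nu o p a1 a2 x e s t =
      Pc S K0 Ms Ns c1 E1 H2 c2 E2 C mu nu o pc a1c a2c xc ec sc tc
      + (S * (H2 * S + c2 * sc + E2 * tc)) * (S * p - pc)
      + (S * (S * Ms + pc * c2)) * (S * s - sc)
      + (S * (S * Ns + pc * E2)) * (S * t - tc)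
      + (S * (S * c1 + E1 * xc + E2 * ec) - 2 * mu * o * ec * a1c) * (S * a1 - a1c)
      + (S * (S * c2 + E2 * xc - E1 * ec) - 2 * mu * o * ec * a2c) * (S * a2 - a2c)
      + (S * (E1 * a1c + E2 * a2c) + 2 * nu * S * xc) * (S * x - xc)
      + (S * (E2 * a1c - E1 * a2c) - mu * o * (a1c ^ 2 + a2c ^ 2) + 2 * nu * S * ec)
          * (S * e - ec)
      + S * (c2 * ((S * p - pc) * (S * s - sc)) + E2 * ((S * p - pc) * (S * t - tc))
          + (E1 * ((S * x - xc) * (S * a1 - a1c)) - E1 * ((S * e - ec) * (S * a2 - a2c)))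
          + (E2 * ((S * e - ec) * (S * a1 - a1c)) + E2 * ((S * x - xc) * (S * a2 - a2c))))
      - 2 * (mu * (o * ((S * e - ec) * (a1c * (S * a1 - a1c) + a2c * (S * a2 - a2c)))))
      + nu * S * ((S * x - xc) ^ 2 + (S * e - ec) ^ 2)
      - mu * (S * (o * e)) * ((S * a1 - a1c) ^ 2 + (S * a2 - a2c) ^ 2) := by
    unfold P Pc
    ring
  rw [E]
  have ew0 : 0 ≤ ew := (abs_nonneg _).trans he
  have xw0 : 0 ≤ xw := (abs_nonneg _).trans hx
  have t1 := term_le (L := S * (H2 * S + c2 * sc + E2 * tc)) hp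
  have t2 := term_le (L := S * (S * Ms + pc * c2)) hs
  have t3 := term_le (L := S * (S * Ns + pc * E2)) ht
  have t4 := term_le (L := S * (S * c1 + E1 * xc + E2 * ec) - 2 * mu * o * ec * a1c) h1
  have t5 := term_le (L := S * (S * c2 + E2 * xc - E1 * ec) - 2 * mu * o * ec * a2c) h2
  have t6 := term_le (L := S * (E1 * a1c + E2 * a2c) + 2 * nu * S * xc) hx
  have t7 := term_le (L := S * (E2 * a1c - E1 * a2c) - mu * o * (a1c ^ 2 + a2c ^ 2)
    + 2 * nu * S * ec) he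
  have t8 : S * (c2 * ((S * p - pc) * (S * s - sc)) + E2 * ((S * p - pc) * (S * t - tc))
          + (E1 * ((S * x - xc) * (S * a1 - a1c)) - E1 * ((S * e - ec) * (S * a2 - a2c)))
          + (E2 * ((S * e - ec) * (S * a1 - a1c)) + E2 * ((S * x - xc) * (S * a2 - a2c))))
      ≤ S * (|c2| * pw * sw + |E2| * pw * tw + |E1| * (xw * a1w + ew * a2w)
          + |E2| * (ew * a1w + xw * a2w)) := by
    refine mul_le_mul_of_nonneg_left ?_ hS
    have u1 := term2_le (c := c2) hp hs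
    have u2 := term2_le (c := E2) hp ht
    have u3 := term2_le (c := E1) hx h1
    have u4 := term2_ge (c := E1) he h2
    have u5 := term2_le (c := E2) he h1
    have u6 := term2_le (c := E2) hx h2
    linarith
  have t9 : -(2 * (mu * (o * ((S * e - ec) * (a1c * (S * a1 - a1c) + a2c * (S * a2 - a2c))))))
      ≤ 2 * mu * ew * (|a1c| * a1w + |a2c| * a2w) := by
    have u1 : |a1c * (S * a1 - a1c) + a2c * (S * a2 - a2c)| ≤ |a1c| * a1w + |a2c| * a2w :=
      (abs_add_le _ _).trans (add_le_add (abs_mul_le le_rfl h1) (abs_mul_le le_rfl h2))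
    have u2 := abs_mul_le he u1
    have u3 : |o| ≤ 1 := by rcases ho with h | h <;> rw [h] <;> norm_num
    have u4 := abs_mul_le u3 u2
    have u5 := (neg_le_abs _).trans u4
    have u6 := mul_le_mul_of_nonneg_left u5 hmu
    linarith
  have t10 : nu * S * ((S * x - xc) ^ 2 + (S * e - ec) ^ 2) ≤ nu * S * (xw ^ 2 + ew ^ 2) := by
    refine mul_le_mul_of_nonneg_left ?_ (by positivity)
    have u1 := abs_le.mp hx
    have u2 := abs_le.mp he
    have u3 := sq_le_sq' u1.1 u1.2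
    have u4 := sq_le_sq' u2.1 u2.2
    linarith
  have t11 : 0 ≤ mu * (S * (o * e)) * ((S * a1 - a1c) ^ 2 + (S * a2 - a2c) ^ 2) := by
    positivity
  linarith

end Core
end Pool.Agent.Lib.MP_be9f18_nt
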