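import Mathlib

/-!
Definitions for the proof that the two-dimensional simultaneous Diophantine approximation
constant equals 2/7 (problem MP_be9f18_nt).
-/

set_option autoImplicit false

namespace Pool.Agent.Lib.MP_be9f18_nt

/-- `c₂(ξ₁, ξ₂)`, literally as in the frozen statement. -/
noncomputable def c2 (ξ₁ ξ₂ : ℝ) : ℝ :=
  sInf {c : ℝ | 0 < c ∧ c ≤ 1 ∧
    {x : ℤ × ℤ × ℤ | 0 < x.2.2 ∧
      (x.2.2 : ℝ) * |(x.2.2 : ℝ) * ξ₁ - (x.1 : ℝ)| ^ 2 < c ∧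
      (x.2.2 : ℝ) * |(x.2.2 : ℝ) * ξ₂ - (x.2.1 : ℝ)| ^ 2 < c}.Infinite}

/-- The distance function of the star body `|v₃| max(v₁², v₂²) ≤ 1`. -/
noncomputable def G (v1 v2 v3 : ℝ) : ℝ := |v3| * max (v1 ^ 2) (v2 ^ 2)

/-- Value of `G` at the lattice point `k P + m A + n B`, where `P = (1, p, 1)`,
`A = s P + (a1, a2, 0)`, `B = t P + (x a1 - e a2, x a2 + e a1, 0)`. -/
noncomputable def F (p a1 a2 x e s t : ℝ) (k m n : ℤ) : ℝ :=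
  G (((k : ℝ) + m * s + n * t) + ((m : ℝ) + n * x) * a1 - (n : ℝ) * e * a2)
    (p * ((k : ℝ) + m * s + n * t) + ((m : ℝ) + n * x) * a2 + (n : ℝ) * e * a1)
    ((k : ℝ) + m * s + n * t)

/-- The parameters describe a `P`-normalised, reduced lattice admissible for the star body. -/
def Adm (p a1 a2 x e s t : ℝ) : Prop :=
  0 ≤ p ∧ p ≤ 1 ∧ 0 ≤ a2 ∧ 0 ≤ x ∧ x ≤ 1 / 2 ∧ 1 ≤ x ^ 2 + e ^ 2 ∧
  |s| ≤ 1 / 2 ∧ |t| ≤ 1 / 2 ∧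
  ∀ k m n : ℤ, ¬(k = 0 ∧ m = 0 ∧ n = 0) → 1 ≤ F p a1 a2 x e s t k m n

/-- Module M2 (reduction to an admissible lattice of determinant `1 / c₂`). -/
def ReductionStatement : Prop :=
  ∀ ξ₁ ξ₂ : ℝ, (Irrational ξ₁ ∨ Irrational ξ₂) → 0 < c2 ξ₁ ξ₂ →
    ∃ p a1 a2 x e s t : ℝ, Adm p a1 a2 x e s t ∧ |e| * (a1 ^ 2 + a2 ^ 2) = 1 / c2 ξ₁ ξ₂

/-- Module M1 (lower bound). -/
def LowerStatement : Prop :=
  ∀ ε : ℝ, 0 < ε → ∃ ξ₁ ξ₂ : ℝ, (Irrational ξ₁ ∨ Irrational ξ₂) ∧ 2 / 7 - ε < c2 ξ₁ ξ₂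

/-- `t1, t2, t3` are the three roots of `X³ + X² - 2X - 1`, i.e. `2cos(2π/7)`, `2cos(6π/7)`,
`2cos(4π/7)` (in this order). -/
structure Roots (t1 t2 t3 : ℝ) : Prop where
  r1 : t1 ^ 3 + t1 ^ 2 - 2 * t1 - 1 = 0
  r2 : t2 ^ 3 + t2 ^ 2 - 2 * t2 - 1 = 0
  r3 : t3 ^ 3 + t3 ^ 2 - 2 * t3 - 1 = 0
  l1 : 1246 / 1000 < t1
  u1 : t1 < 1247 / 1000
  l2 : -1802 / 1000 < t2
  u2 : t2 < -1801 / 1000
  l3 : -446 / 1000 < t3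
  u3 : t3 < -445 / 1000

/-- `i`-th embedding of the algebraic integer `k + m θ - n θ²`. -/
def yv (t : ℝ) (k m n : ℤ) : ℝ := (k : ℝ) + m * t - n * t ^ 2

/-- Module M3 (a lattice that is a block image of the cubic field lattice). -/
def BlockStatement : Prop :=
  ∀ t1 t2 t3 : ℝ, Roots t1 t2 t3 → ∀ a b e d c : ℝ,
    |a - 1| ≤ 1 / 10 → |b| ≤ 1 / 10 → |e| ≤ 1 / 10 → |d - 1| ≤ 1 / 10 → |c - 1| ≤ 1 / 10 →
    (∀ k m n : ℤ, ¬(k = 0 ∧ m = 0 ∧ n = 0) →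
      1 ≤ G (a * ((yv t1 k m n + yv t2 k m n) / 2) + b * ((yv t1 k m n - yv t2 k m n) / 2))
            (e * ((yv t1 k m n + yv t2 k m n) / 2) + d * ((yv t1 k m n - yv t2 k m n) / 2))
            (c * yv t3 k m n)) →
    1 ≤ c * (a * d - b * e)

end Pool.Agent.Lib.MP_be9f18_nt
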