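import Mathlib
import Pool.Agent.Lib.MP_be9f18_nt.Defs

/-!
Module M1 of the proof that the two-dimensional simultaneous Diophantine approximation
constant is `2/7`: the lower bound (helper33).
-/

set_option autoImplicit false

namespace Pool.Agent.Lib.MP_be9f18_nt

/-! ### The norm form of `Z[2cos(2π/7)]` -/

/-- The norm of `k + m θ - n θ²`. -/
def NN (k m n : ℤ) : ℤ :=
  k ^ 3 - k ^ 2 * (m + 5 * n) + k * (-2 * m ^ 2 + m * n + 6 * n ^ 2) + m ^ 3 + m ^ 2 * n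
    - 2 * m * n ^ 2 - n ^ 3

theorem NN_mod2 : ∀ a b c : ZMod 2,
    a ^ 3 - a ^ 2 * (b + 5 * c) + a * (-2 * b ^ 2 + b * c + 6 * c ^ 2) + b ^ 3 + b ^ 2 * c
    - 2 * b * c ^ 2 - c ^ 3 = 0 → a = 0 ∧ b = 0 ∧ c = 0 := by
  decide

theorem NN_even {k m n : ℤ} (h : NN k m n = 0) : 2 ∣ k ∧ 2 ∣ m ∧ 2 ∣ n := by
  have h1 : ((NN k m n : ℤ) : ZMod 2) = 0 := by rw [h]; simp
  unfold NN at h1
  push_cast at h1
  obtain ⟨ha, hb, hc⟩ := NN_mod2 _ _ _ h1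
  exact ⟨(ZMod.intCast_zmod_eq_zero_iff_dvd k 2).mp ha, (ZMod.intCast_zmod_eq_zero_iff_dvd m 2).mp hb,
    (ZMod.intCast_zmod_eq_zero_iff_dvd n 2).mp hc⟩

theorem NN_eq_zero_aux : ∀ (s : ℕ) (k m n : ℤ), k.natAbs + m.natAbs + n.natAbs ≤ s →
    NN k m n = 0 → k = 0 ∧ m = 0 ∧ n = 0 := by
  intro s
  induction s with
  | zero =>
    intro k m n hs _
    omega
  | succ s ih =>
    intro k m n hs h
    obtain ⟨⟨k', rfl⟩, ⟨m', rfl⟩, ⟨n', rfl⟩⟩ := NN_even h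
    have h8 : NN (2 * k') (2 * m') (2 * n') = 8 * NN k' m' n' := by
      unfold NN; ring
    have h0 : NN k' m' n' = 0 := by
      rw [h8] at h; omega
    by_cases hz : k' = 0 ∧ m' = 0 ∧ n' = 0
    · obtain ⟨h1, h2, h3⟩ := hz
      subst h1; subst h2; subst h3
      simp
    · have := ih k' m' n' (by omega) h0
      exact absurd this hz

theorem NN_ne_zero {k m n : ℤ} (h : ¬ (k = 0 ∧ m = 0 ∧ n = 0)) : NN k m n ≠ 0 :=
  fun h0 => h (NN_eq_zero_aux _ k m n le_rfl h0)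

/-! ### The roots -/

theorem exists_roots : ∃ t1 t2 t3 : ℝ, Roots t1 t2 t3 := by
  have hcont : ∀ s : Set ℝ, ContinuousOn (fun x : ℝ => x ^ 3 + x ^ 2 - 2 * x - 1) s := by
    intro s
    fun_prop
  have h1 : (0 : ℝ) ∈ (fun x : ℝ => x ^ 3 + x ^ 2 - 2 * x - 1) ''
      Set.Ioo (1246 / 1000 : ℝ) (1247 / 1000) := by
    apply intermediate_value_Ioo (by norm_num) (hcont _)
    constructor <;> norm_num
  have h2 : (0 : ℝ) ∈ (fun x : ℝ => x ^ 3 + x ^ 2 - 2 * x - 1) ''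
      Set.Ioo (-1802 / 1000 : ℝ) (-1801 / 1000) := by
    apply intermediate_value_Ioo (by norm_num) (hcont _)
    constructor <;> norm_num
  have h3 : (0 : ℝ) ∈ (fun x : ℝ => x ^ 3 + x ^ 2 - 2 * x - 1) ''
      Set.Ioo (-446 / 1000 : ℝ) (-445 / 1000) := by
    apply intermediate_value_Ioo' (by norm_num) (hcont _)
    constructor <;> norm_num
  obtain ⟨t1, ht1, e1⟩ := h1
  obtain ⟨t2, ht2, e2⟩ := h2
  obtain ⟨t3, ht3, e3⟩ := h3
  exact ⟨t1, t2, t3, ⟨e1, e2, e3, ht1.1, ht1.2, ht2.1, ht2.2, ht3.1, ht3.2⟩⟩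

theorem Roots.e1 {t1 t2 t3 : ℝ} (h : Roots t1 t2 t3) : t1 + t2 + t3 = -1 := by
  have h12 : t1 ^ 2 + t1 * t2 + t2 ^ 2 + t1 + t2 - 2 = 0 := by
    have hne : t1 - t2 ≠ 0 := by have := h.l1; have := h.u2; intro h0; linarith
    apply mul_left_cancel₀ hne
    have := h.r1; have := h.r2
    linear_combination h.r1 - h.r2
  have h13 : t1 ^ 2 + t1 * t3 + t3 ^ 2 + t1 + t3 - 2 = 0 := by
    have hne : t1 - t3 ≠ 0 := by have := h.l1; have := h.u3; intro h0; linarith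
    apply mul_left_cancel₀ hne
    linear_combination h.r1 - h.r3
  have hne : t2 - t3 ≠ 0 := by have := h.u2; have := h.l3; intro h0; linarith
  have : (t2 - t3) * (t1 + t2 + t3 + 1) = 0 := by
    linear_combination h12 - h13
  rcases mul_eq_zero.mp this with h0 | h0
  · exact absurd h0 hne
  · linarith

theorem Roots.e2 {t1 t2 t3 : ℝ} (h : Roots t1 t2 t3) : t1 * t2 + t1 * t3 + t2 * t3 = -2 := by
  have h12 : t1 ^ 2 + t1 * t2 + t2 ^ 2 + t1 + t2 - 2 = 0 := by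
    have hne : t1 - t2 ≠ 0 := by have := h.l1; have := h.u2; intro h0; linarith
    apply mul_left_cancel₀ hne
    linear_combination h.r1 - h.r2
  have h3 : t3 = -1 - t1 - t2 := by have := h.e1; linarith
  subst h3
  linear_combination -h12

theorem Roots.e3 {t1 t2 t3 : ℝ} (h : Roots t1 t2 t3) : t1 * t2 * t3 = 1 := by
  have h1 := h.e1
  have h2 := h.e2
  have h3 : t1 * t2 = -2 - t3 * (t1 + t2) := by linarith
  have h4 : t1 + t2 = -1 - t3 := by linarith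
  rw [h3, h4]
  linear_combination h.r3

theorem Roots.norm_eq {t1 t2 t3 : ℝ} (h : Roots t1 t2 t3) (k m n : ℤ) :
    yv t1 k m n * yv t2 k m n * yv t3 k m n = (NN k m n : ℝ) := by
  have key : yv t1 k m n * yv t2 k m n * yv t3 k m n =
      (k : ℝ) ^ 3 + k ^ 2 * (m * (t1 + t2 + t3)
        - n * ((t1 + t2 + t3) ^ 2 - 2 * (t1 * t2 + t1 * t3 + t2 * t3)))
      + k * (m ^ 2 * (t1 * t2 + t1 * t3 + t2 * t3)
        - m * n * ((t1 + t2 + t3) * (t1 * t2 + t1 * t3 + t2 * t3) - 3 * (t1 * t2 * t3))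
        + n ^ 2 * ((t1 * t2 + t1 * t3 + t2 * t3) ^ 2 - 2 * (t1 + t2 + t3) * (t1 * t2 * t3)))
      + (t1 * t2 * t3) * (m ^ 3 - m ^ 2 * n * (t1 + t2 + t3)
        + m * n ^ 2 * (t1 * t2 + t1 * t3 + t2 * t3) - n ^ 3 * (t1 * t2 * t3)) := by
    unfold yv
    ring
  rw [key, h.e1, h.e2, h.e3]
  unfold NN
  push_cast
  ring

/-- The Vandermonde determinant is `-7` (in this order). -/
theorem Roots.vandermonde {t1 t2 t3 : ℝ} (h : Roots t1 t2 t3) :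
    (t1 - t2) * (t3 - t1) * (t3 - t2) = -7 := by
  have hsq : ((t1 - t2) * (t3 - t1) * (t3 - t2)) ^ 2 = 49 := by
    have : ((t1 - t2) * (t3 - t1) * (t3 - t2)) ^ 2 =
        (t1 + t2 + t3) ^ 2 * (t1 * t2 + t1 * t3 + t2 * t3) ^ 2
        - 4 * (t1 * t2 + t1 * t3 + t2 * t3) ^ 3
        - 4 * (t1 + t2 + t3) ^ 3 * (t1 * t2 * t3)
        + 18 * (t1 + t2 + t3) * (t1 * t2 + t1 * t3 + t2 * t3) * (t1 * t2 * t3)
        - 27 * (t1 * t2 * t3) ^ 2 := by ring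
    rw [this, h.e1, h.e2, h.e3]
    norm_num
  have hneg : (t1 - t2) * (t3 - t1) * (t3 - t2) < 0 := by
    have h1 : 0 < t1 - t2 := by have := h.l1; have := h.u2; linarith
    have h2 : t3 - t1 < 0 := by have := h.l1; have := h.u3; linarith
    have h3 : 0 < t3 - t2 := by have := h.u2; have := h.l3; linarith
    exact mul_neg_of_neg_of_pos (mul_neg_of_pos_of_neg h1 h2) h3
  nlinarith [hsq, hneg]

/-- Nonzero elements have norm at least one in absolute value. -/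
theorem Roots.one_le {t1 t2 t3 : ℝ} (h : Roots t1 t2 t3) {k m n : ℤ}
    (hne : ¬ (k = 0 ∧ m = 0 ∧ n = 0)) :
    1 ≤ |yv t1 k m n * yv t2 k m n| * |yv t3 k m n| := by
  rw [← abs_mul, h.norm_eq]
  have h1 : (1 : ℤ) ≤ |NN k m n| := Int.one_le_abs (NN_ne_zero hne)
  calc (1 : ℝ) = ((1 : ℤ) : ℝ) := by simp
    _ ≤ ((|NN k m n| : ℤ) : ℝ) := by exact_mod_cast h1
    _ = |(NN k m n : ℝ)| := by push_cast; rfl

/-! ### Dirichlet's theorem in two dimensions -/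

theorem dirichlet2 (ξ₁ ξ₂ : ℝ) (N : ℕ) (hN : 0 < N) :
    ∃ q p₁ p₂ : ℤ, 0 < q ∧ q ≤ (N : ℤ) ^ 2 ∧ |(q : ℝ) * ξ₁ - p₁| < 1 / N ∧
      |(q : ℝ) * ξ₂ - p₂| < 1 / N := by
  have hN' : (0 : ℝ) < N := by exact_mod_cast hN
  set f : ℕ → ℕ × ℕ := fun q => (⌊(N : ℝ) * Int.fract ((q : ℝ) * ξ₁)⌋₊,
    ⌊(N : ℝ) * Int.fract ((q : ℝ) * ξ₂)⌋₊) with hf
  have hlt : ∀ x : ℝ, ⌊(N : ℝ) * Int.fract x⌋₊ < N := by
    intro x
    rw [Nat.floor_lt (mul_nonneg hN'.le (Int.fract_nonneg x))]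
    calc (N : ℝ) * Int.fract x < N * 1 := by
          apply mul_lt_mul_of_pos_left (Int.fract_lt_one x) hN'
      _ = N := by ring
  have hmaps : ∀ q ∈ Finset.range (N ^ 2 + 1), f q ∈ Finset.range N ×ˢ Finset.range N := by
    intro q _
    simp only [hf, Finset.mem_product, Finset.mem_range]
    exact ⟨hlt _, hlt _⟩
  have hcard : (Finset.range N ×ˢ Finset.range N).card < (Finset.range (N ^ 2 + 1)).card := by
    rw [Finset.card_product]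
    simp only [Finset.card_range]
    nlinarith
  obtain ⟨i, hi, j, hj, hij, hfij⟩ := Finset.exists_ne_map_eq_of_card_lt_of_maps_to hcard hmaps
  -- symmetric statement for `i < j`
  have main : ∀ i j : ℕ, i ∈ Finset.range (N ^ 2 + 1) → j ∈ Finset.range (N ^ 2 + 1) → i < j →
      f i = f j → ∃ q p₁ p₂ : ℤ, 0 < q ∧ q ≤ (N : ℤ) ^ 2 ∧ |(q : ℝ) * ξ₁ - p₁| < 1 / N ∧
      |(q : ℝ) * ξ₂ - p₂| < 1 / N := by
    intro i j _ hj hlt' hfij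
    have close : ∀ ξ : ℝ, ⌊(N : ℝ) * Int.fract ((i : ℝ) * ξ)⌋₊ = ⌊(N : ℝ) * Int.fract ((j : ℝ) * ξ)⌋₊ →
        |(((j : ℤ) - (i : ℤ) : ℤ) : ℝ) * ξ - ((⌊(j : ℝ) * ξ⌋ - ⌊(i : ℝ) * ξ⌋ : ℤ) : ℝ)| < 1 / N := by
      intro ξ hξ
      have e : (((j : ℤ) - (i : ℤ) : ℤ) : ℝ) * ξ - ((⌊(j : ℝ) * ξ⌋ - ⌊(i : ℝ) * ξ⌋ : ℤ) : ℝ)
          = Int.fract ((j : ℝ) * ξ) - Int.fract ((i : ℝ) * ξ) := by
        push_cast
        unfold Int.fract
        ring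
      rw [e]
      have n1 := mul_nonneg hN'.le (Int.fract_nonneg ((i : ℝ) * ξ))
      have n2 := mul_nonneg hN'.le (Int.fract_nonneg ((j : ℝ) * ξ))
      have f1 := Nat.floor_le n1
      have f2 := Nat.floor_le n2
      have g1 := Nat.lt_floor_add_one ((N : ℝ) * Int.fract ((i : ℝ) * ξ))
      have g2 := Nat.lt_floor_add_one ((N : ℝ) * Int.fract ((j : ℝ) * ξ))
      rw [hξ] at f1 g1
      have hN1 : (N : ℝ) * (1 / N) = 1 := by field_simp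
      rw [abs_lt]
      constructor
      · by_contra hcon
        push Not at hcon
        have := mul_le_mul_of_nonneg_left hcon hN'.le
        nlinarith
      · by_contra hcon
        push Not at hcon
        have := mul_le_mul_of_nonneg_left hcon hN'.le
        nlinarith
    have hj' : j ≤ N ^ 2 := by
      have := Finset.mem_range.mp hj
      omega
    refine ⟨(j : ℤ) - (i : ℤ), _, _, by omega, ?_, close ξ₁ (congrArg Prod.fst hfij),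
      close ξ₂ (congrArg Prod.snd hfij)⟩
    have : (j : ℤ) ≤ (N : ℤ) ^ 2 := by exact_mod_cast hj'
    omega
  rcases lt_or_gt_of_ne hij with h | h
  · exact main i j hi hj h hfij
  · exact main j i hj hi h hfij.symm

theorem infinite_one (ξ₁ ξ₂ : ℝ) (hirr : Irrational ξ₁ ∨ Irrational ξ₂) :
    {x : ℤ × ℤ × ℤ | 0 < x.2.2 ∧
      (x.2.2 : ℝ) * |(x.2.2 : ℝ) * ξ₁ - (x.1 : ℝ)| ^ 2 < 1 ∧
      (x.2.2 : ℝ) * |(x.2.2 : ℝ) * ξ₂ - (x.2.1 : ℝ)| ^ 2 < 1}.Infinite := by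
  intro hfin
  -- the function whose inverse is unbounded
  have hg : ∃ g : ℤ × ℤ × ℤ → ℝ, (∀ x : ℤ × ℤ × ℤ, 0 < x.2.2 → 0 < g x) ∧
      ∀ x : ℤ × ℤ × ℤ, ∀ δ : ℝ, |(x.2.2 : ℝ) * ξ₁ - (x.1 : ℝ)| < δ →
        |(x.2.2 : ℝ) * ξ₂ - (x.2.1 : ℝ)| < δ → g x < δ := by
    rcases hirr with h | h
    · refine ⟨fun x => |(x.2.2 : ℝ) * ξ₁ - (x.1 : ℝ)|, ?_, fun x δ h1 _ => h1⟩
      intro x hx
      rw [abs_pos]
      have h2 : Irrational ((x.2.2 : ℝ) * ξ₁ - (x.1 : ℝ)) := (h.intCast_mul hx.ne').sub_intCast _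
      exact h2.ne_zero
    · refine ⟨fun x => |(x.2.2 : ℝ) * ξ₂ - (x.2.1 : ℝ)|, ?_, fun x δ _ h1 => h1⟩
      intro x hx
      rw [abs_pos]
      have h2 : Irrational ((x.2.2 : ℝ) * ξ₂ - (x.2.1 : ℝ)) := (h.intCast_mul hx.ne').sub_intCast _
      exact h2.ne_zero
  obtain ⟨g, hpos, hlt⟩ := hg
  obtain ⟨B, hB⟩ := (hfin.image (fun x => (g x)⁻¹)).bddAbove
  obtain ⟨N, hN⟩ := exists_nat_gt (max B 1)
  have hN1 : (1 : ℝ) < N := (le_max_right _ _).trans_lt hN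
  have hNB : B < N := (le_max_left _ _).trans_lt hN
  have hN0 : 0 < N := by
    have : (0 : ℝ) < N := by linarith
    exact_mod_cast this
  have hNr : (0 : ℝ) < N := by exact_mod_cast hN0
  obtain ⟨q, p₁, p₂, hq, hqN, h1, h2⟩ := dirichlet2 ξ₁ ξ₂ N hN0
  have hq' : (0 : ℝ) < q := by exact_mod_cast hq
  have hqN' : (q : ℝ) ≤ (N : ℝ) ^ 2 := by exact_mod_cast hqN
  have hsq : ∀ y : ℝ, 0 ≤ y → y < 1 / N → (q : ℝ) * y ^ 2 < 1 := by
    intro y hy0 hy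
    have h3 : y ^ 2 < (1 / N) ^ 2 := by
      apply pow_lt_pow_left₀ hy hy0 (by norm_num)
    calc (q : ℝ) * y ^ 2 < q * (1 / N) ^ 2 := mul_lt_mul_of_pos_left h3 hq'
      _ ≤ (N : ℝ) ^ 2 * (1 / N) ^ 2 := by
          apply mul_le_mul_of_nonneg_right hqN' (by positivity)
      _ = 1 := by field_simp
  have hmem : ((p₁, p₂, q) : ℤ × ℤ × ℤ) ∈ {x : ℤ × ℤ × ℤ | 0 < x.2.2 ∧
      (x.2.2 : ℝ) * |(x.2.2 : ℝ) * ξ₁ - (x.1 : ℝ)| ^ 2 < 1 ∧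
      (x.2.2 : ℝ) * |(x.2.2 : ℝ) * ξ₂ - (x.2.1 : ℝ)| ^ 2 < 1} :=
    ⟨hq, hsq _ (abs_nonneg _) h1, hsq _ (abs_nonneg _) h2⟩
  have h4 : (g (p₁, p₂, q))⁻¹ ≤ B := hB ⟨_, hmem, rfl⟩
  have h5 : g (p₁, p₂, q) < 1 / N := hlt _ _ h1 h2
  have h6 : 0 < g (p₁, p₂, q) := hpos _ hq
  have h7 : (N : ℝ) < (g (p₁, p₂, q))⁻¹ := by
    rw [lt_inv_comm₀ hNr h6]
    simpa using h5
  linarith

/-! ### The explicit family -/

section Family

variable {t1 t2 t3 : ℝ} (h : Roots t1 t2 t3) (M C1 C2 : ℤ) (hM : 10 ≤ M)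
  (A B C D Δ ξ₁ ξ₂ : ℝ)
  (hA : A = M + (t1 + t2) / 2) (hB : B = (t1 - t2) / 2)
  (hC : C = C1 + C2 * ((t1 + t2) / 2) - (t1 ^ 2 + t2 ^ 2) / 2)
  (hD : D = C2 * ((t1 - t2) / 2) - (t1 ^ 2 - t2 ^ 2) / 2)
  (hC1 : |C| ≤ 1) (hD1 : |D - M| ≤ 1) (hΔ : Δ = A * D - B * C)
  (h₁ : ξ₁ = -D / Δ) (h₂ : ξ₂ = B / Δ)

include h hM hA hB hC1 hD1 hΔ in
theorem Delta_ge : (M : ℝ) ^ 2 - 2 * M ≤ Δ := by
  have hM' : (10 : ℝ) ≤ M := by exact_mod_cast hM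
  have a1 : (M : ℝ) - 3 / 10 ≤ A := by rw [hA]; have := h.l1; have := h.l2; linarith
  have b0 : 0 ≤ B := by rw [hB]; have := h.l1; have := h.u2; linarith
  have b1 : B ≤ 16 / 10 := by rw [hB]; have := h.u1; have := h.l2; linarith
  have d1 : (M : ℝ) - 1 ≤ D := by have := (abs_le.mp hD1).1; linarith
  have c1 : C ≤ 1 := (abs_le.mp hC1).2
  have e1 : ((M : ℝ) - 3 / 10) * (M - 1) ≤ A * D :=
    mul_le_mul a1 d1 (by linarith) (by linarith)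
  have e2 : B * C ≤ 16 / 10 := by
    calc B * C ≤ B * 1 := mul_le_mul_of_nonneg_left c1 b0
      _ ≤ 16 / 10 := by linarith
  rw [hΔ]
  nlinarith

include h hM hA hB hC1 hD1 hΔ in
theorem Delta_pos : 0 < Δ := by
  have hM' : (10 : ℝ) ≤ M := by exact_mod_cast hM
  have := Delta_ge h M hM A B C D Δ hA hB hC1 hD1 hΔ
  nlinarith

include h hM hA hB hC1 hD1 hΔ h₁ h₂ in
theorem rel1 : 1 + ξ₁ * A + ξ₂ * C = 0 ∧ ξ₁ * B + ξ₂ * D = 0 := by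
  have hpos := Delta_pos h M hM A B C D Δ hA hB hC1 hD1 hΔ
  have hne := hpos.ne'
  rw [h₁, h₂]
  constructor
  · field_simp
    rw [hΔ]; ring
  · field_simp
    ring

include h hM hA hB hC hD hC1 hD1 hΔ h₁ h₂ in
theorem rel2 : 1 + ξ₁ * (M + t3) + ξ₂ * (C1 + C2 * t3 - t3 ^ 2) = 7 / 2 / Δ := by
  have hpos := Delta_pos h M hM A B C D Δ hA hB hC1 hD1 hΔ
  have hne := hpos.ne'
  have hv := h.vandermonde
  rw [h₁, h₂]
  field_simp
  rw [hΔ, hA, hB, hC, hD]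
  linear_combination (-1) * hv

include h hM hA hB hC hD hC1 hD1 hΔ h₁ h₂ in
/-- The main inequality. -/
theorem ineq (q p₁ p₂ : ℤ) (hq : 0 < q) (m : ℝ) (hm1 : |(q : ℝ) * ξ₁ - p₁| ≤ m)
    (hm2 : |(q : ℝ) * ξ₂ - p₂| ≤ m) :
    1 ≤ m ^ 2 * ((M : ℝ) + 3) ^ 2 *
      (q * (7 / 2 / Δ) + m * (|(M : ℝ) + t3| + |(C1 : ℝ) + C2 * t3 - t3 ^ 2|)) := by
  have hM' : (10 : ℝ) ≤ M := by exact_mod_cast hM
  have hpos := Delta_pos h M hM A B C D Δ hA hB hC1 hD1 hΔ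
  obtain ⟨r1, r2⟩ := rel1 h M hM A B C D Δ ξ₁ ξ₂ hA hB hC1 hD1 hΔ h₁ h₂
  have r3 := rel2 h M C1 C2 hM A B C D Δ ξ₁ ξ₂ hA hB hC hD hC1 hD1 hΔ h₁ h₂
  have hq' : (0 : ℝ) < q := by exact_mod_cast hq
  have hm0 : 0 ≤ m := (abs_nonneg _).trans hm1
  set x₁ : ℝ := (q : ℝ) * ξ₁ - p₁ with hx₁
  set x₂ : ℝ := (q : ℝ) * ξ₂ - p₂ with hx₂
  have hne : ¬ (q + p₁ * M + p₂ * C1 = 0 ∧ p₁ + p₂ * C2 = 0 ∧ p₂ = 0) := by
    rintro ⟨g1, g2, g3⟩
    subst g3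
    have : p₁ = 0 := by simpa using g2
    subst this
    simp at g1
    omega
  have hone := h.one_le hne
  have hX : (yv t1 (q + p₁ * M + p₂ * C1) (p₁ + p₂ * C2) p₂
      + yv t2 (q + p₁ * M + p₂ * C1) (p₁ + p₂ * C2) p₂) / 2 = -(x₁ * A + x₂ * C) := by
    unfold yv
    push_cast
    have : (q : ℝ) + p₁ * A + p₂ * C = -(x₁ * A + x₂ * C) := by
      rw [hx₁, hx₂]
      linear_combination (q : ℝ) * r1
    rw [← this, hA, hC]
    ring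
  have hY : (yv t1 (q + p₁ * M + p₂ * C1) (p₁ + p₂ * C2) p₂
      - yv t2 (q + p₁ * M + p₂ * C1) (p₁ + p₂ * C2) p₂) / 2 = -(x₁ * B + x₂ * D) := by
    unfold yv
    push_cast
    have : (p₁ : ℝ) * B + p₂ * D = -(x₁ * B + x₂ * D) := by
      rw [hx₁, hx₂]
      linear_combination (q : ℝ) * r2
    rw [← this, hB, hD]
    ring
  have hZ : yv t3 (q + p₁ * M + p₂ * C1) (p₁ + p₂ * C2) p₂ =
      q * (7 / 2 / Δ) - x₁ * (M + t3) - x₂ * (C1 + C2 * t3 - t3 ^ 2) := by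
    rw [← r3]
    unfold yv
    push_cast
    rw [hx₁, hx₂]
    ring
  set y1 := yv t1 (q + p₁ * M + p₂ * C1) (p₁ + p₂ * C2) p₂
  set y2 := yv t2 (q + p₁ * M + p₂ * C1) (p₁ + p₂ * C2) p₂
  set y3 := yv t3 (q + p₁ * M + p₂ * C1) (p₁ + p₂ * C2) p₂
  have hA1 : |A| ≤ M := by
    rw [hA, abs_le]; have := h.l1; have := h.u1; have := h.l2; have := h.u2
    constructor <;> linarith
  have hB1 : |B| ≤ 16 / 10 := by
    rw [hB, abs_le]; have := h.l1; have := h.u1; have := h.l2; have := h.u2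
    constructor <;> linarith
  have hD2 : |D| ≤ M + 1 := by
    obtain ⟨g1, g2⟩ := abs_le.mp hD1
    rw [abs_le]
    constructor <;> linarith
  have bX : |x₁ * A + x₂ * C| ≤ m * (M + 3) := by
    calc |x₁ * A + x₂ * C| ≤ |x₁ * A| + |x₂ * C| := abs_add_le _ _
      _ = |x₁| * |A| + |x₂| * |C| := by rw [abs_mul, abs_mul]
      _ ≤ m * M + m * 1 := by gcongr
      _ = m * (M + 3) - m * 2 := by ring
      _ ≤ m * (M + 3) := by linarith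
  have bY : |x₁ * B + x₂ * D| ≤ m * (M + 3) := by
    calc |x₁ * B + x₂ * D| ≤ |x₁ * B| + |x₂ * D| := abs_add_le _ _
      _ = |x₁| * |B| + |x₂| * |D| := by rw [abs_mul, abs_mul]
      _ ≤ m * (16 / 10) + m * (M + 1) := by gcongr
      _ = m * (M + 3) - m * (4 / 10) := by ring
      _ ≤ m * (M + 3) := by linarith
  have bXY : |y1 * y2| ≤ m ^ 2 * ((M : ℝ) + 3) ^ 2 := by
    have e : y1 * y2 = (x₁ * A + x₂ * C) ^ 2 - (x₁ * B + x₂ * D) ^ 2 := by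
      have e1 : y1 = -(x₁ * A + x₂ * C) + -(x₁ * B + x₂ * D) := by rw [← hX, ← hY]; ring
      have e2 : y2 = -(x₁ * A + x₂ * C) - -(x₁ * B + x₂ * D) := by rw [← hX, ← hY]; ring
      rw [e1, e2]; ring
    have s1 : (x₁ * A + x₂ * C) ^ 2 ≤ (m * (M + 3)) ^ 2 := by
      apply sq_le_sq'
      · have := (abs_le.mp bX).1; linarith
      · exact (abs_le.mp bX).2
    have s2 : (x₁ * B + x₂ * D) ^ 2 ≤ (m * (M + 3)) ^ 2 := by
      apply sq_le_sq'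
      · have := (abs_le.mp bY).1; linarith
      · exact (abs_le.mp bY).2
    have s3 := sq_nonneg (x₁ * A + x₂ * C)
    have s4 := sq_nonneg (x₁ * B + x₂ * D)
    rw [e, ← mul_pow, abs_le]
    constructor <;> linarith
  have bZ : |y3| ≤ q * (7 / 2 / Δ) + m * (|(M : ℝ) + t3| + |(C1 : ℝ) + C2 * t3 - t3 ^ 2|) := by
    rw [hZ]
    have hk : 0 ≤ (q : ℝ) * (7 / 2 / Δ) := by positivity
    calc |(q : ℝ) * (7 / 2 / Δ) - x₁ * (M + t3) - x₂ * (C1 + C2 * t3 - t3 ^ 2)|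
        ≤ |(q : ℝ) * (7 / 2 / Δ) - x₁ * (M + t3)| + |x₂ * (C1 + C2 * t3 - t3 ^ 2)| := abs_sub _ _
      _ ≤ |(q : ℝ) * (7 / 2 / Δ)| + |x₁ * (M + t3)| + |x₂ * (C1 + C2 * t3 - t3 ^ 2)| := by
          gcongr; exact abs_sub _ _
      _ = q * (7 / 2 / Δ) + |x₁| * |(M : ℝ) + t3| + |x₂| * |(C1 : ℝ) + C2 * t3 - t3 ^ 2| := by
          rw [abs_of_nonneg hk, abs_mul, abs_mul]
      _ ≤ q * (7 / 2 / Δ) + m * |(M : ℝ) + t3| + m * |(C1 : ℝ) + C2 * t3 - t3 ^ 2| := by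
          gcongr
      _ = _ := by ring
  calc (1 : ℝ) ≤ |y1 * y2| * |y3| := hone
    _ ≤ _ := mul_le_mul bXY bZ (abs_nonneg _) (by positivity)

include h hM hA hB hC hD hC1 hD1 hΔ h₁ h₂ in
theorem irr : Irrational ξ₁ ∨ Irrational ξ₂ := by
  by_contra hcon
  push Not at hcon
  obtain ⟨g1, g2⟩ := hcon
  unfold Irrational at g1 g2
  push Not at g1 g2
  obtain ⟨a, ha⟩ := g1
  obtain ⟨b, hb⟩ := g2
  have hda : (0 : ℤ) < a.den := by exact_mod_cast a.den_pos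
  have hdb : (0 : ℤ) < b.den := by exact_mod_cast b.den_pos
  have key := ineq h M C1 C2 hM A B C D Δ ξ₁ ξ₂ hA hB hC hD hC1 hD1 hΔ h₁ h₂
    ((a.den : ℤ) * b.den) (a.num * b.den) (b.num * a.den) (mul_pos hda hdb) 0
    (by
      have : (a : ℝ) * a.den = a.num := by exact_mod_cast Rat.mul_den_eq_num a
      rw [← ha]
      push_cast
      rw [show (a.den : ℝ) * b.den * a - a.num * b.den = (a * a.den - a.num) * b.den by ring, this]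
      simp)
    (by
      have : (b : ℝ) * b.den = b.num := by exact_mod_cast Rat.mul_den_eq_num b
      rw [← hb]
      push_cast
      rw [show (a.den : ℝ) * b.den * b - b.num * a.den = (b * b.den - b.num) * a.den by ring, this]
      simp)
  norm_num at key

include h hM hA hB hC hD hC1 hD1 hΔ h₁ h₂ in
theorem finite_of_lt {c : ℝ} (hc0 : 0 < c) (hc1 : c ≤ 1)
    (hc : c < 2 / 7 * (Δ / ((M : ℝ) + 3) ^ 2)) :
    {x : ℤ × ℤ × ℤ | 0 < x.2.2 ∧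
      (x.2.2 : ℝ) * |(x.2.2 : ℝ) * ξ₁ - (x.1 : ℝ)| ^ 2 < c ∧
      (x.2.2 : ℝ) * |(x.2.2 : ℝ) * ξ₂ - (x.2.1 : ℝ)| ^ 2 < c}.Finite := by
  have hM' : (10 : ℝ) ≤ M := by exact_mod_cast hM
  have hpos := Delta_pos h M hM A B C D Δ hA hB hC1 hD1 hΔ
  set R : ℝ := ((M : ℝ) + 3) ^ 2 with hR
  have hRpos : 0 < R := by positivity
  set E : ℝ := |(M : ℝ) + t3| + |(C1 : ℝ) + C2 * t3 - t3 ^ 2| with hE
  have hE0 : 0 ≤ E := by positivity
  set η : ℝ := 1 - R * (7 / 2 / Δ) * c with hη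
  have hη0 : 0 < η := by
    have : R * (7 / 2 / Δ) * c < R * (7 / 2 / Δ) * (2 / 7 * (Δ / R)) :=
      mul_lt_mul_of_pos_left hc (by positivity)
    have e : R * (7 / 2 / Δ) * (2 / 7 * (Δ / R)) = 1 := by field_simp
    rw [e] at this
    rw [hη]; linarith
  obtain ⟨Q, hQ⟩ := exists_nat_gt (R * E / η)
  obtain ⟨P, hP⟩ := exists_nat_gt ((Q : ℝ) * (|ξ₁| + |ξ₂|) + 1)
  apply (Set.finite_Icc ((-(P : ℤ), -(P : ℤ), 0) : ℤ × ℤ × ℤ) ((P : ℤ), (P : ℤ), (Q : ℤ))).subset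
  rintro ⟨p₁, p₂, q⟩ ⟨hq, g1, g2⟩
  simp only at hq g1 g2
  have hq' : (0 : ℝ) < q := by exact_mod_cast hq
  have hq1 : (1 : ℝ) ≤ q := by exact_mod_cast hq
  set m : ℝ := max |(q : ℝ) * ξ₁ - p₁| |(q : ℝ) * ξ₂ - p₂| with hm
  have hm0 : 0 ≤ m := (abs_nonneg _).trans (le_max_left _ _)
  have hqm : (q : ℝ) * m ^ 2 < c := by
    rcases max_choice |(q : ℝ) * ξ₁ - p₁| |(q : ℝ) * ξ₂ - p₂| with e | e
    · rw [hm, e]; exact g1
    · rw [hm, e]; exact g2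
  have hkey := ineq h M C1 C2 hM A B C D Δ ξ₁ ξ₂ hA hB hC hD hC1 hD1 hΔ h₁ h₂ q p₁ p₂ hq m
    (le_max_left _ _) (le_max_right _ _)
  rw [← hR, ← hE] at hkey
  have hmsq : m ^ 2 < 1 := by nlinarith [sq_nonneg m]
  have hm1 : m < 1 := by nlinarith
  have hq2 : (q : ℝ) ≤ Q := by
    have h3 : η * q ≤ R * E := by
      have e1 : R * (7 / 2 / Δ) * (q * m ^ 2) ≤ R * (7 / 2 / Δ) * c :=
        mul_le_mul_of_nonneg_left hqm.le (by positivity)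
      have e2 : 1 ≤ R * (7 / 2 / Δ) * (q * m ^ 2) + R * E * m ^ 3 := by
        calc (1 : ℝ) ≤ m ^ 2 * R * (q * (7 / 2 / Δ) + m * E) := hkey
          _ = _ := by ring
      have e3 : η ≤ R * E * m ^ 3 := by rw [hη]; linarith
      have e4 : (q : ℝ) * m ^ 3 ≤ 1 := by
        have : (q : ℝ) * m ^ 3 = (q * m ^ 2) * m := by ring
        rw [this]
        calc (q : ℝ) * m ^ 2 * m ≤ 1 * 1 :=
              mul_le_mul (by linarith) hm1.le hm0 (by norm_num)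
          _ = 1 := by norm_num
      calc η * q ≤ R * E * m ^ 3 * q := mul_le_mul_of_nonneg_right e3 hq'.le
        _ = R * E * (q * m ^ 3) := by ring
        _ ≤ R * E * 1 := mul_le_mul_of_nonneg_left e4 (by positivity)
        _ = R * E := by ring
    have h4 : (q : ℝ) ≤ R * E / η := by
      rw [le_div_iff₀ hη0]; linarith
    linarith
  have hp : ∀ (ξ : ℝ) (p : ℤ), |(q : ℝ) * ξ - p| ≤ m → |ξ| ≤ |ξ₁| + |ξ₂| → |(p : ℝ)| ≤ P := by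
    intro ξ p hle hξ
    calc |(p : ℝ)| = |(q : ℝ) * ξ - ((q : ℝ) * ξ - p)| := by ring_nf
      _ ≤ |(q : ℝ) * ξ| + |(q : ℝ) * ξ - p| := abs_sub _ _
      _ ≤ q * |ξ| + m := by rw [abs_mul, abs_of_pos hq']; linarith
      _ ≤ Q * (|ξ₁| + |ξ₂|) + 1 := by
          have : (q : ℝ) * |ξ| ≤ Q * (|ξ₁| + |ξ₂|) := by gcongr
          linarith
      _ ≤ P := hP.le
  have hp1 := hp ξ₁ p₁ (le_max_left _ _) (by linarith [abs_nonneg ξ₂])
  have hp2 := hp ξ₂ p₂ (le_max_right _ _) (by linarith [abs_nonneg ξ₁])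
  obtain ⟨a1, a2⟩ := abs_le.mp hp1
  obtain ⟨b1, b2⟩ := abs_le.mp hp2
  have a1' : -(P : ℤ) ≤ p₁ := by exact_mod_cast a1
  have a2' : p₁ ≤ (P : ℤ) := by exact_mod_cast a2
  have b1' : -(P : ℤ) ≤ p₂ := by exact_mod_cast b1
  have b2' : p₂ ≤ (P : ℤ) := by exact_mod_cast b2
  have q2' : q ≤ (Q : ℤ) := by exact_mod_cast hq2
  exact ⟨⟨a1', b1', hq.le⟩, ⟨a2', b2', q2'⟩⟩

include h hM hA hB hC hD hC1 hD1 hΔ h₁ h₂ in
theorem c2_ge : 2 / 7 * (Δ / ((M : ℝ) + 3) ^ 2) ≤ c2 ξ₁ ξ₂ := by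
  unfold c2
  apply le_csInf
  · exact ⟨1, one_pos, le_rfl, infinite_one ξ₁ ξ₂
      (irr h M C1 C2 hM A B C D Δ ξ₁ ξ₂ hA hB hC hD hC1 hD1 hΔ h₁ h₂)⟩
  · rintro c ⟨hc0, hc1, hinf⟩
    by_contra hlt
    push Not at hlt
    exact hinf (finite_of_lt h M C1 C2 hM A B C D Δ ξ₁ ξ₂ hA hB hC hD hC1 hD1 hΔ h₁ h₂
      hc0 hc1 hlt)

end Family

/-- Module M1: the lower bound. -/
theorem lower : LowerStatement := by
  intro ε hε
  obtain ⟨t1, t2, t3, h⟩ := exists_roots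
  obtain ⟨N, hN⟩ := exists_nat_gt (8 / ε)
  set M : ℤ := (N : ℤ) + 10 with hMdef
  have hM : 10 ≤ M := by omega
  have hM' : (10 : ℝ) ≤ M := by exact_mod_cast hM
  have hMε : 8 / ε < M := by
    rw [hMdef]; push_cast; linarith
  set B : ℝ := (t1 - t2) / 2 with hB
  have hB0 : 0 < B := by rw [hB]; have := h.l1; have := h.u2; linarith
  have hB1 : B ≤ 2 := by rw [hB]; have := h.u1; have := h.l2; linarith
  set C2 : ℤ := round (((M : ℝ) + (t1 ^ 2 - t2 ^ 2) / 2) / B) with hC2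
  set C1 : ℤ := round (-((C2 : ℝ) * ((t1 + t2) / 2)) + (t1 ^ 2 + t2 ^ 2) / 2) with hC1def
  set A : ℝ := M + (t1 + t2) / 2 with hA
  set C : ℝ := C1 + C2 * ((t1 + t2) / 2) - (t1 ^ 2 + t2 ^ 2) / 2 with hC
  set D : ℝ := C2 * ((t1 - t2) / 2) - (t1 ^ 2 - t2 ^ 2) / 2 with hD
  have hC1 : |C| ≤ 1 := by
    have := abs_sub_round (-((C2 : ℝ) * ((t1 + t2) / 2)) + (t1 ^ 2 + t2 ^ 2) / 2)
    rw [← hC1def, abs_le] at this
    rw [hC, abs_le]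
    constructor <;> linarith [this.1, this.2]
  have hD1 : |D - M| ≤ 1 := by
    have h1 := abs_sub_round (((M : ℝ) + (t1 ^ 2 - t2 ^ 2) / 2) / B)
    rw [← hC2] at h1
    have h2 : D - M = -((((M : ℝ) + (t1 ^ 2 - t2 ^ 2) / 2) / B - C2) * B) := by
      rw [hD, ← hB]
      field_simp
      ring
    rw [h2, abs_neg, abs_mul, abs_of_pos hB0]
    calc |((M : ℝ) + (t1 ^ 2 - t2 ^ 2) / 2) / B - C2| * B ≤ 1 / 2 * 2 := by gcongr
      _ = 1 := by norm_num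
  set Δ : ℝ := A * D - B * C with hΔ
  have hge := c2_ge h M C1 C2 hM A B C D Δ (-D / Δ) (B / Δ) hA hB hC hD hC1 hD1 hΔ rfl rfl
  have hirr := irr h M C1 C2 hM A B C D Δ (-D / Δ) (B / Δ) hA hB hC hD hC1 hD1 hΔ rfl rfl
  refine ⟨-D / Δ, B / Δ, hirr, lt_of_lt_of_le ?_ hge⟩
  have hΔge := Delta_ge h M hM A B C D Δ hA hB hC1 hD1 hΔ
  have hR : (0 : ℝ) < ((M : ℝ) + 3) ^ 2 := by positivity
  have h8 : 8 < ε * M := by
    rw [div_lt_iff₀ hε] at hMε; linarith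
  have : 1 - ε < Δ / ((M : ℝ) + 3) ^ 2 := by
    rw [lt_div_iff₀ hR]
    nlinarith
  linarith

end Pool.Agent.Lib.MP_be9f18_nt
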