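import Mathlib
import Pool.Agent.Lib.MP_be9f18_nt.Defs

/-!
Module M2, algebraic part: unimodular changes of a lattice basis and Gauss reduction of the
projection along the first basis vector.
-/

set_option autoImplicit false

open scoped MatrixGroups Modular

namespace Pool.Agent.Lib.MP_be9f18_nt

/-- approximate admissibility of the lattice spanned by `(1, p, 1)`, `A`, `B` inside the box of
size `R`. -/
def Latt (ε R p A1 A2 A3 B1 B2 B3 : ℝ) : Prop :=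
  ∀ k m n : ℤ, ¬(k = 0 ∧ m = 0 ∧ n = 0) →
    |(k : ℝ) + m * A1 + n * B1| ≤ R → |(k : ℝ) * p + m * A2 + n * B2| ≤ R →
    |(k : ℝ) + m * A3 + n * B3| ≤ R →
    1 - ε ≤ G ((k : ℝ) + m * A1 + n * B1) ((k : ℝ) * p + m * A2 + n * B2)
      ((k : ℝ) + m * A3 + n * B3)

theorem Latt.comb {ε R p A1 A2 A3 B1 B2 B3 : ℝ} (h : Latt ε R p A1 A2 A3 B1 B2 B3)
    (a b c d r r' : ℤ) (hdet : (a * d - b * c) ^ 2 = 1) :
    Latt ε R p (r + d * A1 + c * B1) (r * p + d * A2 + c * B2) (r + d * A3 + c * B3)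
      (r' + b * A1 + a * B1) (r' * p + b * A2 + a * B2) (r' + b * A3 + a * B3) := by
  intro k m n hne h1 h2 h3
  have e1 : (k : ℝ) + m * (r + d * A1 + c * B1) + n * (r' + b * A1 + a * B1)
      = ((k + m * r + n * r' : ℤ) : ℝ) + ((m * d + n * b : ℤ) : ℝ) * A1
        + ((m * c + n * a : ℤ) : ℝ) * B1 := by push_cast; ring
  have e2 : (k : ℝ) * p + m * (r * p + d * A2 + c * B2) + n * (r' * p + b * A2 + a * B2)
      = ((k + m * r + n * r' : ℤ) : ℝ) * p + ((m * d + n * b : ℤ) : ℝ) * A2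
        + ((m * c + n * a : ℤ) : ℝ) * B2 := by push_cast; ring
  have e3 : (k : ℝ) + m * (r + d * A3 + c * B3) + n * (r' + b * A3 + a * B3)
      = ((k + m * r + n * r' : ℤ) : ℝ) + ((m * d + n * b : ℤ) : ℝ) * A3
        + ((m * c + n * a : ℤ) : ℝ) * B3 := by push_cast; ring
  rw [e1] at h1 ⊢
  rw [e2] at h2 ⊢
  rw [e3] at h3 ⊢
  refine h _ _ _ ?_ h1 h2 h3
  rintro ⟨hk, hm, hn⟩
  have m0 : m * (a * d - b * c) = 0 := by linear_combination a * hm - b * hn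
  have n0 : n * (a * d - b * c) = 0 := by linear_combination d * hn - c * hm
  have hD : (a * d - b * c) ≠ 0 := by
    intro h0; rw [h0] at hdet; norm_num at hdet
  have m1 : m = 0 := by
    rcases mul_eq_zero.mp m0 with h | h
    · exact h
    · exact absurd h hD
  have n1 : n = 0 := by
    rcases mul_eq_zero.mp n0 with h | h
    · exact h
    · exact absurd h hD
  refine hne ⟨?_, m1, n1⟩
  rw [m1, n1] at hk
  simpa using hk

theorem exists_reduced (α1 α2 β1 β2 : ℝ) (hD : 0 < α1 * β2 - α2 * β1) :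
    ∃ a b c d : ℤ, a * d - b * c = 1 ∧ ∃ x e : ℝ, |x| ≤ 1 / 2 ∧ 1 ≤ x ^ 2 + e ^ 2 ∧
      b * α1 + a * β1 = x * (d * α1 + c * β1) - e * (d * α2 + c * β2) ∧
      b * α2 + a * β2 = x * (d * α2 + c * β2) + e * (d * α1 + c * β1) := by
  have hα : (⟨α1, α2⟩ : ℂ) ≠ 0 := by
    intro h
    have h1 : α1 = 0 := congrArg Complex.re h
    have h2 : α2 = 0 := congrArg Complex.im h
    rw [h1, h2] at hD
    norm_num at hD
  have hpos : 0 < ((⟨β1, β2⟩ : ℂ) / ⟨α1, α2⟩).im := by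
    rw [Complex.div_im]
    have hn : 0 < Complex.normSq ⟨α1, α2⟩ := Complex.normSq_pos.mpr hα
    simp only
    rw [← sub_div]
    apply div_pos _ hn
    linarith
  set z : UpperHalfPlane := ⟨(⟨β1, β2⟩ : ℂ) / ⟨α1, α2⟩, hpos⟩ with hz
  obtain ⟨g, hg⟩ := ModularGroup.exists_smul_mem_fd z
  set τ : ℂ := ((g • z : UpperHalfPlane) : ℂ) with hτ
  have hgz : τ = ((g 0 0 : ℝ) * (z : ℂ) + (g 0 1 : ℝ)) / ((g 1 0 : ℝ) * (z : ℂ) + (g 1 1 : ℝ)) := by
    rw [hτ, UpperHalfPlane.coe_specialLinearGroup_apply]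
    simp
  have hzc : (z : ℂ) = (⟨β1, β2⟩ : ℂ) / ⟨α1, α2⟩ := rfl
  have hdetg : (g 0 0) * (g 1 1) - (g 0 1) * (g 1 0) = 1 := by
    have := g.det_coe
    rw [Matrix.det_fin_two] at this
    exact this
  -- the new first vector is non-zero
  have hαc : ((g 1 0 : ℝ) : ℂ) * ⟨β1, β2⟩ + ((g 1 1 : ℝ) : ℂ) * ⟨α1, α2⟩ ≠ 0 := by
    intro h
    have h1 : (g 1 0 : ℝ) * β1 + (g 1 1 : ℝ) * α1 = 0 := by
      have := congrArg Complex.re h
      simpa using this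
    have h2 : (g 1 0 : ℝ) * β2 + (g 1 1 : ℝ) * α2 = 0 := by
      have := congrArg Complex.im h
      simpa using this
    have c0 : (g 1 0 : ℝ) * (α1 * β2 - α2 * β1) = 0 := by linear_combination α1 * h2 - α2 * h1
    have d0 : (g 1 1 : ℝ) * (α1 * β2 - α2 * β1) = 0 := by linear_combination β2 * h1 - β1 * h2
    have hc : (g 1 0 : ℝ) = 0 := by
      rcases mul_eq_zero.mp c0 with h | h
      · exact h
      · exact absurd h hD.ne'
    have hd : (g 1 1 : ℝ) = 0 := by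
      rcases mul_eq_zero.mp d0 with h | h
      · exact h
      · exact absurd h hD.ne'
    have hc' : g 1 0 = 0 := by exact_mod_cast hc
    have hd' : g 1 1 = 0 := by exact_mod_cast hd
    rw [hc', hd'] at hdetg
    norm_num at hdetg
  have key : ((g 0 0 : ℝ) : ℂ) * ⟨β1, β2⟩ + ((g 0 1 : ℝ) : ℂ) * ⟨α1, α2⟩
      = τ * (((g 1 0 : ℝ) : ℂ) * ⟨β1, β2⟩ + ((g 1 1 : ℝ) : ℂ) * ⟨α1, α2⟩) := by
    have hden : ((g 1 0 : ℝ) : ℂ) * (z : ℂ) + ((g 1 1 : ℝ) : ℂ) ≠ 0 := by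
      intro h
      apply hαc
      have : ((g 1 0 : ℝ) : ℂ) * ⟨β1, β2⟩ + ((g 1 1 : ℝ) : ℂ) * ⟨α1, α2⟩
          = (((g 1 0 : ℝ) : ℂ) * (z : ℂ) + ((g 1 1 : ℝ) : ℂ)) * ⟨α1, α2⟩ := by
        rw [hzc]; field_simp
      rw [this, h, zero_mul]
    rw [hgz, div_mul_eq_mul_div, eq_div_iff hden, hzc]
    field_simp
  refine ⟨g 0 0, g 0 1, g 1 0, g 1 1, hdetg, τ.re, τ.im, ?_, ?_, ?_, ?_⟩
  · exact hg.2
  · have := hg.1
    rw [Complex.normSq_apply] at this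
    have h2 : τ.re * τ.re + τ.im * τ.im = τ.re ^ 2 + τ.im ^ 2 := by ring
    rw [← h2]
    exact this
  · have := congrArg Complex.re key
    simp only [Complex.add_re, Complex.mul_re, Complex.ofReal_re, Complex.ofReal_im, Complex.add_im,
      Complex.mul_im, zero_mul, sub_zero, add_zero] at this
    linear_combination this
  · have := congrArg Complex.im key
    simp only [Complex.add_re, Complex.mul_re, Complex.ofReal_re, Complex.ofReal_im, Complex.add_im,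
      Complex.mul_im, zero_mul, sub_zero, add_zero] at this
    linear_combination this

/-- `Latt` in the reduced parametrisation. -/
def Red (ε R p a1 a2 x e s t : ℝ) : Prop :=
  Latt ε R p (s + a1) (p * s + a2) s (t + (x * a1 - e * a2)) (p * t + (x * a2 + e * a1)) t

theorem Red.flipB {ε R p a1 a2 x e s t : ℝ} (h : Red ε R p a1 a2 x e s t) :
    Red ε R p a1 a2 (-x) (-e) s (-t) := by
  have := Latt.comb h (-1) 0 0 1 0 0 (by norm_num)
  unfold Red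
  convert this using 1 <;> push_cast <;> ring

theorem Red.flipAB {ε R p a1 a2 x e s t : ℝ} (h : Red ε R p a1 a2 x e s t) :
    Red ε R p (-a1) (-a2) x e (-s) (-t) := by
  have := Latt.comb h (-1) 0 0 (-1) 0 0 (by norm_num)
  unfold Red
  convert this using 1 <;> push_cast <;> ring

theorem Red.shift {ε R p a1 a2 x e s t : ℝ} (h : Red ε R p a1 a2 x e s t) (r r' : ℤ) :
    Red ε R p a1 a2 x e (s - r) (t - r') := by
  have := Latt.comb h 1 0 0 1 (-r) (-r') (by norm_num)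
  unfold Red
  convert this using 1 <;> push_cast <;> ring

theorem Red.quarter {ε R p a1 a2 x e s t : ℝ} (hε : ε < 1 / 2) (hR : 1 ≤ R) (hp0 : 0 ≤ p)
    (hp1 : p ≤ 1) (hs : |s| ≤ 1 / 2) (h : Red ε R p a1 a2 x e s t) :
    1 / 4 ≤ a1 ^ 2 + a2 ^ 2 := by
  by_contra hlt
  push Not at hlt
  have h6 := h 0 1 0 (by norm_num)
  simp only [Int.cast_zero, Int.cast_one, zero_add, one_mul, zero_mul, add_zero] at h6
  clear h
  have b1 : |a1| ≤ 1 / 2 := by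
    apply abs_le_of_sq_le_sq' _ (by norm_num) |> abs_le.mpr
    nlinarith [sq_nonneg a2]
  have b2 : |a2| ≤ 1 / 2 := by
    apply abs_le_of_sq_le_sq' _ (by norm_num) |> abs_le.mpr
    nlinarith [sq_nonneg a1]
  have c1 : |s + a1| ≤ 1 := (abs_add_le _ _).trans (by linarith)
  have c2 : |p * s + a2| ≤ 1 := by
    refine (abs_add_le _ _).trans ?_
    rw [abs_mul, abs_of_nonneg hp0]
    have : p * |s| ≤ 1 * (1 / 2) := mul_le_mul hp1 hs (abs_nonneg _) (by norm_num)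
    linarith
  have h7 := h6 (c1.trans hR) (c2.trans hR) (by linarith)
  have h8 : G (s + a1) (p * s + a2) s ≤ 1 / 2 := by
    unfold G
    have m1 : (s + a1) ^ 2 ≤ 1 := by
      rw [← sq_abs]; exact pow_le_one₀ (abs_nonneg _) c1
    have m2 : (p * s + a2) ^ 2 ≤ 1 := by
      rw [← sq_abs]; exact pow_le_one₀ (abs_nonneg _) c2
    calc |s| * max ((s + a1) ^ 2) ((p * s + a2) ^ 2) ≤ (1 / 2) * 1 :=
          mul_le_mul hs (max_le m1 m2) (le_max_of_le_left (sq_nonneg _)) (by norm_num)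
      _ = 1 / 2 := by norm_num
  linarith

theorem reduce_pos {ε R p A1 A2 A3 B1 B2 B3 : ℝ} (hε : ε < 1 / 2) (hR : 1 ≤ R) (hp0 : 0 ≤ p)
    (hp1 : p ≤ 1) (h : Latt ε R p A1 A2 A3 B1 B2 B3)
    (hD : 0 < (A1 - A3) * (B2 - p * B3) - (A2 - p * A3) * (B1 - B3)) :
    ∃ a1 a2 x e s t : ℝ, 0 ≤ a2 ∧ 0 ≤ x ∧ x ≤ 1 / 2 ∧ 1 ≤ x ^ 2 + e ^ 2 ∧ |s| ≤ 1 / 2 ∧
      |t| ≤ 1 / 2 ∧
      |e| * (a1 ^ 2 + a2 ^ 2) = (A1 - A3) * (B2 - p * B3) - (A2 - p * A3) * (B1 - B3) ∧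
      1 / 4 ≤ a1 ^ 2 + a2 ^ 2 ∧ Red ε R p a1 a2 x e s t := by
  obtain ⟨a, b, c, d, hdet, x, e, hx, hxe, e1, e2⟩ :=
    exists_reduced (A1 - A3) (A2 - p * A3) (B1 - B3) (B2 - p * B3) hD
  have h1 := Latt.comb h a b c d 0 0 (by rw [hdet]; norm_num)
  set α1 : ℝ := d * (A1 - A3) + c * (B1 - B3) with hα1
  set α2 : ℝ := d * (A2 - p * A3) + c * (B2 - p * B3) with hα2
  have h2 : Red ε R p α1 α2 x e (d * A3 + c * B3) (b * A3 + a * B3) := by
    unfold Red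
    rw [← e1, ← e2]
    convert h1 using 1 <;> push_cast <;> (try rw [hα1]) <;> (try rw [hα2]) <;> ring
  have hdet' : (a : ℝ) * d - b * c = 1 := by exact_mod_cast hdet
  have hcross : e * (α1 ^ 2 + α2 ^ 2)
      = (A1 - A3) * (B2 - p * B3) - (A2 - p * A3) * (B1 - B3) := by
    have : e * (α1 ^ 2 + α2 ^ 2)
        = α1 * (x * α2 + e * α1) - α2 * (x * α1 - e * α2) := by ring
    rw [this, ← e1, ← e2, hα1, hα2]
    linear_combination
      ((A1 - A3) * (B2 - p * B3) - (A2 - p * A3) * (B1 - B3)) * hdet'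
  have hsq : 0 < α1 ^ 2 + α2 ^ 2 := by
    rcases (by positivity : (0:ℝ) ≤ α1 ^ 2 + α2 ^ 2).lt_or_eq with h | h
    · exact h
    · rw [← h, mul_zero] at hcross
      rw [← hcross] at hD
      exact absurd hD (lt_irrefl _)
  have he : 0 < e := by
    by_contra hc
    push Not at hc
    have : e * (α1 ^ 2 + α2 ^ 2) ≤ 0 := mul_nonpos_of_nonpos_of_nonneg hc hsq.le
    rw [hcross] at this
    linarith
  -- make x non-negative
  obtain ⟨x', e', t', hx0, hx1, hxe', he', h3⟩ :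
      ∃ x' e' t' : ℝ, 0 ≤ x' ∧ x' ≤ 1 / 2 ∧ 1 ≤ x' ^ 2 + e' ^ 2 ∧ |e'| = e ∧
        Red ε R p α1 α2 x' e' (d * A3 + c * B3) t' := by
    rcases le_total 0 x with h0 | h0
    · exact ⟨x, e, _, h0, (abs_le.mp hx).2, hxe, abs_of_pos he, h2⟩
    · refine ⟨-x, -e, _, by linarith, by linarith [(abs_le.mp hx).1], ?_, ?_, h2.flipB⟩
      · linarith [hxe, neg_sq x, neg_sq e]
      · rw [abs_neg]; exact abs_of_pos he
  -- make a2 non-negative
  obtain ⟨a1, a2, s', t'', ha2, hsum, h4⟩ :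
      ∃ a1 a2 s' t'' : ℝ, 0 ≤ a2 ∧ a1 ^ 2 + a2 ^ 2 = α1 ^ 2 + α2 ^ 2 ∧
        Red ε R p a1 a2 x' e' s' t'' := by
    rcases le_total 0 α2 with h0 | h0
    · exact ⟨α1, α2, _, _, h0, rfl, h3⟩
    · exact ⟨-α1, -α2, _, _, by linarith, by ring, h3.flipAB⟩
  -- rounding
  have h5 := h4.shift (round s') (round t'')
  have hs : |s' - round s'| ≤ 1 / 2 := abs_sub_round s'
  have ht : |t'' - round t''| ≤ 1 / 2 := abs_sub_round t''
  refine ⟨a1, a2, x', e', _, _, ha2, hx0, hx1, hxe', hs, ht, ?_, ?_, h5⟩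
  · rw [he', hsum, hcross]
  · exact Red.quarter hε hR hp0 hp1 hs h5

theorem reduce {ε R p A1 A2 A3 B1 B2 B3 : ℝ} (hε : ε < 1 / 2) (hR : 1 ≤ R) (hp0 : 0 ≤ p)
    (hp1 : p ≤ 1) (h : Latt ε R p A1 A2 A3 B1 B2 B3)
    (hD : 0 < |(A1 - A3) * (B2 - p * B3) - (A2 - p * A3) * (B1 - B3)|) :
    ∃ a1 a2 x e s t : ℝ, 0 ≤ a2 ∧ 0 ≤ x ∧ x ≤ 1 / 2 ∧ 1 ≤ x ^ 2 + e ^ 2 ∧ |s| ≤ 1 / 2 ∧
      |t| ≤ 1 / 2 ∧
      |e| * (a1 ^ 2 + a2 ^ 2) = |(A1 - A3) * (B2 - p * B3) - (A2 - p * A3) * (B1 - B3)| ∧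
      1 / 4 ≤ a1 ^ 2 + a2 ^ 2 ∧ Red ε R p a1 a2 x e s t := by
  rcases lt_or_ge 0 ((A1 - A3) * (B2 - p * B3) - (A2 - p * A3) * (B1 - B3)) with h0 | h0
  · rw [abs_of_pos h0]
    exact reduce_pos hε hR hp0 hp1 h h0
  · have h1 := Latt.comb h (-1) 0 0 1 0 0 (by norm_num)
    have hneg : |(A1 - A3) * (B2 - p * B3) - (A2 - p * A3) * (B1 - B3)|
        = ((A1 - A3) * (-B2 - p * (-B3)) - (A2 - p * A3) * (-B1 - (-B3))) := by
      rw [abs_of_nonpos h0]; ring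
    have h2 : Latt ε R p A1 A2 A3 (-B1) (-B2) (-B3) := by
      convert h1 using 1 <;> push_cast <;> ring
    rw [hneg] at hD ⊢
    exact reduce_pos hε hR hp0 hp1 h2 hD

end Pool.Agent.Lib.MP_be9f18_nt
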