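import Mathlib
import Pool.Agent.Lib.MP_be9f18_nt.RedAlg

/-!
Module M2: from a nearly optimal integer point to a normalised lattice.
-/

set_option autoImplicit false

namespace Pool.Agent.Lib.MP_be9f18_nt

theorem exists_basis (t1 t2 t3 : ℤ) (h3 : 0 < t3)
    (h : ∀ d : ℤ, 2 ≤ d → ¬(d ∣ t1 ∧ d ∣ t2 ∧ d ∣ t3)) :
    ∃ m1 m2 m3 n1 n2 n3 : ℤ,
      t1 * (m2 * n3 - m3 * n2) - t2 * (m1 * n3 - m3 * n1) + t3 * (m1 * n2 - m2 * n1) = 1 := by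
  set g : ℤ := (Int.gcd t1 t3 : ℤ) with hg
  have hgpos : 0 < g := by
    rw [hg]
    have : 0 < Int.gcd t1 t3 := Int.gcd_pos_of_ne_zero_right _ h3.ne'
    exact_mod_cast this
  obtain ⟨a', ha'⟩ : g ∣ t1 := Int.gcd_dvd_left ..
  obtain ⟨c', hc'⟩ : g ∣ t3 := Int.gcd_dvd_right ..
  have hbez : g = t1 * Int.gcdA t1 t3 + t3 * Int.gcdB t1 t3 := Int.gcd_eq_gcd_ab t1 t3
  set u := Int.gcdA t1 t3
  set v := Int.gcdB t1 t3
  have huv : a' * u + c' * v = 1 := by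
    have : g * (a' * u + c' * v) = g * 1 := by
      rw [mul_one]
      conv_rhs => rw [hbez]
      linear_combination -u * ha' - v * hc'
    exact mul_left_cancel₀ hgpos.ne' this
  have hcop : Int.gcd g t2 = 1 := by
    by_contra hne
    have hpos : 0 < Int.gcd g t2 := Int.gcd_pos_of_ne_zero_left _ hgpos.ne'
    have h2 : 2 ≤ Int.gcd g t2 := by omega
    refine h (Int.gcd g t2 : ℤ) (by exact_mod_cast h2) ⟨?_, Int.gcd_dvd_right .., ?_⟩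
    · exact (Int.gcd_dvd_left ..).trans ⟨a', ha'⟩
    · exact (Int.gcd_dvd_left ..).trans ⟨c', hc'⟩
  have hb2 : (1 : ℤ) = g * Int.gcdA g t2 + t2 * Int.gcdB g t2 := by
    rw [← Int.gcd_eq_gcd_ab, hcop]; norm_num
  set r := Int.gcdA g t2
  set s := Int.gcdB g t2
  refine ⟨v, 0, -u, -s * a', r, -s * c', ?_⟩
  rw [ha', hc']
  linear_combination (r * g + t2 * s) * huv - hb2

theorem latt_of_point {ξ₁ ξ₂ ε R : ℝ} (hε : ε ≤ 1 / 2) (hR : 1 ≤ R) (t1 t2 t3 : ℤ) (h3 : 0 < t3)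
    (hX : (t3 : ℝ) * ξ₁ - t1 ≠ 0) (hYX : |(t3 : ℝ) * ξ₂ - t2| ≤ |(t3 : ℝ) * ξ₁ - t1|)
    (H : ∀ w1 w2 w3 : ℤ, ¬(w1 = 0 ∧ w2 = 0 ∧ w3 = 0) →
      |(w3 : ℝ) * ξ₁ - w1| ≤ R * |(t3 : ℝ) * ξ₁ - t1| →
      |(w3 : ℝ) * ξ₂ - w2| ≤ R * |(t3 : ℝ) * ξ₁ - t1| → |(w3 : ℝ)| ≤ R * t3 →
      (1 - ε) * (t3 * ((t3 : ℝ) * ξ₁ - t1) ^ 2) ≤ G ((w3 : ℝ) * ξ₁ - w1) ((w3 : ℝ) * ξ₂ - w2) w3) :
    ∃ p A1 A2 A3 B1 B2 B3 : ℝ, 0 ≤ p ∧ p ≤ 1 ∧ Latt ε R p A1 A2 A3 B1 B2 B3 ∧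
      |(A1 - A3) * (B2 - p * B3) - (A2 - p * A3) * (B1 - B3)|
        = 1 / (t3 * ((t3 : ℝ) * ξ₁ - t1) ^ 2) := by
  set X : ℝ := (t3 : ℝ) * ξ₁ - t1 with hXdef
  set Y : ℝ := (t3 : ℝ) * ξ₂ - t2 with hYdef
  have hq : (0 : ℝ) < t3 := by exact_mod_cast h3
  have hX2 : 0 < X ^ 2 := by positivity
  have hXa : 0 < |X| := abs_pos.mpr hX
  have hf : 0 < (t3 : ℝ) * X ^ 2 := mul_pos hq hX2
  -- primitivity
  have hprim : ∀ d : ℤ, 2 ≤ d → ¬(d ∣ t1 ∧ d ∣ t2 ∧ d ∣ t3) := by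
    rintro d hd ⟨⟨τ1, h1⟩, ⟨τ2, h2⟩, ⟨τ3, h3'⟩⟩
    have hdR : (2 : ℝ) ≤ d := by exact_mod_cast hd
    have hd0 : (0 : ℝ) < d := by linarith
    have e1 : X = d * ((τ3 : ℝ) * ξ₁ - τ1) := by
      rw [hXdef, h1, h3']; push_cast; ring
    have e2 : Y = d * ((τ3 : ℝ) * ξ₂ - τ2) := by
      rw [hYdef, h2, h3']; push_cast; ring
    have e3 : (t3 : ℝ) = d * τ3 := by rw [h3']; push_cast; ring
    set x := (τ3 : ℝ) * ξ₁ - τ1
    set y := (τ3 : ℝ) * ξ₂ - τ2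
    have ax : |X| = d * |x| := by rw [e1, abs_mul, abs_of_pos hd0]
    have ay : |Y| = d * |y| := by rw [e2, abs_mul, abs_of_pos hd0]
    have hτ : (0 : ℝ) < τ3 := by
      rw [e3] at hq
      exact (mul_pos_iff_of_pos_left hd0).mp hq
    have hyx : |y| ≤ |x| := by
      rw [ax, ay] at hYX
      exact le_of_mul_le_mul_left hYX hd0
    have hx' : |x| ≤ |X| := by
      rw [ax]; nlinarith [abs_nonneg x]
    have hRX : |X| ≤ R * |X| := by nlinarith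
    have := H τ1 τ2 τ3 (by rintro ⟨-, -, h0⟩; rw [h0] at hτ; norm_num at hτ)
      (hx'.trans hRX) ((hyx.trans hx').trans hRX) (by
        rw [abs_of_pos hτ, e3]
        have : (τ3 : ℝ) ≤ d * τ3 := by nlinarith
        nlinarith [mul_pos hd0 hτ])
    have hG : G x y τ3 = τ3 * x ^ 2 := by
      unfold G
      rw [abs_of_pos hτ, max_eq_left (sq_le_sq.mpr hyx)]
    rw [hG, e3, e1] at this
    have hx2 : 0 < x ^ 2 := by
      have : x ≠ 0 := by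
        intro h0; rw [h0, mul_zero] at e1; exact hX e1
      positivity
    have hp : 0 < τ3 * x ^ 2 := mul_pos hτ hx2
    have h8 : (8 : ℝ) ≤ d ^ 3 := by
      calc (8 : ℝ) = 2 ^ 3 := by norm_num
        _ ≤ d ^ 3 := pow_le_pow_left₀ (by norm_num) hdR 3
    have : (1 - ε) * (d ^ 3 * (τ3 * x ^ 2)) ≤ τ3 * x ^ 2 := by
      calc (1 - ε) * (d ^ 3 * (τ3 * x ^ 2)) = (1 - ε) * (d * τ3 * (d * x) ^ 2) := by ring
        _ ≤ _ := this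
    have h9 : (1 / 2 : ℝ) * (8 * (τ3 * x ^ 2)) ≤ (1 - ε) * (d ^ 3 * (τ3 * x ^ 2)) := by
      apply mul_le_mul (by linarith) _ (by positivity) (by linarith)
      exact mul_le_mul_of_nonneg_right h8 hp.le
    linarith
  obtain ⟨m1, m2, m3, n1, n2, n3, hdet⟩ := exists_basis t1 t2 t3 h3 hprim
  obtain ⟨σ, hσ, hσp⟩ : ∃ σ : ℝ, σ ^ 2 = 1 ∧ 0 ≤ σ * Y / X := by
    rcases le_total 0 (Y / X) with h0 | h0
    · exact ⟨1, by norm_num, by rwa [one_mul]⟩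
    · refine ⟨-1, by norm_num, ?_⟩
      rw [mul_div_assoc]; linarith
  have hσa : |σ| = 1 := by
    rw [← sq_eq_sq₀ (abs_nonneg _) (by norm_num), sq_abs, hσ]; norm_num
  have hp1 : σ * Y / X ≤ 1 := by
    refine (le_abs_self _).trans ?_
    rw [abs_div, abs_mul, hσa, one_mul, div_le_one hXa]
    exact hYX
  refine ⟨σ * Y / X, ((m3 : ℝ) * ξ₁ - m1) / X, σ * ((m3 : ℝ) * ξ₂ - m2) / X, m3 / t3,
    ((n3 : ℝ) * ξ₁ - n1) / X, σ * ((n3 : ℝ) * ξ₂ - n2) / X, n3 / t3, hσp, hp1, ?_, ?_⟩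
  · intro k m n hne b1 b2 b3
    set w1 : ℤ := k * t1 + m * m1 + n * n1 with hw1
    set w2 : ℤ := k * t2 + m * m2 + n * n2 with hw2
    set w3 : ℤ := k * t3 + m * m3 + n * n3 with hw3
    have e1 : (k : ℝ) + m * (((m3 : ℝ) * ξ₁ - m1) / X) + n * (((n3 : ℝ) * ξ₁ - n1) / X)
        = ((w3 : ℝ) * ξ₁ - w1) / X := by
      rw [hw1, hw3]; push_cast; field_simp; rw [hXdef]; ring
    have e2 : (k : ℝ) * (σ * Y / X) + m * (σ * ((m3 : ℝ) * ξ₂ - m2) / X)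
        + n * (σ * ((n3 : ℝ) * ξ₂ - n2) / X) = σ * ((w3 : ℝ) * ξ₂ - w2) / X := by
      rw [hw2, hw3]; push_cast; field_simp; rw [hYdef]; ring
    have e3 : (k : ℝ) + m * ((m3 : ℝ) / t3) + n * ((n3 : ℝ) / t3) = (w3 : ℝ) / t3 := by
      rw [hw3]; push_cast; field_simp
    rw [e1] at b1 ⊢
    rw [e2] at b2 ⊢
    rw [e3] at b3 ⊢
    rw [abs_div, div_le_iff₀ hXa] at b1
    rw [abs_div, abs_mul, hσa, one_mul, div_le_iff₀ hXa] at b2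
    rw [abs_div, abs_of_pos hq, div_le_iff₀ hq] at b3
    have hw : ¬(w1 = 0 ∧ w2 = 0 ∧ w3 = 0) := by
      rintro ⟨z1, z2, z3⟩
      rw [hw1] at z1
      rw [hw2] at z2
      rw [hw3] at z3
      apply hne
      refine ⟨?_, ?_, ?_⟩
      · linear_combination (m2 * n3 - m3 * n2) * z1 - (m1 * n3 - m3 * n1) * z2
          + (m1 * n2 - m2 * n1) * z3 - k * hdet
      · linear_combination (-(t2 * n3 - t3 * n2)) * z1 + (t1 * n3 - t3 * n1) * z2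
          - (t1 * n2 - t2 * n1) * z3 - m * hdet
      · linear_combination (t2 * m3 - t3 * m2) * z1 - (t1 * m3 - t3 * m1) * z2
          + (t1 * m2 - t2 * m1) * z3 - n * hdet
    have h1 := H w1 w2 w3 hw b1 b2 b3
    have h2 : G (((w3 : ℝ) * ξ₁ - w1) / X) (σ * ((w3 : ℝ) * ξ₂ - w2) / X) ((w3 : ℝ) / t3)
        = G ((w3 : ℝ) * ξ₁ - w1) ((w3 : ℝ) * ξ₂ - w2) w3 / (t3 * X ^ 2) := by
      unfold G
      have s1 : (σ * ((w3 : ℝ) * ξ₂ - w2) / X) ^ 2 = ((w3 : ℝ) * ξ₂ - w2) ^ 2 / X ^ 2 := by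
        rw [div_pow, mul_pow, hσ, one_mul]
      rw [s1, div_pow, max_div_div_right hX2.le, abs_div, abs_of_pos hq]
      field_simp
    rw [h2, le_div_iff₀ hf]
    exact h1
  · have hc : (((m3 : ℝ) * ξ₁ - m1) / X - m3 / t3) * (σ * ((n3 : ℝ) * ξ₂ - n2) / X
        - σ * Y / X * (n3 / t3)) - (σ * ((m3 : ℝ) * ξ₂ - m2) / X - σ * Y / X * (m3 / t3))
        * (((n3 : ℝ) * ξ₁ - n1) / X - n3 / t3) = σ / (t3 * X ^ 2) := by
      have hdetR : (t1 : ℝ) * (m2 * n3 - m3 * n2) - t2 * (m1 * n3 - m3 * n1)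
          + t3 * (m1 * n2 - m2 * n1) = 1 := by exact_mod_cast hdet
      have hξ1 : (t3 : ℝ) * ξ₁ = X + t1 := by rw [hXdef]; ring
      have hξ2 : (t3 : ℝ) * ξ₂ = Y + t2 := by rw [hYdef]; ring
      have f1 : ((m3 : ℝ) * ξ₁ - m1) / X - m3 / t3 = (m3 * t1 - t3 * m1) / (t3 * X) := by
        field_simp
        linear_combination (m3 : ℝ) * hξ1
      have f2 : σ * ((n3 : ℝ) * ξ₂ - n2) / X - σ * Y / X * (n3 / t3)
          = σ * (n3 * t2 - t3 * n2) / (t3 * X) := by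
        field_simp
        linear_combination (n3 : ℝ) * hξ2
      have f3 : σ * ((m3 : ℝ) * ξ₂ - m2) / X - σ * Y / X * (m3 / t3)
          = σ * (m3 * t2 - t3 * m2) / (t3 * X) := by
        field_simp
        linear_combination (m3 : ℝ) * hξ2
      have f4 : ((n3 : ℝ) * ξ₁ - n1) / X - n3 / t3 = (n3 * t1 - t3 * n1) / (t3 * X) := by
        field_simp
        linear_combination (n3 : ℝ) * hξ1
      rw [f1, f2, f3, f4]
      field_simp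
      linear_combination (σ * (t3 : ℝ)) * hdetR
    rw [hc, abs_div, hσa, abs_of_pos hf]

end Pool.Agent.Lib.MP_be9f18_nt
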