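import Mathlib
import Pool.Agent.Lib.MP_be9f18_nt.RedPoint

/-!
Module M2: nearly optimal integer points exist, and give approximately admissible lattices.
-/

set_option autoImplicit false

namespace Pool.Agent.Lib.MP_be9f18_nt

/-- the set of solutions for the value `c`. -/
def Sol (ξ₁ ξ₂ c : ℝ) : Set (ℤ × ℤ × ℤ) :=
  {x : ℤ × ℤ × ℤ | 0 < x.2.2 ∧
      (x.2.2 : ℝ) * |(x.2.2 : ℝ) * ξ₁ - (x.1 : ℝ)| ^ 2 < c ∧
      (x.2.2 : ℝ) * |(x.2.2 : ℝ) * ξ₂ - (x.2.1 : ℝ)| ^ 2 < c}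

theorem c2_eq (ξ₁ ξ₂ : ℝ) :
    c2 ξ₁ ξ₂ = sInf {c : ℝ | 0 < c ∧ c ≤ 1 ∧ (Sol ξ₁ ξ₂ c).Infinite} := rfl

theorem Sol.mono {ξ₁ ξ₂ c c' : ℝ} (h : c ≤ c') : Sol ξ₁ ξ₂ c ⊆ Sol ξ₁ ξ₂ c' := by
  rintro x ⟨h1, h2, h3⟩
  exact ⟨h1, h2.trans_le h, h3.trans_le h⟩

theorem nonempty_of_pos {ξ₁ ξ₂ : ℝ} (h : 0 < c2 ξ₁ ξ₂) :
    {c : ℝ | 0 < c ∧ c ≤ 1 ∧ (Sol ξ₁ ξ₂ c).Infinite}.Nonempty := by
  by_contra hne
  rw [Set.not_nonempty_iff_eq_empty] at hne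
  rw [c2_eq, hne, Real.sInf_empty] at h
  exact lt_irrefl _ h

theorem bddBelow (ξ₁ ξ₂ : ℝ) :
    BddBelow {c : ℝ | 0 < c ∧ c ≤ 1 ∧ (Sol ξ₁ ξ₂ c).Infinite} :=
  ⟨0, fun _ hc => hc.1.le⟩

theorem c2_le_one {ξ₁ ξ₂ : ℝ} (h : 0 < c2 ξ₁ ξ₂) : c2 ξ₁ ξ₂ ≤ 1 := by
  obtain ⟨c, hc⟩ := nonempty_of_pos h
  rw [c2_eq]
  exact (csInf_le (bddBelow ξ₁ ξ₂) hc).trans hc.2.1

theorem Sol.infinite {ξ₁ ξ₂ c : ℝ} (h : 0 < c2 ξ₁ ξ₂) (hc : c2 ξ₁ ξ₂ < c) :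
    (Sol ξ₁ ξ₂ c).Infinite := by
  rw [c2_eq] at hc
  obtain ⟨c', hc', hlt⟩ := exists_lt_of_csInf_lt (nonempty_of_pos h) hc
  exact hc'.2.2.mono (Sol.mono hlt.le)

theorem Sol.finite {ξ₁ ξ₂ c : ℝ} (h : 0 < c2 ξ₁ ξ₂) (hc : c < c2 ξ₁ ξ₂) :
    (Sol ξ₁ ξ₂ c).Finite := by
  rcases le_or_gt c 0 with h0 | h0
  · have : Sol ξ₁ ξ₂ c = ∅ := by
      rw [Set.eq_empty_iff_forall_notMem]
      rintro x ⟨h1, h2, -⟩
      have h1' : (0 : ℝ) < x.2.2 := by exact_mod_cast h1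
      have : 0 ≤ (x.2.2 : ℝ) * |(x.2.2 : ℝ) * ξ₁ - (x.1 : ℝ)| ^ 2 := by positivity
      linarith
    rw [this]
    exact Set.finite_empty
  · by_contra hinf
    have hmem : c ∈ {c : ℝ | 0 < c ∧ c ≤ 1 ∧ (Sol ξ₁ ξ₂ c).Infinite} :=
      ⟨h0, hc.le.trans (c2_le_one h), hinf⟩
    have := csInf_le (bddBelow ξ₁ ξ₂) hmem
    rw [← c2_eq] at this
    linarith

theorem finite_bounded (ξ₁ ξ₂ c : ℝ) (N : ℤ) :
    {x ∈ Sol ξ₁ ξ₂ c | x.2.2 ≤ N}.Finite := by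
  rcases le_or_gt N 0 with hN | hN
  · have : {x ∈ Sol ξ₁ ξ₂ c | x.2.2 ≤ N} = ∅ := by
      rw [Set.eq_empty_iff_forall_notMem]
      rintro x ⟨⟨h1, -⟩, h2⟩
      omega
    rw [this]; exact Set.finite_empty
  obtain ⟨M1, hM1⟩ := exists_nat_gt (N * |ξ₁| + |c| + 1)
  obtain ⟨M2, hM2⟩ := exists_nat_gt (N * |ξ₂| + |c| + 1)
  apply Set.Finite.subset (Set.finite_Icc ((-(M1 : ℤ), -(M2 : ℤ), (0 : ℤ)) : ℤ × ℤ × ℤ)
    ((M1 : ℤ), (M2 : ℤ), N))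
  rintro ⟨t1, t2, t3⟩ ⟨⟨h1, h2, h3⟩, h4⟩
  simp only at h1 h2 h3 h4
  have hN' : (0 : ℝ) < N := by exact_mod_cast hN
  have h1' : (1 : ℝ) ≤ t3 := by exact_mod_cast h1
  have h4' : (t3 : ℝ) ≤ N := by exact_mod_cast h4
  have key : ∀ (ξ : ℝ) (t : ℤ) (M : ℕ), (N * |ξ| + |c| + 1 : ℝ) < M →
      (t3 : ℝ) * |(t3 : ℝ) * ξ - (t : ℝ)| ^ 2 < c → -(M : ℤ) ≤ t ∧ t ≤ (M : ℤ) := by
    intro ξ t M hM hlt
    have a1 : |(t3 : ℝ) * ξ - (t : ℝ)| ^ 2 < |c| := by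
      have : |(t3 : ℝ) * ξ - (t : ℝ)| ^ 2 ≤ (t3 : ℝ) * |(t3 : ℝ) * ξ - (t : ℝ)| ^ 2 := by
        nlinarith [sq_nonneg |(t3 : ℝ) * ξ - (t : ℝ)|]
      exact (this.trans_lt hlt).trans_le (le_abs_self c)
    have a2 : |(t3 : ℝ) * ξ - (t : ℝ)| ≤ |c| + 1 := by
      nlinarith [abs_nonneg ((t3 : ℝ) * ξ - (t : ℝ)), sq_nonneg (|(t3 : ℝ) * ξ - (t : ℝ)| - 1)]
    have a3 : |(t : ℝ)| ≤ M := by
      have b1 : |(t : ℝ)| ≤ |(t3 : ℝ) * ξ| + |(t3 : ℝ) * ξ - (t : ℝ)| := by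
        have : (t : ℝ) = (t3 : ℝ) * ξ - ((t3 : ℝ) * ξ - t) := by ring
        calc |(t : ℝ)| = |(t3 : ℝ) * ξ - ((t3 : ℝ) * ξ - t)| := by rw [← this]
          _ ≤ _ := abs_sub _ _
      have b2 : |(t3 : ℝ) * ξ| ≤ N * |ξ| := by
        rw [abs_mul, abs_of_pos (by linarith : (0:ℝ) < t3)]
        exact mul_le_mul_of_nonneg_right h4' (abs_nonneg _)
      linarith
    rw [abs_le] at a3
    constructor
    · have := a3.1; exact_mod_cast this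
    · have := a3.2; exact_mod_cast this
  obtain ⟨k1, k2⟩ := key ξ₁ t1 M1 hM1 h2
  obtain ⟨k3, k4⟩ := key ξ₂ t2 M2 hM2 h3
  exact ⟨⟨k1, k3, h1.le⟩, ⟨k2, k4, h4⟩⟩

theorem exists_point {ξ₁ ξ₂ : ℝ} (h : 0 < c2 ξ₁ ξ₂) {δ : ℝ} (hδ : 0 < δ) (N : ℤ) :
    ∃ t1 t2 t3 : ℤ, 0 < t3 ∧ N < t3 ∧
      G ((t3 : ℝ) * ξ₁ - t1) ((t3 : ℝ) * ξ₂ - t2) t3 < c2 ξ₁ ξ₂ + δ ∧
      c2 ξ₁ ξ₂ - δ ≤ G ((t3 : ℝ) * ξ₁ - t1) ((t3 : ℝ) * ξ₂ - t2) t3 := by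
  have h1 : (Sol ξ₁ ξ₂ (c2 ξ₁ ξ₂ + δ)).Infinite := Sol.infinite h (by linarith)
  have h2 : (Sol ξ₁ ξ₂ (c2 ξ₁ ξ₂ - δ)).Finite := Sol.finite h (by linarith)
  have h3 := finite_bounded ξ₁ ξ₂ (c2 ξ₁ ξ₂ + δ) N
  have h4 : (Sol ξ₁ ξ₂ (c2 ξ₁ ξ₂ + δ) \ (Sol ξ₁ ξ₂ (c2 ξ₁ ξ₂ - δ) ∪
      {x ∈ Sol ξ₁ ξ₂ (c2 ξ₁ ξ₂ + δ) | x.2.2 ≤ N})).Infinite := h1.sdiff (h2.union h3)
  obtain ⟨⟨t1, t2, t3⟩, ⟨g1, g2, g3⟩, g4⟩ := h4.nonempty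
  simp only at g1 g2 g3
  have hpos : (0 : ℝ) < t3 := by exact_mod_cast g1
  refine ⟨t1, t2, t3, g1, ?_, ?_, ?_⟩
  · by_contra hc
    push Not at hc
    exact g4 (Or.inr ⟨⟨g1, g2, g3⟩, hc⟩)
  · unfold G
    rw [abs_of_pos hpos, mul_max_of_nonneg _ _ hpos.le, ← sq_abs ((t3 : ℝ) * ξ₁ - t1),
      ← sq_abs ((t3 : ℝ) * ξ₂ - t2)]
    exact max_lt g2 g3
  · by_contra hc
    push Not at hc
    apply g4
    left
    unfold G at hc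
    rw [abs_of_pos hpos, mul_max_of_nonneg _ _ hpos.le, ← sq_abs ((t3 : ℝ) * ξ₁ - t1),
      ← sq_abs ((t3 : ℝ) * ξ₂ - t2)] at hc
    exact ⟨g1, (le_max_left _ _).trans_lt hc, (le_max_right _ _).trans_lt hc⟩

theorem exists_eta {ξ₁ ξ₂ : ℝ} (hirr : Irrational ξ₁ ∨ Irrational ξ₂) {c : ℝ}
    (hfin : (Sol ξ₁ ξ₂ c).Finite) :
    ∃ η : ℝ, 0 < η ∧ ∀ x ∈ Sol ξ₁ ξ₂ c,
      η ≤ max |(x.2.2 : ℝ) * ξ₁ - x.1| |(x.2.2 : ℝ) * ξ₂ - x.2.1| := by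
  have hpos : ∀ x ∈ Sol ξ₁ ξ₂ c, 0 < max |(x.2.2 : ℝ) * ξ₁ - x.1| |(x.2.2 : ℝ) * ξ₂ - x.2.1| := by
    rintro ⟨t1, t2, t3⟩ ⟨h1, -⟩
    simp only at h1 ⊢
    have hne : (t3 : ℝ) ≠ 0 := by exact_mod_cast h1.ne'
    rcases hirr with h | h
    · apply lt_max_of_lt_left
      apply abs_pos.mpr
      intro h0
      apply h
      refine ⟨(t1 : ℚ) / t3, ?_⟩
      push_cast
      rw [div_eq_iff hne]
      linarith
    · apply lt_max_of_lt_right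
      apply abs_pos.mpr
      intro h0
      apply h
      refine ⟨(t2 : ℚ) / t3, ?_⟩
      push_cast
      rw [div_eq_iff hne]
      linarith
  rcases (Sol ξ₁ ξ₂ c).eq_empty_or_nonempty with he | hne
  · exact ⟨1, one_pos, by rw [he]; simp⟩
  · obtain ⟨x, hx, hmin⟩ := Set.exists_min_image _
      (fun x : ℤ × ℤ × ℤ => max |(x.2.2 : ℝ) * ξ₁ - x.1| |(x.2.2 : ℝ) * ξ₂ - x.2.1|) hfin hne
    exact ⟨_, hpos x hx, hmin⟩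

theorem G_neg (x y z : ℝ) : G (-x) (-y) (-z) = G x y z := by
  unfold G; rw [abs_neg, neg_sq, neg_sq]

theorem G_comm (x y z : ℝ) : G x y z = G y x z := by
  unfold G; rw [max_comm]

/-- approximately admissible normalised lattices. -/
theorem exists_approx {ξ₁ ξ₂ : ℝ} (hirr : Irrational ξ₁ ∨ Irrational ξ₂) (h : 0 < c2 ξ₁ ξ₂)
    {ε R : ℝ} (hε0 : 0 < ε) (hε : ε ≤ 1 / 4) (hR : 1 ≤ R) :
    ∃ p A1 A2 A3 B1 B2 B3 f : ℝ, 0 ≤ p ∧ p ≤ 1 ∧ Latt ε R p A1 A2 A3 B1 B2 B3 ∧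
      |(A1 - A3) * (B2 - p * B3) - (A2 - p * A3) * (B1 - B3)| = 1 / f ∧
      c2 ξ₁ ξ₂ - ε ≤ f ∧ f ≤ c2 ξ₁ ξ₂ + ε ∧ 0 < f := by
  set γ := c2 ξ₁ ξ₂ with hγ
  set δ := min ε (ε * γ / 2) with hδdef
  have hδ : 0 < δ := lt_min hε0 (by positivity)
  have hδε : δ ≤ ε := min_le_left _ _
  have hδγ : 2 * δ ≤ ε * γ := by
    have := min_le_right ε (ε * γ / 2)
    linarith
  have hγδ : 0 < γ - δ := by nlinarith
  obtain ⟨η, hη, hηE⟩ := exists_eta hirr (Sol.finite h (show γ - δ < c2 ξ₁ ξ₂ by linarith))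
  set κ := min 1 η with hκdef
  have hκ : 0 < κ := lt_min one_pos hη
  obtain ⟨N, hN⟩ := exists_nat_gt (R ^ 2 * (γ + δ) / κ ^ 2)
  obtain ⟨t1, t2, t3, ht3, hNt, hub, hlb⟩ := exists_point h hδ (N : ℤ)
  rw [← hγ] at hub hlb
  have hq : (0 : ℝ) < t3 := by exact_mod_cast ht3
  have hNt' : (N : ℝ) < t3 := by exact_mod_cast hNt
  -- the central estimate, symmetric in the two coordinates
  have main : ∀ μ : ℝ, 0 ≤ μ → t3 * μ ^ 2 < γ + δ → ∀ w1 w2 w3 : ℤ,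
      ¬(w1 = 0 ∧ w2 = 0 ∧ w3 = 0) → |(w3 : ℝ) * ξ₁ - w1| ≤ R * μ → |(w3 : ℝ) * ξ₂ - w2| ≤ R * μ →
      γ - δ ≤ G ((w3 : ℝ) * ξ₁ - w1) ((w3 : ℝ) * ξ₂ - w2) w3 := by
    intro μ hμ0 hμ
    have hRμ : R * μ < κ := by
      have h1 : R ^ 2 * (γ + δ) < κ ^ 2 * t3 := by
        rw [div_lt_iff₀ (by positivity)] at hN
        calc R ^ 2 * (γ + δ) < N * κ ^ 2 := hN
          _ ≤ t3 * κ ^ 2 := mul_le_mul_of_nonneg_right hNt'.le (by positivity)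
          _ = κ ^ 2 * t3 := by ring
      have h2 : (R * μ) ^ 2 * t3 < κ ^ 2 * t3 := by
        calc (R * μ) ^ 2 * t3 = R ^ 2 * (t3 * μ ^ 2) := by ring
          _ ≤ R ^ 2 * (γ + δ) := mul_le_mul_of_nonneg_left hμ.le (by positivity)
          _ < _ := h1
      have h3 : (R * μ) ^ 2 < κ ^ 2 := lt_of_mul_lt_mul_right h2 hq.le
      exact lt_of_pow_lt_pow_left₀ 2 hκ.le h3
    have pos : ∀ w1 w2 w3 : ℤ, 0 < w3 → |(w3 : ℝ) * ξ₁ - w1| ≤ R * μ →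
        |(w3 : ℝ) * ξ₂ - w2| ≤ R * μ →
        γ - δ ≤ G ((w3 : ℝ) * ξ₁ - w1) ((w3 : ℝ) * ξ₂ - w2) w3 := by
      intro w1 w2 w3 hw3 b1 b2
      by_contra hc
      push Not at hc
      have hw3' : (0 : ℝ) < w3 := by exact_mod_cast hw3
      have hmem : (w1, w2, w3) ∈ Sol ξ₁ ξ₂ (γ - δ) := by
        unfold G at hc
        rw [abs_of_pos hw3', mul_max_of_nonneg _ _ hw3'.le, ← sq_abs ((w3 : ℝ) * ξ₁ - w1),
          ← sq_abs ((w3 : ℝ) * ξ₂ - w2)] at hc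
        exact ⟨hw3, (le_max_left _ _).trans_lt hc, (le_max_right _ _).trans_lt hc⟩
      have h1 := hηE _ hmem
      simp only at h1
      have h2 : max |(w3 : ℝ) * ξ₁ - w1| |(w3 : ℝ) * ξ₂ - w2| < η :=
        ((max_le b1 b2).trans_lt hRμ).trans_le (min_le_right _ _)
      linarith
    intro w1 w2 w3 hne b1 b2
    rcases lt_trichotomy w3 0 with hw | hw | hw
    · have := pos (-w1) (-w2) (-w3) (by omega) (by
        rw [← abs_neg]; convert b1 using 2; push_cast; ring) (by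
        rw [← abs_neg]; convert b2 using 2; push_cast; ring)
      rw [← G_neg]
      convert this using 2 <;> push_cast <;> ring
    · exfalso
      subst hw
      have h1 : |(w1 : ℝ)| < 1 := by
        have : |(w1 : ℝ)| ≤ R * μ := by simpa using b1
        exact (this.trans_lt hRμ).trans_le (min_le_left _ _)
      have h2 : |(w2 : ℝ)| < 1 := by
        have : |(w2 : ℝ)| ≤ R * μ := by simpa using b2
        exact (this.trans_lt hRμ).trans_le (min_le_left _ _)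
      have h1' : |w1| < 1 := by exact_mod_cast h1
      have h2' : |w2| < 1 := by exact_mod_cast h2
      exact hne ⟨Int.abs_lt_one_iff.mp h1', Int.abs_lt_one_iff.mp h2', rfl⟩
    · exact pos w1 w2 w3 hw b1 b2
  have hεγ : (1 - ε) * (γ + δ) ≤ γ - δ := by nlinarith
  rcases le_total |(t3 : ℝ) * ξ₂ - t2| |(t3 : ℝ) * ξ₁ - t1| with hle | hle
  · have hGT : G ((t3 : ℝ) * ξ₁ - t1) ((t3 : ℝ) * ξ₂ - t2) t3 = t3 * ((t3 : ℝ) * ξ₁ - t1) ^ 2 := by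
      unfold G
      rw [abs_of_pos hq, max_eq_left (sq_le_sq.mpr hle)]
    rw [hGT] at hub hlb
    have hX : (t3 : ℝ) * ξ₁ - t1 ≠ 0 := by
      intro h0; rw [h0] at hlb; norm_num at hlb; linarith
    obtain ⟨p, A1, A2, A3, B1, B2, B3, r1, r2, r3, r4⟩ :=
      latt_of_point (ε := ε) (R := R) (by linarith) hR t1 t2 t3 ht3 hX hle (by
        intro w1 w2 w3 hne b1 b2 _
        have := main |(t3 : ℝ) * ξ₁ - t1| (abs_nonneg _) (by rw [sq_abs]; exact hub) w1 w2 w3 hne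
          b1 b2
        refine le_trans ?_ this
        refine le_trans ?_ hεγ
        exact mul_le_mul_of_nonneg_left hub.le (by linarith))
    exact ⟨p, A1, A2, A3, B1, B2, B3, _, r1, r2, r3, r4, by linarith, by linarith,
      by linarith⟩
  · have hGT : G ((t3 : ℝ) * ξ₁ - t1) ((t3 : ℝ) * ξ₂ - t2) t3 = t3 * ((t3 : ℝ) * ξ₂ - t2) ^ 2 := by
      unfold G
      rw [abs_of_pos hq, max_eq_right (sq_le_sq.mpr hle)]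
    rw [hGT] at hub hlb
    have hX : (t3 : ℝ) * ξ₂ - t2 ≠ 0 := by
      intro h0; rw [h0] at hlb; norm_num at hlb; linarith
    obtain ⟨p, A1, A2, A3, B1, B2, B3, r1, r2, r3, r4⟩ :=
      latt_of_point (ξ₁ := ξ₂) (ξ₂ := ξ₁) (ε := ε) (R := R) (by linarith) hR t2 t1 t3 ht3 hX hle (by
        intro w1 w2 w3 hne b1 b2 _
        have := main |(t3 : ℝ) * ξ₂ - t2| (abs_nonneg _) (by rw [sq_abs]; exact hub) w2 w1 w3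
          (by tauto) b2 b1
        rw [G_comm]
        refine le_trans ?_ this
        refine le_trans ?_ hεγ
        exact mul_le_mul_of_nonneg_left hub.le (by linarith))
    exact ⟨p, A1, A2, A3, B1, B2, B3, _, r1, r2, r3, r4, by linarith, by linarith,
      by linarith⟩

end Pool.Agent.Lib.MP_be9f18_nt
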