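import Mathlib
import Pool.Agent.Lib.MP_be9f18_nt.RedApprox

/-!
Module M2: reduction to one admissible lattice of determinant `1 / c₂` (compactness).
-/

set_option autoImplicit false

open Filter Topology

namespace Pool.Agent.Lib.MP_be9f18_nt

/-- approximately admissible reduced parameters, bounded in terms of `c₂`. -/
theorem exists_approx_red {ξ₁ ξ₂ : ℝ} (hirr : Irrational ξ₁ ∨ Irrational ξ₂) (h : 0 < c2 ξ₁ ξ₂)
    {ε R : ℝ} (hε0 : 0 < ε) (hε : ε ≤ 1 / 4) (hεγ : ε ≤ c2 ξ₁ ξ₂ / 2) (hR : 1 ≤ R) :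
    ∃ p a1 a2 x e s t f : ℝ, 0 ≤ p ∧ p ≤ 1 ∧ 0 ≤ a2 ∧ 0 ≤ x ∧ x ≤ 1 / 2 ∧ 1 ≤ x ^ 2 + e ^ 2 ∧
      |s| ≤ 1 / 2 ∧ |t| ≤ 1 / 2 ∧ |e| * (a1 ^ 2 + a2 ^ 2) = 1 / f ∧
      |a1| ≤ 8 / c2 ξ₁ ξ₂ + 1 ∧ |a2| ≤ 8 / c2 ξ₁ ξ₂ + 1 ∧ |e| ≤ 8 / c2 ξ₁ ξ₂ + 1 ∧
      c2 ξ₁ ξ₂ - ε ≤ f ∧ f ≤ c2 ξ₁ ξ₂ + ε ∧ Red ε R p a1 a2 x e s t := by
  obtain ⟨p, A1, A2, A3, B1, B2, B3, f, hp0, hp1, hL, hD, hf1, hf2, hf0⟩ :=
    exists_approx hirr h hε0 hε hR
  obtain ⟨a1, a2, x, e, s, t, h1, h2, h3, h4, h5, h6, h7, h8, h9⟩ :=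
    reduce (by linarith) hR hp0 hp1 hL (by rw [hD]; positivity)
  rw [hD] at h7
  set γ := c2 ξ₁ ξ₂
  have hf3 : γ / 2 ≤ f := by linarith
  have hinv : 1 / f ≤ 2 / γ := by
    rw [div_le_div_iff₀ hf0 h]; linarith
  have he8 : |e| ≤ 8 / γ := by
    have h10 : |e| * (1 / 4) ≤ 2 / γ := by
      calc |e| * (1 / 4) ≤ |e| * (a1 ^ 2 + a2 ^ 2) := mul_le_mul_of_nonneg_left h8 (abs_nonneg _)
        _ = 1 / f := h7
        _ ≤ 2 / γ := hinv
    have h11 : 8 / γ = 4 * (2 / γ) := by ring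
    rw [h11]; linarith
  have he2 : 1 / 2 ≤ |e| := by
    have : (1 / 2) ^ 2 ≤ |e| ^ 2 := by rw [sq_abs]; nlinarith
    exact le_of_sq_le_sq this (abs_nonneg _) 
  have hsum : a1 ^ 2 + a2 ^ 2 ≤ 4 / γ := by
    have h10 : (1 / 2) * (a1 ^ 2 + a2 ^ 2) ≤ 2 / γ := by
      calc (1 / 2) * (a1 ^ 2 + a2 ^ 2) ≤ |e| * (a1 ^ 2 + a2 ^ 2) :=
            mul_le_mul_of_nonneg_right he2 (by positivity)
        _ = 1 / f := h7
        _ ≤ 2 / γ := hinv
    have h11 : 4 / γ = 2 * (2 / γ) := by ring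
    rw [h11]; linarith
  have h48 : 4 / γ ≤ 8 / γ := by
    rw [div_le_div_iff_of_pos_right h]; norm_num
  have key : ∀ a b : ℝ, a ^ 2 + b ^ 2 ≤ 4 / γ → |a| ≤ 8 / γ + 1 := by
    intro a b hab
    have : |a| ≤ a ^ 2 + 1 := by
      rw [← sq_abs a]; nlinarith [sq_nonneg (|a| - 1), abs_nonneg a]
    nlinarith [sq_nonneg b]
  exact ⟨p, a1, a2, x, e, s, t, f, hp0, hp1, h1, h2, h3, h4, h5, h6, h7, key a1 a2 hsum,
    key a2 a1 (by linarith), by linarith, hf1, hf2, h9⟩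

theorem F_eq (p a1 a2 x e s t : ℝ) (k m n : ℤ) :
    F p a1 a2 x e s t k m n = G ((k : ℝ) + m * (s + a1) + n * (t + (x * a1 - e * a2)))
      ((k : ℝ) * p + m * (p * s + a2) + n * (p * t + (x * a2 + e * a1)))
      ((k : ℝ) + m * s + n * t) := by
  unfold F
  congr 1 <;> ring

theorem reduction : ReductionStatement := by
  intro ξ₁ ξ₂ hirr h
  set γ := c2 ξ₁ ξ₂ with hγ
  set ε : ℕ → ℝ := fun j => min (1 / 4) (γ / 2) / ((j : ℝ) + 1) with hεdef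
  have hm : 0 < min (1 / 4) (γ / 2) := lt_min (by norm_num) (by linarith)
  have hj : ∀ j : ℕ, (1 : ℝ) ≤ (j : ℝ) + 1 := fun j => by
    have : (0 : ℝ) ≤ j := Nat.cast_nonneg j
    linarith
  have hε0 : ∀ j, 0 < ε j := fun j => div_pos hm (by linarith [hj j])
  have hεm : ∀ j, ε j ≤ min (1 / 4) (γ / 2) := fun j => div_le_self hm.le (hj j)
  have hεlim : Tendsto ε atTop (𝓝 0) := by
    have := (tendsto_one_div_add_atTop_nhds_zero_nat (𝕜 := ℝ)).const_mul (min (1 / 4) (γ / 2))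
    rw [mul_zero] at this
    refine this.congr (fun j => ?_)
    rw [hεdef]; ring
  have hex := fun j : ℕ => exists_approx_red hirr h (hε0 j) ((hεm j).trans (min_le_left _ _))
    ((hεm j).trans (min_le_right _ _)) (hj j)
  choose p a1 a2 x e s t f hp0 hp1 h1 h2 h3 h4 h5 h6 h7 b1 b2 b3 hf1 hf2 hred using hex
  set C : ℝ := 8 / γ + 1 with hC
  have hC1 : 1 ≤ C := by
    have : 0 ≤ 8 / γ := by positivity
    linarith
  set Y : ℕ → (Fin 7 → ℝ) := fun j => ![p j, a1 j, a2 j, x j, e j, s j, t j] with hY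
  have hmem : ∀ j, Y j ∈ Set.Icc (fun _ : Fin 7 => -C) (fun _ : Fin 7 => C) := by
    intro j
    have q1 := abs_le.mp (b1 j)
    have q2 := abs_le.mp (b2 j)
    have q3 := abs_le.mp (b3 j)
    have q4 := abs_le.mp (h5 j)
    have q5 := abs_le.mp (h6 j)
    have q6 := hp0 j
    have q7 := hp1 j
    have q8 := h2 j
    have q9 := h3 j
    constructor
    · intro i
      fin_cases i <;> simp [hY] <;> linarith
    · intro i
      fin_cases i <;> simp [hY] <;> linarith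
  obtain ⟨y, -, φ, hφ, hlim⟩ := isCompact_Icc.tendsto_subseq hmem
  rw [tendsto_pi_nhds] at hlim
  have l0 : Tendsto (fun j => p (φ j)) atTop (𝓝 (y 0)) := hlim 0
  have l1 : Tendsto (fun j => a1 (φ j)) atTop (𝓝 (y 1)) := hlim 1
  have l2 : Tendsto (fun j => a2 (φ j)) atTop (𝓝 (y 2)) := hlim 2
  have l3 : Tendsto (fun j => x (φ j)) atTop (𝓝 (y 3)) := hlim 3
  have l4 : Tendsto (fun j => e (φ j)) atTop (𝓝 (y 4)) := hlim 4
  have l5 : Tendsto (fun j => s (φ j)) atTop (𝓝 (y 5)) := hlim 5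
  have l6 : Tendsto (fun j => t (φ j)) atTop (𝓝 (y 6)) := hlim 6
  have hεφ : Tendsto (fun j => ε (φ j)) atTop (𝓝 0) := hεlim.comp hφ.tendsto_atTop
  have hflim : Tendsto (fun j => f (φ j)) atTop (𝓝 γ) := by
    have g1 : Tendsto (fun j => γ - ε (φ j)) atTop (𝓝 γ) := by
      simpa using (tendsto_const_nhds (x := γ)).sub hεφ
    have g2 : Tendsto (fun j => γ + ε (φ j)) atTop (𝓝 γ) := by
      simpa using (tendsto_const_nhds (x := γ)).add hεφ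
    exact tendsto_of_tendsto_of_tendsto_of_le_of_le g1 g2 (fun j => hf1 _) (fun j => hf2 _)
  refine ⟨y 0, y 1, y 2, y 3, y 4, y 5, y 6, ⟨?_, ?_, ?_, ?_, ?_, ?_, ?_, ?_, ?_⟩, ?_⟩
  · exact ge_of_tendsto' l0 (fun j => hp0 _)
  · exact le_of_tendsto' l0 (fun j => hp1 _)
  · exact ge_of_tendsto' l2 (fun j => h1 _)
  · exact ge_of_tendsto' l3 (fun j => h2 _)
  · exact le_of_tendsto' l3 (fun j => h3 _)
  · exact ge_of_tendsto' ((l3.pow 2).add (l4.pow 2)) (fun j => h4 _)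
  · exact le_of_tendsto' l5.abs (fun j => h5 _)
  · exact le_of_tendsto' l6.abs (fun j => h6 _)
  · intro k m n hne
    rw [F_eq]
    have v1 : Tendsto (fun j => (k : ℝ) + m * (s (φ j) + a1 (φ j))
        + n * (t (φ j) + (x (φ j) * a1 (φ j) - e (φ j) * a2 (φ j)))) atTop
        (𝓝 ((k : ℝ) + m * (y 5 + y 1) + n * (y 6 + (y 3 * y 1 - y 4 * y 2)))) :=
      ((tendsto_const_nhds).add ((l5.add l1).const_mul _)).add
        ((l6.add ((l3.mul l1).sub (l4.mul l2))).const_mul _)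
    have v2 : Tendsto (fun j => (k : ℝ) * p (φ j) + m * (p (φ j) * s (φ j) + a2 (φ j))
        + n * (p (φ j) * t (φ j) + (x (φ j) * a2 (φ j) + e (φ j) * a1 (φ j)))) atTop
        (𝓝 ((k : ℝ) * y 0 + m * (y 0 * y 5 + y 2) + n * (y 0 * y 6 + (y 3 * y 2 + y 4 * y 1)))) :=
      ((l0.const_mul _).add (((l0.mul l5).add l2).const_mul _)).add
        (((l0.mul l6).add ((l3.mul l2).add (l4.mul l1))).const_mul _)
    have v3 : Tendsto (fun j => (k : ℝ) + m * s (φ j) + n * t (φ j)) atTop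
        (𝓝 ((k : ℝ) + m * y 5 + n * y 6)) :=
      ((tendsto_const_nhds).add (l5.const_mul _)).add (l6.const_mul _)
    have vG := v3.abs.mul ((v1.pow 2).max (v2.pow 2))
    have w1 : ∀ᶠ j in atTop, 1 - ε (φ j) ≤ |(k : ℝ) + m * s (φ j) + n * t (φ j)| *
        max (((k : ℝ) + m * (s (φ j) + a1 (φ j))
        + n * (t (φ j) + (x (φ j) * a1 (φ j) - e (φ j) * a2 (φ j)))) ^ 2)
        (((k : ℝ) * p (φ j) + m * (p (φ j) * s (φ j) + a2 (φ j))
        + n * (p (φ j) * t (φ j) + (x (φ j) * a2 (φ j) + e (φ j) * a1 (φ j)))) ^ 2) := by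
      have hRlim : Tendsto (fun j => ((φ j : ℕ) : ℝ) + 1) atTop atTop :=
        tendsto_atTop_add_const_right _ _ (tendsto_natCast_atTop_atTop.comp hφ.tendsto_atTop)
      have bd : ∀ (u : ℕ → ℝ) (l : ℝ), Tendsto u atTop (𝓝 l) →
          ∀ᶠ j in atTop, |u j| ≤ ((φ j : ℕ) : ℝ) + 1 := by
        intro u l hu
        have i1 : ∀ᶠ j in atTop, |u j| < |l| + 1 :=
          hu.abs.eventually_lt_const (by linarith)
        have i2 : ∀ᶠ j in atTop, |l| + 1 ≤ ((φ j : ℕ) : ℝ) + 1 :=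
          hRlim.eventually_ge_atTop _
        filter_upwards [i1, i2] with j j1 j2
        linarith
      filter_upwards [bd _ _ v1, bd _ _ v2, bd _ _ v3] with j j1 j2 j3
      exact hred (φ j) k m n hne j1 j2 j3
    have w2 : Tendsto (fun j => 1 - ε (φ j)) atTop (𝓝 1) := by
      simpa using (tendsto_const_nhds (x := (1 : ℝ))).sub hεφ
    exact le_of_tendsto_of_tendsto w2 vG w1
  · have u1 : Tendsto (fun j => |e (φ j)| * (a1 (φ j) ^ 2 + a2 (φ j) ^ 2)) atTop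
        (𝓝 (|y 4| * (y 1 ^ 2 + y 2 ^ 2))) := l4.abs.mul ((l1.pow 2).add (l2.pow 2))
    have u2 : Tendsto (fun j => 1 / f (φ j)) atTop (𝓝 (1 / γ)) :=
      tendsto_const_nhds.div hflim h.ne'
    have u3 : (fun j => |e (φ j)| * (a1 (φ j) ^ 2 + a2 (φ j) ^ 2)) = fun j => 1 / f (φ j) := by
      funext j
      exact h7 _
    rw [u3] at u1
    exact tendsto_nhds_unique u1 u2

end Pool.Agent.Lib.MP_be9f18_nt
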