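import Pool.Agent.Lib.MP_be9f18_nt.Root
import Pool.Agent.Lib.MP_be9f18_nt.Lower
import Pool.Agent.Lib.MP_be9f18_nt.Reduction

/-!
Assembly: the two-dimensional simultaneous approximation constant equals `2/7`, given the main
branch and bound and the isolation step.
-/

set_option autoImplicit false

namespace Pool.Agent.Lib.MP_be9f18_nt

/-- Upper bound for one pair. -/
theorem c2_le (main : MainStatement) (iso : IsoStatement) {ξ₁ ξ₂ : ℝ}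
    (h : Irrational ξ₁ ∨ Irrational ξ₂) : c2 ξ₁ ξ₂ ≤ 2 / 7 := by
  rcases le_or_gt (c2 ξ₁ ξ₂) 0 with h0 | h0
  · linarith
  · obtain ⟨p, a1, a2, x, e, s, t, hA, hd⟩ := reduction ξ₁ ξ₂ h h0
    have h1 := det_lower main iso hA
    rw [hd, le_div_iff₀ h0] at h1
    linarith

/-- The value of the constant. -/
theorem sSup_eq (main : MainStatement) (iso : IsoStatement) :
    sSup {γ : ℝ | ∃ ξ₁ ξ₂ : ℝ, (Irrational ξ₁ ∨ Irrational ξ₂) ∧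
      γ = sInf {c : ℝ | 0 < c ∧ c ≤ 1 ∧
        {x : ℤ × ℤ × ℤ | 0 < x.2.2 ∧
          (x.2.2 : ℝ) * |(x.2.2 : ℝ) * ξ₁ - (x.1 : ℝ)| ^ 2 < c ∧
          (x.2.2 : ℝ) * |(x.2.2 : ℝ) * ξ₂ - (x.2.1 : ℝ)| ^ 2 < c}.Infinite}} = 2 / 7 := by
  change sSup {γ : ℝ | ∃ ξ₁ ξ₂ : ℝ, (Irrational ξ₁ ∨ Irrational ξ₂) ∧ γ = c2 ξ₁ ξ₂} = 2 / 7
  refine csSup_eq_of_forall_le_of_forall_lt_exists_gt ?_ ?_ ?_
  · obtain ⟨ξ₁, ξ₂, h, -⟩ := lower 1 one_pos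
    exact ⟨_, ξ₁, ξ₂, h, rfl⟩
  · rintro γ ⟨ξ₁, ξ₂, h, rfl⟩
    exact c2_le main iso h
  · intro w hw
    obtain ⟨ξ₁, ξ₂, h, hc⟩ := lower (2 / 7 - w) (by linarith)
    exact ⟨_, ⟨ξ₁, ξ₂, h, rfl⟩, by linarith⟩

end Pool.Agent.Lib.MP_be9f18_nt
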