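import Pool.Agent.Lib.MP_be9f18_nt.Defs
import Pool.Agent.Lib.MP_be9f18_nt.Check

/-!
Meaning of the boxes of the kernel checker `Check.lean`: membership, accepted boxes, and the
statement `SoundStatement` of the soundness of the checker.
-/

set_option autoImplicit false

namespace Pool.Agent.Lib.MP_be9f18_nt

/-- The point `(p, a1, a2, x, e, s, t)` (here `e` is the absolute value of the parameter `e`)
lies in the box. -/
def InBox (pl ph al ah bl bh xl xh el eh sl sh tl th : ℕ)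
    (p a1 a2 x e s t : ℝ) : Prop :=
  (pl : ℝ) ≤ 16384 * p ∧ 16384 * p ≤ (ph : ℝ)
  ∧ (al : ℝ) ≤ 16384 * a1 + 65536 ∧ 16384 * a1 + 65536 ≤ (ah : ℝ)
  ∧ (bl : ℝ) ≤ 16384 * a2 ∧ 16384 * a2 ≤ (bh : ℝ)
  ∧ (xl : ℝ) ≤ 16384 * x ∧ 16384 * x ≤ (xh : ℝ)
  ∧ (el : ℝ) ≤ 16384 * e ∧ 16384 * e ≤ (eh : ℝ)
  ∧ (sl : ℝ) ≤ 16384 * s + 8192 ∧ 16384 * s + 8192 ≤ (sh : ℝ)
  ∧ (tl : ℝ) ≤ 16384 * t + 8192 ∧ 16384 * t + 8192 ≤ (th : ℝ)

/-- The sign of `e` given by the parameter `om`. -/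
noncomputable def sg (om : ℕ) : ℝ := if om = 1 then 1 else -1

/-- The accepted boxes. -/
def Acc (om : ℕ) (p a1 a2 x e s t : ℝ) : Prop :=
  (om = 1 ∧ (InBox 0 6144 62464 75776 22528 28672 0 8192 18432 27648 256 1536 4352 5632 p a1 a2 x e s t ∨
      InBox 0 7168 59392 69632 21760 27904 0 8192 20992 28672 14848 16128 11520 12800 p a1 a2 x e s t)) ∨
  (om ≠ 1 ∧ (InBox 0 7680 67072 75776 23040 30720 0 7168 15872 25600 256 1536 10752 12032 p a1 a2 x e s t ∨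
      InBox 1536 7680 63488 69632 22528 28160 0 6144 20480 27648 14848 16128 3584 4864 p a1 a2 x e s t ∨
      InBox 0 4096 55296 66560 21760 27648 0 8192 19456 28160 14848 16128 10752 12032 p a1 a2 x e s t ∨
      InBox 0 3072 61440 68608 22528 27648 2048 8192 21504 27648 256 1536 3584 4864 p a1 a2 x e s t))

/-- Every admissible point of the box with determinant less than `7/2` is accepted. -/
def Good (om pl ph al ah bl bh xl xh el eh sl sh tl th : ℕ) : Prop :=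
  ∀ p a1 a2 x e s t : ℝ, InBox pl ph al ah bl bh xl xh el eh sl sh tl th p a1 a2 x e s t →
    Adm p a1 a2 x (sg om * e) s t → e * (a1 ^ 2 + a2 ^ 2) < 7 / 2 → Acc om p a1 a2 x e s t

/-- Soundness of the checker. -/
def SoundStatement : Prop :=
  ∀ om : ℕ, (om = 1 ∨ om = 2 ^ 128 - 1) → ∀ t : Chk.T,
    ∀ pl ph al ah bl bh xl xh el eh sl sh tl th : ℕ,
    ph ≤ 131072 → ah ≤ 131072 → bh ≤ 131072 → xh ≤ 131072 → eh ≤ 131072 → sh ≤ 131072 →
    th ≤ 131072 →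
    Chk.check om t pl ph al ah bl bh xl xh el eh sl sh tl th = true →
    Good om pl ph al ah bl bh xl xh el eh sl sh tl th

section
variable {om pl ph al ah bl bh xl xh el eh sl sh tl th c : ℕ}

/-- Split of a box along `p`. -/
theorem good_s0 (g1 : Good om pl c al ah bl bh xl xh el eh sl sh tl th)
    (g2 : Good om c ph al ah bl bh xl xh el eh sl sh tl th) :
    Good om pl ph al ah bl bh xl xh el eh sl sh tl th := by
  intro p a1 a2 x e s t hb hA hd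
  obtain ⟨h0, k0, h1, k1, h2, k2, h3, k3, h4, k4, h5, k5, h6, k6⟩ := hb
  rcases le_total (16384 * p) (c : ℝ) with hc | hc
  · exact g1 p a1 a2 x e s t ⟨h0, hc, h1, k1, h2, k2, h3, k3, h4, k4, h5, k5, h6, k6⟩ hA hd
  · exact g2 p a1 a2 x e s t ⟨hc, k0, h1, k1, h2, k2, h3, k3, h4, k4, h5, k5, h6, k6⟩ hA hd

/-- Split of a box along `a1`. -/
theorem good_s1 (g1 : Good om pl ph al c bl bh xl xh el eh sl sh tl th)
    (g2 : Good om pl ph c ah bl bh xl xh el eh sl sh tl th) :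
    Good om pl ph al ah bl bh xl xh el eh sl sh tl th := by
  intro p a1 a2 x e s t hb hA hd
  obtain ⟨h0, k0, h1, k1, h2, k2, h3, k3, h4, k4, h5, k5, h6, k6⟩ := hb
  rcases le_total (16384 * a1 + 65536) (c : ℝ) with hc | hc
  · exact g1 p a1 a2 x e s t ⟨h0, k0, h1, hc, h2, k2, h3, k3, h4, k4, h5, k5, h6, k6⟩ hA hd
  · exact g2 p a1 a2 x e s t ⟨h0, k0, hc, k1, h2, k2, h3, k3, h4, k4, h5, k5, h6, k6⟩ hA hd

/-- Split of a box along `a2`. -/
theorem good_s2 (g1 : Good om pl ph al ah bl c xl xh el eh sl sh tl th)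
    (g2 : Good om pl ph al ah c bh xl xh el eh sl sh tl th) :
    Good om pl ph al ah bl bh xl xh el eh sl sh tl th := by
  intro p a1 a2 x e s t hb hA hd
  obtain ⟨h0, k0, h1, k1, h2, k2, h3, k3, h4, k4, h5, k5, h6, k6⟩ := hb
  rcases le_total (16384 * a2) (c : ℝ) with hc | hc
  · exact g1 p a1 a2 x e s t ⟨h0, k0, h1, k1, h2, hc, h3, k3, h4, k4, h5, k5, h6, k6⟩ hA hd
  · exact g2 p a1 a2 x e s t ⟨h0, k0, h1, k1, hc, k2, h3, k3, h4, k4, h5, k5, h6, k6⟩ hA hd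

/-- Split of a box along `x`. -/
theorem good_s3 (g1 : Good om pl ph al ah bl bh xl c el eh sl sh tl th)
    (g2 : Good om pl ph al ah bl bh c xh el eh sl sh tl th) :
    Good om pl ph al ah bl bh xl xh el eh sl sh tl th := by
  intro p a1 a2 x e s t hb hA hd
  obtain ⟨h0, k0, h1, k1, h2, k2, h3, k3, h4, k4, h5, k5, h6, k6⟩ := hb
  rcases le_total (16384 * x) (c : ℝ) with hc | hc
  · exact g1 p a1 a2 x e s t ⟨h0, k0, h1, k1, h2, k2, h3, hc, h4, k4, h5, k5, h6, k6⟩ hA hd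
  · exact g2 p a1 a2 x e s t ⟨h0, k0, h1, k1, h2, k2, hc, k3, h4, k4, h5, k5, h6, k6⟩ hA hd

/-- Split of a box along `e`. -/
theorem good_s4 (g1 : Good om pl ph al ah bl bh xl xh el c sl sh tl th)
    (g2 : Good om pl ph al ah bl bh xl xh c eh sl sh tl th) :
    Good om pl ph al ah bl bh xl xh el eh sl sh tl th := by
  intro p a1 a2 x e s t hb hA hd
  obtain ⟨h0, k0, h1, k1, h2, k2, h3, k3, h4, k4, h5, k5, h6, k6⟩ := hb
  rcases le_total (16384 * e) (c : ℝ) with hc | hc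
  · exact g1 p a1 a2 x e s t ⟨h0, k0, h1, k1, h2, k2, h3, k3, h4, hc, h5, k5, h6, k6⟩ hA hd
  · exact g2 p a1 a2 x e s t ⟨h0, k0, h1, k1, h2, k2, h3, k3, hc, k4, h5, k5, h6, k6⟩ hA hd

/-- Split of a box along `s`. -/
theorem good_s5 (g1 : Good om pl ph al ah bl bh xl xh el eh sl c tl th)
    (g2 : Good om pl ph al ah bl bh xl xh el eh c sh tl th) :
    Good om pl ph al ah bl bh xl xh el eh sl sh tl th := by
  intro p a1 a2 x e s t hb hA hd
  obtain ⟨h0, k0, h1, k1, h2, k2, h3, k3, h4, k4, h5, k5, h6, k6⟩ := hb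
  rcases le_total (16384 * s + 8192) (c : ℝ) with hc | hc
  · exact g1 p a1 a2 x e s t ⟨h0, k0, h1, k1, h2, k2, h3, k3, h4, k4, h5, hc, h6, k6⟩ hA hd
  · exact g2 p a1 a2 x e s t ⟨h0, k0, h1, k1, h2, k2, h3, k3, h4, k4, hc, k5, h6, k6⟩ hA hd

/-- Split of a box along `t`. -/
theorem good_s6 (g1 : Good om pl ph al ah bl bh xl xh el eh sl sh tl c)
    (g2 : Good om pl ph al ah bl bh xl xh el eh sl sh c th) :
    Good om pl ph al ah bl bh xl xh el eh sl sh tl th := by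
  intro p a1 a2 x e s t hb hA hd
  obtain ⟨h0, k0, h1, k1, h2, k2, h3, k3, h4, k4, h5, k5, h6, k6⟩ := hb
  rcases le_total (16384 * t + 8192) (c : ℝ) with hc | hc
  · exact g1 p a1 a2 x e s t ⟨h0, k0, h1, k1, h2, k2, h3, k3, h4, k4, h5, k5, h6, hc⟩ hA hd
  · exact g2 p a1 a2 x e s t ⟨h0, k0, h1, k1, h2, k2, h3, k3, h4, k4, h5, k5, hc, k6⟩ hA hd

end

end Pool.Agent.Lib.MP_be9f18_nt
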