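import Pool.Agent.Lib.MP_be9f18_nt.Good

/-!
Statements for the local analysis near the cubic lattice (problem MP_be9f18_nt).

A lattice close to the lattice of the cubic field is written as the image under the matrix
`T = [[a, b, f], [e, d, g], [h, l, c]]` of the lattice of the vectors
`(X, Y, Z) = ((y1 + y2)/2, (y1 - y2)/2, y3)`, `yi = yv ti k m n`.
-/

set_option autoImplicit false

namespace Pool.Agent.Lib.MP_be9f18_nt

/-- Value of `G` at the image under `T` of the point with coordinates `k, m, n`. -/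
noncomputable def GT (t1 t2 t3 a b f e d g h l c : ℝ) (k m n : ℤ) : ℝ :=
  G (a * ((yv t1 k m n + yv t2 k m n) / 2) + b * ((yv t1 k m n - yv t2 k m n) / 2)
      + f * yv t3 k m n)
    (e * ((yv t1 k m n + yv t2 k m n) / 2) + d * ((yv t1 k m n - yv t2 k m n) / 2)
      + g * yv t3 k m n)
    (h * ((yv t1 k m n + yv t2 k m n) / 2) + l * ((yv t1 k m n - yv t2 k m n) / 2)
      + c * yv t3 k m n)

/-- The image lattice is admissible. -/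
def AdmT (t1 t2 t3 a b f e d g h l c : ℝ) : Prop :=
  ∀ k m n : ℤ, ¬(k = 0 ∧ m = 0 ∧ n = 0) → 1 ≤ GT t1 t2 t3 a b f e d g h l c k m n

/-- Determinant of `T`. -/
def detT (a b f e d g h l c : ℝ) : ℝ :=
  a * (d * c - g * l) - b * (e * c - g * h) + f * (e * l - d * h)

/-- The fat region (for `P`-normalised matrices, `a = 1 - f`, `c = 1 - h`). -/
def Fat (b f e d g h l : ℝ) : Prop :=
  (-35 / 100 ≤ b ∧ b ≤ 37 / 100) ∧ (-60 / 100 ≤ f ∧ f ≤ 45 / 100) ∧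
  (-75 / 100 ≤ e ∧ e ≤ 80 / 100) ∧ (80 / 100 ≤ d ∧ d ≤ 126 / 100) ∧
  (-80 / 100 ≤ g ∧ g ≤ 84 / 100) ∧ (-30 / 1000 ≤ h ∧ h ≤ 30 / 1000) ∧
  (-30 / 1000 ≤ l ∧ l ≤ 30 / 1000)

/-- The thin region. -/
def Thin (a b f e d g h l c : ℝ) : Prop :=
  |a - 1| ≤ 1 / 1000 ∧ |b| ≤ 30 / 1000 ∧ |f| ≤ 1 / 1000 ∧ |e| ≤ 80 / 1000 ∧
  |d - 1| ≤ 20 / 1000 ∧ |g| ≤ 1 / 1000 ∧ |h| ≤ 1 / 1000 ∧ |l| ≤ 1 / 1000 ∧
  |c - 1| ≤ 1 / 1000

/-- Common part of the regions `III` and `IV`. -/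
def Wide (a b e d c : ℝ) : Prop :=
  (975 / 1000 ≤ a ∧ a ≤ 1092 / 1000) ∧ |b| ≤ 395 / 1000 ∧ |e| ≤ 395 / 1000 ∧
  (975 / 1000 ≤ d ∧ d ≤ 1092 / 1000) ∧ |c - 1| ≤ 1 / 1000

/-- Module Z: an accepted point gives a matrix in the fat region. -/
def StatementZ : Prop :=
  ∀ t1 t2 t3 : ℝ, Roots t1 t2 t3 → ∀ om : ℕ, (om = 1 ∨ om = 2 ^ 128 - 1) →
    ∀ p a1 a2 x e s t : ℝ, Adm p a1 a2 x (sg om * e) s t → e * (a1 ^ 2 + a2 ^ 2) < 7 / 2 →
      Acc om p a1 a2 x e s t →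
      ∃ b f e' d g h l : ℝ, Fat b f e' d g h l ∧
        AdmT t1 t2 t3 (1 - f) b f e' d g h l (1 - h) ∧
        detT (1 - f) b f e' d g h l (1 - h) < 1

/-- Certificate II: fat region to thin region. -/
def StatementII : Prop :=
  ∀ t1 t2 t3 : ℝ, Roots t1 t2 t3 → ∀ b f e d g h l : ℝ, Fat b f e d g h l →
    AdmT t1 t2 t3 (1 - f) b f e d g h l (1 - h) →
    detT (1 - f) b f e d g h l (1 - h) ≤ 1 → Thin (1 - f) b f e d g h l (1 - h)

/-- Certificate III. -/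
def StatementIII : Prop :=
  ∀ t1 t2 t3 : ℝ, Roots t1 t2 t3 → ∀ a b f e d g h l c : ℝ, Wide a b e d c →
    |f| ≤ 820 / 1000 → |g| ≤ 820 / 1000 → |h| ≤ 14 / 10000 → |l| ≤ 14 / 10000 →
    AdmT t1 t2 t3 a b f e d g h l c → detT a b f e d g h l c ≤ 1 →
    |f| < 1 / 10 ∧ |g| < 1 / 10

/-- Certificate IV. -/
def StatementIV : Prop :=
  ∀ t1 t2 t3 : ℝ, Roots t1 t2 t3 → ∀ a b e d h l c : ℝ, Wide a b e d c →
    |h| ≤ 820 / 1000 → |l| ≤ 820 / 1000 →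
    AdmT t1 t2 t3 a b 0 e d 0 h l c → detT a b 0 e d 0 h l c ≤ 1 →
    |h| < 7 / 100 ∧ |l| < 7 / 100

/-- Module U, first half (unit flow): an admissible matrix of determinant at most `1` in the thin
region has `f = g = 0`. -/
def FlowUpper : Prop :=
  StatementIII → ∀ t1 t2 t3 : ℝ, Roots t1 t2 t3 → ∀ a b f e d g h l c : ℝ,
    Thin a b f e d g h l c → AdmT t1 t2 t3 a b f e d g h l c → detT a b f e d g h l c ≤ 1 →
    f = 0 ∧ g = 0

/-- Module U, second half (unit flow): then also `h = l = 0`. -/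
def FlowLower : Prop :=
  StatementIV → ∀ t1 t2 t3 : ℝ, Roots t1 t2 t3 → ∀ a b e d h l c : ℝ,
    Thin a b 0 e d 0 h l c → AdmT t1 t2 t3 a b 0 e d 0 h l c → detT a b 0 e d 0 h l c ≤ 1 →
    h = 0 ∧ l = 0

end Pool.Agent.Lib.MP_be9f18_nt
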