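import Pool.Agent.Lib.MP_be9f18_nt.Iso.Flow
import Pool.Agent.Lib.MP_be9f18_nt.Iso.Limit

/-!
The points accepted by the branch and bound are impossible, given the certificates II and III.
-/

set_option autoImplicit false

namespace Pool.Agent.Lib.MP_be9f18_nt

theorem iso (H2 : StatementII) (H3 : StatementIII) (HZ : StatementZ) (om : ℕ)
    (hom : om = 1 ∨ om = 2 ^ 128 - 1) (p a1 a2 x e s t : ℝ)
    (hA : Adm p a1 a2 x (sg om * e) s t) (hD : e * (a1 ^ 2 + a2 ^ 2) < 7 / 2)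
    (hacc : Acc om p a1 a2 x e s t) : False := by
  obtain ⟨t1, t2, t3, R⟩ := exists_roots
  obtain ⟨b, f, e', d, g, h, l, hF, hT, hdet⟩ := HZ t1 t2 t3 R om hom p a1 a2 x e s t hA hD hacc
  have hthin := H2 t1 t2 t3 R b f e' d g h l hF hT hdet.le
  obtain ⟨rfl, rfl⟩ := Flow.flow_upper H3 t1 t2 t3 R _ _ _ _ _ _ _ _ _ hthin hT hdet.le
  have := Flow.block_limit R hthin hT
  linarith

end Pool.Agent.Lib.MP_be9f18_nt
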