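import Pool.Agent.Lib.MP_be9f18_nt.Good

/-!
The root box of the main branch and bound: every admissible parameter point with determinant
less than `7/2` lies in it.
-/

set_option autoImplicit false

namespace Pool.Agent.Lib.MP_be9f18_nt

/-- The value of `F` at the lattice point `(0, 1, 0)`. -/
theorem F_zero_one_zero (p a1 a2 x e s t : ℝ) :
    F p a1 a2 x e s t 0 1 0 = |s| * max ((s + a1) ^ 2) ((p * s + a2) ^ 2) := by
  unfold F G
  push_cast
  congr 1
  · congr 1; ring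
  · congr 1 <;> congr 1 <;> ring

theorem sq_lower {s a : ℝ} (h : 2 ≤ (s + a) ^ 2) (hs : |s| ≤ 1 / 2) : 829 / 1000 ≤ a ^ 2 := by
  have h1 := abs_le.mp hs
  by_contra hlt
  push Not at hlt
  have ha : |a| < 911 / 1000 := by
    refine abs_lt_of_sq_lt_sq ?_ (by norm_num)
    nlinarith
  have ha2 := abs_lt.mp ha
  have h3 : |s + a| ≤ 1411 / 1000 := by
    rw [abs_le]
    constructor <;> linarith [h1.1, h1.2, ha2.1, ha2.2]
  have h4 : (s + a) ^ 2 ≤ (1411 / 1000) ^ 2 := sq_le_sq' (by linarith [(abs_le.mp h3).1])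
    ((abs_le.mp h3).2)
  norm_num at h4
  linarith

theorem norm_lower {p a1 a2 x e s t : ℝ} (hA : Adm p a1 a2 x e s t) :
    829 / 1000 ≤ a1 ^ 2 + a2 ^ 2 := by
  obtain ⟨hp0, hp1, ha2, hx0, hx1, hxe, hs, ht, hF⟩ := hA
  have h := hF 0 1 0 (by norm_num)
  rw [F_zero_one_zero] at h
  have hm0 : 0 ≤ max ((s + a1) ^ 2) ((p * s + a2) ^ 2) := le_max_of_le_left (sq_nonneg _)
  have h2 : 2 ≤ max ((s + a1) ^ 2) ((p * s + a2) ^ 2) := by
    nlinarith [mul_le_mul_of_nonneg_right hs hm0]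
  rcases le_max_iff.mp h2 with h3 | h3
  · have := sq_lower h3 hs
    nlinarith [sq_nonneg a2]
  · have hps : |p * s| ≤ 1 / 2 := by
      rw [abs_mul, abs_of_nonneg hp0]
      nlinarith [abs_nonneg s]
    have := sq_lower h3 hps
    nlinarith [sq_nonneg a1]

theorem e_lower {x e : ℝ} (hx0 : 0 ≤ x) (hx1 : x ≤ 1 / 2) (hxe : 1 ≤ x ^ 2 + e ^ 2) :
    14188 / 16384 ≤ |e| := by
  have h1 : 3 / 4 ≤ e ^ 2 := by nlinarith
  refine abs_le_of_sq_le_sq' ?_ (abs_nonneg _) |>.2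
  rw [sq_abs]
  nlinarith

/-- The root box. -/
theorem root_box {p a1 a2 x e s t : ℝ} (hA : Adm p a1 a2 x e s t)
    (hd : |e| * (a1 ^ 2 + a2 ^ 2) < 7 / 2) :
    InBox 0 16384 32440 98632 0 33096 0 8192 14188 69632 0 16384 0 16384
      p a1 a2 x |e| s t := by
  have hn := norm_lower hA
  obtain ⟨hp0, hp1, ha2, hx0, hx1, hxe, hs, ht, -⟩ := hA
  have he := e_lower hx0 hx1 hxe
  have heu : |e| ≤ 69632 / 16384 := by
    by_contra hlt
    push Not at hlt
    nlinarith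
  have hN : a1 ^ 2 + a2 ^ 2 ≤ (33096 / 16384) ^ 2 := by
    by_contra hlt
    push Not at hlt
    norm_num at hlt
    nlinarith
  have hA1 : |a1| ≤ 33096 / 16384 := abs_le_of_sq_le_sq (by nlinarith [sq_nonneg a2]) (by norm_num)
  have hA2 : |a2| ≤ 33096 / 16384 := abs_le_of_sq_le_sq (by nlinarith [sq_nonneg a1]) (by norm_num)
  have h1 := abs_le.mp hA1
  have h2 := abs_le.mp hA2
  have hs' := abs_le.mp hs
  have ht' := abs_le.mp ht
  unfold InBox
  norm_num at h1 h2 he heu ⊢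
  refine ⟨?_, ?_, ?_, ?_, ?_, ?_, ?_, ?_, ?_, ?_, ?_, ?_, ?_, ?_⟩ <;>
    linarith [h1.1, h1.2, h2.1, h2.2, hs'.1, hs'.2, ht'.1, ht'.2]

/-- The sign of `e`. -/
theorem exists_sign (e : ℝ) : ∃ om : ℕ, (om = 1 ∨ om = 2 ^ 128 - 1) ∧ sg om * |e| = e := by
  rcases le_total 0 e with h | h
  · exact ⟨1, Or.inl rfl, by simp [sg, abs_of_nonneg h]⟩
  · refine ⟨2 ^ 128 - 1, Or.inr rfl, ?_⟩
    have h1 : (2 ^ 128 - 1 : ℕ) ≠ 1 := by norm_num
    rw [sg, if_neg h1, abs_of_nonpos h]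
    ring

/-- The result of the main branch and bound. -/
def MainStatement : Prop :=
  ∀ om : ℕ, (om = 1 ∨ om = 2 ^ 128 - 1) →
    Good om 0 16384 32440 98632 0 33096 0 8192 14188 69632 0 16384 0 16384

/-- No admissible point with determinant less than `7/2` lies in an accepted box. -/
def IsoStatement : Prop :=
  ∀ om : ℕ, (om = 1 ∨ om = 2 ^ 128 - 1) → ∀ p a1 a2 x e s t : ℝ,
    Acc om p a1 a2 x e s t → Adm p a1 a2 x (sg om * e) s t →
    e * (a1 ^ 2 + a2 ^ 2) < 7 / 2 → False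

/-- The critical determinant: every admissible parameter point has determinant at least `7/2`. -/
theorem det_lower (main : MainStatement) (iso : IsoStatement) {p a1 a2 x e s t : ℝ}
    (hA : Adm p a1 a2 x e s t) : 7 / 2 ≤ |e| * (a1 ^ 2 + a2 ^ 2) := by
  by_contra hd
  push Not at hd
  obtain ⟨om, hom, hsg⟩ := exists_sign e
  have hA' : Adm p a1 a2 x (sg om * |e|) s t := by rw [hsg]; exact hA
  exact iso om hom p a1 a2 x |e| s t
    (main om hom p a1 a2 x |e| s t (root_box hA hd) hA' hd) hA' hd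

end Pool.Agent.Lib.MP_be9f18_nt
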