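import Pool.Agent.Lib.MP_be9f18_nt.Sound
import Pool.Agent.Lib.MP_be9f18_nt.Root
import Pool.Agent.Lib.MP_be9f18_nt.CertI.M01
import Pool.Agent.Lib.MP_be9f18_nt.CertI.M02
import Pool.Agent.Lib.MP_be9f18_nt.CertI.M03
import Pool.Agent.Lib.MP_be9f18_nt.CertI.M04
import Pool.Agent.Lib.MP_be9f18_nt.CertI.M05
import Pool.Agent.Lib.MP_be9f18_nt.CertI.M06
import Pool.Agent.Lib.MP_be9f18_nt.CertI.M07
import Pool.Agent.Lib.MP_be9f18_nt.CertI.M08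
import Pool.Agent.Lib.MP_be9f18_nt.CertI.M09
import Pool.Agent.Lib.MP_be9f18_nt.CertI.M10
import Pool.Agent.Lib.MP_be9f18_nt.CertI.M11
import Pool.Agent.Lib.MP_be9f18_nt.CertI.M12
import Pool.Agent.Lib.MP_be9f18_nt.CertI.M13
import Pool.Agent.Lib.MP_be9f18_nt.CertI.M14
import Pool.Agent.Lib.MP_be9f18_nt.CertI.M15
import Pool.Agent.Lib.MP_be9f18_nt.CertI.M16

/-!
The main certificate: every admissible point of the root box with determinant less than `7/2`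
is accepted.
-/

set_option autoImplicit false
set_option maxRecDepth 100000

namespace Pool.Agent.Lib.MP_be9f18_nt

/-- All upper bounds are at most `2^17`. -/
def bndG (ph ah bh xh eh sh th : ℕ) : Bool :=
  Nat.ble ph 131072 && (Nat.ble ah 131072 && (Nat.ble bh 131072 && (Nat.ble xh 131072 &&
  (Nat.ble eh 131072 && (Nat.ble sh 131072 && Nat.ble th 131072)))))

theorem gd1 {t : Chk.T} {pl ph al ah bl bh xl xh el eh sl sh tl th : ℕ}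
    (h : Chk.check 1 t pl ph al ah bl bh xl xh el eh sl sh tl th = true)
    (hb : bndG ph ah bh xh eh sh th = true) : Good 1 pl ph al ah bl bh xl xh el eh sl sh tl th := by
  simp only [bndG, Bool.and_eq_true, Nat.ble_eq] at hb
  obtain ⟨b1, b2, b3, b4, b5, b6, b7⟩ := hb
  exact check_sound 1 (Or.inl rfl) t _ _ _ _ _ _ _ _ _ _ _ _ _ _ b1 b2 b3 b4 b5 b6 b7 h

theorem gd2 {t : Chk.T} {pl ph al ah bl bh xl xh el eh sl sh tl th : ℕ}
    (h : Chk.check 0xffffffffffffffffffffffffffffffff t pl ph al ah bl bh xl xh el eh sl sh tl th = true)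
    (hb : bndG ph ah bh xh eh sh th = true) :
    Good 340282366920938463463374607431768211455 pl ph al ah bl bh xl xh el eh sl sh tl th := by
  simp only [bndG, Bool.and_eq_true, Nat.ble_eq] at hb
  obtain ⟨b1, b2, b3, b4, b5, b6, b7⟩ := hb
  exact check_sound 340282366920938463463374607431768211455 (Or.inr (by norm_num)) t
    _ _ _ _ _ _ _ _ _ _ _ _ _ _ b1 b2 b3 b4 b5 b6 b7 h

theorem cell_p_0_0 : Good 1 0 16384 32440 36577 0 4137 0 8192 14188 69632 0 16384 0 16384 :=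
  (gd1 Chk.c0 rfl)

theorem cell_p_0_1 : Good 1 0 16384 32440 36577 4137 8274 0 8192 14188 69632 0 16384 0 16384 :=
  (gd1 Chk.c1 rfl)

theorem cell_p_0_2 : Good 1 0 16384 32440 36577 8274 12411 0 8192 14188 69632 0 16384 0 16384 :=
  (gd1 Chk.c2 rfl)

theorem cell_p_0_3 : Good 1 0 16384 32440 36577 12411 16548 0 8192 14188 69632 0 16384 0 16384 :=
  (gd1 Chk.c3 rfl)

theorem cell_p_0_4 : Good 1 0 16384 32440 36577 16548 20685 0 8192 14188 69632 0 16384 0 16384 :=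
  (gd1 Chk.c4 rfl)

theorem cell_p_0_5 : Good 1 0 16384 32440 36577 20685 24822 0 8192 14188 69632 0 16384 0 16384 :=
  (gd1 Chk.c5 rfl)

theorem cell_p_0_6 : Good 1 0 16384 32440 36577 24822 28959 0 8192 14188 69632 0 16384 0 16384 :=
  (gd1 Chk.c6 rfl)

theorem cell_p_0_7 : Good 1 0 16384 32440 36577 28959 33096 0 8192 14188 69632 0 16384 0 16384 :=
  (gd1 Chk.c7 rfl)

theorem cell_p_1_0 : Good 1 0 16384 36577 40714 0 4137 0 8192 14188 69632 0 16384 0 16384 :=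
  (gd1 Chk.c8 rfl)

theorem cell_p_1_1 : Good 1 0 16384 36577 40714 4137 8274 0 8192 14188 69632 0 16384 0 16384 :=
  (gd1 Chk.c9 rfl)

theorem cell_p_1_2 : Good 1 0 16384 36577 40714 8274 12411 0 8192 14188 69632 0 16384 0 16384 :=
  (good_s3 (good_s2 (gd1 Chk.c10 rfl)
  (gd1 Chk.c11 rfl))
  (gd1 Chk.c12 rfl))

theorem cell_p_1_3 : Good 1 0 16384 36577 40714 12411 16548 0 8192 14188 69632 0 16384 0 16384 :=
  (good_s2 (gd1 Chk.c13 rfl)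
  (gd1 Chk.c14 rfl))

theorem cell_p_1_4 : Good 1 0 16384 36577 40714 16548 20685 0 8192 14188 69632 0 16384 0 16384 :=
  (gd1 Chk.c15 rfl)

theorem cell_p_1_5 : Good 1 0 16384 36577 40714 20685 24822 0 8192 14188 69632 0 16384 0 16384 :=
  (gd1 Chk.c16 rfl)

theorem cell_p_1_6 : Good 1 0 16384 36577 40714 24822 28959 0 8192 14188 69632 0 16384 0 16384 :=
  (gd1 Chk.c17 rfl)

theorem cell_p_1_7 : Good 1 0 16384 36577 40714 28959 33096 0 8192 14188 69632 0 16384 0 16384 :=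
  (gd1 Chk.c18 rfl)

theorem cell_p_2_0 : Good 1 0 16384 40714 44851 0 4137 0 8192 14188 69632 0 16384 0 16384 :=
  (gd1 Chk.c19 rfl)

theorem cell_p_2_1 : Good 1 0 16384 40714 44851 4137 8274 0 8192 14188 69632 0 16384 0 16384 :=
  (gd1 Chk.c20 rfl)

theorem cell_p_2_2 : Good 1 0 16384 40714 44851 8274 12411 0 8192 14188 69632 0 16384 0 16384 :=
  (good_s1 (gd1 Chk.c21 rfl)
  (good_s4 (good_s2 (gd1 Chk.c22 rfl)
  (good_s0 (gd1 Chk.c23 rfl)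
  (gd1 Chk.c24 rfl)))
  (gd1 Chk.c25 rfl)))

theorem cell_p_2_3 : Good 1 0 16384 40714 44851 12411 16548 0 8192 14188 69632 0 16384 0 16384 :=
  (good_s5 (good_s5 (good_s1 (good_s5 (gd1 Chk.c26 rfl)
  (gd1 Chk.c27 rfl))
  (gd1 Chk.c28 rfl))
  (gd1 Chk.c29 rfl))
  (gd1 Chk.c30 rfl))

theorem cell_p_2_4 : Good 1 0 16384 40714 44851 16548 20685 0 8192 14188 69632 0 16384 0 16384 :=
  (good_s1 (gd1 Chk.c31 rfl)
  (good_s2 (gd1 Chk.c32 rfl)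
  (gd1 Chk.c33 rfl)))

theorem cell_p_2_5 : Good 1 0 16384 40714 44851 20685 24822 0 8192 14188 69632 0 16384 0 16384 :=
  (good_s2 (good_s1 (gd1 Chk.c34 rfl)
  (gd1 Chk.c35 rfl))
  (gd1 Chk.c36 rfl))

theorem cell_p_2_6 : Good 1 0 16384 40714 44851 24822 28959 0 8192 14188 69632 0 16384 0 16384 :=
  (gd1 Chk.c37 rfl)

theorem cell_p_2_7 : Good 1 0 16384 40714 44851 28959 33096 0 8192 14188 69632 0 16384 0 16384 :=
  (gd1 Chk.c38 rfl)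

theorem cell_p_3_0 : Good 1 0 16384 44851 48988 0 4137 0 8192 14188 69632 0 16384 0 16384 :=
  (gd1 Chk.c39 rfl)

theorem cell_p_3_1 : Good 1 0 16384 44851 48988 4137 8274 0 8192 14188 69632 0 16384 0 16384 :=
  (gd1 Chk.c40 rfl)

theorem cell_p_3_2 : Good 1 0 16384 44851 48988 8274 12411 0 8192 14188 69632 0 16384 0 16384 :=
  (gd1 Chk.c41 rfl)

theorem cell_p_3_3 : Good 1 0 16384 44851 48988 12411 16548 0 8192 14188 69632 0 16384 0 16384 :=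
  (gd1 Chk.c42 rfl)

theorem cell_p_3_4 : Good 1 0 16384 44851 48988 16548 20685 0 8192 14188 69632 0 16384 0 16384 :=
  (good_s2 (gd1 Chk.c43 rfl)
  (good_s5 (gd1 Chk.c44 rfl)
  (gd1 Chk.c45 rfl)))

theorem cell_p_3_5 : Good 1 0 16384 44851 48988 20685 24822 0 8192 14188 69632 0 16384 0 16384 :=
  (good_s2 (good_s5 (gd1 Chk.c46 rfl)
  (good_s5 (gd1 Chk.c47 rfl)
  (good_s5 (good_s5 (gd1 Chk.c48 rfl)
  (gd1 Chk.c49 rfl))
  (gd1 Chk.c50 rfl))))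
  (good_s3 (gd1 Chk.c51 rfl)
  (good_s4 (good_s4 (good_s4 (good_s4 (gd1 Chk.c52 rfl)
  (good_s2 (gd1 Chk.c53 rfl)
  (gd1 Chk.c54 rfl)))
  (gd1 Chk.c55 rfl))
  (gd1 Chk.c56 rfl))
  (gd1 Chk.c57 rfl))))

theorem cell_p_3_6 : Good 1 0 16384 44851 48988 24822 28959 0 8192 14188 69632 0 16384 0 16384 :=
  (good_s2 (good_s4 (good_s4 (good_s4 (good_s4 (gd1 Chk.c58 rfl)
  (gd1 Chk.c59 rfl))
  (gd1 Chk.c60 rfl))
  (gd1 Chk.c61 rfl))
  (gd1 Chk.c62 rfl))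
  (gd1 Chk.c63 rfl))

theorem cell_p_3_7 : Good 1 0 16384 44851 48988 28959 33096 0 8192 14188 69632 0 16384 0 16384 :=
  (gd1 Chk.c64 rfl)

theorem cell_p_4_0 : Good 1 0 16384 48988 53125 0 4137 0 8192 14188 69632 0 16384 0 16384 :=
  (gd1 Chk.c65 rfl)

theorem cell_p_4_1 : Good 1 0 16384 48988 53125 4137 8274 0 8192 14188 69632 0 16384 0 16384 :=
  (gd1 Chk.c66 rfl)

theorem cell_p_4_2 : Good 1 0 16384 48988 53125 8274 12411 0 8192 14188 69632 0 16384 0 16384 :=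
  (gd1 Chk.c67 rfl)

theorem cell_p_4_3 : Good 1 0 16384 48988 53125 12411 16548 0 8192 14188 69632 0 16384 0 16384 :=
  (gd1 Chk.c68 rfl)

theorem cell_p_4_4 : Good 1 0 16384 48988 53125 16548 20685 0 8192 14188 69632 0 16384 0 16384 :=
  (gd1 Chk.c69 rfl)

theorem cell_p_4_5 : Good 1 0 16384 48988 53125 20685 24822 0 8192 14188 69632 0 16384 0 16384 :=
  (good_s1 (good_s4 (good_s0 (gd1 Chk.c70 rfl)
  (good_s4 (good_s4 (good_s5 (gd1 Chk.c71 rfl)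
  (good_s5 (gd1 Chk.c72 rfl)
  (good_s5 (good_s5 (gd1 Chk.c73 rfl)
  (good_s5 (gd1 Chk.c74 rfl)
  (gd1 Chk.c75 rfl)))
  (gd1 Chk.c76 rfl))))
  (good_s4 (good_s5 (gd1 Chk.c77 rfl)
  (good_s5 (gd1 Chk.c78 rfl)
  (good_s2 (good_s5 (gd1 Chk.c79 rfl)
  (good_s5 (good_s5 (gd1 Chk.c80 rfl)
  (good_s5 (gd1 Chk.c81 rfl)
  (gd1 Chk.c82 rfl)))
  (gd1 Chk.c83 rfl)))
  (gd1 Chk.c84 rfl))))
  (gd1 Chk.c85 rfl)))
  (gd1 Chk.c86 rfl)))
  (gd1 Chk.c87 rfl))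
  (good_s0 (gd1 Chk.c88 rfl)
  (good_s5 (gd1 Chk.c89 rfl)
  (good_s5 (gd1 Chk.c90 rfl)
  (good_s5 (good_s4 (good_s4 (good_s6 (good_s6 (good_s0 (good_s4 (gd1 Chk.c91 rfl)
  (gd1 Chk.c92 rfl))
  (good_s5 (good_s5 (gd1 Chk.c93 rfl)
  (good_s4 (good_s2 (gd1 Chk.c94 rfl)
  (gd1 Chk.c95 rfl))
  (gd1 Chk.c96 rfl)))
  (good_s5 (gd1 Chk.c97 rfl)
  (gd1 Chk.c98 rfl))))
  (gd1 Chk.c99 rfl))
  (gd1 Chk.c100 rfl))
  (gd1 Chk.c101 rfl))
  (gd1 Chk.c102 rfl))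
  (gd1 Chk.c103 rfl))))))

theorem cell_p_4_6 : Good 1 0 16384 48988 53125 24822 28959 0 8192 14188 69632 0 16384 0 16384 :=
  (good_s2 (good_s1 (good_s2 (good_s5 (gd1 Chk.c104 rfl)
  (gd1 Chk.c105 rfl))
  (gd1 Chk.c106 rfl))
  (good_s5 (gd1 Chk.c107 rfl)
  (good_s5 (gd1 Chk.c108 rfl)
  (good_s5 (good_s2 (gd1 Chk.c109 rfl)
  (gd1 Chk.c110 rfl))
  (good_s5 (good_s2 (gd1 Chk.c111 rfl)
  (gd1 Chk.c112 rfl))
  (gd1 Chk.c113 rfl))))))
  (good_s1 (gd1 Chk.c114 rfl)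
  (good_s4 (good_s4 (good_s2 (gd1 Chk.c115 rfl)
  (gd1 Chk.c116 rfl))
  (gd1 Chk.c117 rfl))
  (gd1 Chk.c118 rfl))))

theorem cell_p_4_7 : Good 1 0 16384 48988 53125 28959 33096 0 8192 14188 69632 0 16384 0 16384 :=
  (gd1 Chk.c119 rfl)

theorem cell_p_5_0 : Good 1 0 16384 53125 57262 0 4137 0 8192 14188 69632 0 16384 0 16384 :=
  (gd1 Chk.c120 rfl)

theorem cell_p_5_1 : Good 1 0 16384 53125 57262 4137 8274 0 8192 14188 69632 0 16384 0 16384 :=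
  (gd1 Chk.c121 rfl)

theorem cell_p_5_2 : Good 1 0 16384 53125 57262 8274 12411 0 8192 14188 69632 0 16384 0 16384 :=
  (gd1 Chk.c122 rfl)

theorem cell_p_5_3 : Good 1 0 16384 53125 57262 12411 16548 0 8192 14188 69632 0 16384 0 16384 :=
  (gd1 Chk.c123 rfl)

theorem cell_p_5_4 : Good 1 0 16384 53125 57262 16548 20685 0 8192 14188 69632 0 16384 0 16384 :=
  (gd1 Chk.c124 rfl)

theorem cell_p_5_5 : Good 1 0 16384 53125 57262 20685 24822 0 8192 14188 69632 0 16384 0 16384 :=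
  (good_s4 (good_s4 (good_s5 (gd1 Chk.c125 rfl)
  (good_s5 (gd1 Chk.c126 rfl)
  (good_s5 (gd1 Chk.c127 rfl)
  (good_s5 (good_s5 (gd1 Chk.c128 rfl)
  (good_s0 (gd1 Chk.c129 rfl)
  (good_s5 (gd1 Chk.c130 rfl)
  (good_s0 (gd1 Chk.c131 rfl)
  (good_s4 (good_s5 (gd1 Chk.c132 rfl)
  (good_s6 (good_s1 (good_s6 (good_s5 (gd1 Chk.c133 rfl)
  (good_s6 (gd1 Chk.c134 rfl)
  (good_s6 (good_s6 (gd1 Chk.c135 rfl)
  (good_s6 (good_s5 (good_s4 (gd1 Chk.c136 rfl)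
  (good_s6 (good_s6 (good_s4 (good_s5 (good_s2 (gd1 Chk.c137 rfl)
  (good_s3 (good_s2 (good_s0 (gd1 Chk.c138 rfl)
  (good_s4 (gd1 Chk.c139 rfl)
  (good_s5 (gd1 Chk.c140 rfl)
  (good_s6 (good_s5 (good_s4 (good_s0 (good_s2 (gd1 Chk.c141 rfl)
  (good_s4 (good_s3 (gd1 Chk.c142 rfl)
  (good_s3 (gd1 Chk.c143 rfl)
  (gd1 Chk.c144 rfl)))
  (gd1 Chk.c145 rfl)))
  (good_s4 (gd1 Chk.c146 rfl)
  (good_s1 (gd1 Chk.c147 rfl)
  (gd1 Chk.c148 rfl))))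
  (gd1 Chk.c149 rfl))
  (gd1 Chk.c150 rfl))
  (gd1 Chk.c151 rfl)))))
  (good_s4 (gd1 Chk.c152 rfl)
  (good_s2 (good_s1 (gd1 Chk.c153 rfl)
  (good_s4 (good_s6 (good_s0 (gd1 Chk.c154 rfl)
  (good_s5 (gd1 Chk.c155 rfl)
  (good_s0 (gd1 Chk.c156 rfl)
  (gd1 Chk.c157 rfl))))
  (gd1 Chk.c158 rfl))
  (gd1 Chk.c159 rfl)))
  (gd1 Chk.c160 rfl))))
  (good_s4 (gd1 Chk.c161 rfl)
  (gd1 Chk.c162 rfl))))
  (gd1 Chk.c163 rfl))
  (gd1 Chk.c164 rfl))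
  (gd1 Chk.c165 rfl))
  (gd1 Chk.c166 rfl)))
  (gd1 Chk.c167 rfl))
  (gd1 Chk.c168 rfl)))
  (gd1 Chk.c169 rfl))))
  (gd1 Chk.c170 rfl))
  (gd1 Chk.c171 rfl))
  (gd1 Chk.c172 rfl)))
  (gd1 Chk.c173 rfl))))))
  (good_s4 (good_s6 (good_s6 (gd1 Chk.c174 rfl)
  (gd1 Chk.c175 rfl))
  (gd1 Chk.c176 rfl))
  (gd1 Chk.c177 rfl))))))
  (gd1 Chk.c178 rfl))
  (gd1 Chk.c179 rfl))

theorem cell_p_5_6 : Good 1 0 16384 53125 57262 24822 28959 0 8192 14188 69632 0 16384 0 16384 :=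
  (good_s4 (good_s2 (good_s4 (good_s2 (good_s1 (good_s4 (good_s5 (gd1 Chk.c180 rfl)
  (good_s6 (good_s6 (gd1 Chk.c181 rfl)
  (good_s5 (gd1 Chk.c182 rfl)
  (good_s6 (good_s6 (gd1 Chk.c183 rfl)
  (gd1 Chk.c184 rfl))
  (gd1 Chk.c185 rfl))))
  (gd1 Chk.c186 rfl)))
  (gd1 Chk.c187 rfl))
  (good_s6 (good_s4 (good_s6 (gd1 Chk.c188 rfl)
  (good_s6 (good_s5 (gd1 Chk.c189 rfl)
  (good_s5 (gd1 Chk.c190 rfl)
  (good_s4 (gd1 Chk.c191 rfl)
  (good_s5 (good_s5 (gd1 Chk.c192 rfl)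
  (good_s0 (gd1 Chk.c193 rfl)
  (gd1 Chk.c194 rfl)))
  (gd1 Chk.c195 rfl)))))
  (gd1 Chk.c196 rfl)))
  (gd1 Chk.c197 rfl))
  (gd1 Chk.c198 rfl)))
  (good_s0 (good_s1 (gd1 Chk.c199 rfl)
  (gd1 Chk.c200 rfl))
  (good_s4 (good_s5 (gd1 Chk.c201 rfl)
  (good_s5 (gd1 Chk.c202 rfl)
  (good_s5 (good_s5 (good_s5 (gd1 Chk.c203 rfl)
  (good_s6 (good_s6 (good_s6 (gd1 Chk.c204 rfl)
  (gd1 Chk.c205 rfl))
  (gd1 Chk.c206 rfl))
  (gd1 Chk.c207 rfl)))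
  (gd1 Chk.c208 rfl))
  (gd1 Chk.c209 rfl))))
  (gd1 Chk.c210 rfl))))
  (gd1 Chk.c211 rfl))
  (good_s3 (good_s4 (good_s4 (good_s4 (gd1 Chk.c212 rfl)
  (good_s4 (good_s5 (gd1 Chk.c213 rfl)
  (good_s5 (gd1 Chk.c214 rfl)
  (good_s5 (good_s5 (gd1 Chk.c215 rfl)
  (good_s6 (good_s0 (gd1 Chk.c216 rfl)
  (gd1 Chk.c217 rfl))
  (gd1 Chk.c218 rfl)))
  (gd1 Chk.c219 rfl))))
  (gd1 Chk.c220 rfl)))
  (gd1 Chk.c221 rfl))
  (gd1 Chk.c222 rfl))
  (good_s2 (good_s4 (good_s4 (good_s4 (good_s6 (good_s6 (good_s5 (gd1 Chk.c223 rfl)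
  (good_s5 (gd1 Chk.c224 rfl)
  (good_s5 (gd1 Chk.c225 rfl)
  (gd1 Chk.c226 rfl))))
  (gd1 Chk.c227 rfl))
  (gd1 Chk.c228 rfl))
  (gd1 Chk.c229 rfl))
  (gd1 Chk.c230 rfl))
  (gd1 Chk.c231 rfl))
  (gd1 Chk.c232 rfl))))
  (gd1 Chk.c233 rfl))

theorem cell_p_5_7 : Good 1 0 16384 53125 57262 28959 33096 0 8192 14188 69632 0 16384 0 16384 :=
  (good_s3 (gd1 Chk.c234 rfl)
  (good_s2 (gd1 Chk.c235 rfl)
  (gd1 Chk.c236 rfl)))

theorem cell_p_6_0 : Good 1 0 16384 57262 61399 0 4137 0 8192 14188 69632 0 16384 0 16384 :=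
  (gd1 Chk.c237 rfl)

theorem cell_p_6_1 : Good 1 0 16384 57262 61399 4137 8274 0 8192 14188 69632 0 16384 0 16384 :=
  (gd1 Chk.c238 rfl)

theorem cell_p_6_2 : Good 1 0 16384 57262 61399 8274 12411 0 8192 14188 69632 0 16384 0 16384 :=
  (gd1 Chk.c239 rfl)

theorem cell_p_6_3 : Good 1 0 16384 57262 61399 12411 16548 0 8192 14188 69632 0 16384 0 16384 :=
  (gd1 Chk.c240 rfl)

theorem cell_p_6_4 : Good 1 0 16384 57262 61399 16548 20685 0 8192 14188 69632 0 16384 0 16384 :=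
  (gd1 Chk.c241 rfl)

theorem cell_p_6_5 : Good 1 0 16384 57262 61399 20685 24822 0 8192 14188 69632 0 16384 0 16384 :=
  (good_s0 (good_s4 (gd1 Chk.c242 rfl)
  (good_s6 (gd1 Chk.c243 rfl)
  (gd1 Chk.c244 rfl)))
  (gd1 Chk.c245 rfl))

theorem cell_p_6_6 : Good 1 0 16384 57262 61399 24822 28959 0 8192 14188 69632 0 16384 0 16384 :=
  (good_s5 (good_s2 (good_s1 (gd1 Chk.c246 rfl)
  (gd1 Chk.c247 rfl))
  (gd1 Chk.c248 rfl))
  (good_s5 (gd1 Chk.c249 rfl)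
  (good_s5 (gd1 Chk.c250 rfl)
  (good_s4 (good_s4 (good_s5 (good_s6 (good_s6 (good_s6 (gd1 Chk.c251 rfl)
  (good_s5 (gd1 Chk.c252 rfl)
  (good_s0 (good_s3 (good_s4 (gd1 Chk.c253 rfl)
  (good_s6 (gd1 Chk.c254 rfl)
  (good_s5 (gd1 Chk.c255 rfl)
  (good_s6 (good_s0 (gd1 Chk.c256 rfl)
  (good_s0 (gd1 Chk.c257 rfl)
  (gd1 Chk.c258 rfl)))
  (gd1 Chk.c259 rfl)))))
  (good_s4 (gd1 Chk.c260 rfl)
  (gd1 Chk.c261 rfl)))
  (gd1 Chk.c262 rfl))))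
  (gd1 Chk.c263 rfl))
  (gd1 Chk.c264 rfl))
  (gd1 Chk.c265 rfl))
  (gd1 Chk.c266 rfl))
  (gd1 Chk.c267 rfl)))))

theorem cell_p_6_7 : Good 1 0 16384 57262 61399 28959 33096 0 8192 14188 69632 0 16384 0 16384 :=
  (good_s2 (good_s5 (gd1 Chk.c268 rfl)
  (gd1 Chk.c269 rfl))
  (gd1 Chk.c270 rfl))

theorem cell_p_7_0 : Good 1 0 16384 61399 65536 0 4137 0 8192 14188 69632 0 16384 0 16384 :=
  (gd1 Chk.c271 rfl)

theorem cell_p_7_1 : Good 1 0 16384 61399 65536 4137 8274 0 8192 14188 69632 0 16384 0 16384 :=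
  (gd1 Chk.c272 rfl)

theorem cell_p_7_2 : Good 1 0 16384 61399 65536 8274 12411 0 8192 14188 69632 0 16384 0 16384 :=
  (gd1 Chk.c273 rfl)

theorem cell_p_7_3 : Good 1 0 16384 61399 65536 12411 16548 0 8192 14188 69632 0 16384 0 16384 :=
  (gd1 Chk.c274 rfl)

theorem cell_p_7_4 : Good 1 0 16384 61399 65536 16548 20685 0 8192 14188 69632 0 16384 0 16384 :=
  (gd1 Chk.c275 rfl)

theorem cell_p_7_5 : Good 1 0 16384 61399 65536 20685 24822 0 8192 14188 69632 0 16384 0 16384 :=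
  (good_s6 (good_s6 (gd1 Chk.c276 rfl)
  (gd1 Chk.c277 rfl))
  (gd1 Chk.c278 rfl))

theorem cell_p_7_6 : Good 1 0 16384 61399 65536 24822 28959 0 8192 14188 69632 0 16384 0 16384 :=
  (good_s2 (good_s5 (good_s2 (good_s1 (good_s4 (good_s4 (good_s5 (gd1 Chk.c279 rfl)
  (gd1 Chk.c280 rfl))
  (gd1 Chk.c281 rfl))
  (gd1 Chk.c282 rfl))
  (gd1 Chk.c283 rfl))
  (good_s4 (good_s5 (gd1 Chk.c284 rfl)
  (good_s6 (gd1 Chk.c285 rfl)
  (gd1 Chk.c286 rfl)))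
  (gd1 Chk.c287 rfl)))
  (good_s4 (good_s5 (good_s6 (good_s0 (good_s5 (good_s6 (good_s4 (good_s6 (gd1 Chk.c288 rfl)
  (good_s6 (good_s6 (gd1 Chk.c289 rfl)
  (good_s4 (gd1 Chk.c290 rfl)
  (good_s6 (gd1 Chk.c291 rfl)
  (gd1 Chk.c292 rfl))))
  (gd1 Chk.c293 rfl)))
  (gd1 Chk.c294 rfl))
  (gd1 Chk.c295 rfl))
  (gd1 Chk.c296 rfl))
  (gd1 Chk.c297 rfl))
  (gd1 Chk.c298 rfl))
  (gd1 Chk.c299 rfl))
  (gd1 Chk.c300 rfl)))
  (good_s5 (gd1 Chk.c301 rfl)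
  (good_s5 (gd1 Chk.c302 rfl)
  (good_s5 (good_s5 (gd1 Chk.c303 rfl)
  (good_s6 (good_s5 (gd1 Chk.c304 rfl)
  (gd1 Chk.c305 rfl))
  (gd1 Chk.c306 rfl)))
  (gd1 Chk.c307 rfl)))))

theorem cell_p_7_7 : Good 1 0 16384 61399 65536 28959 33096 0 8192 14188 69632 0 16384 0 16384 :=
  (good_s2 (good_s5 (gd1 Chk.c308 rfl)
  (gd1 Chk.c309 rfl))
  (gd1 Chk.c310 rfl))

theorem cell_p_8_0 : Good 1 0 16384 65536 69673 0 4137 0 8192 14188 69632 0 16384 0 16384 :=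
  (gd1 Chk.c311 rfl)

theorem cell_p_8_1 : Good 1 0 16384 65536 69673 4137 8274 0 8192 14188 69632 0 16384 0 16384 :=
  (gd1 Chk.c312 rfl)

theorem cell_p_8_2 : Good 1 0 16384 65536 69673 8274 12411 0 8192 14188 69632 0 16384 0 16384 :=
  (gd1 Chk.c313 rfl)

theorem cell_p_8_3 : Good 1 0 16384 65536 69673 12411 16548 0 8192 14188 69632 0 16384 0 16384 :=
  (gd1 Chk.c314 rfl)

theorem cell_p_8_4 : Good 1 0 16384 65536 69673 16548 20685 0 8192 14188 69632 0 16384 0 16384 :=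
  (gd1 Chk.c315 rfl)

theorem cell_p_8_5 : Good 1 0 16384 65536 69673 20685 24822 0 8192 14188 69632 0 16384 0 16384 :=
  (good_s5 (gd1 Chk.c316 rfl)
  (good_s5 (good_s2 (gd1 Chk.c317 rfl)
  (good_s5 (gd1 Chk.c318 rfl)
  (good_s5 (gd1 Chk.c319 rfl)
  (good_s0 (good_s5 (gd1 Chk.c320 rfl)
  (good_s4 (good_s1 (gd1 Chk.c321 rfl)
  (gd1 Chk.c322 rfl))
  (gd1 Chk.c323 rfl)))
  (gd1 Chk.c324 rfl)))))
  (gd1 Chk.c325 rfl)))

theorem cell_p_8_6 : Good 1 0 16384 65536 69673 24822 28959 0 8192 14188 69632 0 16384 0 16384 :=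
  (good_s2 (good_s2 (good_s5 (good_s4 (good_s6 (gd1 Chk.c326 rfl)
  (gd1 Chk.c327 rfl))
  (gd1 Chk.c328 rfl))
  (good_s5 (gd1 Chk.c329 rfl)
  (good_s5 (good_s5 (gd1 Chk.c330 rfl)
  (good_s4 (good_s4 (good_s0 (good_s5 (gd1 Chk.c331 rfl)
  (good_s6 (good_s6 (good_s2 (gd1 Chk.c332 rfl)
  (gd1 Chk.c333 rfl))
  (gd1 Chk.c334 rfl))
  (gd1 Chk.c335 rfl)))
  (gd1 Chk.c336 rfl))
  (gd1 Chk.c337 rfl))
  (gd1 Chk.c338 rfl)))
  (gd1 Chk.c339 rfl))))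
  (good_s5 (gd1 Chk.c340 rfl)
  (good_s1 (gd1 Chk.c341 rfl)
  (good_s5 (gd1 Chk.c342 rfl)
  (gd1 Chk.c343 rfl)))))
  (good_s5 (gd1 Chk.c344 rfl)
  (gd1 Chk.c345 rfl)))

theorem cell_p_8_7 : Good 1 0 16384 65536 69673 28959 33096 0 8192 14188 69632 0 16384 0 16384 :=
  (good_s3 (gd1 Chk.c346 rfl)
  (gd1 Chk.c347 rfl))

theorem cell_p_9_0 : Good 1 0 16384 69673 73810 0 4137 0 8192 14188 69632 0 16384 0 16384 :=
  (gd1 Chk.c348 rfl)

theorem cell_p_9_1 : Good 1 0 16384 69673 73810 4137 8274 0 8192 14188 69632 0 16384 0 16384 :=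
  (gd1 Chk.c349 rfl)

theorem cell_p_9_2 : Good 1 0 16384 69673 73810 8274 12411 0 8192 14188 69632 0 16384 0 16384 :=
  (gd1 Chk.c350 rfl)

theorem cell_p_9_3 : Good 1 0 16384 69673 73810 12411 16548 0 8192 14188 69632 0 16384 0 16384 :=
  (gd1 Chk.c351 rfl)

theorem cell_p_9_4 : Good 1 0 16384 69673 73810 16548 20685 0 8192 14188 69632 0 16384 0 16384 :=
  (gd1 Chk.c352 rfl)

theorem cell_p_9_5 : Good 1 0 16384 69673 73810 20685 24822 0 8192 14188 69632 0 16384 0 16384 :=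
  (good_s5 (gd1 Chk.c353 rfl)
  (good_s5 (gd1 Chk.c354 rfl)
  (good_s2 (gd1 Chk.c355 rfl)
  (good_s0 (good_s5 (good_s5 (gd1 Chk.c356 rfl)
  (good_s0 (good_s5 (gd1 Chk.c357 rfl)
  (good_s5 (gd1 Chk.c358 rfl)
  (good_s0 (good_s5 (gd1 Chk.c359 rfl)
  (good_s4 (good_s4 (good_s4 (gd1 Chk.c360 rfl)
  (good_s4 (gd1 Chk.c361 rfl)
  (gd1 Chk.c362 rfl)))
  (gd1 Chk.c363 rfl))
  (gd1 Chk.c364 rfl)))
  (gd1 Chk.c365 rfl))))
  (gd1 Chk.c366 rfl)))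
  (gd1 Chk.c367 rfl))
  (gd1 Chk.c368 rfl)))))

theorem cell_p_9_6 : Good 1 0 16384 69673 73810 24822 28959 0 8192 14188 69632 0 16384 0 16384 :=
  (good_s6 (good_s2 (good_s5 (good_s4 (good_s0 (good_s5 (good_s4 (good_s5 (gd1 Chk.c369 rfl)
  (good_s0 (good_s0 (good_s4 (good_s5 (good_s4 (gd1 Chk.c370 rfl)
  (good_s6 (gd1 Chk.c371 rfl)
  (good_s6 (gd1 Chk.c372 rfl)
  (good_s5 (good_s6 (gd1 Chk.c373 rfl)
  (good_s5 (good_s5 (gd1 Chk.c374 rfl)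
  (gd1 Chk.c375 rfl))
  (gd1 Chk.c376 rfl)))
  (gd1 Chk.c377 rfl)))))
  (gd1 Chk.c378 rfl))
  (gd1 Chk.c379 rfl))
  (gd1 Chk.c380 rfl))
  (gd1 Chk.c381 rfl)))
  (gd1 Chk.c382 rfl))
  (gd1 Chk.c383 rfl))
  (gd1 Chk.c384 rfl))
  (gd1 Chk.c385 rfl))
  (good_s1 (good_s2 (gd1 Chk.c386 rfl)
  (gd1 Chk.c387 rfl))
  (good_s5 (gd1 Chk.c388 rfl)
  (good_s5 (good_s4 (good_s4 (good_s0 (good_s4 (good_s5 (gd1 Chk.c389 rfl)
  (good_s6 (gd1 Chk.c390 rfl)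
  (good_s3 (gd1 Chk.c391 rfl)
  (good_s4 (gd1 Chk.c392 rfl)
  (good_s6 (gd1 Chk.c393 rfl)
  (good_s5 (gd1 Chk.c394 rfl)
  (good_s5 (gd1 Chk.c395 rfl)
  (good_s4 (gd1 Chk.c396 rfl)
  (good_s6 (gd1 Chk.c397 rfl)
  (good_s5 (gd1 Chk.c398 rfl)
  (good_s0 (good_s6 (gd1 Chk.c399 rfl)
  (gd1 Chk.c400 rfl))
  (gd1 Chk.c401 rfl))))))))))))
  (gd1 Chk.c402 rfl))
  (gd1 Chk.c403 rfl))
  (gd1 Chk.c404 rfl))
  (gd1 Chk.c405 rfl))
  (gd1 Chk.c406 rfl)))))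
  (good_s1 (good_s5 (gd1 Chk.c407 rfl)
  (good_s5 (gd1 Chk.c408 rfl)
  (good_s5 (good_s4 (good_s4 (good_s4 (good_s6 (gd1 Chk.c409 rfl)
  (good_s6 (gd1 Chk.c410 rfl)
  (good_s3 (gd1 Chk.c411 rfl)
  (gd1 Chk.c412 rfl))))
  (gd1 Chk.c413 rfl))
  (gd1 Chk.c414 rfl))
  (gd1 Chk.c415 rfl))
  (gd1 Chk.c416 rfl))))
  (good_s4 (good_s4 (good_s4 (good_s6 (gd1 Chk.c417 rfl)
  (good_s5 (gd1 Chk.c418 rfl)
  (good_s5 (gd1 Chk.c419 rfl)
  (good_s5 (good_s6 (gd1 Chk.c420 rfl)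
  (good_s5 (gd1 Chk.c421 rfl)
  (good_s0 (good_s5 (gd1 Chk.c422 rfl)
  (good_s4 (gd1 Chk.c423 rfl)
  (good_s6 (gd1 Chk.c424 rfl)
  (good_s5 (gd1 Chk.c425 rfl)
  (good_s3 (gd1 Chk.c426 rfl)
  (gd1 Chk.c427 rfl))))))
  (gd1 Chk.c428 rfl))))
  (gd1 Chk.c429 rfl)))))
  (gd1 Chk.c430 rfl))
  (gd1 Chk.c431 rfl))
  (gd1 Chk.c432 rfl))))
  (good_s4 (good_s5 (good_s2 (gd1 Chk.c433 rfl)
  (gd1 Chk.c434 rfl))
  (gd1 Chk.c435 rfl))
  (gd1 Chk.c436 rfl)))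

theorem cell_p_9_7 : Good 1 0 16384 69673 73810 28959 33096 0 8192 14188 69632 0 16384 0 16384 :=
  (good_s5 (gd1 Chk.c437 rfl)
  (good_s5 (gd1 Chk.c438 rfl)
  (good_s4 (good_s4 (good_s4 (good_s4 (good_s5 (good_s6 (good_s6 (good_s5 (gd1 Chk.c439 rfl)
  (good_s3 (gd1 Chk.c440 rfl)
  (gd1 Chk.c441 rfl)))
  (gd1 Chk.c442 rfl))
  (gd1 Chk.c443 rfl))
  (gd1 Chk.c444 rfl))
  (gd1 Chk.c445 rfl))
  (gd1 Chk.c446 rfl))
  (gd1 Chk.c447 rfl))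
  (gd1 Chk.c448 rfl))))

theorem cell_p_10_0 : Good 1 0 16384 73810 77947 0 4137 0 8192 14188 69632 0 16384 0 16384 :=
  (gd1 Chk.c449 rfl)

theorem cell_p_10_1 : Good 1 0 16384 73810 77947 4137 8274 0 8192 14188 69632 0 16384 0 16384 :=
  (gd1 Chk.c450 rfl)

theorem cell_p_10_2 : Good 1 0 16384 73810 77947 8274 12411 0 8192 14188 69632 0 16384 0 16384 :=
  (gd1 Chk.c451 rfl)

theorem cell_p_10_3 : Good 1 0 16384 73810 77947 12411 16548 0 8192 14188 69632 0 16384 0 16384 :=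
  (gd1 Chk.c452 rfl)

theorem cell_p_10_4 : Good 1 0 16384 73810 77947 16548 20685 0 8192 14188 69632 0 16384 0 16384 :=
  (gd1 Chk.c453 rfl)

theorem cell_p_10_5 : Good 1 0 16384 73810 77947 20685 24822 0 8192 14188 69632 0 16384 0 16384 :=
  (good_s6 (good_s0 (good_s2 (gd1 Chk.c454 rfl)
  (good_s2 (gd1 Chk.c455 rfl)
  (good_s5 (gd1 Chk.c456 rfl)
  (good_s5 (gd1 Chk.c457 rfl)
  (good_s5 (good_s5 (gd1 Chk.c458 rfl)
  (good_s5 (gd1 Chk.c459 rfl)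
  (gd1 Chk.c460 rfl)))
  (gd1 Chk.c461 rfl))))))
  (gd1 Chk.c462 rfl))
  (gd1 Chk.c463 rfl))

theorem cell_p_10_6 : Good 1 0 16384 73810 77947 24822 28959 0 8192 14188 69632 0 16384 0 16384 :=
  (good_s2 (good_s6 (good_s5 (gd1 Chk.c464 rfl)
  (good_s1 (good_s5 (gd1 Chk.c465 rfl)
  (good_s5 (good_s4 (good_s5 (gd1 Chk.c466 rfl)
  (good_s4 (good_s0 (good_s4 (good_s6 (gd1 Chk.c467 rfl)
  (good_s6 (good_s4 (gd1 Chk.c468 rfl)
  (good_s5 (gd1 Chk.c469 rfl)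
  (good_s5 (gd1 Chk.c470 rfl)
  (good_s0 (good_s6 (good_s2 (gd1 Chk.c471 rfl)
  (good_s5 (gd1 Chk.c472 rfl)
  (gd1 Chk.c473 rfl)))
  (gd1 Chk.c474 rfl))
  (gd1 Chk.c475 rfl)))))
  (gd1 Chk.c476 rfl)))
  (gd1 Chk.c477 rfl))
  (gd1 Chk.c478 rfl))
  (gd1 Chk.c479 rfl)))
  (gd1 Chk.c480 rfl))
  (gd1 Chk.c481 rfl)))
  (good_s5 (gd1 Chk.c482 rfl)
  (good_s5 (gd1 Chk.c483 rfl)
  (good_s4 (good_s4 (good_s5 (good_s0 (good_s4 (good_s6 (gd1 Chk.c484 rfl)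
  (good_s6 (good_s6 (good_s6 (good_s3 (gd1 Chk.c485 rfl)
  (good_s6 (gd1 Chk.c486 rfl)
  (good_s4 (gd1 Chk.c487 rfl)
  (good_s5 (gd1 Chk.c488 rfl)
  (good_s0 (gd1 Chk.c489 rfl)
  (gd1 Chk.c490 rfl))))))
  (gd1 Chk.c491 rfl))
  (gd1 Chk.c492 rfl))
  (gd1 Chk.c493 rfl)))
  (gd1 Chk.c494 rfl))
  (gd1 Chk.c495 rfl))
  (gd1 Chk.c496 rfl))
  (gd1 Chk.c497 rfl))
  (gd1 Chk.c498 rfl))))))
  (gd1 Chk.c499 rfl))
  (good_s5 (good_s4 (good_s5 (gd1 Chk.c500 rfl)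
  (good_s4 (good_s4 (good_s5 (gd1 Chk.c501 rfl)
  (gd1 Chk.c502 rfl))
  (gd1 Chk.c503 rfl))
  (gd1 Chk.c504 rfl)))
  (gd1 Chk.c505 rfl))
  (good_s4 (good_s4 (good_s5 (good_s4 (good_s0 (good_s6 (good_s6 (good_s6 (good_s6 (gd1 Chk.c506 rfl)
  (good_s6 (gd1 Chk.c507 rfl)
  (good_s6 (gd1 Chk.c508 rfl)
  (good_s6 (good_s0 (gd1 Chk.c509 rfl)
  (good_s6 (good_s4 (gd1 Chk.c510 rfl)
  (good_s5 (gd1 Chk.c511 rfl)
  (good_s6 (gd1 Chk.c512 rfl)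
  (good_s5 (gd1 Chk.c513 rfl)
  (good_s6 (gd1 Chk.c514 rfl)
  (good_s5 (gd1 Chk.c515 rfl)
  (good_s5 (good_s0 (good_s6 (good_s2 (good_s0 (good_s3 (good_s3 (good_s4 (gd1 Chk.c516 rfl)
  (good_s3 (gd1 Chk.c517 rfl)
  (good_s3 (gd1 Chk.c518 rfl)
  (good_s4 (gd1 Chk.c519 rfl)
  (gd1 Chk.c520 rfl)))))
  (gd1 Chk.c521 rfl))
  (gd1 Chk.c522 rfl))
  (gd1 Chk.c523 rfl))
  (good_s5 (good_s4 (good_s3 (good_s4 (gd1 Chk.c524 rfl)
  (good_s0 (gd1 Chk.c525 rfl)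
  (good_s2 (good_s0 (good_s5 (gd1 Chk.c526 rfl)
  (good_s3 (gd1 Chk.c527 rfl)
  (good_s5 (gd1 Chk.c528 rfl)
  (good_s3 (gd1 Chk.c529 rfl)
  (gd1 Chk.c530 rfl)))))
  (gd1 Chk.c531 rfl))
  (gd1 Chk.c532 rfl))))
  (gd1 Chk.c533 rfl))
  (gd1 Chk.c534 rfl))
  (gd1 Chk.c535 rfl)))
  (gd1 Chk.c536 rfl))
  (gd1 Chk.c537 rfl))
  (gd1 Chk.c538 rfl))))))))
  (gd1 Chk.c539 rfl)))
  (gd1 Chk.c540 rfl)))))
  (gd1 Chk.c541 rfl))
  (gd1 Chk.c542 rfl))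
  (gd1 Chk.c543 rfl))
  (gd1 Chk.c544 rfl))
  (gd1 Chk.c545 rfl))
  (gd1 Chk.c546 rfl))
  (gd1 Chk.c547 rfl))
  (gd1 Chk.c548 rfl))))

theorem cell_p_10_7 : Good 1 0 16384 73810 77947 28959 33096 0 8192 14188 69632 0 16384 0 16384 :=
  (good_s2 (good_s3 (good_s2 (good_s5 (gd1 Chk.c549 rfl)
  (gd1 Chk.c550 rfl))
  (gd1 Chk.c551 rfl))
  (good_s4 (good_s4 (good_s4 (good_s5 (gd1 Chk.c552 rfl)
  (gd1 Chk.c553 rfl))
  (gd1 Chk.c554 rfl))
  (gd1 Chk.c555 rfl))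
  (gd1 Chk.c556 rfl)))
  (gd1 Chk.c557 rfl))

theorem cell_p_11_0 : Good 1 0 16384 77947 82084 0 4137 0 8192 14188 69632 0 16384 0 16384 :=
  (gd1 Chk.c558 rfl)

theorem cell_p_11_1 : Good 1 0 16384 77947 82084 4137 8274 0 8192 14188 69632 0 16384 0 16384 :=
  (gd1 Chk.c559 rfl)

theorem cell_p_11_2 : Good 1 0 16384 77947 82084 8274 12411 0 8192 14188 69632 0 16384 0 16384 :=
  (gd1 Chk.c560 rfl)

theorem cell_p_11_3 : Good 1 0 16384 77947 82084 12411 16548 0 8192 14188 69632 0 16384 0 16384 :=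
  (gd1 Chk.c561 rfl)

theorem cell_p_11_4 : Good 1 0 16384 77947 82084 16548 20685 0 8192 14188 69632 0 16384 0 16384 :=
  (gd1 Chk.c562 rfl)

theorem cell_p_11_5 : Good 1 0 16384 77947 82084 20685 24822 0 8192 14188 69632 0 16384 0 16384 :=
  (good_s1 (gd1 Chk.c563 rfl)
  (gd1 Chk.c564 rfl))

theorem cell_p_11_6 : Good 1 0 16384 77947 82084 24822 28959 0 8192 14188 69632 0 16384 0 16384 :=
  (good_s4 (good_s4 (good_s6 (good_s4 (good_s4 (good_s4 (good_s4 (gd1 Chk.c565 rfl)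
  (good_s6 (good_s6 (gd1 Chk.c566 rfl)
  (good_s5 (gd1 Chk.c567 rfl)
  (good_s5 (gd1 Chk.c568 rfl)
  (good_s5 (good_s6 (gd1 Chk.c569 rfl)
  (good_s6 (gd1 Chk.c570 rfl)
  (good_s6 (good_s3 (good_s5 (gd1 Chk.c571 rfl)
  (good_s5 (gd1 Chk.c572 rfl)
  (good_s0 (good_s0 (gd1 Chk.c573 rfl)
  (good_s2 (gd1 Chk.c574 rfl)
  (good_s6 (good_s6 (gd1 Chk.c575 rfl)
  (good_s3 (gd1 Chk.c576 rfl)
  (good_s5 (gd1 Chk.c577 rfl)
  (good_s6 (good_s5 (gd1 Chk.c578 rfl)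
  (good_s0 (good_s5 (good_s5 (good_s6 (good_s6 (good_s5 (good_s2 (gd1 Chk.c579 rfl)
  (good_s1 (good_s5 (good_s5 (gd1 Chk.c580 rfl)
  (good_s2 (good_s3 (gd1 Chk.c581 rfl)
  (gd1 Chk.c582 rfl))
  (gd1 Chk.c583 rfl)))
  (gd1 Chk.c584 rfl))
  (gd1 Chk.c585 rfl)))
  (gd1 Chk.c586 rfl))
  (gd1 Chk.c587 rfl))
  (gd1 Chk.c588 rfl))
  (gd1 Chk.c589 rfl))
  (gd1 Chk.c590 rfl))
  (gd1 Chk.c591 rfl)))
  (gd1 Chk.c592 rfl)))))
  (gd1 Chk.c593 rfl))))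
  (gd1 Chk.c594 rfl))))
  (gd1 Chk.c595 rfl))
  (gd1 Chk.c596 rfl))))
  (gd1 Chk.c597 rfl)))))
  (gd1 Chk.c598 rfl)))
  (good_s1 (good_s0 (good_s2 (good_s4 (good_s5 (gd1 Chk.c599 rfl)
  (good_s5 (gd1 Chk.c600 rfl)
  (good_s6 (good_s6 (gd1 Chk.c601 rfl)
  (good_s4 (good_s5 (good_s6 (good_s6 (good_s0 (gd1 Chk.c602 rfl)
  (good_s5 (gd1 Chk.c603 rfl)
  (good_s3 (gd1 Chk.c604 rfl)
  (gd1 Chk.c605 rfl))))
  (gd1 Chk.c606 rfl))
  (gd1 Chk.c607 rfl))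
  (gd1 Chk.c608 rfl))
  (gd1 Chk.c609 rfl)))
  (gd1 Chk.c610 rfl))))
  (gd1 Chk.c611 rfl))
  (gd1 Chk.c612 rfl))
  (gd1 Chk.c613 rfl))
  (gd1 Chk.c614 rfl)))
  (gd1 Chk.c615 rfl))
  (gd1 Chk.c616 rfl))
  (good_s2 (gd1 Chk.c617 rfl)
  (gd1 Chk.c618 rfl)))
  (gd1 Chk.c619 rfl))
  (gd1 Chk.c620 rfl))

theorem cell_p_11_7 : Good 1 0 16384 77947 82084 28959 33096 0 8192 14188 69632 0 16384 0 16384 :=
  (good_s1 (gd1 Chk.c621 rfl)
  (gd1 Chk.c622 rfl))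

theorem cell_p_12_0 : Good 1 0 16384 82084 86221 0 4137 0 8192 14188 69632 0 16384 0 16384 :=
  (gd1 Chk.c623 rfl)

theorem cell_p_12_1 : Good 1 0 16384 82084 86221 4137 8274 0 8192 14188 69632 0 16384 0 16384 :=
  (gd1 Chk.c624 rfl)

theorem cell_p_12_2 : Good 1 0 16384 82084 86221 8274 12411 0 8192 14188 69632 0 16384 0 16384 :=
  (gd1 Chk.c625 rfl)

theorem cell_p_12_3 : Good 1 0 16384 82084 86221 12411 16548 0 8192 14188 69632 0 16384 0 16384 :=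
  (gd1 Chk.c626 rfl)

theorem cell_p_12_4 : Good 1 0 16384 82084 86221 16548 20685 0 8192 14188 69632 0 16384 0 16384 :=
  (gd1 Chk.c627 rfl)

theorem cell_p_12_5 : Good 1 0 16384 82084 86221 20685 24822 0 8192 14188 69632 0 16384 0 16384 :=
  (gd1 Chk.c628 rfl)

theorem cell_p_12_6 : Good 1 0 16384 82084 86221 24822 28959 0 8192 14188 69632 0 16384 0 16384 :=
  (good_s2 (gd1 Chk.c629 rfl)
  (gd1 Chk.c630 rfl))

theorem cell_p_12_7 : Good 1 0 16384 82084 86221 28959 33096 0 8192 14188 69632 0 16384 0 16384 :=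
  (gd1 Chk.c631 rfl)

theorem cell_p_13_0 : Good 1 0 16384 86221 90358 0 4137 0 8192 14188 69632 0 16384 0 16384 :=
  (gd1 Chk.c632 rfl)

theorem cell_p_13_1 : Good 1 0 16384 86221 90358 4137 8274 0 8192 14188 69632 0 16384 0 16384 :=
  (gd1 Chk.c633 rfl)

theorem cell_p_13_2 : Good 1 0 16384 86221 90358 8274 12411 0 8192 14188 69632 0 16384 0 16384 :=
  (gd1 Chk.c634 rfl)

theorem cell_p_13_3 : Good 1 0 16384 86221 90358 12411 16548 0 8192 14188 69632 0 16384 0 16384 :=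
  (gd1 Chk.c635 rfl)

theorem cell_p_13_4 : Good 1 0 16384 86221 90358 16548 20685 0 8192 14188 69632 0 16384 0 16384 :=
  (gd1 Chk.c636 rfl)

theorem cell_p_13_5 : Good 1 0 16384 86221 90358 20685 24822 0 8192 14188 69632 0 16384 0 16384 :=
  (gd1 Chk.c637 rfl)

theorem cell_p_13_6 : Good 1 0 16384 86221 90358 24822 28959 0 8192 14188 69632 0 16384 0 16384 :=
  (gd1 Chk.c638 rfl)

theorem cell_p_13_7 : Good 1 0 16384 86221 90358 28959 33096 0 8192 14188 69632 0 16384 0 16384 :=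
  (gd1 Chk.c639 rfl)

theorem cell_p_14_0 : Good 1 0 16384 90358 94495 0 4137 0 8192 14188 69632 0 16384 0 16384 :=
  (gd1 Chk.c640 rfl)

theorem cell_p_14_1 : Good 1 0 16384 90358 94495 4137 8274 0 8192 14188 69632 0 16384 0 16384 :=
  (gd1 Chk.c641 rfl)

theorem cell_p_14_2 : Good 1 0 16384 90358 94495 8274 12411 0 8192 14188 69632 0 16384 0 16384 :=
  (gd1 Chk.c642 rfl)

theorem cell_p_14_3 : Good 1 0 16384 90358 94495 12411 16548 0 8192 14188 69632 0 16384 0 16384 :=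
  (gd1 Chk.c643 rfl)

theorem cell_p_14_4 : Good 1 0 16384 90358 94495 16548 20685 0 8192 14188 69632 0 16384 0 16384 :=
  (gd1 Chk.c644 rfl)

theorem cell_p_14_5 : Good 1 0 16384 90358 94495 20685 24822 0 8192 14188 69632 0 16384 0 16384 :=
  (gd1 Chk.c645 rfl)

theorem cell_p_14_6 : Good 1 0 16384 90358 94495 24822 28959 0 8192 14188 69632 0 16384 0 16384 :=
  (gd1 Chk.c646 rfl)

theorem cell_p_14_7 : Good 1 0 16384 90358 94495 28959 33096 0 8192 14188 69632 0 16384 0 16384 :=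
  (gd1 Chk.c647 rfl)

theorem cell_p_15_0 : Good 1 0 16384 94495 98632 0 4137 0 8192 14188 69632 0 16384 0 16384 :=
  (gd1 Chk.c648 rfl)

theorem cell_p_15_1 : Good 1 0 16384 94495 98632 4137 8274 0 8192 14188 69632 0 16384 0 16384 :=
  (gd1 Chk.c649 rfl)

theorem cell_p_15_2 : Good 1 0 16384 94495 98632 8274 12411 0 8192 14188 69632 0 16384 0 16384 :=
  (gd1 Chk.c650 rfl)

theorem cell_p_15_3 : Good 1 0 16384 94495 98632 12411 16548 0 8192 14188 69632 0 16384 0 16384 :=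
  (gd1 Chk.c651 rfl)

theorem cell_p_15_4 : Good 1 0 16384 94495 98632 16548 20685 0 8192 14188 69632 0 16384 0 16384 :=
  (gd1 Chk.c652 rfl)

theorem cell_p_15_5 : Good 1 0 16384 94495 98632 20685 24822 0 8192 14188 69632 0 16384 0 16384 :=
  (gd1 Chk.c653 rfl)

theorem cell_p_15_6 : Good 1 0 16384 94495 98632 24822 28959 0 8192 14188 69632 0 16384 0 16384 :=
  (gd1 Chk.c654 rfl)

theorem cell_p_15_7 : Good 1 0 16384 94495 98632 28959 33096 0 8192 14188 69632 0 16384 0 16384 :=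
  (gd1 Chk.c655 rfl)

theorem cell_m_0_0 : Good 340282366920938463463374607431768211455 0 16384 32440 36577 0 4137 0 8192 14188 69632 0 16384 0 16384 :=
  (gd2 Chk.c656 rfl)

theorem cell_m_0_1 : Good 340282366920938463463374607431768211455 0 16384 32440 36577 4137 8274 0 8192 14188 69632 0 16384 0 16384 :=
  (good_s4 (good_s5 (gd2 Chk.c657 rfl)
  (gd2 Chk.c658 rfl))
  (gd2 Chk.c659 rfl))

theorem cell_m_0_2 : Good 340282366920938463463374607431768211455 0 16384 32440 36577 8274 12411 0 8192 14188 69632 0 16384 0 16384 :=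
  (gd2 Chk.c660 rfl)

theorem cell_m_0_3 : Good 340282366920938463463374607431768211455 0 16384 32440 36577 12411 16548 0 8192 14188 69632 0 16384 0 16384 :=
  (gd2 Chk.c661 rfl)

theorem cell_m_0_4 : Good 340282366920938463463374607431768211455 0 16384 32440 36577 16548 20685 0 8192 14188 69632 0 16384 0 16384 :=
  (gd2 Chk.c662 rfl)

theorem cell_m_0_5 : Good 340282366920938463463374607431768211455 0 16384 32440 36577 20685 24822 0 8192 14188 69632 0 16384 0 16384 :=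
  (gd2 Chk.c663 rfl)

theorem cell_m_0_6 : Good 340282366920938463463374607431768211455 0 16384 32440 36577 24822 28959 0 8192 14188 69632 0 16384 0 16384 :=
  (gd2 Chk.c664 rfl)

theorem cell_m_0_7 : Good 340282366920938463463374607431768211455 0 16384 32440 36577 28959 33096 0 8192 14188 69632 0 16384 0 16384 :=
  (gd2 Chk.c665 rfl)

theorem cell_m_1_0 : Good 340282366920938463463374607431768211455 0 16384 36577 40714 0 4137 0 8192 14188 69632 0 16384 0 16384 :=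
  (gd2 Chk.c666 rfl)

theorem cell_m_1_1 : Good 340282366920938463463374607431768211455 0 16384 36577 40714 4137 8274 0 8192 14188 69632 0 16384 0 16384 :=
  (gd2 Chk.c667 rfl)

theorem cell_m_1_2 : Good 340282366920938463463374607431768211455 0 16384 36577 40714 8274 12411 0 8192 14188 69632 0 16384 0 16384 :=
  (good_s5 (good_s5 (good_s5 (gd2 Chk.c668 rfl)
  (good_s5 (gd2 Chk.c669 rfl)
  (good_s1 (gd2 Chk.c670 rfl)
  (good_s1 (good_s0 (gd2 Chk.c671 rfl)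
  (good_s5 (good_s5 (gd2 Chk.c672 rfl)
  (good_s4 (good_s4 (good_s4 (good_s0 (gd2 Chk.c673 rfl)
  (good_s6 (gd2 Chk.c674 rfl)
  (good_s5 (good_s6 (gd2 Chk.c675 rfl)
  (good_s0 (gd2 Chk.c676 rfl)
  (good_s6 (gd2 Chk.c677 rfl)
  (good_s6 (gd2 Chk.c678 rfl)
  (good_s3 (good_s6 (good_s4 (gd2 Chk.c679 rfl)
  (good_s2 (gd2 Chk.c680 rfl)
  (gd2 Chk.c681 rfl)))
  (gd2 Chk.c682 rfl))
  (gd2 Chk.c683 rfl))))))
  (gd2 Chk.c684 rfl))))
  (gd2 Chk.c685 rfl))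
  (gd2 Chk.c686 rfl))
  (gd2 Chk.c687 rfl)))
  (gd2 Chk.c688 rfl)))
  (gd2 Chk.c689 rfl)))))
  (gd2 Chk.c690 rfl))
  (gd2 Chk.c691 rfl))

theorem cell_m_1_3 : Good 340282366920938463463374607431768211455 0 16384 36577 40714 12411 16548 0 8192 14188 69632 0 16384 0 16384 :=
  (good_s3 (good_s3 (good_s5 (good_s4 (good_s4 (good_s5 (good_s4 (good_s1 (good_s5 (gd2 Chk.c692 rfl)
  (good_s1 (gd2 Chk.c693 rfl)
  (good_s4 (good_s4 (gd2 Chk.c694 rfl)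
  (good_s2 (good_s0 (gd2 Chk.c695 rfl)
  (good_s4 (good_s5 (good_s6 (gd2 Chk.c696 rfl)
  (good_s6 (gd2 Chk.c697 rfl)
  (good_s0 (gd2 Chk.c698 rfl)
  (good_s6 (good_s6 (gd2 Chk.c699 rfl)
  (good_s6 (gd2 Chk.c700 rfl)
  (good_s5 (gd2 Chk.c701 rfl)
  (good_s0 (gd2 Chk.c702 rfl)
  (good_s5 (gd2 Chk.c703 rfl)
  (good_s6 (gd2 Chk.c704 rfl)
  (good_s2 (good_s6 (good_s0 (gd2 Chk.c705 rfl)
  (good_s0 (good_s5 (good_s6 (gd2 Chk.c706 rfl)
  (good_s5 (good_s6 (gd2 Chk.c707 rfl)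
  (good_s0 (gd2 Chk.c708 rfl)
  (good_s5 (good_s6 (good_s5 (gd2 Chk.c709 rfl)
  (good_s5 (good_s2 (gd2 Chk.c710 rfl)
  (gd2 Chk.c711 rfl))
  (gd2 Chk.c712 rfl)))
  (gd2 Chk.c713 rfl))
  (gd2 Chk.c714 rfl))))
  (gd2 Chk.c715 rfl)))
  (gd2 Chk.c716 rfl))
  (gd2 Chk.c717 rfl)))
  (gd2 Chk.c718 rfl))
  (good_s4 (good_s0 (good_s5 (good_s1 (gd2 Chk.c719 rfl)
  (good_s5 (good_s6 (gd2 Chk.c720 rfl)
  (good_s6 (good_s3 (gd2 Chk.c721 rfl)
  (good_s0 (gd2 Chk.c722 rfl)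
  (gd2 Chk.c723 rfl)))
  (gd2 Chk.c724 rfl)))
  (gd2 Chk.c725 rfl)))
  (gd2 Chk.c726 rfl))
  (gd2 Chk.c727 rfl))
  (gd2 Chk.c728 rfl)))))))))
  (gd2 Chk.c729 rfl)))))
  (gd2 Chk.c730 rfl))
  (gd2 Chk.c731 rfl)))
  (gd2 Chk.c732 rfl)))
  (gd2 Chk.c733 rfl))))
  (good_s6 (gd2 Chk.c734 rfl)
  (good_s6 (gd2 Chk.c735 rfl)
  (good_s5 (gd2 Chk.c736 rfl)
  (good_s4 (gd2 Chk.c737 rfl)
  (good_s5 (good_s0 (gd2 Chk.c738 rfl)
  (good_s5 (gd2 Chk.c739 rfl)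
  (good_s6 (gd2 Chk.c740 rfl)
  (good_s6 (gd2 Chk.c741 rfl)
  (good_s4 (good_s6 (good_s0 (gd2 Chk.c742 rfl)
  (good_s4 (good_s4 (gd2 Chk.c743 rfl)
  (good_s6 (good_s0 (good_s4 (good_s3 (gd2 Chk.c744 rfl)
  (good_s5 (good_s6 (gd2 Chk.c745 rfl)
  (good_s6 (good_s1 (good_s2 (good_s6 (gd2 Chk.c746 rfl)
  (good_s0 (gd2 Chk.c747 rfl)
  (good_s5 (good_s5 (gd2 Chk.c748 rfl)
  (good_s5 (good_s6 (good_s0 (good_s2 (gd2 Chk.c749 rfl)
  (good_s6 (good_s6 (gd2 Chk.c750 rfl)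
  (good_s5 (gd2 Chk.c751 rfl)
  (good_s5 (gd2 Chk.c752 rfl)
  (good_s4 (gd2 Chk.c753 rfl)
  (gd2 Chk.c754 rfl)))))
  (gd2 Chk.c755 rfl)))
  (good_s3 (good_s4 (gd2 Chk.c756 rfl)
  (good_s1 (good_s0 (good_s2 (gd2 Chk.c757 rfl)
  (good_s2 (gd2 Chk.c758 rfl)
  (good_s0 (gd2 Chk.c759 rfl)
  (gd2 Chk.c760 rfl))))
  (gd2 Chk.c761 rfl))
  (gd2 Chk.c762 rfl)))
  (gd2 Chk.c763 rfl)))
  (gd2 Chk.c764 rfl))
  (gd2 Chk.c765 rfl)))
  (gd2 Chk.c766 rfl))))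
  (good_s6 (gd2 Chk.c767 rfl)
  (good_s5 (good_s5 (gd2 Chk.c768 rfl)
  (good_s5 (good_s6 (good_s1 (good_s1 (gd2 Chk.c769 rfl)
  (gd2 Chk.c770 rfl))
  (gd2 Chk.c771 rfl))
  (gd2 Chk.c772 rfl))
  (gd2 Chk.c773 rfl)))
  (gd2 Chk.c774 rfl))))
  (gd2 Chk.c775 rfl))
  (gd2 Chk.c776 rfl)))
  (gd2 Chk.c777 rfl)))
  (good_s6 (gd2 Chk.c778 rfl)
  (good_s5 (good_s5 (good_s6 (gd2 Chk.c779 rfl)
  (good_s5 (gd2 Chk.c780 rfl)
  (good_s6 (gd2 Chk.c781 rfl)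
  (good_s6 (good_s1 (good_s6 (good_s2 (good_s5 (gd2 Chk.c782 rfl)
  (good_s6 (good_s0 (gd2 Chk.c783 rfl)
  (good_s5 (gd2 Chk.c784 rfl)
  (good_s5 (gd2 Chk.c785 rfl)
  (good_s6 (good_s6 (good_s3 (gd2 Chk.c786 rfl)
  (good_s2 (gd2 Chk.c787 rfl)
  (gd2 Chk.c788 rfl)))
  (good_s5 (gd2 Chk.c789 rfl)
  (good_s3 (gd2 Chk.c790 rfl)
  (good_s3 (gd2 Chk.c791 rfl)
  (gd2 Chk.c792 rfl)))))
  (gd2 Chk.c793 rfl)))))
  (gd2 Chk.c794 rfl)))
  (gd2 Chk.c795 rfl))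
  (gd2 Chk.c796 rfl))
  (gd2 Chk.c797 rfl))
  (gd2 Chk.c798 rfl)))))
  (gd2 Chk.c799 rfl))
  (gd2 Chk.c800 rfl))))
  (gd2 Chk.c801 rfl))
  (gd2 Chk.c802 rfl)))
  (gd2 Chk.c803 rfl)))
  (gd2 Chk.c804 rfl))
  (gd2 Chk.c805 rfl))))))
  (gd2 Chk.c806 rfl)))))))
  (gd2 Chk.c807 rfl))
  (gd2 Chk.c808 rfl))
  (gd2 Chk.c809 rfl))
  (gd2 Chk.c810 rfl))
  (gd2 Chk.c811 rfl))
  (good_s1 (gd2 Chk.c812 rfl)
  (good_s4 (good_s4 (good_s4 (good_s4 (gd2 Chk.c813 rfl)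
  (good_s5 (good_s6 (gd2 Chk.c814 rfl)
  (good_s5 (good_s6 (gd2 Chk.c815 rfl)
  (good_s6 (gd2 Chk.c816 rfl)
  (good_s0 (gd2 Chk.c817 rfl)
  (good_s5 (gd2 Chk.c818 rfl)
  (good_s6 (good_s5 (gd2 Chk.c819 rfl)
  (good_s6 (gd2 Chk.c820 rfl)
  (good_s5 (gd2 Chk.c821 rfl)
  (good_s5 (gd2 Chk.c822 rfl)
  (good_s0 (gd2 Chk.c823 rfl)
  (good_s5 (good_s6 (gd2 Chk.c824 rfl)
  (good_s6 (good_s6 (good_s5 (good_s6 (gd2 Chk.c825 rfl)
  (good_s6 (gd2 Chk.c826 rfl)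
  (good_s5 (gd2 Chk.c827 rfl)
  (good_s0 (good_s5 (gd2 Chk.c828 rfl)
  (gd2 Chk.c829 rfl))
  (gd2 Chk.c830 rfl)))))
  (gd2 Chk.c831 rfl))
  (gd2 Chk.c832 rfl))
  (gd2 Chk.c833 rfl)))
  (gd2 Chk.c834 rfl)))))))
  (gd2 Chk.c835 rfl))))))
  (gd2 Chk.c836 rfl)))
  (gd2 Chk.c837 rfl)))
  (gd2 Chk.c838 rfl))
  (gd2 Chk.c839 rfl))
  (gd2 Chk.c840 rfl))))
  (good_s4 (good_s4 (good_s4 (good_s5 (good_s5 (good_s5 (gd2 Chk.c841 rfl)
  (good_s6 (gd2 Chk.c842 rfl)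
  (gd2 Chk.c843 rfl)))
  (gd2 Chk.c844 rfl))
  (gd2 Chk.c845 rfl))
  (gd2 Chk.c846 rfl))
  (gd2 Chk.c847 rfl))
  (gd2 Chk.c848 rfl)))

theorem cell_m_1_4 : Good 340282366920938463463374607431768211455 0 16384 36577 40714 16548 20685 0 8192 14188 69632 0 16384 0 16384 :=
  (good_s2 (good_s1 (gd2 Chk.c849 rfl)
  (good_s0 (gd2 Chk.c850 rfl)
  (good_s4 (good_s4 (good_s6 (gd2 Chk.c851 rfl)
  (good_s4 (good_s6 (gd2 Chk.c852 rfl)
  (good_s5 (good_s5 (gd2 Chk.c853 rfl)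
  (gd2 Chk.c854 rfl))
  (gd2 Chk.c855 rfl)))
  (gd2 Chk.c856 rfl)))
  (gd2 Chk.c857 rfl))
  (gd2 Chk.c858 rfl))))
  (gd2 Chk.c859 rfl))

theorem cell_m_1_5 : Good 340282366920938463463374607431768211455 0 16384 36577 40714 20685 24822 0 8192 14188 69632 0 16384 0 16384 :=
  (gd2 Chk.c860 rfl)

theorem cell_m_1_6 : Good 340282366920938463463374607431768211455 0 16384 36577 40714 24822 28959 0 8192 14188 69632 0 16384 0 16384 :=
  (gd2 Chk.c861 rfl)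

theorem cell_m_1_7 : Good 340282366920938463463374607431768211455 0 16384 36577 40714 28959 33096 0 8192 14188 69632 0 16384 0 16384 :=
  (gd2 Chk.c862 rfl)

theorem cell_m_2_0 : Good 340282366920938463463374607431768211455 0 16384 40714 44851 0 4137 0 8192 14188 69632 0 16384 0 16384 :=
  (gd2 Chk.c863 rfl)

theorem cell_m_2_1 : Good 340282366920938463463374607431768211455 0 16384 40714 44851 4137 8274 0 8192 14188 69632 0 16384 0 16384 :=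
  (gd2 Chk.c864 rfl)

theorem cell_m_2_2 : Good 340282366920938463463374607431768211455 0 16384 40714 44851 8274 12411 0 8192 14188 69632 0 16384 0 16384 :=
  (good_s4 (good_s0 (gd2 Chk.c865 rfl)
  (good_s6 (gd2 Chk.c866 rfl)
  (good_s4 (good_s5 (good_s5 (good_s5 (gd2 Chk.c867 rfl)
  (good_s6 (good_s0 (gd2 Chk.c868 rfl)
  (good_s6 (gd2 Chk.c869 rfl)
  (good_s4 (good_s4 (gd2 Chk.c870 rfl)
  (good_s4 (good_s4 (good_s3 (good_s6 (gd2 Chk.c871 rfl)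
  (good_s6 (good_s1 (gd2 Chk.c872 rfl)
  (good_s3 (good_s6 (gd2 Chk.c873 rfl)
  (good_s5 (good_s5 (gd2 Chk.c874 rfl)
  (good_s6 (gd2 Chk.c875 rfl)
  (good_s5 (good_s5 (gd2 Chk.c876 rfl)
  (good_s2 (gd2 Chk.c877 rfl)
  (good_s1 (good_s0 (gd2 Chk.c878 rfl)
  (good_s2 (gd2 Chk.c879 rfl)
  (gd2 Chk.c880 rfl)))
  (gd2 Chk.c881 rfl))))
  (gd2 Chk.c882 rfl))))
  (gd2 Chk.c883 rfl)))
  (gd2 Chk.c884 rfl)))
  (gd2 Chk.c885 rfl)))
  (gd2 Chk.c886 rfl))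
  (gd2 Chk.c887 rfl))
  (gd2 Chk.c888 rfl)))
  (gd2 Chk.c889 rfl))))
  (gd2 Chk.c890 rfl)))
  (gd2 Chk.c891 rfl))
  (gd2 Chk.c892 rfl))
  (gd2 Chk.c893 rfl))))
  (gd2 Chk.c894 rfl))

theorem cell_m_2_3 : Good 340282366920938463463374607431768211455 0 16384 40714 44851 12411 16548 0 8192 14188 69632 0 16384 0 16384 :=
  (good_s1 (good_s5 (good_s2 (good_s5 (good_s5 (gd2 Chk.c895 rfl)
  (gd2 Chk.c896 rfl))
  (gd2 Chk.c897 rfl))
  (good_s5 (good_s5 (gd2 Chk.c898 rfl)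
  (good_s4 (good_s4 (good_s5 (good_s0 (gd2 Chk.c899 rfl)
  (good_s4 (good_s5 (gd2 Chk.c900 rfl)
  (gd2 Chk.c901 rfl))
  (gd2 Chk.c902 rfl)))
  (gd2 Chk.c903 rfl))
  (gd2 Chk.c904 rfl))
  (gd2 Chk.c905 rfl)))
  (gd2 Chk.c906 rfl)))
  (gd2 Chk.c907 rfl))
  (good_s5 (good_s5 (good_s5 (gd2 Chk.c908 rfl)
  (good_s5 (gd2 Chk.c909 rfl)
  (good_s3 (gd2 Chk.c910 rfl)
  (gd2 Chk.c911 rfl))))
  (gd2 Chk.c912 rfl))
  (gd2 Chk.c913 rfl)))

theorem cell_m_2_4 : Good 340282366920938463463374607431768211455 0 16384 40714 44851 16548 20685 0 8192 14188 69632 0 16384 0 16384 :=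
  (good_s2 (good_s5 (good_s5 (good_s5 (good_s0 (gd2 Chk.c914 rfl)
  (good_s5 (gd2 Chk.c915 rfl)
  (good_s5 (gd2 Chk.c916 rfl)
  (gd2 Chk.c917 rfl))))
  (good_s4 (good_s4 (good_s4 (good_s6 (gd2 Chk.c918 rfl)
  (good_s6 (gd2 Chk.c919 rfl)
  (good_s6 (gd2 Chk.c920 rfl)
  (gd2 Chk.c921 rfl))))
  (gd2 Chk.c922 rfl))
  (gd2 Chk.c923 rfl))
  (gd2 Chk.c924 rfl)))
  (gd2 Chk.c925 rfl))
  (gd2 Chk.c926 rfl))
  (good_s1 (good_s4 (good_s4 (good_s4 (gd2 Chk.c927 rfl)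
  (gd2 Chk.c928 rfl))
  (gd2 Chk.c929 rfl))
  (gd2 Chk.c930 rfl))
  (gd2 Chk.c931 rfl)))

theorem cell_m_2_5 : Good 340282366920938463463374607431768211455 0 16384 40714 44851 20685 24822 0 8192 14188 69632 0 16384 0 16384 :=
  (good_s1 (gd2 Chk.c932 rfl)
  (good_s5 (gd2 Chk.c933 rfl)
  (gd2 Chk.c934 rfl)))

theorem cell_m_2_6 : Good 340282366920938463463374607431768211455 0 16384 40714 44851 24822 28959 0 8192 14188 69632 0 16384 0 16384 :=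
  (gd2 Chk.c935 rfl)

theorem cell_m_2_7 : Good 340282366920938463463374607431768211455 0 16384 40714 44851 28959 33096 0 8192 14188 69632 0 16384 0 16384 :=
  (gd2 Chk.c936 rfl)

theorem cell_m_3_0 : Good 340282366920938463463374607431768211455 0 16384 44851 48988 0 4137 0 8192 14188 69632 0 16384 0 16384 :=
  (gd2 Chk.c937 rfl)

theorem cell_m_3_1 : Good 340282366920938463463374607431768211455 0 16384 44851 48988 4137 8274 0 8192 14188 69632 0 16384 0 16384 :=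
  (gd2 Chk.c938 rfl)

theorem cell_m_3_2 : Good 340282366920938463463374607431768211455 0 16384 44851 48988 8274 12411 0 8192 14188 69632 0 16384 0 16384 :=
  (gd2 Chk.c939 rfl)

theorem cell_m_3_3 : Good 340282366920938463463374607431768211455 0 16384 44851 48988 12411 16548 0 8192 14188 69632 0 16384 0 16384 :=
  (gd2 Chk.c940 rfl)

theorem cell_m_3_4 : Good 340282366920938463463374607431768211455 0 16384 44851 48988 16548 20685 0 8192 14188 69632 0 16384 0 16384 :=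
  (good_s2 (gd2 Chk.c941 rfl)
  (good_s5 (gd2 Chk.c942 rfl)
  (gd2 Chk.c943 rfl)))

theorem cell_m_3_5 : Good 340282366920938463463374607431768211455 0 16384 44851 48988 20685 24822 0 8192 14188 69632 0 16384 0 16384 :=
  (good_s1 (good_s4 (good_s4 (good_s4 (good_s5 (gd2 Chk.c944 rfl)
  (gd2 Chk.c945 rfl))
  (gd2 Chk.c946 rfl))
  (gd2 Chk.c947 rfl))
  (gd2 Chk.c948 rfl))
  (good_s2 (gd2 Chk.c949 rfl)
  (good_s5 (gd2 Chk.c950 rfl)
  (gd2 Chk.c951 rfl))))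

theorem cell_m_3_6 : Good 340282366920938463463374607431768211455 0 16384 44851 48988 24822 28959 0 8192 14188 69632 0 16384 0 16384 :=
  (good_s2 (good_s5 (gd2 Chk.c952 rfl)
  (good_s5 (gd2 Chk.c953 rfl)
  (good_s5 (good_s5 (gd2 Chk.c954 rfl)
  (good_s4 (good_s4 (good_s4 (good_s4 (gd2 Chk.c955 rfl)
  (gd2 Chk.c956 rfl))
  (gd2 Chk.c957 rfl))
  (gd2 Chk.c958 rfl))
  (gd2 Chk.c959 rfl)))
  (gd2 Chk.c960 rfl))))
  (gd2 Chk.c961 rfl))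

theorem cell_m_3_7 : Good 340282366920938463463374607431768211455 0 16384 44851 48988 28959 33096 0 8192 14188 69632 0 16384 0 16384 :=
  (gd2 Chk.c962 rfl)

theorem cell_m_4_0 : Good 340282366920938463463374607431768211455 0 16384 48988 53125 0 4137 0 8192 14188 69632 0 16384 0 16384 :=
  (gd2 Chk.c963 rfl)

theorem cell_m_4_1 : Good 340282366920938463463374607431768211455 0 16384 48988 53125 4137 8274 0 8192 14188 69632 0 16384 0 16384 :=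
  (gd2 Chk.c964 rfl)

theorem cell_m_4_2 : Good 340282366920938463463374607431768211455 0 16384 48988 53125 8274 12411 0 8192 14188 69632 0 16384 0 16384 :=
  (gd2 Chk.c965 rfl)

theorem cell_m_4_3 : Good 340282366920938463463374607431768211455 0 16384 48988 53125 12411 16548 0 8192 14188 69632 0 16384 0 16384 :=
  (gd2 Chk.c966 rfl)

theorem cell_m_4_4 : Good 340282366920938463463374607431768211455 0 16384 48988 53125 16548 20685 0 8192 14188 69632 0 16384 0 16384 :=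
  (gd2 Chk.c967 rfl)

theorem cell_m_4_5 : Good 340282366920938463463374607431768211455 0 16384 48988 53125 20685 24822 0 8192 14188 69632 0 16384 0 16384 :=
  (good_s2 (gd2 Chk.c968 rfl)
  (good_s5 (gd2 Chk.c969 rfl)
  (good_s1 (gd2 Chk.c970 rfl)
  (good_s0 (gd2 Chk.c971 rfl)
  (gd2 Chk.c972 rfl)))))

theorem cell_m_4_6 : Good 340282366920938463463374607431768211455 0 16384 48988 53125 24822 28959 0 8192 14188 69632 0 16384 0 16384 :=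
  (good_s2 (good_s1 (good_s5 (gd2 Chk.c973 rfl)
  (gd2 Chk.c974 rfl))
  (good_s2 (gd2 Chk.c975 rfl)
  (gd2 Chk.c976 rfl)))
  (good_s3 (gd2 Chk.c977 rfl)
  (gd2 Chk.c978 rfl)))

theorem cell_m_4_7 : Good 340282366920938463463374607431768211455 0 16384 48988 53125 28959 33096 0 8192 14188 69632 0 16384 0 16384 :=
  (gd2 Chk.c979 rfl)

theorem cell_m_5_0 : Good 340282366920938463463374607431768211455 0 16384 53125 57262 0 4137 0 8192 14188 69632 0 16384 0 16384 :=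
  (gd2 Chk.c980 rfl)

theorem cell_m_5_1 : Good 340282366920938463463374607431768211455 0 16384 53125 57262 4137 8274 0 8192 14188 69632 0 16384 0 16384 :=
  (gd2 Chk.c981 rfl)

theorem cell_m_5_2 : Good 340282366920938463463374607431768211455 0 16384 53125 57262 8274 12411 0 8192 14188 69632 0 16384 0 16384 :=
  (gd2 Chk.c982 rfl)

theorem cell_m_5_3 : Good 340282366920938463463374607431768211455 0 16384 53125 57262 12411 16548 0 8192 14188 69632 0 16384 0 16384 :=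
  (gd2 Chk.c983 rfl)

theorem cell_m_5_4 : Good 340282366920938463463374607431768211455 0 16384 53125 57262 16548 20685 0 8192 14188 69632 0 16384 0 16384 :=
  (gd2 Chk.c984 rfl)

theorem cell_m_5_5 : Good 340282366920938463463374607431768211455 0 16384 53125 57262 20685 24822 0 8192 14188 69632 0 16384 0 16384 :=
  (good_s2 (good_s0 (gd2 Chk.c985 rfl)
  (good_s1 (gd2 Chk.c986 rfl)
  (gd2 Chk.c987 rfl)))
  (good_s5 (gd2 Chk.c988 rfl)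
  (good_s5 (gd2 Chk.c989 rfl)
  (good_s5 (gd2 Chk.c990 rfl)
  (good_s5 (good_s5 (gd2 Chk.c991 rfl)
  (good_s5 (gd2 Chk.c992 rfl)
  (good_s4 (good_s4 (gd2 Chk.c993 rfl)
  (good_s4 (good_s6 (gd2 Chk.c994 rfl)
  (gd2 Chk.c995 rfl))
  (gd2 Chk.c996 rfl)))
  (gd2 Chk.c997 rfl))))
  (gd2 Chk.c998 rfl))))))

theorem cell_m_5_6 : Good 340282366920938463463374607431768211455 0 16384 53125 57262 24822 28959 0 8192 14188 69632 0 16384 0 16384 :=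
  (good_s2 (good_s5 (good_s4 (good_s4 (good_s4 (good_s5 (good_s0 (good_s5 (good_s5 (gd2 Chk.c999 rfl)
  (good_s0 (good_s5 (good_s6 (gd2 Chk.c1000 rfl)
  (good_s6 (gd2 Chk.c1001 rfl)
  (good_s3 (gd2 Chk.c1002 rfl)
  (good_s5 (good_s6 (good_s6 (good_s6 (gd2 Chk.c1003 rfl)
  (good_s4 (gd2 Chk.c1004 rfl)
  (gd2 Chk.c1005 rfl)))
  (gd2 Chk.c1006 rfl))
  (gd2 Chk.c1007 rfl))
  (gd2 Chk.c1008 rfl)))))
  (gd2 Chk.c1009 rfl))
  (gd2 Chk.c1010 rfl)))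
  (gd2 Chk.c1011 rfl))
  (gd2 Chk.c1012 rfl))
  (good_s1 (gd2 Chk.c1013 rfl)
  (gd2 Chk.c1014 rfl)))
  (gd2 Chk.c1015 rfl))
  (gd2 Chk.c1016 rfl))
  (gd2 Chk.c1017 rfl))
  (gd2 Chk.c1018 rfl))
  (good_s0 (good_s3 (gd2 Chk.c1019 rfl)
  (gd2 Chk.c1020 rfl))
  (gd2 Chk.c1021 rfl)))

theorem cell_m_5_7 : Good 340282366920938463463374607431768211455 0 16384 53125 57262 28959 33096 0 8192 14188 69632 0 16384 0 16384 :=
  (gd2 Chk.c1022 rfl)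

theorem cell_m_6_0 : Good 340282366920938463463374607431768211455 0 16384 57262 61399 0 4137 0 8192 14188 69632 0 16384 0 16384 :=
  (gd2 Chk.c1023 rfl)

theorem cell_m_6_1 : Good 340282366920938463463374607431768211455 0 16384 57262 61399 4137 8274 0 8192 14188 69632 0 16384 0 16384 :=
  (gd2 Chk.c1024 rfl)

theorem cell_m_6_2 : Good 340282366920938463463374607431768211455 0 16384 57262 61399 8274 12411 0 8192 14188 69632 0 16384 0 16384 :=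
  (gd2 Chk.c1025 rfl)

theorem cell_m_6_3 : Good 340282366920938463463374607431768211455 0 16384 57262 61399 12411 16548 0 8192 14188 69632 0 16384 0 16384 :=
  (gd2 Chk.c1026 rfl)

theorem cell_m_6_4 : Good 340282366920938463463374607431768211455 0 16384 57262 61399 16548 20685 0 8192 14188 69632 0 16384 0 16384 :=
  (gd2 Chk.c1027 rfl)

theorem cell_m_6_5 : Good 340282366920938463463374607431768211455 0 16384 57262 61399 20685 24822 0 8192 14188 69632 0 16384 0 16384 :=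
  (good_s5 (gd2 Chk.c1028 rfl)
  (good_s6 (gd2 Chk.c1029 rfl)
  (good_s5 (gd2 Chk.c1030 rfl)
  (good_s4 (good_s5 (good_s5 (gd2 Chk.c1031 rfl)
  (good_s4 (good_s0 (gd2 Chk.c1032 rfl)
  (good_s4 (gd2 Chk.c1033 rfl)
  (gd2 Chk.c1034 rfl)))
  (gd2 Chk.c1035 rfl)))
  (gd2 Chk.c1036 rfl))
  (gd2 Chk.c1037 rfl)))))

theorem cell_m_6_6 : Good 340282366920938463463374607431768211455 0 16384 57262 61399 24822 28959 0 8192 14188 69632 0 16384 0 16384 :=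
  (good_s4 (good_s0 (good_s5 (good_s5 (good_s5 (good_s5 (gd2 Chk.c1038 rfl)
  (good_s5 (good_s6 (gd2 Chk.c1039 rfl)
  (good_s6 (gd2 Chk.c1040 rfl)
  (good_s0 (good_s6 (good_s6 (good_s5 (good_s5 (good_s4 (gd2 Chk.c1041 rfl)
  (good_s4 (gd2 Chk.c1042 rfl)
  (good_s2 (good_s6 (good_s5 (good_s6 (good_s3 (gd2 Chk.c1043 rfl)
  (good_s6 (gd2 Chk.c1044 rfl)
  (gd2 Chk.c1045 rfl)))
  (gd2 Chk.c1046 rfl))
  (gd2 Chk.c1047 rfl))
  (gd2 Chk.c1048 rfl))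
  (gd2 Chk.c1049 rfl))))
  (gd2 Chk.c1050 rfl))
  (gd2 Chk.c1051 rfl))
  (gd2 Chk.c1052 rfl))
  (gd2 Chk.c1053 rfl))
  (gd2 Chk.c1054 rfl))))
  (gd2 Chk.c1055 rfl)))
  (gd2 Chk.c1056 rfl))
  (gd2 Chk.c1057 rfl))
  (gd2 Chk.c1058 rfl))
  (gd2 Chk.c1059 rfl))
  (good_s0 (good_s6 (gd2 Chk.c1060 rfl)
  (good_s5 (good_s3 (gd2 Chk.c1061 rfl)
  (good_s5 (gd2 Chk.c1062 rfl)
  (good_s4 (good_s4 (good_s2 (good_s4 (good_s2 (good_s5 (gd2 Chk.c1063 rfl)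
  (good_s5 (good_s5 (gd2 Chk.c1064 rfl)
  (gd2 Chk.c1065 rfl))
  (gd2 Chk.c1066 rfl)))
  (gd2 Chk.c1067 rfl))
  (gd2 Chk.c1068 rfl))
  (gd2 Chk.c1069 rfl))
  (gd2 Chk.c1070 rfl))
  (gd2 Chk.c1071 rfl))))
  (gd2 Chk.c1072 rfl)))
  (gd2 Chk.c1073 rfl)))

theorem cell_m_6_7 : Good 340282366920938463463374607431768211455 0 16384 57262 61399 28959 33096 0 8192 14188 69632 0 16384 0 16384 :=
  (good_s2 (good_s2 (gd2 Chk.c1074 rfl)
  (gd2 Chk.c1075 rfl))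
  (gd2 Chk.c1076 rfl))

theorem cell_m_7_0 : Good 340282366920938463463374607431768211455 0 16384 61399 65536 0 4137 0 8192 14188 69632 0 16384 0 16384 :=
  (gd2 Chk.c1077 rfl)

theorem cell_m_7_1 : Good 340282366920938463463374607431768211455 0 16384 61399 65536 4137 8274 0 8192 14188 69632 0 16384 0 16384 :=
  (gd2 Chk.c1078 rfl)

theorem cell_m_7_2 : Good 340282366920938463463374607431768211455 0 16384 61399 65536 8274 12411 0 8192 14188 69632 0 16384 0 16384 :=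
  (gd2 Chk.c1079 rfl)

theorem cell_m_7_3 : Good 340282366920938463463374607431768211455 0 16384 61399 65536 12411 16548 0 8192 14188 69632 0 16384 0 16384 :=
  (gd2 Chk.c1080 rfl)

theorem cell_m_7_4 : Good 340282366920938463463374607431768211455 0 16384 61399 65536 16548 20685 0 8192 14188 69632 0 16384 0 16384 :=
  (gd2 Chk.c1081 rfl)

theorem cell_m_7_5 : Good 340282366920938463463374607431768211455 0 16384 61399 65536 20685 24822 0 8192 14188 69632 0 16384 0 16384 :=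
  (good_s6 (good_s6 (gd2 Chk.c1082 rfl)
  (gd2 Chk.c1083 rfl))
  (gd2 Chk.c1084 rfl))

theorem cell_m_7_6 : Good 340282366920938463463374607431768211455 0 16384 61399 65536 24822 28959 0 8192 14188 69632 0 16384 0 16384 :=
  (good_s6 (good_s2 (good_s2 (good_s5 (gd2 Chk.c1085 rfl)
  (gd2 Chk.c1086 rfl))
  (gd2 Chk.c1087 rfl))
  (gd2 Chk.c1088 rfl))
  (good_s5 (good_s5 (good_s5 (good_s5 (gd2 Chk.c1089 rfl)
  (good_s4 (good_s4 (good_s4 (gd2 Chk.c1090 rfl)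
  (good_s1 (gd2 Chk.c1091 rfl)
  (gd2 Chk.c1092 rfl)))
  (gd2 Chk.c1093 rfl))
  (gd2 Chk.c1094 rfl)))
  (gd2 Chk.c1095 rfl))
  (gd2 Chk.c1096 rfl))
  (gd2 Chk.c1097 rfl)))

theorem cell_m_7_7 : Good 340282366920938463463374607431768211455 0 16384 61399 65536 28959 33096 0 8192 14188 69632 0 16384 0 16384 :=
  (good_s3 (gd2 Chk.c1098 rfl)
  (gd2 Chk.c1099 rfl))

theorem cell_m_8_0 : Good 340282366920938463463374607431768211455 0 16384 65536 69673 0 4137 0 8192 14188 69632 0 16384 0 16384 :=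
  (gd2 Chk.c1100 rfl)

theorem cell_m_8_1 : Good 340282366920938463463374607431768211455 0 16384 65536 69673 4137 8274 0 8192 14188 69632 0 16384 0 16384 :=
  (gd2 Chk.c1101 rfl)

theorem cell_m_8_2 : Good 340282366920938463463374607431768211455 0 16384 65536 69673 8274 12411 0 8192 14188 69632 0 16384 0 16384 :=
  (gd2 Chk.c1102 rfl)

theorem cell_m_8_3 : Good 340282366920938463463374607431768211455 0 16384 65536 69673 12411 16548 0 8192 14188 69632 0 16384 0 16384 :=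
  (gd2 Chk.c1103 rfl)

theorem cell_m_8_4 : Good 340282366920938463463374607431768211455 0 16384 65536 69673 16548 20685 0 8192 14188 69632 0 16384 0 16384 :=
  (gd2 Chk.c1104 rfl)

theorem cell_m_8_5 : Good 340282366920938463463374607431768211455 0 16384 65536 69673 20685 24822 0 8192 14188 69632 0 16384 0 16384 :=
  (good_s5 (good_s2 (gd2 Chk.c1105 rfl)
  (good_s5 (gd2 Chk.c1106 rfl)
  (good_s5 (gd2 Chk.c1107 rfl)
  (good_s0 (good_s5 (good_s5 (gd2 Chk.c1108 rfl)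
  (good_s4 (good_s0 (good_s5 (gd2 Chk.c1109 rfl)
  (good_s2 (gd2 Chk.c1110 rfl)
  (good_s5 (gd2 Chk.c1111 rfl)
  (good_s4 (gd2 Chk.c1112 rfl)
  (gd2 Chk.c1113 rfl)))))
  (gd2 Chk.c1114 rfl))
  (gd2 Chk.c1115 rfl)))
  (gd2 Chk.c1116 rfl))
  (gd2 Chk.c1117 rfl)))))
  (gd2 Chk.c1118 rfl))

theorem cell_m_8_6 : Good 340282366920938463463374607431768211455 0 16384 65536 69673 24822 28959 0 8192 14188 69632 0 16384 0 16384 :=
  (good_s5 (good_s2 (good_s4 (good_s5 (gd2 Chk.c1119 rfl)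
  (gd2 Chk.c1120 rfl))
  (gd2 Chk.c1121 rfl))
  (good_s0 (gd2 Chk.c1122 rfl)
  (gd2 Chk.c1123 rfl)))
  (good_s1 (good_s4 (good_s4 (gd2 Chk.c1124 rfl)
  (good_s4 (good_s2 (gd2 Chk.c1125 rfl)
  (gd2 Chk.c1126 rfl))
  (gd2 Chk.c1127 rfl)))
  (gd2 Chk.c1128 rfl))
  (good_s4 (gd2 Chk.c1129 rfl)
  (good_s1 (gd2 Chk.c1130 rfl)
  (gd2 Chk.c1131 rfl)))))

theorem cell_m_8_7 : Good 340282366920938463463374607431768211455 0 16384 65536 69673 28959 33096 0 8192 14188 69632 0 16384 0 16384 :=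
  (good_s4 (gd2 Chk.c1132 rfl)
  (good_s6 (gd2 Chk.c1133 rfl)
  (gd2 Chk.c1134 rfl)))

theorem cell_m_9_0 : Good 340282366920938463463374607431768211455 0 16384 69673 73810 0 4137 0 8192 14188 69632 0 16384 0 16384 :=
  (gd2 Chk.c1135 rfl)

theorem cell_m_9_1 : Good 340282366920938463463374607431768211455 0 16384 69673 73810 4137 8274 0 8192 14188 69632 0 16384 0 16384 :=
  (gd2 Chk.c1136 rfl)

theorem cell_m_9_2 : Good 340282366920938463463374607431768211455 0 16384 69673 73810 8274 12411 0 8192 14188 69632 0 16384 0 16384 :=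
  (gd2 Chk.c1137 rfl)

theorem cell_m_9_3 : Good 340282366920938463463374607431768211455 0 16384 69673 73810 12411 16548 0 8192 14188 69632 0 16384 0 16384 :=
  (gd2 Chk.c1138 rfl)

theorem cell_m_9_4 : Good 340282366920938463463374607431768211455 0 16384 69673 73810 16548 20685 0 8192 14188 69632 0 16384 0 16384 :=
  (gd2 Chk.c1139 rfl)

theorem cell_m_9_5 : Good 340282366920938463463374607431768211455 0 16384 69673 73810 20685 24822 0 8192 14188 69632 0 16384 0 16384 :=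
  (good_s3 (good_s4 (gd2 Chk.c1140 rfl)
  (good_s5 (gd2 Chk.c1141 rfl)
  (good_s5 (gd2 Chk.c1142 rfl)
  (good_s2 (gd2 Chk.c1143 rfl)
  (good_s0 (good_s5 (gd2 Chk.c1144 rfl)
  (good_s5 (good_s0 (good_s5 (gd2 Chk.c1145 rfl)
  (good_s4 (good_s4 (good_s2 (gd2 Chk.c1146 rfl)
  (good_s4 (good_s6 (good_s6 (good_s6 (good_s6 (gd2 Chk.c1147 rfl)
  (good_s6 (gd2 Chk.c1148 rfl)
  (good_s6 (gd2 Chk.c1149 rfl)
  (good_s5 (gd2 Chk.c1150 rfl)
  (good_s5 (gd2 Chk.c1151 rfl)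
  (gd2 Chk.c1152 rfl))))))
  (gd2 Chk.c1153 rfl))
  (gd2 Chk.c1154 rfl))
  (gd2 Chk.c1155 rfl))
  (gd2 Chk.c1156 rfl)))
  (gd2 Chk.c1157 rfl))
  (gd2 Chk.c1158 rfl)))
  (gd2 Chk.c1159 rfl))
  (gd2 Chk.c1160 rfl)))
  (gd2 Chk.c1161 rfl))))))
  (gd2 Chk.c1162 rfl))

theorem cell_m_9_6 : Good 340282366920938463463374607431768211455 0 16384 69673 73810 24822 28959 0 8192 14188 69632 0 16384 0 16384 :=
  (good_s4 (good_s5 (good_s3 (good_s5 (gd2 Chk.c1163 rfl)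
  (good_s5 (good_s0 (good_s0 (gd2 Chk.c1164 rfl)
  (good_s5 (good_s5 (gd2 Chk.c1165 rfl)
  (good_s4 (good_s5 (good_s5 (good_s0 (good_s6 (gd2 Chk.c1166 rfl)
  (good_s6 (gd2 Chk.c1167 rfl)
  (good_s6 (good_s6 (good_s5 (good_s0 (gd2 Chk.c1168 rfl)
  (gd2 Chk.c1169 rfl))
  (gd2 Chk.c1170 rfl))
  (good_s6 (good_s4 (gd2 Chk.c1171 rfl)
  (gd2 Chk.c1172 rfl))
  (gd2 Chk.c1173 rfl)))
  (gd2 Chk.c1174 rfl))))
  (gd2 Chk.c1175 rfl))
  (gd2 Chk.c1176 rfl))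
  (gd2 Chk.c1177 rfl))
  (gd2 Chk.c1178 rfl)))
  (gd2 Chk.c1179 rfl)))
  (gd2 Chk.c1180 rfl))
  (gd2 Chk.c1181 rfl)))
  (gd2 Chk.c1182 rfl))
  (good_s5 (gd2 Chk.c1183 rfl)
  (good_s5 (good_s5 (gd2 Chk.c1184 rfl)
  (good_s6 (good_s0 (good_s6 (good_s5 (gd2 Chk.c1185 rfl)
  (good_s4 (gd2 Chk.c1186 rfl)
  (good_s2 (good_s4 (good_s6 (good_s5 (gd2 Chk.c1187 rfl)
  (good_s6 (gd2 Chk.c1188 rfl)
  (good_s5 (gd2 Chk.c1189 rfl)
  (good_s6 (gd2 Chk.c1190 rfl)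
  (good_s5 (gd2 Chk.c1191 rfl)
  (good_s5 (good_s5 (gd2 Chk.c1192 rfl)
  (good_s6 (good_s6 (good_s6 (gd2 Chk.c1193 rfl)
  (good_s4 (gd2 Chk.c1194 rfl)
  (gd2 Chk.c1195 rfl)))
  (gd2 Chk.c1196 rfl))
  (gd2 Chk.c1197 rfl)))
  (gd2 Chk.c1198 rfl)))))))
  (gd2 Chk.c1199 rfl))
  (gd2 Chk.c1200 rfl))
  (gd2 Chk.c1201 rfl))))
  (gd2 Chk.c1202 rfl))
  (gd2 Chk.c1203 rfl))
  (good_s6 (gd2 Chk.c1204 rfl)
  (gd2 Chk.c1205 rfl))))
  (gd2 Chk.c1206 rfl))))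
  (gd2 Chk.c1207 rfl))

theorem cell_m_9_7 : Good 340282366920938463463374607431768211455 0 16384 69673 73810 28959 33096 0 8192 14188 69632 0 16384 0 16384 :=
  (good_s0 (gd2 Chk.c1208 rfl)
  (good_s2 (good_s6 (gd2 Chk.c1209 rfl)
  (good_s5 (good_s5 (good_s5 (good_s0 (gd2 Chk.c1210 rfl)
  (good_s4 (good_s6 (gd2 Chk.c1211 rfl)
  (good_s4 (good_s5 (gd2 Chk.c1212 rfl)
  (good_s6 (gd2 Chk.c1213 rfl)
  (gd2 Chk.c1214 rfl)))
  (gd2 Chk.c1215 rfl)))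
  (gd2 Chk.c1216 rfl)))
  (gd2 Chk.c1217 rfl))
  (gd2 Chk.c1218 rfl))
  (gd2 Chk.c1219 rfl)))
  (gd2 Chk.c1220 rfl)))

theorem cell_m_10_0 : Good 340282366920938463463374607431768211455 0 16384 73810 77947 0 4137 0 8192 14188 69632 0 16384 0 16384 :=
  (gd2 Chk.c1221 rfl)

theorem cell_m_10_1 : Good 340282366920938463463374607431768211455 0 16384 73810 77947 4137 8274 0 8192 14188 69632 0 16384 0 16384 :=
  (gd2 Chk.c1222 rfl)

theorem cell_m_10_2 : Good 340282366920938463463374607431768211455 0 16384 73810 77947 8274 12411 0 8192 14188 69632 0 16384 0 16384 :=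
  (gd2 Chk.c1223 rfl)

theorem cell_m_10_3 : Good 340282366920938463463374607431768211455 0 16384 73810 77947 12411 16548 0 8192 14188 69632 0 16384 0 16384 :=
  (gd2 Chk.c1224 rfl)

theorem cell_m_10_4 : Good 340282366920938463463374607431768211455 0 16384 73810 77947 16548 20685 0 8192 14188 69632 0 16384 0 16384 :=
  (gd2 Chk.c1225 rfl)

theorem cell_m_10_5 : Good 340282366920938463463374607431768211455 0 16384 73810 77947 20685 24822 0 8192 14188 69632 0 16384 0 16384 :=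
  (good_s3 (good_s4 (gd2 Chk.c1226 rfl)
  (good_s0 (good_s5 (gd2 Chk.c1227 rfl)
  (good_s5 (gd2 Chk.c1228 rfl)
  (good_s5 (good_s2 (gd2 Chk.c1229 rfl)
  (good_s5 (gd2 Chk.c1230 rfl)
  (good_s5 (gd2 Chk.c1231 rfl)
  (good_s4 (good_s4 (good_s2 (gd2 Chk.c1232 rfl)
  (good_s1 (gd2 Chk.c1233 rfl)
  (gd2 Chk.c1234 rfl)))
  (gd2 Chk.c1235 rfl))
  (gd2 Chk.c1236 rfl)))))
  (gd2 Chk.c1237 rfl))))
  (gd2 Chk.c1238 rfl)))
  (gd2 Chk.c1239 rfl))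

theorem cell_m_10_6 : Good 340282366920938463463374607431768211455 0 16384 73810 77947 24822 28959 0 8192 14188 69632 0 16384 0 16384 :=
  (good_s6 (good_s1 (good_s4 (good_s2 (gd2 Chk.c1240 rfl)
  (good_s5 (good_s4 (good_s6 (gd2 Chk.c1241 rfl)
  (good_s6 (gd2 Chk.c1242 rfl)
  (good_s6 (gd2 Chk.c1243 rfl)
  (good_s5 (good_s5 (good_s5 (gd2 Chk.c1244 rfl)
  (good_s0 (good_s5 (good_s4 (gd2 Chk.c1245 rfl)
  (gd2 Chk.c1246 rfl))
  (gd2 Chk.c1247 rfl))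
  (gd2 Chk.c1248 rfl)))
  (gd2 Chk.c1249 rfl))
  (gd2 Chk.c1250 rfl)))))
  (gd2 Chk.c1251 rfl))
  (gd2 Chk.c1252 rfl)))
  (gd2 Chk.c1253 rfl))
  (good_s2 (good_s2 (gd2 Chk.c1254 rfl)
  (good_s5 (gd2 Chk.c1255 rfl)
  (gd2 Chk.c1256 rfl)))
  (good_s2 (good_s5 (good_s5 (good_s0 (good_s5 (good_s5 (gd2 Chk.c1257 rfl)
  (good_s5 (good_s4 (good_s4 (good_s4 (good_s6 (gd2 Chk.c1258 rfl)
  (good_s5 (good_s6 (gd2 Chk.c1259 rfl)
  (good_s6 (gd2 Chk.c1260 rfl)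
  (good_s5 (good_s5 (good_s1 (good_s6 (good_s3 (gd2 Chk.c1261 rfl)
  (good_s0 (gd2 Chk.c1262 rfl)
  (good_s4 (gd2 Chk.c1263 rfl)
  (good_s6 (gd2 Chk.c1264 rfl)
  (good_s5 (good_s6 (gd2 Chk.c1265 rfl)
  (good_s3 (gd2 Chk.c1266 rfl)
  (good_s3 (gd2 Chk.c1267 rfl)
  (gd2 Chk.c1268 rfl))))
  (gd2 Chk.c1269 rfl))))))
  (gd2 Chk.c1270 rfl))
  (gd2 Chk.c1271 rfl))
  (gd2 Chk.c1272 rfl))
  (gd2 Chk.c1273 rfl))))
  (gd2 Chk.c1274 rfl)))
  (gd2 Chk.c1275 rfl))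
  (gd2 Chk.c1276 rfl))
  (gd2 Chk.c1277 rfl))
  (gd2 Chk.c1278 rfl)))
  (gd2 Chk.c1279 rfl))
  (gd2 Chk.c1280 rfl))
  (gd2 Chk.c1281 rfl))
  (gd2 Chk.c1282 rfl))
  (good_s5 (good_s5 (good_s5 (good_s5 (gd2 Chk.c1283 rfl)
  (good_s4 (good_s4 (gd2 Chk.c1284 rfl)
  (gd2 Chk.c1285 rfl))
  (gd2 Chk.c1286 rfl)))
  (gd2 Chk.c1287 rfl))
  (gd2 Chk.c1288 rfl))
  (gd2 Chk.c1289 rfl)))))
  (good_s5 (good_s5 (good_s5 (good_s5 (gd2 Chk.c1290 rfl)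
  (good_s4 (good_s4 (good_s4 (good_s0 (good_s6 (good_s5 (good_s6 (good_s4 (gd2 Chk.c1291 rfl)
  (good_s0 (good_s0 (good_s2 (good_s5 (good_s4 (good_s5 (gd2 Chk.c1292 rfl)
  (good_s3 (good_s6 (good_s6 (good_s5 (gd2 Chk.c1293 rfl)
  (gd2 Chk.c1294 rfl))
  (gd2 Chk.c1295 rfl))
  (gd2 Chk.c1296 rfl))
  (gd2 Chk.c1297 rfl)))
  (gd2 Chk.c1298 rfl))
  (gd2 Chk.c1299 rfl))
  (gd2 Chk.c1300 rfl))
  (gd2 Chk.c1301 rfl))
  (gd2 Chk.c1302 rfl)))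
  (gd2 Chk.c1303 rfl))
  (gd2 Chk.c1304 rfl))
  (gd2 Chk.c1305 rfl))
  (gd2 Chk.c1306 rfl))
  (gd2 Chk.c1307 rfl))
  (gd2 Chk.c1308 rfl))
  (gd2 Chk.c1309 rfl)))
  (gd2 Chk.c1310 rfl))
  (gd2 Chk.c1311 rfl))
  (gd2 Chk.c1312 rfl)))

theorem cell_m_10_7 : Good 340282366920938463463374607431768211455 0 16384 73810 77947 28959 33096 0 8192 14188 69632 0 16384 0 16384 :=
  (good_s3 (gd2 Chk.c1313 rfl)
  (good_s4 (good_s5 (gd2 Chk.c1314 rfl)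
  (good_s6 (gd2 Chk.c1315 rfl)
  (good_s5 (good_s4 (good_s2 (good_s4 (good_s6 (good_s6 (gd2 Chk.c1316 rfl)
  (good_s5 (gd2 Chk.c1317 rfl)
  (gd2 Chk.c1318 rfl)))
  (gd2 Chk.c1319 rfl))
  (gd2 Chk.c1320 rfl))
  (gd2 Chk.c1321 rfl))
  (gd2 Chk.c1322 rfl))
  (gd2 Chk.c1323 rfl))))
  (gd2 Chk.c1324 rfl)))

theorem cell_m_11_0 : Good 340282366920938463463374607431768211455 0 16384 77947 82084 0 4137 0 8192 14188 69632 0 16384 0 16384 :=
  (gd2 Chk.c1325 rfl)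

theorem cell_m_11_1 : Good 340282366920938463463374607431768211455 0 16384 77947 82084 4137 8274 0 8192 14188 69632 0 16384 0 16384 :=
  (gd2 Chk.c1326 rfl)

theorem cell_m_11_2 : Good 340282366920938463463374607431768211455 0 16384 77947 82084 8274 12411 0 8192 14188 69632 0 16384 0 16384 :=
  (gd2 Chk.c1327 rfl)

theorem cell_m_11_3 : Good 340282366920938463463374607431768211455 0 16384 77947 82084 12411 16548 0 8192 14188 69632 0 16384 0 16384 :=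
  (gd2 Chk.c1328 rfl)

theorem cell_m_11_4 : Good 340282366920938463463374607431768211455 0 16384 77947 82084 16548 20685 0 8192 14188 69632 0 16384 0 16384 :=
  (gd2 Chk.c1329 rfl)

theorem cell_m_11_5 : Good 340282366920938463463374607431768211455 0 16384 77947 82084 20685 24822 0 8192 14188 69632 0 16384 0 16384 :=
  (good_s0 (good_s5 (gd2 Chk.c1330 rfl)
  (good_s5 (gd2 Chk.c1331 rfl)
  (good_s5 (good_s2 (gd2 Chk.c1332 rfl)
  (good_s2 (gd2 Chk.c1333 rfl)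
  (gd2 Chk.c1334 rfl)))
  (gd2 Chk.c1335 rfl))))
  (gd2 Chk.c1336 rfl))

theorem cell_m_11_6 : Good 340282366920938463463374607431768211455 0 16384 77947 82084 24822 28959 0 8192 14188 69632 0 16384 0 16384 :=
  (good_s1 (good_s5 (good_s5 (good_s0 (good_s4 (good_s4 (good_s4 (good_s4 (good_s0 (good_s5 (good_s6 (gd2 Chk.c1337 rfl)
  (good_s6 (gd2 Chk.c1338 rfl)
  (good_s5 (gd2 Chk.c1339 rfl)
  (good_s5 (good_s6 (good_s6 (good_s4 (good_s3 (gd2 Chk.c1340 rfl)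
  (gd2 Chk.c1341 rfl))
  (gd2 Chk.c1342 rfl))
  (gd2 Chk.c1343 rfl))
  (gd2 Chk.c1344 rfl))
  (gd2 Chk.c1345 rfl)))))
  (gd2 Chk.c1346 rfl))
  (gd2 Chk.c1347 rfl))
  (gd2 Chk.c1348 rfl))
  (gd2 Chk.c1349 rfl))
  (gd2 Chk.c1350 rfl))
  (gd2 Chk.c1351 rfl))
  (gd2 Chk.c1352 rfl))
  (gd2 Chk.c1353 rfl))
  (good_s2 (gd2 Chk.c1354 rfl)
  (gd2 Chk.c1355 rfl)))
  (good_s2 (good_s3 (gd2 Chk.c1356 rfl)
  (gd2 Chk.c1357 rfl))
  (good_s3 (gd2 Chk.c1358 rfl)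
  (gd2 Chk.c1359 rfl))))

theorem cell_m_11_7 : Good 340282366920938463463374607431768211455 0 16384 77947 82084 28959 33096 0 8192 14188 69632 0 16384 0 16384 :=
  (gd2 Chk.c1360 rfl)

theorem cell_m_12_0 : Good 340282366920938463463374607431768211455 0 16384 82084 86221 0 4137 0 8192 14188 69632 0 16384 0 16384 :=
  (gd2 Chk.c1361 rfl)

theorem cell_m_12_1 : Good 340282366920938463463374607431768211455 0 16384 82084 86221 4137 8274 0 8192 14188 69632 0 16384 0 16384 :=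
  (gd2 Chk.c1362 rfl)

theorem cell_m_12_2 : Good 340282366920938463463374607431768211455 0 16384 82084 86221 8274 12411 0 8192 14188 69632 0 16384 0 16384 :=
  (gd2 Chk.c1363 rfl)

theorem cell_m_12_3 : Good 340282366920938463463374607431768211455 0 16384 82084 86221 12411 16548 0 8192 14188 69632 0 16384 0 16384 :=
  (gd2 Chk.c1364 rfl)

theorem cell_m_12_4 : Good 340282366920938463463374607431768211455 0 16384 82084 86221 16548 20685 0 8192 14188 69632 0 16384 0 16384 :=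
  (gd2 Chk.c1365 rfl)

theorem cell_m_12_5 : Good 340282366920938463463374607431768211455 0 16384 82084 86221 20685 24822 0 8192 14188 69632 0 16384 0 16384 :=
  (good_s2 (gd2 Chk.c1366 rfl)
  (gd2 Chk.c1367 rfl))

theorem cell_m_12_6 : Good 340282366920938463463374607431768211455 0 16384 82084 86221 24822 28959 0 8192 14188 69632 0 16384 0 16384 :=
  (good_s2 (good_s3 (gd2 Chk.c1368 rfl)
  (gd2 Chk.c1369 rfl))
  (gd2 Chk.c1370 rfl))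

theorem cell_m_12_7 : Good 340282366920938463463374607431768211455 0 16384 82084 86221 28959 33096 0 8192 14188 69632 0 16384 0 16384 :=
  (gd2 Chk.c1371 rfl)

theorem cell_m_13_0 : Good 340282366920938463463374607431768211455 0 16384 86221 90358 0 4137 0 8192 14188 69632 0 16384 0 16384 :=
  (gd2 Chk.c1372 rfl)

theorem cell_m_13_1 : Good 340282366920938463463374607431768211455 0 16384 86221 90358 4137 8274 0 8192 14188 69632 0 16384 0 16384 :=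
  (gd2 Chk.c1373 rfl)

theorem cell_m_13_2 : Good 340282366920938463463374607431768211455 0 16384 86221 90358 8274 12411 0 8192 14188 69632 0 16384 0 16384 :=
  (gd2 Chk.c1374 rfl)

theorem cell_m_13_3 : Good 340282366920938463463374607431768211455 0 16384 86221 90358 12411 16548 0 8192 14188 69632 0 16384 0 16384 :=
  (gd2 Chk.c1375 rfl)

theorem cell_m_13_4 : Good 340282366920938463463374607431768211455 0 16384 86221 90358 16548 20685 0 8192 14188 69632 0 16384 0 16384 :=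
  (gd2 Chk.c1376 rfl)

theorem cell_m_13_5 : Good 340282366920938463463374607431768211455 0 16384 86221 90358 20685 24822 0 8192 14188 69632 0 16384 0 16384 :=
  (gd2 Chk.c1377 rfl)

theorem cell_m_13_6 : Good 340282366920938463463374607431768211455 0 16384 86221 90358 24822 28959 0 8192 14188 69632 0 16384 0 16384 :=
  (gd2 Chk.c1378 rfl)

theorem cell_m_13_7 : Good 340282366920938463463374607431768211455 0 16384 86221 90358 28959 33096 0 8192 14188 69632 0 16384 0 16384 :=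
  (gd2 Chk.c1379 rfl)

theorem cell_m_14_0 : Good 340282366920938463463374607431768211455 0 16384 90358 94495 0 4137 0 8192 14188 69632 0 16384 0 16384 :=
  (gd2 Chk.c1380 rfl)

theorem cell_m_14_1 : Good 340282366920938463463374607431768211455 0 16384 90358 94495 4137 8274 0 8192 14188 69632 0 16384 0 16384 :=
  (gd2 Chk.c1381 rfl)

theorem cell_m_14_2 : Good 340282366920938463463374607431768211455 0 16384 90358 94495 8274 12411 0 8192 14188 69632 0 16384 0 16384 :=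
  (gd2 Chk.c1382 rfl)

theorem cell_m_14_3 : Good 340282366920938463463374607431768211455 0 16384 90358 94495 12411 16548 0 8192 14188 69632 0 16384 0 16384 :=
  (gd2 Chk.c1383 rfl)

theorem cell_m_14_4 : Good 340282366920938463463374607431768211455 0 16384 90358 94495 16548 20685 0 8192 14188 69632 0 16384 0 16384 :=
  (gd2 Chk.c1384 rfl)

theorem cell_m_14_5 : Good 340282366920938463463374607431768211455 0 16384 90358 94495 20685 24822 0 8192 14188 69632 0 16384 0 16384 :=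
  (gd2 Chk.c1385 rfl)

theorem cell_m_14_6 : Good 340282366920938463463374607431768211455 0 16384 90358 94495 24822 28959 0 8192 14188 69632 0 16384 0 16384 :=
  (gd2 Chk.c1386 rfl)

theorem cell_m_14_7 : Good 340282366920938463463374607431768211455 0 16384 90358 94495 28959 33096 0 8192 14188 69632 0 16384 0 16384 :=
  (gd2 Chk.c1387 rfl)

theorem cell_m_15_0 : Good 340282366920938463463374607431768211455 0 16384 94495 98632 0 4137 0 8192 14188 69632 0 16384 0 16384 :=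
  (gd2 Chk.c1388 rfl)

theorem cell_m_15_1 : Good 340282366920938463463374607431768211455 0 16384 94495 98632 4137 8274 0 8192 14188 69632 0 16384 0 16384 :=
  (gd2 Chk.c1389 rfl)

theorem cell_m_15_2 : Good 340282366920938463463374607431768211455 0 16384 94495 98632 8274 12411 0 8192 14188 69632 0 16384 0 16384 :=
  (gd2 Chk.c1390 rfl)

theorem cell_m_15_3 : Good 340282366920938463463374607431768211455 0 16384 94495 98632 12411 16548 0 8192 14188 69632 0 16384 0 16384 :=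
  (gd2 Chk.c1391 rfl)

theorem cell_m_15_4 : Good 340282366920938463463374607431768211455 0 16384 94495 98632 16548 20685 0 8192 14188 69632 0 16384 0 16384 :=
  (gd2 Chk.c1392 rfl)

theorem cell_m_15_5 : Good 340282366920938463463374607431768211455 0 16384 94495 98632 20685 24822 0 8192 14188 69632 0 16384 0 16384 :=
  (gd2 Chk.c1393 rfl)

theorem cell_m_15_6 : Good 340282366920938463463374607431768211455 0 16384 94495 98632 24822 28959 0 8192 14188 69632 0 16384 0 16384 :=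
  (gd2 Chk.c1394 rfl)

theorem cell_m_15_7 : Good 340282366920938463463374607431768211455 0 16384 94495 98632 28959 33096 0 8192 14188 69632 0 16384 0 16384 :=
  (gd2 Chk.c1395 rfl)

theorem row_p_0 : Good 1 0 16384 32440 36577 0 33096 0 8192 14188 69632 0 16384 0 16384 :=
  (good_s2 (good_s2 (good_s2 cell_p_0_0 cell_p_0_1) (good_s2 cell_p_0_2 cell_p_0_3)) (good_s2 (good_s2 cell_p_0_4 cell_p_0_5) (good_s2 cell_p_0_6 cell_p_0_7)))

theorem row_p_1 : Good 1 0 16384 36577 40714 0 33096 0 8192 14188 69632 0 16384 0 16384 :=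
  (good_s2 (good_s2 (good_s2 cell_p_1_0 cell_p_1_1) (good_s2 cell_p_1_2 cell_p_1_3)) (good_s2 (good_s2 cell_p_1_4 cell_p_1_5) (good_s2 cell_p_1_6 cell_p_1_7)))

theorem row_p_2 : Good 1 0 16384 40714 44851 0 33096 0 8192 14188 69632 0 16384 0 16384 :=
  (good_s2 (good_s2 (good_s2 cell_p_2_0 cell_p_2_1) (good_s2 cell_p_2_2 cell_p_2_3)) (good_s2 (good_s2 cell_p_2_4 cell_p_2_5) (good_s2 cell_p_2_6 cell_p_2_7)))

theorem row_p_3 : Good 1 0 16384 44851 48988 0 33096 0 8192 14188 69632 0 16384 0 16384 :=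
  (good_s2 (good_s2 (good_s2 cell_p_3_0 cell_p_3_1) (good_s2 cell_p_3_2 cell_p_3_3)) (good_s2 (good_s2 cell_p_3_4 cell_p_3_5) (good_s2 cell_p_3_6 cell_p_3_7)))

theorem row_p_4 : Good 1 0 16384 48988 53125 0 33096 0 8192 14188 69632 0 16384 0 16384 :=
  (good_s2 (good_s2 (good_s2 cell_p_4_0 cell_p_4_1) (good_s2 cell_p_4_2 cell_p_4_3)) (good_s2 (good_s2 cell_p_4_4 cell_p_4_5) (good_s2 cell_p_4_6 cell_p_4_7)))

theorem row_p_5 : Good 1 0 16384 53125 57262 0 33096 0 8192 14188 69632 0 16384 0 16384 :=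
  (good_s2 (good_s2 (good_s2 cell_p_5_0 cell_p_5_1) (good_s2 cell_p_5_2 cell_p_5_3)) (good_s2 (good_s2 cell_p_5_4 cell_p_5_5) (good_s2 cell_p_5_6 cell_p_5_7)))

theorem row_p_6 : Good 1 0 16384 57262 61399 0 33096 0 8192 14188 69632 0 16384 0 16384 :=
  (good_s2 (good_s2 (good_s2 cell_p_6_0 cell_p_6_1) (good_s2 cell_p_6_2 cell_p_6_3)) (good_s2 (good_s2 cell_p_6_4 cell_p_6_5) (good_s2 cell_p_6_6 cell_p_6_7)))

theorem row_p_7 : Good 1 0 16384 61399 65536 0 33096 0 8192 14188 69632 0 16384 0 16384 :=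
  (good_s2 (good_s2 (good_s2 cell_p_7_0 cell_p_7_1) (good_s2 cell_p_7_2 cell_p_7_3)) (good_s2 (good_s2 cell_p_7_4 cell_p_7_5) (good_s2 cell_p_7_6 cell_p_7_7)))

theorem row_p_8 : Good 1 0 16384 65536 69673 0 33096 0 8192 14188 69632 0 16384 0 16384 :=
  (good_s2 (good_s2 (good_s2 cell_p_8_0 cell_p_8_1) (good_s2 cell_p_8_2 cell_p_8_3)) (good_s2 (good_s2 cell_p_8_4 cell_p_8_5) (good_s2 cell_p_8_6 cell_p_8_7)))

theorem row_p_9 : Good 1 0 16384 69673 73810 0 33096 0 8192 14188 69632 0 16384 0 16384 :=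
  (good_s2 (good_s2 (good_s2 cell_p_9_0 cell_p_9_1) (good_s2 cell_p_9_2 cell_p_9_3)) (good_s2 (good_s2 cell_p_9_4 cell_p_9_5) (good_s2 cell_p_9_6 cell_p_9_7)))

theorem row_p_10 : Good 1 0 16384 73810 77947 0 33096 0 8192 14188 69632 0 16384 0 16384 :=
  (good_s2 (good_s2 (good_s2 cell_p_10_0 cell_p_10_1) (good_s2 cell_p_10_2 cell_p_10_3)) (good_s2 (good_s2 cell_p_10_4 cell_p_10_5) (good_s2 cell_p_10_6 cell_p_10_7)))

theorem row_p_11 : Good 1 0 16384 77947 82084 0 33096 0 8192 14188 69632 0 16384 0 16384 :=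
  (good_s2 (good_s2 (good_s2 cell_p_11_0 cell_p_11_1) (good_s2 cell_p_11_2 cell_p_11_3)) (good_s2 (good_s2 cell_p_11_4 cell_p_11_5) (good_s2 cell_p_11_6 cell_p_11_7)))

theorem row_p_12 : Good 1 0 16384 82084 86221 0 33096 0 8192 14188 69632 0 16384 0 16384 :=
  (good_s2 (good_s2 (good_s2 cell_p_12_0 cell_p_12_1) (good_s2 cell_p_12_2 cell_p_12_3)) (good_s2 (good_s2 cell_p_12_4 cell_p_12_5) (good_s2 cell_p_12_6 cell_p_12_7)))

theorem row_p_13 : Good 1 0 16384 86221 90358 0 33096 0 8192 14188 69632 0 16384 0 16384 :=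
  (good_s2 (good_s2 (good_s2 cell_p_13_0 cell_p_13_1) (good_s2 cell_p_13_2 cell_p_13_3)) (good_s2 (good_s2 cell_p_13_4 cell_p_13_5) (good_s2 cell_p_13_6 cell_p_13_7)))

theorem row_p_14 : Good 1 0 16384 90358 94495 0 33096 0 8192 14188 69632 0 16384 0 16384 :=
  (good_s2 (good_s2 (good_s2 cell_p_14_0 cell_p_14_1) (good_s2 cell_p_14_2 cell_p_14_3)) (good_s2 (good_s2 cell_p_14_4 cell_p_14_5) (good_s2 cell_p_14_6 cell_p_14_7)))

theorem row_p_15 : Good 1 0 16384 94495 98632 0 33096 0 8192 14188 69632 0 16384 0 16384 :=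
  (good_s2 (good_s2 (good_s2 cell_p_15_0 cell_p_15_1) (good_s2 cell_p_15_2 cell_p_15_3)) (good_s2 (good_s2 cell_p_15_4 cell_p_15_5) (good_s2 cell_p_15_6 cell_p_15_7)))

theorem root_p : Good 1 0 16384 32440 98632 0 33096 0 8192 14188 69632 0 16384 0 16384 :=
  (good_s1 (good_s1 (good_s1 (good_s1 row_p_0 row_p_1) (good_s1 row_p_2 row_p_3)) (good_s1 (good_s1 row_p_4 row_p_5) (good_s1 row_p_6 row_p_7))) (good_s1 (good_s1 (good_s1 row_p_8 row_p_9) (good_s1 row_p_10 row_p_11)) (good_s1 (good_s1 row_p_12 row_p_13) (good_s1 row_p_14 row_p_15))))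

theorem row_m_0 : Good 340282366920938463463374607431768211455 0 16384 32440 36577 0 33096 0 8192 14188 69632 0 16384 0 16384 :=
  (good_s2 (good_s2 (good_s2 cell_m_0_0 cell_m_0_1) (good_s2 cell_m_0_2 cell_m_0_3)) (good_s2 (good_s2 cell_m_0_4 cell_m_0_5) (good_s2 cell_m_0_6 cell_m_0_7)))

theorem row_m_1 : Good 340282366920938463463374607431768211455 0 16384 36577 40714 0 33096 0 8192 14188 69632 0 16384 0 16384 :=
  (good_s2 (good_s2 (good_s2 cell_m_1_0 cell_m_1_1) (good_s2 cell_m_1_2 cell_m_1_3)) (good_s2 (good_s2 cell_m_1_4 cell_m_1_5) (good_s2 cell_m_1_6 cell_m_1_7)))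

theorem row_m_2 : Good 340282366920938463463374607431768211455 0 16384 40714 44851 0 33096 0 8192 14188 69632 0 16384 0 16384 :=
  (good_s2 (good_s2 (good_s2 cell_m_2_0 cell_m_2_1) (good_s2 cell_m_2_2 cell_m_2_3)) (good_s2 (good_s2 cell_m_2_4 cell_m_2_5) (good_s2 cell_m_2_6 cell_m_2_7)))

theorem row_m_3 : Good 340282366920938463463374607431768211455 0 16384 44851 48988 0 33096 0 8192 14188 69632 0 16384 0 16384 :=
  (good_s2 (good_s2 (good_s2 cell_m_3_0 cell_m_3_1) (good_s2 cell_m_3_2 cell_m_3_3)) (good_s2 (good_s2 cell_m_3_4 cell_m_3_5) (good_s2 cell_m_3_6 cell_m_3_7)))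

theorem row_m_4 : Good 340282366920938463463374607431768211455 0 16384 48988 53125 0 33096 0 8192 14188 69632 0 16384 0 16384 :=
  (good_s2 (good_s2 (good_s2 cell_m_4_0 cell_m_4_1) (good_s2 cell_m_4_2 cell_m_4_3)) (good_s2 (good_s2 cell_m_4_4 cell_m_4_5) (good_s2 cell_m_4_6 cell_m_4_7)))

theorem row_m_5 : Good 340282366920938463463374607431768211455 0 16384 53125 57262 0 33096 0 8192 14188 69632 0 16384 0 16384 :=
  (good_s2 (good_s2 (good_s2 cell_m_5_0 cell_m_5_1) (good_s2 cell_m_5_2 cell_m_5_3)) (good_s2 (good_s2 cell_m_5_4 cell_m_5_5) (good_s2 cell_m_5_6 cell_m_5_7)))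

theorem row_m_6 : Good 340282366920938463463374607431768211455 0 16384 57262 61399 0 33096 0 8192 14188 69632 0 16384 0 16384 :=
  (good_s2 (good_s2 (good_s2 cell_m_6_0 cell_m_6_1) (good_s2 cell_m_6_2 cell_m_6_3)) (good_s2 (good_s2 cell_m_6_4 cell_m_6_5) (good_s2 cell_m_6_6 cell_m_6_7)))

theorem row_m_7 : Good 340282366920938463463374607431768211455 0 16384 61399 65536 0 33096 0 8192 14188 69632 0 16384 0 16384 :=
  (good_s2 (good_s2 (good_s2 cell_m_7_0 cell_m_7_1) (good_s2 cell_m_7_2 cell_m_7_3)) (good_s2 (good_s2 cell_m_7_4 cell_m_7_5) (good_s2 cell_m_7_6 cell_m_7_7)))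

theorem row_m_8 : Good 340282366920938463463374607431768211455 0 16384 65536 69673 0 33096 0 8192 14188 69632 0 16384 0 16384 :=
  (good_s2 (good_s2 (good_s2 cell_m_8_0 cell_m_8_1) (good_s2 cell_m_8_2 cell_m_8_3)) (good_s2 (good_s2 cell_m_8_4 cell_m_8_5) (good_s2 cell_m_8_6 cell_m_8_7)))

theorem row_m_9 : Good 340282366920938463463374607431768211455 0 16384 69673 73810 0 33096 0 8192 14188 69632 0 16384 0 16384 :=
  (good_s2 (good_s2 (good_s2 cell_m_9_0 cell_m_9_1) (good_s2 cell_m_9_2 cell_m_9_3)) (good_s2 (good_s2 cell_m_9_4 cell_m_9_5) (good_s2 cell_m_9_6 cell_m_9_7)))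

theorem row_m_10 : Good 340282366920938463463374607431768211455 0 16384 73810 77947 0 33096 0 8192 14188 69632 0 16384 0 16384 :=
  (good_s2 (good_s2 (good_s2 cell_m_10_0 cell_m_10_1) (good_s2 cell_m_10_2 cell_m_10_3)) (good_s2 (good_s2 cell_m_10_4 cell_m_10_5) (good_s2 cell_m_10_6 cell_m_10_7)))

theorem row_m_11 : Good 340282366920938463463374607431768211455 0 16384 77947 82084 0 33096 0 8192 14188 69632 0 16384 0 16384 :=
  (good_s2 (good_s2 (good_s2 cell_m_11_0 cell_m_11_1) (good_s2 cell_m_11_2 cell_m_11_3)) (good_s2 (good_s2 cell_m_11_4 cell_m_11_5) (good_s2 cell_m_11_6 cell_m_11_7)))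

theorem row_m_12 : Good 340282366920938463463374607431768211455 0 16384 82084 86221 0 33096 0 8192 14188 69632 0 16384 0 16384 :=
  (good_s2 (good_s2 (good_s2 cell_m_12_0 cell_m_12_1) (good_s2 cell_m_12_2 cell_m_12_3)) (good_s2 (good_s2 cell_m_12_4 cell_m_12_5) (good_s2 cell_m_12_6 cell_m_12_7)))

theorem row_m_13 : Good 340282366920938463463374607431768211455 0 16384 86221 90358 0 33096 0 8192 14188 69632 0 16384 0 16384 :=
  (good_s2 (good_s2 (good_s2 cell_m_13_0 cell_m_13_1) (good_s2 cell_m_13_2 cell_m_13_3)) (good_s2 (good_s2 cell_m_13_4 cell_m_13_5) (good_s2 cell_m_13_6 cell_m_13_7)))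

theorem row_m_14 : Good 340282366920938463463374607431768211455 0 16384 90358 94495 0 33096 0 8192 14188 69632 0 16384 0 16384 :=
  (good_s2 (good_s2 (good_s2 cell_m_14_0 cell_m_14_1) (good_s2 cell_m_14_2 cell_m_14_3)) (good_s2 (good_s2 cell_m_14_4 cell_m_14_5) (good_s2 cell_m_14_6 cell_m_14_7)))

theorem row_m_15 : Good 340282366920938463463374607431768211455 0 16384 94495 98632 0 33096 0 8192 14188 69632 0 16384 0 16384 :=
  (good_s2 (good_s2 (good_s2 cell_m_15_0 cell_m_15_1) (good_s2 cell_m_15_2 cell_m_15_3)) (good_s2 (good_s2 cell_m_15_4 cell_m_15_5) (good_s2 cell_m_15_6 cell_m_15_7)))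

theorem root_m : Good 340282366920938463463374607431768211455 0 16384 32440 98632 0 33096 0 8192 14188 69632 0 16384 0 16384 :=
  (good_s1 (good_s1 (good_s1 (good_s1 row_m_0 row_m_1) (good_s1 row_m_2 row_m_3)) (good_s1 (good_s1 row_m_4 row_m_5) (good_s1 row_m_6 row_m_7))) (good_s1 (good_s1 (good_s1 row_m_8 row_m_9) (good_s1 row_m_10 row_m_11)) (good_s1 (good_s1 row_m_12 row_m_13) (good_s1 row_m_14 row_m_15))))

theorem mainStatement : MainStatement := by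
  intro om hom
  rcases hom with rfl | rfl
  · exact root_p
  · exact root_m

end Pool.Agent.Lib.MP_be9f18_nt
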