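import Pool.Agent.Lib.MP_be9f18_nt.Final

/-!
The value of the two-dimensional constant in explicit form: infinitely many solutions for all
pairs and all `c > 2/7`; finitely many solutions, for `c < 2/7`, for some pair that is linearly
independent together with `1` over the rationals (problem MP_be9f18_nt).
-/

set_option autoImplicit false

namespace Pool.Agent.Lib.MP_be9f18_nt

/-- Infinitely many solutions for every pair (rational or not) and every `c > 2/7`. -/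
theorem sol_infinite (main : MainStatement) (iso : IsoStatement) (ξ₁ ξ₂ c : ℝ) (hc : 2 / 7 < c) :
    (Sol ξ₁ ξ₂ c).Infinite := by
  by_cases hirr : Irrational ξ₁ ∨ Irrational ξ₂
  · have h1 : c2 ξ₁ ξ₂ < c := (c2_le main iso hirr).trans_lt hc
    rw [c2_eq] at h1
    have hne : {c : ℝ | 0 < c ∧ c ≤ 1 ∧ (Sol ξ₁ ξ₂ c).Infinite}.Nonempty :=
      ⟨1, one_pos, le_rfl, infinite_one ξ₁ ξ₂ hirr⟩
    obtain ⟨c', hc', hlt⟩ := exists_lt_of_csInf_lt hne h1
    exact hc'.2.2.mono (Sol.mono hlt.le)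
  · push Not at hirr
    obtain ⟨g1, g2⟩ := hirr
    unfold Irrational at g1 g2
    push Not at g1 g2
    obtain ⟨a, ha⟩ := g1
    obtain ⟨b, hb⟩ := g2
    have hda : (0 : ℤ) < a.den := by exact_mod_cast a.den_pos
    have hdb : (0 : ℤ) < b.den := by exact_mod_cast b.den_pos
    set f : ℕ → ℤ × ℤ × ℤ := fun k => (((k : ℤ) + 1) * (a.num * b.den),
      ((k : ℤ) + 1) * (b.num * a.den), ((k : ℤ) + 1) * ((a.den : ℤ) * b.den)) with hf
    have hinj : Function.Injective f := by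
      intro k l hkl
      have h3 : ((k : ℤ) + 1) * ((a.den : ℤ) * b.den) = ((l : ℤ) + 1) * ((a.den : ℤ) * b.den) :=
        congrArg (fun x => x.2.2) hkl
      have h4 := mul_right_cancel₀ (mul_pos hda hdb).ne' h3
      omega
    apply Set.infinite_of_injective_forall_mem hinj
    intro k
    have e1 : (a : ℝ) * a.den = a.num := by exact_mod_cast Rat.mul_den_eq_num a
    have e2 : (b : ℝ) * b.den = b.num := by exact_mod_cast Rat.mul_den_eq_num b
    refine ⟨mul_pos (by omega) (mul_pos hda hdb), ?_, ?_⟩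
    · have : ((((k : ℤ) + 1) * ((a.den : ℤ) * b.den) : ℤ) : ℝ) * ξ₁
          - ((((k : ℤ) + 1) * (a.num * b.den) : ℤ) : ℝ) = 0 := by
        rw [← ha]
        push_cast
        linear_combination ((k : ℝ) + 1) * b.den * e1
      simp only [hf]
      rw [this]
      norm_num
      linarith
    · have : ((((k : ℤ) + 1) * ((a.den : ℤ) * b.den) : ℤ) : ℝ) * ξ₂
          - ((((k : ℤ) + 1) * (b.num * a.den) : ℤ) : ℝ) = 0 := by
        rw [← hb]
        push_cast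
        linear_combination ((k : ℝ) + 1) * a.den * e2
      simp only [hf]
      rw [this]
      norm_num
      linarith

section Family

variable {t1 t2 t3 : ℝ} (h : Roots t1 t2 t3) (M C1 C2 : ℤ) (hM : 10 ≤ M)
  (A B C D Δ ξ₁ ξ₂ : ℝ)
  (hA : A = M + (t1 + t2) / 2) (hB : B = (t1 - t2) / 2)
  (hC : C = C1 + C2 * ((t1 + t2) / 2) - (t1 ^ 2 + t2 ^ 2) / 2)
  (hD : D = C2 * ((t1 - t2) / 2) - (t1 ^ 2 - t2 ^ 2) / 2)
  (hC1 : |C| ≤ 1) (hD1 : |D - M| ≤ 1) (hΔ : Δ = A * D - B * C)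
  (h₁ : ξ₁ = -D / Δ) (h₂ : ξ₂ = B / Δ)

/-- `k + m t₃ - n t₃² = 0` only for `k = m = n = 0`. -/
theorem Roots.indep {t1 t2 t3 : ℝ} (h : Roots t1 t2 t3) {k m n : ℤ} (h0 : yv t3 k m n = 0) :
    k = 0 ∧ m = 0 ∧ n = 0 := by
  by_contra hne
  have := h.one_le hne
  rw [h0, abs_zero, mul_zero] at this
  norm_num at this

include h hM hA hB hC hD hC1 hD1 hΔ h₁ h₂ in
theorem lin_indep (a b c : ℤ) (hab : (a : ℝ) + b * ξ₁ + c * ξ₂ = 0) : a = 0 ∧ b = 0 ∧ c = 0 := by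
  have hpos := Delta_pos h M hM A B C D Δ hA hB hC1 hD1 hΔ
  have hne := hpos.ne'
  have hB0 : B ≠ 0 := by
    rw [hB]; have := h.l1; have := h.u2
    intro h0; linarith
  -- clear denominators
  have q1 : a * Δ - b * D + c * B = 0 := by
    rw [h₁, h₂] at hab
    field_simp at hab
    linarith
  have e1 := h.e1
  have e3 : t1 * t2 = t3 ^ 2 + t3 - 2 := by
    have h2 := h.e2
    have h3 : t1 * t2 = -2 - t3 * (t1 + t2) := by linarith
    have h4 : t1 + t2 = -1 - t3 := by linarith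
    rw [h3, h4]; ring
  have hs : t1 + t2 = -1 - t3 := by linarith
  have hDB : D = B * (C2 + 1 + t3) := by
    rw [hD, hB]
    have : t1 ^ 2 - t2 ^ 2 = (t1 - t2) * (t1 + t2) := by ring
    rw [this, hs]; ring
  have hAt : A = M - (1 + t3) / 2 := by rw [hA, hs]; ring
  have hCt : C = C1 - C2 * ((1 + t3) / 2) + (t3 ^ 2 - 5) / 2 := by
    rw [hC]
    have : t1 ^ 2 + t2 ^ 2 = (t1 + t2) ^ 2 - 2 * (t1 * t2) := by ring
    rw [this, hs, e3]; ring
  have q2 : B * (a * (A * (C2 + 1 + t3) - C) - b * (C2 + 1 + t3) + c) = 0 := by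
    rw [hΔ, hDB] at q1
    linear_combination q1
  have q3 : (a : ℝ) * (A * (C2 + 1 + t3) - C) - b * (C2 + 1 + t3) + c = 0 := by
    rcases mul_eq_zero.mp q2 with h0 | h0
    · exact absurd h0 hB0
    · exact h0
  have q4 : yv t3 (a * (2 * M * C2 + 2 * M - C2 - 1 - 2 * C1 + C2 + 5) - b * (2 * C2 + 2) + 2 * c)
      (a * (2 * M - C2 - 1 - 1 + C2) - 2 * b) (2 * a) = 0 := by
    unfold yv
    push_cast
    rw [hAt, hCt] at q3
    linear_combination 2 * q3
  obtain ⟨r1, r2, r3⟩ := h.indep q4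
  have ha : a = 0 := by omega
  subst ha
  have hb : b = 0 := by omega
  subst hb
  refine ⟨rfl, rfl, ?_⟩
  omega

end Family

/-- For every `c < 2/7` there is a pair, linearly independent with `1`, with finitely many
solutions. -/
theorem sol_finite (c : ℝ) (hc : c < 2 / 7) : ∃ ξ₁ ξ₂ : ℝ,
    (∀ k l m : ℤ, (k : ℝ) + l * ξ₁ + m * ξ₂ = 0 → k = 0 ∧ l = 0 ∧ m = 0) ∧
    (Sol ξ₁ ξ₂ c).Finite := by
  set ε : ℝ := 2 / 7 - c with hε'
  have hε : 0 < ε := by rw [hε']; linarith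
  obtain ⟨t1, t2, t3, h⟩ := exists_roots
  obtain ⟨N, hN⟩ := exists_nat_gt (8 / ε)
  set M : ℤ := (N : ℤ) + 10 with hMdef
  have hM : 10 ≤ M := by omega
  have hM' : (10 : ℝ) ≤ M := by exact_mod_cast hM
  have hMε : 8 / ε < M := by
    rw [hMdef]; push_cast; linarith
  set B : ℝ := (t1 - t2) / 2 with hB
  have hB0 : 0 < B := by rw [hB]; have := h.l1; have := h.u2; linarith
  have hB1 : B ≤ 2 := by rw [hB]; have := h.u1; have := h.l2; linarith
  set C2 : ℤ := round (((M : ℝ) + (t1 ^ 2 - t2 ^ 2) / 2) / B) with hC2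
  set C1 : ℤ := round (-((C2 : ℝ) * ((t1 + t2) / 2)) + (t1 ^ 2 + t2 ^ 2) / 2) with hC1def
  set A : ℝ := M + (t1 + t2) / 2 with hA
  set C : ℝ := C1 + C2 * ((t1 + t2) / 2) - (t1 ^ 2 + t2 ^ 2) / 2 with hC
  set D : ℝ := C2 * ((t1 - t2) / 2) - (t1 ^ 2 - t2 ^ 2) / 2 with hD
  have hC1 : |C| ≤ 1 := by
    have := abs_sub_round (-((C2 : ℝ) * ((t1 + t2) / 2)) + (t1 ^ 2 + t2 ^ 2) / 2)
    rw [← hC1def, abs_le] at this
    rw [hC, abs_le]
    constructor <;> linarith [this.1, this.2]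
  have hD1 : |D - M| ≤ 1 := by
    have h1 := abs_sub_round (((M : ℝ) + (t1 ^ 2 - t2 ^ 2) / 2) / B)
    rw [← hC2] at h1
    have h2 : D - M = -((((M : ℝ) + (t1 ^ 2 - t2 ^ 2) / 2) / B - C2) * B) := by
      rw [hD, ← hB]
      field_simp
      ring
    rw [h2, abs_neg, abs_mul, abs_of_pos hB0]
    calc |((M : ℝ) + (t1 ^ 2 - t2 ^ 2) / 2) / B - C2| * B ≤ 1 / 2 * 2 := by gcongr
      _ = 1 := by norm_num
  set Δ : ℝ := A * D - B * C with hΔ
  have hge := c2_ge h M C1 C2 hM A B C D Δ (-D / Δ) (B / Δ) hA hB hC hD hC1 hD1 hΔ rfl rfl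
  have hli := lin_indep h M C1 C2 hM A B C D Δ (-D / Δ) (B / Δ) hA hB hC hD hC1 hD1 hΔ rfl rfl
  have hΔge := Delta_ge h M hM A B C D Δ hA hB hC1 hD1 hΔ
  have hR : (0 : ℝ) < ((M : ℝ) + 3) ^ 2 := by positivity
  have h8 : 8 < ε * M := by
    rw [div_lt_iff₀ hε] at hMε; linarith
  have h9 : 1 - ε < Δ / ((M : ℝ) + 3) ^ 2 := by
    rw [lt_div_iff₀ hR]
    nlinarith
  have h10 : c < c2 (-D / Δ) (B / Δ) := by
    refine lt_of_lt_of_le ?_ hge
    rw [hε'] at h9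
    linarith
  have hpos := Delta_pos h M hM A B C D Δ hA hB hC1 hD1 hΔ
  refine ⟨-D / Δ, B / Δ, hli, Sol.finite (lt_of_lt_of_le ?_ hge) h10⟩
  positivity

end Pool.Agent.Lib.MP_be9f18_nt
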