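import Pool.Agent.Lib.MP_be9f18_nt.Iso
import Pool.Agent.Lib.MP_be9f18_nt.Lower

/-!
Module Z: an accepted parameter point gives a matrix in the fat region.
-/

set_option autoImplicit false

namespace Pool.Agent.Lib.MP_be9f18_nt
namespace Z

/-! ### Numerical values of the roots -/

theorem t1_num {t1 t2 t3 : ℝ} (R : Roots t1 t2 t3) : |t1 - 1.24698| ≤ 1 / 1000000 := by
  have h1 := R.r1; have h2 := R.l1; have h3 := R.u1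
  have key : (t1 - 1.24698) * (t1 ^ 2 + t1 * 1.24698 + 1.24698 ^ 2 + t1 + 1.24698 - 2)
      = -(1.24698 ^ 3 + 1.24698 ^ 2 - 2 * 1.24698 - 1) := by linear_combination h1
  have hq : 5 ≤ t1 ^ 2 + t1 * 1.24698 + 1.24698 ^ 2 + t1 + 1.24698 - 2 := by
    norm_num at h2 ⊢
    nlinarith
  set q := t1 ^ 2 + t1 * 1.24698 + 1.24698 ^ 2 + t1 + 1.24698 - 2 with hqdef
  rw [abs_le]
  constructor
  · by_contra hc
    push Not at hc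
    norm_num at key hc
    nlinarith
  · by_contra hc
    push Not at hc
    norm_num at key hc
    nlinarith

theorem t2_num {t1 t2 t3 : ℝ} (R : Roots t1 t2 t3) : |t2 + 1.801938| ≤ 1 / 1000000 := by
  have h1 := R.r2; have h2 := R.l2; have h3 := R.u2
  have key : (t2 + 1.801938) * (t2 ^ 2 - t2 * 1.801938 + 1.801938 ^ 2 + t2 - 1.801938 - 2)
      = -(-1.801938 ^ 3 + 1.801938 ^ 2 + 2 * 1.801938 - 1) := by linear_combination h1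
  have hq : 4 ≤ t2 ^ 2 - t2 * 1.801938 + 1.801938 ^ 2 + t2 - 1.801938 - 2 := by
    norm_num at h2 h3 ⊢
    nlinarith
  set q := t2 ^ 2 - t2 * 1.801938 + 1.801938 ^ 2 + t2 - 1.801938 - 2 with hqdef
  rw [abs_le]
  constructor
  · by_contra hc
    push Not at hc
    norm_num at key hc
    nlinarith
  · by_contra hc
    push Not at hc
    norm_num at key hc
    nlinarith

theorem t3_num {t1 t2 t3 : ℝ} (R : Roots t1 t2 t3) : |t3 + 0.445042| ≤ 2 / 1000000 := by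
  have h1 := t1_num R; have h2 := t2_num R; have h3 := R.e1
  rw [abs_le] at h1 h2 ⊢
  norm_num at h1 h2 ⊢
  constructor <;> linarith [h1.1, h1.2, h2.1, h2.2]

/-- entries of the inverse of `R*` -/
noncomputable def uA (t1 t2 : ℝ) : ℝ := -(t1 ^ 2 - t2 ^ 2) / 2 * (2 / 7)
noncomputable def vA (t1 t2 t3 : ℝ) : ℝ := (-t3 ^ 2 + (t1 ^ 2 + t2 ^ 2) / 2) * (2 / 7)
noncomputable def uB (t1 t2 : ℝ) : ℝ := -((t1 - t2) / 2) * (2 / 7)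
noncomputable def vB (t1 t2 t3 : ℝ) : ℝ := ((t1 + t2) / 2 - t3) * (2 / 7)
noncomputable def XA (t1 t2 : ℝ) : ℝ := (t1 + t2) / 2
noncomputable def XB (t1 t2 : ℝ) : ℝ := -(t1 ^ 2 + t2 ^ 2) / 2

theorem sq_num {t c ε M : ℝ} (h : |t - c| ≤ ε) (hM : |t + c| ≤ M) : |t ^ 2 - c ^ 2| ≤ M * ε := by
  have e : t ^ 2 - c ^ 2 = (t + c) * (t - c) := by ring
  rw [e, abs_mul]
  exact mul_le_mul hM h (abs_nonneg _) ((abs_nonneg _).trans hM)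

/-- all the numerical values -/
theorem nums {t1 t2 t3 : ℝ} (R : Roots t1 t2 t3) :
    |uA t1 t2 - 0.24172| ≤ 1 / 100000 ∧ |vA t1 t2 t3 - 0.62940| ≤ 1 / 100000 ∧
    |uB t1 t2 + 0.43556| ≤ 1 / 100000 ∧ |vB t1 t2 t3 - 0.04788| ≤ 1 / 100000 ∧
    |XA t1 t2 + 0.27748| ≤ 1 / 100000 ∧ |XB t1 t2 + 2.40097| ≤ 1 / 100000 ∧
    |t3 + 0.44504| ≤ 1 / 100000 ∧ |-t3 ^ 2 + 0.19806| ≤ 1 / 100000 := by
  have h1 := t1_num R
  have h2 := t2_num R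
  have h3 := t3_num R
  have q1 : |t1 ^ 2 - 1.24698 ^ 2| ≤ 3 * (1 / 1000000) := by
    apply sq_num h1
    rw [abs_le] at h1 ⊢
    norm_num at h1 ⊢
    constructor <;> linarith [h1.1, h1.2]
  have q2 : |t2 ^ 2 - (-1.801938) ^ 2| ≤ 4 * (1 / 1000000) := by
    have h2' : |t2 - (-1.801938)| ≤ 1 / 1000000 := by
      convert h2 using 2; ring
    apply sq_num h2'
    rw [abs_le] at h2 ⊢
    norm_num at h2 ⊢
    constructor <;> linarith [h2.1, h2.2]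
  have q3 : |t3 ^ 2 - (-0.445042) ^ 2| ≤ 1 * (2 / 1000000) := by
    have h3' : |t3 - (-0.445042)| ≤ 2 / 1000000 := by
      convert h3 using 2; ring
    apply sq_num h3'
    rw [abs_le] at h3 ⊢
    norm_num at h3 ⊢
    constructor <;> linarith [h3.1, h3.2]
  unfold uA vA uB vB XA XB
  rw [abs_le] at h1 h2 h3 q1 q2 q3
  norm_num at h1 h2 h3 q1 q2 q3
  obtain ⟨a1, b1⟩ := h1
  obtain ⟨a2, b2⟩ := h2
  obtain ⟨a3, b3⟩ := h3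
  obtain ⟨c1, d1⟩ := q1
  obtain ⟨c2, d2⟩ := q2
  obtain ⟨c3, d3⟩ := q3
  refine ⟨?_, ?_, ?_, ?_, ?_, ?_, ?_, ?_⟩ <;> rw [abs_le] <;> norm_num <;>
    constructor <;> linarith

theorem mulap {α α' u u' : ℝ} (h1 : |α - α'| ≤ 1 / 100000) (h2 : |u - u'| ≤ 1 / 100000)
    (h3 : |α'| ≤ 8) (h4 : |u| ≤ 1) : |α * u - α' * u'| ≤ 9 / 100000 := by
  have e : α * u - α' * u' = (α - α') * u + α' * (u - u') := by ring
  rw [e]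
  refine (abs_add_le _ _).trans ?_
  rw [abs_mul, abs_mul]
  have h5 : |α - α'| * |u| ≤ 1 / 100000 * 1 := mul_le_mul h1 h4 (abs_nonneg _) (by norm_num)
  have h6 : |α'| * |u - u'| ≤ 8 * (1 / 100000) := mul_le_mul h3 h2 (abs_nonneg _) (by norm_num)
  linarith

theorem mulap2 {α α' u u' β β' v v' : ℝ}
    (h1 : |α - α'| ≤ 1 / 100000) (h2 : |u - u'| ≤ 1 / 100000)
    (h3 : |α'| ≤ 8) (h4 : |u| ≤ 1)
    (g1 : |β - β'| ≤ 1 / 100000) (g2 : |v - v'| ≤ 1 / 100000)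
    (g3 : |β'| ≤ 8) (g4 : |v| ≤ 1) :
    |(α * u + β * v) - (α' * u' + β' * v')| ≤ 18 / 100000 := by
  have a := abs_le.mp (mulap h1 h2 h3 h4)
  have b := abs_le.mp (mulap g1 g2 g3 g4)
  rw [abs_le]
  constructor <;> linarith [a.1, a.2, b.1, b.2]

/-! ### The matrix -/

section
variable (t1 t2 t3 P2 A1 A2 A3 B1 B2 B3 : ℝ)

noncomputable def mb : ℝ := (A1 - XA t1 t2) * vA t1 t2 t3 + (B1 - XB t1 t2) * vB t1 t2 t3
noncomputable def mf : ℝ := -((A1 - XA t1 t2) * uA t1 t2 + (B1 - XB t1 t2) * uB t1 t2)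
noncomputable def mg : ℝ :=
  -((A2 - P2 * XA t1 t2) * uA t1 t2 + (B2 - P2 * XB t1 t2) * uB t1 t2)
noncomputable def md : ℝ :=
  (A2 - P2 * XA t1 t2) * vA t1 t2 t3 + (B2 - P2 * XB t1 t2) * vB t1 t2 t3
noncomputable def mh : ℝ := (A3 - t3) * uA t1 t2 + (B3 - (-t3 ^ 2)) * uB t1 t2
noncomputable def ml : ℝ := (A3 - t3) * vA t1 t2 t3 + (B3 - (-t3 ^ 2)) * vB t1 t2 t3
end

/-- the approximate matrix entries are in the (slightly smaller) fat region -/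
def Num (P2 A1 A2 A3 B1 B2 B3 : ℝ) : Prop :=
  (-0.3498 ≤ (A1 + 0.27748) * 0.62940 + (B1 + 2.40097) * 0.04788 ∧
    (A1 + 0.27748) * 0.62940 + (B1 + 2.40097) * 0.04788 ≤ 0.3698) ∧
  (-0.4498 ≤ (A1 + 0.27748) * 0.24172 + (B1 + 2.40097) * (-0.43556) ∧
    (A1 + 0.27748) * 0.24172 + (B1 + 2.40097) * (-0.43556) ≤ 0.5998) ∧
  (-0.7498 ≤ P2 + ((A2 + P2 * 0.27748) * 0.24172 + (B2 + P2 * 2.40097) * (-0.43556)) ∧
    P2 + ((A2 + P2 * 0.27748) * 0.24172 + (B2 + P2 * 2.40097) * (-0.43556)) ≤ 0.7998) ∧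
  (0.8002 ≤ (A2 + P2 * 0.27748) * 0.62940 + (B2 + P2 * 2.40097) * 0.04788 ∧
    (A2 + P2 * 0.27748) * 0.62940 + (B2 + P2 * 2.40097) * 0.04788 ≤ 1.2598) ∧
  (-0.8398 ≤ (A2 + P2 * 0.27748) * 0.24172 + (B2 + P2 * 2.40097) * (-0.43556) ∧
    (A2 + P2 * 0.27748) * 0.24172 + (B2 + P2 * 2.40097) * (-0.43556) ≤ 0.7998) ∧
  (-0.0298 ≤ (A3 + 0.44504) * 0.24172 + (B3 + 0.19806) * (-0.43556) ∧
    (A3 + 0.44504) * 0.24172 + (B3 + 0.19806) * (-0.43556) ≤ 0.0298) ∧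
  (-0.0298 ≤ (A3 + 0.44504) * 0.62940 + (B3 + 0.19806) * 0.04788 ∧
    (A3 + 0.44504) * 0.62940 + (B3 + 0.19806) * 0.04788 ≤ 0.0298)

theorem fat_of {t1 t2 t3 : ℝ} (R : Roots t1 t2 t3) {P2 A1 A2 A3 B1 B2 B3 : ℝ}
    (hP : |P2| ≤ 1) (hA1 : |A1| ≤ 5) (hA2 : |A2| ≤ 5) (hA3 : |A3| ≤ 5)
    (hB1 : |B1| ≤ 5) (hB2 : |B2| ≤ 5) (hB3 : |B3| ≤ 5)
    (hN : Num P2 A1 A2 A3 B1 B2 B3) :
    Fat (mb t1 t2 t3 A1 B1) (mf t1 t2 A1 B1) (P2 - mg t1 t2 P2 A2 B2) (md t1 t2 t3 P2 A2 B2)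
      (mg t1 t2 P2 A2 B2) (mh t1 t2 t3 A3 B3) (ml t1 t2 t3 A3 B3) := by
  obtain ⟨n1, n2, n3, n4, n5, n6, n7, n8⟩ := nums R
  have u1 : |uA t1 t2| ≤ 1 := by
    rw [abs_le] at n1 ⊢; norm_num at n1 ⊢; constructor <;> linarith [n1.1, n1.2]
  have u2 : |vA t1 t2 t3| ≤ 1 := by
    rw [abs_le] at n2 ⊢; norm_num at n2 ⊢; constructor <;> linarith [n2.1, n2.2]
  have u3 : |uB t1 t2| ≤ 1 := by
    rw [abs_le] at n3 ⊢; norm_num at n3 ⊢; constructor <;> linarith [n3.1, n3.2]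
  have u4 : |vB t1 t2 t3| ≤ 1 := by
    rw [abs_le] at n4 ⊢; norm_num at n4 ⊢; constructor <;> linarith [n4.1, n4.2]
  have n3' : |uB t1 t2 - (-0.43556)| ≤ 1 / 100000 := by convert n3 using 2; ring
  -- deviations
  have a1 : |(A1 - XA t1 t2) - (A1 + 0.27748)| ≤ 1 / 100000 := by
    rw [show (A1 - XA t1 t2) - (A1 + 0.27748) = -(XA t1 t2 + 0.27748) by ring, abs_neg]; exact n5
  have b1 : |(B1 - XB t1 t2) - (B1 + 2.40097)| ≤ 1 / 100000 := by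
    rw [show (B1 - XB t1 t2) - (B1 + 2.40097) = -(XB t1 t2 + 2.40097) by ring, abs_neg]; exact n6
  have a2 : |(A2 - P2 * XA t1 t2) - (A2 + P2 * 0.27748)| ≤ 1 / 100000 := by
    rw [show (A2 - P2 * XA t1 t2) - (A2 + P2 * 0.27748) = -(P2 * (XA t1 t2 + 0.27748)) by ring,
      abs_neg, abs_mul]
    calc |P2| * |XA t1 t2 + 0.27748| ≤ 1 * (1 / 100000) :=
          mul_le_mul hP n5 (abs_nonneg _) (by norm_num)
      _ = 1 / 100000 := one_mul _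
  have b2 : |(B2 - P2 * XB t1 t2) - (B2 + P2 * 2.40097)| ≤ 1 / 100000 := by
    rw [show (B2 - P2 * XB t1 t2) - (B2 + P2 * 2.40097) = -(P2 * (XB t1 t2 + 2.40097)) by ring,
      abs_neg, abs_mul]
    calc |P2| * |XB t1 t2 + 2.40097| ≤ 1 * (1 / 100000) :=
          mul_le_mul hP n6 (abs_nonneg _) (by norm_num)
      _ = 1 / 100000 := one_mul _
  have a3 : |(A3 - t3) - (A3 + 0.44504)| ≤ 1 / 100000 := by
    rw [show (A3 - t3) - (A3 + 0.44504) = -(t3 + 0.44504) by ring, abs_neg]; exact n7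
  have b3 : |(B3 - (-t3 ^ 2)) - (B3 + 0.19806)| ≤ 1 / 100000 := by
    rw [show (B3 - (-t3 ^ 2)) - (B3 + 0.19806) = -(-t3 ^ 2 + 0.19806) by ring, abs_neg]; exact n8
  have hP' := abs_le.mp hP
  have c1 : |A1 + 0.27748| ≤ 8 := by
    rw [abs_le] at hA1 ⊢; norm_num; constructor <;> linarith [hA1.1, hA1.2]
  have c2 : |B1 + 2.40097| ≤ 8 := by
    rw [abs_le] at hB1 ⊢; norm_num; constructor <;> linarith [hB1.1, hB1.2]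
  have c3 : |A2 + P2 * 0.27748| ≤ 8 := by
    rw [abs_le] at hA2 ⊢; norm_num; constructor <;> linarith [hA2.1, hA2.2, hP'.1, hP'.2]
  have c4 : |B2 + P2 * 2.40097| ≤ 8 := by
    rw [abs_le] at hB2 ⊢; norm_num; constructor <;> linarith [hB2.1, hB2.2, hP'.1, hP'.2]
  have c5 : |A3 + 0.44504| ≤ 8 := by
    rw [abs_le] at hA3 ⊢; norm_num; constructor <;> linarith [hA3.1, hA3.2]
  have c6 : |B3 + 0.19806| ≤ 8 := by
    rw [abs_le] at hB3 ⊢; norm_num; constructor <;> linarith [hB3.1, hB3.2]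
  have e1 := abs_le.mp (mulap2 a1 n2 c1 u2 b1 n4 c2 u4)
  have e2 := abs_le.mp (mulap2 a1 n1 c1 u1 b1 n3' c2 u3)
  have e3 := abs_le.mp (mulap2 a2 n2 c3 u2 b2 n4 c4 u4)
  have e4 := abs_le.mp (mulap2 a2 n1 c3 u1 b2 n3' c4 u3)
  have e5 := abs_le.mp (mulap2 a3 n2 c5 u2 b3 n4 c6 u4)
  have e6 := abs_le.mp (mulap2 a3 n1 c5 u1 b3 n3' c6 u3)
  obtain ⟨m1, m2, m3, m4, m5, m6, m7⟩ := hN
  unfold Fat mb mf mg md mh ml
  norm_num at m1 m2 m3 m4 m5 m6 m7 e1 e2 e3 e4 e5 e6 ⊢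
  obtain ⟨x1, y1⟩ := e1
  obtain ⟨x2, y2⟩ := e2
  obtain ⟨x3, y3⟩ := e3
  obtain ⟨x4, y4⟩ := e4
  obtain ⟨x5, y5⟩ := e5
  obtain ⟨x6, y6⟩ := e6
  obtain ⟨z1, w1⟩ := m1
  obtain ⟨z2, w2⟩ := m2
  obtain ⟨z3, w3⟩ := m3
  obtain ⟨z4, w4⟩ := m4
  obtain ⟨z5, w5⟩ := m5
  obtain ⟨z6, w6⟩ := m6
  obtain ⟨z7, w7⟩ := m7
  refine ⟨⟨?_, ?_⟩, ⟨?_, ?_⟩, ⟨?_, ?_⟩, ⟨?_, ?_⟩, ⟨?_, ?_⟩, ⟨?_, ?_⟩, ⟨?_, ?_⟩⟩ <;> linarith

/-! ### The image lattice -/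

theorem half_vander {t1 t2 t3 : ℝ} (R : Roots t1 t2 t3) :
    (-(t1 ^ 2 - t2 ^ 2) / 2) * ((t1 + t2) / 2 - t3)
      + (-t3 ^ 2 + (t1 ^ 2 + t2 ^ 2) / 2) * ((t1 - t2) / 2) = 7 / 2 := by
  have h := R.vandermonde
  linear_combination (-1 / 2) * h

theorem relA {t1 t2 t3 : ℝ} (R : Roots t1 t2 t3) (k m n : ℤ) :
    uA t1 t2 * ((yv t1 k m n + yv t2 k m n) / 2 - yv t3 k m n)
      + vA t1 t2 t3 * ((yv t1 k m n - yv t2 k m n) / 2) = m := by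
  have h := half_vander R
  unfold uA vA yv
  linear_combination (2 / 7 * (m : ℝ)) * h

theorem relB {t1 t2 t3 : ℝ} (R : Roots t1 t2 t3) (k m n : ℤ) :
    uB t1 t2 * ((yv t1 k m n + yv t2 k m n) / 2 - yv t3 k m n)
      + vB t1 t2 t3 * ((yv t1 k m n - yv t2 k m n) / 2) = n := by
  have h := half_vander R
  unfold uB vB yv
  linear_combination (2 / 7 * (n : ℝ)) * h

theorem row1 {t1 t2 t3 : ℝ} (R : Roots t1 t2 t3) (A1 B1 : ℝ) (k m n : ℤ) :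
    (1 - mf t1 t2 A1 B1) * ((yv t1 k m n + yv t2 k m n) / 2)
      + mb t1 t2 t3 A1 B1 * ((yv t1 k m n - yv t2 k m n) / 2)
      + mf t1 t2 A1 B1 * yv t3 k m n = k + m * A1 + n * B1 := by
  have hA := relA R k m n
  have hB := relB R k m n
  have hX : (yv t1 k m n + yv t2 k m n) / 2 = k + m * XA t1 t2 + n * XB t1 t2 := by
    unfold yv XA XB; ring
  unfold mf mb
  linear_combination (A1 - XA t1 t2) * hA + (B1 - XB t1 t2) * hB + hX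

theorem row2 {t1 t2 t3 : ℝ} (R : Roots t1 t2 t3) (P2 A2 B2 : ℝ) (k m n : ℤ) :
    (P2 - mg t1 t2 P2 A2 B2) * ((yv t1 k m n + yv t2 k m n) / 2)
      + md t1 t2 t3 P2 A2 B2 * ((yv t1 k m n - yv t2 k m n) / 2)
      + mg t1 t2 P2 A2 B2 * yv t3 k m n = k * P2 + m * A2 + n * B2 := by
  have hA := relA R k m n
  have hB := relB R k m n
  have hX : (yv t1 k m n + yv t2 k m n) / 2 = k + m * XA t1 t2 + n * XB t1 t2 := by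
    unfold yv XA XB; ring
  unfold mg md
  linear_combination (A2 - P2 * XA t1 t2) * hA + (B2 - P2 * XB t1 t2) * hB + P2 * hX

theorem row3 {t1 t2 t3 : ℝ} (R : Roots t1 t2 t3) (A3 B3 : ℝ) (k m n : ℤ) :
    mh t1 t2 t3 A3 B3 * ((yv t1 k m n + yv t2 k m n) / 2)
      + ml t1 t2 t3 A3 B3 * ((yv t1 k m n - yv t2 k m n) / 2)
      + (1 - mh t1 t2 t3 A3 B3) * yv t3 k m n = k + m * A3 + n * B3 := by
  have hA := relA R k m n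
  have hB := relB R k m n
  have hX : yv t3 k m n = k + m * t3 + n * (-t3 ^ 2) := by
    unfold yv; ring
  unfold mh ml
  linear_combination (A3 - t3) * hA + (B3 - (-t3 ^ 2)) * hB + hX

theorem admT_of {t1 t2 t3 : ℝ} (R : Roots t1 t2 t3) {P2 A1 A2 A3 B1 B2 B3 : ℝ}
    (h : ∀ k m n : ℤ, ¬(k = 0 ∧ m = 0 ∧ n = 0) →
      1 ≤ G (k + m * A1 + n * B1) (k * P2 + m * A2 + n * B2) (k + m * A3 + n * B3)) :
    AdmT t1 t2 t3 (1 - mf t1 t2 A1 B1) (mb t1 t2 t3 A1 B1) (mf t1 t2 A1 B1)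
      (P2 - mg t1 t2 P2 A2 B2) (md t1 t2 t3 P2 A2 B2) (mg t1 t2 P2 A2 B2)
      (mh t1 t2 t3 A3 B3) (ml t1 t2 t3 A3 B3) (1 - mh t1 t2 t3 A3 B3) := by
  intro k m n hk
  unfold GT
  rw [row1 R, row2 R, row3 R]
  exact h k m n hk

/-- determinant -/
theorem detT_of {t1 t2 t3 : ℝ} (R : Roots t1 t2 t3) (P2 A1 A2 A3 B1 B2 B3 : ℝ) :
    detT (1 - mf t1 t2 A1 B1) (mb t1 t2 t3 A1 B1) (mf t1 t2 A1 B1)
      (P2 - mg t1 t2 P2 A2 B2) (md t1 t2 t3 P2 A2 B2) (mg t1 t2 P2 A2 B2)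
      (mh t1 t2 t3 A3 B3) (ml t1 t2 t3 A3 B3) (1 - mh t1 t2 t3 A3 B3) * (7 / 2)
      = (A2 * B3 - A3 * B2) - A1 * (P2 * B3 - B2) + B1 * (P2 * A3 - A2) := by
  have r1 := row1 R A1 B1
  have r2 := row2 R P2 A2 B2
  have r3 := row3 R A3 B3
  have p1 := r1 1 0 0
  have q1 := r1 0 1 0
  have s1 := r1 0 0 1
  have p2 := r2 1 0 0
  have q2 := r2 0 1 0
  have s2 := r2 0 0 1
  have p3 := r3 1 0 0
  have q3 := r3 0 1 0
  have s3 := r3 0 0 1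
  have hv := half_vander R
  generalize mf t1 t2 A1 B1 = f at *
  generalize mb t1 t2 t3 A1 B1 = b at *
  generalize mg t1 t2 P2 A2 B2 = g at *
  generalize md t1 t2 t3 P2 A2 B2 = d at *
  generalize mh t1 t2 t3 A3 B3 = h at *
  generalize ml t1 t2 t3 A3 B3 = l at *
  unfold yv at p1 q1 s1 p2 q2 s2 p3 q3 s3
  push_cast at p1 q1 s1 p2 q2 s2 p3 q3 s3
  have q1' : A1 = (1 - f) * ((t1 + t2) / 2) + b * ((t1 - t2) / 2) + f * t3 := by linarith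
  have s1' : B1 = (1 - f) * (-(t1 ^ 2 + t2 ^ 2) / 2) + b * (-(t1 ^ 2 - t2 ^ 2) / 2)
      + f * (-t3 ^ 2) := by linarith
  have q2' : A2 = (P2 - g) * ((t1 + t2) / 2) + d * ((t1 - t2) / 2) + g * t3 := by linarith
  have s2' : B2 = (P2 - g) * (-(t1 ^ 2 + t2 ^ 2) / 2) + d * (-(t1 ^ 2 - t2 ^ 2) / 2)
      + g * (-t3 ^ 2) := by linarith
  have q3' : A3 = h * ((t1 + t2) / 2) + l * ((t1 - t2) / 2) + (1 - h) * t3 := by linarith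
  have s3' : B3 = h * (-(t1 ^ 2 + t2 ^ 2) / 2) + l * (-(t1 ^ 2 - t2 ^ 2) / 2)
      + (1 - h) * (-t3 ^ 2) := by linarith
  rw [q1', s1', q2', s2', q3', s3', ← hv]
  unfold detT
  ring

/-! ### The six accepted boxes -/

theorem G_eq {a b c a' b' c' : ℝ} (h1 : a = a') (h2 : b ^ 2 = b' ^ 2) (h3 : c = c') :
    G a b c = G a' b' c' := by
  unfold G
  rw [h1, h2, h3]

/-- McCormick inequalities -/
theorem mc {x a xl xh al ah : ℝ} (h1 : xl ≤ x) (h2 : x ≤ xh) (h3 : al ≤ a) (h4 : a ≤ ah) :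
    0 ≤ (x - xl) * (a - al) ∧ 0 ≤ (xh - x) * (ah - a) ∧ 0 ≤ (x - xl) * (ah - a) ∧
      0 ≤ (xh - x) * (a - al) :=
  ⟨mul_nonneg (by linarith) (by linarith), mul_nonneg (by linarith) (by linarith),
    mul_nonneg (by linarith) (by linarith), mul_nonneg (by linarith) (by linarith)⟩

/-- A box in real coordinates. -/
def RB (pl ph al ah bl bh xl xh el eh sl sh tl th p a1 a2 x e s t : ℝ) : Prop :=
  (pl ≤ p ∧ p ≤ ph) ∧ (al ≤ a1 ∧ a1 ≤ ah) ∧ (bl ≤ a2 ∧ a2 ≤ bh) ∧ (xl ≤ x ∧ x ≤ xh) ∧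
  (el ≤ e ∧ e ≤ eh) ∧ (sl ≤ s ∧ s ≤ sh) ∧ (tl ≤ t ∧ t ≤ th)

/-- The products appearing in the matrix entries. -/
theorem prods {pl ph al ah bl bh xl xh el eh sl sh tl th p a1 a2 x e s t : ℝ}
    (h : RB pl ph al ah bl bh xl xh el eh sl sh tl th p a1 a2 x e s t) :
    (0 ≤ (x - xl) * (a1 - al) ∧ 0 ≤ (xh - x) * (ah - a1) ∧ 0 ≤ (x - xl) * (ah - a1) ∧
      0 ≤ (xh - x) * (a1 - al)) ∧
    (0 ≤ (x - xl) * (a2 - bl) ∧ 0 ≤ (xh - x) * (bh - a2) ∧ 0 ≤ (x - xl) * (bh - a2) ∧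
      0 ≤ (xh - x) * (a2 - bl)) ∧
    (0 ≤ (e - el) * (a1 - al) ∧ 0 ≤ (eh - e) * (ah - a1) ∧ 0 ≤ (e - el) * (ah - a1) ∧
      0 ≤ (eh - e) * (a1 - al)) ∧
    (0 ≤ (e - el) * (a2 - bl) ∧ 0 ≤ (eh - e) * (bh - a2) ∧ 0 ≤ (e - el) * (bh - a2) ∧
      0 ≤ (eh - e) * (a2 - bl)) ∧
    (0 ≤ (p - pl) * (s - sl) ∧ 0 ≤ (ph - p) * (sh - s) ∧ 0 ≤ (p - pl) * (sh - s) ∧
      0 ≤ (ph - p) * (s - sl)) ∧
    (0 ≤ (p - pl) * (t - tl) ∧ 0 ≤ (ph - p) * (th - t) ∧ 0 ≤ (p - pl) * (th - t) ∧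
      0 ≤ (ph - p) * (t - tl)) := by
  obtain ⟨⟨h0, k0⟩, ⟨h1, k1⟩, ⟨h2, k2⟩, ⟨h3, k3⟩, ⟨h4, k4⟩, ⟨h5, k5⟩, ⟨h6, k6⟩⟩ := h
  exact ⟨mc h3 k3 h1 k1, mc h3 k3 h2 k2, mc h4 k4 h1 k1, mc h4 k4 h2 k2, mc h0 k0 h5 k5,
    mc h0 k0 h6 k6⟩

theorem rb1 {p a1 a2 x e s t : ℝ}
    (h : InBox 0 6144 62464 75776 22528 28672 0 8192 18432 27648 256 1536 4352 5632 p a1 a2 x e s t) :
    RB 0 (3 / 8) (-3 / 16) (5 / 8) (11 / 8) (7 / 4) 0 (1 / 2) (9 / 8) (27 / 16) (-31 / 64) (-13 / 32) (-15 / 64) (-5 / 32)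
      p a1 a2 x e s t := by
  obtain ⟨h0, k0, h1, k1, h2, k2, h3, k3, h4, k4, h5, k5, h6, k6⟩ := h
  norm_num at h0 k0 h1 k1 h2 k2 h3 k3 h4 k4 h5 k5 h6 k6
  unfold RB
  refine ⟨⟨?_, ?_⟩, ⟨?_, ?_⟩, ⟨?_, ?_⟩, ⟨?_, ?_⟩, ⟨?_, ?_⟩, ⟨?_, ?_⟩, ⟨?_, ?_⟩⟩ <;> linarith

theorem num1 {p a1 a2 x e s t : ℝ}
    (h : RB 0 (3 / 8) (-3 / 16) (5 / 8) (11 / 8) (7 / 4) 0 (1 / 2) (9 / 8) (27 / 16) (-31 / 64) (-13 / 32) (-15 / 64) (-5 / 32)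
      p a1 a2 x e s t) :
    Num p (s + a1) (p * s + a2) s
      (t + x * a1 - e * a2) (p * t + x * a2 + e * a1) t := by
  obtain ⟨q1, q2, q3, q4, q5, q6⟩ := prods h
  obtain ⟨q11, q12, q13, q14⟩ := q1
  obtain ⟨q21, q22, q23, q24⟩ := q2
  obtain ⟨q31, q32, q33, q34⟩ := q3
  obtain ⟨q41, q42, q43, q44⟩ := q4
  obtain ⟨q51, q52, q53, q54⟩ := q5
  obtain ⟨q61, q62, q63, q64⟩ := q6
  obtain ⟨⟨h0, k0⟩, ⟨h1, k1⟩, ⟨h2, k2⟩, ⟨h3, k3⟩, ⟨h4, k4⟩, ⟨h5, k5⟩, ⟨h6, k6⟩⟩ := h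
  unfold Num
  norm_num
  refine ⟨⟨?_, ?_⟩, ⟨?_, ?_⟩, ⟨?_, ?_⟩, ⟨?_, ?_⟩, ⟨?_, ?_⟩, ⟨?_, ?_⟩, ⟨?_, ?_⟩⟩ <;> linarith

theorem case1 {t1 t2 t3 : ℝ} (R : Roots t1 t2 t3) {p a1 a2 x e s t : ℝ}
    (hA : Adm p a1 a2 x e s t) (hd : e * (a1 ^ 2 + a2 ^ 2) < 7 / 2)
    (hb : InBox 0 6144 62464 75776 22528 28672 0 8192 18432 27648 256 1536 4352 5632 p a1 a2 x e s t) :
    ∃ b f e' d g h l : ℝ, Fat b f e' d g h l ∧
        AdmT t1 t2 t3 (1 - f) b f e' d g h l (1 - h) ∧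
        detT (1 - f) b f e' d g h l (1 - h) < 1 := by
  have hr := rb1 hb
  have hN := num1 hr
  obtain ⟨q1, q2, q3, q4, q5, q6⟩ := prods hr
  obtain ⟨q11, q12, q13, q14⟩ := q1
  obtain ⟨q21, q22, q23, q24⟩ := q2
  obtain ⟨q31, q32, q33, q34⟩ := q3
  obtain ⟨q41, q42, q43, q44⟩ := q4
  obtain ⟨q51, q52, q53, q54⟩ := q5
  obtain ⟨q61, q62, q63, q64⟩ := q6
  obtain ⟨⟨h0, k0⟩, ⟨h1, k1⟩, ⟨h2, k2⟩, ⟨h3, k3⟩, ⟨h4, k4⟩, ⟨h5, k5⟩, ⟨h6, k6⟩⟩ := hr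
  refine ⟨_, _, _, _, _, _, _, fat_of R (P2 := p) (A1 := (s + a1)) (A2 := (p * s + a2))
    (A3 := s) (B1 := (t + x * a1 - e * a2)) (B2 := (p * t + x * a2 + e * a1))
    (B3 := t) ?_ ?_ ?_ ?_ ?_ ?_ ?_ hN, admT_of R ?_, ?_⟩
  · rw [abs_le]; constructor <;> linarith
  · rw [abs_le]; constructor <;> linarith
  · rw [abs_le]; constructor <;> linarith
  · rw [abs_le]; constructor <;> linarith
  · rw [abs_le]; constructor <;> linarith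
  · rw [abs_le]; constructor <;> linarith
  · rw [abs_le]; constructor <;> linarith
  · intro k m n hk
    have hF := hA.2.2.2.2.2.2.2.2 k m n (by omega)
    unfold F at hF
    push_cast at hF
    refine hF.trans_eq (G_eq ?_ ?_ ?_) <;> ring
  · have hD := detT_of R p (s + a1) (p * s + a2) s
      (t + x * a1 - e * a2) (p * t + x * a2 + e * a1) t
    have hE : ((p * s + a2) * t - s * (p * t + x * a2 + e * a1))
        - (s + a1) * (p * t - (p * t + x * a2 + e * a1))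
        + (t + x * a1 - e * a2) * (p * s - (p * s + a2)) = e * (a1 ^ 2 + a2 ^ 2) := by ring
    rw [hE] at hD
    linarith

theorem rb2 {p a1 a2 x e s t : ℝ}
    (h : InBox 0 7168 59392 69632 21760 27904 0 8192 20992 28672 14848 16128 11520 12800 p a1 a2 x e s t) :
    RB 0 (7 / 16) (-3 / 8) (1 / 4) (85 / 64) (109 / 64) 0 (1 / 2) (41 / 32) (7 / 4) (13 / 32) (31 / 64) (13 / 64) (9 / 32)
      p a1 a2 x e s t := by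
  obtain ⟨h0, k0, h1, k1, h2, k2, h3, k3, h4, k4, h5, k5, h6, k6⟩ := h
  norm_num at h0 k0 h1 k1 h2 k2 h3 k3 h4 k4 h5 k5 h6 k6
  unfold RB
  refine ⟨⟨?_, ?_⟩, ⟨?_, ?_⟩, ⟨?_, ?_⟩, ⟨?_, ?_⟩, ⟨?_, ?_⟩, ⟨?_, ?_⟩, ⟨?_, ?_⟩⟩ <;> linarith

theorem num2 {p a1 a2 x e s t : ℝ}
    (h : RB 0 (7 / 16) (-3 / 8) (1 / 4) (85 / 64) (109 / 64) 0 (1 / 2) (41 / 32) (7 / 4) (13 / 32) (31 / 64) (13 / 64) (9 / 32)
      p a1 a2 x e s t) :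
    Num (-p) (-(s + a1)) (p * s + a2) (-s)
      (-(s + a1) + (t + x * a1 - e * a2)) ((p * s + a2) - (p * t + x * a2 + e * a1)) (-s + t) := by
  obtain ⟨q1, q2, q3, q4, q5, q6⟩ := prods h
  obtain ⟨q11, q12, q13, q14⟩ := q1
  obtain ⟨q21, q22, q23, q24⟩ := q2
  obtain ⟨q31, q32, q33, q34⟩ := q3
  obtain ⟨q41, q42, q43, q44⟩ := q4
  obtain ⟨q51, q52, q53, q54⟩ := q5
  obtain ⟨q61, q62, q63, q64⟩ := q6
  obtain ⟨⟨h0, k0⟩, ⟨h1, k1⟩, ⟨h2, k2⟩, ⟨h3, k3⟩, ⟨h4, k4⟩, ⟨h5, k5⟩, ⟨h6, k6⟩⟩ := h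
  unfold Num
  norm_num
  refine ⟨⟨?_, ?_⟩, ⟨?_, ?_⟩, ⟨?_, ?_⟩, ⟨?_, ?_⟩, ⟨?_, ?_⟩, ⟨?_, ?_⟩, ⟨?_, ?_⟩⟩ <;> linarith

theorem case2 {t1 t2 t3 : ℝ} (R : Roots t1 t2 t3) {p a1 a2 x e s t : ℝ}
    (hA : Adm p a1 a2 x e s t) (hd : e * (a1 ^ 2 + a2 ^ 2) < 7 / 2)
    (hb : InBox 0 7168 59392 69632 21760 27904 0 8192 20992 28672 14848 16128 11520 12800 p a1 a2 x e s t) :
    ∃ b f e' d g h l : ℝ, Fat b f e' d g h l ∧
        AdmT t1 t2 t3 (1 - f) b f e' d g h l (1 - h) ∧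
        detT (1 - f) b f e' d g h l (1 - h) < 1 := by
  have hr := rb2 hb
  have hN := num2 hr
  obtain ⟨q1, q2, q3, q4, q5, q6⟩ := prods hr
  obtain ⟨q11, q12, q13, q14⟩ := q1
  obtain ⟨q21, q22, q23, q24⟩ := q2
  obtain ⟨q31, q32, q33, q34⟩ := q3
  obtain ⟨q41, q42, q43, q44⟩ := q4
  obtain ⟨q51, q52, q53, q54⟩ := q5
  obtain ⟨q61, q62, q63, q64⟩ := q6
  obtain ⟨⟨h0, k0⟩, ⟨h1, k1⟩, ⟨h2, k2⟩, ⟨h3, k3⟩, ⟨h4, k4⟩, ⟨h5, k5⟩, ⟨h6, k6⟩⟩ := hr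
  refine ⟨_, _, _, _, _, _, _, fat_of R (P2 := (-p)) (A1 := (-(s + a1))) (A2 := (p * s + a2))
    (A3 := (-s)) (B1 := (-(s + a1) + (t + x * a1 - e * a2))) (B2 := ((p * s + a2) - (p * t + x * a2 + e * a1)))
    (B3 := (-s + t)) ?_ ?_ ?_ ?_ ?_ ?_ ?_ hN, admT_of R ?_, ?_⟩
  · rw [abs_le]; constructor <;> linarith
  · rw [abs_le]; constructor <;> linarith
  · rw [abs_le]; constructor <;> linarith
  · rw [abs_le]; constructor <;> linarith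
  · rw [abs_le]; constructor <;> linarith
  · rw [abs_le]; constructor <;> linarith
  · rw [abs_le]; constructor <;> linarith
  · intro k m n hk
    have hF := hA.2.2.2.2.2.2.2.2 k (-(m + n)) n (by omega)
    unfold F at hF
    push_cast at hF
    refine hF.trans_eq (G_eq ?_ ?_ ?_) <;> ring
  · have hD := detT_of R (-p) (-(s + a1)) (p * s + a2) (-s)
      (-(s + a1) + (t + x * a1 - e * a2)) ((p * s + a2) - (p * t + x * a2 + e * a1)) (-s + t)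
    have hE : ((p * s + a2) * (-s + t) - (-s) * ((p * s + a2) - (p * t + x * a2 + e * a1)))
        - (-(s + a1)) * ((-p) * (-s + t) - ((p * s + a2) - (p * t + x * a2 + e * a1)))
        + (-(s + a1) + (t + x * a1 - e * a2)) * ((-p) * (-s) - (p * s + a2)) = e * (a1 ^ 2 + a2 ^ 2) := by ring
    rw [hE] at hD
    linarith

theorem rb3 {p a1 a2 x e s t : ℝ}
    (h : InBox 0 7680 67072 75776 23040 30720 0 7168 15872 25600 256 1536 10752 12032 p a1 a2 x e s t) :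
    RB 0 (15 / 32) (3 / 32) (5 / 8) (45 / 32) (15 / 8) 0 (7 / 16) (31 / 32) (25 / 16) (-31 / 64) (-13 / 32) (5 / 32) (15 / 64)
      p a1 a2 x e s t := by
  obtain ⟨h0, k0, h1, k1, h2, k2, h3, k3, h4, k4, h5, k5, h6, k6⟩ := h
  norm_num at h0 k0 h1 k1 h2 k2 h3 k3 h4 k4 h5 k5 h6 k6
  unfold RB
  refine ⟨⟨?_, ?_⟩, ⟨?_, ?_⟩, ⟨?_, ?_⟩, ⟨?_, ?_⟩, ⟨?_, ?_⟩, ⟨?_, ?_⟩, ⟨?_, ?_⟩⟩ <;> linarith

theorem num3 {p a1 a2 x e s t : ℝ}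
    (h : RB 0 (15 / 32) (3 / 32) (5 / 8) (45 / 32) (15 / 8) 0 (7 / 16) (31 / 32) (25 / 16) (-31 / 64) (-13 / 32) (5 / 32) (15 / 64)
      p a1 a2 x e s t) :
    Num p (s + a1) (p * s + a2) s
      (-(t + x * a1 - (-e) * a2)) (-(p * t + x * a2 + (-e) * a1)) (-t) := by
  obtain ⟨q1, q2, q3, q4, q5, q6⟩ := prods h
  obtain ⟨q11, q12, q13, q14⟩ := q1
  obtain ⟨q21, q22, q23, q24⟩ := q2
  obtain ⟨q31, q32, q33, q34⟩ := q3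
  obtain ⟨q41, q42, q43, q44⟩ := q4
  obtain ⟨q51, q52, q53, q54⟩ := q5
  obtain ⟨q61, q62, q63, q64⟩ := q6
  obtain ⟨⟨h0, k0⟩, ⟨h1, k1⟩, ⟨h2, k2⟩, ⟨h3, k3⟩, ⟨h4, k4⟩, ⟨h5, k5⟩, ⟨h6, k6⟩⟩ := h
  unfold Num
  norm_num
  refine ⟨⟨?_, ?_⟩, ⟨?_, ?_⟩, ⟨?_, ?_⟩, ⟨?_, ?_⟩, ⟨?_, ?_⟩, ⟨?_, ?_⟩, ⟨?_, ?_⟩⟩ <;> linarith

theorem case3 {t1 t2 t3 : ℝ} (R : Roots t1 t2 t3) {p a1 a2 x e s t : ℝ}
    (hA : Adm p a1 a2 x (-e) s t) (hd : e * (a1 ^ 2 + a2 ^ 2) < 7 / 2)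
    (hb : InBox 0 7680 67072 75776 23040 30720 0 7168 15872 25600 256 1536 10752 12032 p a1 a2 x e s t) :
    ∃ b f e' d g h l : ℝ, Fat b f e' d g h l ∧
        AdmT t1 t2 t3 (1 - f) b f e' d g h l (1 - h) ∧
        detT (1 - f) b f e' d g h l (1 - h) < 1 := by
  have hr := rb3 hb
  have hN := num3 hr
  obtain ⟨q1, q2, q3, q4, q5, q6⟩ := prods hr
  obtain ⟨q11, q12, q13, q14⟩ := q1
  obtain ⟨q21, q22, q23, q24⟩ := q2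
  obtain ⟨q31, q32, q33, q34⟩ := q3
  obtain ⟨q41, q42, q43, q44⟩ := q4
  obtain ⟨q51, q52, q53, q54⟩ := q5
  obtain ⟨q61, q62, q63, q64⟩ := q6
  obtain ⟨⟨h0, k0⟩, ⟨h1, k1⟩, ⟨h2, k2⟩, ⟨h3, k3⟩, ⟨h4, k4⟩, ⟨h5, k5⟩, ⟨h6, k6⟩⟩ := hr
  refine ⟨_, _, _, _, _, _, _, fat_of R (P2 := p) (A1 := (s + a1)) (A2 := (p * s + a2))
    (A3 := s) (B1 := (-(t + x * a1 - (-e) * a2))) (B2 := (-(p * t + x * a2 + (-e) * a1)))
    (B3 := (-t)) ?_ ?_ ?_ ?_ ?_ ?_ ?_ hN, admT_of R ?_, ?_⟩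
  · rw [abs_le]; constructor <;> linarith
  · rw [abs_le]; constructor <;> linarith
  · rw [abs_le]; constructor <;> linarith
  · rw [abs_le]; constructor <;> linarith
  · rw [abs_le]; constructor <;> linarith
  · rw [abs_le]; constructor <;> linarith
  · rw [abs_le]; constructor <;> linarith
  · intro k m n hk
    have hF := hA.2.2.2.2.2.2.2.2 k m (-n) (by omega)
    unfold F at hF
    push_cast at hF
    refine hF.trans_eq (G_eq ?_ ?_ ?_) <;> ring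
  · have hD := detT_of R p (s + a1) (p * s + a2) s
      (-(t + x * a1 - (-e) * a2)) (-(p * t + x * a2 + (-e) * a1)) (-t)
    have hE : ((p * s + a2) * (-t) - s * (-(p * t + x * a2 + (-e) * a1)))
        - (s + a1) * (p * (-t) - (-(p * t + x * a2 + (-e) * a1)))
        + (-(t + x * a1 - (-e) * a2)) * (p * s - (p * s + a2)) = e * (a1 ^ 2 + a2 ^ 2) := by ring
    rw [hE] at hD
    linarith

theorem rb4 {p a1 a2 x e s t : ℝ}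
    (h : InBox 1536 7680 63488 69632 22528 28160 0 6144 20480 27648 14848 16128 3584 4864 p a1 a2 x e s t) :
    RB (3 / 32) (15 / 32) (-1 / 8) (1 / 4) (11 / 8) (55 / 32) 0 (3 / 8) (5 / 4) (27 / 16) (13 / 32) (31 / 64) (-9 / 32) (-13 / 64)
      p a1 a2 x e s t := by
  obtain ⟨h0, k0, h1, k1, h2, k2, h3, k3, h4, k4, h5, k5, h6, k6⟩ := h
  norm_num at h0 k0 h1 k1 h2 k2 h3 k3 h4 k4 h5 k5 h6 k6
  unfold RB
  refine ⟨⟨?_, ?_⟩, ⟨?_, ?_⟩, ⟨?_, ?_⟩, ⟨?_, ?_⟩, ⟨?_, ?_⟩, ⟨?_, ?_⟩, ⟨?_, ?_⟩⟩ <;> linarith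

theorem num4 {p a1 a2 x e s t : ℝ}
    (h : RB (3 / 32) (15 / 32) (-1 / 8) (1 / 4) (11 / 8) (55 / 32) 0 (3 / 8) (5 / 4) (27 / 16) (13 / 32) (31 / 64) (-9 / 32) (-13 / 64)
      p a1 a2 x e s t) :
    Num (-p) (-(s + a1)) (p * s + a2) (-s)
      (-(t + x * a1 - (-e) * a2) - (s + a1)) ((p * t + x * a2 + (-e) * a1) + (p * s + a2)) (-t - s) := by
  obtain ⟨q1, q2, q3, q4, q5, q6⟩ := prods h
  obtain ⟨q11, q12, q13, q14⟩ := q1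
  obtain ⟨q21, q22, q23, q24⟩ := q2
  obtain ⟨q31, q32, q33, q34⟩ := q3
  obtain ⟨q41, q42, q43, q44⟩ := q4
  obtain ⟨q51, q52, q53, q54⟩ := q5
  obtain ⟨q61, q62, q63, q64⟩ := q6
  obtain ⟨⟨h0, k0⟩, ⟨h1, k1⟩, ⟨h2, k2⟩, ⟨h3, k3⟩, ⟨h4, k4⟩, ⟨h5, k5⟩, ⟨h6, k6⟩⟩ := h
  unfold Num
  norm_num
  refine ⟨⟨?_, ?_⟩, ⟨?_, ?_⟩, ⟨?_, ?_⟩, ⟨?_, ?_⟩, ⟨?_, ?_⟩, ⟨?_, ?_⟩, ⟨?_, ?_⟩⟩ <;> linarith

theorem case4 {t1 t2 t3 : ℝ} (R : Roots t1 t2 t3) {p a1 a2 x e s t : ℝ}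
    (hA : Adm p a1 a2 x (-e) s t) (hd : e * (a1 ^ 2 + a2 ^ 2) < 7 / 2)
    (hb : InBox 1536 7680 63488 69632 22528 28160 0 6144 20480 27648 14848 16128 3584 4864 p a1 a2 x e s t) :
    ∃ b f e' d g h l : ℝ, Fat b f e' d g h l ∧
        AdmT t1 t2 t3 (1 - f) b f e' d g h l (1 - h) ∧
        detT (1 - f) b f e' d g h l (1 - h) < 1 := by
  have hr := rb4 hb
  have hN := num4 hr
  obtain ⟨q1, q2, q3, q4, q5, q6⟩ := prods hr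
  obtain ⟨q11, q12, q13, q14⟩ := q1
  obtain ⟨q21, q22, q23, q24⟩ := q2
  obtain ⟨q31, q32, q33, q34⟩ := q3
  obtain ⟨q41, q42, q43, q44⟩ := q4
  obtain ⟨q51, q52, q53, q54⟩ := q5
  obtain ⟨q61, q62, q63, q64⟩ := q6
  obtain ⟨⟨h0, k0⟩, ⟨h1, k1⟩, ⟨h2, k2⟩, ⟨h3, k3⟩, ⟨h4, k4⟩, ⟨h5, k5⟩, ⟨h6, k6⟩⟩ := hr
  refine ⟨_, _, _, _, _, _, _, fat_of R (P2 := (-p)) (A1 := (-(s + a1))) (A2 := (p * s + a2))
    (A3 := (-s)) (B1 := (-(t + x * a1 - (-e) * a2) - (s + a1))) (B2 := ((p * t + x * a2 + (-e) * a1) + (p * s + a2)))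
    (B3 := (-t - s)) ?_ ?_ ?_ ?_ ?_ ?_ ?_ hN, admT_of R ?_, ?_⟩
  · rw [abs_le]; constructor <;> linarith
  · rw [abs_le]; constructor <;> linarith
  · rw [abs_le]; constructor <;> linarith
  · rw [abs_le]; constructor <;> linarith
  · rw [abs_le]; constructor <;> linarith
  · rw [abs_le]; constructor <;> linarith
  · rw [abs_le]; constructor <;> linarith
  · intro k m n hk
    have hF := hA.2.2.2.2.2.2.2.2 k (-(m + n)) (-n) (by omega)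
    unfold F at hF
    push_cast at hF
    refine hF.trans_eq (G_eq ?_ ?_ ?_) <;> ring
  · have hD := detT_of R (-p) (-(s + a1)) (p * s + a2) (-s)
      (-(t + x * a1 - (-e) * a2) - (s + a1)) ((p * t + x * a2 + (-e) * a1) + (p * s + a2)) (-t - s)
    have hE : ((p * s + a2) * (-t - s) - (-s) * ((p * t + x * a2 + (-e) * a1) + (p * s + a2)))
        - (-(s + a1)) * ((-p) * (-t - s) - ((p * t + x * a2 + (-e) * a1) + (p * s + a2)))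
        + (-(t + x * a1 - (-e) * a2) - (s + a1)) * ((-p) * (-s) - (p * s + a2)) = e * (a1 ^ 2 + a2 ^ 2) := by ring
    rw [hE] at hD
    linarith

theorem rb5 {p a1 a2 x e s t : ℝ}
    (h : InBox 0 4096 55296 66560 21760 27648 0 8192 19456 28160 14848 16128 10752 12032 p a1 a2 x e s t) :
    RB 0 (1 / 4) (-5 / 8) (1 / 16) (85 / 64) (27 / 16) 0 (1 / 2) (19 / 16) (55 / 32) (13 / 32) (31 / 64) (5 / 32) (15 / 64)
      p a1 a2 x e s t := by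
  obtain ⟨h0, k0, h1, k1, h2, k2, h3, k3, h4, k4, h5, k5, h6, k6⟩ := h
  norm_num at h0 k0 h1 k1 h2 k2 h3 k3 h4 k4 h5 k5 h6 k6
  unfold RB
  refine ⟨⟨?_, ?_⟩, ⟨?_, ?_⟩, ⟨?_, ?_⟩, ⟨?_, ?_⟩, ⟨?_, ?_⟩, ⟨?_, ?_⟩, ⟨?_, ?_⟩⟩ <;> linarith

theorem num5 {p a1 a2 x e s t : ℝ}
    (h : RB 0 (1 / 4) (-5 / 8) (1 / 16) (85 / 64) (27 / 16) 0 (1 / 2) (19 / 16) (55 / 32) (13 / 32) (31 / 64) (5 / 32) (15 / 64)
      p a1 a2 x e s t) :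
    Num (-p) (-(s + a1)) (p * s + a2) (-s)
      (-(t + x * a1 - (-e) * a2)) (p * t + x * a2 + (-e) * a1) (-t) := by
  obtain ⟨q1, q2, q3, q4, q5, q6⟩ := prods h
  obtain ⟨q11, q12, q13, q14⟩ := q1
  obtain ⟨q21, q22, q23, q24⟩ := q2
  obtain ⟨q31, q32, q33, q34⟩ := q3
  obtain ⟨q41, q42, q43, q44⟩ := q4
  obtain ⟨q51, q52, q53, q54⟩ := q5
  obtain ⟨q61, q62, q63, q64⟩ := q6
  obtain ⟨⟨h0, k0⟩, ⟨h1, k1⟩, ⟨h2, k2⟩, ⟨h3, k3⟩, ⟨h4, k4⟩, ⟨h5, k5⟩, ⟨h6, k6⟩⟩ := h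
  unfold Num
  norm_num
  refine ⟨⟨?_, ?_⟩, ⟨?_, ?_⟩, ⟨?_, ?_⟩, ⟨?_, ?_⟩, ⟨?_, ?_⟩, ⟨?_, ?_⟩, ⟨?_, ?_⟩⟩ <;> linarith

theorem case5 {t1 t2 t3 : ℝ} (R : Roots t1 t2 t3) {p a1 a2 x e s t : ℝ}
    (hA : Adm p a1 a2 x (-e) s t) (hd : e * (a1 ^ 2 + a2 ^ 2) < 7 / 2)
    (hb : InBox 0 4096 55296 66560 21760 27648 0 8192 19456 28160 14848 16128 10752 12032 p a1 a2 x e s t) :
    ∃ b f e' d g h l : ℝ, Fat b f e' d g h l ∧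
        AdmT t1 t2 t3 (1 - f) b f e' d g h l (1 - h) ∧
        detT (1 - f) b f e' d g h l (1 - h) < 1 := by
  have hr := rb5 hb
  have hN := num5 hr
  obtain ⟨q1, q2, q3, q4, q5, q6⟩ := prods hr
  obtain ⟨q11, q12, q13, q14⟩ := q1
  obtain ⟨q21, q22, q23, q24⟩ := q2
  obtain ⟨q31, q32, q33, q34⟩ := q3
  obtain ⟨q41, q42, q43, q44⟩ := q4
  obtain ⟨q51, q52, q53, q54⟩ := q5
  obtain ⟨q61, q62, q63, q64⟩ := q6
  obtain ⟨⟨h0, k0⟩, ⟨h1, k1⟩, ⟨h2, k2⟩, ⟨h3, k3⟩, ⟨h4, k4⟩, ⟨h5, k5⟩, ⟨h6, k6⟩⟩ := hr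
  refine ⟨_, _, _, _, _, _, _, fat_of R (P2 := (-p)) (A1 := (-(s + a1))) (A2 := (p * s + a2))
    (A3 := (-s)) (B1 := (-(t + x * a1 - (-e) * a2))) (B2 := (p * t + x * a2 + (-e) * a1))
    (B3 := (-t)) ?_ ?_ ?_ ?_ ?_ ?_ ?_ hN, admT_of R ?_, ?_⟩
  · rw [abs_le]; constructor <;> linarith
  · rw [abs_le]; constructor <;> linarith
  · rw [abs_le]; constructor <;> linarith
  · rw [abs_le]; constructor <;> linarith
  · rw [abs_le]; constructor <;> linarith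
  · rw [abs_le]; constructor <;> linarith
  · rw [abs_le]; constructor <;> linarith
  · intro k m n hk
    have hF := hA.2.2.2.2.2.2.2.2 k (-m) (-n) (by omega)
    unfold F at hF
    push_cast at hF
    refine hF.trans_eq (G_eq ?_ ?_ ?_) <;> ring
  · have hD := detT_of R (-p) (-(s + a1)) (p * s + a2) (-s)
      (-(t + x * a1 - (-e) * a2)) (p * t + x * a2 + (-e) * a1) (-t)
    have hE : ((p * s + a2) * (-t) - (-s) * (p * t + x * a2 + (-e) * a1))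
        - (-(s + a1)) * ((-p) * (-t) - (p * t + x * a2 + (-e) * a1))
        + (-(t + x * a1 - (-e) * a2)) * ((-p) * (-s) - (p * s + a2)) = e * (a1 ^ 2 + a2 ^ 2) := by ring
    rw [hE] at hD
    linarith

theorem rb6 {p a1 a2 x e s t : ℝ}
    (h : InBox 0 3072 61440 68608 22528 27648 2048 8192 21504 27648 256 1536 3584 4864 p a1 a2 x e s t) :
    RB 0 (3 / 16) (-1 / 4) (3 / 16) (11 / 8) (27 / 16) (1 / 8) (1 / 2) (21 / 16) (27 / 16) (-31 / 64) (-13 / 32) (-9 / 32) (-13 / 64)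
      p a1 a2 x e s t := by
  obtain ⟨h0, k0, h1, k1, h2, k2, h3, k3, h4, k4, h5, k5, h6, k6⟩ := h
  norm_num at h0 k0 h1 k1 h2 k2 h3 k3 h4 k4 h5 k5 h6 k6
  unfold RB
  refine ⟨⟨?_, ?_⟩, ⟨?_, ?_⟩, ⟨?_, ?_⟩, ⟨?_, ?_⟩, ⟨?_, ?_⟩, ⟨?_, ?_⟩, ⟨?_, ?_⟩⟩ <;> linarith

theorem num6 {p a1 a2 x e s t : ℝ}
    (h : RB 0 (3 / 16) (-1 / 4) (3 / 16) (11 / 8) (27 / 16) (1 / 8) (1 / 2) (21 / 16) (27 / 16) (-31 / 64) (-13 / 32) (-9 / 32) (-13 / 64)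
      p a1 a2 x e s t) :
    Num p (s + a1) (p * s + a2) s
      ((s + a1) - (t + x * a1 - (-e) * a2)) ((p * s + a2) - (p * t + x * a2 + (-e) * a1)) (s - t) := by
  obtain ⟨q1, q2, q3, q4, q5, q6⟩ := prods h
  obtain ⟨q11, q12, q13, q14⟩ := q1
  obtain ⟨q21, q22, q23, q24⟩ := q2
  obtain ⟨q31, q32, q33, q34⟩ := q3
  obtain ⟨q41, q42, q43, q44⟩ := q4
  obtain ⟨q51, q52, q53, q54⟩ := q5
  obtain ⟨q61, q62, q63, q64⟩ := q6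
  obtain ⟨⟨h0, k0⟩, ⟨h1, k1⟩, ⟨h2, k2⟩, ⟨h3, k3⟩, ⟨h4, k4⟩, ⟨h5, k5⟩, ⟨h6, k6⟩⟩ := h
  unfold Num
  norm_num
  refine ⟨⟨?_, ?_⟩, ⟨?_, ?_⟩, ⟨?_, ?_⟩, ⟨?_, ?_⟩, ⟨?_, ?_⟩, ⟨?_, ?_⟩, ⟨?_, ?_⟩⟩ <;> linarith

theorem case6 {t1 t2 t3 : ℝ} (R : Roots t1 t2 t3) {p a1 a2 x e s t : ℝ}
    (hA : Adm p a1 a2 x (-e) s t) (hd : e * (a1 ^ 2 + a2 ^ 2) < 7 / 2)
    (hb : InBox 0 3072 61440 68608 22528 27648 2048 8192 21504 27648 256 1536 3584 4864 p a1 a2 x e s t) :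
    ∃ b f e' d g h l : ℝ, Fat b f e' d g h l ∧
        AdmT t1 t2 t3 (1 - f) b f e' d g h l (1 - h) ∧
        detT (1 - f) b f e' d g h l (1 - h) < 1 := by
  have hr := rb6 hb
  have hN := num6 hr
  obtain ⟨q1, q2, q3, q4, q5, q6⟩ := prods hr
  obtain ⟨q11, q12, q13, q14⟩ := q1
  obtain ⟨q21, q22, q23, q24⟩ := q2
  obtain ⟨q31, q32, q33, q34⟩ := q3
  obtain ⟨q41, q42, q43, q44⟩ := q4
  obtain ⟨q51, q52, q53, q54⟩ := q5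
  obtain ⟨q61, q62, q63, q64⟩ := q6
  obtain ⟨⟨h0, k0⟩, ⟨h1, k1⟩, ⟨h2, k2⟩, ⟨h3, k3⟩, ⟨h4, k4⟩, ⟨h5, k5⟩, ⟨h6, k6⟩⟩ := hr
  refine ⟨_, _, _, _, _, _, _, fat_of R (P2 := p) (A1 := (s + a1)) (A2 := (p * s + a2))
    (A3 := s) (B1 := ((s + a1) - (t + x * a1 - (-e) * a2))) (B2 := ((p * s + a2) - (p * t + x * a2 + (-e) * a1)))
    (B3 := (s - t)) ?_ ?_ ?_ ?_ ?_ ?_ ?_ hN, admT_of R ?_, ?_⟩
  · rw [abs_le]; constructor <;> linarith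
  · rw [abs_le]; constructor <;> linarith
  · rw [abs_le]; constructor <;> linarith
  · rw [abs_le]; constructor <;> linarith
  · rw [abs_le]; constructor <;> linarith
  · rw [abs_le]; constructor <;> linarith
  · rw [abs_le]; constructor <;> linarith
  · intro k m n hk
    have hF := hA.2.2.2.2.2.2.2.2 k (m + n) (-n) (by omega)
    unfold F at hF
    push_cast at hF
    refine hF.trans_eq (G_eq ?_ ?_ ?_) <;> ring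
  · have hD := detT_of R p (s + a1) (p * s + a2) s
      ((s + a1) - (t + x * a1 - (-e) * a2)) ((p * s + a2) - (p * t + x * a2 + (-e) * a1)) (s - t)
    have hE : ((p * s + a2) * (s - t) - s * ((p * s + a2) - (p * t + x * a2 + (-e) * a1)))
        - (s + a1) * (p * (s - t) - ((p * s + a2) - (p * t + x * a2 + (-e) * a1)))
        + ((s + a1) - (t + x * a1 - (-e) * a2)) * (p * s - (p * s + a2)) = e * (a1 ^ 2 + a2 ^ 2) := by ring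
    rw [hE] at hD
    linarith

theorem sg_one : sg 1 = 1 := by simp [sg]

theorem sg_ne {om : ℕ} (h : om ≠ 1) : sg om = -1 := by simp [sg, h]

end Z

/-- Module Z. -/
theorem stmtZ : StatementZ := by
  intro t1 t2 t3 R om hom p a1 a2 x e s t hA hd hacc
  rcases hacc with ⟨h1, hb⟩ | ⟨h1, hb⟩
  · subst h1
    rw [Z.sg_one, one_mul] at hA
    rcases hb with hb | hb
    · exact Z.case1 R hA hd hb
    · exact Z.case2 R hA hd hb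
  · rw [Z.sg_ne h1, neg_one_mul] at hA
    rcases hb with hb | hb | hb | hb
    · exact Z.case3 R hA hd hb
    · exact Z.case4 R hA hd hb
    · exact Z.case5 R hA hd hb
    · exact Z.case6 R hA hd hb

end Pool.Agent.Lib.MP_be9f18_nt
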