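import Pool.Agent.Lib.MP_be9f18_nt.SoundG

/-!
Soundness of the kernel checker `Check.lean`: `check_sound : SoundStatement`.
-/

set_option autoImplicit false

namespace Pool.Agent.Lib.MP_be9f18_nt
namespace Snd

theorem fr2_unf
    (md y nom pc pw a1c a1w a2c a2w xc xw ea ew sc sw tc tw es ns a1a b1 b2 A1 A2 : ℕ) :
    Chk.fr2 md y nom pc pw a1c a1w a2c a2w xc xw ea ew sc sw tc tw es ns a1a b1 b2 A1 A2 =
  Chk.fr3 md y nom pc pw a1c a1w a2c a2w xc xw ea ew sc sw tc tw es ns a1a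
    (Nat.add (Nat.mul xw A1) (Nat.add (Nat.mul ea a2w) (Nat.mul ew A2)))
    (Nat.add (Nat.mul xw A2) (Nat.add (Nat.mul ea a1w) (Nat.mul ew A1)))
    (Nat.mul 0x8000 (Nat.add sc a1c)) (Nat.add (Nat.mul 0x8000 tc) b1) (Nat.mul 0x8000 pc)
    (Nat.add (Nat.mul pc sc) (Nat.mul 0x8000 a2c)) (Nat.add (Nat.mul pc tc) b2) := by
  delta Chk.fr2
  exact rfl

theorem fr1_unf
    (md y nom pc pw a1c a1w a2c a2w xc xw ea ew sc sw tc tw es ns a1a : ℕ) :
    Chk.fr1 md y nom pc pw a1c a1w a2c a2w xc xw ea ew sc sw tc tw es ns a1a =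
  Chk.fr2 md y nom pc pw a1c a1w a2c a2w xc xw ea ew sc sw tc tw es ns a1a
    (Nat.add (Nat.mul xc a1c) (Nat.mul ns a2c)) (Nat.add (Nat.mul xc a2c) (Nat.mul es a1c))
    (Nat.add a1a a1w) (Nat.add a2c a2w) := by
  delta Chk.fr1
  exact rfl

theorem fr0_unf
    (md y om nom pc pw a1c a1w a2c a2w xc xw ea ew sc sw tc tw a1o : ℕ) :
    Chk.fr0 md y om nom pc pw a1c a1w a2c a2w xc xw ea ew sc sw tc tw a1o =
  Chk.fr1 md y nom pc pw a1c a1w a2c a2w xc xw ea ew sc sw tc tw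
    (Nat.mul om ea) (Nat.mul nom ea) (Nat.add (Nat.sub a1o 0x20000) (Nat.sub 0x20000 a1o)) := by
  delta Chk.fr0
  exact rfl

theorem fr_unf (md y om pl ph al ah bl bh xl xh el eh sl sh tl th : ℕ) :
    Chk.fr md y om pl ph al ah bl bh xl xh el eh sl sh tl th =
  Chk.fr0 md y om (Nat.sub 0x100000000000000000000000000000000 om)
    (Nat.add pl ph) (Nat.sub ph pl) (Nat.add (Nat.add al ah) 0xfffffffffffffffffffffffffffe0000)
    (Nat.sub ah al) (Nat.add bl bh) (Nat.sub bh bl) (Nat.add xl xh) (Nat.sub xh xl)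
    (Nat.add el eh) (Nat.sub eh el) (Nat.add (Nat.add sl sh) 0xffffffffffffffffffffffffffffc000)
    (Nat.sub sh sl) (Nat.add (Nat.add tl th) 0xffffffffffffffffffffffffffffc000) (Nat.sub th tl)
    (Nat.add al ah) := by
  delta Chk.fr
  exact rfl

theorem Rp.lita : Rp 0xfffffffffffffffffffffffffffe0000 (-131072) := ⟨1, by norm_num⟩
theorem Rp.lits : Rp 0xffffffffffffffffffffffffffffc000 (-16384) := ⟨1, by norm_num⟩

theorem dist17 {m0 : ℕ} :
    ((Nat.add (Nat.sub m0 0x20000) (Nat.sub 0x20000 m0) : ℕ) : ℤ) = |(m0 : ℤ) - 131072| := by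
  rw [raw_add, raw_sub, raw_sub]
  rcases le_total (m0 : ℤ) 131072 with h | h
  · rw [abs_of_nonpos (by linarith)]; omega
  · rw [abs_of_nonneg (by linarith)]; omega

/-- the checker on one box, from `fr0` on -/
theorem fr0_sound {o : ℤ} {pc pw a1w a2c a2w xc xw ea ew sw tw : ℕ} {a1c sc tc : ℤ}
    {p a1 a2 x e s t : ℝ}
    (C : Ctx o pc pw a1w a2c a2w xc xw ea ew sw tw a1c sc tc p a1 a2 x e s t)
    {md y om nom A1C SC TC a1o : ℕ} (hmd : md = 0 ∨ md = 1)
    (rom : Rp om o) (rnom : Rp nom (-o)) (rA : Rp A1C a1c) (rSC : Rp SC sc) (rTC : Rp TC tc)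
    (ha1o : (a1o : ℤ) - 131072 = a1c)
    (h : Chk.fr0 md y om nom pc pw A1C a1w a2c a2w xc xw ea ew SC sw TC tw a1o = true) :
    False := by
  rw [fr0_unf, fr1_unf, fr2_unf] at h
  have res : Rp (Nat.mul om ea) (o * ea) := Rp.mul rom (Rp.nat ea)
  have rns : Rp (Nat.mul nom ea) (-(o * ea)) := (Rp.mul rnom (Rp.nat ea)).of_eq (by ring)
  have ea1 : ((Nat.add (Nat.sub a1o 0x20000) (Nat.sub 0x20000 a1o) : ℕ) : ℤ) = |a1c| := by
    rw [dist17, ha1o]
  obtain ⟨es, hes⟩ : ∃ v, v = Nat.mul om ea := ⟨_, rfl⟩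
  obtain ⟨ns, hns⟩ : ∃ v, v = Nat.mul nom ea := ⟨_, rfl⟩
  obtain ⟨a1a, ha1a⟩ : ∃ v, v = Nat.add (Nat.sub a1o 0x20000) (Nat.sub 0x20000 a1o) := ⟨_, rfl⟩
  rw [← hes] at h res
  rw [← hns] at h rns
  rw [← ha1a] at h ea1
  have hW1 : ((Nat.add (Nat.mul xw (Nat.add a1a a1w)) (Nat.add (Nat.mul ea a2w)
      (Nat.mul ew (Nat.add a2c a2w))) : ℕ) : ℤ)
      = xw * (|a1c| + a1w) + (ea * a2w + ew * (a2c + a2w)) := by
    simp only [raw_add, raw_mul]
    push_cast
    rw [ea1]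
  have hW2 : ((Nat.add (Nat.mul xw (Nat.add a2c a2w)) (Nat.add (Nat.mul ea a1w)
      (Nat.mul ew (Nat.add a1a a1w))) : ℕ) : ℤ)
      = xw * (a2c + a2w) + (ea * a1w + ew * (|a1c| + a1w)) := by
    simp only [raw_add, raw_mul]
    push_cast
    rw [ea1]
  have r1m : Rp (Nat.mul 0x8000 (Nat.add SC A1C)) (32768 * (sc + a1c)) :=
    (Rp.mul (Rp.nat 0x8000) (Rp.add rSC rA)).of_eq (by push_cast; ring)
  have r1n : Rp (Nat.add (Nat.mul 0x8000 TC) (Nat.add (Nat.mul xc A1C) (Nat.mul ns a2c)))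
      (32768 * tc + (xc * a1c - o * ea * a2c)) :=
    (Rp.add (Rp.mul (Rp.nat 0x8000) rTC) (Rp.add (Rp.mul (Rp.nat xc) rA)
      (Rp.mul rns (Rp.nat a2c)))).of_eq (by push_cast; ring)
  have r2k : Rp (Nat.mul 0x8000 pc) (32768 * pc) :=
    (Rp.mul (Rp.nat 0x8000) (Rp.nat pc)).of_eq (by push_cast; ring)
  have r2m : Rp (Nat.add (Nat.mul pc SC) (Nat.mul 0x8000 a2c)) (pc * sc + 32768 * a2c) :=
    (Rp.add (Rp.mul (Rp.nat pc) rSC) (Rp.mul (Rp.nat 0x8000) (Rp.nat a2c))).of_eq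
      (by push_cast; ring)
  have r2n : Rp (Nat.add (Nat.mul pc TC) (Nat.add (Nat.mul xc a2c) (Nat.mul es A1C)))
      (pc * tc + (xc * a2c + o * ea * a1c)) :=
    (Rp.add (Rp.mul (Rp.nat pc) rTC) (Rp.add (Rp.mul (Rp.nat xc) (Rp.nat a2c))
      (Rp.mul res rA))).of_eq (by push_cast; ring)
  rcases hmd with hmd | hmd
  · rw [hmd, fr3_zero] at h
    exact leafS_sound C rSC rTC hW1 hW2 r1m r1n r2k r2m r2n h
  · rw [hmd, fr3_one] at h
    exact leafL_sound C rnom rA rSC rTC res rns ea1 hW1 hW2 r1m r1n r2k r2m r2n h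

theorem near_of {l h : ℕ} {z : ℝ} (h1 : (l : ℝ) ≤ 16384 * z) (h2 : 16384 * z ≤ (h : ℝ)) :
    |32768 * z - ((Nat.add l h : ℕ) : ℝ)| ≤ ((Nat.sub h l : ℕ) : ℝ) := by
  have hle : l ≤ h := by exact_mod_cast h1.trans h2
  rw [raw_add, raw_sub, Nat.cast_sub hle, Nat.cast_add, abs_le]
  constructor <;> linarith

theorem near_of' {l h : ℕ} {z : ℝ} {off : ℤ} (h1 : (l : ℝ) ≤ 16384 * z + off)
    (h2 : 16384 * z + off ≤ (h : ℝ)) :
    |32768 * z - (((Nat.add l h : ℕ) - 2 * off : ℤ) : ℝ)| ≤ ((Nat.sub h l : ℕ) : ℝ) := by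
  have hle : l ≤ h := by exact_mod_cast h1.trans h2
  rw [raw_add, raw_sub, Nat.cast_sub hle, abs_le]
  push_cast
  constructor <;> linarith

theorem bd_sum {l h : ℕ} (hle : l ≤ h) (hh : h ≤ 131072) : Bd ((Nat.add l h : ℕ) : ℤ) 18 := by
  refine Bd.nat ?_
  rw [raw_add]; norm_num; omega

theorem bd_diff {l h : ℕ} (hh : h ≤ 131072) : Bd ((Nat.sub h l : ℕ) : ℤ) 18 := by
  refine Bd.nat ?_
  rw [raw_sub]; norm_num; omega

theorem fr_sound {om md y : ℕ} (hom : om = 1 ∨ om = 2 ^ 128 - 1) (hmd : md = 0 ∨ md = 1)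
    {pl ph al ah bl bh xl xh el eh sl sh tl th : ℕ}
    (bp : ph ≤ 131072) (ba : ah ≤ 131072) (bb : bh ≤ 131072) (bx : xh ≤ 131072)
    (be : eh ≤ 131072) (bs : sh ≤ 131072) (bt : th ≤ 131072)
    (h : Chk.fr md y om pl ph al ah bl bh xl xh el eh sl sh tl th = true) :
    Good om pl ph al ah bl bh xl xh el eh sl sh tl th := by
  intro p a1 a2 x e s t hb hA hd
  exfalso
  obtain ⟨h0, k0, h1, k1, h2, k2, h3, k3, h4, k4, h5, k5, h6, k6⟩ := hb
  obtain ⟨o, ho⟩ : ∃ o : ℤ, o = if om = 1 then 1 else -1 := ⟨_, rfl⟩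
  have hsg : sg om = (o : ℝ) := by
    unfold sg; rw [ho]; split_ifs <;> norm_num
  have ho1 : o = 1 ∨ o = -1 := by rw [ho]; split_ifs <;> simp
  have hoo : (o : ℝ) * o = 1 := by rcases ho1 with h | h <;> rw [h] <;> norm_num
  have he0 : 0 ≤ e := by
    have : (0 : ℝ) ≤ (el : ℝ) := Nat.cast_nonneg _
    linarith
  have rom : Rp om o := by
    rcases hom with h | h
    · rw [ho, if_pos h, h]; exact Rp.nat 1
    · rw [ho, if_neg (by rw [h]; norm_num), h]; exact ⟨1, by norm_num⟩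
  have rnom : Rp (Nat.sub 0x100000000000000000000000000000000 om) (-o) := by
    rcases hom with h | h
    · rw [ho, if_pos h, h]; exact ⟨1, by norm_num⟩
    · rw [ho, if_neg (by rw [h]; norm_num), h]; exact ⟨0, by norm_num⟩
  rw [hsg] at hA
  obtain ⟨-, -, -, -, -, hred, -, -, hadm⟩ := hA
  have lp : pl ≤ ph := by exact_mod_cast h0.trans k0
  have la : al ≤ ah := by exact_mod_cast h1.trans k1
  have lb : bl ≤ bh := by exact_mod_cast h2.trans k2
  have lx : xl ≤ xh := by exact_mod_cast h3.trans k3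
  have le' : el ≤ eh := by exact_mod_cast h4.trans k4
  have ls : sl ≤ sh := by exact_mod_cast h5.trans k5
  have lt' : tl ≤ th := by exact_mod_cast h6.trans k6
  have C : Ctx o (Nat.add pl ph) (Nat.sub ph pl) (Nat.sub ah al) (Nat.add bl bh) (Nat.sub bh bl)
      (Nat.add xl xh) (Nat.sub xh xl) (Nat.add el eh) (Nat.sub eh el) (Nat.sub sh sl)
      (Nat.sub th tl) ((Nat.add al ah : ℕ) - 2 * 65536) ((Nat.add sl sh : ℕ) - 2 * 8192)
      ((Nat.add tl th : ℕ) - 2 * 8192) p a1 a2 x (o * e) s t := by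
    refine
      { ho := ho1
        hoe := ?_
        hp := near_of h0 k0
        h1 := near_of' (off := 65536) (by push_cast; linarith) (by push_cast; linarith)
        h2 := near_of h2 k2
        hx := near_of h3 k3
        he := ?_
        hs := near_of' (off := 8192) (by push_cast; linarith) (by push_cast; linarith)
        ht := near_of' (off := 8192) (by push_cast; linarith) (by push_cast; linarith)
        bpc := bd_sum lp bp
        bpw := bd_diff bp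
        ba1c := ?_
        ba1w := bd_diff ba
        ba2c := bd_sum lb bb
        ba2w := bd_diff bb
        bxc := bd_sum lx bx
        bxw := bd_diff bx
        bea := bd_sum le' be
        bew := bd_diff be
        bsc := ?_
        bsw := bd_diff bs
        btc := ?_
        btw := bd_diff bt
        adm := hadm
        det := ?_
        red := hred }
    · rw [← mul_assoc, hoo, one_mul]; exact he0
    · have h7 := near_of h4 k4
      have e1 : 32768 * ((o : ℝ) * e) - ((o * (Nat.add el eh : ℕ) : ℤ) : ℝ)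
          = o * (32768 * e - ((Nat.add el eh : ℕ) : ℝ)) := by push_cast; ring
      rw [e1, abs_mul]
      have e2 : |(o : ℝ)| = 1 := by rcases ho1 with h | h <;> rw [h] <;> norm_num
      rw [e2, one_mul]
      exact h7
    · unfold Bd; rw [abs_le, raw_add]; push_cast; constructor <;> norm_num <;> omega
    · unfold Bd; rw [abs_le, raw_add]; push_cast; constructor <;> norm_num <;> omega
    · unfold Bd; rw [abs_le, raw_add]; push_cast; constructor <;> norm_num <;> omega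
    · rw [← mul_assoc, hoo, one_mul]; exact hd.le
  rw [fr_unf] at h
  exact fr0_sound C hmd rom rnom
    ((Rp.add (Rp.nat (Nat.add al ah)) Rp.lita).of_eq (by ring))
    ((Rp.add (Rp.nat (Nat.add sl sh)) Rp.lits).of_eq (by ring))
    ((Rp.add (Rp.nat (Nat.add tl th)) Rp.lits).of_eq (by ring))
    (by ring) h

theorem raw_mul_zero {a b : ℕ} (h : Nat.mul a b = 0) : a = 0 ∨ b = 0 := by
  rw [raw_mul] at h; exact Nat.mul_eq_zero.mp h

theorem leafR_aux1 {al ah A : ℕ} {a1 : ℝ} (h1 : (al : ℝ) ≤ 16384 * a1 + 65536)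
    (k1 : 16384 * a1 + 65536 ≤ (ah : ℝ)) (la : al ≤ ah)
    (hAe : A = (al - 65536) + (65536 - ah)) : (A : ℝ) ^ 2 ≤ (16384 * a1) ^ 2 := by
  rcases le_total al 65536 with q | q
  · rcases le_total ah 65536 with q' | q'
    · have e : (A : ℝ) = 65536 - ah := by
        rw [hAe, Nat.sub_eq_zero_of_le q, zero_add, Nat.cast_sub q']; norm_num
      have h10 : (0 : ℝ) ≤ A := Nat.cast_nonneg _
      have h11 : (A : ℝ) ^ 2 ≤ (-(16384 * a1)) ^ 2 := pow_le_pow_left₀ h10 (by linarith) 2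
      rwa [neg_sq] at h11
    · have e : (A : ℝ) = 0 := by
        rw [hAe, Nat.sub_eq_zero_of_le q, Nat.sub_eq_zero_of_le q']; norm_num
      rw [e, zero_pow two_ne_zero]; exact sq_nonneg _
  · have e : (A : ℝ) = al - 65536 := by
      rw [hAe, Nat.sub_eq_zero_of_le (q.trans la), add_zero, Nat.cast_sub q]; norm_num
    have h10 : (0 : ℝ) ≤ A := Nat.cast_nonneg _
    exact pow_le_pow_left₀ h10 (by linarith) 2

theorem leafR_aux2 {al ah A bl el : ℕ} {a1 a2 e : ℝ} (h1 : (al : ℝ) ≤ 16384 * a1 + 65536)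
    (k1 : 16384 * a1 + 65536 ≤ (ah : ℝ)) (la : al ≤ ah) (h2 : (bl : ℝ) ≤ 16384 * a2)
    (h4 : (el : ℝ) ≤ 16384 * e) (he0 : 0 ≤ e)
    (hAe : A = (al - 65536) + (65536 - ah))
    (h8 : (30786325577728 : ℝ) ≤ 2 * el * ((A : ℝ) * A + bl * bl))
    (hd : e * (a1 ^ 2 + a2 ^ 2) < 7 / 2) : False := by
  have h9 := leafR_aux1 h1 k1 la hAe
  have h10 : (bl : ℝ) ^ 2 ≤ (16384 * a2) ^ 2 := pow_le_pow_left₀ (Nat.cast_nonneg _) h2 2
  have h11 : (el : ℝ) * ((A : ℝ) ^ 2 + (bl : ℝ) ^ 2) ≤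
      (16384 * e) * ((16384 * a1) ^ 2 + (16384 * a2) ^ 2) :=
    mul_le_mul h4 (add_le_add h9 h10) (by positivity) (by positivity)
  have h12 : (16384 * e) * ((16384 * a1) ^ 2 + (16384 * a2) ^ 2)
      = 16384 ^ 3 * (e * (a1 ^ 2 + a2 ^ 2)) := by ring
  rw [h12] at h11
  have h13 : 2 * (el : ℝ) * ((A : ℝ) * A + bl * bl) = 2 * (el * ((A : ℝ) ^ 2 + (bl : ℝ) ^ 2)) := by
    ring
  rw [h13] at h8
  have h14 : (16384 : ℝ) ^ 3 * (e * (a1 ^ 2 + a2 ^ 2)) < 16384 ^ 3 * (7 / 2) :=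
    mul_lt_mul_of_pos_left hd (by norm_num)
  norm_num at h14 h11
  linarith

theorem leafR_aux3 {xh eh : ℕ} {x e y : ℝ} (k3 : 16384 * x ≤ (xh : ℝ)) (k4 : 16384 * e ≤ (eh : ℝ))
    (hx0 : 0 ≤ x) (he0 : 0 ≤ e) (hy : y ^ 2 = e ^ 2)
    (h7 : (xh : ℝ) * xh + eh * eh + 1 ≤ 268435456) (hred : 1 ≤ x ^ 2 + y ^ 2) : False := by
  have h8 : (16384 * x) ^ 2 ≤ (xh : ℝ) ^ 2 := pow_le_pow_left₀ (by positivity) k3 2
  have h9 : (16384 * e) ^ 2 ≤ (eh : ℝ) ^ 2 := pow_le_pow_left₀ (by positivity) k4 2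
  rw [hy] at hred
  nlinarith

theorem leafR_unf (al ah bl xh el eh : ℕ) : Chk.leafR al ah bl xh el eh =
  (Nat.beq
    (Nat.mul
      (Nat.sub
        0x1c0000000000
        (Nat.mul
          (Nat.mul 2 el)
          (Nat.add
            (Nat.mul
              (Nat.add (Nat.sub al 0x10000) (Nat.sub 0x10000 ah))
              (Nat.add (Nat.sub al 0x10000) (Nat.sub 0x10000 ah)))
            (Nat.mul bl bl))))
      (Nat.sub (Nat.add (Nat.add (Nat.mul xh xh) (Nat.mul eh eh)) 1) 0x10000000))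
    0) := by
  delta Chk.leafR
  exact rfl

theorem leafR_dec {al ah bl xh el eh : ℕ} (h : Chk.leafR al ah bl xh el eh = true) :
    (30786325577728 : ℝ) ≤ 2 * el * ((((al - 65536) + (65536 - ah) : ℕ) : ℝ)
      * (((al - 65536) + (65536 - ah) : ℕ) : ℝ) + bl * bl) ∨
    (xh : ℝ) * xh + eh * eh + 1 ≤ 268435456 := by
  rw [leafR_unf] at h
  rcases raw_mul_zero (Nat.eq_of_beq_eq_true h) with h5 | h5
  · left
    have h6 := raw_sub_zero h5
    clear h h5
    simp only [raw_mul, raw_add, raw_sub] at h6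
    generalize al - 65536 + (65536 - ah) = A at h6 ⊢
    have h8 : ((30786325577728 : ℕ) : ℝ) ≤ ((2 * el * (A * A + bl * bl) : ℕ) : ℝ) :=
      Nat.cast_le.mpr h6
    push_cast at h8
    exact h8
  · right
    have h6 := raw_sub_zero h5
    clear h h5
    simp only [raw_mul, raw_add] at h6
    have h8 : ((xh * xh + eh * eh + 1 : ℕ) : ℝ) ≤ ((268435456 : ℕ) : ℝ) :=
      Nat.cast_le.mpr h6
    push_cast at h8
    exact h8

theorem leafR_sound {om : ℕ}
    {pl ph al ah bl bh xl xh el eh sl sh tl th : ℕ}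
    (h : Chk.leafR al ah bl xh el eh = true) :
    Good om pl ph al ah bl bh xl xh el eh sl sh tl th := by
  intro p a1 a2 x e s t hb hA hd
  exfalso
  obtain ⟨-, -, h1, k1, h2, -, -, k3, h4, k4, -, -, -, -⟩ := hb
  obtain ⟨-, -, -, hx0, -, hred, -, -, -⟩ := hA
  have la : al ≤ ah := by exact_mod_cast h1.trans k1
  have he0 : 0 ≤ e := by
    have : (0 : ℝ) ≤ (el : ℝ) := Nat.cast_nonneg _
    linarith
  rcases leafR_dec h with h5 | h5
  · exact leafR_aux2 h1 k1 la h2 h4 he0 rfl h5 hd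
  · have h10 : (sg om) ^ 2 = 1 := by unfold sg; split_ifs <;> norm_num
    have h11 : (sg om * e) ^ 2 = e ^ 2 := by rw [mul_pow, h10, one_mul]
    exact leafR_aux3 k3 k4 hx0 he0 h11 h5 hred

theorem inB_sound {pl ph al ah bl bh xl xh el eh sl sh tl th
    pl' ph' al' ah' bl' bh' xl' xh' el' eh' sl' sh' tl' th' : ℕ}
    (h : Chk.inB pl ph al ah bl bh xl xh el eh sl sh tl th
      pl' ph' al' ah' bl' bh' xl' xh' el' eh' sl' sh' tl' th' = 0)
    {p a1 a2 x e s t : ℝ} (hb : InBox pl ph al ah bl bh xl xh el eh sl sh tl th p a1 a2 x e s t) :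
    InBox pl' ph' al' ah' bl' bh' xl' xh' el' eh' sl' sh' tl' th' p a1 a2 x e s t := by
  obtain ⟨h0, k0, h1, k1, h2, k2, h3, k3, h4, k4, h5, k5, h6, k6⟩ := hb
  unfold Chk.inB at h
  obtain ⟨h, g6⟩ := raw_add_zero h
  obtain ⟨h, g5⟩ := raw_add_zero h
  obtain ⟨h, g4⟩ := raw_add_zero h
  obtain ⟨h, g3⟩ := raw_add_zero h
  obtain ⟨h, g2⟩ := raw_add_zero h
  obtain ⟨g0, g1⟩ := raw_add_zero h
  have key : ∀ {a b c d : ℕ} {z : ℝ}, Nat.add (Nat.sub a b) (Nat.sub c d) = 0 →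
      (b : ℝ) ≤ z → z ≤ (c : ℝ) → (a : ℝ) ≤ z ∧ z ≤ (d : ℝ) := by
    intro a b c d z hz h1 h2
    obtain ⟨q1, q2⟩ := raw_add_zero hz
    have r1 : (a : ℝ) ≤ b := by exact_mod_cast raw_sub_zero q1
    have r2 : (c : ℝ) ≤ d := by exact_mod_cast raw_sub_zero q2
    exact ⟨r1.trans h1, h2.trans r2⟩
  obtain ⟨a0, b0⟩ := key g0 h0 k0
  obtain ⟨a1', b1⟩ := key g1 h1 k1
  obtain ⟨a2', b2⟩ := key g2 h2 k2
  obtain ⟨a3, b3⟩ := key g3 h3 k3
  obtain ⟨a4, b4⟩ := key g4 h4 k4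
  obtain ⟨a5, b5⟩ := key g5 h5 k5
  obtain ⟨a6, b6⟩ := key g6 h6 k6
  exact ⟨a0, b0, a1', b1, a2', b2, a3, b3, a4, b4, a5, b5, a6, b6⟩

theorem leafA_sound {om : ℕ} (hom : om = 1 ∨ om = 2 ^ 128 - 1)
    {pl ph al ah bl bh xl xh el eh sl sh tl th : ℕ}
    (h : Chk.leafA om pl ph al ah bl bh xl xh el eh sl sh tl th = true) :
    Good om pl ph al ah bl bh xl xh el eh sl sh tl th := by
  intro p a1 a2 x e s t hb hA hd
  unfold Chk.leafA at h
  rcases raw_mul_zero (Nat.eq_of_beq_eq_true h) with h5 | h5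
  · obtain ⟨h6, h7⟩ := raw_add_zero h5
    have h8 := raw_sub_zero h6
    have hom1 : om = 1 := by
      rcases hom with q | q
      · exact q
      · rw [q] at h8; norm_num at h8
    left
    refine ⟨hom1, ?_⟩
    rcases raw_mul_zero h7 with g | g
    · exact Or.inl (inB_sound g hb)
    · exact Or.inr (inB_sound g hb)
  · obtain ⟨h6, h7⟩ := raw_add_zero h5
    have h8 := raw_sub_zero h6
    have hom1 : om ≠ 1 := by
      intro q
      rw [q] at h8; norm_num at h8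
    right
    refine ⟨hom1, ?_⟩
    rcases raw_mul_zero h7 with g | g
    · rcases raw_mul_zero g with g | g
      · rcases raw_mul_zero g with g | g
        · exact Or.inl (inB_sound g hb)
        · exact Or.inr (Or.inl (inB_sound g hb))
      · exact Or.inr (Or.inr (Or.inl (inB_sound g hb)))
    · exact Or.inr (Or.inr (Or.inr (inB_sound g hb)))

theorem split_true {b l r : Bool}
    (h : @Bool.rec (fun _ => Bool) Bool.false (@Bool.rec (fun _ => Bool) Bool.false r l) b = true) :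
    b = true ∧ l = true ∧ r = true := by
  cases b <;> cases l <;> cases r <;> simp_all

end Snd

open Snd in
/-- **Soundness of the checker.** -/
theorem check_sound : SoundStatement := by
  intro om hom t
  induction t with
  | s0 c l r hl hr =>
    intro pl ph al ah bl bh xl xh el eh sl sh tl th bp ba bb bx be bs bt h
    obtain ⟨h1, h2, h3⟩ := split_true h
    have hc : c ≤ ph := Nat.le_of_ble_eq_true h1
    exact good_s0 (hl _ _ _ _ _ _ _ _ _ _ _ _ _ _ (hc.trans bp) ba bb bx be bs bt h2)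
      (hr _ _ _ _ _ _ _ _ _ _ _ _ _ _ bp ba bb bx be bs bt h3)
  | s1 c l r hl hr =>
    intro pl ph al ah bl bh xl xh el eh sl sh tl th bp ba bb bx be bs bt h
    obtain ⟨h1, h2, h3⟩ := split_true h
    have hc : c ≤ ah := Nat.le_of_ble_eq_true h1
    exact good_s1 (hl _ _ _ _ _ _ _ _ _ _ _ _ _ _ bp (hc.trans ba) bb bx be bs bt h2)
      (hr _ _ _ _ _ _ _ _ _ _ _ _ _ _ bp ba bb bx be bs bt h3)
  | s2 c l r hl hr =>
    intro pl ph al ah bl bh xl xh el eh sl sh tl th bp ba bb bx be bs bt h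
    obtain ⟨h1, h2, h3⟩ := split_true h
    have hc : c ≤ bh := Nat.le_of_ble_eq_true h1
    exact good_s2 (hl _ _ _ _ _ _ _ _ _ _ _ _ _ _ bp ba (hc.trans bb) bx be bs bt h2)
      (hr _ _ _ _ _ _ _ _ _ _ _ _ _ _ bp ba bb bx be bs bt h3)
  | s3 c l r hl hr =>
    intro pl ph al ah bl bh xl xh el eh sl sh tl th bp ba bb bx be bs bt h
    obtain ⟨h1, h2, h3⟩ := split_true h
    have hc : c ≤ xh := Nat.le_of_ble_eq_true h1
    exact good_s3 (hl _ _ _ _ _ _ _ _ _ _ _ _ _ _ bp ba bb (hc.trans bx) be bs bt h2)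
      (hr _ _ _ _ _ _ _ _ _ _ _ _ _ _ bp ba bb bx be bs bt h3)
  | s4 c l r hl hr =>
    intro pl ph al ah bl bh xl xh el eh sl sh tl th bp ba bb bx be bs bt h
    obtain ⟨h1, h2, h3⟩ := split_true h
    have hc : c ≤ eh := Nat.le_of_ble_eq_true h1
    exact good_s4 (hl _ _ _ _ _ _ _ _ _ _ _ _ _ _ bp ba bb bx (hc.trans be) bs bt h2)
      (hr _ _ _ _ _ _ _ _ _ _ _ _ _ _ bp ba bb bx be bs bt h3)
  | s5 c l r hl hr =>
    intro pl ph al ah bl bh xl xh el eh sl sh tl th bp ba bb bx be bs bt h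
    obtain ⟨h1, h2, h3⟩ := split_true h
    have hc : c ≤ sh := Nat.le_of_ble_eq_true h1
    exact good_s5 (hl _ _ _ _ _ _ _ _ _ _ _ _ _ _ bp ba bb bx be (hc.trans bs) bt h2)
      (hr _ _ _ _ _ _ _ _ _ _ _ _ _ _ bp ba bb bx be bs bt h3)
  | s6 c l r hl hr =>
    intro pl ph al ah bl bh xl xh el eh sl sh tl th bp ba bb bx be bs bt h
    obtain ⟨h1, h2, h3⟩ := split_true h
    have hc : c ≤ th := Nat.le_of_ble_eq_true h1
    exact good_s6 (hl _ _ _ _ _ _ _ _ _ _ _ _ _ _ bp ba bb bx be bs (hc.trans bt) h2)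
      (hr _ _ _ _ _ _ _ _ _ _ _ _ _ _ bp ba bb bx be bs bt h3)
  | S y =>
    intro pl ph al ah bl bh xl xh el eh sl sh tl th bp ba bb bx be bs bt h
    exact fr_sound hom (Or.inl rfl) bp ba bb bx be bs bt h
  | L y =>
    intro pl ph al ah bl bh xl xh el eh sl sh tl th bp ba bb bx be bs bt h
    exact fr_sound hom (Or.inr rfl) bp ba bb bx be bs bt h
  | R =>
    intro pl ph al ah bl bh xl xh el eh sl sh tl th bp ba bb bx be bs bt h
    exact leafR_sound h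
  | A =>
    intro pl ph al ah bl bh xl xh el eh sl sh tl th bp ba bb bx be bs bt h
    exact leafA_sound hom h

end Pool.Agent.Lib.MP_be9f18_nt
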