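import Pool.Agent.Lib.MP_be9f18_nt.Core
import Pool.Agent.Lib.MP_be9f18_nt.Good

/-!
Soundness of the kernel checker `Check.lean`, part A: residues modulo `2^128`, and readable forms
of the checker functions.
-/

set_option autoImplicit false

namespace Pool.Agent.Lib.MP_be9f18_nt
namespace Snd

/-- the modulus `2^128` -/
abbrev MM : ℕ := 0x100000000000000000000000000000000
/-- half of the modulus -/
abbrev HH : ℕ := 0x80000000000000000000000000000000

/-- `X` represents the integer `x`. -/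
def Rp (X : ℕ) (x : ℤ) : Prop := (MM : ℤ) ∣ (X : ℤ) - x

theorem Rp.nat (X : ℕ) : Rp X X := by unfold Rp; simp

theorem Rp.of_eq {X : ℕ} {x y : ℤ} (h : Rp X x) (e : x = y) : Rp X y := e ▸ h

theorem Rp.add {X Y : ℕ} {x y : ℤ} (h : Rp X x) (h' : Rp Y y) : Rp (Nat.add X Y) (x + y) := by
  obtain ⟨a, ha⟩ := h
  obtain ⟨b, hb⟩ := h'
  refine ⟨a + b, ?_⟩
  show ((X + Y : ℕ) : ℤ) - (x + y) = _
  push_cast
  linear_combination ha + hb

theorem Rp.mul {X Y : ℕ} {x y : ℤ} (h : Rp X x) (h' : Rp Y y) : Rp (Nat.mul X Y) (x * y) := by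
  obtain ⟨a, ha⟩ := h
  obtain ⟨b, hb⟩ := h'
  refine ⟨a * y + X * b, ?_⟩
  show ((X * Y : ℕ) : ℤ) - (x * y) = _
  push_cast
  linear_combination y * ha + X * hb

theorem Rp.mod {X : ℕ} {x : ℤ} (h : Rp X x) : Rp (Nat.mod X MM) x := by
  obtain ⟨a, ha⟩ := h
  refine ⟨a - (X / MM : ℕ), ?_⟩
  have h1 := Nat.div_add_mod X MM
  have h2 : ((MM * (X / MM) + X % MM : ℕ) : ℤ) = (X : ℤ) := by exact_mod_cast h1
  show ((X % MM : ℕ) : ℤ) - x = _
  push_cast at h2 ⊢
  linear_combination ha + h2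

/-- the residue of a represented integer, shifted by half of the modulus -/
theorem Rp.shift {X : ℕ} {x : ℤ} (h : Rp X x) (h1 : -(HH : ℤ) ≤ x) (h2 : x < HH) :
    ((Nat.mod (Nat.add X HH) MM : ℕ) : ℤ) = x + HH := by
  obtain ⟨a, ha⟩ := h
  show (((X + HH) % MM : ℕ) : ℤ) = x + HH
  push_cast
  have e : (X : ℤ) + HH = (x + HH) + MM * a := by linear_combination ha
  have e2 : ((X : ℤ) + HH) % MM = x + HH := by
    rw [e, Int.add_mul_emod_self_left]
    refine Int.emod_eq_of_lt (by linarith) ?_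
    have : (MM : ℤ) = HH + HH := by norm_num
    linarith
  exact_mod_cast e2

/-- residue of a represented natural number -/
theorem Rp.mod_eq {X : ℕ} {x : ℤ} (h : Rp X x) (h1 : 0 ≤ x) (h2 : x < MM) :
    ((Nat.mod X MM : ℕ) : ℤ) = x := by
  obtain ⟨a, ha⟩ := h
  show ((X % MM : ℕ) : ℤ) = x
  push_cast
  have e : (X : ℤ) = x + MM * a := by linear_combination ha
  have e2 : (X : ℤ) % MM = x := by
    rw [e, Int.add_mul_emod_self_left]
    exact Int.emod_eq_of_lt h1 h2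
  exact_mod_cast e2

/-- absolute value of the represented integer -/
abbrev absM (X : ℕ) : ℕ :=
  Nat.add (Nat.sub (Nat.mod (Nat.add X HH) MM) HH) (Nat.sub HH (Nat.mod (Nat.add X HH) MM))

theorem dist_eq {T : ℕ} {x : ℤ} (h : (T : ℤ) = x + HH) :
    ((Nat.add (Nat.sub T HH) (Nat.sub HH T) : ℕ) : ℤ) = |x| := by
  show ((T - HH + (HH - T) : ℕ) : ℤ) = |x|
  rcases le_total 0 x with hx | hx
  · rw [abs_of_nonneg hx]; omega
  · rw [abs_of_nonpos hx]; omega

theorem absM_eq {X : ℕ} {x : ℤ} (h : Rp X x) (hx : |x| < HH) : (absM X : ℤ) = |x| := by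
  have := abs_lt.mp hx
  exact dist_eq (h.shift this.1.le this.2)

/-- bounds by powers of two -/
def Bd (x : ℤ) (n : ℕ) : Prop := |x| ≤ 2 ^ n

theorem Bd.mono {x : ℤ} {a b : ℕ} (h : Bd x a) (hab : a ≤ b) : Bd x b :=
  le_trans h (pow_le_pow_right₀ (by norm_num) hab)

theorem Bd.mul {x y : ℤ} {a b : ℕ} (h : Bd x a) (h' : Bd y b) : Bd (x * y) (a + b) := by
  unfold Bd at *
  rw [abs_mul, pow_add]
  exact mul_le_mul h h' (abs_nonneg _) (by positivity)

theorem Bd.add {x y : ℤ} {a : ℕ} (h : Bd x a) (h' : Bd y a) : Bd (x + y) (a + 1) := by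
  unfold Bd at *
  refine (abs_add_le _ _).trans ?_
  rw [pow_succ]
  linarith

theorem Bd.neg {x : ℤ} {a : ℕ} (h : Bd x a) : Bd (-x) a := by
  unfold Bd at *
  rwa [abs_neg]

theorem Bd.sub {x y : ℤ} {a : ℕ} (h : Bd x a) (h' : Bd y a) : Bd (x - y) (a + 1) := by
  rw [sub_eq_add_neg]; exact h.add h'.neg

theorem Bd.abs {x : ℤ} {a : ℕ} (h : Bd x a) : Bd |x| a := by
  unfold Bd at *
  rwa [abs_abs]

theorem Bd.le {x : ℤ} {a : ℕ} (h : Bd x a) : x ≤ 2 ^ a := (le_abs_self _).trans h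

theorem Bd.ge {x : ℤ} {a : ℕ} (h : Bd x a) : -2 ^ a ≤ x := by
  have := neg_abs_le x
  unfold Bd at h
  linarith

theorem Bd.lt {x : ℤ} {a : ℕ} (h : Bd x a) (ha : a ≤ 126) : |x| < HH := by
  have h1 : (2 : ℤ) ^ a ≤ 2 ^ 126 := pow_le_pow_right₀ (by norm_num) ha
  have h2 : (2 : ℤ) ^ 126 < HH := by norm_num
  unfold Bd at h
  linarith

end Snd
end Pool.Agent.Lib.MP_be9f18_nt
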