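import Pool.Agent.Lib.MP_be9f18_nt.SoundA

/-!
Soundness of the kernel checker `Check.lean`, part B: unfolding lemmas of the checker functions.
The literals are first replaced by variables, so that the elaborator never evaluates them.
-/

set_option autoImplicit false
set_option linter.unusedVariables false

namespace Pool.Agent.Lib.MP_be9f18_nt
namespace Snd

/-- The step function of `Chk.rows`, literals replaced by variables. -/
noncomputable def stepG
    (L0 L1 L2 L3 L4 L5 L6 L7 L8 L9 L10 L11 L12 L13 L14 L15 L16 L17 : Nat)
    (sc sw tc tw xc fk fm fn fS fp fa fW gk gm gn gS gp ga gW : Nat)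
    (ih : Nat → Nat → Nat → Nat → Nat → Nat → Nat → Nat → Nat → Nat → Bool)
    (z Gv Gf am an bm bn h cs bad : Nat) : Bool :=
      (fun (m0 n0 r w : Nat) =>
      (fun (k m n na rw : Nat) =>
      (fun (v3c v3w tf u a : Nat) =>
      (fun (M3 af b : Nat) =>
      (fun (vfw Mg : Nat) =>
      (fun (d Mf : Nat) =>
        ih (Nat.shiftRight z L0) (Nat.add Gv (Nat.mul a v3c)) (Nat.add Gf (Nat.mul w af))
          (Nat.add am (Nat.mul a m)) (Nat.add an (Nat.mul a n)) (Nat.add bm (Nat.mul b m))
          (Nat.add bn (Nat.mul b n)) (Nat.add h (Nat.mul b v3c)) (Nat.add cs rw)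
          (Nat.add
            bad
            (Nat.add
              (Nat.add (Nat.sub 1 v3c) (Nat.sub v3c L1))
              (Nat.sub
                (Nat.add
                  (Nat.mul M3 (Nat.add (Nat.mul Mg Mg) (Nat.mul d d)))
                  (Nat.mul (Nat.sub v3w v3c) (Nat.mul Mf Mf)))
                L2))))
        (Nat.sub vfw af) (Nat.add af vfw))
        (Nat.add
          (Nat.add (Nat.mul fS v3w) (Nat.mul fp M3))
          (Nat.add (Nat.mul u fa) (Nat.mul na fW)))
        (Nat.add
          (Nat.add
            (Nat.sub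
              (Nat.mod
                (Nat.add
                  (Nat.add (Nat.add (Nat.mul k gk) (Nat.mul m gm)) (Nat.mul n gn))
                  L3)
                L4)
              L3)
            (Nat.sub
              L3
              (Nat.mod
                (Nat.add
                  (Nat.add (Nat.add (Nat.mul k gk) (Nat.mul m gm)) (Nat.mul n gn))
                  L3)
                L4)))
          (Nat.add
            (Nat.add (Nat.mul gS v3w) (Nat.mul gp M3))
            (Nat.add (Nat.mul u ga) (Nat.mul na gW)))))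
        (Nat.add v3c v3w)
        (Nat.add
          (Nat.sub tf L3)
          (Nat.sub L3 tf))
        (Nat.mul
          w
          (Nat.add L5 (Nat.mul (Nat.shiftRight tf L6) L7))))
        (Nat.mod
          (Nat.add (Nat.add (Nat.mul k L8) (Nat.mul m sc)) (Nat.mul n tc))
          L4)
        (Nat.add (Nat.mul (Nat.add (Nat.sub m0 L9) (Nat.sub L9 m0)) sw) (Nat.mul na tw))
        (Nat.mod
          (Nat.add
            (Nat.add (Nat.add (Nat.mul k fk) (Nat.mul m fm)) (Nat.mul n fn))
            L3)
          L4)
        (Nat.add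
          (Nat.sub
            (Nat.mod
              (Nat.add
                (Nat.add (Nat.mul L8 m) (Nat.mul n xc))
                L3)
              L4)
            L3)
          (Nat.sub
            L3
            (Nat.mod
              (Nat.add
                (Nat.add (Nat.mul L8 m) (Nat.mul n xc))
                L3)
              L4)))
        (Nat.mul rw (Nat.mul r r)))
        (Nat.add (Nat.mod z L10) L11)
        (Nat.add m0 L12)
        (Nat.add n0 L12)
        (Nat.add (Nat.sub n0 L9) (Nat.sub L9 n0)) (Nat.mul w r))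
        (Nat.mod (Nat.shiftRight z 6) L13) (Nat.mod (Nat.shiftRight z L14) L13)
        (Nat.mod (Nat.shiftRight z L9) L15) (Nat.mod (Nat.shiftRight z L16) L17)

theorem stepG_eq
    (L0 L1 L2 L3 L4 L5 L6 L7 L8 L9 L10 L11 L12 L13 L14 L15 L16 L17 : Nat)
    (sc sw tc tw xc fk fm fn fS fp fa fW gk gm gn gS gp ga gW : ℕ)
    (ih : Nat → Nat → Nat → Nat → Nat → Nat → Nat → Nat → Nat → Nat → Bool)
    (z Gv Gf am an bm bn h cs bad : ℕ)
    (m0 n0 r w k m n na rw v3c v3w tf u a M3 af b vfw Mg d Mf : ℕ)
    (hm0 : m0 = Nat.mod (Nat.shiftRight z 6) L13)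
    (hn0 : n0 = Nat.mod (Nat.shiftRight z L14) L13)
    (hr : r = Nat.mod (Nat.shiftRight z L9) L15)
    (hw : w = Nat.mod (Nat.shiftRight z L16) L17)
    (hk : k = Nat.add (Nat.mod z L10) L11)
    (hm : m = Nat.add m0 L12)
    (hn : n = Nat.add n0 L12)
    (hna : na = Nat.add (Nat.sub n0 L9) (Nat.sub L9 n0))
    (hrw : rw = Nat.mul w r)
    (hv3c : v3c = Nat.mod
          (Nat.add (Nat.add (Nat.mul k L8) (Nat.mul m sc)) (Nat.mul n tc))
          L4)
    (hv3w : v3w = Nat.add (Nat.mul (Nat.add (Nat.sub m0 L9) (Nat.sub L9 m0)) sw)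
      (Nat.mul na tw))
    (htf : tf = Nat.mod
          (Nat.add
            (Nat.add (Nat.add (Nat.mul k fk) (Nat.mul m fm)) (Nat.mul n fn))
            L3)
          L4)
    (hu : u = Nat.add
          (Nat.sub
            (Nat.mod
              (Nat.add
                (Nat.add (Nat.mul L8 m) (Nat.mul n xc))
                L3)
              L4)
            L3)
          (Nat.sub
            L3
            (Nat.mod
              (Nat.add
                (Nat.add (Nat.mul L8 m) (Nat.mul n xc))
                L3)
              L4)))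
    (ha : a = Nat.mul rw (Nat.mul r r))
    (hM3 : M3 = Nat.add v3c v3w)
    (haf : af = Nat.add
          (Nat.sub tf L3)
          (Nat.sub L3 tf))
    (hb : b = Nat.mul
          w
          (Nat.add L5 (Nat.mul (Nat.shiftRight tf L6) L7)))
    (hvfw : vfw = Nat.add
          (Nat.add (Nat.mul fS v3w) (Nat.mul fp M3))
          (Nat.add (Nat.mul u fa) (Nat.mul na fW)))
    (hMg : Mg = Nat.add
          (Nat.add
            (Nat.sub
              (Nat.mod
                (Nat.add
                  (Nat.add (Nat.add (Nat.mul k gk) (Nat.mul m gm)) (Nat.mul n gn))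
                  L3)
                L4)
              L3)
            (Nat.sub
              L3
              (Nat.mod
                (Nat.add
                  (Nat.add (Nat.add (Nat.mul k gk) (Nat.mul m gm)) (Nat.mul n gn))
                  L3)
                L4)))
          (Nat.add
            (Nat.add (Nat.mul gS v3w) (Nat.mul gp M3))
            (Nat.add (Nat.mul u ga) (Nat.mul na gW))))
    (hd : d = Nat.sub vfw af) (hMf : Mf = Nat.add af vfw) :
    stepG L0 L1 L2 L3 L4 L5 L6 L7 L8 L9 L10 L11 L12 L13 L14 L15 L16 L17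
      sc sw tc tw xc fk fm fn fS fp fa fW gk gm gn gS gp ga gW ih
        z Gv Gf am an bm bn h cs bad =
      ih
        (Nat.shiftRight z L0) (Nat.add Gv (Nat.mul a v3c)) (Nat.add Gf (Nat.mul w af))
          (Nat.add am (Nat.mul a m)) (Nat.add an (Nat.mul a n)) (Nat.add bm (Nat.mul b m))
          (Nat.add bn (Nat.mul b n)) (Nat.add h (Nat.mul b v3c)) (Nat.add cs rw)
          (Nat.add
            bad
            (Nat.add
              (Nat.add (Nat.sub 1 v3c) (Nat.sub v3c L1))
              (Nat.sub
                (Nat.add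
                  (Nat.mul M3 (Nat.add (Nat.mul Mg Mg) (Nat.mul d d)))
                  (Nat.mul (Nat.sub v3w v3c) (Nat.mul Mf Mf)))
                L2))) := by
  subst hMf hd hMg hvfw hb haf hM3 ha hu htf hv3w hv3c hrw hna hn hm hk hw hr hn0 hm0
  delta stepG
  exact rfl

/-- The step function of `Chk.rows`. -/
noncomputable def step
    (sc sw tc tw xc fk fm fn fS fp fa fW gk gm gn gS gp ga gW : Nat)
    (ih : Nat → Nat → Nat → Nat → Nat → Nat → Nat → Nat → Nat → Nat → Bool)
    (z Gv Gf am an bm bn h cs bad : Nat) : Bool :=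
  stepG 0x2c 0x10000000000 0x7ffffffffffffffffff 0x80000000000000000000000000000000 0x100000000000000000000000000000000 0xffffffffffffffffffffffffffc00000 0x7f 0x800000 0x8000 0x10 0x40 0xffffffffffffffffffffffffffffffe0 0xfffffffffffffffffffffffffffffff0 0x20 0xb 0x400 0x1a 0x40000
    sc sw tc tw xc fk fm fn fS fp fa fW gk gm gn gS gp ga gW ih z Gv Gf am an bm bn h cs bad

theorem rows_eq
    (K : Nat → Nat → Nat → Nat → Nat → Nat → Nat → Nat → Nat → Nat → Bool)
    (sc sw tc tw xc fk fm fn fS fp fa fW gk gm gn gS gp ga gW c : ℕ) :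
    Chk.rows K sc sw tc tw xc fk fm fn fS fp fa fW gk gm gn gS gp ga gW c =
      @Nat.rec (fun _ => Nat → Nat → Nat → Nat → Nat → Nat → Nat → Nat → Nat → Nat → Bool)
        K (fun _ ih => step sc sw tc tw xc fk fm fn fS fp fa fW gk gm gn gS gp ga gW ih) c := by
  delta Chk.rows step stepG
  exact rfl

theorem rows_succ_step
    (K : Nat → Nat → Nat → Nat → Nat → Nat → Nat → Nat → Nat → Nat → Bool)
    (sc sw tc tw xc fk fm fn fS fp fa fW gk gm gn gS gp ga gW c : ℕ) :
    Chk.rows K sc sw tc tw xc fk fm fn fS fp fa fW gk gm gn gS gp ga gW (Nat.succ c) =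
      step sc sw tc tw xc fk fm fn fS fp fa fW gk gm gn gS gp ga gW
        (Chk.rows K sc sw tc tw xc fk fm fn fS fp fa fW gk gm gn gS gp ga gW c) := by
  rw [rows_eq, rows_eq]

theorem rows_zero
    (K : Nat → Nat → Nat → Nat → Nat → Nat → Nat → Nat → Nat → Nat → Bool)
    (sc sw tc tw xc fk fm fn fS fp fa fW gk gm gn gS gp ga gW : ℕ) :
    Chk.rows K sc sw tc tw xc fk fm fn fS fp fa fW gk gm gn gS gp ga gW 0 = K := rfl

theorem rows_succ
    (K : Nat → Nat → Nat → Nat → Nat → Nat → Nat → Nat → Nat → Nat → Bool)
    (sc sw tc tw xc fk fm fn fS fp fa fW gk gm gn gS gp ga gW c : ℕ)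
    (z Gv Gf am an bm bn h cs bad : ℕ)
    (m0 n0 r w k m n na rw v3c v3w tf u a M3 af b vfw Mg d Mf : ℕ)
    (hm0 : m0 = Nat.mod (Nat.shiftRight z 6) 0x20)
    (hn0 : n0 = Nat.mod (Nat.shiftRight z 0xb) 0x20)
    (hr : r = Nat.mod (Nat.shiftRight z 0x10) 0x400)
    (hw : w = Nat.mod (Nat.shiftRight z 0x1a) 0x40000)
    (hk : k = Nat.add (Nat.mod z 0x40) 0xffffffffffffffffffffffffffffffe0)
    (hm : m = Nat.add m0 0xfffffffffffffffffffffffffffffff0)
    (hn : n = Nat.add n0 0xfffffffffffffffffffffffffffffff0)
    (hna : na = Nat.add (Nat.sub n0 0x10) (Nat.sub 0x10 n0))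
    (hrw : rw = Nat.mul w r)
    (hv3c : v3c = Nat.mod
          (Nat.add (Nat.add (Nat.mul k 0x8000) (Nat.mul m sc)) (Nat.mul n tc))
          0x100000000000000000000000000000000)
    (hv3w : v3w = Nat.add (Nat.mul (Nat.add (Nat.sub m0 0x10) (Nat.sub 0x10 m0)) sw)
      (Nat.mul na tw))
    (htf : tf = Nat.mod
          (Nat.add
            (Nat.add (Nat.add (Nat.mul k fk) (Nat.mul m fm)) (Nat.mul n fn))
            0x80000000000000000000000000000000)
          0x100000000000000000000000000000000)
    (hu : u = Nat.add
          (Nat.sub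
            (Nat.mod
              (Nat.add
                (Nat.add (Nat.mul 0x8000 m) (Nat.mul n xc))
                0x80000000000000000000000000000000)
              0x100000000000000000000000000000000)
            0x80000000000000000000000000000000)
          (Nat.sub
            0x80000000000000000000000000000000
            (Nat.mod
              (Nat.add
                (Nat.add (Nat.mul 0x8000 m) (Nat.mul n xc))
                0x80000000000000000000000000000000)
              0x100000000000000000000000000000000)))
    (ha : a = Nat.mul rw (Nat.mul r r))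
    (hM3 : M3 = Nat.add v3c v3w)
    (haf : af = Nat.add
          (Nat.sub tf 0x80000000000000000000000000000000)
          (Nat.sub 0x80000000000000000000000000000000 tf))
    (hb : b = Nat.mul
          w
          (Nat.add 0xffffffffffffffffffffffffffc00000 (Nat.mul (Nat.shiftRight tf 0x7f) 0x800000)))
    (hvfw : vfw = Nat.add
          (Nat.add (Nat.mul fS v3w) (Nat.mul fp M3))
          (Nat.add (Nat.mul u fa) (Nat.mul na fW)))
    (hMg : Mg = Nat.add
          (Nat.add
            (Nat.sub
              (Nat.mod
                (Nat.add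
                  (Nat.add (Nat.add (Nat.mul k gk) (Nat.mul m gm)) (Nat.mul n gn))
                  0x80000000000000000000000000000000)
                0x100000000000000000000000000000000)
              0x80000000000000000000000000000000)
            (Nat.sub
              0x80000000000000000000000000000000
              (Nat.mod
                (Nat.add
                  (Nat.add (Nat.add (Nat.mul k gk) (Nat.mul m gm)) (Nat.mul n gn))
                  0x80000000000000000000000000000000)
                0x100000000000000000000000000000000)))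
          (Nat.add
            (Nat.add (Nat.mul gS v3w) (Nat.mul gp M3))
            (Nat.add (Nat.mul u ga) (Nat.mul na gW))))
    (hd : d = Nat.sub vfw af) (hMf : Mf = Nat.add af vfw) :
    Chk.rows K sc sw tc tw xc fk fm fn fS fp fa fW gk gm gn gS gp ga gW (Nat.succ c)
        z Gv Gf am an bm bn h cs bad =
      Chk.rows K sc sw tc tw xc fk fm fn fS fp fa fW gk gm gn gS gp ga gW c
        (Nat.shiftRight z 0x2c) (Nat.add Gv (Nat.mul a v3c)) (Nat.add Gf (Nat.mul w af))
          (Nat.add am (Nat.mul a m)) (Nat.add an (Nat.mul a n)) (Nat.add bm (Nat.mul b m))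
          (Nat.add bn (Nat.mul b n)) (Nat.add h (Nat.mul b v3c)) (Nat.add cs rw)
          (Nat.add
            bad
            (Nat.add
              (Nat.add (Nat.sub 1 v3c) (Nat.sub v3c 0x10000000000))
              (Nat.sub
                (Nat.add
                  (Nat.mul M3 (Nat.add (Nat.mul Mg Mg) (Nat.mul d d)))
                  (Nat.mul (Nat.sub v3w v3c) (Nat.mul Mf Mf)))
                0x7ffffffffffffffffff))) := by
  rw [rows_succ_step]
  exact stepG_eq 0x2c 0x10000000000 0x7ffffffffffffffffff 0x80000000000000000000000000000000 0x100000000000000000000000000000000 0xffffffffffffffffffffffffffc00000 0x7f 0x800000 0x8000 0x10 0x40 0xffffffffffffffffffffffffffffffe0 0xfffffffffffffffffffffffffffffff0 0x20 0xb 0x400 0x1a 0x40000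
    sc sw tc tw xc fk fm fn fS fp fa fW gk gm gn gS gp ga gW
    _ z Gv Gf am an bm bn h cs bad
    m0 n0 r w k m n na rw v3c v3w tf u a M3 af b vfw Mg d Mf
    hm0 hn0 hr hw hk hm hn hna hrw hv3c hv3w htf hu ha hM3 haf hb hvfw hMg hd hMf

end Snd
end Pool.Agent.Lib.MP_be9f18_nt
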