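import Pool.Agent.Lib.MP_be9f18_nt.SoundB

/-!
Soundness of the kernel checker `Check.lean`, part C: one row.
-/

set_option autoImplicit false

namespace Pool.Agent.Lib.MP_be9f18_nt
namespace Snd

theorem raw_add (a b : ℕ) : Nat.add a b = a + b := rfl
theorem raw_mul (a b : ℕ) : Nat.mul a b = a * b := rfl
theorem raw_sub (a b : ℕ) : Nat.sub a b = a - b := rfl

theorem raw_add_zero {a b : ℕ} (h : Nat.add a b = 0) : a = 0 ∧ b = 0 := by
  rw [raw_add] at h; omega

theorem raw_sub_zero {a b : ℕ} (h : Nat.sub a b = 0) : a ≤ b := by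
  rw [raw_sub] at h; omega

theorem Rp.litk : Rp 0xffffffffffffffffffffffffffffffe0 (-32) := ⟨1, by norm_num⟩
theorem Rp.litm : Rp 0xfffffffffffffffffffffffffffffff0 (-16) := ⟨1, by norm_num⟩
theorem Rp.litb : Rp 0xffffffffffffffffffffffffffc00000 (-4194304) := ⟨1, by norm_num⟩

theorem dist16 {m0 : ℕ} :
    ((Nat.add (Nat.sub m0 0x10) (Nat.sub 0x10 m0) : ℕ) : ℤ) = |(m0 : ℤ) - 16| := by
  rw [raw_add, raw_sub, raw_sub]
  rcases le_total (m0 : ℤ) 16 with h | h
  · rw [abs_of_nonpos (by linarith)]; omega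
  · rw [abs_of_nonneg (by linarith)]; omega

theorem dist32 {m0 : ℕ} :
    ((Nat.add (Nat.sub m0 0x20) (Nat.sub 0x20 m0) : ℕ) : ℤ) = |(m0 : ℤ) - 32| := by
  rw [raw_add, raw_sub, raw_sub]
  rcases le_total (m0 : ℤ) 32 with h | h
  · rw [abs_of_nonpos (by linarith)]; omega
  · rw [abs_of_nonneg (by linarith)]; omega

/-- the sign bit -/
theorem shift_sign {T : ℕ} (h : T < MM) : Nat.shiftRight T 0x7f = if HH ≤ T then 1 else 0 := by
  show T >>> 127 = _
  rw [Nat.shiftRight_eq_div_pow]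
  split_ifs with h1
  · have : T / 2 ^ 127 < 2 := by
      rw [Nat.div_lt_iff_lt_mul (by positivity)]
      calc T < MM := h
        _ = 2 * 2 ^ 127 := by norm_num
    have h2 : 1 ≤ T / 2 ^ 127 := by
      rw [Nat.le_div_iff_mul_le (by positivity)]
      calc 1 * 2 ^ 127 = HH := by norm_num
        _ ≤ T := h1
    omega
  · rw [Nat.div_eq_zero_iff]
    right
    push Not at h1
    calc T < HH := h1
      _ = 2 ^ 127 := by norm_num

/-- A face (first or second coordinate of a lattice point): residues `FK FM FN` of the centres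
`fk fm fn`, half width parameters `fS fp fa fW`, and the real coefficients `Vk Vm Vn`. -/
structure Face (xc sw tw : ℕ) (sc tc : ℤ) (FK FM FN fS fp fa fW : ℕ) (fk fm fn : ℤ)
    (Vk Vm Vn : ℝ) : Prop where
  rk : Rp FK fk
  rm : Rp FM fm
  rn : Rp FN fn
  bk : Bd fk 38
  bm : Bd fm 38
  bn : Bd fn 38
  near : ∀ k m n : ℤ, 0 ≤ k * 32768 + m * sc + n * tc →
    |(32768 : ℝ) ^ 2 * (k * Vk + m * Vm + n * Vn) - ((k * fk + m * fm + n * fn : ℤ) : ℝ)| ≤
      ((fS * (|m| * sw + |n| * tw)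
        + fp * ((k * 32768 + m * sc + n * tc) + (|m| * sw + |n| * tw))
        + (|32768 * m + n * xc| * fa + |n| * fW) : ℤ) : ℝ)

/-- One valid row. -/
theorem row_step {xc sw tw SC TC : ℕ} {sc tc : ℤ} {s t : ℝ}
    {FK FM FN fS fp fa fW : ℕ} {fk fm fn : ℤ} {Vk Vm Vn : ℝ}
    {GK GM GN gS gp ga gW : ℕ} {gk gm gn : ℤ} {Wk Wm Wn : ℝ}
    (Ff : Face xc sw tw sc tc FK FM FN fS fp fa fW fk fm fn Vk Vm Vn)
    (Fg : Face xc sw tw sc tc GK GM GN gS gp ga gW gk gm gn Wk Wm Wn)
    (hSC : Rp SC sc) (hTC : Rp TC tc) (bsc : Bd sc 20) (btc : Bd tc 20)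
    (bxc : Bd xc 20)
    (hs : |32768 * s - sc| ≤ sw) (ht : |32768 * t - tc| ≤ tw)
    (hG : ∀ k m n : ℤ, ¬(k = 0 ∧ m = 0 ∧ n = 0) →
      1 ≤ |k + m * s + n * t| * max ((k * Vk + m * Vm + n * Vn) ^ 2)
        ((k * Wk + m * Wm + n * Wn) ^ 2))
    (z m0 n0 r w k m n na rw v3c v3w tf u a M3 af b vfw Mg d Mf : ℕ)
    (hm0 : m0 = Nat.mod (Nat.shiftRight z 6) 0x20)
    (hn0 : n0 = Nat.mod (Nat.shiftRight z 0xb) 0x20)
    (hr : r = Nat.mod (Nat.shiftRight z 0x10) 0x400)
    (hw : w = Nat.mod (Nat.shiftRight z 0x1a) 0x40000)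
    (hk : k = Nat.add (Nat.mod z 0x40) 0xffffffffffffffffffffffffffffffe0)
    (hm : m = Nat.add m0 0xfffffffffffffffffffffffffffffff0)
    (hn : n = Nat.add n0 0xfffffffffffffffffffffffffffffff0)
    (hna : na = Nat.add (Nat.sub n0 0x10) (Nat.sub 0x10 n0))
    (hrw : rw = Nat.mul w r)
    (hv3c : v3c = Nat.mod
          (Nat.add (Nat.add (Nat.mul k 0x8000) (Nat.mul m SC)) (Nat.mul n TC))
          0x100000000000000000000000000000000)
    (hv3w : v3w = Nat.add (Nat.mul (Nat.add (Nat.sub m0 0x10) (Nat.sub 0x10 m0)) sw)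
      (Nat.mul na tw))
    (htf : tf = Nat.mod
          (Nat.add
            (Nat.add (Nat.add (Nat.mul k FK) (Nat.mul m FM)) (Nat.mul n FN))
            0x80000000000000000000000000000000)
          0x100000000000000000000000000000000)
    (hu : u = Nat.add
          (Nat.sub
            (Nat.mod
              (Nat.add
                (Nat.add (Nat.mul 0x8000 m) (Nat.mul n xc))
                0x80000000000000000000000000000000)
              0x100000000000000000000000000000000)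
            0x80000000000000000000000000000000)
          (Nat.sub
            0x80000000000000000000000000000000
            (Nat.mod
              (Nat.add
                (Nat.add (Nat.mul 0x8000 m) (Nat.mul n xc))
                0x80000000000000000000000000000000)
              0x100000000000000000000000000000000)))
    (ha : a = Nat.mul rw (Nat.mul r r))
    (hM3 : M3 = Nat.add v3c v3w)
    (haf : af = Nat.add
          (Nat.sub tf 0x80000000000000000000000000000000)
          (Nat.sub 0x80000000000000000000000000000000 tf))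
    (hb : b = Nat.mul
          w
          (Nat.add 0xffffffffffffffffffffffffffc00000 (Nat.mul (Nat.shiftRight tf 0x7f) 0x800000)))
    (hvfw : vfw = Nat.add
          (Nat.add (Nat.mul fS v3w) (Nat.mul fp M3))
          (Nat.add (Nat.mul u fa) (Nat.mul na fW)))
    (hMg : Mg = Nat.add
          (Nat.add
            (Nat.sub
              (Nat.mod
                (Nat.add
                  (Nat.add (Nat.add (Nat.mul k GK) (Nat.mul m GM)) (Nat.mul n GN))
                  0x80000000000000000000000000000000)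
                0x100000000000000000000000000000000)
              0x80000000000000000000000000000000)
            (Nat.sub
              0x80000000000000000000000000000000
              (Nat.mod
                (Nat.add
                  (Nat.add (Nat.add (Nat.mul k GK) (Nat.mul m GM)) (Nat.mul n GN))
                  0x80000000000000000000000000000000)
                0x100000000000000000000000000000000)))
          (Nat.add
            (Nat.add (Nat.mul gS v3w) (Nat.mul gp M3))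
            (Nat.add (Nat.mul u ga) (Nat.mul na gW))))
    (hd : d = Nat.sub vfw af) (hMf : Mf = Nat.add af vfw)
    (hdef : Nat.add
              (Nat.add (Nat.sub 1 v3c) (Nat.sub v3c 0x10000000000))
              (Nat.sub
                (Nat.add
                  (Nat.mul M3 (Nat.add (Nat.mul Mg Mg) (Nat.mul d d)))
                  (Nat.mul (Nat.sub v3w v3c) (Nat.mul Mf Mf)))
                0x7ffffffffffffffffff) = 0) :
    ∃ ki mi ni q : ℤ, Bd ki 5 ∧ Bd mi 4 ∧ Bd ni 4 ∧ Rp m mi ∧ Rp n ni ∧ a < 2 ^ 48 ∧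
      rw < 2 ^ 28 ∧
      (v3c : ℤ) = ki * 32768 + mi * sc + ni * tc ∧ Rp b q ∧ Bd q 40 ∧
      4194304 * ((w : ℤ) * af) = q * (ki * fk + mi * fm + ni * fn) ∧
      49152 * (rw : ℝ) ≤ a * (ki + mi * s + ni * t) + q * (ki * Vk + mi * Vm + ni * Vn) := by
  -- decoded literals
  obtain ⟨ki, hki⟩ : ∃ ki : ℤ, ki = ((z % 64 : ℕ) : ℤ) - 32 := ⟨_, rfl⟩
  obtain ⟨mi, hmi⟩ : ∃ mi : ℤ, mi = (m0 : ℤ) - 16 := ⟨_, rfl⟩
  obtain ⟨ni, hni⟩ : ∃ ni : ℤ, ni = (n0 : ℤ) - 16 := ⟨_, rfl⟩
  have hm0' : m0 < 32 := by rw [hm0]; exact Nat.mod_lt _ (by norm_num)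
  have hn0' : n0 < 32 := by rw [hn0]; exact Nat.mod_lt _ (by norm_num)
  have hr' : r < 1024 := by rw [hr]; exact Nat.mod_lt _ (by norm_num)
  have hw' : w < 262144 := by rw [hw]; exact Nat.mod_lt _ (by norm_num)
  have hk0' : z % 64 < 64 := Nat.mod_lt _ (by norm_num)
  have bki : Bd ki 5 := by unfold Bd; rw [abs_le]; constructor <;> norm_num <;> omega
  have bmi : Bd mi 4 := by unfold Bd; rw [abs_le]; constructor <;> norm_num <;> omega
  have bni : Bd ni 4 := by unfold Bd; rw [abs_le]; constructor <;> norm_num <;> omega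
  have rk : Rp k ki := by
    rw [hk]
    exact (Rp.add (Rp.nat (Nat.mod z 0x40)) Rp.litk).of_eq (by rw [hki]; rfl)
  have rm : Rp m mi := by
    rw [hm]
    exact (Rp.add (Rp.nat m0) Rp.litm).of_eq (by rw [hmi]; rfl)
  have rn : Rp n ni := by
    rw [hn]
    exact (Rp.add (Rp.nat n0) Rp.litm).of_eq (by rw [hni]; rfl)
  have ena : (na : ℤ) = |ni| := by rw [hna, dist16, hni]
  -- v3
  obtain ⟨hdef1, hdef2⟩ := raw_add_zero hdef
  obtain ⟨hdef3, hdef4⟩ := raw_add_zero hdef1
  have hv1 := raw_sub_zero hdef3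
  have hv2 := raw_sub_zero hdef4
  have hv3 := raw_sub_zero hdef2
  clear hdef hdef1 hdef2 hdef3 hdef4
  have r3 : Rp v3c (ki * 32768 + mi * sc + ni * tc) := by
    rw [hv3c]
    exact (Rp.add (Rp.add (Rp.mul rk (Rp.nat 0x8000)) (Rp.mul rm hSC)) (Rp.mul rn hTC)).mod
  have b3 : Bd (ki * 32768 + mi * sc + ni * tc) 26 := by
    have h1 : Bd (ki * 32768) 20 := (bki.mul (show Bd 32768 15 by unfold Bd; norm_num)).mono
      (by norm_num)
    exact ((h1.mono (by norm_num : 20 ≤ 24)).add ((bmi.mul bsc).mono (by norm_num))).add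
      ((bni.mul btc).mono (by norm_num))
  have e3 : (v3c : ℤ) = ki * 32768 + mi * sc + ni * tc := by
    obtain ⟨c, hc⟩ := r3
    have h1 := b3.le
    have h2 := b3.ge
    have h3 : (v3c : ℤ) ≤ 0x10000000000 := by exact_mod_cast hv2
    have h4 : (0 : ℤ) ≤ v3c := Nat.cast_nonneg _
    have h5 : c = 0 := by
      have h6 : (MM : ℤ) * c < MM := by
        rw [← hc]; norm_num at h1 h2 ⊢; linarith
      have h7 : -(MM : ℤ) < MM * c := by
        rw [← hc]; norm_num at h1 h2 ⊢; linarith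
      norm_num at h6 h7
      omega
    rw [h5] at hc
    linarith
  have hv1' : (1 : ℤ) ≤ ki * 32768 + mi * sc + ni * tc := by rw [← e3]; exact_mod_cast hv1
  have hne : ¬(ki = 0 ∧ mi = 0 ∧ ni = 0) := by
    rintro ⟨h1, h2, h3⟩
    rw [h1, h2, h3] at hv1'
    norm_num at hv1'
  have e3w : (v3w : ℤ) = |mi| * sw + |ni| * tw := by
    rw [hv3w, raw_add, raw_mul, raw_mul]
    rw [Nat.cast_add, Nat.cast_mul, Nat.cast_mul, ena, dist16, hmi]
  -- face value
  obtain ⟨vf, hvf⟩ : ∃ vf : ℤ, vf = ki * fk + mi * fm + ni * fn := ⟨_, rfl⟩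
  obtain ⟨vg, hvg⟩ : ∃ vg : ℤ, vg = ki * gk + mi * gm + ni * gn := ⟨_, rfl⟩
  have rcf : Rp (Nat.add (Nat.add (Nat.mul k FK) (Nat.mul m FM)) (Nat.mul n FN)) vf :=
    (Rp.add (Rp.add (Rp.mul rk Ff.rk) (Rp.mul rm Ff.rm)) (Rp.mul rn Ff.rn)).of_eq hvf.symm
  have rcg : Rp (Nat.add (Nat.add (Nat.mul k GK) (Nat.mul m GM)) (Nat.mul n GN)) vg :=
    (Rp.add (Rp.add (Rp.mul rk Fg.rk) (Rp.mul rm Fg.rm)) (Rp.mul rn Fg.rn)).of_eq hvg.symm
  have bvf : Bd vf 46 := by
    rw [hvf]
    exact ((((bki.mul Ff.bk).mono (by norm_num : 5 + 38 ≤ 44)).add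
      ((bmi.mul Ff.bm).mono (by norm_num))).add ((bni.mul Ff.bn).mono (by norm_num)))
  have bvg : Bd vg 46 := by
    rw [hvg]
    exact ((((bki.mul Fg.bk).mono (by norm_num : 5 + 38 ≤ 44)).add
      ((bmi.mul Fg.bm).mono (by norm_num))).add ((bni.mul Fg.bn).mono (by norm_num)))
  have hvfl := abs_lt.mp (bvf.lt (by norm_num))
  have etf : (tf : ℤ) = vf + HH := by
    rw [htf]; exact rcf.shift hvfl.1.le hvfl.2
  have eaf : (af : ℤ) = |vf| := by
    rw [haf]; exact dist_eq etf
  have eag : ((Nat.add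
            (Nat.sub
              (Nat.mod
                (Nat.add
                  (Nat.add (Nat.add (Nat.mul k GK) (Nat.mul m GM)) (Nat.mul n GN))
                  0x80000000000000000000000000000000)
                0x100000000000000000000000000000000)
              0x80000000000000000000000000000000)
            (Nat.sub
              0x80000000000000000000000000000000
              (Nat.mod
                (Nat.add
                  (Nat.add (Nat.add (Nat.mul k GK) (Nat.mul m GM)) (Nat.mul n GN))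
                  0x80000000000000000000000000000000)
                0x100000000000000000000000000000000)) : ℕ) : ℤ) = |vg| :=
    absM_eq rcg (bvg.lt (by norm_num))
  have eu : (u : ℤ) = |32768 * mi + ni * xc| := by
    rw [hu]
    refine absM_eq (Rp.add (Rp.mul (Rp.nat 0x8000) rm) (Rp.mul rn (Rp.nat xc))) ?_
    have h1 : Bd ((32768 : ℤ) * mi) 24 := ((show Bd 32768 15 by unfold Bd; norm_num).mul bmi).mono
      (by norm_num)
    exact (h1.add ((bni.mul bxc).mono (by norm_num))).lt (by norm_num)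
  have eM3 : (M3 : ℤ) = v3c + v3w := by rw [hM3, raw_add]; push_cast; ring
  have evfw : (vfw : ℤ) = fS * v3w + fp * M3 + (u * fa + na * fW) := by
    rw [hvfw, raw_add, raw_add, raw_add, raw_mul, raw_mul, raw_mul, raw_mul]; push_cast; ring
  have eMg : (Mg : ℤ) = |vg| + (gS * v3w + gp * M3 + (u * ga + na * gW)) := by
    rw [hMg, raw_add, Nat.cast_add, eag]
    rw [raw_add, raw_add, raw_add, raw_mul, raw_mul, raw_mul, raw_mul]; push_cast; ring
  have eMf : (Mf : ℤ) = |vf| + vfw := by rw [hMf, raw_add, Nat.cast_add, eaf]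
  have ed : (d : ℤ) = max 0 (vfw - |vf|) := by
    rw [hd, raw_sub, ← eaf]
    rcases le_total (vfw : ℤ) (af : ℤ) with h | h
    · rw [max_eq_left (by linarith)]; omega
    · rw [max_eq_right (by linarith)]; omega
  have ed3 : ((Nat.sub v3w v3c : ℕ) : ℤ) = max 0 ((v3w : ℤ) - v3c) := by
    rw [raw_sub]
    rcases le_total (v3w : ℤ) (v3c : ℤ) with h | h
    · rw [max_eq_left (by linarith)]; omega
    · rw [max_eq_right (by linarith)]; omega
  -- sign
  obtain ⟨sg, hsg⟩ : ∃ sg : ℤ, sg = if 0 ≤ vf then 1 else -1 := ⟨_, rfl⟩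
  have hsg1 : sg = 1 ∨ sg = -1 := by
    rw [hsg]; split_ifs <;> simp
  have hsgv : sg * vf = |vf| := by
    rw [hsg]; split_ifs with h
    · rw [abs_of_nonneg h]; ring
    · rw [abs_of_neg (by linarith)]; ring
  have rb : Rp b (4194304 * w * sg) := by
    have htfM : tf < MM := by
      have h1 := hvfl.2
      have : (tf : ℤ) < MM := by rw [etf]; norm_num at h1 ⊢; linarith
      exact_mod_cast this
    have e1 := shift_sign htfM
    rw [hb]
    refine (Rp.mul (Rp.nat w) (Rp.add Rp.litb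
      (Rp.mul (Rp.nat (Nat.shiftRight tf 0x7f)) (Rp.nat 0x800000)))).of_eq ?_
    rw [e1, hsg]
    have e2 : (HH ≤ tf) ↔ 0 ≤ vf := by
      constructor
      · intro h
        have : (HH : ℤ) ≤ tf := by exact_mod_cast h
        rw [etf] at this; linarith
      · intro h
        have : (HH : ℤ) ≤ tf := by rw [etf]; linarith
        exact_mod_cast this
    by_cases h : 0 ≤ vf
    · rw [if_pos (e2.mpr h), if_pos h]; push_cast; ring
    · rw [if_neg (fun h' => h (e2.mp h')), if_neg h]; push_cast; ring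
  have bw : Bd (w : ℤ) 18 := by
    unfold Bd; rw [abs_of_nonneg (Nat.cast_nonneg _)]; norm_num; omega
  have bq : Bd (4194304 * w * sg) 40 := by
    have h1 : Bd (4194304 : ℤ) 22 := by unfold Bd; norm_num
    have h2 : Bd sg 0 := by unfold Bd; rcases hsg1 with h | h <;> rw [h] <;> norm_num
    exact ((h1.mul bw).mul h2).mono (by norm_num)
  have harw : rw < 2 ^ 28 := by
    rw [hrw, raw_mul]
    calc w * r < 262144 * 1024 := Nat.mul_lt_mul'' hw' hr'
      _ = 2 ^ 28 := by norm_num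
  have haa : a < 2 ^ 48 := by
    rw [ha, raw_mul, raw_mul]
    calc rw * (r * r) < 2 ^ 28 * (1024 * 1024) :=
          Nat.mul_lt_mul'' harw (Nat.mul_lt_mul'' hr' hr')
      _ = 2 ^ 48 := by norm_num
  refine ⟨ki, mi, ni, 4194304 * w * sg, bki, bmi, bni, rm, rn, haa, harw, e3, rb, bq, ?_, ?_⟩
  · rw [eaf, ← hsgv, hvf]; ring
  -- the inequality
  have c3 := Core.v3_bound (S := 32768) (ki : ℝ) mi ni hs ht
  have nearf := Ff.near ki mi ni (by linarith)
  have nearg := Fg.near ki mi ni (by linarith)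
  have f1 : (fS * (|mi| * sw + |ni| * tw)
        + fp * ((ki * 32768 + mi * sc + ni * tc) + (|mi| * sw + |ni| * tw))
        + (|32768 * mi + ni * xc| * fa + |ni| * fW) : ℤ) = vfw := by
    rw [evfw, eM3, e3, e3w, eu, ena]
  have g1 : (gS * (|mi| * sw + |ni| * tw)
        + gp * ((ki * 32768 + mi * sc + ni * tc) + (|mi| * sw + |ni| * tw))
        + (|32768 * mi + ni * xc| * ga + |ni| * gW) : ℤ)
        = (gS * v3w + gp * M3 + (u * ga + na * gW) : ℤ) := by
    rw [eM3, e3, e3w, eu, ena]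
  rw [f1, ← hvf] at nearf
  rw [g1, ← hvg] at nearg
  -- the numerical condition
  have hnum : (M3 : ℤ) * (Mg ^ 2 + d ^ 2) + max 0 ((v3w : ℤ) - v3c) * Mf ^ 2
      ≤ 0x7ffffffffffffffffff := by
    have h1 : ((M3 * (Mg * Mg + d * d) + (Nat.sub v3w v3c) * (Mf * Mf) : ℕ) : ℤ)
        ≤ 0x7ffffffffffffffffff := by exact_mod_cast hv3
    rw [← ed3]
    push_cast at h1 ⊢
    linarith
  have hM3n : (0 : ℤ) ≤ M3 := Nat.cast_nonneg _
  have q1 : (M3 : ℤ) * Mg ^ 2 ≤ 0x7ffffffffffffffffff := by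
    have := mul_nonneg hM3n (sq_nonneg (d : ℤ))
    have h2 : 0 ≤ max 0 ((v3w : ℤ) - v3c) * (Mf : ℤ) ^ 2 :=
      mul_nonneg (le_max_left _ _) (sq_nonneg _)
    linarith
  have q2 : (M3 : ℤ) * d ^ 2 ≤ 0x7ffffffffffffffffff := by
    have := mul_nonneg hM3n (sq_nonneg (Mg : ℤ))
    have h2 : 0 ≤ max 0 ((v3w : ℤ) - v3c) * (Mf : ℤ) ^ 2 :=
      mul_nonneg (le_max_left _ _) (sq_nonneg _)
    linarith
  have q3 : max 0 ((v3w : ℤ) - v3c) * (Mf : ℤ) ^ 2 ≤ 0x7ffffffffffffffffff := by
    have := mul_nonneg hM3n (sq_nonneg (d : ℤ))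
    have := mul_nonneg hM3n (sq_nonneg (Mg : ℤ))
    linarith
  rw [eM3, eMg] at q1
  rw [eM3, ed] at q2
  rw [eMf] at q3
  have hS5 : ((0x7ffffffffffffffffff : ℤ) : ℝ) < (32768 : ℝ) ^ 5 := by norm_num
  have Q1 : ((v3c : ℤ) : ℝ) + (v3w : ℤ) = ((v3c + v3w : ℤ) : ℝ) := by push_cast; ring
  have e3r : ((v3c : ℤ) : ℝ) = ki * 32768 + mi * sc + ni * tc := by rw [e3]; push_cast; ring
  have e3wr : ((v3w : ℤ) : ℝ) = |(mi : ℝ)| * sw + |(ni : ℝ)| * tw := by rw [e3w]; push_cast; ring
  rw [← e3r, ← e3wr] at c3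
  have key := Core.row_ineq (S := 32768) (v3 := ki + mi * s + ni * t)
    (vf := ki * Vk + mi * Vm + ni * Vn) (vg := ki * Wk + mi * Wm + ni * Wn)
    (v3c := ((v3c : ℤ) : ℝ)) (v3w := ((v3w : ℤ) : ℝ)) (vfc := (vf : ℝ)) (vfw := ((vfw : ℤ) : ℝ))
    (vgc := (vg : ℝ)) (vgw := ((gS * v3w + gp * M3 + (u * ga + na * gW) : ℤ) : ℝ))
    (sg := (sg : ℝ)) (R := 128) (r := r) (w := w)
    (by norm_num) c3 nearf nearg (by exact_mod_cast Int.natCast_nonneg v3c)
    (by rcases hsg1 with h | h <;> rw [h] <;> norm_num)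
    (lt_of_le_of_lt (by exact_mod_cast q1) hS5)
    (by
      refine lt_of_le_of_lt ?_ hS5
      have : (sg : ℝ) * (vf : ℝ) = ((|vf| : ℤ) : ℝ) := by rw [← hsgv]; push_cast; ring
      rw [this]
      exact_mod_cast q2)
    (lt_of_le_of_lt (by exact_mod_cast q3) hS5)
    (hG ki mi ni hne) (by norm_num) (Nat.cast_nonneg _) (Nat.cast_nonneg _)
  have ea : (a : ℝ) = w * r ^ 3 := by rw [ha, hrw]; simp only [raw_mul]; push_cast; ring
  have erw : (rw : ℝ) = w * r := by rw [hrw, raw_mul]; push_cast; ring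
  have eqq : ((4194304 * w * sg : ℤ) : ℝ) = 4194304 * w * sg := by push_cast; ring
  rw [ea, erw, eqq]
  clear hm0 hn0 hr hw hk hm hn hna hrw hv3c hv3w htf hu ha hM3 haf hb hvfw hMg hd hMf
  refine le_trans (le_of_eq ?_) (le_trans key (le_of_eq ?_))
  · ring
  · ring

end Snd
end Pool.Agent.Lib.MP_be9f18_nt
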