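import Pool.Agent.Lib.MP_be9f18_nt.SoundC

/-!
Soundness of the kernel checker `Check.lean`, part D: the loop over the rows.
-/

set_option autoImplicit false

namespace Pool.Agent.Lib.MP_be9f18_nt
namespace Snd

/-- Invariant of the loop. -/
def Inv (cnt : ℕ) (sc tc : ℤ) (s t : ℝ) (fk fm fn : ℤ) (Vk Vm Vn : ℝ) (G0 : ℤ) (X0 : ℝ)
    (Gv Gf am an bm bn h cs : ℕ) : Prop :=
  ∃ kv am' an' kb bm' bn' : ℤ,
    Rp Gv (kv * 32768 + am' * sc + an' * tc) ∧
    4194304 * (Gf : ℤ) = G0 + (kb * fk + bm' * fm + bn' * fn) ∧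
    Rp am am' ∧ Rp an an' ∧ Rp bm bm' ∧ Rp bn bn' ∧
    Rp h (kb * 32768 + bm' * sc + bn' * tc) ∧
    |kv| ≤ cnt * 2 ^ 53 ∧ |am'| ≤ cnt * 2 ^ 52 ∧ |an'| ≤ cnt * 2 ^ 52 ∧
    |kb| ≤ cnt * 2 ^ 45 ∧ |bm'| ≤ cnt * 2 ^ 44 ∧ |bn'| ≤ cnt * 2 ^ 44 ∧
    cs ≤ cnt * 2 ^ 28 ∧
    49152 * (cs : ℝ) ≤ (kv + am' * s + an' * t) + (kb * Vk + bm' * Vm + bn' * Vn) + X0

theorem bd_step {x y q : ℤ} {cnt e f : ℕ} (hx : |x| ≤ cnt * 2 ^ (e + f)) (hy : Bd y f)
    (hq : |q| ≤ 2 ^ e) : |x + q * y| ≤ (cnt + 1 : ℕ) * 2 ^ (e + f) := by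
  refine (abs_add_le _ _).trans ?_
  have h1 : |q * y| ≤ 2 ^ (e + f) := by
    rw [abs_mul, pow_add]
    exact mul_le_mul hq hy (abs_nonneg _) (by positivity)
  push_cast
  linarith

theorem rows_bad
    (K : Nat → Nat → Nat → Nat → Nat → Nat → Nat → Nat → Nat → Nat → Bool)
    (sc sw tc tw xc fk fm fn fS fp fa fW gk gm gn gS gp ga gW : ℕ)
    (hK : ∀ z Gv Gf am an bm bn h cs bad, K z Gv Gf am an bm bn h cs bad = true → bad = 0)
    (c : ℕ) : ∀ z Gv Gf am an bm bn h cs bad : ℕ,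
    Chk.rows K sc sw tc tw xc fk fm fn fS fp fa fW gk gm gn gS gp ga gW c
        z Gv Gf am an bm bn h cs bad = true → bad = 0 := by
  induction c with
  | zero =>
    intro z Gv Gf am an bm bn h cs bad hh
    rw [rows_zero] at hh
    exact hK _ _ _ _ _ _ _ _ _ _ hh
  | succ c ih =>
    intro z Gv Gf am an bm bn h cs bad hh
    change Chk.rows K sc sw tc tw xc fk fm fn fS fp fa fW gk gm gn gS gp ga gW (Nat.succ c)
        z Gv Gf am an bm bn h cs bad = true at hh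
    rw [rows_succ K sc sw tc tw xc fk fm fn fS fp fa fW gk gm gn gS gp ga gW c
      z Gv Gf am an bm bn h cs bad
      _ _ _ _ _ _ _ _ _ _ _ _ _ _ _ _ _ _ _ _ _
      rfl rfl rfl rfl rfl rfl rfl rfl rfl rfl rfl rfl rfl rfl rfl rfl rfl rfl rfl rfl rfl] at hh
    exact (raw_add_zero (ih _ _ _ _ _ _ _ _ _ _ hh)).1

theorem rows_inv
    (K : Nat → Nat → Nat → Nat → Nat → Nat → Nat → Nat → Nat → Nat → Bool)
    (hK : ∀ z Gv Gf am an bm bn h cs bad, K z Gv Gf am an bm bn h cs bad = true → bad = 0)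
    {xc sw tw SC TC : ℕ} {sc tc : ℤ} {s t : ℝ}
    {FK FM FN fS fp fa fW : ℕ} {fk fm fn : ℤ} {Vk Vm Vn : ℝ}
    {GK GM GN gS gp ga gW : ℕ} {gk gm gn : ℤ} {Wk Wm Wn : ℝ}
    (Ff : Face xc sw tw sc tc FK FM FN fS fp fa fW fk fm fn Vk Vm Vn)
    (Fg : Face xc sw tw sc tc GK GM GN gS gp ga gW gk gm gn Wk Wm Wn)
    (hSC : Rp SC sc) (hTC : Rp TC tc) (bsc : Bd sc 20) (btc : Bd tc 20)
    (bxc : Bd xc 20)
    (hs : |32768 * s - sc| ≤ sw) (ht : |32768 * t - tc| ≤ tw)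
    (hG : ∀ k m n : ℤ, ¬(k = 0 ∧ m = 0 ∧ n = 0) →
      1 ≤ |k + m * s + n * t| * max ((k * Vk + m * Vm + n * Vn) ^ 2)
        ((k * Wk + m * Wm + n * Wn) ^ 2)) (G0 : ℤ) (X0 : ℝ) (c : ℕ) :
    ∀ cnt z Gv Gf am an bm bn h cs bad : ℕ,
    Inv cnt sc tc s t fk fm fn Vk Vm Vn G0 X0 Gv Gf am an bm bn h cs →
    Chk.rows K SC sw TC tw xc FK FM FN fS fp fa fW GK GM GN gS gp ga gW c
        z Gv Gf am an bm bn h cs bad = true →
    ∃ z' Gv' Gf' am' an' bm' bn' h' cs' bad' : ℕ,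
      Inv (cnt + c) sc tc s t fk fm fn Vk Vm Vn G0 X0 Gv' Gf' am' an' bm' bn' h' cs' ∧
      K z' Gv' Gf' am' an' bm' bn' h' cs' bad' = true := by
  induction c with
  | zero =>
    intro cnt z Gv Gf am an bm bn h cs bad hI hh
    rw [rows_zero] at hh
    exact ⟨_, _, _, _, _, _, _, _, _, _, hI, hh⟩
  | succ c ih =>
    intro cnt z Gv Gf am an bm bn h cs bad hI hh
    change Chk.rows K SC sw TC tw xc FK FM FN fS fp fa fW GK GM GN gS gp ga gW (Nat.succ c)
        z Gv Gf am an bm bn h cs bad = true at hh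
    obtain ⟨m0, hm0⟩ : ∃ v, v = Nat.mod (Nat.shiftRight z 6) 0x20 := ⟨_, rfl⟩
    obtain ⟨n0, hn0⟩ : ∃ v, v = Nat.mod (Nat.shiftRight z 0xb) 0x20 := ⟨_, rfl⟩
    obtain ⟨r, hr⟩ : ∃ v, v = Nat.mod (Nat.shiftRight z 0x10) 0x400 := ⟨_, rfl⟩
    obtain ⟨w, hw⟩ : ∃ v, v = Nat.mod (Nat.shiftRight z 0x1a) 0x40000 := ⟨_, rfl⟩
    obtain ⟨k, hk⟩ : ∃ v, v = Nat.add (Nat.mod z 0x40) 0xffffffffffffffffffffffffffffffe0 :=
      ⟨_, rfl⟩
    obtain ⟨m, hm⟩ : ∃ v, v = Nat.add m0 0xfffffffffffffffffffffffffffffff0 := ⟨_, rfl⟩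
    obtain ⟨n, hn⟩ : ∃ v, v = Nat.add n0 0xfffffffffffffffffffffffffffffff0 := ⟨_, rfl⟩
    obtain ⟨na, hna⟩ : ∃ v, v = Nat.add (Nat.sub n0 0x10) (Nat.sub 0x10 n0) := ⟨_, rfl⟩
    obtain ⟨rw, hrw⟩ : ∃ v, v = Nat.mul w r := ⟨_, rfl⟩
    obtain ⟨v3c, hv3c⟩ : ∃ v, v = Nat.mod
          (Nat.add (Nat.add (Nat.mul k 0x8000) (Nat.mul m SC)) (Nat.mul n TC))
          0x100000000000000000000000000000000 := ⟨_, rfl⟩
    obtain ⟨v3w, hv3w⟩ : ∃ v, v = Nat.add
      (Nat.mul (Nat.add (Nat.sub m0 0x10) (Nat.sub 0x10 m0)) sw) (Nat.mul na tw) := ⟨_, rfl⟩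
    obtain ⟨tf, htf⟩ : ∃ v, v = Nat.mod
          (Nat.add
            (Nat.add (Nat.add (Nat.mul k FK) (Nat.mul m FM)) (Nat.mul n FN))
            0x80000000000000000000000000000000)
          0x100000000000000000000000000000000 := ⟨_, rfl⟩
    obtain ⟨u, hu⟩ : ∃ v, v = Nat.add
          (Nat.sub
            (Nat.mod
              (Nat.add
                (Nat.add (Nat.mul 0x8000 m) (Nat.mul n xc))
                0x80000000000000000000000000000000)
              0x100000000000000000000000000000000)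
            0x80000000000000000000000000000000)
          (Nat.sub
            0x80000000000000000000000000000000
            (Nat.mod
              (Nat.add
                (Nat.add (Nat.mul 0x8000 m) (Nat.mul n xc))
                0x80000000000000000000000000000000)
              0x100000000000000000000000000000000)) := ⟨_, rfl⟩
    obtain ⟨a, ha⟩ : ∃ v, v = Nat.mul rw (Nat.mul r r) := ⟨_, rfl⟩
    obtain ⟨M3, hM3⟩ : ∃ v, v = Nat.add v3c v3w := ⟨_, rfl⟩
    obtain ⟨af, haf⟩ : ∃ v, v = Nat.add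
          (Nat.sub tf 0x80000000000000000000000000000000)
          (Nat.sub 0x80000000000000000000000000000000 tf) := ⟨_, rfl⟩
    obtain ⟨b, hb⟩ : ∃ v, v = Nat.mul
          w
          (Nat.add 0xffffffffffffffffffffffffffc00000
            (Nat.mul (Nat.shiftRight tf 0x7f) 0x800000)) := ⟨_, rfl⟩
    obtain ⟨vfw, hvfw⟩ : ∃ v, v = Nat.add
          (Nat.add (Nat.mul fS v3w) (Nat.mul fp M3))
          (Nat.add (Nat.mul u fa) (Nat.mul na fW)) := ⟨_, rfl⟩
    obtain ⟨Mg, hMg⟩ : ∃ v, v = Nat.add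
          (Nat.add
            (Nat.sub
              (Nat.mod
                (Nat.add
                  (Nat.add (Nat.add (Nat.mul k GK) (Nat.mul m GM)) (Nat.mul n GN))
                  0x80000000000000000000000000000000)
                0x100000000000000000000000000000000)
              0x80000000000000000000000000000000)
            (Nat.sub
              0x80000000000000000000000000000000
              (Nat.mod
                (Nat.add
                  (Nat.add (Nat.add (Nat.mul k GK) (Nat.mul m GM)) (Nat.mul n GN))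
                  0x80000000000000000000000000000000)
                0x100000000000000000000000000000000)))
          (Nat.add
            (Nat.add (Nat.mul gS v3w) (Nat.mul gp M3))
            (Nat.add (Nat.mul u ga) (Nat.mul na gW))) := ⟨_, rfl⟩
    obtain ⟨d, hd⟩ : ∃ v, v = Nat.sub vfw af := ⟨_, rfl⟩
    obtain ⟨Mf, hMf⟩ : ∃ v, v = Nat.add af vfw := ⟨_, rfl⟩
    rw [rows_succ K SC sw TC tw xc FK FM FN fS fp fa fW GK GM GN gS gp ga gW c
      z Gv Gf am an bm bn h cs bad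
      m0 n0 r w k m n na rw v3c v3w tf u a M3 af b vfw Mg d Mf
      hm0 hn0 hr hw hk hm hn hna hrw hv3c hv3w htf hu ha hM3 haf hb hvfw hMg hd hMf] at hh
    have hbad := rows_bad K SC sw TC tw xc FK FM FN fS fp fa fW GK GM GN gS gp ga gW hK c
      _ _ _ _ _ _ _ _ _ _ hh
    obtain ⟨ki, mi, ni, q, bki, bmi, bni, rm, rn, haa, harw, e3, rb, bq, ef, hineq⟩ :=
      row_step Ff Fg hSC hTC bsc btc bxc hs ht hG z m0 n0 r w k m n na rw v3c v3w tf u a M3 af b
        vfw Mg d Mf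
        hm0 hn0 hr hw hk hm hn hna hrw hv3c hv3w htf hu ha hM3 haf hb hvfw hMg hd hMf
        (raw_add_zero hbad).2
    clear hm0 hn0 hr hw hk hm hn hna hrw hv3c hv3w htf hu ha hM3 haf hb hvfw hMg hd hMf hbad
    obtain ⟨kv, am', an', kb, bm', bn', i1, i2, i3, i4, i5, i6, i7, i8, i9, i10, i11, i12, i13,
      i14, i15⟩ := hI
    have haZ : |(a : ℤ)| ≤ 2 ^ 48 := by
      rw [abs_of_nonneg (Int.natCast_nonneg a)]; exact_mod_cast haa.le
    have hI' : Inv (cnt + 1) sc tc s t fk fm fn Vk Vm Vn G0 X0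
        (Nat.add Gv (Nat.mul a v3c)) (Nat.add Gf (Nat.mul w af))
          (Nat.add am (Nat.mul a m)) (Nat.add an (Nat.mul a n)) (Nat.add bm (Nat.mul b m))
          (Nat.add bn (Nat.mul b n)) (Nat.add h (Nat.mul b v3c)) (Nat.add cs rw) := by
      refine ⟨kv + a * ki, am' + a * mi, an' + a * ni, kb + q * ki, bm' + q * mi, bn' + q * ni,
        ?_, ?_, ?_, ?_, ?_, ?_, ?_, ?_, ?_, ?_, ?_, ?_, ?_, ?_, ?_⟩
      · refine (i1.add ((Rp.nat a).mul (Rp.nat v3c))).of_eq ?_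
        rw [e3]; ring
      · rw [raw_add, raw_mul]; push_cast; linarith
      · exact i3.add ((Rp.nat a).mul rm)
      · exact i4.add ((Rp.nat a).mul rn)
      · exact i5.add (rb.mul rm)
      · exact i6.add (rb.mul rn)
      · refine (i7.add (rb.mul (Rp.nat v3c))).of_eq ?_
        rw [e3]; ring
      · exact bd_step (e := 48) (f := 5) i8 bki haZ
      · exact bd_step (e := 48) (f := 4) i9 bmi haZ
      · exact bd_step (e := 48) (f := 4) i10 bni haZ
      · exact bd_step (e := 40) (f := 5) i11 bki bq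
      · exact bd_step (e := 40) (f := 4) i12 bmi bq
      · exact bd_step (e := 40) (f := 4) i13 bni bq
      · rw [raw_add]
        have : (cnt + 1) * 2 ^ 28 = cnt * 2 ^ 28 + 2 ^ 28 := by ring
        omega
      · rw [raw_add]; push_cast; linarith
    obtain ⟨z', Gv', Gf', am'', an'', bm'', bn'', h', cs', bad', j1, j2⟩ :=
      ih (cnt + 1) _ _ _ _ _ _ _ _ _ _ hI' hh
    refine ⟨z', Gv', Gf', am'', an'', bm'', bn'', h', cs', bad', ?_, j2⟩
    rw [show cnt + (c + 1) = cnt + 1 + c by ring]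
    exact j1

end Snd
end Pool.Agent.Lib.MP_be9f18_nt
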