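import Pool.Agent.Lib.MP_be9f18_nt.SoundD

/-!
Soundness of the kernel checker `Check.lean`, part E: unfolding of `fin` and `leafS`.
-/

set_option autoImplicit false
set_option linter.unusedVariables false

namespace Pool.Agent.Lib.MP_be9f18_nt
namespace Snd

/-- `Chk.fin` with literals replaced by variables. -/
noncomputable def finG (L0 L1 L2 L3 L4 L5 L6 L7 L8 : Nat)
    (nom pc pw a1c a1w a2c a2w xc xw ea ew sc sw tc tw es ns a1a mu nu Gv Gf am an c1 E1 c2 E2 hp cs bad : Nat) : Bool :=
  (fun (N2 E2a : Nat) =>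
  (fun (C1 C2 C3 C4 C5 C6 C7 C8 C9 C10 : Nat) =>
    (Nat.beq (Nat.add bad (Nat.sub L0 (Nat.mod (Nat.add (Nat.add (Nat.add (Nat.add C1 C2) (Nat.add C3 C4)) (Nat.add (Nat.add C5 C6) (Nat.add C7 C8))) (Nat.add C9 C10)) L1))) 0))
    (Nat.mul
      L2
      (Nat.add
        (Nat.add (Nat.mul L2 Gv) (Nat.mul L3 Gf))
        (Nat.mul L4 cs)))
    (Nat.add
      (Nat.mul
        mu
        (Nat.add L5 (Nat.mul L6 (Nat.mul ea N2))))
      (Nat.mul
        (Nat.mul L2 nu)
        (Nat.add (Nat.add (Nat.mul xc xc) (Nat.mul ea ea)) L7)))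
    (Nat.mul
      L2
      (Nat.add
        (Nat.add
          (Nat.mul
            (Nat.add
              (Nat.sub
                (Nat.mod
                  (Nat.add hp L0)
                  L1)
                L0)
              (Nat.sub
                L0
                (Nat.mod
                  (Nat.add hp L0)
                  L1)))
            pw)
          (Nat.mul
            (Nat.add
              (Nat.sub
                (Nat.mod
                  (Nat.add
                    (Nat.add (Nat.mul L2 (Nat.add am c1)) (Nat.mul pc c2))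
                    L0)
                  L1)
                L0)
              (Nat.sub
                L0
                (Nat.mod
                  (Nat.add
                    (Nat.add (Nat.mul L2 (Nat.add am c1)) (Nat.mul pc c2))
                    L0)
                  L1)))
            sw))
        (Nat.mul
          (Nat.add
            (Nat.sub
              (Nat.mod
                (Nat.add
                  (Nat.add (Nat.mul L2 (Nat.add an E1)) (Nat.mul pc E2))
                  L0)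
                L1)
              L0)
            (Nat.sub
              L0
              (Nat.mod
                (Nat.add
                  (Nat.add (Nat.mul L2 (Nat.add an E1)) (Nat.mul pc E2))
                  L0)
                L1)))
          tw)))
    (Nat.mul
      (Nat.add
        (Nat.sub
          (Nat.mod
            (Nat.add
              (Nat.add
                (Nat.mul
                  L2
                  (Nat.add (Nat.add (Nat.mul L2 c1) (Nat.mul E1 xc)) (Nat.mul E2 es)))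
                (Nat.mul L8 (Nat.mul mu (Nat.mul ea a1c))))
              L0)
            L1)
          L0)
        (Nat.sub
          L0
          (Nat.mod
            (Nat.add
              (Nat.add
                (Nat.mul
                  L2
                  (Nat.add (Nat.add (Nat.mul L2 c1) (Nat.mul E1 xc)) (Nat.mul E2 es)))
                (Nat.mul L8 (Nat.mul mu (Nat.mul ea a1c))))
              L0)
            L1)))
      a1w)
    (Nat.mul
      (Nat.add
        (Nat.sub
          (Nat.mod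
            (Nat.add
              (Nat.add
                (Nat.mul
                  L2
                  (Nat.add (Nat.add (Nat.mul L2 c2) (Nat.mul E2 xc)) (Nat.mul E1 ns)))
                (Nat.mul L8 (Nat.mul mu (Nat.mul ea a2c))))
              L0)
            L1)
          L0)
        (Nat.sub
          L0
          (Nat.mod
            (Nat.add
              (Nat.add
                (Nat.mul
                  L2
                  (Nat.add (Nat.add (Nat.mul L2 c2) (Nat.mul E2 xc)) (Nat.mul E1 ns)))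
                (Nat.mul L8 (Nat.mul mu (Nat.mul ea a2c))))
              L0)
            L1)))
      a2w)
    (Nat.mul
      L2
      (Nat.mul
        (Nat.add
          (Nat.sub
            (Nat.mod
              (Nat.add
                (Nat.add (Nat.add (Nat.mul E1 a1c) (Nat.mul E2 a2c)) (Nat.mul 2 (Nat.mul nu xc)))
                L0)
              L1)
            L0)
          (Nat.sub
            L0
            (Nat.mod
              (Nat.add
                (Nat.add (Nat.add (Nat.mul E1 a1c) (Nat.mul E2 a2c)) (Nat.mul 2 (Nat.mul nu xc)))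
                L0)
              L1)))
        xw))
    (Nat.mul
      (Nat.add
        (Nat.sub
          (Nat.mod
            (Nat.add
              (Nat.add
                (Nat.mul
                  L2
                  (Nat.add
                    (Nat.add
                      (Nat.mul E2 a1c)
                      (Nat.mul L6 (Nat.mul E1 a2c)))
                    (Nat.mul 2 (Nat.mul nu es))))
                (Nat.mul nom (Nat.mul mu N2)))
              L0)
            L1)
          L0)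
        (Nat.sub
          L0
          (Nat.mod
            (Nat.add
              (Nat.add
                (Nat.mul
                  L2
                  (Nat.add
                    (Nat.add
                      (Nat.mul E2 a1c)
                      (Nat.mul L6 (Nat.mul E1 a2c)))
                    (Nat.mul 2 (Nat.mul nu es))))
                (Nat.mul nom (Nat.mul mu N2)))
              L0)
            L1)))
      ew)
    (Nat.mul
      L2
      (Nat.add
        (Nat.add
          (Nat.mul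
            pw
            (Nat.add
              (Nat.mul
                (Nat.add
                  (Nat.sub
                    (Nat.mod
                      (Nat.add c2 L0)
                      L1)
                    L0)
                  (Nat.sub
                    L0
                    (Nat.mod
                      (Nat.add c2 L0)
                      L1)))
                sw)
              (Nat.mul E2a tw)))
          (Nat.mul
            (Nat.add
              (Nat.sub
                (Nat.mod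
                  (Nat.add E1 L0)
                  L1)
                L0)
              (Nat.sub
                L0
                (Nat.mod
                  (Nat.add E1 L0)
                  L1)))
            (Nat.add (Nat.mul xw a1w) (Nat.mul ew a2w))))
        (Nat.mul E2a (Nat.add (Nat.mul ew a1w) (Nat.mul xw a2w)))))
    (Nat.mul (Nat.mul 2 (Nat.mul mu ew)) (Nat.add (Nat.mul a1a a1w) (Nat.mul a2c a2w)))
    (Nat.mul (Nat.mul L2 nu) (Nat.add (Nat.mul xw xw) (Nat.mul ew ew))))
    (Nat.add (Nat.mul a1c a1c) (Nat.mul a2c a2c))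
    (Nat.add
      (Nat.sub
        (Nat.mod
          (Nat.add E2 L0)
          L1)
        L0)
      (Nat.sub
        L0
        (Nat.mod
          (Nat.add E2 L0)
          L1)))

theorem finG_eq (L0 L1 L2 L3 L4 L5 L6 L7 L8 : Nat)
    (nom pc pw a1c a1w a2c a2w xc xw ea ew sc sw tc tw es ns a1a mu nu Gv Gf am an c1 E1 c2 E2 hp cs bad : Nat)
    (N2 E2a C1 C2 C3 C4 C5 C6 C7 C8 C9 C10 : Nat)
    (hN2 : N2 = (Nat.add (Nat.mul a1c a1c) (Nat.mul a2c a2c)))
    (hE2a : E2a = (Nat.add (Nat.sub (Nat.mod (Nat.add E2 L0) L1) L0) (Nat.sub L0 (Nat.mod (Nat.add E2 L0) L1))))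
    (hC1 : C1 = (Nat.mul L2 (Nat.add (Nat.add (Nat.mul L2 Gv) (Nat.mul L3 Gf)) (Nat.mul L4 cs))))
    (hC2 : C2 = (Nat.add (Nat.mul mu (Nat.add L5 (Nat.mul L6 (Nat.mul ea N2)))) (Nat.mul (Nat.mul L2 nu) (Nat.add (Nat.add (Nat.mul xc xc) (Nat.mul ea ea)) L7))))
    (hC3 : C3 = (Nat.mul L2 (Nat.add (Nat.add (Nat.mul (Nat.add (Nat.sub (Nat.mod (Nat.add hp L0) L1) L0) (Nat.sub L0 (Nat.mod (Nat.add hp L0) L1))) pw) (Nat.mul (Nat.add (Nat.sub (Nat.mod (Nat.add (Nat.add (Nat.mul L2 (Nat.add am c1)) (Nat.mul pc c2)) L0) L1) L0) (Nat.sub L0 (Nat.mod (Nat.add (Nat.add (Nat.mul L2 (Nat.add am c1)) (Nat.mul pc c2)) L0) L1))) sw)) (Nat.mul (Nat.add (Nat.sub (Nat.mod (Nat.add (Nat.add (Nat.mul L2 (Nat.add an E1)) (Nat.mul pc E2)) L0) L1) L0) (Nat.sub L0 (Nat.mod (Nat.add (Nat.add (Nat.mul L2 (Nat.add an E1)) (Nat.mul pc E2)) L0) L1))) tw))))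
    (hC4 : C4 = (Nat.mul (Nat.add (Nat.sub (Nat.mod (Nat.add (Nat.add (Nat.mul L2 (Nat.add (Nat.add (Nat.mul L2 c1) (Nat.mul E1 xc)) (Nat.mul E2 es))) (Nat.mul L8 (Nat.mul mu (Nat.mul ea a1c)))) L0) L1) L0) (Nat.sub L0 (Nat.mod (Nat.add (Nat.add (Nat.mul L2 (Nat.add (Nat.add (Nat.mul L2 c1) (Nat.mul E1 xc)) (Nat.mul E2 es))) (Nat.mul L8 (Nat.mul mu (Nat.mul ea a1c)))) L0) L1))) a1w))
    (hC5 : C5 = (Nat.mul (Nat.add (Nat.sub (Nat.mod (Nat.add (Nat.add (Nat.mul L2 (Nat.add (Nat.add (Nat.mul L2 c2) (Nat.mul E2 xc)) (Nat.mul E1 ns))) (Nat.mul L8 (Nat.mul mu (Nat.mul ea a2c)))) L0) L1) L0) (Nat.sub L0 (Nat.mod (Nat.add (Nat.add (Nat.mul L2 (Nat.add (Nat.add (Nat.mul L2 c2) (Nat.mul E2 xc)) (Nat.mul E1 ns))) (Nat.mul L8 (Nat.mul mu (Nat.mul ea a2c)))) L0) L1))) a2w))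
    (hC6 : C6 = (Nat.mul L2 (Nat.mul (Nat.add (Nat.sub (Nat.mod (Nat.add (Nat.add (Nat.add (Nat.mul E1 a1c) (Nat.mul E2 a2c)) (Nat.mul 2 (Nat.mul nu xc))) L0) L1) L0) (Nat.sub L0 (Nat.mod (Nat.add (Nat.add (Nat.add (Nat.mul E1 a1c) (Nat.mul E2 a2c)) (Nat.mul 2 (Nat.mul nu xc))) L0) L1))) xw)))
    (hC7 : C7 = (Nat.mul (Nat.add (Nat.sub (Nat.mod (Nat.add (Nat.add (Nat.mul L2 (Nat.add (Nat.add (Nat.mul E2 a1c) (Nat.mul L6 (Nat.mul E1 a2c))) (Nat.mul 2 (Nat.mul nu es)))) (Nat.mul nom (Nat.mul mu N2))) L0) L1) L0) (Nat.sub L0 (Nat.mod (Nat.add (Nat.add (Nat.mul L2 (Nat.add (Nat.add (Nat.mul E2 a1c) (Nat.mul L6 (Nat.mul E1 a2c))) (Nat.mul 2 (Nat.mul nu es)))) (Nat.mul nom (Nat.mul mu N2))) L0) L1))) ew))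
    (hC8 : C8 = (Nat.mul L2 (Nat.add (Nat.add (Nat.mul pw (Nat.add (Nat.mul (Nat.add (Nat.sub (Nat.mod (Nat.add c2 L0) L1) L0) (Nat.sub L0 (Nat.mod (Nat.add c2 L0) L1))) sw) (Nat.mul E2a tw))) (Nat.mul (Nat.add (Nat.sub (Nat.mod (Nat.add E1 L0) L1) L0) (Nat.sub L0 (Nat.mod (Nat.add E1 L0) L1))) (Nat.add (Nat.mul xw a1w) (Nat.mul ew a2w)))) (Nat.mul E2a (Nat.add (Nat.mul ew a1w) (Nat.mul xw a2w))))))
    (hC9 : C9 = (Nat.mul (Nat.mul 2 (Nat.mul mu ew)) (Nat.add (Nat.mul a1a a1w) (Nat.mul a2c a2w))))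
    (hC10 : C10 = (Nat.mul (Nat.mul L2 nu) (Nat.add (Nat.mul xw xw) (Nat.mul ew ew)))) :
    finG L0 L1 L2 L3 L4 L5 L6 L7 L8
      nom pc pw a1c a1w a2c a2w xc xw ea ew sc sw tc tw es ns a1a mu nu Gv Gf am an c1 E1 c2 E2 hp cs bad =
      (Nat.beq (Nat.add bad (Nat.sub L0 (Nat.mod (Nat.add (Nat.add (Nat.add (Nat.add C1 C2) (Nat.add C3 C4)) (Nat.add (Nat.add C5 C6) (Nat.add C7 C8))) (Nat.add C9 C10)) L1))) 0) := by
  subst hC10 hC9 hC8 hC7 hC6 hC5 hC4 hC3 hC2 hC1 hE2a hN2
  delta finG
  exact rfl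

theorem fin_unf
    (nom pc pw a1c a1w a2c a2w xc xw ea ew sc sw tc tw es ns a1a mu nu Gv Gf am an c1 E1 c2 E2 hp cs bad : Nat)
    (N2 E2a C1 C2 C3 C4 C5 C6 C7 C8 C9 C10 : Nat)
    (hN2 : N2 = (Nat.add (Nat.mul a1c a1c) (Nat.mul a2c a2c)))
    (hE2a : E2a = (Nat.add (Nat.sub (Nat.mod (Nat.add E2 0x80000000000000000000000000000000) 0x100000000000000000000000000000000) 0x80000000000000000000000000000000) (Nat.sub 0x80000000000000000000000000000000 (Nat.mod (Nat.add E2 0x80000000000000000000000000000000) 0x100000000000000000000000000000000))))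
    (hC1 : C1 = (Nat.mul 0x8000 (Nat.add (Nat.add (Nat.mul 0x8000 Gv) (Nat.mul 0x400000 Gf)) (Nat.mul 0xffffffffffffffffffffd00000000000 cs))))
    (hC2 : C2 = (Nat.add (Nat.mul mu (Nat.add 0x700000000000 (Nat.mul 0xffffffffffffffffffffffffffffffff (Nat.mul ea N2)))) (Nat.mul (Nat.mul 0x8000 nu) (Nat.add (Nat.add (Nat.mul xc xc) (Nat.mul ea ea)) 0xffffffffffffffffffffffffc0000000))))
    (hC3 : C3 = (Nat.mul 0x8000 (Nat.add (Nat.add (Nat.mul (Nat.add (Nat.sub (Nat.mod (Nat.add hp 0x80000000000000000000000000000000) 0x100000000000000000000000000000000) 0x80000000000000000000000000000000) (Nat.sub 0x80000000000000000000000000000000 (Nat.mod (Nat.add hp 0x80000000000000000000000000000000) 0x100000000000000000000000000000000))) pw) (Nat.mul (Nat.add (Nat.sub (Nat.mod (Nat.add (Nat.add (Nat.mul 0x8000 (Nat.add am c1)) (Nat.mul pc c2)) 0x80000000000000000000000000000000) 0x100000000000000000000000000000000) 0x80000000000000000000000000000000) (Nat.sub 0x80000000000000000000000000000000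 (Nat.mod (Nat.add (Nat.add (Nat.mul 0x8000 (Nat.add am c1)) (Nat.mul pc c2)) 0x80000000000000000000000000000000) 0x100000000000000000000000000000000))) sw)) (Nat.mul (Nat.add (Nat.sub (Nat.mod (Nat.add (Nat.add (Nat.mul 0x8000 (Nat.add an E1)) (Nat.mul pc E2)) 0x80000000000000000000000000000000) 0x100000000000000000000000000000000) 0x80000000000000000000000000000000) (Nat.sub 0x80000000000000000000000000000000 (Nat.mod (Nat.add (Nat.add (Nat.mul 0x8000 (Nat.add an E1)) (Nat.mul pc E2)) 0x80000000000000000000000000000000) 0x100000000000000000000000000000000))) tw))))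
    (hC4 : C4 = (Nat.mul (Nat.add (Nat.sub (Nat.mod (Nat.add (Nat.add (Nat.mul 0x8000 (Nat.add (Nat.add (Nat.mul 0x8000 c1) (Nat.mul E1 xc)) (Nat.mul E2 es))) (Nat.mul 0xfffffffffffffffffffffffffffffffe (Nat.mul mu (Nat.mul ea a1c)))) 0x80000000000000000000000000000000) 0x100000000000000000000000000000000) 0x80000000000000000000000000000000) (Nat.sub 0x80000000000000000000000000000000 (Nat.mod (Nat.add (Nat.add (Nat.mul 0x8000 (Nat.add (Nat.add (Nat.mul 0x8000 c1) (Nat.mul E1 xc)) (Nat.mul E2 es))) (Nat.mul 0xfffffffffffffffffffffffffffffffe (Nat.mul mu (Nat.mul ea a1c)))) 0x80000000000000000000000000000000) 0x100000000000000000000000000000000))) a1w))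
    (hC5 : C5 = (Nat.mul (Nat.add (Nat.sub (Nat.mod (Nat.add (Nat.add (Nat.mul 0x8000 (Nat.add (Nat.add (Nat.mul 0x8000 c2) (Nat.mul E2 xc)) (Nat.mul E1 ns))) (Nat.mul 0xfffffffffffffffffffffffffffffffe (Nat.mul mu (Nat.mul ea a2c)))) 0x80000000000000000000000000000000) 0x100000000000000000000000000000000) 0x80000000000000000000000000000000) (Nat.sub 0x80000000000000000000000000000000 (Nat.mod (Nat.add (Nat.add (Nat.mul 0x8000 (Nat.add (Nat.add (Nat.mul 0x8000 c2) (Nat.mul E2 xc)) (Nat.mul E1 ns))) (Nat.mul 0xfffffffffffffffffffffffffffffffe (Nat.mul mu (Nat.mul ea a2c)))) 0x80000000000000000000000000000000) 0x100000000000000000000000000000000))) a2w))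
    (hC6 : C6 = (Nat.mul 0x8000 (Nat.mul (Nat.add (Nat.sub (Nat.mod (Nat.add (Nat.add (Nat.add (Nat.mul E1 a1c) (Nat.mul E2 a2c)) (Nat.mul 2 (Nat.mul nu xc))) 0x80000000000000000000000000000000) 0x100000000000000000000000000000000) 0x80000000000000000000000000000000) (Nat.sub 0x80000000000000000000000000000000 (Nat.mod (Nat.add (Nat.add (Nat.add (Nat.mul E1 a1c) (Nat.mul E2 a2c)) (Nat.mul 2 (Nat.mul nu xc))) 0x80000000000000000000000000000000) 0x100000000000000000000000000000000))) xw)))
    (hC7 : C7 = (Nat.mul (Nat.add (Nat.sub (Nat.mod (Nat.add (Nat.add (Nat.mul 0x8000 (Nat.add (Nat.add (Nat.mul E2 a1c) (Nat.mul 0xffffffffffffffffffffffffffffffff (Nat.mul E1 a2c))) (Nat.mul 2 (Nat.mul nu es)))) (Nat.mul nom (Nat.mul mu N2))) 0x80000000000000000000000000000000) 0x100000000000000000000000000000000) 0x80000000000000000000000000000000) (Nat.sub 0x80000000000000000000000000000000 (Nat.mod (Nat.add (Nat.add (Nat.mul 0x8000 (Nat.add (Nat.add (Nat.mul E2 a1c) (Nat.mul 0xffffffffffffffffffffffffffffffff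 (Nat.mul E1 a2c))) (Nat.mul 2 (Nat.mul nu es)))) (Nat.mul nom (Nat.mul mu N2))) 0x80000000000000000000000000000000) 0x100000000000000000000000000000000))) ew))
    (hC8 : C8 = (Nat.mul 0x8000 (Nat.add (Nat.add (Nat.mul pw (Nat.add (Nat.mul (Nat.add (Nat.sub (Nat.mod (Nat.add c2 0x80000000000000000000000000000000) 0x100000000000000000000000000000000) 0x80000000000000000000000000000000) (Nat.sub 0x80000000000000000000000000000000 (Nat.mod (Nat.add c2 0x80000000000000000000000000000000) 0x100000000000000000000000000000000))) sw) (Nat.mul E2a tw))) (Nat.mul (Nat.add (Nat.sub (Nat.mod (Nat.add E1 0x80000000000000000000000000000000) 0x100000000000000000000000000000000) 0x80000000000000000000000000000000) (Nat.sub 0x80000000000000000000000000000000 (Nat.mod (Nat.add E1 0x80000000000000000000000000000000) 0x100000000000000000000000000000000))) (Nat.add (Nat.mul xw a1w) (Nat.mul ew a2w)))) (Nat.mul E2a (Nat.add (Nat.mul ew a1w) (Nat.mul xw a2w))))))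
    (hC9 : C9 = (Nat.mul (Nat.mul 2 (Nat.mul mu ew)) (Nat.add (Nat.mul a1a a1w) (Nat.mul a2c a2w))))
    (hC10 : C10 = (Nat.mul (Nat.mul 0x8000 nu) (Nat.add (Nat.mul xw xw) (Nat.mul ew ew)))) :
    Chk.fin nom pc pw a1c a1w a2c a2w xc xw ea ew sc sw tc tw es ns a1a mu nu Gv Gf am an c1 E1 c2 E2 hp cs bad =
      (Nat.beq (Nat.add bad (Nat.sub 0x80000000000000000000000000000000 (Nat.mod (Nat.add (Nat.add (Nat.add (Nat.add C1 C2) (Nat.add C3 C4)) (Nat.add (Nat.add C5 C6) (Nat.add C7 C8))) (Nat.add C9 C10)) 0x100000000000000000000000000000000))) 0) := by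
  have h0 : Chk.fin nom pc pw a1c a1w a2c a2w xc xw ea ew sc sw tc tw es ns a1a mu nu Gv Gf am an c1 E1 c2 E2 hp cs bad =
      finG 0x80000000000000000000000000000000 0x100000000000000000000000000000000 0x8000 0x400000 0xffffffffffffffffffffd00000000000 0x700000000000 0xffffffffffffffffffffffffffffffff 0xffffffffffffffffffffffffc0000000 0xfffffffffffffffffffffffffffffffe
        nom pc pw a1c a1w a2c a2w xc xw ea ew sc sw tc tw es ns a1a mu nu Gv Gf am an c1 E1 c2 E2 hp cs bad := by
    delta Chk.fin finG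
    exact rfl
  rw [h0]
  exact finG_eq 0x80000000000000000000000000000000 0x100000000000000000000000000000000 0x8000 0x400000 0xffffffffffffffffffffd00000000000 0x700000000000 0xffffffffffffffffffffffffffffffff 0xffffffffffffffffffffffffc0000000 0xfffffffffffffffffffffffffffffffe
    nom pc pw a1c a1w a2c a2w xc xw ea ew sc sw tc tw es ns a1a mu nu Gv Gf am an c1 E1 c2 E2 hp cs bad
    N2 E2a C1 C2 C3 C4 C5 C6 C7 C8 C9 C10 hN2 hE2a hC1 hC2 hC3 hC4 hC5 hC6 hC7 hC8 hC9 hC10

/-- `Chk.leafS` with literals replaced by variables. -/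
noncomputable def leafSG (L0 L1 L2 L3 L4 L5 L6 L7 L8 L9 L10 : Nat)
    (y sc sw tc tw xc pc pw a1w a2w W1 W2 p1m p1n p2k p2m p2n : Nat) : Bool :=
  (fun (k0 m0 n0 : Nat) =>
  (fun (k m n na : Nat) =>
  (fun (v3w u : Nat) =>
  (fun (M3 : Nat) =>
  (fun (M1 M2 : Nat) =>
    (Nat.beq
      (Nat.add
        (Nat.sub
          1
          (Nat.add
            (Nat.add (Nat.sub k0 L0) (Nat.sub L0 k0))
            (Nat.add (Nat.add (Nat.sub m0 L1) (Nat.sub L1 m0)) na)))
        (Nat.add
          (Nat.sub (Nat.mul M3 (Nat.mul M1 M1)) L2)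
          (Nat.sub (Nat.mul M3 (Nat.mul M2 M2)) L2)))
      0))
    (Nat.add
      (Nat.add
        (Nat.sub
          (Nat.mod
            (Nat.add
              (Nat.add (Nat.add (Nat.mul k L3) (Nat.mul m p1m)) (Nat.mul n p1n))
              L4)
            L5)
          L4)
        (Nat.sub
          L4
          (Nat.mod
            (Nat.add
              (Nat.add (Nat.add (Nat.mul k L3) (Nat.mul m p1m)) (Nat.mul n p1n))
              L4)
            L5)))
      (Nat.add (Nat.mul L6 v3w) (Nat.add (Nat.mul u a1w) (Nat.mul na W1))))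
    (Nat.add
      (Nat.add
        (Nat.sub
          (Nat.mod
            (Nat.add
              (Nat.add (Nat.add (Nat.mul k p2k) (Nat.mul m p2m)) (Nat.mul n p2n))
              L4)
            L5)
          L4)
        (Nat.sub
          L4
          (Nat.mod
            (Nat.add
              (Nat.add (Nat.add (Nat.mul k p2k) (Nat.mul m p2m)) (Nat.mul n p2n))
              L4)
            L5)))
      (Nat.add (Nat.add (Nat.mul pc v3w) (Nat.mul pw M3)) (Nat.add (Nat.mul u a2w) (Nat.mul na W2)))))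
    (Nat.add
      (Nat.add
        (Nat.sub
          (Nat.mod
            (Nat.add
              (Nat.add (Nat.add (Nat.mul k L6) (Nat.mul m sc)) (Nat.mul n tc))
              L4)
            L5)
          L4)
        (Nat.sub
          L4
          (Nat.mod
            (Nat.add
              (Nat.add (Nat.add (Nat.mul k L6) (Nat.mul m sc)) (Nat.mul n tc))
              L4)
            L5)))
      v3w))
    (Nat.add (Nat.mul (Nat.add (Nat.sub m0 L1) (Nat.sub L1 m0)) sw) (Nat.mul na tw))
    (Nat.add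
      (Nat.sub
        (Nat.mod
          (Nat.add (Nat.add (Nat.mul L6 m) (Nat.mul n xc)) L4)
          L5)
        L4)
      (Nat.sub
        L4
        (Nat.mod
          (Nat.add (Nat.add (Nat.mul L6 m) (Nat.mul n xc)) L4)
          L5))))
    (Nat.add k0 L7)
    (Nat.add m0 L8)
    (Nat.add n0 L8) (Nat.add (Nat.sub n0 L1) (Nat.sub L1 n0)))
    (Nat.mod y L9) (Nat.mod (Nat.shiftRight y 6) L0) (Nat.mod (Nat.shiftRight y L10) L0)

theorem leafSG_eq (L0 L1 L2 L3 L4 L5 L6 L7 L8 L9 L10 : Nat)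
    (y sc sw tc tw xc pc pw a1w a2w W1 W2 p1m p1n p2k p2m p2n : Nat)
    (k0 m0 n0 k m n na v3w u M3 M1 M2 : Nat)
    (hk0 : k0 = (Nat.mod y L9))
    (hm0 : m0 = (Nat.mod (Nat.shiftRight y 6) L0))
    (hn0 : n0 = (Nat.mod (Nat.shiftRight y L10) L0))
    (hk : k = (Nat.add k0 L7))
    (hm : m = (Nat.add m0 L8))
    (hn : n = (Nat.add n0 L8))
    (hna : na = (Nat.add (Nat.sub n0 L1) (Nat.sub L1 n0)))
    (hv3w : v3w = (Nat.add (Nat.mul (Nat.add (Nat.sub m0 L1) (Nat.sub L1 m0)) sw) (Nat.mul na tw)))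
    (hu : u = (Nat.add (Nat.sub (Nat.mod (Nat.add (Nat.add (Nat.mul L6 m) (Nat.mul n xc)) L4) L5) L4) (Nat.sub L4 (Nat.mod (Nat.add (Nat.add (Nat.mul L6 m) (Nat.mul n xc)) L4) L5))))
    (hM3 : M3 = (Nat.add (Nat.add (Nat.sub (Nat.mod (Nat.add (Nat.add (Nat.add (Nat.mul k L6) (Nat.mul m sc)) (Nat.mul n tc)) L4) L5) L4) (Nat.sub L4 (Nat.mod (Nat.add (Nat.add (Nat.add (Nat.mul k L6) (Nat.mul m sc)) (Nat.mul n tc)) L4) L5))) v3w))
    (hM1 : M1 = (Nat.add (Nat.add (Nat.sub (Nat.mod (Nat.add (Nat.add (Nat.add (Nat.mul k L3) (Nat.mul m p1m)) (Nat.mul n p1n)) L4) L5) L4) (Nat.sub L4 (Nat.mod (Nat.add (Nat.add (Nat.add (Nat.mul k L3) (Nat.mul m p1m)) (Nat.mul n p1n)) L4) L5))) (Nat.add (Nat.mul L6 v3w) (Nat.add (Nat.mul u a1w) (Nat.mul na W1)))))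
    (hM2 : M2 = (Nat.add (Nat.add (Nat.sub (Nat.mod (Nat.add (Nat.add (Nat.add (Nat.mul k p2k) (Nat.mul m p2m)) (Nat.mul n p2n)) L4) L5) L4) (Nat.sub L4 (Nat.mod (Nat.add (Nat.add (Nat.add (Nat.mul k p2k) (Nat.mul m p2m)) (Nat.mul n p2n)) L4) L5))) (Nat.add (Nat.add (Nat.mul pc v3w) (Nat.mul pw M3)) (Nat.add (Nat.mul u a2w) (Nat.mul na W2))))) :
    leafSG L0 L1 L2 L3 L4 L5 L6 L7 L8 L9 L10
      y sc sw tc tw xc pc pw a1w a2w W1 W2 p1m p1n p2k p2m p2n =
      (Nat.beq (Nat.add (Nat.sub 1 (Nat.add (Nat.add (Nat.sub k0 L0) (Nat.sub L0 k0)) (Nat.add (Nat.add (Nat.sub m0 L1) (Nat.sub L1 m0)) na))) (Nat.add (Nat.sub (Nat.mul M3 (Nat.mul M1 M1)) L2) (Nat.sub (Nat.mul M3 (Nat.mul M2 M2)) L2))) 0) := by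
  subst hM2 hM1 hM3 hu hv3w hna hn hm hk hn0 hm0 hk0
  delta leafSG
  exact rfl

theorem leafS_unf
    (y sc sw tc tw xc pc pw a1w a2w W1 W2 p1m p1n p2k p2m p2n : Nat)
    (k0 m0 n0 k m n na v3w u M3 M1 M2 : Nat)
    (hk0 : k0 = (Nat.mod y 0x40))
    (hm0 : m0 = (Nat.mod (Nat.shiftRight y 6) 0x20))
    (hn0 : n0 = (Nat.mod (Nat.shiftRight y 0xb) 0x20))
    (hk : k = (Nat.add k0 0xffffffffffffffffffffffffffffffe0))
    (hm : m = (Nat.add m0 0xfffffffffffffffffffffffffffffff0))
    (hn : n = (Nat.add n0 0xfffffffffffffffffffffffffffffff0))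
    (hna : na = (Nat.add (Nat.sub n0 0x10) (Nat.sub 0x10 n0)))
    (hv3w : v3w = (Nat.add (Nat.mul (Nat.add (Nat.sub m0 0x10) (Nat.sub 0x10 m0)) sw) (Nat.mul na tw)))
    (hu : u = (Nat.add (Nat.sub (Nat.mod (Nat.add (Nat.add (Nat.mul 0x8000 m) (Nat.mul n xc)) 0x80000000000000000000000000000000) 0x100000000000000000000000000000000) 0x80000000000000000000000000000000) (Nat.sub 0x80000000000000000000000000000000 (Nat.mod (Nat.add (Nat.add (Nat.mul 0x8000 m) (Nat.mul n xc)) 0x80000000000000000000000000000000) 0x100000000000000000000000000000000))))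
    (hM3 : M3 = (Nat.add (Nat.add (Nat.sub (Nat.mod (Nat.add (Nat.add (Nat.add (Nat.mul k 0x8000) (Nat.mul m sc)) (Nat.mul n tc)) 0x80000000000000000000000000000000) 0x100000000000000000000000000000000) 0x80000000000000000000000000000000) (Nat.sub 0x80000000000000000000000000000000 (Nat.mod (Nat.add (Nat.add (Nat.add (Nat.mul k 0x8000) (Nat.mul m sc)) (Nat.mul n tc)) 0x80000000000000000000000000000000) 0x100000000000000000000000000000000))) v3w))
    (hM1 : M1 = (Nat.add (Nat.add (Nat.sub (Nat.mod (Nat.add (Nat.add (Nat.add (Nat.mul k 0x40000000) (Nat.mul m p1m)) (Nat.mul n p1n)) 0x80000000000000000000000000000000) 0x100000000000000000000000000000000) 0x80000000000000000000000000000000) (Nat.sub 0x80000000000000000000000000000000 (Nat.mod (Nat.add (Nat.add (Nat.add (Nat.mul k 0x40000000) (Nat.mul m p1m)) (Nat.mul n p1n)) 0x80000000000000000000000000000000) 0x100000000000000000000000000000000))) (Nat.add (Nat.mul 0x8000 v3w) (Nat.add (Nat.mul u a1w) (Nat.mul na W1)))))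
    (hM2 : M2 = (Nat.add (Nat.add (Nat.sub (Nat.mod (Nat.add (Nat.add (Nat.add (Nat.mul k p2k) (Nat.mul m p2m)) (Nat.mul n p2n)) 0x80000000000000000000000000000000) 0x100000000000000000000000000000000) 0x80000000000000000000000000000000) (Nat.sub 0x80000000000000000000000000000000 (Nat.mod (Nat.add (Nat.add (Nat.add (Nat.mul k p2k) (Nat.mul m p2m)) (Nat.mul n p2n)) 0x80000000000000000000000000000000) 0x100000000000000000000000000000000))) (Nat.add (Nat.add (Nat.mul pc v3w) (Nat.mul pw M3)) (Nat.add (Nat.mul u a2w) (Nat.mul na W2))))) :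
    Chk.leafS y sc sw tc tw xc pc pw a1w a2w W1 W2 p1m p1n p2k p2m p2n =
      (Nat.beq (Nat.add (Nat.sub 1 (Nat.add (Nat.add (Nat.sub k0 0x20) (Nat.sub 0x20 k0)) (Nat.add (Nat.add (Nat.sub m0 0x10) (Nat.sub 0x10 m0)) na))) (Nat.add (Nat.sub (Nat.mul M3 (Nat.mul M1 M1)) 0x7ffffffffffffffffff) (Nat.sub (Nat.mul M3 (Nat.mul M2 M2)) 0x7ffffffffffffffffff))) 0) := by
  have h0 : Chk.leafS y sc sw tc tw xc pc pw a1w a2w W1 W2 p1m p1n p2k p2m p2n =
      leafSG 0x20 0x10 0x7ffffffffffffffffff 0x40000000 0x80000000000000000000000000000000 0x100000000000000000000000000000000 0x8000 0xffffffffffffffffffffffffffffffe0 0xfffffffffffffffffffffffffffffff0 0x40 0xb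
        y sc sw tc tw xc pc pw a1w a2w W1 W2 p1m p1n p2k p2m p2n := by
    delta Chk.leafS leafSG
    exact rfl
  rw [h0]
  exact leafSG_eq 0x20 0x10 0x7ffffffffffffffffff 0x40000000 0x80000000000000000000000000000000 0x100000000000000000000000000000000 0x8000 0xffffffffffffffffffffffffffffffe0 0xfffffffffffffffffffffffffffffff0 0x40 0xb
    y sc sw tc tw xc pc pw a1w a2w W1 W2 p1m p1n p2k p2m p2n
    k0 m0 n0 k m n na v3w u M3 M1 M2 hk0 hm0 hn0 hk hm hn hna hv3w hu hM3 hM1 hM2

theorem fr3_zero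
    (y nom pc pw a1c a1w a2c a2w xc xw ea ew sc sw tc tw es ns a1a
      W1 W2 p1m p1n p2k p2m p2n : Nat) :
    Chk.fr3 0 y nom pc pw a1c a1w a2c a2w xc xw ea ew sc sw tc tw es ns a1a
      W1 W2 p1m p1n p2k p2m p2n =
    Chk.leafS y sc sw tc tw xc pc pw a1w a2w W1 W2 p1m p1n p2k p2m p2n := rfl

theorem fr3_one
    (y nom pc pw a1c a1w a2c a2w xc xw ea ew sc sw tc tw es ns a1a
      W1 W2 p1m p1n p2k p2m p2n : Nat) :
    Chk.fr3 1 y nom pc pw a1c a1w a2c a2w xc xw ea ew sc sw tc tw es ns a1a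
      W1 W2 p1m p1n p2k p2m p2n =
    Chk.leafL y nom pc pw a1c a1w a2c a2w xc xw ea ew sc sw tc tw es ns a1a
      W1 W2 p1m p1n p2k p2m p2n := rfl

end Snd
end Pool.Agent.Lib.MP_be9f18_nt
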