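import Pool.Agent.Lib.MP_be9f18_nt.SoundE

/-!
Soundness of the kernel checker `Check.lean`, part F: the final test of a row leaf.
-/

set_option autoImplicit false

namespace Pool.Agent.Lib.MP_be9f18_nt
namespace Snd

/-- A point together with the centres and half widths of a box containing it. -/
structure Ctx (o : ℤ) (pc pw a1w a2c a2w xc xw ea ew sw tw : ℕ) (a1c sc tc : ℤ)
    (p a1 a2 x e s t : ℝ) : Prop where
  ho : o = 1 ∨ o = -1
  hoe : 0 ≤ (o : ℝ) * e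
  hp : |32768 * p - pc| ≤ pw
  h1 : |32768 * a1 - a1c| ≤ a1w
  h2 : |32768 * a2 - a2c| ≤ a2w
  hx : |32768 * x - xc| ≤ xw
  he : |32768 * e - ((o * ea : ℤ) : ℝ)| ≤ ew
  hs : |32768 * s - sc| ≤ sw
  ht : |32768 * t - tc| ≤ tw
  bpc : Bd pc 18
  bpw : Bd pw 18
  ba1c : Bd a1c 18
  ba1w : Bd a1w 18
  ba2c : Bd a2c 18
  ba2w : Bd a2w 18
  bxc : Bd xc 18
  bxw : Bd xw 18
  bea : Bd ea 18
  bew : Bd ew 18
  bsc : Bd sc 18
  bsw : Bd sw 18
  btc : Bd tc 18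
  btw : Bd tw 18
  adm : ∀ k m n : ℤ, ¬(k = 0 ∧ m = 0 ∧ n = 0) → 1 ≤ F p a1 a2 x e s t k m n
  det : (o : ℝ) * e * (a1 ^ 2 + a2 ^ 2) ≤ 7 / 2
  red : 1 ≤ x ^ 2 + e ^ 2

theorem Bd.nat {X n : ℕ} (h : X ≤ 2 ^ n) : Bd X n := by
  unfold Bd; rw [abs_of_nonneg (Int.natCast_nonneg X)]; exact_mod_cast h

theorem Bd.add' {x y : ℤ} {a b c : ℕ} (h : Bd x a) (h' : Bd y b) (ha : a ≤ c) (hb : b ≤ c) :
    Bd (x + y) (c + 1) := (h.mono ha).add (h'.mono hb)

theorem Bd.mul' {x y : ℤ} {a b c : ℕ} (h : Bd x a) (h' : Bd y b) (hc : a + b ≤ c) :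
    Bd (x * y) c := (h.mul h').mono hc

theorem Bd.lit (n : ℕ) : Bd (2 ^ n) n := by unfold Bd; rw [abs_of_nonneg (by positivity)]

theorem Bd.S : Bd 32768 15 := by unfold Bd; norm_num

theorem Rp.absM {X : ℕ} {x : ℤ} (h : Rp X x) {a : ℕ} (hx : Bd x a) (ha : a ≤ 126) :
    Rp (absM X) |x| := (Rp.nat _).of_eq (absM_eq h (hx.lt ha))

theorem Rp.lit1 : Rp 0xffffffffffffffffffffffffffffffff (-1) := ⟨1, by norm_num⟩
theorem Rp.lit2 : Rp 0xfffffffffffffffffffffffffffffffe (-2) := ⟨1, by norm_num⟩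
theorem Rp.litS2 : Rp 0xffffffffffffffffffffffffc0000000 (-1073741824) := ⟨1, by norm_num⟩
theorem Rp.litC : Rp 0xffffffffffffffffffffd00000000000 (-52776558133248) := ⟨1, by norm_num⟩

theorem abs_cast {r : ℝ} {a : ℤ} (h : r = (a : ℝ)) : |r| = ((|a| : ℤ) : ℝ) := by
  rw [h, Int.cast_abs]

set_option maxHeartbeats 4000000 in
theorem fin_sound {o : ℤ} {pc pw a1w a2c a2w xc xw ea ew sw tw : ℕ} {a1c sc tc : ℤ}
    {p a1 a2 x e s t : ℝ} (C : Ctx o pc pw a1w a2c a2w xc xw ea ew sw tw a1c sc tc p a1 a2 x e s t)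
    {nom A1C SC TC es ns a1a : ℕ}
    (rnom : Rp nom (-o)) (rA : Rp A1C a1c) (res : Rp es (o * ea)) (rns : Rp ns (-(o * ea)))
    (ea1 : (a1a : ℤ) = |a1c|)
    {mu nu : ℕ} (bmu : Bd mu 38) (bnu : Bd nu 38)
    {Gv Gf am an c1 E1 c2 E2 hp cs bad : ℕ} {kv am' an' k1 c1' E1' k2 c2' E2' : ℤ}
    (i1 : Rp Gv (kv * 32768 + am' * sc + an' * tc))
    (i2 : 4194304 * (Gf : ℤ) = (k1 * 1073741824 + c1' * (32768 * (sc + a1c))
        + E1' * (32768 * tc + (xc * a1c - o * ea * a2c)))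
      + (k2 * (32768 * pc) + c2' * (pc * sc + 32768 * a2c)
        + E2' * (pc * tc + (xc * a2c + o * ea * a1c))))
    (i3 : Rp am am') (i4 : Rp an an') (i5 : Rp c1 c1') (i6 : Rp E1 E1') (i7 : Rp c2 c2')
    (i8 : Rp E2 E2') (i9 : Rp hp (k2 * 32768 + c2' * sc + E2' * tc))
    (bkv : Bd kv 58) (bam : Bd am' 57) (ban : Bd an' 57) (bk1 : Bd k1 50) (bc1 : Bd c1' 49)
    (bE1 : Bd E1' 49) (bk2 : Bd k2 50) (bc2 : Bd c2' 49) (bE2 : Bd E2' 49) (bcs : Bd cs 33)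
    (hreal : 49152 * (cs : ℝ) ≤ (kv + am' * s + an' * t)
      + (k2 * p + c2' * (p * s + a2) + E2' * (p * t + x * a2 + e * a1))
      + (k1 + c1' * (s + a1) + E1' * (t + x * a1 - e * a2)))
    (hfin : Chk.fin nom pc pw A1C a1w a2c a2w xc xw ea ew SC sw TC tw es ns a1a mu nu
      Gv Gf am an c1 E1 c2 E2 hp cs bad = true) : False := by
  obtain ⟨N2, hN2⟩ : ∃ v, v = (Nat.add (Nat.mul A1C A1C) (Nat.mul a2c a2c)) := ⟨_, rfl⟩
  obtain ⟨E2a, hE2a⟩ : ∃ v, v = (Nat.add (Nat.sub (Nat.mod (Nat.add E2 0x80000000000000000000000000000000) 0x100000000000000000000000000000000) 0x80000000000000000000000000000000) (Nat.sub 0x80000000000000000000000000000000 (Nat.mod (Nat.add E2 0x80000000000000000000000000000000) 0x100000000000000000000000000000000))) := ⟨_, rfl⟩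
  obtain ⟨C1, hC1⟩ : ∃ v, v = (Nat.mul 0x8000 (Nat.add (Nat.add (Nat.mul 0x8000 Gv) (Nat.mul 0x400000 Gf)) (Nat.mul 0xffffffffffffffffffffd00000000000 cs))) := ⟨_, rfl⟩
  obtain ⟨C2, hC2⟩ : ∃ v, v = (Nat.add (Nat.mul mu (Nat.add 0x700000000000 (Nat.mul 0xffffffffffffffffffffffffffffffff (Nat.mul ea N2)))) (Nat.mul (Nat.mul 0x8000 nu) (Nat.add (Nat.add (Nat.mul xc xc) (Nat.mul ea ea)) 0xffffffffffffffffffffffffc0000000))) := ⟨_, rfl⟩
  obtain ⟨C3, hC3⟩ : ∃ v, v = (Nat.mul 0x8000 (Nat.add (Nat.add (Nat.mul (Nat.add (Nat.sub (Nat.mod (Nat.add hp 0x80000000000000000000000000000000) 0x100000000000000000000000000000000) 0x80000000000000000000000000000000) (Nat.sub 0x80000000000000000000000000000000 (Nat.mod (Nat.add hp 0x80000000000000000000000000000000) 0x100000000000000000000000000000000))) pw) (Nat.mul (Nat.add (Nat.sub (Nat.mod (Nat.add (Nat.add (Nat.mul 0x8000 (Nat.add am c1)) (Nat.mul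 pc c2)) 0x80000000000000000000000000000000) 0x100000000000000000000000000000000) 0x80000000000000000000000000000000) (Nat.sub 0x80000000000000000000000000000000 (Nat.mod (Nat.add (Nat.add (Nat.mul 0x8000 (Nat.add am c1)) (Nat.mul pc c2)) 0x80000000000000000000000000000000) 0x100000000000000000000000000000000))) sw)) (Nat.mul (Nat.add (Nat.sub (Nat.mod (Nat.add (Nat.add (Nat.mul 0x8000 (Nat.add an E1)) (Nat.mul pc E2)) 0x80000000000000000000000000000000) 0x100000000000000000000000000000000) 0x80000000000000000000000000000000) (Nat.sub 0x80000000000000000000000000000000 (Nat.mod (Nat.add (Nat.add (Nat.mul 0x8000 (Nat.add an E1)) (Nat.mul pc E2)) 0x80000000000000000000000000000000) 0x100000000000000000000000000000000))) tw))) := ⟨_, rfl⟩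
  obtain ⟨C4, hC4⟩ : ∃ v, v = (Nat.mul (Nat.add (Nat.sub (Nat.mod (Nat.add (Nat.add (Nat.mul 0x8000 (Nat.add (Nat.add (Nat.mul 0x8000 c1) (Nat.mul E1 xc)) (Nat.mul E2 es))) (Nat.mul 0xfffffffffffffffffffffffffffffffe (Nat.mul mu (Nat.mul ea A1C)))) 0x80000000000000000000000000000000) 0x100000000000000000000000000000000) 0x80000000000000000000000000000000) (Nat.sub 0x80000000000000000000000000000000 (Nat.mod (Nat.add (Nat.add (Nat.mul 0x8000 (Nat.add (Nat.add (Nat.mul 0x8000 c1) (Nat.mul E1 xc)) (Nat.mul E2 es))) (Nat.mul 0xfffffffffffffffffffffffffffffffe (Nat.mul mu (Nat.mul ea A1C)))) 0x80000000000000000000000000000000) 0x100000000000000000000000000000000))) a1w) := ⟨_, rfl⟩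
  obtain ⟨C5, hC5⟩ : ∃ v, v = (Nat.mul (Nat.add (Nat.sub (Nat.mod (Nat.add (Nat.add (Nat.mul 0x8000 (Nat.add (Nat.add (Nat.mul 0x8000 c2) (Nat.mul E2 xc)) (Nat.mul E1 ns))) (Nat.mul 0xfffffffffffffffffffffffffffffffe (Nat.mul mu (Nat.mul ea a2c)))) 0x80000000000000000000000000000000) 0x100000000000000000000000000000000) 0x80000000000000000000000000000000) (Nat.sub 0x80000000000000000000000000000000 (Nat.mod (Nat.add (Nat.add (Nat.mul 0x8000 (Nat.add (Nat.add (Nat.mul 0x8000 c2) (Nat.mul E2 xc)) (Nat.mul E1 ns))) (Nat.mul 0xfffffffffffffffffffffffffffffffe (Nat.mul mu (Nat.mul ea a2c)))) 0x80000000000000000000000000000000) 0x100000000000000000000000000000000))) a2w) := ⟨_, rfl⟩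
  obtain ⟨C6, hC6⟩ : ∃ v, v = (Nat.mul 0x8000 (Nat.mul (Nat.add (Nat.sub (Nat.mod (Nat.add (Nat.add (Nat.add (Nat.mul E1 A1C) (Nat.mul E2 a2c)) (Nat.mul 2 (Nat.mul nu xc))) 0x80000000000000000000000000000000) 0x100000000000000000000000000000000) 0x80000000000000000000000000000000) (Nat.sub 0x80000000000000000000000000000000 (Nat.mod (Nat.add (Nat.add (Nat.add (Nat.mul E1 A1C) (Nat.mul E2 a2c)) (Nat.mul 2 (Nat.mul nu xc))) 0x80000000000000000000000000000000) 0x100000000000000000000000000000000))) xw)) := ⟨_, rfl⟩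
  obtain ⟨C7, hC7⟩ : ∃ v, v = (Nat.mul (Nat.add (Nat.sub (Nat.mod (Nat.add (Nat.add (Nat.mul 0x8000 (Nat.add (Nat.add (Nat.mul E2 A1C) (Nat.mul 0xffffffffffffffffffffffffffffffff (Nat.mul E1 a2c))) (Nat.mul 2 (Nat.mul nu es)))) (Nat.mul nom (Nat.mul mu N2))) 0x80000000000000000000000000000000) 0x100000000000000000000000000000000) 0x80000000000000000000000000000000) (Nat.sub 0x80000000000000000000000000000000 (Nat.mod (Nat.add (Nat.add (Nat.mul 0x8000 (Nat.add (Nat.add (Nat.mul E2 A1C) (Nat.mul 0xffffffffffffffffffffffffffffffff (Nat.mul E1 a2c))) (Nat.mul 2 (Nat.mul nu es)))) (Nat.mul nom (Nat.mul mu N2))) 0x80000000000000000000000000000000) 0x100000000000000000000000000000000))) ew) := ⟨_, rfl⟩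
  obtain ⟨C8, hC8⟩ : ∃ v, v = (Nat.mul 0x8000 (Nat.add (Nat.add (Nat.mul pw (Nat.add (Nat.mul (Nat.add (Nat.sub (Nat.mod (Nat.add c2 0x80000000000000000000000000000000) 0x100000000000000000000000000000000) 0x80000000000000000000000000000000) (Nat.sub 0x80000000000000000000000000000000 (Nat.mod (Nat.add c2 0x80000000000000000000000000000000) 0x100000000000000000000000000000000))) sw) (Nat.mul E2a tw))) (Nat.mul (Nat.add (Nat.sub (Nat.mod (Nat.add E1 0x80000000000000000000000000000000) 0x100000000000000000000000000000000) 0x80000000000000000000000000000000) (Nat.sub 0x80000000000000000000000000000000 (Nat.mod (Nat.add E1 0x80000000000000000000000000000000) 0x100000000000000000000000000000000))) (Nat.add (Nat.mul xw a1w) (Nat.mul ew a2w)))) (Nat.mul E2a (Nat.add (Nat.mul ew a1w) (Nat.mul xw a2w))))) := ⟨_, rfl⟩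
  obtain ⟨C9, hC9⟩ : ∃ v, v = (Nat.mul (Nat.mul 2 (Nat.mul mu ew)) (Nat.add (Nat.mul a1a a1w) (Nat.mul a2c a2w))) := ⟨_, rfl⟩
  obtain ⟨C10, hC10⟩ : ∃ v, v = (Nat.mul (Nat.mul 0x8000 nu) (Nat.add (Nat.mul xw xw) (Nat.mul ew ew))) := ⟨_, rfl⟩
  rw [fin_unf nom pc pw A1C a1w a2c a2w xc xw ea ew SC sw TC tw es ns a1a mu nu
      Gv Gf am an c1 E1 c2 E2 hp cs bad N2 E2a C1 C2 C3 C4 C5 C6 C7 C8 C9 C10
      hN2 hE2a hC1 hC2 hC3 hC4 hC5 hC6 hC7 hC8 hC9 hC10] at hfin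
  have h0 := raw_sub_zero (raw_add_zero (Nat.eq_of_beq_eq_true hfin)).2
  clear hfin
  have bo : Bd o 0 := by unfold Bd; rcases C.ho with h | h <;> rw [h] <;> norm_num
  have hoo : o * o = 1 := by rcases C.ho with h | h <;> rw [h] <;> norm_num
  have boe : Bd (o * ea) 18 := bo.mul' C.bea (by norm_num)
  -- N2, E2a
  have rN2 : Rp N2 (a1c * a1c + a2c * a2c) := by
    rw [hN2]; exact Rp.add (Rp.mul rA rA) (Rp.mul (Rp.nat a2c) (Rp.nat a2c))
  have bN2 : Bd (a1c * a1c + a2c * a2c) 37 :=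
    (C.ba1c.mul' C.ba1c (le_refl 36)).add (C.ba2c.mul' C.ba2c (le_refl 36))
  have rE2a : Rp E2a |E2'| := by rw [hE2a]; exact i8.absM bE2 (by norm_num)
  clear hN2 hE2a
  -- C1
  obtain ⟨u1, hu1⟩ : ∃ v : ℤ, v = 32768 * ((32768 * (kv * 32768 + am' * sc + an' * tc)
      + 4194304 * Gf) + (-52776558133248) * cs) := ⟨_, rfl⟩
  have r1 : Rp C1 u1 := by
    rw [hC1]
    refine (Rp.mul (Rp.nat 0x8000) (Rp.add (Rp.add (Rp.mul (Rp.nat 0x8000) i1)
      (Rp.mul (Rp.nat 0x400000) (Rp.nat Gf))) (Rp.mul Rp.litC (Rp.nat cs)))).of_eq ?_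
    rw [hu1]; push_cast; ring
  clear hC1
  have bv1 : Bd (kv * 32768 + am' * sc + an' * tc) 77 :=
    Bd.add' (Bd.add' (bkv.mul' Bd.S (le_refl 73)) (bam.mul' C.bsc (le_refl 75))
      (by norm_num) (le_refl 75)) (ban.mul' C.btc (le_refl 75)) (le_refl 76) (by norm_num)
  have bGf : Bd (4194304 * (Gf : ℤ)) 92 := by
    rw [i2]
    have h1 : Bd (32768 * (sc + a1c)) 34 := Bd.S.mul' (C.bsc.add C.ba1c) (by norm_num)
    have h2 : Bd (32768 * tc + (xc * a1c - o * ea * a2c)) 38 :=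
      Bd.add' (Bd.S.mul' C.btc (le_refl 33))
        ((C.bxc.mul' C.ba1c (le_refl 36)).sub (boe.mul' C.ba2c (le_refl 36)))
        (by norm_num) (le_refl 37)
    have h3 : Bd (32768 * (pc : ℤ)) 33 := Bd.S.mul' C.bpc (le_refl 33)
    have h4 : Bd (pc * sc + 32768 * a2c) 37 :=
      Bd.add' (C.bpc.mul' C.bsc (le_refl 36)) (Bd.S.mul' C.ba2c (le_refl 33)) (le_refl 36)
        (by norm_num)
    have h5 : Bd (pc * tc + (xc * a2c + o * ea * a1c)) 38 :=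
      Bd.add' (C.bpc.mul' C.btc (le_refl 36))
        ((C.bxc.mul' C.ba2c (le_refl 36)).add (boe.mul' C.ba1c (le_refl 36)))
        (by norm_num) (le_refl 37)
    have h6 : Bd (1073741824 : ℤ) 30 := by unfold Bd; norm_num
    exact Bd.add' (Bd.add' (Bd.add' (bk1.mul' h6 (le_refl 80)) (bc1.mul' h1 (le_refl 83))
        (by norm_num) (le_refl 83)) (bE1.mul' h2 (le_refl 87)) (by norm_num) (le_refl 87))
      (Bd.add' (Bd.add' (bk2.mul' h3 (le_refl 83)) (bc2.mul' h4 (le_refl 86))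
        (by norm_num) (le_refl 86)) (bE2.mul' h5 (le_refl 87)) (le_refl 87) (le_refl 87))
      (by norm_num : 88 ≤ 91) (by norm_num)
  have bu1 : Bd u1 110 := by
    rw [hu1]
    have h1 : Bd (-52776558133248 : ℤ) 46 := by unfold Bd; norm_num
    exact Bd.S.mul' (Bd.add' (Bd.add' (Bd.S.mul' bv1 (le_refl 92)) bGf (le_refl 92) (le_refl 92))
      (h1.mul' bcs (le_refl 79)) (le_refl 93) (by norm_num)) (by norm_num)
  -- C2
  obtain ⟨u2, hu2⟩ : ∃ v : ℤ, v = mu * (123145302310912 + (-1) * (ea * (a1c * a1c + a2c * a2c)))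
      + (32768 * nu) * ((xc * xc + ea * ea) + (-1073741824)) := ⟨_, rfl⟩
  have r2 : Rp C2 u2 := by
    rw [hC2]
    refine (Rp.add (Rp.mul (Rp.nat mu) (Rp.add (Rp.nat 0x700000000000) (Rp.mul Rp.lit1
      (Rp.mul (Rp.nat ea) rN2)))) (Rp.mul (Rp.mul (Rp.nat 0x8000) (Rp.nat nu))
        (Rp.add (Rp.add (Rp.mul (Rp.nat xc) (Rp.nat xc)) (Rp.mul (Rp.nat ea) (Rp.nat ea)))
          Rp.litS2))).of_eq ?_
    rw [hu2]; push_cast; ring
  clear hC2
  have bu2 : Bd u2 100 := by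
    rw [hu2]
    have h1 : Bd (123145302310912 : ℤ) 47 := by unfold Bd; norm_num
    have h2 : Bd (-1 : ℤ) 0 := by unfold Bd; norm_num
    have h3 : Bd (-1073741824 : ℤ) 30 := by unfold Bd; norm_num
    exact Bd.add' (bmu.mul' (Bd.add' h1 (h2.mul' (C.bea.mul' bN2 (le_refl 55)) (le_refl 55))
      (by norm_num) (le_refl 55)) (le_refl 94))
      ((Bd.S.mul' bnu (le_refl 53)).mul' (Bd.add' ((C.bxc.mul' C.bxc (le_refl 36)).add
        (C.bea.mul' C.bea (le_refl 36))) h3 (le_refl 37) (by norm_num)) (le_refl 91))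
      (by norm_num : 94 ≤ 99) (by norm_num)
  -- C3
  obtain ⟨w1, hw1⟩ : ∃ v : ℤ, v = k2 * 32768 + c2' * sc + E2' * tc := ⟨_, rfl⟩
  obtain ⟨w2, hw2⟩ : ∃ v : ℤ, v = 32768 * (am' + c1') + pc * c2' := ⟨_, rfl⟩
  obtain ⟨w3, hw3⟩ : ∃ v : ℤ, v = 32768 * (an' + E1') + pc * E2' := ⟨_, rfl⟩
  have bw1 : Bd w1 70 := by
    rw [hw1]
    exact (Bd.add' (Bd.add' (bk2.mul' Bd.S (le_refl 65)) (bc2.mul' C.bsc (le_refl 67))
      (by norm_num) (le_refl 67)) (bE2.mul' C.btc (le_refl 67)) (le_refl 68) (by norm_num)).mono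
      (by norm_num)
  have bw2 : Bd w2 75 := by
    rw [hw2]
    exact (Bd.add' (Bd.S.mul' (Bd.add' bam bc1 (le_refl 57) (by norm_num)) (le_refl 73))
      (C.bpc.mul' bc2 (le_refl 67)) (le_refl 73) (by norm_num)).mono (by norm_num)
  have bw3 : Bd w3 75 := by
    rw [hw3]
    exact (Bd.add' (Bd.S.mul' (Bd.add' ban bE1 (le_refl 57) (by norm_num)) (le_refl 73))
      (C.bpc.mul' bE2 (le_refl 67)) (le_refl 73) (by norm_num)).mono (by norm_num)
  have rw1 : Rp hp w1 := i9.of_eq hw1.symm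
  have rw2 : Rp (Nat.add (Nat.mul 0x8000 (Nat.add am c1)) (Nat.mul pc c2)) w2 :=
    (Rp.add (Rp.mul (Rp.nat 0x8000) (Rp.add i3 i5)) (Rp.mul (Rp.nat pc) i7)).of_eq
      (by rw [hw2]; push_cast; ring)
  have rw3 : Rp (Nat.add (Nat.mul 0x8000 (Nat.add an E1)) (Nat.mul pc E2)) w3 :=
    (Rp.add (Rp.mul (Rp.nat 0x8000) (Rp.add i4 i6)) (Rp.mul (Rp.nat pc) i8)).of_eq
      (by rw [hw3]; push_cast; ring)
  obtain ⟨u3, hu3⟩ : ∃ v : ℤ, v = 32768 * ((|w1| * pw + |w2| * sw) + |w3| * tw) := ⟨_, rfl⟩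
  have r3 : Rp C3 u3 := by
    rw [hC3]
    refine (Rp.mul (Rp.nat 0x8000) (Rp.add (Rp.add
      (Rp.mul (rw1.absM bw1 (by norm_num)) (Rp.nat pw))
      (Rp.mul (rw2.absM bw2 (by norm_num)) (Rp.nat sw)))
      (Rp.mul (rw3.absM bw3 (by norm_num)) (Rp.nat tw)))).of_eq ?_
    rw [hu3]; push_cast; ring
  clear hC3
  have bu3 : Bd u3 112 := by
    rw [hu3]
    exact Bd.S.mul' (Bd.add' (Bd.add' (bw1.abs.mul' C.bpw (le_refl 88))
      (bw2.abs.mul' C.bsw (le_refl 93)) (by norm_num) (le_refl 93))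
      (bw3.abs.mul' C.btw (le_refl 93)) (le_refl 94) (by norm_num)) (by norm_num)
  -- C4, C5
  obtain ⟨w4, hw4⟩ : ∃ v : ℤ, v = 32768 * ((32768 * c1' + E1' * xc) + E2' * (o * ea))
      + (-2) * (mu * (ea * a1c)) := ⟨_, rfl⟩
  obtain ⟨w5, hw5⟩ : ∃ v : ℤ, v = 32768 * ((32768 * c2' + E2' * xc) + E1' * (-(o * ea)))
      + (-2) * (mu * (ea * a2c)) := ⟨_, rfl⟩
  have hm2 : Bd (-2 : ℤ) 1 := by unfold Bd; norm_num
  have bw4 : Bd w4 86 := by
    rw [hw4]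
    exact Bd.add' (Bd.S.mul' (Bd.add' (Bd.add' (Bd.S.mul' bc1 (le_refl 64))
      (bE1.mul' C.bxc (le_refl 67)) (by norm_num) (le_refl 67)) (bE2.mul' boe (le_refl 67))
      (le_refl 68) (by norm_num)) (le_refl 84))
      (hm2.mul' (bmu.mul' (C.bea.mul' C.ba1c (le_refl 36)) (le_refl 74)) (le_refl 75))
      (by norm_num : 84 ≤ 85) (by norm_num)
  have bw5 : Bd w5 86 := by
    rw [hw5]
    exact Bd.add' (Bd.S.mul' (Bd.add' (Bd.add' (Bd.S.mul' bc2 (le_refl 64))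
      (bE2.mul' C.bxc (le_refl 67)) (by norm_num) (le_refl 67)) (bE1.mul' boe.neg (le_refl 67))
      (le_refl 68) (by norm_num)) (le_refl 84))
      (hm2.mul' (bmu.mul' (C.bea.mul' C.ba2c (le_refl 36)) (le_refl 74)) (le_refl 75))
      (by norm_num : 84 ≤ 85) (by norm_num)
  have rw4 : Rp (Nat.add (Nat.mul 0x8000 (Nat.add (Nat.add (Nat.mul 0x8000 c1) (Nat.mul E1 xc))
      (Nat.mul E2 es))) (Nat.mul 0xfffffffffffffffffffffffffffffffe
        (Nat.mul mu (Nat.mul ea A1C)))) w4 :=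
    (Rp.add (Rp.mul (Rp.nat 0x8000) (Rp.add (Rp.add (Rp.mul (Rp.nat 0x8000) i5)
      (Rp.mul i6 (Rp.nat xc))) (Rp.mul i8 res))) (Rp.mul Rp.lit2 (Rp.mul (Rp.nat mu)
        (Rp.mul (Rp.nat ea) rA)))).of_eq (by rw [hw4]; push_cast; ring)
  have rw5 : Rp (Nat.add (Nat.mul 0x8000 (Nat.add (Nat.add (Nat.mul 0x8000 c2) (Nat.mul E2 xc))
      (Nat.mul E1 ns))) (Nat.mul 0xfffffffffffffffffffffffffffffffe
        (Nat.mul mu (Nat.mul ea a2c)))) w5 :=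
    (Rp.add (Rp.mul (Rp.nat 0x8000) (Rp.add (Rp.add (Rp.mul (Rp.nat 0x8000) i7)
      (Rp.mul i8 (Rp.nat xc))) (Rp.mul i6 rns))) (Rp.mul Rp.lit2 (Rp.mul (Rp.nat mu)
        (Rp.mul (Rp.nat ea) (Rp.nat a2c))))).of_eq (by rw [hw5]; push_cast; ring)
  have r4 : Rp C4 (|w4| * a1w) := by
    rw [hC4]; exact Rp.mul (rw4.absM bw4 (by norm_num)) (Rp.nat a1w)
  have r5 : Rp C5 (|w5| * a2w) := by
    rw [hC5]; exact Rp.mul (rw5.absM bw5 (by norm_num)) (Rp.nat a2w)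
  clear hC4 hC5
  have bu4 : Bd (|w4| * a1w) 104 := bw4.abs.mul' C.ba1w (le_refl 104)
  have bu5 : Bd (|w5| * a2w) 104 := bw5.abs.mul' C.ba2w (le_refl 104)
  -- C6
  obtain ⟨w6, hw6⟩ : ∃ v : ℤ, v = (E1' * a1c + E2' * a2c) + 2 * (nu * xc) := ⟨_, rfl⟩
  have h2' : Bd (2 : ℤ) 1 := by unfold Bd; norm_num
  have bw6 : Bd w6 69 := by
    rw [hw6]
    exact Bd.add' ((bE1.mul' C.ba1c (le_refl 67)).add (bE2.mul' C.ba2c (le_refl 67)))
      (h2'.mul' (bnu.mul' C.bxc (le_refl 56)) (le_refl 57)) (le_refl 68) (by norm_num)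
  have rw6 : Rp (Nat.add (Nat.add (Nat.mul E1 A1C) (Nat.mul E2 a2c))
      (Nat.mul 2 (Nat.mul nu xc))) w6 :=
    (Rp.add (Rp.add (Rp.mul i6 rA) (Rp.mul i8 (Rp.nat a2c))) (Rp.mul (Rp.nat 2)
      (Rp.mul (Rp.nat nu) (Rp.nat xc)))).of_eq (by rw [hw6]; push_cast; ring)
  have r6 : Rp C6 (32768 * (|w6| * xw)) := by
    rw [hC6]
    exact (Rp.mul (Rp.nat 0x8000) (Rp.mul (rw6.absM bw6 (by norm_num)) (Rp.nat xw))).of_eq
      (by push_cast; ring)
  clear hC6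
  have bu6 : Bd (32768 * (|w6| * xw)) 102 := Bd.S.mul' (bw6.abs.mul' C.bxw (le_refl 87)) (le_refl 102)
  -- C7
  obtain ⟨w7, hw7⟩ : ∃ v : ℤ, v = 32768 * ((E2' * a1c + (-1) * (E1' * a2c))
      + 2 * (nu * (o * ea))) + (-o) * (mu * (a1c * a1c + a2c * a2c)) := ⟨_, rfl⟩
  have hm1 : Bd (-1 : ℤ) 0 := by unfold Bd; norm_num
  have bw7 : Bd w7 86 := by
    rw [hw7]
    exact Bd.add' (Bd.S.mul' (Bd.add' ((bE2.mul' C.ba1c (le_refl 67)).add
      (hm1.mul' (bE1.mul' C.ba2c (le_refl 67)) (le_refl 67)))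
      (h2'.mul' (bnu.mul' boe (le_refl 56)) (le_refl 57)) (le_refl 68) (by norm_num))
      (le_refl 84)) (bo.neg.mul' (bmu.mul' bN2 (le_refl 75)) (le_refl 75))
      (by norm_num : 84 ≤ 85) (by norm_num)
  have rw7 : Rp (Nat.add (Nat.mul 0x8000 (Nat.add (Nat.add (Nat.mul E2 A1C)
      (Nat.mul 0xffffffffffffffffffffffffffffffff (Nat.mul E1 a2c)))
      (Nat.mul 2 (Nat.mul nu es)))) (Nat.mul nom (Nat.mul mu N2))) w7 :=
    (Rp.add (Rp.mul (Rp.nat 0x8000) (Rp.add (Rp.add (Rp.mul i8 rA) (Rp.mul Rp.lit1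
      (Rp.mul i6 (Rp.nat a2c)))) (Rp.mul (Rp.nat 2) (Rp.mul (Rp.nat nu) res))))
      (Rp.mul rnom (Rp.mul (Rp.nat mu) rN2))).of_eq (by rw [hw7]; push_cast; ring)
  have r7 : Rp C7 (|w7| * ew) := by
    rw [hC7]; exact Rp.mul (rw7.absM bw7 (by norm_num)) (Rp.nat ew)
  clear hC7
  have bu7 : Bd (|w7| * ew) 104 := bw7.abs.mul' C.bew (le_refl 104)
  -- C8
  obtain ⟨u8, hu8⟩ : ∃ v : ℤ, v = 32768 * ((pw * (|c2'| * sw + |E2'| * tw)
      + |E1'| * (xw * a1w + ew * a2w)) + |E2'| * (ew * a1w + xw * a2w)) := ⟨_, rfl⟩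
  have r8 : Rp C8 u8 := by
    rw [hC8]
    refine (Rp.mul (Rp.nat 0x8000) (Rp.add (Rp.add (Rp.mul (Rp.nat pw)
      (Rp.add (Rp.mul (i7.absM bc2 (by norm_num)) (Rp.nat sw)) (Rp.mul rE2a (Rp.nat tw))))
      (Rp.mul (i6.absM bE1 (by norm_num)) (Rp.add (Rp.mul (Rp.nat xw) (Rp.nat a1w))
        (Rp.mul (Rp.nat ew) (Rp.nat a2w))))) (Rp.mul rE2a (Rp.add (Rp.mul (Rp.nat ew)
          (Rp.nat a1w)) (Rp.mul (Rp.nat xw) (Rp.nat a2w)))))).of_eq ?_
    rw [hu8]; push_cast; ring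
  clear hC8
  have bu8 : Bd u8 104 := by
    rw [hu8]
    exact Bd.S.mul' (Bd.add' (Bd.add'
      (C.bpw.mul' ((bc2.abs.mul' C.bsw (le_refl 67)).add (bE2.abs.mul' C.btw (le_refl 67)))
        (le_refl 86))
      (bE1.abs.mul' ((C.bxw.mul' C.ba1w (le_refl 36)).add (C.bew.mul' C.ba2w (le_refl 36)))
        (le_refl 86)) (le_refl 86) (le_refl 86))
      (bE2.abs.mul' ((C.bew.mul' C.ba1w (le_refl 36)).add (C.bxw.mul' C.ba2w (le_refl 36)))
        (le_refl 86)) (le_refl 87) (by norm_num)) (by norm_num)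
  -- C9
  obtain ⟨u9, hu9⟩ : ∃ v : ℤ, v = (2 * (mu * ew)) * (|a1c| * a1w + a2c * a2w) := ⟨_, rfl⟩
  have r9 : Rp C9 u9 := by
    rw [hC9]
    refine (Rp.mul (Rp.mul (Rp.nat 2) (Rp.mul (Rp.nat mu) (Rp.nat ew)))
      (Rp.add (Rp.mul (Rp.nat a1a) (Rp.nat a1w)) (Rp.mul (Rp.nat a2c) (Rp.nat a2w)))).of_eq ?_
    rw [hu9, ea1]; push_cast; ring
  clear hC9
  have bu9 : Bd u9 94 := by
    rw [hu9]
    exact (h2'.mul' (bmu.mul' C.bew (le_refl 56)) (le_refl 57)).mul'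
      ((C.ba1c.abs.mul' C.ba1w (le_refl 36)).add (C.ba2c.mul' C.ba2w (le_refl 36))) (le_refl 94)
  -- C10
  obtain ⟨u10, hu10⟩ : ∃ v : ℤ, v = (32768 * nu) * (xw * xw + ew * ew) := ⟨_, rfl⟩
  have r10 : Rp C10 u10 := by
    rw [hC10]
    refine (Rp.mul (Rp.mul (Rp.nat 0x8000) (Rp.nat nu)) (Rp.add (Rp.mul (Rp.nat xw) (Rp.nat xw))
      (Rp.mul (Rp.nat ew) (Rp.nat ew)))).of_eq ?_
    rw [hu10]; push_cast; ring
  clear hC10
  have bu10 : Bd u10 90 := by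
    rw [hu10]
    exact (Bd.S.mul' bnu (le_refl 53)).mul' ((C.bxw.mul' C.bxw (le_refl 36)).add
      (C.bew.mul' C.bew (le_refl 36))) (le_refl 90)
  -- the sum
  obtain ⟨U, hU⟩ : ∃ v : ℤ, v = (((u1 + u2) + (u3 + |w4| * a1w)) + ((|w5| * a2w
      + 32768 * (|w6| * xw)) + (|w7| * ew + u8))) + (u9 + u10) := ⟨_, rfl⟩
  have rU : Rp (Nat.add (Nat.add (Nat.add (Nat.add C1 C2) (Nat.add C3 C4))
      (Nat.add (Nat.add C5 C6) (Nat.add C7 C8))) (Nat.add C9 C10)) U :=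
    (Rp.add (Rp.add (Rp.add (Rp.add r1 r2) (Rp.add r3 r4)) (Rp.add (Rp.add r5 r6)
      (Rp.add r7 r8))) (Rp.add r9 r10)).of_eq hU.symm
  have bU : Bd U 118 := by
    rw [hU]
    exact Bd.add' (Bd.add' (Bd.add' (Bd.add' bu1 bu2 (by norm_num : 110 ≤ 114) (by norm_num))
      (Bd.add' bu3 bu4 (by norm_num : 112 ≤ 114) (by norm_num)) (le_refl 115) (le_refl 115))
      (Bd.add' (Bd.add' bu5 bu6 (by norm_num : 104 ≤ 114) (by norm_num))
        (Bd.add' bu7 bu8 (by norm_num : 104 ≤ 114) (by norm_num)) (le_refl 115) (le_refl 115))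
        (le_refl 116) (le_refl 116))
      (Bd.add' bu9 bu10 (by norm_num : 94 ≤ 116) (by norm_num)) (le_refl 117) (le_refl 117)
  -- nonnegativity of U
  have hUneg : U < 0 := by
    by_contra hneg
    push Not at hneg
    have h1 := rU.mod_eq hneg (by
      have := bU.le
      calc U ≤ 2 ^ 118 := this
        _ < (MM : ℤ) := by norm_num)
    have h2 : (HH : ℤ) ≤ U := by
      rw [← h1]; exact_mod_cast h0
    have h3 := bU.le
    have h4 : (2 : ℤ) ^ 118 < HH := by norm_num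
    linarith
  have hP0 : 0 ≤ Core.P (kv + k1) (am' + c1') (an' + E1') c1' E1' k2 c2' E2' (49152 * cs) mu nu o
      p a1 a2 x e s t := by
    unfold Core.P
    have h1 : (0 : ℝ) ≤ mu * (7 / 2 - o * e * (a1 ^ 2 + a2 ^ 2)) :=
      mul_nonneg (Nat.cast_nonneg _) (by linarith [C.det])
    have h2 : (0 : ℝ) ≤ nu * (x ^ 2 + e ^ 2 - 1) :=
      mul_nonneg (Nat.cast_nonneg _) (by linarith [C.red])
    linarith
  have hfin := Core.final (S := 32768) (K0 := kv + k1) (Ms := am' + c1') (Ns := an' + E1')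
    (c1 := c1') (E1 := E1') (H2 := k2) (c2 := c2') (E2 := E2') (C := 49152 * cs) (mu := mu)
    (nu := nu) (o := o)
    (by norm_num) (Nat.cast_nonneg _) (Nat.cast_nonneg _)
    (by rcases C.ho with h | h <;> rw [h] <;> norm_num) C.hoe
    C.hp C.h1 C.h2 C.hx C.he C.hs C.ht
  have hoor : (o : ℝ) * o = 1 := by exact_mod_cast hoo
  have t1 : |(32768 : ℝ) * (k2 * 32768 + c2' * sc + E2' * tc)| = 32768 * ((|w1| : ℤ) : ℝ) := by
    rw [abs_mul, abs_of_nonneg (by norm_num : (0 : ℝ) ≤ 32768)]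
    rw [abs_cast (a := w1) (by rw [hw1]; push_cast; ring)]
  have t2 : |(32768 : ℝ) * (32768 * (am' + c1') + pc * c2')| = 32768 * ((|w2| : ℤ) : ℝ) := by
    rw [abs_mul, abs_of_nonneg (by norm_num : (0 : ℝ) ≤ 32768)]
    rw [abs_cast (a := w2) (by rw [hw2]; push_cast; ring)]
  have t3 : |(32768 : ℝ) * (32768 * (an' + E1') + pc * E2')| = 32768 * ((|w3| : ℤ) : ℝ) := by
    rw [abs_mul, abs_of_nonneg (by norm_num : (0 : ℝ) ≤ 32768)]
    rw [abs_cast (a := w3) (by rw [hw3]; push_cast; ring)]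
  have t4 : |(32768 : ℝ) * (32768 * c1' + E1' * xc + E2' * ((o * ea : ℤ) : ℝ))
      - 2 * mu * o * ((o * ea : ℤ) : ℝ) * a1c| = ((|w4| : ℤ) : ℝ) := by
    refine abs_cast ?_
    rw [hw4]; push_cast
    linear_combination (-2 * (mu : ℝ) * ea * a1c) * hoor
  have t5 : |(32768 : ℝ) * (32768 * c2' + E2' * xc - E1' * ((o * ea : ℤ) : ℝ))
      - 2 * mu * o * ((o * ea : ℤ) : ℝ) * a2c| = ((|w5| : ℤ) : ℝ) := by
    refine abs_cast ?_
    rw [hw5]; push_cast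
    linear_combination (-2 * (mu : ℝ) * ea * a2c) * hoor
  have t6 : |(32768 : ℝ) * (E1' * a1c + E2' * a2c) + 2 * nu * 32768 * xc|
      = 32768 * ((|w6| : ℤ) : ℝ) := by
    rw [show (32768 : ℝ) * (E1' * a1c + E2' * a2c) + 2 * nu * 32768 * xc = 32768 * (w6 : ℝ) by
      rw [hw6]; push_cast; ring]
    rw [abs_mul, abs_of_nonneg (by norm_num : (0 : ℝ) ≤ 32768), Int.cast_abs]
  have t7 : |(32768 : ℝ) * (E2' * a1c - E1' * a2c) - mu * o * ((a1c : ℝ) ^ 2 + (a2c : ℝ) ^ 2)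
      + 2 * nu * 32768 * ((o * ea : ℤ) : ℝ)| = ((|w7| : ℤ) : ℝ) := by
    refine abs_cast ?_
    rw [hw7]; push_cast; ring
  have t8 : |(c2' : ℝ)| = ((|c2'| : ℤ) : ℝ) := (Int.cast_abs).symm
  have t9 : |(E2' : ℝ)| = ((|E2'| : ℤ) : ℝ) := (Int.cast_abs).symm
  have t10 : |(E1' : ℝ)| = ((|E1'| : ℤ) : ℝ) := (Int.cast_abs).symm
  have t11 : |(a1c : ℝ)| = ((|a1c| : ℤ) : ℝ) := (Int.cast_abs).symm
  have t12 : |((a2c : ℕ) : ℝ)| = (a2c : ℝ) := abs_of_nonneg (Nat.cast_nonneg _)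
  rw [t1, t2, t3, t4, t5, t6, t7, t8, t9, t10, t11, t12] at hfin
  have hPc : Core.Pc 32768 (kv + k1) (am' + c1') (an' + E1') c1' E1' k2 c2' E2' (49152 * cs)
      mu nu o pc a1c a2c xc ((o * ea : ℤ) : ℝ) sc tc = ((u1 + u2 : ℤ) : ℝ) := by
    have i2r : 4194304 * (Gf : ℝ) = (k1 * 1073741824 + c1' * (32768 * (sc + a1c))
        + E1' * (32768 * tc + (xc * a1c - o * ea * a2c)))
      + (k2 * (32768 * pc) + c2' * (pc * sc + 32768 * a2c)
        + E2' * (pc * tc + (xc * a2c + o * ea * a1c))) := by exact_mod_cast i2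
    unfold Core.Pc
    rw [hu1, hu2]
    push_cast
    linear_combination (-32768) * i2r
      + (-(mu : ℝ) * ea * (a1c ^ 2 + a2c ^ 2) + nu * 32768 * ea ^ 2) * hoor
  rw [hPc] at hfin
  have hUr : (0 : ℝ) ≤ (U : ℝ) := by
    have h1 : (0 : ℝ) ≤ 32768 ^ 3 * Core.P (kv + k1) (am' + c1') (an' + E1') c1' E1' k2 c2' E2'
      (49152 * cs) mu nu o p a1 a2 x e s t := by positivity
    refine (h1.trans hfin).trans (le_of_eq ?_)
    rw [hU, hu3, hu8, hu9, hu10]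
    push_cast
    ring
  have : (0 : ℤ) ≤ U := by exact_mod_cast hUr
  linarith

end Snd
end Pool.Agent.Lib.MP_be9f18_nt
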