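import Pool.Agent.Lib.MP_be9f18_nt.SoundF

/-!
Soundness of the kernel checker `Check.lean`, part G: the leaves `L` and `S`.
-/

set_option autoImplicit false

namespace Pool.Agent.Lib.MP_be9f18_nt
namespace Snd

section faces

variable {o : ℤ} {pc pw a1w a2c a2w xc xw ea ew sw tw : ℕ} {a1c sc tc : ℤ}
  {p a1 a2 x e s t : ℝ}

theorem Ctx.abs_ec (C : Ctx o pc pw a1w a2c a2w xc xw ea ew sw tw a1c sc tc p a1 a2 x e s t) :
    |((o * ea : ℤ) : ℝ)| = (ea : ℝ) := by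
  have h0 : (0 : ℝ) ≤ (ea : ℝ) := Nat.cast_nonneg _
  rcases C.ho with h | h <;> rw [h] <;> push_cast
  · rw [one_mul, abs_of_nonneg h0]
  · rw [neg_one_mul, abs_neg, abs_of_nonneg h0]

theorem Ctx.near1 (C : Ctx o pc pw a1w a2c a2w xc xw ea ew sw tw a1c sc tc p a1 a2 x e s t)
    {W1 : ℕ} (hW1 : (W1 : ℤ) = xw * (|a1c| + a1w) + (ea * a2w + ew * (a2c + a2w))) (k m n : ℤ) :
    |(32768 : ℝ) ^ 2 * (k * 1 + m * (s + a1) + n * (t + x * a1 - e * a2))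
        - ((k * 1073741824 + m * (32768 * (sc + a1c))
          + n * (32768 * tc + (xc * a1c - o * ea * a2c)) : ℤ) : ℝ)| ≤
      ((32768 * (|m| * sw + |n| * tw) + (|32768 * m + n * xc| * a1w + |n| * W1) : ℤ) : ℝ) := by
  have c3 := Core.v3_bound (S := 32768) (k : ℝ) m n C.hs C.ht
  have c1 := Core.v1_bound (m : ℝ) n (by norm_num : (0 : ℝ) ≤ 32768) C.h1 C.h2 C.hx C.he c3
  have hW1r : (W1 : ℝ) = xw * (|(a1c : ℝ)| + a1w) + (ea * a2w + ew * (a2c + a2w)) := by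
    exact_mod_cast hW1
  have ha2 : |((a2c : ℕ) : ℝ)| = (a2c : ℝ) := abs_of_nonneg (Nat.cast_nonneg _)
  rw [C.abs_ec, ha2] at c1
  refine le_trans (le_of_eq ?_) (le_trans c1 (le_of_eq ?_))
  · congr 1
    push_cast
    ring
  · push_cast
    rw [hW1r, mul_comm (m : ℝ) 32768]
    ring

theorem Ctx.near2 (C : Ctx o pc pw a1w a2c a2w xc xw ea ew sw tw a1c sc tc p a1 a2 x e s t)
    {W2 : ℕ} (hW2 : (W2 : ℤ) = xw * (a2c + a2w) + (ea * a1w + ew * (|a1c| + a1w))) (k m n : ℤ) :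
    |(32768 : ℝ) ^ 2 * (k * p + m * (p * s + a2) + n * (p * t + x * a2 + e * a1))
        - ((k * (32768 * pc) + m * (pc * sc + 32768 * a2c)
          + n * (pc * tc + (xc * a2c + o * ea * a1c)) : ℤ) : ℝ)| ≤
      ((pc * (|m| * sw + |n| * tw) + pw * (|k * 32768 + m * sc + n * tc| + (|m| * sw + |n| * tw))
        + (|32768 * m + n * xc| * a2w + |n| * W2) : ℤ) : ℝ) := by
  have c3 := Core.v3_bound (S := 32768) (k : ℝ) m n C.hs C.ht
  have c1 := Core.v2_bound (m : ℝ) n (Nat.cast_nonneg pc) C.hp C.h1 C.h2 C.hx C.he c3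
  have hW2r : (W2 : ℝ) = xw * (a2c + a2w) + (ea * a1w + ew * (|(a1c : ℝ)| + a1w)) := by
    exact_mod_cast hW2
  have ha2 : |((a2c : ℕ) : ℝ)| = (a2c : ℝ) := abs_of_nonneg (Nat.cast_nonneg _)
  rw [C.abs_ec, ha2] at c1
  refine le_trans (le_of_eq ?_) (le_trans c1 (le_of_eq ?_))
  · congr 1
    push_cast
    ring
  · push_cast
    rw [hW2r, mul_comm (m : ℝ) 32768]
    ring

theorem Ctx.face1 (C : Ctx o pc pw a1w a2c a2w xc xw ea ew sw tw a1c sc tc p a1 a2 x e s t)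
    {W1 p1m p1n : ℕ} (hW1 : (W1 : ℤ) = xw * (|a1c| + a1w) + (ea * a2w + ew * (a2c + a2w)))
    (r1m : Rp p1m (32768 * (sc + a1c)))
    (r1n : Rp p1n (32768 * tc + (xc * a1c - o * ea * a2c))) :
    Face xc sw tw sc tc 0x40000000 p1m p1n 0x8000 0 a1w W1 1073741824 (32768 * (sc + a1c))
      (32768 * tc + (xc * a1c - o * ea * a2c)) 1 (s + a1) (t + x * a1 - e * a2) := by
  have bo : Bd o 0 := by unfold Bd; rcases C.ho with h | h <;> rw [h] <;> norm_num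
  have boe : Bd (o * ea) 18 := bo.mul' C.bea (by norm_num)
  refine ⟨Rp.nat _, r1m, r1n, by unfold Bd; norm_num, ?_, ?_, ?_⟩
  · exact Bd.S.mul' (C.bsc.add C.ba1c) (by norm_num)
  · exact Bd.add' (Bd.S.mul' C.btc (le_refl 33))
        ((C.bxc.mul' C.ba1c (le_refl 36)).sub (boe.mul' C.ba2c (le_refl 36)))
        (by norm_num) (le_refl 37)
  · intro k m n _
    refine (C.near1 hW1 k m n).trans (le_of_eq ?_)
    push_cast
    ring

theorem Ctx.face2 (C : Ctx o pc pw a1w a2c a2w xc xw ea ew sw tw a1c sc tc p a1 a2 x e s t)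
    {W2 p2k p2m p2n : ℕ} (hW2 : (W2 : ℤ) = xw * (a2c + a2w) + (ea * a1w + ew * (|a1c| + a1w)))
    (r2k : Rp p2k (32768 * pc))
    (r2m : Rp p2m (pc * sc + 32768 * a2c))
    (r2n : Rp p2n (pc * tc + (xc * a2c + o * ea * a1c))) :
    Face xc sw tw sc tc p2k p2m p2n pc pw a2w W2 (32768 * pc) (pc * sc + 32768 * a2c)
      (pc * tc + (xc * a2c + o * ea * a1c)) p (p * s + a2) (p * t + x * a2 + e * a1) := by
  have bo : Bd o 0 := by unfold Bd; rcases C.ho with h | h <;> rw [h] <;> norm_num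
  have boe : Bd (o * ea) 18 := bo.mul' C.bea (by norm_num)
  refine ⟨r2k, r2m, r2n, ?_, ?_, ?_, ?_⟩
  · exact Bd.S.mul' C.bpc (by norm_num)
  · exact (Bd.add' (C.bpc.mul' C.bsc (le_refl 36)) (Bd.S.mul' C.ba2c (le_refl 33)) (le_refl 36)
        (by norm_num)).mono (by norm_num)
  · exact Bd.add' (C.bpc.mul' C.btc (le_refl 36))
        ((C.bxc.mul' C.ba2c (le_refl 36)).add (boe.mul' C.ba1c (le_refl 36)))
        (by norm_num) (le_refl 37)
  · intro k m n hk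
    refine (C.near2 hW2 k m n).trans (le_of_eq ?_)
    rw [abs_of_nonneg hk]

theorem Ctx.G1 (C : Ctx o pc pw a1w a2c a2w xc xw ea ew sw tw a1c sc tc p a1 a2 x e s t)
    (k m n : ℤ) (h : ¬(k = 0 ∧ m = 0 ∧ n = 0)) :
      1 ≤ |k + m * s + n * t| * max ((k * 1 + m * (s + a1) + n * (t + x * a1 - e * a2)) ^ 2)
        ((k * p + m * (p * s + a2) + n * (p * t + x * a2 + e * a1)) ^ 2) := by
  have := C.adm k m n h
  unfold F G at this
  have e1 : (k : ℝ) * 1 + m * (s + a1) + n * (t + x * a1 - e * a2)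
    = ((k : ℝ) + m * s + n * t) + ((m : ℝ) + n * x) * a1 - (n : ℝ) * e * a2 := by ring
  have e2 : (k : ℝ) * p + m * (p * s + a2) + n * (p * t + x * a2 + e * a1)
    = p * ((k : ℝ) + m * s + n * t) + ((m : ℝ) + n * x) * a2 + (n : ℝ) * e * a1 := by ring
  rw [e1, e2]
  exact this

theorem fin_bad
    (nom pc pw a1c a1w a2c a2w xc xw ea ew sc sw tc tw es ns a1a mu nu Gv Gf am an c1 E1 c2 E2
      hp cs bad : ℕ)
    (h : Chk.fin nom pc pw a1c a1w a2c a2w xc xw ea ew sc sw tc tw es ns a1a mu nu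
      Gv Gf am an c1 E1 c2 E2 hp cs bad = true) : bad = 0 := by
  rw [fin_unf nom pc pw a1c a1w a2c a2w xc xw ea ew sc sw tc tw es ns a1a mu nu
      Gv Gf am an c1 E1 c2 E2 hp cs bad _ _ _ _ _ _ _ _ _ _ _ _
      rfl rfl rfl rfl rfl rfl rfl rfl rfl rfl rfl rfl] at h
  exact (raw_add_zero (Nat.eq_of_beq_eq_true h)).1

theorem leafL_unf
    (y nom pc pw a1c a1w a2c a2w xc xw ea ew sc sw tc tw es ns a1a
      W1 W2 p1m p1n p2k p2m p2n : ℕ) :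
    Chk.leafL y nom pc pw a1c a1w a2c a2w xc xw ea ew sc sw tc tw es ns a1a
      W1 W2 p1m p1n p2k p2m p2n =
  Chk.rows (fun z Gv Gf am an c1 E1 _ cs bad =>
      Chk.rows (fun _ Gv Gf am an c2 E2 hp cs bad =>
          Chk.fin nom pc pw a1c a1w a2c a2w xc xw ea ew sc sw tc tw es ns a1a
            (Nat.mul 0x100000 (Nat.mod (Nat.shiftRight y 8) 0x40000))
            (Nat.mul 0x100000 (Nat.mod (Nat.shiftRight y 0x1a) 0x40000))
            Gv Gf am an c1 E1 c2 E2 hp cs bad)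
        sc sw tc tw xc p2k p2m p2n pc pw a2w W2 0x40000000 p1m p1n 0x8000 0 a1w W1
        (Nat.mod (Nat.shiftRight y 4) 0x10) z Gv Gf am an 0 0 0 cs bad)
    sc sw tc tw xc 0x40000000 p1m p1n 0x8000 0 a1w W1 p2k p2m p2n pc pw a2w W2
    (Nat.mod y 0x10) (Nat.shiftRight y 0x2c) 0 0 0 0 0 0 0 0 0 := by
  delta Chk.leafL
  exact rfl

theorem abs0_le (c e : ℕ) : |(0 : ℤ)| ≤ (c : ℤ) * 2 ^ e := by
  rw [abs_zero]; positivity

theorem bd_cnt {x : ℤ} {cnt e f : ℕ} (h : |x| ≤ cnt * 2 ^ e) (hc : cnt ≤ 32) (hf : e + 5 ≤ f) :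
    Bd x f := by
  refine Bd.mono (a := e + 5) ?_ hf
  unfold Bd
  refine h.trans ?_
  rw [pow_add, mul_comm]
  refine mul_le_mul_of_nonneg_left ?_ (by positivity)
  norm_num
  exact_mod_cast hc

theorem leafL_sound
    (C : Ctx o pc pw a1w a2c a2w xc xw ea ew sw tw a1c sc tc p a1 a2 x e s t)
    {y nom A1C SC TC es ns a1a W1 W2 p1m p1n p2k p2m p2n : ℕ}
    (rnom : Rp nom (-o)) (rA : Rp A1C a1c) (rSC : Rp SC sc) (rTC : Rp TC tc)
    (res : Rp es (o * ea)) (rns : Rp ns (-(o * ea)))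
    (ea1 : (a1a : ℤ) = |a1c|)
    (hW1 : (W1 : ℤ) = xw * (|a1c| + a1w) + (ea * a2w + ew * (a2c + a2w)))
    (hW2 : (W2 : ℤ) = xw * (a2c + a2w) + (ea * a1w + ew * (|a1c| + a1w)))
    (r1m : Rp p1m (32768 * (sc + a1c)))
    (r1n : Rp p1n (32768 * tc + (xc * a1c - o * ea * a2c)))
    (r2k : Rp p2k (32768 * pc))
    (r2m : Rp p2m (pc * sc + 32768 * a2c))
    (r2n : Rp p2n (pc * tc + (xc * a2c + o * ea * a1c)))
    (h : Chk.leafL y nom pc pw A1C a1w a2c a2w xc xw ea ew SC sw TC tw es ns a1a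
      W1 W2 p1m p1n p2k p2m p2n = true) : False := by
  rw [leafL_unf] at h
  have F1 := C.face1 hW1 r1m r1n
  have F2 := C.face2 hW2 r2k r2m r2n
  have bsc := C.bsc.mono (by norm_num : 18 ≤ 20)
  have btc := C.btc.mono (by norm_num : 18 ≤ 20)
  have bxc := C.bxc.mono (by norm_num : 18 ≤ 20)
  -- first loop
  obtain ⟨z1, Gv1, Gf1, am1, an1, bm1, bn1, h1, cs1, bad1, I1, K1⟩ :=
    rows_inv _ (by
      intro z Gv Gf am an bm bn h cs bad hh
      refine rows_bad _ _ _ _ _ _ _ _ _ _ _ _ _ _ _ _ _ _ _ _ ?_ _ _ _ _ _ _ _ _ _ _ _ hh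
      intro z Gv Gf am an bm bn h cs bad hh
      exact fin_bad _ _ _ _ _ _ _ _ _ _ _ _ _ _ _ _ _ _ _ _ _ _ _ _ _ _ _ _ _ _ _ hh)
      F1 F2 rSC rTC bsc btc bxc C.hs C.ht C.G1 0 0 _ 0 _ _ _ _ _ _ _ _ _ _
      (by
        refine ⟨0, 0, 0, 0, 0, 0, ?_, ?_, Rp.nat 0, Rp.nat 0, Rp.nat 0, Rp.nat 0, ?_, ?_⟩
        · exact (Rp.nat 0).of_eq (by push_cast; ring)
        · push_cast; ring
        · exact (Rp.nat 0).of_eq (by push_cast; ring)
        · simp) h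
  clear h
  obtain ⟨kv, am', an', kb, bm', bn', i1, i2, i3, i4, i5, i6, i7, i8, i9, i10, i11, i12, i13,
      i14, i15⟩ := I1
  -- second loop
  have hG2 : ∀ k m n : ℤ, ¬(k = 0 ∧ m = 0 ∧ n = 0) →
      1 ≤ |k + m * s + n * t| * max ((k * p + m * (p * s + a2) + n * (p * t + x * a2 + e * a1)) ^ 2)
        ((k * 1 + m * (s + a1) + n * (t + x * a1 - e * a2)) ^ 2) := by
    intro k m n hk
    rw [max_comm]
    exact C.G1 k m n hk
  obtain ⟨z2, Gv2, Gf2, am2, an2, bm2, bn2, h2, cs2, bad2, I2, K2⟩ :=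
    rows_inv _ (by
      intro z Gv Gf am an bm bn h cs bad hh
      exact fin_bad _ _ _ _ _ _ _ _ _ _ _ _ _ _ _ _ _ _ _ _ _ _ _ _ _ _ _ _ _ _ _ hh)
      F2 F1 rSC rTC bsc btc bxc C.hs C.ht hG2
      (kb * 1073741824 + bm' * (32768 * (sc + a1c))
        + bn' * (32768 * tc + (xc * a1c - o * ea * a2c)))
      (kb * 1 + bm' * (s + a1) + bn' * (t + x * a1 - e * a2)) _ (0 + Nat.mod y 0x10)
      _ _ _ _ _ _ _ _ _ _
      (by
        refine ⟨kv, am', an', 0, 0, 0, i1, ?_, i3, i4, Rp.nat 0, Rp.nat 0, ?_, i8, i9, i10,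
          ?_, ?_, ?_, i14, ?_⟩
        · rw [i2]; ring
        · exact (Rp.nat 0).of_eq (by push_cast; ring)
        · exact abs0_le _ _
        · exact abs0_le _ _
        · exact abs0_le _ _
        · push_cast at i15 ⊢; linarith) K1
  clear K1
  obtain ⟨kv2, am2', an2', kb2, bm2', bn2', j1, j2, j3, j4, j5, j6, j7, j8, j9, j10, j11, j12,
    j13, j14, j15⟩ := I2
  have hc1 : 0 + Nat.mod y 0x10 ≤ 32 := by
    have : Nat.mod y 0x10 < 0x10 := Nat.mod_lt _ (by norm_num)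
    omega
  have hc2 : 0 + Nat.mod y 0x10 + Nat.mod (Nat.shiftRight y 4) 0x10 ≤ 32 := by
    have h1 : Nat.mod y 0x10 < 0x10 := Nat.mod_lt _ (by norm_num)
    have h2 : Nat.mod (Nat.shiftRight y 4) 0x10 < 0x10 := Nat.mod_lt _ (by norm_num)
    omega
  have hmu : ∀ i : ℕ, Bd ((Nat.mul 0x100000 (Nat.mod (Nat.shiftRight y i) 0x40000) : ℕ) : ℤ)
      38 := by
    intro i
    refine Bd.nat ?_
    have h2 : Nat.mod (Nat.shiftRight y i) 0x40000 < 0x40000 := Nat.mod_lt _ (by norm_num)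
    rw [raw_mul]
    calc 0x100000 * Nat.mod (Nat.shiftRight y i) 0x40000 ≤ 0x100000 * 0x40000 :=
          Nat.mul_le_mul_left _ h2.le
      _ = 2 ^ 38 := by norm_num
  refine fin_sound C rnom rA res rns ea1 (hmu 8) (hmu 0x1a) j1 ?_ j3 j4 i5 i6 j5 j6 j7
    (bd_cnt j8 hc2 (by norm_num)) (bd_cnt j9 hc2 (by norm_num)) (bd_cnt j10 hc2 (by norm_num))
    (bd_cnt i11 hc1 (by norm_num)) (bd_cnt i12 hc1 (by norm_num)) (bd_cnt i13 hc1 (by norm_num))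
    (bd_cnt j11 hc2 (by norm_num)) (bd_cnt j12 hc2 (by norm_num)) (bd_cnt j13 hc2 (by norm_num))
    ?_ ?_ K2
  · rw [j2]
  · refine Bd.nat (j14.trans ?_)
    calc (0 + Nat.mod y 0x10 + Nat.mod (Nat.shiftRight y 4) 0x10) * 2 ^ 28 ≤ 32 * 2 ^ 28 :=
          Nat.mul_le_mul_right _ hc2
      _ = 2 ^ 33 := by norm_num
  · rw [mul_one] at j15
    exact j15

theorem leafS_sound
    (C : Ctx o pc pw a1w a2c a2w xc xw ea ew sw tw a1c sc tc p a1 a2 x e s t)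
    {y SC TC W1 W2 p1m p1n p2k p2m p2n : ℕ}
    (rSC : Rp SC sc) (rTC : Rp TC tc)
    (hW1 : (W1 : ℤ) = xw * (|a1c| + a1w) + (ea * a2w + ew * (a2c + a2w)))
    (hW2 : (W2 : ℤ) = xw * (a2c + a2w) + (ea * a1w + ew * (|a1c| + a1w)))
    (r1m : Rp p1m (32768 * (sc + a1c)))
    (r1n : Rp p1n (32768 * tc + (xc * a1c - o * ea * a2c)))
    (r2k : Rp p2k (32768 * pc))
    (r2m : Rp p2m (pc * sc + 32768 * a2c))
    (r2n : Rp p2n (pc * tc + (xc * a2c + o * ea * a1c)))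
    (h : Chk.leafS y SC sw TC tw xc pc pw a1w a2w W1 W2 p1m p1n p2k p2m p2n = true) : False := by
  have F1 := C.face1 hW1 r1m r1n
  have F2 := C.face2 hW2 r2k r2m r2n
  obtain ⟨k0, hk0⟩ : ∃ v, v = Nat.mod y 0x40 := ⟨_, rfl⟩
  obtain ⟨m0, hm0⟩ : ∃ v, v = Nat.mod (Nat.shiftRight y 6) 0x20 := ⟨_, rfl⟩
  obtain ⟨n0, hn0⟩ : ∃ v, v = Nat.mod (Nat.shiftRight y 0xb) 0x20 := ⟨_, rfl⟩
  obtain ⟨k, hk⟩ : ∃ v, v = Nat.add k0 0xffffffffffffffffffffffffffffffe0 := ⟨_, rfl⟩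
  obtain ⟨m, hm⟩ : ∃ v, v = Nat.add m0 0xfffffffffffffffffffffffffffffff0 := ⟨_, rfl⟩
  obtain ⟨n, hn⟩ : ∃ v, v = Nat.add n0 0xfffffffffffffffffffffffffffffff0 := ⟨_, rfl⟩
  obtain ⟨na, hna⟩ : ∃ v, v = Nat.add (Nat.sub n0 0x10) (Nat.sub 0x10 n0) := ⟨_, rfl⟩
  obtain ⟨v3w, hv3w⟩ : ∃ v, v = Nat.add
      (Nat.mul (Nat.add (Nat.sub m0 0x10) (Nat.sub 0x10 m0)) sw) (Nat.mul na tw) := ⟨_, rfl⟩
  obtain ⟨u, hu⟩ : ∃ v, v = absM (Nat.add (Nat.mul 0x8000 m) (Nat.mul n xc)) := ⟨_, rfl⟩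
  obtain ⟨M3, hM3⟩ : ∃ v, v = Nat.add (absM (Nat.add (Nat.add (Nat.mul k 0x8000) (Nat.mul m SC))
    (Nat.mul n TC))) v3w := ⟨_, rfl⟩
  obtain ⟨M1, hM1⟩ : ∃ v, v = Nat.add (absM (Nat.add (Nat.add (Nat.mul k 0x40000000)
    (Nat.mul m p1m)) (Nat.mul n p1n)))
    (Nat.add (Nat.mul 0x8000 v3w) (Nat.add (Nat.mul u a1w) (Nat.mul na W1))) := ⟨_, rfl⟩
  obtain ⟨M2, hM2⟩ : ∃ v, v = Nat.add (absM (Nat.add (Nat.add (Nat.mul k p2k)
    (Nat.mul m p2m)) (Nat.mul n p2n)))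
    (Nat.add (Nat.add (Nat.mul pc v3w) (Nat.mul pw M3))
      (Nat.add (Nat.mul u a2w) (Nat.mul na W2))) := ⟨_, rfl⟩
  rw [leafS_unf y SC sw TC tw xc pc pw a1w a2w W1 W2 p1m p1n p2k p2m p2n
    k0 m0 n0 k m n na v3w u M3 M1 M2 hk0 hm0 hn0 hk hm hn hna hv3w hu hM3 hM1 hM2] at h
  obtain ⟨h1, h2⟩ := raw_add_zero (Nat.eq_of_beq_eq_true h)
  obtain ⟨h3, h4⟩ := raw_add_zero h2
  have g1 := raw_sub_zero h1
  have g3 := raw_sub_zero h3
  have g4 := raw_sub_zero h4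
  clear h h1 h2 h3 h4
  obtain ⟨ki, hki⟩ : ∃ ki : ℤ, ki = (k0 : ℤ) - 32 := ⟨_, rfl⟩
  obtain ⟨mi, hmi⟩ : ∃ mi : ℤ, mi = (m0 : ℤ) - 16 := ⟨_, rfl⟩
  obtain ⟨ni, hni⟩ : ∃ ni : ℤ, ni = (n0 : ℤ) - 16 := ⟨_, rfl⟩
  have hk0' : k0 < 64 := by rw [hk0]; exact Nat.mod_lt _ (by norm_num)
  have hm0' : m0 < 32 := by rw [hm0]; exact Nat.mod_lt _ (by norm_num)
  have hn0' : n0 < 32 := by rw [hn0]; exact Nat.mod_lt _ (by norm_num)
  have bki : Bd ki 5 := by unfold Bd; rw [abs_le]; constructor <;> norm_num <;> omega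
  have bmi : Bd mi 4 := by unfold Bd; rw [abs_le]; constructor <;> norm_num <;> omega
  have bni : Bd ni 4 := by unfold Bd; rw [abs_le]; constructor <;> norm_num <;> omega
  have rk : Rp k ki := by
    rw [hk]
    exact (Rp.add (Rp.nat k0) Rp.litk).of_eq (by rw [hki]; rfl)
  have rm : Rp m mi := by
    rw [hm]
    exact (Rp.add (Rp.nat m0) Rp.litm).of_eq (by rw [hmi]; rfl)
  have rn : Rp n ni := by
    rw [hn]
    exact (Rp.add (Rp.nat n0) Rp.litm).of_eq (by rw [hni]; rfl)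
  have ena : (na : ℤ) = |ni| := by rw [hna, dist16, hni]
  have hne : ¬(ki = 0 ∧ mi = 0 ∧ ni = 0) := by
    rintro ⟨q1, q2, q3⟩
    have e1 : ((Nat.add (Nat.sub k0 0x20) (Nat.sub 0x20 k0) : ℕ) : ℤ) = 0 := by
      rw [dist32, ← hki, q1, abs_zero]
    have e2 : ((Nat.add (Nat.sub m0 0x10) (Nat.sub 0x10 m0) : ℕ) : ℤ) = 0 := by
      rw [dist16, ← hmi, q2, abs_zero]
    have e3 : (na : ℤ) = 0 := by rw [ena, q3, abs_zero]
    have e1' : Nat.add (Nat.sub k0 0x20) (Nat.sub 0x20 k0) = 0 := by exact_mod_cast e1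
    have e2' : Nat.add (Nat.sub m0 0x10) (Nat.sub 0x10 m0) = 0 := by exact_mod_cast e2
    have e3' : na = 0 := by exact_mod_cast e3
    rw [e1', e2', e3'] at g1
    exact absurd g1 (by decide)
  have e3w : (v3w : ℤ) = |mi| * sw + |ni| * tw := by
    rw [hv3w, raw_add, raw_mul, raw_mul]
    rw [Nat.cast_add, Nat.cast_mul, Nat.cast_mul, ena, dist16, hmi]
  have bsc := C.bsc.mono (by norm_num : 18 ≤ 20)
  have btc := C.btc.mono (by norm_num : 18 ≤ 20)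
  have bxc := C.bxc.mono (by norm_num : 18 ≤ 20)
  have b3 : Bd (ki * 32768 + mi * sc + ni * tc) 26 := by
    have h1 : Bd (ki * 32768) 20 := (bki.mul (show Bd 32768 15 by unfold Bd; norm_num)).mono
      (by norm_num)
    exact ((h1.mono (by norm_num : 20 ≤ 24)).add ((bmi.mul bsc).mono (by norm_num))).add
      ((bni.mul btc).mono (by norm_num))
  have eu : (u : ℤ) = |32768 * mi + ni * xc| := by
    rw [hu]
    refine absM_eq (Rp.add (Rp.mul (Rp.nat 0x8000) rm) (Rp.mul rn (Rp.nat xc))) ?_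
    have h1 : Bd ((32768 : ℤ) * mi) 24 := ((show Bd 32768 15 by unfold Bd; norm_num).mul bmi).mono
      (by norm_num)
    exact (h1.add ((bni.mul bxc).mono (by norm_num))).lt (by norm_num)
  have eM3 : (M3 : ℤ) = |ki * 32768 + mi * sc + ni * tc| + v3w := by
    rw [hM3, raw_add, Nat.cast_add]
    rw [show ((absM (Nat.add (Nat.add (Nat.mul k 0x8000) (Nat.mul m SC))
      (Nat.mul n TC)) : ℕ) : ℤ) = |ki * 32768 + mi * sc + ni * tc| from
      absM_eq (Rp.add (Rp.add (Rp.mul rk (Rp.nat 0x8000)) (Rp.mul rm rSC)) (Rp.mul rn rTC))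
        (b3.lt (by norm_num))]
  obtain ⟨v1, hv1⟩ : ∃ v : ℤ, v = ki * 1073741824 + mi * (32768 * (sc + a1c))
          + ni * (32768 * tc + (xc * a1c - o * ea * a2c)) := ⟨_, rfl⟩
  obtain ⟨v2, hv2⟩ : ∃ v : ℤ, v = ki * (32768 * pc) + mi * (pc * sc + 32768 * a2c)
          + ni * (pc * tc + (xc * a2c + o * ea * a1c)) := ⟨_, rfl⟩
  have bv1 : Bd v1 46 := by
    rw [hv1]
    exact ((((bki.mul F1.bk).mono (by norm_num : 5 + 38 ≤ 44)).add
      ((bmi.mul F1.bm).mono (by norm_num))).add ((bni.mul F1.bn).mono (by norm_num)))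
  have bv2 : Bd v2 46 := by
    rw [hv2]
    exact ((((bki.mul F2.bk).mono (by norm_num : 5 + 38 ≤ 44)).add
      ((bmi.mul F2.bm).mono (by norm_num))).add ((bni.mul F2.bn).mono (by norm_num)))
  have rc1 : Rp (Nat.add (Nat.add (Nat.mul k 0x40000000) (Nat.mul m p1m)) (Nat.mul n p1n)) v1 :=
    (Rp.add (Rp.add (Rp.mul rk (Rp.nat 0x40000000)) (Rp.mul rm r1m)) (Rp.mul rn r1n)).of_eq
      (by rw [hv1]; push_cast; ring)
  have rc2 : Rp (Nat.add (Nat.add (Nat.mul k p2k) (Nat.mul m p2m)) (Nat.mul n p2n)) v2 :=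
    (Rp.add (Rp.add (Rp.mul rk r2k) (Rp.mul rm r2m)) (Rp.mul rn r2n)).of_eq hv2.symm
  have eM1 : (M1 : ℤ) = |v1| + (32768 * v3w + (u * a1w + na * W1)) := by
    rw [hM1, raw_add, Nat.cast_add]
    rw [show ((absM (Nat.add (Nat.add (Nat.mul k 0x40000000)
      (Nat.mul m p1m)) (Nat.mul n p1n)) : ℕ) : ℤ) = |v1| from absM_eq rc1 (bv1.lt (by norm_num))]
    rw [raw_add, raw_add, raw_mul, raw_mul, raw_mul]; push_cast; ring
  have eM2 : (M2 : ℤ) = |v2| + (pc * v3w + pw * M3 + (u * a2w + na * W2)) := by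
    rw [hM2, raw_add, Nat.cast_add]
    rw [show ((absM (Nat.add (Nat.add (Nat.mul k p2k)
      (Nat.mul m p2m)) (Nat.mul n p2n)) : ℕ) : ℤ) = |v2| from absM_eq rc2 (bv2.lt (by norm_num))]
    rw [raw_add, raw_add, raw_add, raw_mul, raw_mul, raw_mul, raw_mul]; push_cast; ring
  have c3 := Core.v3_bound (S := 32768) (ki : ℝ) mi ni C.hs C.ht
  have n1 := C.near1 hW1 ki mi ni
  have n2 := C.near2 hW2 ki mi ni
  clear hk0 hm0 hn0 hk hm hn hna hv3w hu hM3 hM1 hM2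
  have A3 : |(32768 : ℝ) * (ki + mi * s + ni * t)| ≤ (M3 : ℝ) := by
    refine (Core.abs_le_of c3).trans (le_of_eq ?_)
    have : (M3 : ℝ) = ((|ki * 32768 + mi * sc + ni * tc| + (|mi| * sw + |ni| * tw) : ℤ) : ℝ) := by
      rw [← e3w, ← eM3]; push_cast; ring
    rw [this]; push_cast; ring
  have A1 : |(32768 : ℝ) ^ 2 * (ki * 1 + mi * (s + a1) + ni * (t + x * a1 - e * a2))|
      ≤ (M1 : ℝ) := by
    have h1 := Core.abs_le_of n1
    refine h1.trans (le_of_eq ?_)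
    have : (M1 : ℝ) = ((|v1| + (32768 * (|mi| * sw + |ni| * tw) + (|32768 * mi + ni * xc| * a1w
      + |ni| * W1)) : ℤ) : ℝ) := by
      rw [← e3w, ← eu, ← ena, ← eM1]; push_cast; ring
    rw [this, hv1]; push_cast; ring
  have A2 : |(32768 : ℝ) ^ 2 * (ki * p + mi * (p * s + a2) + ni * (p * t + x * a2 + e * a1))|
      ≤ (M2 : ℝ) := by
    have h1 := Core.abs_le_of n2
    refine h1.trans (le_of_eq ?_)
    have : (M2 : ℝ) = ((|v2| + (pc * (|mi| * sw + |ni| * tw) + pw *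
        (|ki * 32768 + mi * sc + ni * tc| + (|mi| * sw + |ni| * tw))
        + (|32768 * mi + ni * xc| * a2w + |ni| * W2)) : ℤ) : ℝ) := by
      rw [← e3w, ← eM3, ← eu, ← ena, ← eM2]; push_cast; ring
    rw [this, hv2]; push_cast; ring
  have hS5 : ((0x7ffffffffffffffffff : ℕ) : ℝ) < (32768 : ℝ) ^ 5 := by norm_num
  have q1 : (M3 : ℝ) * (M1 : ℝ) ^ 2 < 32768 ^ 5 := by
    refine lt_of_le_of_lt ?_ hS5
    have h1 : M3 * (M1 * M1) ≤ 0x7ffffffffffffffffff := g3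
    have h2 : ((M3 * (M1 * M1) : ℕ) : ℝ) ≤ ((0x7ffffffffffffffffff : ℕ) : ℝ) := by
      exact_mod_cast h1
    push_cast at h2 ⊢
    linarith
  have q2 : (M3 : ℝ) * (M2 : ℝ) ^ 2 < 32768 ^ 5 := by
    refine lt_of_le_of_lt ?_ hS5
    have h1 : M3 * (M2 * M2) ≤ 0x7ffffffffffffffffff := g4
    have h2 : ((M3 * (M2 * M2) : ℕ) : ℝ) ≤ ((0x7ffffffffffffffffff : ℕ) : ℝ) := by
      exact_mod_cast h1
    push_cast at h2 ⊢
    linarith
  have s1 := Core.small_prod (by norm_num : (0 : ℝ) < 32768) A3 A1 q1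
  have s2 := Core.small_prod (by norm_num : (0 : ℝ) < 32768) A3 A2 q2
  have hG := C.G1 ki mi ni hne
  rcases le_total ((ki * 1 + mi * (s + a1) + ni * (t + x * a1 - e * a2)) ^ 2)
        ((ki * p + mi * (p * s + a2) + ni * (p * t + x * a2 + e * a1)) ^ 2) with hle | hle
  · rw [max_eq_right hle] at hG; linarith
  · rw [max_eq_left hle] at hG; linarith

end faces

end Snd
end Pool.Agent.Lib.MP_be9f18_nt
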