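import Pool.Agent.Lib.MP_be9f18_nt.Core

/-!
Real lemmas behind the second kernel checker (matrix boxes near the cubic lattice,
problem MP_be9f18_nt).

The matrix is `[[a, b, f], [e, d, g], [h, l, c]]`.  Centres and half widths are scaled: the
hypotheses read `|S * t - tc| ≤ tw` for the entries and `|D * x - xc| ≤ xe` for the coordinates of
the points.
-/

set_option autoImplicit false

namespace Pool.Agent.Lib.MP_be9f18_nt
namespace TCore

open Core

/-- one product `t x` with both factors approximated -/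
theorem prod_bound {S D t x tc xc tw xe : ℝ} (ht : |S * t - tc| ≤ tw) (hx : |D * x - xc| ≤ xe) :
    |S * D * (t * x) - tc * xc| ≤ tw * |xc| + (|tc| + tw) * xe := by
  have e : S * D * (t * x) - tc * xc = (S * t - tc) * xc + (S * t) * (D * x - xc) := by ring
  rw [e]
  refine (abs_add_le _ _).trans (add_le_add (abs_mul_le ht le_rfl) (abs_mul_le ?_ hx))
  exact abs_le_of ht

/-- a coordinate `t x + t' x' + t'' x''` -/
theorem coord_bound {S D t x tc xc tw xe t' x' tc' xc' tw' xe' t'' x'' tc'' xc'' tw'' xe'' : ℝ}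
    (ht : |S * t - tc| ≤ tw) (hx : |D * x - xc| ≤ xe)
    (ht' : |S * t' - tc'| ≤ tw') (hx' : |D * x' - xc'| ≤ xe')
    (ht'' : |S * t'' - tc''| ≤ tw'') (hx'' : |D * x'' - xc''| ≤ xe'') :
    |S * D * (t * x + t' * x' + t'' * x'') - (tc * xc + tc' * xc' + tc'' * xc'')| ≤
      (tw * |xc| + (|tc| + tw) * xe) + (tw' * |xc'| + (|tc'| + tw') * xe')
        + (tw'' * |xc''| + (|tc''| + tw'') * xe'') := by
  have e : S * D * (t * x + t' * x' + t'' * x'') - (tc * xc + tc' * xc' + tc'' * xc'')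
      = (S * D * (t * x) - tc * xc) + (S * D * (t' * x') - tc' * xc')
        + (S * D * (t'' * x'') - tc'' * xc'') := by ring
  rw [e]
  exact (abs_add_le _ _).trans (add_le_add ((abs_add_le _ _).trans
    (add_le_add (prod_bound ht hx) (prod_bound ht' hx'))) (prod_bound ht'' hx''))

/-- The row lemma when all three coordinates have the same scale `T`. -/
theorem row {T v3 vf vg v3c v3w vfc vfw vgc vgw sg : ℝ} (hT : 0 < T)
    (h3 : |T * v3 - v3c| ≤ v3w) (hf : |T * vf - vfc| ≤ vfw)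
    (hg : |T * vg - vgc| ≤ vgw) (hv3c : 0 ≤ v3c) (hsg : sg = 1 ∨ sg = -1)
    (c1 : (v3c + v3w) * (|vgc| + vgw) ^ 2 < T ^ 3)
    (c2 : (v3c + v3w) * (max 0 (vfw - sg * vfc)) ^ 2 < T ^ 3)
    (c3 : (max 0 (v3w - v3c)) * (|vfc| + vfw) ^ 2 < T ^ 3)
    (hG : 1 ≤ |v3| * max (vf ^ 2) (vg ^ 2)) :
    0 < v3 ∧ 0 < sg * vf ∧ 1 ≤ v3 * (sg * vf) ^ 2 := by
  have hscale : ∀ v vc vw : ℝ, |T * v - vc| ≤ vw → |T ^ 2 * v - T * vc| ≤ T * vw := by
    intro v vc vw h
    have e : T ^ 2 * v - T * vc = T * (T * v - vc) := by ring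
    rw [e, abs_mul, abs_of_pos hT]
    exact mul_le_mul_of_nonneg_left h hT.le
  have habs : ∀ v : ℝ, |T * v| = T * |v| := fun v => by rw [abs_mul, abs_of_pos hT]
  have hT2 : 0 < T ^ 2 := by positivity
  refine Core.row (S := T) (v3c := v3c) (v3w := v3w) (vfc := T * vfc) (vfw := T * vfw)
    (vgc := T * vgc) (vgw := T * vgw) hT h3 (hscale _ _ _ hf) (hscale _ _ _ hg) hv3c hsg
    ?_ ?_ ?_ hG
  · rw [habs]
    have e : (v3c + v3w) * (T * |vgc| + T * vgw) ^ 2
        = T ^ 2 * ((v3c + v3w) * (|vgc| + vgw) ^ 2) := by ring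
    rw [e]
    calc _ < T ^ 2 * T ^ 3 := mul_lt_mul_of_pos_left c1 hT2
      _ = T ^ 5 := by ring
  · have e1 : max 0 (T * vfw - sg * (T * vfc)) = T * max 0 (vfw - sg * vfc) := by
      rw [mul_max_of_nonneg _ _ hT.le, mul_zero]
      congr 1
      ring
    rw [e1]
    have e : (v3c + v3w) * (T * max 0 (vfw - sg * vfc)) ^ 2
        = T ^ 2 * ((v3c + v3w) * (max 0 (vfw - sg * vfc)) ^ 2) := by ring
    rw [e]
    calc _ < T ^ 2 * T ^ 3 := mul_lt_mul_of_pos_left c2 hT2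
      _ = T ^ 5 := by ring
  · rw [habs]
    have e : (max 0 (v3w - v3c)) * (T * |vfc| + T * vfw) ^ 2
        = T ^ 2 * ((max 0 (v3w - v3c)) * (|vfc| + vfw) ^ 2) := by ring
    rw [e]
    calc _ < T ^ 2 * T ^ 3 := mul_lt_mul_of_pos_left c3 hT2
      _ = T ^ 5 := by ring

/-- The row lemma in the form used by the checker. -/
theorem row_ineq {T v3 vf vg v3c v3w vfc vfw vgc vgw sg R r w : ℝ} (hT : 0 < T)
    (h3 : |T * v3 - v3c| ≤ v3w) (hf : |T * vf - vfc| ≤ vfw)
    (hg : |T * vg - vgc| ≤ vgw) (hv3c : 0 ≤ v3c) (hsg : sg = 1 ∨ sg = -1)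
    (c1 : (v3c + v3w) * (|vgc| + vgw) ^ 2 < T ^ 3)
    (c2 : (v3c + v3w) * (max 0 (vfw - sg * vfc)) ^ 2 < T ^ 3)
    (c3 : (max 0 (v3w - v3c)) * (|vfc| + vfw) ^ 2 < T ^ 3)
    (hG : 1 ≤ |v3| * max (vf ^ 2) (vg ^ 2)) (hR : 0 ≤ R) (hr : 0 ≤ r) (hw : 0 ≤ w) :
    3 * R ^ 2 * w * r ≤ w * r ^ 3 * v3 + 2 * R ^ 3 * w * sg * vf := by
  obtain ⟨-, q4, q5⟩ := row hT h3 hf hg hv3c hsg c1 c2 c3 hG
  have := mul_le_mul_of_nonneg_left (amgm q4 q5 hr hR) hw
  nlinarith [this]

/-- A point with `G < 1` on the whole box. -/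
theorem small_G {T v1 v2 v3 v3c v3w v1c v1w v2c v2w : ℝ} (hT : 0 < T)
    (h3 : |T * v3 - v3c| ≤ v3w) (h1 : |T * v1 - v1c| ≤ v1w) (h2 : |T * v2 - v2c| ≤ v2w)
    (c1 : (|v3c| + v3w) * (|v1c| + v1w) ^ 2 < T ^ 3)
    (c2 : (|v3c| + v3w) * (|v2c| + v2w) ^ 2 < T ^ 3) : G v1 v2 v3 < 1 := by
  have key : ∀ v vc vw : ℝ, |T * v - vc| ≤ vw → (|v3c| + v3w) * (|vc| + vw) ^ 2 < T ^ 3 →
      |v3| * v ^ 2 < 1 := by
    intro v vc vw hv hc
    have a3 := abs_le_of h3
    have av := abs_le_of hv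
    rw [abs_mul, abs_of_pos hT] at a3 av
    have h0 : 0 ≤ T * |v3| := by positivity
    have h4 : (T * |v|) ^ 2 ≤ (|vc| + vw) ^ 2 := pow_le_pow_left₀ (by positivity) av 2
    have h5 : (T * |v3|) * (T * |v|) ^ 2 ≤ (|v3c| + v3w) * (|vc| + vw) ^ 2 :=
      mul_le_mul a3 h4 (by positivity) (h0.trans a3)
    have h6 : (T * |v3|) * (T * |v|) ^ 2 = T ^ 3 * (|v3| * v ^ 2) := by
      rw [mul_pow, sq_abs]; ring
    have h7 : T ^ 3 * (|v3| * v ^ 2) < T ^ 3 * 1 := by linarith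
    exact lt_of_mul_lt_mul_left h7 (by positivity)
  unfold G
  rcases le_total (v1 ^ 2) (v2 ^ 2) with h | h
  · rw [max_eq_right h]; exact key v2 v2c v2w h2 c2
  · rw [max_eq_left h]; exact key v1 v1c v1w h1 c1

/-- the determinant of `[[a, b, f], [e, d, g], [h, l, c]]` -/
def det (a b f e d g h l c : ℝ) : ℝ :=
  a * (d * c - g * l) - b * (e * c - g * h) + f * (e * l - d * h)

/-- second and third order bound for one permutation -/
def pb (t1 t2 t3 w1 w2 w3 : ℝ) : ℝ :=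
  w1 * w2 * |t3| + w1 * w3 * |t2| + w2 * w3 * (|t1| + w1)

/-- the second and third order bound of the determinant -/
def DB (a b f e d g h l c aw bw fw ew dw gw hw lw cw : ℝ) : ℝ :=
  pb a d c aw dw cw + pb a g l aw gw lw + pb b e c bw ew cw + pb b g h bw gw hw
    + pb f e l fw ew lw + pb f d h fw dw hw

theorem triple_bound {t1 t2 t3 d1 d2 d3 w1 w2 w3 : ℝ} (h1 : |d1| ≤ w1) (h2 : |d2| ≤ w2)
    (h3 : |d3| ≤ w3) :
    |(t1 + d1) * (t2 + d2) * (t3 + d3) - t1 * t2 * t3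
      - (t2 * t3 * d1 + t1 * t3 * d2 + t1 * t2 * d3)| ≤ pb t1 t2 t3 w1 w2 w3 := by
  have e : (t1 + d1) * (t2 + d2) * (t3 + d3) - t1 * t2 * t3
      - (t2 * t3 * d1 + t1 * t3 * d2 + t1 * t2 * d3)
      = d1 * d2 * t3 + d1 * d3 * t2 + d2 * d3 * (t1 + d1) := by ring
  rw [e]
  have a1 : |d1 * d2 * t3| ≤ w1 * w2 * |t3| := abs_mul_le (abs_mul_le h1 h2) le_rfl
  have a2 : |d1 * d3 * t2| ≤ w1 * w3 * |t2| := abs_mul_le (abs_mul_le h1 h3) le_rfl
  have a3 : |d2 * d3 * (t1 + d1)| ≤ w2 * w3 * (|t1| + w1) :=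
    abs_mul_le (abs_mul_le h2 h3) ((abs_add_le _ _).trans (add_le_add le_rfl h1))
  refine (abs_add_le _ _).trans ?_
  refine (add_le_add ((abs_add_le _ _).trans (add_le_add a1 a2)) a3).trans ?_
  unfold pb
  linarith

/-- Expansion of the determinant with remainder bound. -/
theorem det_bound {a b f e d g h l c da db df de dd dg dh dl dc
    aw bw fw ew dw gw hw lw cw : ℝ}
    (ha : |da| ≤ aw) (hb : |db| ≤ bw) (hf : |df| ≤ fw) (he : |de| ≤ ew) (hd : |dd| ≤ dw)
    (hg : |dg| ≤ gw) (hh : |dh| ≤ hw) (hl : |dl| ≤ lw) (hc : |dc| ≤ cw) :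
    |det (a + da) (b + db) (f + df) (e + de) (d + dd) (g + dg) (h + dh) (l + dl) (c + dc)
      - det a b f e d g h l c
      - ((d * c - g * l) * da + (g * h - e * c) * db + (e * l - d * h) * df
        + (f * l - b * c) * de + (a * c - f * h) * dd + (b * h - a * l) * dg
        + (b * g - f * d) * dh + (f * e - a * g) * dl + (a * d - b * e) * dc)|
      ≤ DB a b f e d g h l c aw bw fw ew dw gw hw lw cw := by
  have t1 := abs_le.mp (triple_bound (t1 := a) (t2 := d) (t3 := c) ha hd hc)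
  have t2 := abs_le.mp (triple_bound (t1 := a) (t2 := g) (t3 := l) ha hg hl)
  have t3 := abs_le.mp (triple_bound (t1 := b) (t2 := e) (t3 := c) hb he hc)
  have t4 := abs_le.mp (triple_bound (t1 := b) (t2 := g) (t3 := h) hb hg hh)
  have t5 := abs_le.mp (triple_bound (t1 := f) (t2 := e) (t3 := l) hf he hl)
  have t6 := abs_le.mp (triple_bound (t1 := f) (t2 := d) (t3 := h) hf hd hh)
  have E : det (a + da) (b + db) (f + df) (e + de) (d + dd) (g + dg) (h + dh) (l + dl) (c + dc)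
      - det a b f e d g h l c
      - ((d * c - g * l) * da + (g * h - e * c) * db + (e * l - d * h) * df
        + (f * l - b * c) * de + (a * c - f * h) * dd + (b * h - a * l) * dg
        + (b * g - f * d) * dh + (f * e - a * g) * dl + (a * d - b * e) * dc) =
      ((a + da) * (d + dd) * (c + dc) - a * d * c - (d * c * da + a * c * dd + a * d * dc))
      - ((a + da) * (g + dg) * (l + dl) - a * g * l - (g * l * da + a * l * dg + a * g * dl))
      - ((b + db) * (e + de) * (c + dc) - b * e * c - (e * c * db + b * c * de + b * e * dc))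
      + ((b + db) * (g + dg) * (h + dh) - b * g * h - (g * h * db + b * h * dg + b * g * dh))
      + ((f + df) * (e + de) * (l + dl) - f * e * l - (e * l * df + f * l * de + f * e * dl))
      - ((f + df) * (d + dd) * (h + dh) - f * d * h - (d * h * df + f * h * dd + f * d * dh)) := by
    unfold det
    ring
  rw [E, abs_le]
  unfold DB
  constructor <;> linarith [t1.1, t1.2, t2.1, t2.2, t3.1, t3.2, t4.1, t4.2, t5.1, t5.2, t6.1, t6.2]

/-- one term of the linear part: the coefficient `g` is approximated by `gc` with error `ge`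
(scale `D`), the variable `t` by `tc` with error `tw` (scale `S`). -/
theorem lin_term {S D g t gc ge tc tw : ℝ} (hg : |D * g - gc| ≤ ge) (ht : |S * t - tc| ≤ tw) :
    S * D * (g * t) - gc * tc - gc * (S * t - tc) ≤ ge * (|tc| + tw) := by
  have e : S * D * (g * t) - gc * tc - gc * (S * t - tc) = (D * g - gc) * (S * t) := by ring
  rw [e]
  exact (le_abs_self _).trans (abs_mul_le hg (abs_le_of ht))

/-- The final bound for the matrix checker.  `nu` is `0` or `1`; the box variables are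
`a0, b, f, e, d, g, h, l, c0`, and `a = a0 - nu f`, `c = c0 - nu h`.  The nine coefficients `G..`
of the sum of the rows are approximated by `..c` with error `..r` (scale `D`). -/
theorem tfinal {S D mu nu Q a0 b f e d g h l c0
    a0c bc fc ec dc gc hc lc c0c a0w bw fw ew dw gw hw lw c0w
    Ga Gb Gf Ge Gd Gg Gh Gl Gc qa qb qf qe qd qg qh ql qc ra rb rf re rd rg rh rl rc : ℝ}
    (hS : 0 ≤ S) (hD : 0 ≤ D) (hmu : 0 ≤ mu) (hnu : 0 ≤ nu)
    (ha : |S * a0 - a0c| ≤ a0w) (hb : |S * b - bc| ≤ bw) (hf : |S * f - fc| ≤ fw)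
    (he : |S * e - ec| ≤ ew) (hd : |S * d - dc| ≤ dw) (hg : |S * g - gc| ≤ gw)
    (hh : |S * h - hc| ≤ hw) (hl : |S * l - lc| ≤ lw) (hc' : |S * c0 - c0c| ≤ c0w)
    (ka : |D * Ga - qa| ≤ ra) (kb : |D * Gb - qb| ≤ rb) (kf : |D * Gf - qf| ≤ rf)
    (ke : |D * Ge - qe| ≤ re) (kd : |D * Gd - qd| ≤ rd) (kg : |D * Gg - qg| ≤ rg)
    (kh : |D * Gh - qh| ≤ rh) (kl : |D * Gl - ql| ≤ rl) (kc : |D * Gc - qc| ≤ rc)
    (hQ : Q ≤ Ga * a0 + Gb * b + Gf * f + Ge * e + Gd * d + Gg * g + Gh * h + Gl * l + Gc * c0)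
    (hdet : det (a0 - nu * f) b f e d g h l (c0 - nu * h) ≤ 1) :
    S ^ 3 * D * Q ≤
      S ^ 2 * (qa * a0c + qb * bc + qf * fc + qe * ec + qd * dc + qg * gc + qh * hc + ql * lc
          + qc * c0c)
      + D * mu * (S ^ 3 - det (a0c - nu * fc) bc fc ec dc gc hc lc (c0c - nu * hc))
      + |S ^ 2 * qa - D * mu * (dc * (c0c - nu * hc) - gc * lc)| * a0w
      + |S ^ 2 * qb - D * mu * (gc * hc - ec * (c0c - nu * hc))| * bw
      + |S ^ 2 * qf - D * mu * ((ec * lc - dc * hc)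
          - nu * (dc * (c0c - nu * hc) - gc * lc))| * fw
      + |S ^ 2 * qe - D * mu * (fc * lc - bc * (c0c - nu * hc))| * ew
      + |S ^ 2 * qd - D * mu * ((a0c - nu * fc) * (c0c - nu * hc) - fc * hc)| * dw
      + |S ^ 2 * qg - D * mu * (bc * hc - (a0c - nu * fc) * lc)| * gw
      + |S ^ 2 * qh - D * mu * ((bc * gc - fc * dc)
          - nu * ((a0c - nu * fc) * dc - bc * ec))| * hw
      + |S ^ 2 * ql - D * mu * (fc * ec - (a0c - nu * fc) * gc)| * lw
      + |S ^ 2 * qc - D * mu * ((a0c - nu * fc) * dc - bc * ec)| * c0w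
      + S ^ 2 * (ra * (|a0c| + a0w) + rb * (|bc| + bw) + rf * (|fc| + fw) + re * (|ec| + ew)
          + rd * (|dc| + dw) + rg * (|gc| + gw) + rh * (|hc| + hw) + rl * (|lc| + lw)
          + rc * (|c0c| + c0w))
      + D * mu * DB (a0c - nu * fc) bc fc ec dc gc hc lc (c0c - nu * hc)
          (a0w + nu * fw) bw fw ew dw gw hw lw (c0w + nu * hw) := by
  have hda : |(S * a0 - a0c) - nu * (S * f - fc)| ≤ a0w + nu * fw := by
    refine (abs_sub _ _).trans (add_le_add ha ?_)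
    rw [abs_mul, abs_of_nonneg hnu]
    exact mul_le_mul_of_nonneg_left hf hnu
  have hdc : |(S * c0 - c0c) - nu * (S * h - hc)| ≤ c0w + nu * hw := by
    refine (abs_sub _ _).trans (add_le_add hc' ?_)
    rw [abs_mul, abs_of_nonneg hnu]
    exact mul_le_mul_of_nonneg_left hh hnu
  have HD := det_bound (a := a0c - nu * fc) (b := bc) (f := fc) (e := ec) (d := dc) (g := gc)
    (h := hc) (l := lc) (c := c0c - nu * hc) hda hb hf he hd hg hh hl hdc
  have E : det (a0c - nu * fc + ((S * a0 - a0c) - nu * (S * f - fc))) (bc + (S * b - bc))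
      (fc + (S * f - fc)) (ec + (S * e - ec)) (dc + (S * d - dc)) (gc + (S * g - gc))
      (hc + (S * h - hc)) (lc + (S * l - lc)) (c0c - nu * hc + ((S * c0 - c0c)
        - nu * (S * h - hc)))
      = S ^ 3 * det (a0 - nu * f) b f e d g h l (c0 - nu * h) := by
    unfold det
    ring
  rw [E] at HD
  have HD' := (abs_le.mp HD).1
  have hDm : 0 ≤ D * mu := mul_nonneg hD hmu
  have M1 := mul_le_mul_of_nonneg_left HD' hDm
  have M2 : D * mu * (S ^ 3 * det (a0 - nu * f) b f e d g h l (c0 - nu * h)) ≤ D * mu * S ^ 3 := by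
    refine mul_le_mul_of_nonneg_left ?_ hDm
    have : S ^ 3 * det (a0 - nu * f) b f e d g h l (c0 - nu * h) ≤ S ^ 3 * 1 :=
      mul_le_mul_of_nonneg_left hdet (by positivity)
    linarith
  have hS2 : 0 ≤ S ^ 2 := by positivity
  have hSD : 0 ≤ S ^ 3 * D := by positivity
  have M3 := mul_le_mul_of_nonneg_left hQ hSD
  have L : S ^ 2 * (S * D * (Ga * a0) + S * D * (Gb * b) + S * D * (Gf * f) + S * D * (Ge * e)
      + S * D * (Gd * d) + S * D * (Gg * g) + S * D * (Gh * h) + S * D * (Gl * l)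
      + S * D * (Gc * c0)) ≤
      S ^ 2 * (qa * a0c + qb * bc + qf * fc + qe * ec + qd * dc + qg * gc + qh * hc + ql * lc
          + qc * c0c
        + (qa * (S * a0 - a0c) + qb * (S * b - bc) + qf * (S * f - fc) + qe * (S * e - ec)
          + qd * (S * d - dc) + qg * (S * g - gc) + qh * (S * h - hc) + ql * (S * l - lc)
          + qc * (S * c0 - c0c))
        + (ra * (|a0c| + a0w) + rb * (|bc| + bw) + rf * (|fc| + fw) + re * (|ec| + ew)
          + rd * (|dc| + dw) + rg * (|gc| + gw) + rh * (|hc| + hw) + rl * (|lc| + lw)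
          + rc * (|c0c| + c0w))) := by
    refine mul_le_mul_of_nonneg_left ?_ hS2
    linarith [lin_term ka ha, lin_term kb hb, lin_term kf hf, lin_term ke he, lin_term kd hd,
      lin_term kg hg, lin_term kh hh, lin_term kl hl, lin_term kc hc']
  have T1 := term_le (L := S ^ 2 * qa - D * mu * (dc * (c0c - nu * hc) - gc * lc)) ha
  have T2 := term_le (L := S ^ 2 * qb - D * mu * (gc * hc - ec * (c0c - nu * hc))) hb
  have T3 := term_le (L := S ^ 2 * qf - D * mu * ((ec * lc - dc * hc)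
          - nu * (dc * (c0c - nu * hc) - gc * lc))) hf
  have T4 := term_le (L := S ^ 2 * qe - D * mu * (fc * lc - bc * (c0c - nu * hc))) he
  have T5 := term_le (L := S ^ 2 * qd - D * mu * ((a0c - nu * fc) * (c0c - nu * hc)
    - fc * hc)) hd
  have T6 := term_le (L := S ^ 2 * qg - D * mu * (bc * hc - (a0c - nu * fc) * lc)) hg
  have T7 := term_le (L := S ^ 2 * qh - D * mu * ((bc * gc - fc * dc)
          - nu * ((a0c - nu * fc) * dc - bc * ec))) hh
  have T8 := term_le (L := S ^ 2 * ql - D * mu * (fc * ec - (a0c - nu * fc) * gc)) hl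
  have T9 := term_le (L := S ^ 2 * qc - D * mu * ((a0c - nu * fc) * dc - bc * ec)) hc'
  linarith [T1, T2, T3, T4, T5, T6, T7, T8, T9, L, M1, M2, M3]

end TCore
end Pool.Agent.Lib.MP_be9f18_nt
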