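import Pool.Agent.Lib.MP_be9f18_nt.TMod

/-!
Decoding of `TChk.fin` and `TChk.leafS` (generated from `TCheck.lean`; problem MP_be9f18_nt).
-/

set_option autoImplicit false
set_option linter.unusedVariables false

namespace Pool.Agent.Lib.MP_be9f18_nt
namespace TSound

noncomputable def fn0 (nu ac bc fc ec dc gc hc lc cc aw bw fw ew dw gw hw lw cw nnu mu Gv Gf hX
  lY cZ aX bY fZ eX dY gZ cs es bad : ℕ) : Bool :=
  (fun A C AW CW => (fun k0 k1 k2 k3 k4 k5 k6 k7 k8 nm => (fun C1 C2 C3 C4 => Nat.beq (Nat.add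
    bad (Nat.sub 0x8000000000000000000000000000000000000000000000000000000000000000 (Nat.mod
    (Nat.add (Nat.add C1 C2) (Nat.add C3 C4))
    0x10000000000000000000000000000000000000000000000000000000000000000))) 0) (Nat.add (Nat.add
    Gv (Nat.mul 0x80000000 Gf)) (Nat.add (Nat.mul
    0xfffffffffffffffffffffffffffffffffffa0000000000000000000000000000 cs) es)) (Nat.add (Nat.mul
    mu 0x200000000000000000000000) (Nat.mul nm (Nat.add (Nat.add (Nat.mul A k0) (Nat.mul bc k1))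
    (Nat.mul fc k2)))) (Nat.add (Nat.add (Nat.add (Nat.add (Nat.add (Nat.add (Nat.add (Nat.add
    (Nat.mul (ab (Nat.add aX (Nat.mul nm k0))) aw) (Nat.mul (ab (Nat.add bY (Nat.mul nm k1)))
    bw)) (Nat.mul (ab (Nat.add fZ (Nat.mul nm (Nat.add k2 (Nat.mul nnu k0))))) fw)) (Nat.mul (ab
    (Nat.add eX (Nat.mul nm k3))) ew)) (Nat.mul (ab (Nat.add dY (Nat.mul nm k4))) dw)) (Nat.mul
    (ab (Nat.add gZ (Nat.mul nm k5))) gw)) (Nat.mul (ab (Nat.add hX (Nat.mul nm (Nat.add k6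
    (Nat.mul nnu k8))))) hw)) (Nat.mul (ab (Nat.add lY (Nat.mul nm k7))) lw)) (Nat.mul (ab
    (Nat.add cZ (Nat.mul nm k8))) cw)) (Nat.mul mu (Nat.add (Nat.add (Nat.add (Nat.add (Nat.add
    (Nat.add (Nat.add (Nat.add (Nat.mul (Nat.add (ab A) AW) (Nat.add (Nat.mul dw CW) (Nat.mul gw
    lw))) (Nat.mul (Nat.add (ab bc) bw) (Nat.add (Nat.mul ew CW) (Nat.mul gw hw)))) (Nat.mul
    (Nat.add (ab fc) fw) (Nat.add (Nat.mul ew lw) (Nat.mul dw hw)))) (Nat.mul (ab ec) (Nat.add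
    (Nat.mul bw CW) (Nat.mul fw lw)))) (Nat.mul (ab dc) (Nat.add (Nat.mul AW CW) (Nat.mul fw
    hw)))) (Nat.mul (ab gc) (Nat.add (Nat.mul AW lw) (Nat.mul bw hw)))) (Nat.mul (ab hc) (Nat.add
    (Nat.mul bw gw) (Nat.mul fw dw)))) (Nat.mul (ab lc) (Nat.add (Nat.mul AW gw) (Nat.mul fw
    ew)))) (Nat.mul (ab C) (Nat.add (Nat.mul AW dw) (Nat.mul bw ew)))))) (Nat.add (Nat.mul dc C)
    (Nat.mul 0xffffffffffffffffffffffffffffffffffffffffffffffffffffffffffffffff (Nat.mul gc lc)))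
    (Nat.add (Nat.mul gc hc) (Nat.mul
    0xffffffffffffffffffffffffffffffffffffffffffffffffffffffffffffffff (Nat.mul ec C))) (Nat.add
    (Nat.mul ec lc) (Nat.mul 0xffffffffffffffffffffffffffffffffffffffffffffffffffffffffffffffff
    (Nat.mul dc hc))) (Nat.add (Nat.mul fc lc) (Nat.mul
    0xffffffffffffffffffffffffffffffffffffffffffffffffffffffffffffffff (Nat.mul bc C))) (Nat.add
    (Nat.mul A C) (Nat.mul 0xffffffffffffffffffffffffffffffffffffffffffffffffffffffffffffffff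
    (Nat.mul fc hc))) (Nat.add (Nat.mul bc hc) (Nat.mul
    0xffffffffffffffffffffffffffffffffffffffffffffffffffffffffffffffff (Nat.mul A lc))) (Nat.add
    (Nat.mul bc gc) (Nat.mul 0xffffffffffffffffffffffffffffffffffffffffffffffffffffffffffffffff
    (Nat.mul fc dc))) (Nat.add (Nat.mul fc ec) (Nat.mul
    0xffffffffffffffffffffffffffffffffffffffffffffffffffffffffffffffff (Nat.mul A gc))) (Nat.add
    (Nat.mul A dc) (Nat.mul 0xffffffffffffffffffffffffffffffffffffffffffffffffffffffffffffffff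
    (Nat.mul bc ec))) (Nat.mul 0xffffffffffffffffffffffffffffffffffffffffffffffffffffffffffffffff
    mu)) (Nat.add ac (Nat.mul nnu fc)) (Nat.add cc (Nat.mul nnu hc)) (Nat.add aw (Nat.mul nu fw))
    (Nat.add cw (Nat.mul nu hw))

noncomputable def fn1 (nu ac bc fc ec dc gc hc lc cc aw bw fw ew dw gw hw lw cw nnu mu Gv Gf hX
  lY cZ aX bY fZ eX dY gZ cs es bad A C AW CW : ℕ) : Bool :=
  (fun k0 k1 k2 k3 k4 k5 k6 k7 k8 nm => (fun C1 C2 C3 C4 => Nat.beq (Nat.add bad (Nat.sub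
    0x8000000000000000000000000000000000000000000000000000000000000000 (Nat.mod (Nat.add (Nat.add
    C1 C2) (Nat.add C3 C4))
    0x10000000000000000000000000000000000000000000000000000000000000000))) 0) (Nat.add (Nat.add
    Gv (Nat.mul 0x80000000 Gf)) (Nat.add (Nat.mul
    0xfffffffffffffffffffffffffffffffffffa0000000000000000000000000000 cs) es)) (Nat.add (Nat.mul
    mu 0x200000000000000000000000) (Nat.mul nm (Nat.add (Nat.add (Nat.mul A k0) (Nat.mul bc k1))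
    (Nat.mul fc k2)))) (Nat.add (Nat.add (Nat.add (Nat.add (Nat.add (Nat.add (Nat.add (Nat.add
    (Nat.mul (ab (Nat.add aX (Nat.mul nm k0))) aw) (Nat.mul (ab (Nat.add bY (Nat.mul nm k1)))
    bw)) (Nat.mul (ab (Nat.add fZ (Nat.mul nm (Nat.add k2 (Nat.mul nnu k0))))) fw)) (Nat.mul (ab
    (Nat.add eX (Nat.mul nm k3))) ew)) (Nat.mul (ab (Nat.add dY (Nat.mul nm k4))) dw)) (Nat.mul
    (ab (Nat.add gZ (Nat.mul nm k5))) gw)) (Nat.mul (ab (Nat.add hX (Nat.mul nm (Nat.add k6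
    (Nat.mul nnu k8))))) hw)) (Nat.mul (ab (Nat.add lY (Nat.mul nm k7))) lw)) (Nat.mul (ab
    (Nat.add cZ (Nat.mul nm k8))) cw)) (Nat.mul mu (Nat.add (Nat.add (Nat.add (Nat.add (Nat.add
    (Nat.add (Nat.add (Nat.add (Nat.mul (Nat.add (ab A) AW) (Nat.add (Nat.mul dw CW) (Nat.mul gw
    lw))) (Nat.mul (Nat.add (ab bc) bw) (Nat.add (Nat.mul ew CW) (Nat.mul gw hw)))) (Nat.mul
    (Nat.add (ab fc) fw) (Nat.add (Nat.mul ew lw) (Nat.mul dw hw)))) (Nat.mul (ab ec) (Nat.add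
    (Nat.mul bw CW) (Nat.mul fw lw)))) (Nat.mul (ab dc) (Nat.add (Nat.mul AW CW) (Nat.mul fw
    hw)))) (Nat.mul (ab gc) (Nat.add (Nat.mul AW lw) (Nat.mul bw hw)))) (Nat.mul (ab hc) (Nat.add
    (Nat.mul bw gw) (Nat.mul fw dw)))) (Nat.mul (ab lc) (Nat.add (Nat.mul AW gw) (Nat.mul fw
    ew)))) (Nat.mul (ab C) (Nat.add (Nat.mul AW dw) (Nat.mul bw ew)))))) (Nat.add (Nat.mul dc C)
    (Nat.mul 0xffffffffffffffffffffffffffffffffffffffffffffffffffffffffffffffff (Nat.mul gc lc)))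
    (Nat.add (Nat.mul gc hc) (Nat.mul
    0xffffffffffffffffffffffffffffffffffffffffffffffffffffffffffffffff (Nat.mul ec C))) (Nat.add
    (Nat.mul ec lc) (Nat.mul 0xffffffffffffffffffffffffffffffffffffffffffffffffffffffffffffffff
    (Nat.mul dc hc))) (Nat.add (Nat.mul fc lc) (Nat.mul
    0xffffffffffffffffffffffffffffffffffffffffffffffffffffffffffffffff (Nat.mul bc C))) (Nat.add
    (Nat.mul A C) (Nat.mul 0xffffffffffffffffffffffffffffffffffffffffffffffffffffffffffffffff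
    (Nat.mul fc hc))) (Nat.add (Nat.mul bc hc) (Nat.mul
    0xffffffffffffffffffffffffffffffffffffffffffffffffffffffffffffffff (Nat.mul A lc))) (Nat.add
    (Nat.mul bc gc) (Nat.mul 0xffffffffffffffffffffffffffffffffffffffffffffffffffffffffffffffff
    (Nat.mul fc dc))) (Nat.add (Nat.mul fc ec) (Nat.mul
    0xffffffffffffffffffffffffffffffffffffffffffffffffffffffffffffffff (Nat.mul A gc))) (Nat.add
    (Nat.mul A dc) (Nat.mul 0xffffffffffffffffffffffffffffffffffffffffffffffffffffffffffffffff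
    (Nat.mul bc ec))) (Nat.mul 0xffffffffffffffffffffffffffffffffffffffffffffffffffffffffffffffff
    mu)

noncomputable def fn2 (nu ac bc fc ec dc gc hc lc cc aw bw fw ew dw gw hw lw cw nnu mu Gv Gf hX
  lY cZ aX bY fZ eX dY gZ cs es bad A C AW CW k0 k1 k2 k3 k4 k5 k6 k7 k8 nm : ℕ) : Bool :=
  (fun C1 C2 C3 C4 => Nat.beq (Nat.add bad (Nat.sub
    0x8000000000000000000000000000000000000000000000000000000000000000 (Nat.mod (Nat.add (Nat.add
    C1 C2) (Nat.add C3 C4))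
    0x10000000000000000000000000000000000000000000000000000000000000000))) 0) (Nat.add (Nat.add
    Gv (Nat.mul 0x80000000 Gf)) (Nat.add (Nat.mul
    0xfffffffffffffffffffffffffffffffffffa0000000000000000000000000000 cs) es)) (Nat.add (Nat.mul
    mu 0x200000000000000000000000) (Nat.mul nm (Nat.add (Nat.add (Nat.mul A k0) (Nat.mul bc k1))
    (Nat.mul fc k2)))) (Nat.add (Nat.add (Nat.add (Nat.add (Nat.add (Nat.add (Nat.add (Nat.add
    (Nat.mul (ab (Nat.add aX (Nat.mul nm k0))) aw) (Nat.mul (ab (Nat.add bY (Nat.mul nm k1)))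
    bw)) (Nat.mul (ab (Nat.add fZ (Nat.mul nm (Nat.add k2 (Nat.mul nnu k0))))) fw)) (Nat.mul (ab
    (Nat.add eX (Nat.mul nm k3))) ew)) (Nat.mul (ab (Nat.add dY (Nat.mul nm k4))) dw)) (Nat.mul
    (ab (Nat.add gZ (Nat.mul nm k5))) gw)) (Nat.mul (ab (Nat.add hX (Nat.mul nm (Nat.add k6
    (Nat.mul nnu k8))))) hw)) (Nat.mul (ab (Nat.add lY (Nat.mul nm k7))) lw)) (Nat.mul (ab
    (Nat.add cZ (Nat.mul nm k8))) cw)) (Nat.mul mu (Nat.add (Nat.add (Nat.add (Nat.add (Nat.add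
    (Nat.add (Nat.add (Nat.add (Nat.mul (Nat.add (ab A) AW) (Nat.add (Nat.mul dw CW) (Nat.mul gw
    lw))) (Nat.mul (Nat.add (ab bc) bw) (Nat.add (Nat.mul ew CW) (Nat.mul gw hw)))) (Nat.mul
    (Nat.add (ab fc) fw) (Nat.add (Nat.mul ew lw) (Nat.mul dw hw)))) (Nat.mul (ab ec) (Nat.add
    (Nat.mul bw CW) (Nat.mul fw lw)))) (Nat.mul (ab dc) (Nat.add (Nat.mul AW CW) (Nat.mul fw
    hw)))) (Nat.mul (ab gc) (Nat.add (Nat.mul AW lw) (Nat.mul bw hw)))) (Nat.mul (ab hc) (Nat.add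
    (Nat.mul bw gw) (Nat.mul fw dw)))) (Nat.mul (ab lc) (Nat.add (Nat.mul AW gw) (Nat.mul fw
    ew)))) (Nat.mul (ab C) (Nat.add (Nat.mul AW dw) (Nat.mul bw ew)))))

noncomputable def fn3 (nu ac bc fc ec dc gc hc lc cc aw bw fw ew dw gw hw lw cw nnu mu Gv Gf hX
  lY cZ aX bY fZ eX dY gZ cs es bad A C AW CW k0 k1 k2 k3 k4 k5 k6 k7 k8 nm C1 C2 C3 C4 : ℕ) :
  Bool :=
  Nat.beq (Nat.add bad (Nat.sub
    0x8000000000000000000000000000000000000000000000000000000000000000 (Nat.mod (Nat.add (Nat.add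
    C1 C2) (Nat.add C3 C4))
    0x10000000000000000000000000000000000000000000000000000000000000000))) 0

theorem fn0_dec {nu ac bc fc ec dc gc hc lc cc aw bw fw ew dw gw hw lw cw nnu mu Gv Gf hX lY cZ
  aX bY fZ eX dY gZ cs es bad : ℕ}
    (hr : fn0 nu ac bc fc ec dc gc hc lc cc aw bw fw ew dw gw hw lw cw nnu mu Gv Gf hX lY cZ aX
      bY fZ eX dY gZ cs es bad = true) :
    ∃ A C AW CW : ℕ,
      A = Nat.add ac (Nat.mul nnu fc) ∧
      C = Nat.add cc (Nat.mul nnu hc) ∧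
      AW = Nat.add aw (Nat.mul nu fw) ∧
      CW = Nat.add cw (Nat.mul nu hw) ∧
      fn1 nu ac bc fc ec dc gc hc lc cc aw bw fw ew dw gw hw lw cw nnu mu Gv Gf hX lY cZ aX bY fZ
        eX dY gZ cs es bad A C AW CW = true :=
  ⟨_, _, _, _, rfl, rfl, rfl, rfl, hr⟩

theorem fn1_dec {nu ac bc fc ec dc gc hc lc cc aw bw fw ew dw gw hw lw cw nnu mu Gv Gf hX lY cZ
  aX bY fZ eX dY gZ cs es bad A C AW CW : ℕ}
    (hr : fn1 nu ac bc fc ec dc gc hc lc cc aw bw fw ew dw gw hw lw cw nnu mu Gv Gf hX lY cZ aX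
      bY fZ eX dY gZ cs es bad A C AW CW = true) :
    ∃ k0 k1 k2 k3 k4 k5 k6 k7 k8 nm : ℕ,
      k0 = Nat.add (Nat.mul dc C) (Nat.mul
        0xffffffffffffffffffffffffffffffffffffffffffffffffffffffffffffffff (Nat.mul gc lc)) ∧
      k1 = Nat.add (Nat.mul gc hc) (Nat.mul
        0xffffffffffffffffffffffffffffffffffffffffffffffffffffffffffffffff (Nat.mul ec C)) ∧
      k2 = Nat.add (Nat.mul ec lc) (Nat.mul
        0xffffffffffffffffffffffffffffffffffffffffffffffffffffffffffffffff (Nat.mul dc hc)) ∧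
      k3 = Nat.add (Nat.mul fc lc) (Nat.mul
        0xffffffffffffffffffffffffffffffffffffffffffffffffffffffffffffffff (Nat.mul bc C)) ∧
      k4 = Nat.add (Nat.mul A C) (Nat.mul
        0xffffffffffffffffffffffffffffffffffffffffffffffffffffffffffffffff (Nat.mul fc hc)) ∧
      k5 = Nat.add (Nat.mul bc hc) (Nat.mul
        0xffffffffffffffffffffffffffffffffffffffffffffffffffffffffffffffff (Nat.mul A lc)) ∧
      k6 = Nat.add (Nat.mul bc gc) (Nat.mul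
        0xffffffffffffffffffffffffffffffffffffffffffffffffffffffffffffffff (Nat.mul fc dc)) ∧
      k7 = Nat.add (Nat.mul fc ec) (Nat.mul
        0xffffffffffffffffffffffffffffffffffffffffffffffffffffffffffffffff (Nat.mul A gc)) ∧
      k8 = Nat.add (Nat.mul A dc) (Nat.mul
        0xffffffffffffffffffffffffffffffffffffffffffffffffffffffffffffffff (Nat.mul bc ec)) ∧
      nm = Nat.mul 0xffffffffffffffffffffffffffffffffffffffffffffffffffffffffffffffff mu ∧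
      fn2 nu ac bc fc ec dc gc hc lc cc aw bw fw ew dw gw hw lw cw nnu mu Gv Gf hX lY cZ aX bY fZ
        eX dY gZ cs es bad A C AW CW k0 k1 k2 k3 k4 k5 k6 k7 k8 nm = true :=
  ⟨_, _, _, _, _, _, _, _, _, _, rfl, rfl, rfl, rfl, rfl, rfl, rfl, rfl, rfl, rfl, hr⟩

theorem fn2_dec {nu ac bc fc ec dc gc hc lc cc aw bw fw ew dw gw hw lw cw nnu mu Gv Gf hX lY cZ
  aX bY fZ eX dY gZ cs es bad A C AW CW k0 k1 k2 k3 k4 k5 k6 k7 k8 nm : ℕ}
    (hr : fn2 nu ac bc fc ec dc gc hc lc cc aw bw fw ew dw gw hw lw cw nnu mu Gv Gf hX lY cZ aX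
      bY fZ eX dY gZ cs es bad A C AW CW k0 k1 k2 k3 k4 k5 k6 k7 k8 nm = true) :
    ∃ C1 C2 C3 C4 : ℕ,
      C1 = Nat.add (Nat.add Gv (Nat.mul 0x80000000 Gf)) (Nat.add (Nat.mul
        0xfffffffffffffffffffffffffffffffffffa0000000000000000000000000000 cs) es) ∧
      C2 = Nat.add (Nat.mul mu 0x200000000000000000000000) (Nat.mul nm (Nat.add (Nat.add (Nat.mul
        A k0) (Nat.mul bc k1)) (Nat.mul fc k2))) ∧
      C3 = Nat.add (Nat.add (Nat.add (Nat.add (Nat.add (Nat.add (Nat.add (Nat.add (Nat.mul (ab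
        (Nat.add aX (Nat.mul nm k0))) aw) (Nat.mul (ab (Nat.add bY (Nat.mul nm k1))) bw))
        (Nat.mul (ab (Nat.add fZ (Nat.mul nm (Nat.add k2 (Nat.mul nnu k0))))) fw)) (Nat.mul (ab
        (Nat.add eX (Nat.mul nm k3))) ew)) (Nat.mul (ab (Nat.add dY (Nat.mul nm k4))) dw))
        (Nat.mul (ab (Nat.add gZ (Nat.mul nm k5))) gw)) (Nat.mul (ab (Nat.add hX (Nat.mul nm
        (Nat.add k6 (Nat.mul nnu k8))))) hw)) (Nat.mul (ab (Nat.add lY (Nat.mul nm k7))) lw))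
        (Nat.mul (ab (Nat.add cZ (Nat.mul nm k8))) cw) ∧
      C4 = Nat.mul mu (Nat.add (Nat.add (Nat.add (Nat.add (Nat.add (Nat.add (Nat.add (Nat.add
        (Nat.mul (Nat.add (ab A) AW) (Nat.add (Nat.mul dw CW) (Nat.mul gw lw))) (Nat.mul (Nat.add
        (ab bc) bw) (Nat.add (Nat.mul ew CW) (Nat.mul gw hw)))) (Nat.mul (Nat.add (ab fc) fw)
        (Nat.add (Nat.mul ew lw) (Nat.mul dw hw)))) (Nat.mul (ab ec) (Nat.add (Nat.mul bw CW)
        (Nat.mul fw lw)))) (Nat.mul (ab dc) (Nat.add (Nat.mul AW CW) (Nat.mul fw hw)))) (Nat.mul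
        (ab gc) (Nat.add (Nat.mul AW lw) (Nat.mul bw hw)))) (Nat.mul (ab hc) (Nat.add (Nat.mul bw
        gw) (Nat.mul fw dw)))) (Nat.mul (ab lc) (Nat.add (Nat.mul AW gw) (Nat.mul fw ew))))
        (Nat.mul (ab C) (Nat.add (Nat.mul AW dw) (Nat.mul bw ew)))) ∧
      fn3 nu ac bc fc ec dc gc hc lc cc aw bw fw ew dw gw hw lw cw nnu mu Gv Gf hX lY cZ aX bY fZ
        eX dY gZ cs es bad A C AW CW k0 k1 k2 k3 k4 k5 k6 k7 k8 nm C1 C2 C3 C4 = true :=
  ⟨_, _, _, _, rfl, rfl, rfl, rfl, hr⟩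

/-- `TChk.fin`, decoded -/
theorem fin_dec {nu ac bc fc ec dc gc hc lc cc aw bw fw ew dw gw hw lw cw nnu mu Gv Gf hX lY cZ
  aX bY fZ eX dY gZ cs es bad : ℕ}
    (hr : TChk.fin nu ac bc fc ec dc gc hc lc cc aw bw fw ew dw gw hw lw cw nnu mu Gv Gf hX lY cZ
      aX bY fZ eX dY gZ cs es bad = true) :
    ∃ A C AW CW k0 k1 k2 k3 k4 k5 k6 k7 k8 nm C1 C2 C3 C4 : ℕ,
      A = Nat.add ac (Nat.mul nnu fc) ∧
      C = Nat.add cc (Nat.mul nnu hc) ∧
      AW = Nat.add aw (Nat.mul nu fw) ∧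
      CW = Nat.add cw (Nat.mul nu hw) ∧
      k0 = Nat.add (Nat.mul dc C) (Nat.mul
        0xffffffffffffffffffffffffffffffffffffffffffffffffffffffffffffffff (Nat.mul gc lc)) ∧
      k1 = Nat.add (Nat.mul gc hc) (Nat.mul
        0xffffffffffffffffffffffffffffffffffffffffffffffffffffffffffffffff (Nat.mul ec C)) ∧
      k2 = Nat.add (Nat.mul ec lc) (Nat.mul
        0xffffffffffffffffffffffffffffffffffffffffffffffffffffffffffffffff (Nat.mul dc hc)) ∧
      k3 = Nat.add (Nat.mul fc lc) (Nat.mul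
        0xffffffffffffffffffffffffffffffffffffffffffffffffffffffffffffffff (Nat.mul bc C)) ∧
      k4 = Nat.add (Nat.mul A C) (Nat.mul
        0xffffffffffffffffffffffffffffffffffffffffffffffffffffffffffffffff (Nat.mul fc hc)) ∧
      k5 = Nat.add (Nat.mul bc hc) (Nat.mul
        0xffffffffffffffffffffffffffffffffffffffffffffffffffffffffffffffff (Nat.mul A lc)) ∧
      k6 = Nat.add (Nat.mul bc gc) (Nat.mul
        0xffffffffffffffffffffffffffffffffffffffffffffffffffffffffffffffff (Nat.mul fc dc)) ∧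
      k7 = Nat.add (Nat.mul fc ec) (Nat.mul
        0xffffffffffffffffffffffffffffffffffffffffffffffffffffffffffffffff (Nat.mul A gc)) ∧
      k8 = Nat.add (Nat.mul A dc) (Nat.mul
        0xffffffffffffffffffffffffffffffffffffffffffffffffffffffffffffffff (Nat.mul bc ec)) ∧
      nm = Nat.mul 0xffffffffffffffffffffffffffffffffffffffffffffffffffffffffffffffff mu ∧
      C1 = Nat.add (Nat.add Gv (Nat.mul 0x80000000 Gf)) (Nat.add (Nat.mul
        0xfffffffffffffffffffffffffffffffffffa0000000000000000000000000000 cs) es) ∧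
      C2 = Nat.add (Nat.mul mu 0x200000000000000000000000) (Nat.mul nm (Nat.add (Nat.add (Nat.mul
        A k0) (Nat.mul bc k1)) (Nat.mul fc k2))) ∧
      C3 = Nat.add (Nat.add (Nat.add (Nat.add (Nat.add (Nat.add (Nat.add (Nat.add (Nat.mul (ab
        (Nat.add aX (Nat.mul nm k0))) aw) (Nat.mul (ab (Nat.add bY (Nat.mul nm k1))) bw))
        (Nat.mul (ab (Nat.add fZ (Nat.mul nm (Nat.add k2 (Nat.mul nnu k0))))) fw)) (Nat.mul (ab
        (Nat.add eX (Nat.mul nm k3))) ew)) (Nat.mul (ab (Nat.add dY (Nat.mul nm k4))) dw))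
        (Nat.mul (ab (Nat.add gZ (Nat.mul nm k5))) gw)) (Nat.mul (ab (Nat.add hX (Nat.mul nm
        (Nat.add k6 (Nat.mul nnu k8))))) hw)) (Nat.mul (ab (Nat.add lY (Nat.mul nm k7))) lw))
        (Nat.mul (ab (Nat.add cZ (Nat.mul nm k8))) cw) ∧
      C4 = Nat.mul mu (Nat.add (Nat.add (Nat.add (Nat.add (Nat.add (Nat.add (Nat.add (Nat.add
        (Nat.mul (Nat.add (ab A) AW) (Nat.add (Nat.mul dw CW) (Nat.mul gw lw))) (Nat.mul (Nat.add
        (ab bc) bw) (Nat.add (Nat.mul ew CW) (Nat.mul gw hw)))) (Nat.mul (Nat.add (ab fc) fw)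
        (Nat.add (Nat.mul ew lw) (Nat.mul dw hw)))) (Nat.mul (ab ec) (Nat.add (Nat.mul bw CW)
        (Nat.mul fw lw)))) (Nat.mul (ab dc) (Nat.add (Nat.mul AW CW) (Nat.mul fw hw)))) (Nat.mul
        (ab gc) (Nat.add (Nat.mul AW lw) (Nat.mul bw hw)))) (Nat.mul (ab hc) (Nat.add (Nat.mul bw
        gw) (Nat.mul fw dw)))) (Nat.mul (ab lc) (Nat.add (Nat.mul AW gw) (Nat.mul fw ew))))
        (Nat.mul (ab C) (Nat.add (Nat.mul AW dw) (Nat.mul bw ew)))) ∧
      Nat.add bad (Nat.sub 0x8000000000000000000000000000000000000000000000000000000000000000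
        (Nat.mod (Nat.add (Nat.add C1 C2) (Nat.add C3 C4))
        0x10000000000000000000000000000000000000000000000000000000000000000)) = 0 := by
  have h0 : fn0 nu ac bc fc ec dc gc hc lc cc aw bw fw ew dw gw hw lw cw nnu mu Gv Gf hX lY cZ aX bY fZ eX dY gZ cs es bad = true := hr
  obtain ⟨A, C, AW, CW, q_A, q_C, q_AW, q_CW, h1⟩ := fn0_dec h0
  obtain ⟨k0, k1, k2, k3, k4, k5, k6, k7, k8, nm, q_k0, q_k1, q_k2, q_k3, q_k4, q_k5, q_k6, q_k7, q_k8, q_nm, h2⟩ := fn1_dec h1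
  obtain ⟨C1, C2, C3, C4, q_C1, q_C2, q_C3, q_C4, h3⟩ := fn2_dec h2
  exact ⟨A, C, AW, CW, k0, k1, k2, k3, k4, k5, k6, k7, k8, nm, C1, C2, C3, C4,
    q_A, q_C, q_AW, q_CW, q_k0, q_k1, q_k2, q_k3, q_k4, q_k5, q_k6, q_k7, q_k8, q_nm, q_C1, q_C2, q_C3, q_C4, Nat.eq_of_beq_eq_true h3⟩
noncomputable def ls0 (y ac bc fc ec dc gc hc lc cc aw bw fw ew dw gw hw lw cw nnu : ℕ) : Bool :=
  (fun k0 m0 n0 => (fun k m n mn => (fun X Y Z er => (fun X1 Zf ax ay az => (fun M3 M1 M2 =>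
    Nat.beq (Nat.add (Nat.sub 1 (Nat.add (Nat.add (Nat.sub k0 0x10000) (Nat.sub 0x10000 k0)) mn))
    (Nat.add (Nat.sub (Nat.mul M3 (Nat.mul M1 M1))
    0x7fffffffffffffffffffffffffffffffffffffffffffffffffffffffffffffffffffff) (Nat.sub (Nat.mul
    M3 (Nat.mul M2 M2))
    0x7fffffffffffffffffffffffffffffffffffffffffffffffffffffffffffffffffffff))) 0) (Nat.add (ab
    (Nat.add (Nat.add (Nat.mul hc X1) (Nat.mul lc Y)) (Nat.mul cc Z))) (Nat.add (Nat.add (Nat.mul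
    hw (ab X1)) (Nat.mul lw ay)) (Nat.add (Nat.mul cw az) er))) (Nat.add (ab (Nat.add (Nat.add
    (Nat.mul ac X) (Nat.mul bc Y)) (Nat.mul fc Zf))) (Nat.add (Nat.add (Nat.mul aw ax) (Nat.mul
    bw ay)) (Nat.add (Nat.mul fw (ab Zf)) er))) (Nat.add (ab (Nat.add (Nat.add (Nat.mul ec X)
    (Nat.mul dc Y)) (Nat.mul gc Z))) (Nat.add (Nat.add (Nat.mul ew ax) (Nat.mul dw ay)) (Nat.add
    (Nat.mul gw az) er)))) (Nat.add X (Nat.mul nnu Z)) (Nat.add Z (Nat.mul nnu X)) (ab X) (ab Y)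
    (ab Z)) (Nat.add (Nat.add (Nat.mul k 0x4000000000000000) (Nat.mul m
    0xffffffffffffffffffffffffffffffffffffffffffffffffee3dc8718122c135)) (Nat.mul n
    0xffffffffffffffffffffffffffffffffffffffffffffffff665686ac69471e5b)) (Nat.add (Nat.mul m
    0x6190bb18ae94847e) (Nat.mul n 0x36250a3698fe640e)) (Nat.add (Nat.add (Nat.mul k
    0x4000000000000000) (Nat.mul m
    0xffffffffffffffffffffffffffffffffffffffffffffffffe3846f1cfdba7d97)) (Nat.mul n
    0xfffffffffffffffffffffffffffffffffffffffffffffffff352f2a72d71c34a)) (Nat.mul 0x800000000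
    mn)) (Nat.add k0 0xffffffffffffffffffffffffffffffffffffffffffffffffffffffffffff0000) (Nat.add
    m0 0xffffffffffffffffffffffffffffffffffffffffffffffffffffffffffff0000) (Nat.add n0
    0xffffffffffffffffffffffffffffffffffffffffffffffffffffffffffff0000) (Nat.add (Nat.add
    (Nat.sub m0 0x10000) (Nat.sub 0x10000 m0)) (Nat.add (Nat.sub n0 0x10000) (Nat.sub 0x10000
    n0)))) (Nat.mod y 0x20000) (Nat.mod (Nat.shiftRight y 0x11) 0x20000) (Nat.mod (Nat.shiftRight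
    y 0x22) 0x20000)

noncomputable def ls1 (y ac bc fc ec dc gc hc lc cc aw bw fw ew dw gw hw lw cw nnu k0 m0 n0 : ℕ)
  : Bool :=
  (fun k m n mn => (fun X Y Z er => (fun X1 Zf ax ay az => (fun M3 M1 M2 => Nat.beq (Nat.add
    (Nat.sub 1 (Nat.add (Nat.add (Nat.sub k0 0x10000) (Nat.sub 0x10000 k0)) mn)) (Nat.add
    (Nat.sub (Nat.mul M3 (Nat.mul M1 M1))
    0x7fffffffffffffffffffffffffffffffffffffffffffffffffffffffffffffffffffff) (Nat.sub (Nat.mul
    M3 (Nat.mul M2 M2))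
    0x7fffffffffffffffffffffffffffffffffffffffffffffffffffffffffffffffffffff))) 0) (Nat.add (ab
    (Nat.add (Nat.add (Nat.mul hc X1) (Nat.mul lc Y)) (Nat.mul cc Z))) (Nat.add (Nat.add (Nat.mul
    hw (ab X1)) (Nat.mul lw ay)) (Nat.add (Nat.mul cw az) er))) (Nat.add (ab (Nat.add (Nat.add
    (Nat.mul ac X) (Nat.mul bc Y)) (Nat.mul fc Zf))) (Nat.add (Nat.add (Nat.mul aw ax) (Nat.mul
    bw ay)) (Nat.add (Nat.mul fw (ab Zf)) er))) (Nat.add (ab (Nat.add (Nat.add (Nat.mul ec X)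
    (Nat.mul dc Y)) (Nat.mul gc Z))) (Nat.add (Nat.add (Nat.mul ew ax) (Nat.mul dw ay)) (Nat.add
    (Nat.mul gw az) er)))) (Nat.add X (Nat.mul nnu Z)) (Nat.add Z (Nat.mul nnu X)) (ab X) (ab Y)
    (ab Z)) (Nat.add (Nat.add (Nat.mul k 0x4000000000000000) (Nat.mul m
    0xffffffffffffffffffffffffffffffffffffffffffffffffee3dc8718122c135)) (Nat.mul n
    0xffffffffffffffffffffffffffffffffffffffffffffffff665686ac69471e5b)) (Nat.add (Nat.mul m
    0x6190bb18ae94847e) (Nat.mul n 0x36250a3698fe640e)) (Nat.add (Nat.add (Nat.mul k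
    0x4000000000000000) (Nat.mul m
    0xffffffffffffffffffffffffffffffffffffffffffffffffe3846f1cfdba7d97)) (Nat.mul n
    0xfffffffffffffffffffffffffffffffffffffffffffffffff352f2a72d71c34a)) (Nat.mul 0x800000000
    mn)) (Nat.add k0 0xffffffffffffffffffffffffffffffffffffffffffffffffffffffffffff0000) (Nat.add
    m0 0xffffffffffffffffffffffffffffffffffffffffffffffffffffffffffff0000) (Nat.add n0
    0xffffffffffffffffffffffffffffffffffffffffffffffffffffffffffff0000) (Nat.add (Nat.add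
    (Nat.sub m0 0x10000) (Nat.sub 0x10000 m0)) (Nat.add (Nat.sub n0 0x10000) (Nat.sub 0x10000
    n0)))

noncomputable def ls2 (y ac bc fc ec dc gc hc lc cc aw bw fw ew dw gw hw lw cw nnu k0 m0 n0 k m n
  mn : ℕ) : Bool :=
  (fun X Y Z er => (fun X1 Zf ax ay az => (fun M3 M1 M2 => Nat.beq (Nat.add (Nat.sub 1 (Nat.add
    (Nat.add (Nat.sub k0 0x10000) (Nat.sub 0x10000 k0)) mn)) (Nat.add (Nat.sub (Nat.mul M3
    (Nat.mul M1 M1)) 0x7fffffffffffffffffffffffffffffffffffffffffffffffffffffffffffffffffffff)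
    (Nat.sub (Nat.mul M3 (Nat.mul M2 M2))
    0x7fffffffffffffffffffffffffffffffffffffffffffffffffffffffffffffffffffff))) 0) (Nat.add (ab
    (Nat.add (Nat.add (Nat.mul hc X1) (Nat.mul lc Y)) (Nat.mul cc Z))) (Nat.add (Nat.add (Nat.mul
    hw (ab X1)) (Nat.mul lw ay)) (Nat.add (Nat.mul cw az) er))) (Nat.add (ab (Nat.add (Nat.add
    (Nat.mul ac X) (Nat.mul bc Y)) (Nat.mul fc Zf))) (Nat.add (Nat.add (Nat.mul aw ax) (Nat.mul
    bw ay)) (Nat.add (Nat.mul fw (ab Zf)) er))) (Nat.add (ab (Nat.add (Nat.add (Nat.mul ec X)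
    (Nat.mul dc Y)) (Nat.mul gc Z))) (Nat.add (Nat.add (Nat.mul ew ax) (Nat.mul dw ay)) (Nat.add
    (Nat.mul gw az) er)))) (Nat.add X (Nat.mul nnu Z)) (Nat.add Z (Nat.mul nnu X)) (ab X) (ab Y)
    (ab Z)) (Nat.add (Nat.add (Nat.mul k 0x4000000000000000) (Nat.mul m
    0xffffffffffffffffffffffffffffffffffffffffffffffffee3dc8718122c135)) (Nat.mul n
    0xffffffffffffffffffffffffffffffffffffffffffffffff665686ac69471e5b)) (Nat.add (Nat.mul m
    0x6190bb18ae94847e) (Nat.mul n 0x36250a3698fe640e)) (Nat.add (Nat.add (Nat.mul k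
    0x4000000000000000) (Nat.mul m
    0xffffffffffffffffffffffffffffffffffffffffffffffffe3846f1cfdba7d97)) (Nat.mul n
    0xfffffffffffffffffffffffffffffffffffffffffffffffff352f2a72d71c34a)) (Nat.mul 0x800000000 mn)

noncomputable def ls3 (y ac bc fc ec dc gc hc lc cc aw bw fw ew dw gw hw lw cw nnu k0 m0 n0 k m n
  mn X Y Z er : ℕ) : Bool :=
  (fun X1 Zf ax ay az => (fun M3 M1 M2 => Nat.beq (Nat.add (Nat.sub 1 (Nat.add (Nat.add (Nat.sub
    k0 0x10000) (Nat.sub 0x10000 k0)) mn)) (Nat.add (Nat.sub (Nat.mul M3 (Nat.mul M1 M1))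
    0x7fffffffffffffffffffffffffffffffffffffffffffffffffffffffffffffffffffff) (Nat.sub (Nat.mul
    M3 (Nat.mul M2 M2))
    0x7fffffffffffffffffffffffffffffffffffffffffffffffffffffffffffffffffffff))) 0) (Nat.add (ab
    (Nat.add (Nat.add (Nat.mul hc X1) (Nat.mul lc Y)) (Nat.mul cc Z))) (Nat.add (Nat.add (Nat.mul
    hw (ab X1)) (Nat.mul lw ay)) (Nat.add (Nat.mul cw az) er))) (Nat.add (ab (Nat.add (Nat.add
    (Nat.mul ac X) (Nat.mul bc Y)) (Nat.mul fc Zf))) (Nat.add (Nat.add (Nat.mul aw ax) (Nat.mul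
    bw ay)) (Nat.add (Nat.mul fw (ab Zf)) er))) (Nat.add (ab (Nat.add (Nat.add (Nat.mul ec X)
    (Nat.mul dc Y)) (Nat.mul gc Z))) (Nat.add (Nat.add (Nat.mul ew ax) (Nat.mul dw ay)) (Nat.add
    (Nat.mul gw az) er)))) (Nat.add X (Nat.mul nnu Z)) (Nat.add Z (Nat.mul nnu X)) (ab X) (ab Y)
    (ab Z)

noncomputable def ls4 (y ac bc fc ec dc gc hc lc cc aw bw fw ew dw gw hw lw cw nnu k0 m0 n0 k m n
  mn X Y Z er X1 Zf ax ay az : ℕ) : Bool :=
  (fun M3 M1 M2 => Nat.beq (Nat.add (Nat.sub 1 (Nat.add (Nat.add (Nat.sub k0 0x10000) (Nat.sub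
    0x10000 k0)) mn)) (Nat.add (Nat.sub (Nat.mul M3 (Nat.mul M1 M1))
    0x7fffffffffffffffffffffffffffffffffffffffffffffffffffffffffffffffffffff) (Nat.sub (Nat.mul
    M3 (Nat.mul M2 M2))
    0x7fffffffffffffffffffffffffffffffffffffffffffffffffffffffffffffffffffff))) 0) (Nat.add (ab
    (Nat.add (Nat.add (Nat.mul hc X1) (Nat.mul lc Y)) (Nat.mul cc Z))) (Nat.add (Nat.add (Nat.mul
    hw (ab X1)) (Nat.mul lw ay)) (Nat.add (Nat.mul cw az) er))) (Nat.add (ab (Nat.add (Nat.add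
    (Nat.mul ac X) (Nat.mul bc Y)) (Nat.mul fc Zf))) (Nat.add (Nat.add (Nat.mul aw ax) (Nat.mul
    bw ay)) (Nat.add (Nat.mul fw (ab Zf)) er))) (Nat.add (ab (Nat.add (Nat.add (Nat.mul ec X)
    (Nat.mul dc Y)) (Nat.mul gc Z))) (Nat.add (Nat.add (Nat.mul ew ax) (Nat.mul dw ay)) (Nat.add
    (Nat.mul gw az) er)))

noncomputable def ls5 (y ac bc fc ec dc gc hc lc cc aw bw fw ew dw gw hw lw cw nnu k0 m0 n0 k m n
  mn X Y Z er X1 Zf ax ay az M3 M1 M2 : ℕ) : Bool :=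
  Nat.beq (Nat.add (Nat.sub 1 (Nat.add (Nat.add (Nat.sub k0 0x10000) (Nat.sub 0x10000 k0)) mn))
    (Nat.add (Nat.sub (Nat.mul M3 (Nat.mul M1 M1))
    0x7fffffffffffffffffffffffffffffffffffffffffffffffffffffffffffffffffffff) (Nat.sub (Nat.mul
    M3 (Nat.mul M2 M2))
    0x7fffffffffffffffffffffffffffffffffffffffffffffffffffffffffffffffffffff))) 0

theorem ls0_dec {y ac bc fc ec dc gc hc lc cc aw bw fw ew dw gw hw lw cw nnu : ℕ}
    (hr : ls0 y ac bc fc ec dc gc hc lc cc aw bw fw ew dw gw hw lw cw nnu = true) :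
    ∃ k0 m0 n0 : ℕ,
      k0 = Nat.mod y 0x20000 ∧
      m0 = Nat.mod (Nat.shiftRight y 0x11) 0x20000 ∧
      n0 = Nat.mod (Nat.shiftRight y 0x22) 0x20000 ∧
      ls1 y ac bc fc ec dc gc hc lc cc aw bw fw ew dw gw hw lw cw nnu k0 m0 n0 = true :=
  ⟨_, _, _, rfl, rfl, rfl, hr⟩

theorem ls1_dec {y ac bc fc ec dc gc hc lc cc aw bw fw ew dw gw hw lw cw nnu k0 m0 n0 : ℕ}
    (hr : ls1 y ac bc fc ec dc gc hc lc cc aw bw fw ew dw gw hw lw cw nnu k0 m0 n0 = true) :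
    ∃ k m n mn : ℕ,
      k = Nat.add k0 0xffffffffffffffffffffffffffffffffffffffffffffffffffffffffffff0000 ∧
      m = Nat.add m0 0xffffffffffffffffffffffffffffffffffffffffffffffffffffffffffff0000 ∧
      n = Nat.add n0 0xffffffffffffffffffffffffffffffffffffffffffffffffffffffffffff0000 ∧
      mn = Nat.add (Nat.add (Nat.sub m0 0x10000) (Nat.sub 0x10000 m0)) (Nat.add (Nat.sub n0
        0x10000) (Nat.sub 0x10000 n0)) ∧
      ls2 y ac bc fc ec dc gc hc lc cc aw bw fw ew dw gw hw lw cw nnu k0 m0 n0 k m n mn = true :=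
  ⟨_, _, _, _, rfl, rfl, rfl, rfl, hr⟩

theorem ls2_dec {y ac bc fc ec dc gc hc lc cc aw bw fw ew dw gw hw lw cw nnu k0 m0 n0 k m n mn :
  ℕ}
    (hr : ls2 y ac bc fc ec dc gc hc lc cc aw bw fw ew dw gw hw lw cw nnu k0 m0 n0 k m n mn =
      true) :
    ∃ X Y Z er : ℕ,
      X = Nat.add (Nat.add (Nat.mul k 0x4000000000000000) (Nat.mul m
        0xffffffffffffffffffffffffffffffffffffffffffffffffee3dc8718122c135)) (Nat.mul n
        0xffffffffffffffffffffffffffffffffffffffffffffffff665686ac69471e5b) ∧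
      Y = Nat.add (Nat.mul m 0x6190bb18ae94847e) (Nat.mul n 0x36250a3698fe640e) ∧
      Z = Nat.add (Nat.add (Nat.mul k 0x4000000000000000) (Nat.mul m
        0xffffffffffffffffffffffffffffffffffffffffffffffffe3846f1cfdba7d97)) (Nat.mul n
        0xfffffffffffffffffffffffffffffffffffffffffffffffff352f2a72d71c34a) ∧
      er = Nat.mul 0x800000000 mn ∧
      ls3 y ac bc fc ec dc gc hc lc cc aw bw fw ew dw gw hw lw cw nnu k0 m0 n0 k m n mn X Y Z er
        = true :=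
  ⟨_, _, _, _, rfl, rfl, rfl, rfl, hr⟩

theorem ls3_dec {y ac bc fc ec dc gc hc lc cc aw bw fw ew dw gw hw lw cw nnu k0 m0 n0 k m n mn X
  Y Z er : ℕ}
    (hr : ls3 y ac bc fc ec dc gc hc lc cc aw bw fw ew dw gw hw lw cw nnu k0 m0 n0 k m n mn X Y Z
      er = true) :
    ∃ X1 Zf ax ay az : ℕ,
      X1 = Nat.add X (Nat.mul nnu Z) ∧
      Zf = Nat.add Z (Nat.mul nnu X) ∧
      ax = ab X ∧
      ay = ab Y ∧
      az = ab Z ∧
      ls4 y ac bc fc ec dc gc hc lc cc aw bw fw ew dw gw hw lw cw nnu k0 m0 n0 k m n mn X Y Z er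
        X1 Zf ax ay az = true :=
  ⟨_, _, _, _, _, rfl, rfl, rfl, rfl, rfl, hr⟩

theorem ls4_dec {y ac bc fc ec dc gc hc lc cc aw bw fw ew dw gw hw lw cw nnu k0 m0 n0 k m n mn X
  Y Z er X1 Zf ax ay az : ℕ}
    (hr : ls4 y ac bc fc ec dc gc hc lc cc aw bw fw ew dw gw hw lw cw nnu k0 m0 n0 k m n mn X Y Z
      er X1 Zf ax ay az = true) :
    ∃ M3 M1 M2 : ℕ,
      M3 = Nat.add (ab (Nat.add (Nat.add (Nat.mul hc X1) (Nat.mul lc Y)) (Nat.mul cc Z)))
        (Nat.add (Nat.add (Nat.mul hw (ab X1)) (Nat.mul lw ay)) (Nat.add (Nat.mul cw az) er)) ∧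
      M1 = Nat.add (ab (Nat.add (Nat.add (Nat.mul ac X) (Nat.mul bc Y)) (Nat.mul fc Zf)))
        (Nat.add (Nat.add (Nat.mul aw ax) (Nat.mul bw ay)) (Nat.add (Nat.mul fw (ab Zf)) er)) ∧
      M2 = Nat.add (ab (Nat.add (Nat.add (Nat.mul ec X) (Nat.mul dc Y)) (Nat.mul gc Z))) (Nat.add
        (Nat.add (Nat.mul ew ax) (Nat.mul dw ay)) (Nat.add (Nat.mul gw az) er)) ∧
      ls5 y ac bc fc ec dc gc hc lc cc aw bw fw ew dw gw hw lw cw nnu k0 m0 n0 k m n mn X Y Z er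
        X1 Zf ax ay az M3 M1 M2 = true :=
  ⟨_, _, _, rfl, rfl, rfl, hr⟩

/-- `TChk.leafS`, decoded -/
theorem leafS_dec {y ac bc fc ec dc gc hc lc cc aw bw fw ew dw gw hw lw cw nnu : ℕ}
    (hr : TChk.leafS y ac bc fc ec dc gc hc lc cc aw bw fw ew dw gw hw lw cw nnu = true) :
    ∃ k0 m0 n0 k m n mn X Y Z er X1 Zf ax ay az M3 M1 M2 : ℕ,
      k0 = Nat.mod y 0x20000 ∧
      m0 = Nat.mod (Nat.shiftRight y 0x11) 0x20000 ∧
      n0 = Nat.mod (Nat.shiftRight y 0x22) 0x20000 ∧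
      k = Nat.add k0 0xffffffffffffffffffffffffffffffffffffffffffffffffffffffffffff0000 ∧
      m = Nat.add m0 0xffffffffffffffffffffffffffffffffffffffffffffffffffffffffffff0000 ∧
      n = Nat.add n0 0xffffffffffffffffffffffffffffffffffffffffffffffffffffffffffff0000 ∧
      mn = Nat.add (Nat.add (Nat.sub m0 0x10000) (Nat.sub 0x10000 m0)) (Nat.add (Nat.sub n0
        0x10000) (Nat.sub 0x10000 n0)) ∧
      X = Nat.add (Nat.add (Nat.mul k 0x4000000000000000) (Nat.mul m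
        0xffffffffffffffffffffffffffffffffffffffffffffffffee3dc8718122c135)) (Nat.mul n
        0xffffffffffffffffffffffffffffffffffffffffffffffff665686ac69471e5b) ∧
      Y = Nat.add (Nat.mul m 0x6190bb18ae94847e) (Nat.mul n 0x36250a3698fe640e) ∧
      Z = Nat.add (Nat.add (Nat.mul k 0x4000000000000000) (Nat.mul m
        0xffffffffffffffffffffffffffffffffffffffffffffffffe3846f1cfdba7d97)) (Nat.mul n
        0xfffffffffffffffffffffffffffffffffffffffffffffffff352f2a72d71c34a) ∧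
      er = Nat.mul 0x800000000 mn ∧
      X1 = Nat.add X (Nat.mul nnu Z) ∧
      Zf = Nat.add Z (Nat.mul nnu X) ∧
      ax = ab X ∧
      ay = ab Y ∧
      az = ab Z ∧
      M3 = Nat.add (ab (Nat.add (Nat.add (Nat.mul hc X1) (Nat.mul lc Y)) (Nat.mul cc Z)))
        (Nat.add (Nat.add (Nat.mul hw (ab X1)) (Nat.mul lw ay)) (Nat.add (Nat.mul cw az) er)) ∧
      M1 = Nat.add (ab (Nat.add (Nat.add (Nat.mul ac X) (Nat.mul bc Y)) (Nat.mul fc Zf)))
        (Nat.add (Nat.add (Nat.mul aw ax) (Nat.mul bw ay)) (Nat.add (Nat.mul fw (ab Zf)) er)) ∧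
      M2 = Nat.add (ab (Nat.add (Nat.add (Nat.mul ec X) (Nat.mul dc Y)) (Nat.mul gc Z))) (Nat.add
        (Nat.add (Nat.mul ew ax) (Nat.mul dw ay)) (Nat.add (Nat.mul gw az) er)) ∧
      Nat.add (Nat.sub 1 (Nat.add (Nat.add (Nat.sub k0 0x10000) (Nat.sub 0x10000 k0)) mn))
        (Nat.add (Nat.sub (Nat.mul M3 (Nat.mul M1 M1))
        0x7fffffffffffffffffffffffffffffffffffffffffffffffffffffffffffffffffffff) (Nat.sub
        (Nat.mul M3 (Nat.mul M2 M2))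
        0x7fffffffffffffffffffffffffffffffffffffffffffffffffffffffffffffffffffff)) = 0 := by
  have h0 : ls0 y ac bc fc ec dc gc hc lc cc aw bw fw ew dw gw hw lw cw nnu = true := hr
  obtain ⟨k0, m0, n0, q_k0, q_m0, q_n0, h1⟩ := ls0_dec h0
  obtain ⟨k, m, n, mn, q_k, q_m, q_n, q_mn, h2⟩ := ls1_dec h1
  obtain ⟨X, Y, Z, er, q_X, q_Y, q_Z, q_er, h3⟩ := ls2_dec h2
  obtain ⟨X1, Zf, ax, ay, az, q_X1, q_Zf, q_ax, q_ay, q_az, h4⟩ := ls3_dec h3
  obtain ⟨M3, M1, M2, q_M3, q_M1, q_M2, h5⟩ := ls4_dec h4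
  exact ⟨k0, m0, n0, k, m, n, mn, X, Y, Z, er, X1, Zf, ax, ay, az, M3, M1, M2,
    q_k0, q_m0, q_n0, q_k, q_m, q_n, q_mn, q_X, q_Y, q_Z, q_er, q_X1, q_Zf, q_ax, q_ay, q_az, q_M3, q_M1, q_M2, Nat.eq_of_beq_eq_true h5⟩

end TSound
end Pool.Agent.Lib.MP_be9f18_nt
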