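import Pool.Agent.Lib.MP_be9f18_nt.TInv
import Pool.Agent.Lib.MP_be9f18_nt.TFin0

/-!
The final test of an `L` leaf of the second kernel checker (problem MP_be9f18_nt).
-/

set_option autoImplicit false

namespace Pool.Agent.Lib.MP_be9f18_nt
namespace TSound

/-- size of an integer in bits -/
def Bd (x : ℤ) (n : ℕ) : Prop := |x| ≤ 2 ^ n

theorem Bd.mono {x : ℤ} {n m : ℕ} (h : Bd x n) (hm : n ≤ m) : Bd x m :=
  h.trans (pow_le_pow_right₀ (by norm_num) hm)

theorem Bd.add {x y : ℤ} {n m k : ℕ} (hx : Bd x n) (hy : Bd y m) (h1 : n < k) (h2 : m < k) :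
    Bd (x + y) k := by
  obtain ⟨j, rfl⟩ : ∃ j, k = j + 1 := ⟨k - 1, by omega⟩
  have a := hx.mono (Nat.lt_succ_iff.1 h1)
  have b := hy.mono (Nat.lt_succ_iff.1 h2)
  unfold Bd at *
  refine (abs_add_le _ _).trans ?_
  rw [pow_succ]
  linarith

theorem Bd.neg {x : ℤ} {n : ℕ} (hx : Bd x n) : Bd (-x) n := by
  unfold Bd; rw [abs_neg]; exact hx

theorem Bd.sub {x y : ℤ} {n m k : ℕ} (hx : Bd x n) (hy : Bd y m) (h1 : n < k) (h2 : m < k) :
    Bd (x - y) k := by
  rw [sub_eq_add_neg]; exact hx.add hy.neg h1 h2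

theorem Bd.mul {x y : ℤ} {n m k : ℕ} (hx : Bd x n) (hy : Bd y m) (h : n + m ≤ k) :
    Bd (x * y) k := by
  have : |x * y| ≤ 2 ^ (n + m) := by
    rw [abs_mul, pow_add]
    exact mul_le_mul hx hy (abs_nonneg _) (by positivity)
  exact Bd.mono this h

theorem Bd.abs {x : ℤ} {n : ℕ} (hx : Bd x n) : Bd |x| n := by
  unfold Bd; rw [abs_abs]; exact hx

theorem Bd.lt {x : ℤ} {n : ℕ} (hx : Bd x n) (h : n < 255) : |x| < 2 ^ 255 :=
  lt_of_le_of_lt hx (pow_lt_pow_right₀ (by norm_num) h)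

theorem Ent.bv {t : ℝ} {x w : ℕ} {v : ℤ} (h : Ent t x w v) : Bd v 33 := by
  have h1 := h.bnd
  have h2 : (0 : ℤ) ≤ w := Int.natCast_nonneg _
  unfold Bd
  have : (3 : ℤ) * 2 ^ 31 ≤ 2 ^ 33 := by norm_num
  linarith

theorem Ent.bw {t : ℝ} {x w : ℕ} {v : ℤ} (h : Ent t x w v) : Bd (w : ℤ) 33 := by
  have h1 := h.bnd
  have h2 : (0 : ℤ) ≤ w := Int.natCast_nonneg _
  have h3 := abs_nonneg v
  unfold Bd
  rw [abs_of_nonneg h2]
  have : (3 : ℤ) * 2 ^ 31 ≤ 2 ^ 33 := by norm_num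
  linarith

theorem Ent.b3 {t : ℝ} {x w : ℕ} {v : ℤ} (h : Ent t x w v) {r : ℝ} (hr : 0 ≤ r) :
    r * (|(v : ℝ)| + w) ≤ r * (3 * 2 ^ 31) := by
  have h1 : |(v : ℝ)| + (w : ℝ) ≤ 3 * 2 ^ 31 := by exact_mod_cast h.bnd
  exact mul_le_mul_of_nonneg_left h1 hr

theorem rep_negone : Rep 0xffffffffffffffffffffffffffffffffffffffffffffffffffffffffffffffff (-1) :=
  rep_of (by norm_num)

theorem rep_det {x y z w : ℕ} {X Y Z W : ℤ} (hx : Rep x X) (hy : Rep y Y) (hz : Rep z Z)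
    (hw : Rep w W) :
    Rep (Nat.add (Nat.mul x y) (Nat.mul
      0xffffffffffffffffffffffffffffffffffffffffffffffffffffffffffffffff (Nat.mul z w)))
      (X * Y - Z * W) :=
  rep_congr (rep_add (rep_mul hx hy) (rep_mul rep_negone (rep_mul hz hw))) (by ring)

theorem bd_det {X Y Z W : ℤ} (hx : Bd X 34) (hy : Bd Y 34) (hz : Bd Z 34) (hw : Bd W 34) :
    Bd (X * Y - Z * W) 69 :=
  (hx.mul hy le_rfl).sub (hz.mul hw le_rfl) (by norm_num) (by norm_num)

/-- one gradient term -/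
theorem grad_ab {x nm k : ℕ} {q K mu : ℤ} (hx : Rep x q) (hn : Rep nm (-mu))
    (hk : Rep k K) (bx : Bd q 157) (bk : Bd K 70) (bm : Bd mu 64) :
    ((ab (Nat.add x (Nat.mul nm k)) : ℕ) : ℤ) = |q - mu * K| ∧ Bd (q - mu * K) 158 := by
  have b : Bd (q - mu * K) 158 :=
    bx.sub (bm.mul bk (k := 134) (by norm_num)) (by norm_num) (by norm_num)
  refine ⟨ab_eq (rep_congr (rep_add hx (rep_mul hn hk)) (by ring)) (b.lt (by norm_num)), b⟩

theorem absS (q mu K : ℝ) :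
    |((2 : ℝ) ^ 31) ^ 2 * q - 2 ^ 62 * mu * K| = 2 ^ 62 * |q - mu * K| := by
  have e : ((2 : ℝ) ^ 31) ^ 2 * q - 2 ^ 62 * mu * K = 2 ^ 62 * (q - mu * K) := by ring
  rw [e, abs_mul, abs_of_pos (by positivity : (0 : ℝ) < 2 ^ 62)]

theorem fin_sound {nu nnu mu : ℕ} (hnu : nu ≤ 1) (hnnu : Rep nnu (-(nu : ℤ))) (hmu : mu ≤ 2 ^ 64)
    {a b f e d g h l c : ℝ}
    {ac bc fc ec dc gc hc lc cc aw bw fw ew dw gw hw lw cw : ℕ}
    {AC BC FC EC DC GC HC LC CC : ℤ}
    (ea : Ent a ac aw AC) (eb : Ent b bc bw BC) (ef : Ent f fc fw FC)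
    (ee : Ent e ec ew EC) (ed : Ent d dc dw DC) (eg : Ent g gc gw GC)
    (eh : Ent h hc hw HC) (el : Ent l lc lw LC) (ecc : Ent c cc cw CC)
    {N1 N2 : ℕ} {Gv Gf hX lY cZ aX bY fZ eX dY gZ cs es : ℕ}
    {Gv1 Gf1 hX1 lY1 cZ1 cs1 es1 : ℕ}
    {p1 p2 p3 p4 p5 p6 a1 a2 a3 b1 b2 b3 : ℤ}
    {P1 P2 P3 P4 P5 P6 A1 A2 A3 B1 B2 B3 eA1 eB1 eA eB : ℝ}
    (hN1 : N1 ≤ 30) (hN2 : N2 ≤ 30)
    (I1 : Inv N1 0 0 0 h l c a b f HC LC CC AC BC FC Gv1 Gf1 hX1 lY1 cZ1 aX bY fZ cs1 es1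
      p1 p2 p3 p4 p5 p6 P1 P2 P3 P4 P5 P6 eA1 eB1)
    (I2 : Inv N2 (P4 * a + P5 * b + P6 * f) (AC * p4 + BC * p5 + FC * p6) eB1
      h l c e d g HC LC CC EC DC GC Gv Gf hX lY cZ eX dY gZ cs es
      a1 a2 a3 b1 b2 b3 A1 A2 A3 B1 B2 B3 eA eB)
    (hdet : TCore.det (a - nu * f) b f e d g h l (c - nu * h) ≤ 1)
    (hr : TChk.fin nu ac bc fc ec dc gc hc lc cc aw bw fw ew dw gw hw lw cw nnu mu Gv Gf hX lY cZ
      aX bY fZ eX dY gZ cs es 0 = true) : False := by
  obtain ⟨A, C, AW, CW, k0, k1, k2, k3, k4, k5, k6, k7, k8, nm, C1, C2, C3, C4,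
    q_A, q_C, q_AW, q_CW, q_k0, q_k1, q_k2, q_k3, q_k4, q_k5, q_k6, q_k7, q_k8, q_nm, q_C1, q_C2,
    q_C3, q_C4, hfin⟩ := fin_dec hr
  have bmu : Bd (mu : ℤ) 64 := by
    unfold Bd
    rw [abs_of_nonneg (Int.natCast_nonneg _)]
    exact_mod_cast hmu
  have bnu : Bd (nu : ℤ) 0 := by
    unfold Bd
    rw [abs_of_nonneg (Int.natCast_nonneg _), pow_zero]
    exact_mod_cast hnu
  have b31 : Bd (2 ^ 31 : ℤ) 31 := by unfold Bd; norm_num
  have b93 : Bd (2 ^ 93 : ℤ) 93 := by unfold Bd; norm_num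
  -- the corrected entries
  have rA : Rep A (AC - nu * FC) := by
    rw [q_A]; exact rep_congr (rep_add ea.rep (rep_mul hnnu ef.rep)) (by ring)
  have rC : Rep C (CC - nu * HC) := by
    rw [q_C]; exact rep_congr (rep_add ecc.rep (rep_mul hnnu eh.rep)) (by ring)
  have bA : Bd (AC - nu * FC) 34 :=
    ea.bv.sub (bnu.mul ef.bv (k := 33) (by norm_num)) (by norm_num) (by norm_num)
  have bC : Bd (CC - nu * HC) 34 :=
    ecc.bv.sub (bnu.mul eh.bv (k := 33) (by norm_num)) (by norm_num) (by norm_num)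
  have eAW : (AW : ℤ) = aw + nu * fw := by
    rw [q_AW]; simp only [Nat.add_eq, Nat.mul_eq]; push_cast; ring
  have eCW : (CW : ℤ) = cw + nu * hw := by
    rw [q_CW]; simp only [Nat.add_eq, Nat.mul_eq]; push_cast; ring
  have bAW : Bd (AW : ℤ) 34 := by
    rw [eAW]
    exact ea.bw.add (bnu.mul ef.bw (k := 33) (by norm_num)) (by norm_num) (by norm_num)
  have bCW : Bd (CW : ℤ) 34 := by
    rw [eCW]
    exact ecc.bw.add (bnu.mul eh.bw (k := 33) (by norm_num)) (by norm_num) (by norm_num)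
  have vb := eb.bv.mono (show 33 ≤ 34 by norm_num)
  have vf := ef.bv.mono (show 33 ≤ 34 by norm_num)
  have ve := ee.bv.mono (show 33 ≤ 34 by norm_num)
  have vd := ed.bv.mono (show 33 ≤ 34 by norm_num)
  have vg := eg.bv.mono (show 33 ≤ 34 by norm_num)
  have vh := eh.bv.mono (show 33 ≤ 34 by norm_num)
  have vl := el.bv.mono (show 33 ≤ 34 by norm_num)
  -- cofactors
  set A' : ℤ := AC - nu * FC with hA'
  set C' : ℤ := CC - nu * HC with hC'
  have r0 : Rep k0 (DC * C' - GC * LC) := by rw [q_k0]; exact rep_det ed.rep rC eg.rep el.rep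
  have r1 : Rep k1 (GC * HC - EC * C') := by rw [q_k1]; exact rep_det eg.rep eh.rep ee.rep rC
  have r2 : Rep k2 (EC * LC - DC * HC) := by rw [q_k2]; exact rep_det ee.rep el.rep ed.rep eh.rep
  have r3 : Rep k3 (FC * LC - BC * C') := by rw [q_k3]; exact rep_det ef.rep el.rep eb.rep rC
  have r4 : Rep k4 (A' * C' - FC * HC) := by rw [q_k4]; exact rep_det rA rC ef.rep eh.rep
  have r5 : Rep k5 (BC * HC - A' * LC) := by rw [q_k5]; exact rep_det eb.rep eh.rep rA el.rep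
  have r6 : Rep k6 (BC * GC - FC * DC) := by rw [q_k6]; exact rep_det eb.rep eg.rep ef.rep ed.rep
  have r7 : Rep k7 (FC * EC - A' * GC) := by rw [q_k7]; exact rep_det ef.rep ee.rep rA eg.rep
  have r8 : Rep k8 (A' * DC - BC * EC) := by rw [q_k8]; exact rep_det rA ed.rep eb.rep ee.rep
  have c0 := bd_det vd bC vg vl
  have c1 := bd_det vg vh ve bC
  have c2 := bd_det ve vl vd vh
  have c3 := bd_det vf vl vb bC
  have c4 := bd_det bA bC vf vh
  have c5 := bd_det vb vh bA vl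
  have c6 := bd_det vb vg vf vd
  have c7 := bd_det vf ve bA vg
  have c8 := bd_det bA vd vb ve
  have rnm : Rep nm (-(mu : ℤ)) := by
    rw [q_nm]
    exact rep_congr (rep_mul rep_negone (rep_nat mu)) (by ring)
  have r20 : Rep (Nat.add k2 (Nat.mul nnu k0)) ((EC * LC - DC * HC) - nu * (DC * C' - GC * LC)) :=
    rep_congr (rep_add r2 (rep_mul hnnu r0)) (by ring)
  have c20 : Bd ((EC * LC - DC * HC) - nu * (DC * C' - GC * LC)) 70 :=
    c2.sub (bnu.mul c0 (k := 69) (by norm_num)) (by norm_num) (by norm_num)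
  have r68 : Rep (Nat.add k6 (Nat.mul nnu k8)) ((BC * GC - FC * DC) - nu * (A' * DC - BC * EC)) :=
    rep_congr (rep_add r6 (rep_mul hnnu r8)) (by ring)
  have c68 : Bd ((BC * GC - FC * DC) - nu * (A' * DC - BC * EC)) 70 :=
    c6.sub (bnu.mul c8 (k := 69) (by norm_num)) (by norm_num) (by norm_num)
  -- sizes of the sums
  have big : ∀ (N : ℕ) (x : ℤ), N ≤ 30 → |x| ≤ N * 2 ^ 152 → Bd x 157 := by
    intro N x hN hx
    refine hx.trans ?_
    have : (N : ℤ) ≤ 2 ^ 5 := by norm_num; omega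
    calc (N : ℤ) * 2 ^ 152 ≤ 2 ^ 5 * 2 ^ 152 := mul_le_mul_of_nonneg_right this (by positivity)
      _ = 2 ^ 157 := by norm_num
  have s1 := big _ _ hN2 I2.m1
  have s2 := big _ _ hN2 I2.m2
  have s3 := big _ _ hN2 I2.m3
  have s4 := big _ _ hN2 I2.m4
  have s5 := big _ _ hN2 I2.m5
  have s6 := big _ _ hN2 I2.m6
  have t4 := big _ _ hN1 I1.m4
  have t5 := big _ _ hN1 I1.m5
  have t6 := big _ _ hN1 I1.m6
  have ses : Bd (es : ℤ) 157 := big N2 _ hN2 (by
    rw [abs_of_nonneg (Int.natCast_nonneg _)]; exact I2.mes)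
  -- the gradient terms
  obtain ⟨g1, m1⟩ := grad_ab I1.r4 rnm r0 t4 (c0.mono (by norm_num)) bmu
  obtain ⟨g2, m2⟩ := grad_ab I1.r5 rnm r1 t5 (c1.mono (by norm_num)) bmu
  obtain ⟨g3, m3⟩ := grad_ab I1.r6 rnm r20 t6 c20 bmu
  obtain ⟨g4, m4⟩ := grad_ab I2.r4 rnm r3 s4 (c3.mono (by norm_num)) bmu
  obtain ⟨g5, m5⟩ := grad_ab I2.r5 rnm r4 s5 (c4.mono (by norm_num)) bmu
  obtain ⟨g6, m6⟩ := grad_ab I2.r6 rnm r5 s6 (c5.mono (by norm_num)) bmu
  obtain ⟨g7, m7⟩ := grad_ab I2.r1 rnm r68 s1 c68 bmu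
  obtain ⟨g8, m8⟩ := grad_ab I2.r2 rnm r7 s2 (c7.mono (by norm_num)) bmu
  obtain ⟨g9, m9⟩ := grad_ab I2.r3 rnm r8 s3 (c8.mono (by norm_num)) bmu
  have m1' := m1.abs
  have m2' := m2.abs
  have m3' := m3.abs
  have m4' := m4.abs
  have m5' := m5.abs
  have m6' := m6.abs
  have m7' := m7.abs
  have m8' := m8.abs
  have m9' := m9.abs
  rw [← g1] at m1'
  rw [← g2] at m2'
  rw [← g3] at m3'
  rw [← g4] at m4'
  rw [← g5] at m5'
  rw [← g6] at m6'
  rw [← g7] at m7'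
  rw [← g8] at m8'
  rw [← g9] at m9'
  have G1 : ((ab (Nat.add aX (Nat.mul nm k0)) : ℕ) : ℝ)
      = |(p4 : ℝ) - mu * (DC * C' - GC * LC)| := by exact_mod_cast g1
  have G2 : ((ab (Nat.add bY (Nat.mul nm k1)) : ℕ) : ℝ)
      = |(p5 : ℝ) - mu * (GC * HC - EC * C')| := by exact_mod_cast g2
  have G3 : ((ab (Nat.add fZ (Nat.mul nm (Nat.add k2 (Nat.mul nnu k0)))) : ℕ) : ℝ)
      = |(p6 : ℝ) - mu * ((EC * LC - DC * HC) - nu * (DC * C' - GC * LC))| := by
    exact_mod_cast g3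
  have G4 : ((ab (Nat.add eX (Nat.mul nm k3)) : ℕ) : ℝ)
      = |(b1 : ℝ) - mu * (FC * LC - BC * C')| := by exact_mod_cast g4
  have G5 : ((ab (Nat.add dY (Nat.mul nm k4)) : ℕ) : ℝ)
      = |(b2 : ℝ) - mu * (A' * C' - FC * HC)| := by exact_mod_cast g5
  have G6 : ((ab (Nat.add gZ (Nat.mul nm k5)) : ℕ) : ℝ)
      = |(b3 : ℝ) - mu * (BC * HC - A' * LC)| := by exact_mod_cast g6
  have G7 : ((ab (Nat.add hX (Nat.mul nm (Nat.add k6 (Nat.mul nnu k8)))) : ℕ) : ℝ)
      = |(a1 : ℝ) - mu * ((BC * GC - FC * DC) - nu * (A' * DC - BC * EC))| := by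
    exact_mod_cast g7
  have G8 : ((ab (Nat.add lY (Nat.mul nm k7)) : ℕ) : ℝ)
      = |(a2 : ℝ) - mu * (FC * EC - A' * GC)| := by exact_mod_cast g8
  have G9 : ((ab (Nat.add cZ (Nat.mul nm k8)) : ℕ) : ℝ)
      = |(a3 : ℝ) - mu * (A' * DC - BC * EC)| := by exact_mod_cast g9
  generalize ab (Nat.add aX (Nat.mul nm k0)) = n1 at *
  generalize ab (Nat.add bY (Nat.mul nm k1)) = n2 at *
  generalize ab (Nat.add fZ (Nat.mul nm (Nat.add k2 (Nat.mul nnu k0)))) = n3 at *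
  generalize ab (Nat.add eX (Nat.mul nm k3)) = n4 at *
  generalize ab (Nat.add dY (Nat.mul nm k4)) = n5 at *
  generalize ab (Nat.add gZ (Nat.mul nm k5)) = n6 at *
  generalize ab (Nat.add hX (Nat.mul nm (Nat.add k6 (Nat.mul nnu k8)))) = n7 at *
  generalize ab (Nat.add lY (Nat.mul nm k7)) = n8 at *
  generalize ab (Nat.add cZ (Nat.mul nm k8)) = n9 at *
  -- absolute values of the centres
  have o1 := ab_eq rA (bA.lt (by norm_num))
  have o2 := ab_eq eb.rep (vb.lt (by norm_num))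
  have o3 := ab_eq ef.rep (vf.lt (by norm_num))
  have o4 := ab_eq ee.rep (ve.lt (by norm_num))
  have o5 := ab_eq ed.rep (vd.lt (by norm_num))
  have o6 := ab_eq eg.rep (vg.lt (by norm_num))
  have o7 := ab_eq eh.rep (vh.lt (by norm_num))
  have o8 := ab_eq el.rep (vl.lt (by norm_num))
  have o9 := ab_eq rC (bC.lt (by norm_num))
  have O1 : ((ab A : ℕ) : ℝ) = |(A' : ℝ)| := by exact_mod_cast o1
  have O2 : ((ab bc : ℕ) : ℝ) = |(BC : ℝ)| := by exact_mod_cast o2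
  have O3 : ((ab fc : ℕ) : ℝ) = |(FC : ℝ)| := by exact_mod_cast o3
  have O4 : ((ab ec : ℕ) : ℝ) = |(EC : ℝ)| := by exact_mod_cast o4
  have O5 : ((ab dc : ℕ) : ℝ) = |(DC : ℝ)| := by exact_mod_cast o5
  have O6 : ((ab gc : ℕ) : ℝ) = |(GC : ℝ)| := by exact_mod_cast o6
  have O7 : ((ab hc : ℕ) : ℝ) = |(HC : ℝ)| := by exact_mod_cast o7
  have O8 : ((ab lc : ℕ) : ℝ) = |(LC : ℝ)| := by exact_mod_cast o8
  have O9 : ((ab C : ℕ) : ℝ) = |(C' : ℝ)| := by exact_mod_cast o9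
  have y1 := bA.abs
  have y2 := vb.abs
  have y3 := vf.abs
  have y4 := ve.abs
  have y5 := vd.abs
  have y6 := vg.abs
  have y7 := vh.abs
  have y8 := vl.abs
  have y9 := bC.abs
  rw [← o1] at y1
  rw [← o2] at y2
  rw [← o3] at y3
  rw [← o4] at y4
  rw [← o5] at y5
  rw [← o6] at y6
  rw [← o7] at y7
  rw [← o8] at y8
  rw [← o9] at y9
  -- the four parts of the bound
  set U1 : ℤ := (Gv : ℤ) + 2 ^ 31 * Gf + (-(3 * 2 ^ 113) * cs + es) with hU1
  set U2 : ℤ := (mu : ℤ) * 2 ^ 93 + (-(mu : ℤ)) *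
    (A' * (DC * C' - GC * LC) + BC * (GC * HC - EC * C') + FC * (EC * LC - DC * HC)) with hU2
  have R1 : Rep C1 U1 := by
    rw [q_C1, hU1]
    have l1 : Rep 0x80000000 (2 ^ 31) := rep_of (by norm_num)
    have l2 : Rep 0xfffffffffffffffffffffffffffffffffffa0000000000000000000000000000
      (-(3 * 2 ^ 113)) := rep_of (by norm_num)
    exact rep_add (rep_add (rep_nat _) (rep_mul l1 (rep_nat _)))
      (rep_add (rep_mul l2 (rep_nat _)) (rep_nat _))
  have R2 : Rep C2 U2 := by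
    rw [q_C2, hU2]
    have l1 : Rep 0x200000000000000000000000 (2 ^ 93) := rep_of (by norm_num)
    exact rep_add (rep_mul (rep_nat _) l1) (rep_mul rnm (rep_add (rep_add (rep_mul rA r0)
      (rep_mul eb.rep r1)) (rep_mul ef.rep r2)))
  have E3 : (C3 : ℤ) = n1 * aw + n2 * bw + n3 * fw + n4 * ew + n5 * dw + n6 * gw + n7 * hw
      + n8 * lw + n9 * cw := by
    rw [q_C3]
    simp only [Nat.add_eq, Nat.mul_eq]
    push_cast
    ring
  have E4 : (C4 : ℤ) = mu * ((ab A + AW) * (dw * CW + gw * lw)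
      + (ab bc + bw) * (ew * CW + gw * hw) + (ab fc + fw) * (ew * lw + dw * hw)
      + ab ec * (bw * CW + fw * lw) + ab dc * (AW * CW + fw * hw) + ab gc * (AW * lw + bw * hw)
      + ab hc * (bw * gw + fw * dw) + ab lc * (AW * gw + fw * ew)
      + ab C * (AW * dw + bw * ew)) := by
    rw [q_C4]
    simp only [Nat.add_eq, Nat.mul_eq]
    push_cast
    ring
  have R : Rep (Nat.add (Nat.add C1 C2) (Nat.add C3 C4)) (U1 + U2 + ((C3 : ℤ) + (C4 : ℤ))) :=
    rep_add (rep_add R1 R2) (rep_add (rep_nat _) (rep_nat _))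
  -- sizes
  have wb := eb.bw
  have wf := ef.bw
  have we := ee.bw
  have wd := ed.bw
  have wg := eg.bw
  have wh := eh.bw
  have wl := el.bw
  have z1' : Bd (Gv : ℤ) 193 := by
    rw [I2.gv]
    exact ((eh.bv.mul s1 (k := 190) (by norm_num)).add (el.bv.mul s2 (k := 190) (by norm_num))
      (k := 191) (by norm_num) (by norm_num)).add (ecc.bv.mul s3 (k := 190) (by norm_num))
      (by norm_num) (by norm_num)
  have z2' : Bd (2 ^ 31 * (Gf : ℤ)) 195 := by
    rw [I2.gf]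
    exact (((ea.bv.mul t4 (k := 190) (by norm_num)).add (eb.bv.mul t5 (k := 190) (by norm_num))
      (k := 191) (by norm_num) (by norm_num)).add (ef.bv.mul t6 (k := 190) (by norm_num))
      (k := 192) (by norm_num) (by norm_num)).add
      (((ee.bv.mul s4 (k := 190) (by norm_num)).add (ed.bv.mul s5 (k := 190) (by norm_num))
      (k := 191) (by norm_num) (by norm_num)).add (eg.bv.mul s6 (k := 190) (by norm_num))
      (k := 192) (by norm_num) (by norm_num)) (by norm_num) (by norm_num)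
  have z3' : Bd U2 172 := by
    rw [hU2]
    refine (bmu.mul b93 (k := 157) (by norm_num)).add (k := 172) (m := 170) ?_ (by norm_num)
      (by norm_num)
    refine bmu.neg.mul (m := 105) ?_ (by norm_num)
    exact ((bA.mul c0 (k := 103) (by norm_num)).add (vb.mul c1 (k := 103) (by norm_num))
      (k := 104) (by norm_num) (by norm_num)).add (vf.mul c2 (k := 103) (by norm_num))
      (by norm_num) (by norm_num)
  have z4' : Bd (C3 : ℤ) 200 := by
    rw [E3]
    exact ((((((((m1'.mul ea.bw (k := 191) (by norm_num)).add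
      (m2'.mul wb (k := 191) (by norm_num)) (k := 192) (by norm_num) (by norm_num)).add
      (m3'.mul wf (k := 191) (by norm_num)) (k := 193) (by norm_num) (by norm_num)).add
      (m4'.mul we (k := 191) (by norm_num)) (k := 194) (by norm_num) (by norm_num)).add
      (m5'.mul wd (k := 191) (by norm_num)) (k := 195) (by norm_num) (by norm_num)).add
      (m6'.mul wg (k := 191) (by norm_num)) (k := 196) (by norm_num) (by norm_num)).add
      (m7'.mul wh (k := 191) (by norm_num)) (k := 197) (by norm_num) (by norm_num)).add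
      (m8'.mul wl (k := 191) (by norm_num)) (k := 198) (by norm_num) (by norm_num)).add
      (m9'.mul ecc.bw (k := 191) (by norm_num)) (k := 200) (by norm_num) (by norm_num)
  have prod2 : ∀ {x y z w : ℤ}, Bd x 34 → Bd y 34 → Bd z 34 → Bd w 34 →
      Bd (x * y + z * w) 69 := fun hx hy hz hw =>
    (hx.mul hy le_rfl).add (hz.mul hw le_rfl) (by norm_num) (by norm_num)
  have xb := wb.mono (show 33 ≤ 34 by norm_num)
  have xf := wf.mono (show 33 ≤ 34 by norm_num)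
  have xe := we.mono (show 33 ≤ 34 by norm_num)
  have xd := wd.mono (show 33 ≤ 34 by norm_num)
  have xg := wg.mono (show 33 ≤ 34 by norm_num)
  have xh := wh.mono (show 33 ≤ 34 by norm_num)
  have xl := wl.mono (show 33 ≤ 34 by norm_num)
  have z5' : Bd (C4 : ℤ) 190 := by
    rw [E4]
    refine bmu.mul (m := 119) ?_ (by norm_num)
    exact (((((((((y1.add bAW (k := 35) (by norm_num) (by norm_num)).mul (prod2 xd bCW xg xl)
        (k := 104) (by norm_num)).add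
      ((y2.add xb (k := 35) (by norm_num) (by norm_num)).mul (prod2 xe bCW xg xh)
        (k := 104) (by norm_num)) (k := 105) (by norm_num) (by norm_num)).add
      ((y3.add xf (k := 35) (by norm_num) (by norm_num)).mul (prod2 xe xl xd xh)
        (k := 104) (by norm_num)) (k := 106) (by norm_num) (by norm_num)).add
      (y4.mul (prod2 xb bCW xf xl) (k := 104) (by norm_num)) (k := 107) (by norm_num)
        (by norm_num)).add
      (y5.mul (prod2 bAW bCW xf xh) (k := 104) (by norm_num)) (k := 108) (by norm_num)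
        (by norm_num)).add
      (y6.mul (prod2 bAW xl xb xh) (k := 104) (by norm_num)) (k := 109) (by norm_num)
        (by norm_num)).add
      (y7.mul (prod2 xb xg xf xd) (k := 104) (by norm_num)) (k := 110) (by norm_num)
        (by norm_num)).add
      (y8.mul (prod2 bAW xg xf xe) (k := 104) (by norm_num)) (k := 111) (by norm_num)
        (by norm_num)).add
      (y9.mul (prod2 bAW xd xb xe) (k := 104) (by norm_num)) (k := 119) (by norm_num)
        (by norm_num)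
  have hU : U1 + U2 + ((C3 : ℤ) + (C4 : ℤ)) < 2 ^ 255 := by
    have w1 := ((z1'.add z2' (k := 196) (by norm_num) (by norm_num)).add ses (k := 197)
      (by norm_num) (by norm_num)).add (z3'.add (z4'.add z5' (k := 201) (by norm_num)
      (by norm_num)) (k := 202) (by norm_num) (by norm_num)) (k := 203) (by norm_num)
      (by norm_num)
    have w2 := (abs_lt.mp (w1.lt (by norm_num))).2
    have w3 : (0 : ℤ) ≤ cs := Int.natCast_nonneg _
    have w4 : U1 = ((Gv : ℤ) + 2 ^ 31 * Gf + es) - 3 * 2 ^ 113 * cs := by rw [hU1]; ring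
    rw [w4]
    have w5 : (0 : ℤ) ≤ 3 * 2 ^ 113 * cs := mul_nonneg (by norm_num) w3
    linarith
  have hneg := neg_of_test R hU (Nat.add_eq_zero_iff.1 hfin).2
  -- the real bound
  have hQ : 3 * 2 ^ 20 * (cs : ℝ) ≤ P4 * a + P5 * b + P6 * f + B1 * e + B2 * d + B3 * g
      + A1 * h + A2 * l + A3 * c := by
    have := I2.ineq
    linarith
  have key := TCore.tfinal (S := 2 ^ 31) (D := 2 ^ 62) (mu := (mu : ℝ)) (nu := (nu : ℝ))
    (by norm_num) (by norm_num) (Nat.cast_nonneg _) (Nat.cast_nonneg _)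
    ea.err eb.err ef.err ee.err ed.err eg.err eh.err el.err ecc.err
    I1.q4 I1.q5 I1.q6 I2.q4 I2.q5 I2.q6 I2.q1 I2.q2 I2.q3 hQ hdet
  have hA'R : (AC : ℝ) - nu * FC = (A' : ℝ) := by rw [hA']; push_cast; ring
  have hC'R : (CC : ℝ) - nu * HC = (C' : ℝ) := by rw [hC']; push_cast; ring
  have hAWR : (aw : ℝ) + nu * fw = (AW : ℝ) := by
    have := congrArg (fun t : ℤ => (t : ℝ)) eAW
    simp only [Int.cast_natCast, Int.cast_add, Int.cast_mul] at this
    exact this.symm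
  have hCWR : (cw : ℝ) + nu * hw = (CW : ℝ) := by
    have := congrArg (fun t : ℤ => (t : ℝ)) eCW
    simp only [Int.cast_natCast, Int.cast_add, Int.cast_mul] at this
    exact this.symm
  simp only [hA'R, hC'R, hAWR, hCWR, absS] at key
  rw [← G1, ← G2, ← G3, ← G4, ← G5, ← G6, ← G7, ← G8, ← G9] at key
  unfold TCore.DB TCore.pb TCore.det at key
  rw [← O1, ← O2, ← O3, ← O4, ← O5, ← O6, ← O7, ← O8, ← O9] at key
  have eA0 : 0 ≤ eA := (abs_nonneg _).trans I2.q2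
  have eB0 : 0 ≤ eB := (abs_nonneg _).trans I2.q4
  have eB10 : 0 ≤ eB1 := (abs_nonneg _).trans I1.q4
  have v1 := ea.b3 eB10
  have v2 := eb.b3 eB10
  have v3 := ef.b3 (mul_nonneg (zero_le_two (α := ℝ)) eB10)
  have v4 := ee.b3 eB0
  have v5 := ed.b3 eB0
  have v6 := eg.b3 (mul_nonneg (zero_le_two (α := ℝ)) eB0)
  have v7 := eh.b3 (mul_nonneg (zero_le_two (α := ℝ)) eA0)
  have v8 := el.b3 eA0
  have v9 := ecc.b3 eA0
  rw [← O2] at v2
  rw [← O3] at v3
  rw [← O4] at v4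
  rw [← O5] at v5
  rw [← O6] at v6
  rw [← O7] at v7
  rw [← O8] at v8
  have hes := I2.hes
  have hgv : (Gv : ℝ) = HC * a1 + LC * a2 + CC * a3 := by
    have := congrArg (fun t : ℤ => (t : ℝ)) I2.gv
    simp only [Int.cast_natCast, Int.cast_add, Int.cast_mul] at this
    exact this
  have hgf : 2 ^ 31 * (Gf : ℝ) = AC * p4 + BC * p5 + FC * p6 + (EC * b1 + DC * b2 + GC * b3) := by
    have := congrArg (fun t : ℤ => (t : ℝ)) I2.gf
    simp only [Int.cast_natCast, Int.cast_add, Int.cast_mul, Int.cast_pow, Int.cast_ofNat] at this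
    exact this
  have E3R : (C3 : ℝ) = n1 * aw + n2 * bw + n3 * fw + n4 * ew + n5 * dw + n6 * gw + n7 * hw
      + n8 * lw + n9 * cw := by
    have := congrArg (fun t : ℤ => (t : ℝ)) E3
    simp only [Int.cast_natCast, Int.cast_add, Int.cast_mul] at this
    exact this
  have E4R : (C4 : ℝ) = mu * ((ab A + AW) * (dw * CW + gw * lw)
      + (ab bc + bw) * (ew * CW + gw * hw) + (ab fc + fw) * (ew * lw + dw * hw)
      + ab ec * (bw * CW + fw * lw) + ab dc * (AW * CW + fw * hw) + ab gc * (AW * lw + bw * hw)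
      + ab hc * (bw * gw + fw * dw) + ab lc * (AW * gw + fw * ew)
      + ab C * (AW * dw + bw * ew)) := by
    have := congrArg (fun t : ℤ => (t : ℝ)) E4
    simp only [Int.cast_natCast, Int.cast_add, Int.cast_mul] at this
    exact this
  have hUR : ((U1 + U2 + ((C3 : ℤ) + (C4 : ℤ)) : ℤ) : ℝ) < 0 := by
    have : ((U1 + U2 + ((C3 : ℤ) + (C4 : ℤ)) : ℤ) : ℝ) < ((0 : ℤ) : ℝ) := Int.cast_lt.2 hneg
    simpa using this
  rw [hU1, hU2] at hUR
  simp only [Int.cast_natCast, Int.cast_add, Int.cast_mul, Int.cast_pow, Int.cast_ofNat,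
    Int.cast_neg, Int.cast_sub] at hUR
  rw [E3R, E4R] at hUR
  linarith only [key, hUR, hgv, hgf, hes, v1, v2, v3, v4, v5, v6, v7, v8, v9, eA0, eB0, eB10]

end TSound
end Pool.Agent.Lib.MP_be9f18_nt
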