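import Pool.Agent.Lib.MP_be9f18_nt.TGood
import Pool.Agent.Lib.MP_be9f18_nt.Iso2
import Pool.Agent.Lib.MP_be9f18_nt.Final
import Pool.Agent.Lib.MP_be9f18_nt.SheetZ

/-!
The statements II and III from the root boxes of the second checker, and the frozen statement
from the three root statements (problem MP_be9f18_nt).
-/

set_option autoImplicit false

namespace Pool.Agent.Lib.MP_be9f18_nt

theorem stmtII (H : RootII) : StatementII := by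
  intro t1 t2 t3 R b f e d g h l hF hA hD
  obtain ⟨⟨b1, b2⟩, ⟨f1, f2⟩, ⟨e1, e2⟩, ⟨d1, d2⟩, ⟨g1, g2⟩, ⟨h1, h2⟩, ⟨l1, l2⟩⟩ := hF
  have hn : nuT 0 = 1 := if_pos rfl
  have key := H t1 t2 t3 R 1 b f e d g h l 1 (by
    unfold InBoxT
    push_cast
    refine ⟨?_, ?_, ?_, ?_, ?_, ?_, ?_, ?_, ?_, ?_, ?_, ?_, ?_, ?_, ?_, ?_, ?_, ?_⟩ <;> linarith)
    (by rw [hn, one_mul, one_mul]; exact hA) (by rw [hn, one_mul, one_mul]; exact hD)
  unfold Target InBoxT at key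
  rcases key with ⟨-, h⟩ | ⟨h, -⟩ | ⟨h, -⟩
  · push_cast at h
    obtain ⟨a3, a4, b3, b4, f3, f4, e3, e4, d3, d4, g3, g4, h3, h4, l3, l4, c3, c4⟩ := h
    unfold Thin
    simp only [abs_le]
    refine ⟨⟨?_, ?_⟩, ⟨?_, ?_⟩, ⟨?_, ?_⟩, ⟨?_, ?_⟩, ⟨?_, ?_⟩, ⟨?_, ?_⟩, ⟨?_, ?_⟩, ⟨?_, ?_⟩,
      ⟨?_, ?_⟩⟩ <;> linarith
  · exact absurd h (by norm_num)
  · exact absurd h (by norm_num)

theorem stmtIII (H : RootIII) : StatementIII := by
  intro t1 t2 t3 R a b f e d g h l c hW hf hg hh hl hA hD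
  obtain ⟨⟨a1, a2⟩, hb, he, ⟨d1, d2⟩, hc⟩ := hW
  rw [abs_le] at hb he hc hf hg hh hl
  have hn : nuT 1 = 0 := if_neg one_ne_zero
  have key := H t1 t2 t3 R a b f e d g h l c (by
    unfold InBoxT
    push_cast
    refine ⟨?_, ?_, ?_, ?_, ?_, ?_, ?_, ?_, ?_, ?_, ?_, ?_, ?_, ?_, ?_, ?_, ?_, ?_⟩ <;> linarith)
    (by rw [hn, zero_mul, zero_mul, sub_zero, sub_zero]; exact hA)
    (by rw [hn, zero_mul, zero_mul, sub_zero, sub_zero]; exact hD)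
  unfold Target InBoxT at key
  rcases key with ⟨h, -⟩ | ⟨-, h⟩ | ⟨h, -⟩
  · exact absurd h (by norm_num)
  · push_cast at h
    obtain ⟨a3, a4, b3, b4, f3, f4, e3, e4, d3, d4, g3, g4, h3, h4, l3, l4, c3, c4⟩ := h
    rw [abs_lt, abs_lt]
    refine ⟨⟨?_, ?_⟩, ⟨?_, ?_⟩⟩ <;> linarith
  · exact absurd h (by norm_num)

/-- The isolation step, from the two certificates. -/
theorem iso_of_roots (H2 : RootII) (H3 : RootIII) : IsoStatement := by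
  intro om hom p a1 a2 x e s t hacc hA hd
  exact iso (stmtII H2) (stmtIII H3) stmtZ om hom p a1 a2 x e s t hA hd hacc

/-- The frozen statement from the three root statements. -/
theorem sSup_eq_of_roots (main : MainStatement) (H2 : RootII) (H3 : RootIII) :
    sSup {γ : ℝ | ∃ ξ₁ ξ₂ : ℝ, (Irrational ξ₁ ∨ Irrational ξ₂) ∧
      γ = sInf {c : ℝ | 0 < c ∧ c ≤ 1 ∧
        {x : ℤ × ℤ × ℤ | 0 < x.2.2 ∧
          (x.2.2 : ℝ) * |(x.2.2 : ℝ) * ξ₁ - (x.1 : ℝ)| ^ 2 < c ∧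
          (x.2.2 : ℝ) * |(x.2.2 : ℝ) * ξ₂ - (x.2.1 : ℝ)| ^ 2 < c}.Infinite}} = 2 / 7 :=
  sSup_eq main (iso_of_roots H2 H3)

end Pool.Agent.Lib.MP_be9f18_nt
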