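import Pool.Agent.Lib.MP_be9f18_nt.TSound
import Pool.Agent.Lib.MP_be9f18_nt.CertT.P1
import Pool.Agent.Lib.MP_be9f18_nt.CertT.P2
import Pool.Agent.Lib.MP_be9f18_nt.CertT.P3
import Pool.Agent.Lib.MP_be9f18_nt.CertT.P4
import Pool.Agent.Lib.MP_be9f18_nt.CertT.Q1
import Pool.Agent.Lib.MP_be9f18_nt.CertT.Q2
import Pool.Agent.Lib.MP_be9f18_nt.CertT.Q3
import Pool.Agent.Lib.MP_be9f18_nt.CertT.Q4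

/-!
The certificates II and III: the root boxes of the second checker are good.
-/

set_option autoImplicit false
set_option maxRecDepth 100000

namespace Pool.Agent.Lib.MP_be9f18_nt

/-- All upper bounds are at most `2^32`. -/
def bndT (ah bh fh eh dh gh hh lh ch : ℕ) : Bool :=
  Nat.ble ah 4294967296 && (Nat.ble bh 4294967296 && (Nat.ble fh 4294967296 &&
  (Nat.ble eh 4294967296 && (Nat.ble dh 4294967296 && (Nat.ble gh 4294967296 &&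
  (Nat.ble hh 4294967296 && (Nat.ble lh 4294967296 && Nat.ble ch 4294967296)))))))

theorem gt {md : ℕ} {t : TChk.T} {al ah bl bh fl fh el eh dl dh gl gh hl hh ll lh cl ch : ℕ}
    (h : TChk.check md t al ah bl bh fl fh el eh dl dh gl gh hl hh ll lh cl ch = true)
    (hb : bndT ah bh fh eh dh gh hh lh ch = true) :
    TGood md al ah bl bh fl fh el eh dl dh gl gh hl hh ll lh cl ch := by
  simp only [bndT, Bool.and_eq_true, Nat.ble_eq] at hb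
  obtain ⟨b1, b2, b3, b4, b5, b6, b7, b8, b9⟩ := hb
  exact tcheck_sound md t _ _ _ _ _ _ _ _ _ _ _ _ _ _ _ _ _ _ b1 b2 b3 b4 b5 b6 b7 b8 b9 h

theorem rootII : RootII := by
  unfold RootII
  exact (tgood_s7 (gt TChk.pc0 rfl)
  (tgood_s5 (tgood_s2 (tgood_s5 (tgood_s7 (tgood_s4 (gt TChk.pc1 rfl)
  (tgood_s3 (gt TChk.pc2 rfl)
  (tgood_s6 (tgood_s7 (gt TChk.pc3 rfl)
  (tgood_s2 (gt TChk.pc4 rfl)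
  (tgood_s4 (gt TChk.pc5 rfl)
  (tgood_s6 (gt TChk.pc6 rfl)
  (tgood_s2 (gt TChk.pc7 rfl)
  (tgood_s4 (tgood_s6 (gt TChk.pc8 rfl)
  (tgood_s7 (tgood_s2 (gt TChk.pc9 rfl)
  (tgood_s4 (gt TChk.pc10 rfl)
  (tgood_s2 (gt TChk.pc11 rfl)
  (tgood_s7 (gt TChk.pc12 rfl)
  (tgood_s1 (gt TChk.pc13 rfl)
  (tgood_s4 (gt TChk.pc14 rfl)
  (tgood_s4 (tgood_s7 (gt TChk.pc15 rfl)
  (tgood_s2 (gt TChk.pc16 rfl)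
  (tgood_s1 (gt TChk.pc17 rfl)
  (tgood_s4 (gt TChk.pc18 rfl)
  (tgood_s6 (gt TChk.pc19 rfl)
  (tgood_s5 (tgood_s2 (gt TChk.pc20 rfl)
  (tgood_s5 (tgood_s4 (gt TChk.pc21 rfl)
  (tgood_s1 (gt TChk.pc22 rfl)
  (tgood_s7 (gt TChk.pc23 rfl)
  (tgood_s6 (gt TChk.pc24 rfl)
  (gt TChk.pc25 rfl)))))
  (gt TChk.pc26 rfl)))
  (gt TChk.pc27 rfl)))))))
  (gt TChk.pc28 rfl))))))))
  (gt TChk.pc29 rfl)))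
  (gt TChk.pc30 rfl)))))))
  (tgood_s2 (gt TChk.pc31 rfl)
  (tgood_s6 (tgood_s7 (gt TChk.pc32 rfl)
  (tgood_s7 (gt TChk.pc33 rfl)
  (gt TChk.pc34 rfl)))
  (tgood_s7 (gt TChk.pc35 rfl)
  (tgood_s1 (gt TChk.pc36 rfl)
  (tgood_s6 (tgood_s6 (gt TChk.pc37 rfl)
  (tgood_s6 (gt TChk.pc38 rfl)
  (gt TChk.pc39 rfl)))
  (gt TChk.pc40 rfl)))))))))
  (tgood_s2 (gt TChk.pc41 rfl)
  (tgood_s5 (tgood_s3 (gt TChk.pc42 rfl)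
  (tgood_s6 (gt TChk.pc43 rfl)
  (tgood_s7 (tgood_s1 (gt TChk.pc44 rfl)
  (tgood_s4 (gt TChk.pc45 rfl)
  (tgood_s6 (gt TChk.pc46 rfl)
  (tgood_s6 (gt TChk.pc47 rfl)
  (tgood_s7 (tgood_s4 (gt TChk.pc48 rfl)
  (gt TChk.pc49 rfl))
  (gt TChk.pc50 rfl))))))
  (gt TChk.pc51 rfl))))
  (gt TChk.pc52 rfl))))
  (tgood_s3 (tgood_s7 (gt TChk.pc53 rfl)
  (tgood_s6 (tgood_s4 (gt TChk.pc54 rfl)
  (tgood_s4 (tgood_s6 (gt TChk.pc55 rfl)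
  (tgood_s2 (gt TChk.pc56 rfl)
  (tgood_s7 (gt TChk.pc57 rfl)
  (tgood_s7 (gt TChk.pc58 rfl)
  (gt TChk.pc59 rfl)))))
  (gt TChk.pc60 rfl)))
  (gt TChk.pc61 rfl)))
  (tgood_s4 (gt TChk.pc62 rfl)
  (tgood_s2 (gt TChk.pc63 rfl)
  (tgood_s5 (gt TChk.pc64 rfl)
  (tgood_s4 (gt TChk.pc65 rfl)
  (tgood_s2 (gt TChk.pc66 rfl)
  (tgood_s7 (tgood_s2 (gt TChk.pc67 rfl)
  (tgood_s7 (gt TChk.pc68 rfl)
  (tgood_s6 (tgood_s2 (gt TChk.pc69 rfl)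
  (tgood_s4 (tgood_s6 (gt TChk.pc70 rfl)
  (tgood_s2 (gt TChk.pc71 rfl)
  (tgood_s6 (gt TChk.pc72 rfl)
  (tgood_s4 (tgood_s6 (gt TChk.pc73 rfl)
  (tgood_s6 (gt TChk.pc74 rfl)
  (gt TChk.pc75 rfl)))
  (gt TChk.pc76 rfl)))))
  (gt TChk.pc77 rfl)))
  (tgood_s2 (gt TChk.pc78 rfl)
  (tgood_s6 (gt TChk.pc79 rfl)
  (tgood_s6 (tgood_s6 (gt TChk.pc80 rfl)
  (tgood_s4 (tgood_s2 (gt TChk.pc81 rfl)
  (tgood_s2 (gt TChk.pc82 rfl)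
  (tgood_s6 (gt TChk.pc83 rfl)
  (tgood_s6 (gt TChk.pc84 rfl)
  (gt TChk.pc85 rfl)))))
  (gt TChk.pc86 rfl)))
  (gt TChk.pc87 rfl)))))))
  (gt TChk.pc88 rfl)))))))))
  (tgood_s5 (tgood_s2 (tgood_s5 (tgood_s3 (gt TChk.pc89 rfl)
  (tgood_s7 (tgood_s4 (gt TChk.pc90 rfl)
  (tgood_s6 (tgood_s7 (gt TChk.pc91 rfl)
  (tgood_s6 (gt TChk.pc92 rfl)
  (tgood_s6 (gt TChk.pc93 rfl)
  (tgood_s7 (tgood_s4 (gt TChk.pc94 rfl)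
  (tgood_s6 (gt TChk.pc95 rfl)
  (gt TChk.pc96 rfl)))
  (tgood_s7 (gt TChk.pc97 rfl)
  (tgood_s6 (gt TChk.pc98 rfl)
  (tgood_s2 (tgood_s7 (tgood_s4 (gt TChk.pc99 rfl)
  (tgood_s6 (gt TChk.pc100 rfl)
  (tgood_s2 (tgood_s4 (tgood_s1 (tgood_s4 (tgood_s7 (gt TChk.pc101 rfl)
  (tgood_s6 (gt TChk.pc102 rfl)
  (tgood_s2 (tgood_s4 (tgood_s7 (tgood_s4 (gt TChk.pc103 rfl)
  (tgood_s7 (gt TChk.pc104 rfl)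
  (tgood_s7 (tgood_s6 (gt TChk.pc105 rfl)
  (tgood_s2 (tgood_s4 (tgood_s4 (gt TChk.pc106 rfl)
  (tgood_s6 (gt TChk.pc107 rfl)
  (tgood_s2 (tgood_s4 (tgood_s7 (gt TChk.pc108 rfl)
  (gt TChk.pc109 rfl))
  (gt TChk.pc110 rfl))
  (gt TChk.pc111 rfl))))
  (gt TChk.pc112 rfl))
  (gt TChk.pc113 rfl)))
  (gt TChk.pc114 rfl))))
  (gt TChk.pc115 rfl))
  (gt TChk.pc116 rfl))
  (gt TChk.pc117 rfl))))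
  (gt TChk.pc118 rfl))
  (gt TChk.pc119 rfl))
  (gt TChk.pc120 rfl))
  (gt TChk.pc121 rfl))))
  (gt TChk.pc122 rfl))
  (gt TChk.pc123 rfl))))))))
  (tgood_s1 (tgood_s7 (gt TChk.pc124 rfl)
  (tgood_s7 (gt TChk.pc125 rfl)
  (tgood_s6 (gt TChk.pc126 rfl)
  (tgood_s7 (tgood_s4 (gt TChk.pc127 rfl)
  (tgood_s6 (gt TChk.pc128 rfl)
  (gt TChk.pc129 rfl)))
  (gt TChk.pc130 rfl)))))
  (gt TChk.pc131 rfl))))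
  (tgood_s6 (gt TChk.pc132 rfl)
  (tgood_s7 (tgood_s4 (gt TChk.pc133 rfl)
  (tgood_s6 (gt TChk.pc134 rfl)
  (gt TChk.pc135 rfl)))
  (gt TChk.pc136 rfl)))))
  (gt TChk.pc137 rfl))
  (gt TChk.pc138 rfl))
  (tgood_s2 (tgood_s3 (tgood_s7 (gt TChk.pc139 rfl)
  (tgood_s6 (tgood_s4 (gt TChk.pc140 rfl)
  (tgood_s6 (tgood_s7 (gt TChk.pc141 rfl)
  (tgood_s7 (tgood_s4 (gt TChk.pc142 rfl)
  (tgood_s7 (tgood_s4 (gt TChk.pc143 rfl)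
  (tgood_s4 (gt TChk.pc144 rfl)
  (tgood_s6 (gt TChk.pc145 rfl)
  (gt TChk.pc146 rfl))))
  (tgood_s4 (gt TChk.pc147 rfl)
  (tgood_s5 (gt TChk.pc148 rfl)
  (tgood_s6 (tgood_s7 (tgood_s4 (gt TChk.pc149 rfl)
  (tgood_s7 (tgood_s7 (gt TChk.pc150 rfl)
  (gt TChk.pc151 rfl))
  (gt TChk.pc152 rfl)))
  (gt TChk.pc153 rfl))
  (gt TChk.pc154 rfl))))))
  (gt TChk.pc155 rfl)))
  (tgood_s7 (tgood_s4 (gt TChk.pc156 rfl)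
  (tgood_s7 (gt TChk.pc157 rfl)
  (tgood_s6 (gt TChk.pc158 rfl)
  (tgood_s5 (gt TChk.pc159 rfl)
  (tgood_s7 (gt TChk.pc160 rfl)
  (tgood_s6 (gt TChk.pc161 rfl)
  (tgood_s2 (tgood_s2 (tgood_s4 (tgood_s4 (gt TChk.pc162 rfl)
  (tgood_s7 (tgood_s7 (gt TChk.pc163 rfl)
  (tgood_s4 (gt TChk.pc164 rfl)
  (tgood_s4 (tgood_s6 (tgood_s5 (tgood_s3 (gt TChk.pc165 rfl)
  (tgood_s4 (tgood_s3 (gt TChk.pc166 rfl)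
  (tgood_s4 (tgood_s3 (gt TChk.pc167 rfl)
  (tgood_s7 (gt TChk.pc168 rfl)
  (tgood_s7 (gt TChk.pc169 rfl)
  (tgood_s7 (gt TChk.pc170 rfl)
  (gt TChk.pc171 rfl)))))
  (gt TChk.pc172 rfl)))
  (gt TChk.pc173 rfl)))
  (tgood_s2 (gt TChk.pc174 rfl)
  (tgood_s1 (gt TChk.pc175 rfl)
  (tgood_s3 (gt TChk.pc176 rfl)
  (tgood_s4 (tgood_s3 (gt TChk.pc177 rfl)
  (tgood_s7 (gt TChk.pc178 rfl)
  (tgood_s4 (tgood_s5 (gt TChk.pc179 rfl)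
  (tgood_s1 (gt TChk.pc180 rfl)
  (tgood_s3 (gt TChk.pc181 rfl)
  (tgood_s4 (tgood_s4 (gt TChk.pc182 rfl)
  (tgood_s7 (tgood_s4 (gt TChk.pc183 rfl)
  (tgood_s1 (gt TChk.pc184 rfl)
  (tgood_s3 (gt TChk.pc185 rfl)
  (tgood_s1 (tgood_s5 (gt TChk.pc186 rfl)
  (tgood_s4 (tgood_s7 (gt TChk.pc187 rfl)
  (tgood_s2 (gt TChk.pc188 rfl)
  (tgood_s3 (gt TChk.pc189 rfl)
  (tgood_s2 (tgood_s4 (tgood_s7 (gt TChk.pc190 rfl)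
  (tgood_s3 (gt TChk.pc191 rfl)
  (tgood_s4 (tgood_s6 (gt TChk.pc192 rfl)
  (tgood_s5 (tgood_s5 (gt TChk.pc193 rfl)
  (tgood_s2 (gt TChk.pc194 rfl)
  (gt TChk.pc195 rfl)))
  (gt TChk.pc196 rfl)))
  (gt TChk.pc197 rfl))))
  (gt TChk.pc198 rfl))
  (gt TChk.pc199 rfl)))))
  (gt TChk.pc200 rfl)))
  (gt TChk.pc201 rfl)))))
  (tgood_s7 (tgood_s6 (gt TChk.pc202 rfl)
  (gt TChk.pc203 rfl))
  (gt TChk.pc204 rfl))))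
  (gt TChk.pc205 rfl)))))
  (gt TChk.pc206 rfl))))
  (gt TChk.pc207 rfl))))))
  (tgood_s6 (gt TChk.pc208 rfl)
  (tgood_s7 (gt TChk.pc209 rfl)
  (tgood_s5 (gt TChk.pc210 rfl)
  (tgood_s6 (gt TChk.pc211 rfl)
  (tgood_s2 (tgood_s6 (tgood_s7 (gt TChk.pc212 rfl)
  (tgood_s6 (gt TChk.pc213 rfl)
  (tgood_s2 (tgood_s3 (gt TChk.pc214 rfl)
  (tgood_s4 (tgood_s7 (tgood_s4 (gt TChk.pc215 rfl)
  (gt TChk.pc216 rfl))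
  (gt TChk.pc217 rfl))
  (gt TChk.pc218 rfl)))
  (gt TChk.pc219 rfl))))
  (tgood_s2 (tgood_s3 (gt TChk.pc220 rfl)
  (tgood_s4 (tgood_s5 (gt TChk.pc221 rfl)
  (tgood_s2 (gt TChk.pc222 rfl)
  (tgood_s1 (gt TChk.pc223 rfl)
  (tgood_s5 (gt TChk.pc224 rfl)
  (tgood_s3 (gt TChk.pc225 rfl)
  (tgood_s4 (tgood_s4 (gt TChk.pc226 rfl)
  (tgood_s3 (gt TChk.pc227 rfl)
  (tgood_s1 (tgood_s4 (tgood_s2 (gt TChk.pc228 rfl)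
  (tgood_s7 (gt TChk.pc229 rfl)
  (tgood_s7 (tgood_s5 (gt TChk.pc230 rfl)
  (tgood_s3 (gt TChk.pc231 rfl)
  (tgood_s4 (tgood_s1 (gt TChk.pc232 rfl)
  (tgood_s3 (gt TChk.pc233 rfl)
  (tgood_s2 (tgood_s4 (tgood_s2 (tgood_s4 (tgood_s1 (gt TChk.pc234 rfl)
  (tgood_s3 (gt TChk.pc235 rfl)
  (tgood_s4 (tgood_s5 (gt TChk.pc236 rfl)
  (tgood_s7 (tgood_s7 (gt TChk.pc237 rfl)
  (tgood_s5 (tgood_s7 (gt TChk.pc238 rfl)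
  (gt TChk.pc239 rfl))
  (gt TChk.pc240 rfl)))
  (gt TChk.pc241 rfl)))
  (gt TChk.pc242 rfl))))
  (gt TChk.pc243 rfl))
  (tgood_s5 (tgood_s1 (tgood_s2 (tgood_s4 (tgood_s5 (gt TChk.pc244 rfl)
  (tgood_s5 (tgood_s2 (tgood_s2 (tgood_s5 (gt TChk.pc245 rfl)
  (tgood_s2 (tgood_s7 (tgood_s2 (gt TChk.pc246 rfl)
  (tgood_s7 (tgood_s7 (gt TChk.pc247 rfl)
  (tgood_s7 (gt TChk.pc248 rfl)
  (tgood_s5 (tgood_s2 (gt TChk.pc249 rfl)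
  (tgood_s5 (tgood_s4 (gt TChk.pc250 rfl)
  (tgood_s2 (tgood_s5 (gt TChk.pc251 rfl)
  (tgood_s2 (gt TChk.pc252 rfl)
  (tgood_s1 (tgood_s4 (tgood_s3 (gt TChk.pc253 rfl)
  (tgood_s6 (gt TChk.pc254 rfl)
  (tgood_s7 (tgood_s6 (gt TChk.pc255 rfl)
  (tgood_s1 (tgood_s2 (tgood_s5 (gt TChk.pc256 rfl)
  (tgood_s2 (gt TChk.pc257 rfl)
  (tgood_s1 (gt TChk.pc258 rfl)
  (gt TChk.pc259 rfl))))
  (gt TChk.pc260 rfl))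
  (gt TChk.pc261 rfl)))
  (gt TChk.pc262 rfl))))
  (gt TChk.pc263 rfl))
  (gt TChk.pc264 rfl))))
  (gt TChk.pc265 rfl)))
  (gt TChk.pc266 rfl)))
  (gt TChk.pc267 rfl))))
  (gt TChk.pc268 rfl)))
  (gt TChk.pc269 rfl))
  (gt TChk.pc270 rfl)))
  (gt TChk.pc271 rfl))
  (gt TChk.pc272 rfl))
  (gt TChk.pc273 rfl)))
  (gt TChk.pc274 rfl))
  (gt TChk.pc275 rfl))
  (gt TChk.pc276 rfl))
  (gt TChk.pc277 rfl)))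
  (gt TChk.pc278 rfl))
  (gt TChk.pc279 rfl))))
  (gt TChk.pc280 rfl))))
  (gt TChk.pc281 rfl))))
  (gt TChk.pc282 rfl))
  (gt TChk.pc283 rfl))))
  (gt TChk.pc284 rfl)))))))
  (gt TChk.pc285 rfl)))
  (gt TChk.pc286 rfl)))
  (gt TChk.pc287 rfl)))))))
  (gt TChk.pc288 rfl))))
  (gt TChk.pc289 rfl)))
  (gt TChk.pc290 rfl))
  (gt TChk.pc291 rfl))
  (gt TChk.pc292 rfl))))))))
  (tgood_s1 (gt TChk.pc293 rfl)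
  (gt TChk.pc294 rfl)))))
  (tgood_s2 (tgood_s6 (tgood_s7 (tgood_s4 (gt TChk.pc295 rfl)
  (tgood_s7 (gt TChk.pc296 rfl)
  (tgood_s4 (gt TChk.pc297 rfl)
  (tgood_s7 (gt TChk.pc298 rfl)
  (tgood_s7 (tgood_s6 (tgood_s6 (tgood_s2 (tgood_s2 (tgood_s4 (tgood_s4 (gt TChk.pc299 rfl)
  (tgood_s3 (gt TChk.pc300 rfl)
  (tgood_s4 (tgood_s5 (gt TChk.pc301 rfl)
  (tgood_s6 (tgood_s7 (gt TChk.pc302 rfl)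
  (tgood_s5 (tgood_s3 (gt TChk.pc303 rfl)
  (tgood_s4 (tgood_s3 (gt TChk.pc304 rfl)
  (tgood_s7 (gt TChk.pc305 rfl)
  (tgood_s4 (tgood_s3 (gt TChk.pc306 rfl)
  (tgood_s4 (tgood_s6 (gt TChk.pc307 rfl)
  (gt TChk.pc308 rfl))
  (gt TChk.pc309 rfl)))
  (gt TChk.pc310 rfl))))
  (gt TChk.pc311 rfl)))
  (tgood_s7 (tgood_s4 (gt TChk.pc312 rfl)
  (tgood_s2 (tgood_s5 (gt TChk.pc313 rfl)
  (tgood_s6 (tgood_s2 (gt TChk.pc314 rfl)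
  (tgood_s6 (tgood_s1 (gt TChk.pc315 rfl)
  (tgood_s5 (gt TChk.pc316 rfl)
  (tgood_s7 (gt TChk.pc317 rfl)
  (tgood_s3 (gt TChk.pc318 rfl)
  (tgood_s4 (tgood_s3 (gt TChk.pc319 rfl)
  (tgood_s1 (tgood_s4 (tgood_s2 (gt TChk.pc320 rfl)
  (tgood_s7 (gt TChk.pc321 rfl)
  (tgood_s5 (gt TChk.pc322 rfl)
  (tgood_s3 (gt TChk.pc323 rfl)
  (tgood_s4 (tgood_s6 (tgood_s1 (gt TChk.pc324 rfl)
  (tgood_s3 (gt TChk.pc325 rfl)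
  (tgood_s7 (gt TChk.pc326 rfl)
  (tgood_s7 (gt TChk.pc327 rfl)
  (tgood_s5 (tgood_s5 (gt TChk.pc328 rfl)
  (tgood_s2 (gt TChk.pc329 rfl)
  (tgood_s1 (tgood_s4 (tgood_s4 (gt TChk.pc330 rfl)
  (tgood_s2 (tgood_s7 (gt TChk.pc331 rfl)
  (tgood_s7 (tgood_s1 (tgood_s5 (tgood_s2 (tgood_s2 (tgood_s6 (tgood_s5 (gt TChk.pc332 rfl)
  (tgood_s7 (gt TChk.pc333 rfl)
  (tgood_s6 (gt TChk.pc334 rfl)
  (gt TChk.pc335 rfl))))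
  (gt TChk.pc336 rfl))
  (gt TChk.pc337 rfl))
  (gt TChk.pc338 rfl))
  (gt TChk.pc339 rfl))
  (gt TChk.pc340 rfl))
  (gt TChk.pc341 rfl)))
  (gt TChk.pc342 rfl)))
  (gt TChk.pc343 rfl))
  (gt TChk.pc344 rfl))))
  (gt TChk.pc345 rfl))))))
  (gt TChk.pc346 rfl))
  (gt TChk.pc347 rfl))))))
  (gt TChk.pc348 rfl))
  (gt TChk.pc349 rfl)))
  (gt TChk.pc350 rfl))))))
  (gt TChk.pc351 rfl)))
  (gt TChk.pc352 rfl)))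
  (gt TChk.pc353 rfl)))
  (gt TChk.pc354 rfl))))
  (gt TChk.pc355 rfl)))
  (gt TChk.pc356 rfl))))
  (gt TChk.pc357 rfl))
  (gt TChk.pc358 rfl))
  (gt TChk.pc359 rfl))
  (gt TChk.pc360 rfl))
  (gt TChk.pc361 rfl))
  (gt TChk.pc362 rfl))))))
  (gt TChk.pc363 rfl))
  (gt TChk.pc364 rfl))
  (gt TChk.pc365 rfl))))
  (tgood_s4 (gt TChk.pc366 rfl)
  (tgood_s5 (gt TChk.pc367 rfl)
  (tgood_s4 (gt TChk.pc368 rfl)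
  (tgood_s2 (tgood_s6 (tgood_s7 (gt TChk.pc369 rfl)
  (tgood_s6 (gt TChk.pc370 rfl)
  (tgood_s7 (tgood_s7 (tgood_s4 (gt TChk.pc371 rfl)
  (tgood_s5 (gt TChk.pc372 rfl)
  (tgood_s4 (gt TChk.pc373 rfl)
  (tgood_s7 (gt TChk.pc374 rfl)
  (tgood_s6 (gt TChk.pc375 rfl)
  (tgood_s6 (gt TChk.pc376 rfl)
  (tgood_s6 (gt TChk.pc377 rfl)
  (tgood_s7 (gt TChk.pc378 rfl)
  (tgood_s4 (tgood_s4 (gt TChk.pc379 rfl)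
  (tgood_s2 (gt TChk.pc380 rfl)
  (tgood_s1 (tgood_s3 (tgood_s4 (tgood_s6 (gt TChk.pc381 rfl)
  (tgood_s2 (tgood_s1 (gt TChk.pc382 rfl)
  (tgood_s4 (tgood_s1 (gt TChk.pc383 rfl)
  (tgood_s4 (tgood_s4 (gt TChk.pc384 rfl)
  (tgood_s7 (gt TChk.pc385 rfl)
  (gt TChk.pc386 rfl)))
  (gt TChk.pc387 rfl)))
  (gt TChk.pc388 rfl)))
  (gt TChk.pc389 rfl)))
  (gt TChk.pc390 rfl))
  (gt TChk.pc391 rfl))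
  (gt TChk.pc392 rfl))))
  (gt TChk.pc393 rfl))))))))))
  (tgood_s5 (gt TChk.pc394 rfl)
  (tgood_s4 (gt TChk.pc395 rfl)
  (tgood_s6 (gt TChk.pc396 rfl)
  (tgood_s2 (tgood_s4 (tgood_s6 (gt TChk.pc397 rfl)
  (tgood_s7 (tgood_s7 (gt TChk.pc398 rfl)
  (tgood_s7 (gt TChk.pc399 rfl)
  (tgood_s4 (tgood_s7 (gt TChk.pc400 rfl)
  (tgood_s6 (gt TChk.pc401 rfl)
  (gt TChk.pc402 rfl)))
  (gt TChk.pc403 rfl))))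
  (gt TChk.pc404 rfl)))
  (gt TChk.pc405 rfl))
  (tgood_s1 (tgood_s4 (tgood_s3 (tgood_s4 (tgood_s4 (gt TChk.pc406 rfl)
  (tgood_s5 (gt TChk.pc407 rfl)
  (tgood_s2 (tgood_s5 (gt TChk.pc408 rfl)
  (tgood_s3 (tgood_s4 (tgood_s4 (gt TChk.pc409 rfl)
  (tgood_s2 (tgood_s6 (gt TChk.pc410 rfl)
  (tgood_s7 (tgood_s5 (tgood_s3 (tgood_s4 (tgood_s5 (gt TChk.pc411 rfl)
  (tgood_s3 (tgood_s4 (tgood_s2 (gt TChk.pc412 rfl)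
  (tgood_s6 (gt TChk.pc413 rfl)
  (tgood_s7 (gt TChk.pc414 rfl)
  (tgood_s7 (gt TChk.pc415 rfl)
  (tgood_s1 (tgood_s3 (tgood_s1 (gt TChk.pc416 rfl)
  (tgood_s4 (tgood_s5 (gt TChk.pc417 rfl)
  (tgood_s2 (tgood_s5 (gt TChk.pc418 rfl)
  (tgood_s2 (tgood_s5 (tgood_s7 (gt TChk.pc419 rfl)
  (tgood_s3 (tgood_s4 (tgood_s3 (tgood_s7 (gt TChk.pc420 rfl)
  (tgood_s5 (tgood_s5 (gt TChk.pc421 rfl)
  (tgood_s4 (tgood_s2 (gt TChk.pc422 rfl)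
  (tgood_s2 (gt TChk.pc423 rfl)
  (tgood_s2 (tgood_s1 (tgood_s3 (tgood_s4 (tgood_s5 (tgood_s5 (tgood_s5 (gt TChk.pc424 rfl)
  (tgood_s4 (gt TChk.pc425 rfl)
  (tgood_s5 (gt TChk.pc426 rfl)
  (tgood_s6 (gt TChk.pc427 rfl)
  (tgood_s6 (gt TChk.pc428 rfl)
  (tgood_s7 (gt TChk.pc429 rfl)
  (tgood_s1 (gt TChk.pc430 rfl)
  (tgood_s7 (gt TChk.pc431 rfl)
  (tgood_s4 (tgood_s2 (tgood_s6 (gt TChk.pc432 rfl)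
  (tgood_s7 (gt TChk.pc433 rfl)
  (tgood_s7 (tgood_s7 (gt TChk.pc434 rfl)
  (gt TChk.pc435 rfl))
  (gt TChk.pc436 rfl))))
  (gt TChk.pc437 rfl))
  (gt TChk.pc438 rfl))))))))))
  (gt TChk.pc439 rfl))
  (gt TChk.pc440 rfl))
  (gt TChk.pc441 rfl))
  (gt TChk.pc442 rfl))
  (gt TChk.pc443 rfl))
  (gt TChk.pc444 rfl))))
  (gt TChk.pc445 rfl)))
  (gt TChk.pc446 rfl)))
  (gt TChk.pc447 rfl))
  (gt TChk.pc448 rfl))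
  (gt TChk.pc449 rfl)))
  (gt TChk.pc450 rfl))
  (gt TChk.pc451 rfl)))
  (gt TChk.pc452 rfl)))
  (gt TChk.pc453 rfl)))
  (gt TChk.pc454 rfl))
  (gt TChk.pc455 rfl))))))
  (gt TChk.pc456 rfl))
  (gt TChk.pc457 rfl)))
  (gt TChk.pc458 rfl))
  (gt TChk.pc459 rfl))
  (gt TChk.pc460 rfl))
  (tgood_s3 (tgood_s4 (tgood_s3 (tgood_s1 (gt TChk.pc461 rfl)
  (tgood_s4 (tgood_s5 (gt TChk.pc462 rfl)
  (tgood_s3 (tgood_s1 (tgood_s4 (tgood_s3 (tgood_s4 (tgood_s6 (gt TChk.pc463 rfl)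
  (tgood_s7 (tgood_s1 (gt TChk.pc464 rfl)
  (tgood_s4 (tgood_s7 (tgood_s7 (tgood_s5 (tgood_s2 (tgood_s1 (gt TChk.pc465 rfl)
  (tgood_s5 (gt TChk.pc466 rfl)
  (tgood_s2 (gt TChk.pc467 rfl)
  (tgood_s2 (gt TChk.pc468 rfl)
  (tgood_s1 (tgood_s4 (tgood_s3 (tgood_s6 (gt TChk.pc469 rfl)
  (tgood_s1 (gt TChk.pc470 rfl)
  (tgood_s4 (tgood_s6 (gt TChk.pc471 rfl)
  (tgood_s7 (tgood_s6 (gt TChk.pc472 rfl)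
  (tgood_s6 (gt TChk.pc473 rfl)
  (tgood_s6 (gt TChk.pc474 rfl)
  (gt TChk.pc475 rfl))))
  (gt TChk.pc476 rfl)))
  (gt TChk.pc477 rfl))))
  (gt TChk.pc478 rfl))
  (gt TChk.pc479 rfl))
  (gt TChk.pc480 rfl))))))
  (gt TChk.pc481 rfl))
  (gt TChk.pc482 rfl))
  (gt TChk.pc483 rfl))
  (gt TChk.pc484 rfl))
  (gt TChk.pc485 rfl)))
  (gt TChk.pc486 rfl)))
  (gt TChk.pc487 rfl))
  (gt TChk.pc488 rfl))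
  (gt TChk.pc489 rfl))
  (gt TChk.pc490 rfl))
  (gt TChk.pc491 rfl)))
  (gt TChk.pc492 rfl)))
  (gt TChk.pc493 rfl))
  (gt TChk.pc494 rfl))
  (gt TChk.pc495 rfl))))
  (gt TChk.pc496 rfl)))
  (gt TChk.pc497 rfl))
  (gt TChk.pc498 rfl)))
  (gt TChk.pc499 rfl))))
  (gt TChk.pc500 rfl))
  (gt TChk.pc501 rfl))
  (gt TChk.pc502 rfl))
  (gt TChk.pc503 rfl)))))))
  (gt TChk.pc504 rfl))))
  (tgood_s6 (tgood_s5 (tgood_s7 (tgood_s7 (gt TChk.pc505 rfl)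
  (tgood_s2 (tgood_s7 (gt TChk.pc506 rfl)
  (gt TChk.pc507 rfl))
  (gt TChk.pc508 rfl)))
  (gt TChk.pc509 rfl))
  (tgood_s4 (gt TChk.pc510 rfl)
  (tgood_s2 (tgood_s7 (tgood_s7 (gt TChk.pc511 rfl)
  (tgood_s7 (gt TChk.pc512 rfl)
  (gt TChk.pc513 rfl)))
  (gt TChk.pc514 rfl))
  (tgood_s4 (gt TChk.pc515 rfl)
  (tgood_s7 (tgood_s7 (gt TChk.pc516 rfl)
  (tgood_s5 (gt TChk.pc517 rfl)
  (tgood_s2 (tgood_s5 (gt TChk.pc518 rfl)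
  (tgood_s7 (gt TChk.pc519 rfl)
  (tgood_s5 (gt TChk.pc520 rfl)
  (gt TChk.pc521 rfl))))
  (gt TChk.pc522 rfl))))
  (gt TChk.pc523 rfl))))))
  (tgood_s7 (tgood_s7 (gt TChk.pc524 rfl)
  (tgood_s7 (gt TChk.pc525 rfl)
  (tgood_s5 (gt TChk.pc526 rfl)
  (tgood_s4 (gt TChk.pc527 rfl)
  (tgood_s6 (tgood_s6 (gt TChk.pc528 rfl)
  (tgood_s7 (gt TChk.pc529 rfl)
  (gt TChk.pc530 rfl)))
  (gt TChk.pc531 rfl))))))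
  (tgood_s5 (gt TChk.pc532 rfl)
  (tgood_s4 (gt TChk.pc533 rfl)
  (tgood_s2 (tgood_s6 (gt TChk.pc534 rfl)
  (gt TChk.pc535 rfl))
  (gt TChk.pc536 rfl)))))))
  (gt TChk.pc537 rfl))))))
  (gt TChk.pc538 rfl))))
  (tgood_s4 (gt TChk.pc539 rfl)
  (tgood_s3 (tgood_s2 (tgood_s7 (gt TChk.pc540 rfl)
  (tgood_s2 (tgood_s4 (tgood_s2 (gt TChk.pc541 rfl)
  (tgood_s7 (gt TChk.pc542 rfl)
  (tgood_s4 (tgood_s6 (gt TChk.pc543 rfl)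
  (gt TChk.pc544 rfl))
  (gt TChk.pc545 rfl))))
  (gt TChk.pc546 rfl))
  (tgood_s2 (tgood_s6 (tgood_s7 (gt TChk.pc547 rfl)
  (tgood_s7 (tgood_s4 (gt TChk.pc548 rfl)
  (tgood_s7 (tgood_s4 (gt TChk.pc549 rfl)
  (tgood_s6 (tgood_s4 (gt TChk.pc550 rfl)
  (tgood_s7 (gt TChk.pc551 rfl)
  (tgood_s5 (gt TChk.pc552 rfl)
  (gt TChk.pc553 rfl))))
  (gt TChk.pc554 rfl)))
  (tgood_s7 (tgood_s4 (gt TChk.pc555 rfl)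
  (tgood_s5 (tgood_s2 (tgood_s6 (gt TChk.pc556 rfl)
  (gt TChk.pc557 rfl))
  (gt TChk.pc558 rfl))
  (tgood_s4 (gt TChk.pc559 rfl)
  (tgood_s6 (tgood_s4 (gt TChk.pc560 rfl)
  (tgood_s2 (tgood_s6 (tgood_s4 (gt TChk.pc561 rfl)
  (tgood_s6 (gt TChk.pc562 rfl)
  (gt TChk.pc563 rfl)))
  (gt TChk.pc564 rfl))
  (gt TChk.pc565 rfl)))
  (tgood_s2 (tgood_s6 (gt TChk.pc566 rfl)
  (tgood_s2 (tgood_s4 (tgood_s7 (gt TChk.pc567 rfl)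
  (tgood_s5 (tgood_s2 (tgood_s4 (tgood_s6 (gt TChk.pc568 rfl)
  (tgood_s6 (gt TChk.pc569 rfl)
  (gt TChk.pc570 rfl)))
  (gt TChk.pc571 rfl))
  (gt TChk.pc572 rfl))
  (tgood_s4 (gt TChk.pc573 rfl)
  (tgood_s6 (gt TChk.pc574 rfl)
  (tgood_s2 (tgood_s4 (tgood_s6 (tgood_s6 (gt TChk.pc575 rfl)
  (gt TChk.pc576 rfl))
  (gt TChk.pc577 rfl))
  (gt TChk.pc578 rfl))
  (gt TChk.pc579 rfl))))))
  (gt TChk.pc580 rfl))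
  (gt TChk.pc581 rfl)))
  (gt TChk.pc582 rfl))))))
  (tgood_s5 (tgood_s2 (tgood_s6 (gt TChk.pc583 rfl)
  (gt TChk.pc584 rfl))
  (gt TChk.pc585 rfl))
  (tgood_s4 (gt TChk.pc586 rfl)
  (tgood_s6 (gt TChk.pc587 rfl)
  (gt TChk.pc588 rfl)))))))
  (tgood_s7 (tgood_s4 (gt TChk.pc589 rfl)
  (tgood_s6 (gt TChk.pc590 rfl)
  (tgood_s2 (tgood_s6 (gt TChk.pc591 rfl)
  (tgood_s7 (tgood_s4 (gt TChk.pc592 rfl)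
  (tgood_s2 (tgood_s7 (tgood_s5 (gt TChk.pc593 rfl)
  (tgood_s4 (gt TChk.pc594 rfl)
  (tgood_s6 (gt TChk.pc595 rfl)
  (gt TChk.pc596 rfl))))
  (gt TChk.pc597 rfl))
  (gt TChk.pc598 rfl)))
  (gt TChk.pc599 rfl)))
  (gt TChk.pc600 rfl))))
  (gt TChk.pc601 rfl))))
  (tgood_s2 (tgood_s7 (tgood_s4 (gt TChk.pc602 rfl)
  (tgood_s7 (gt TChk.pc603 rfl)
  (tgood_s1 (tgood_s2 (tgood_s7 (gt TChk.pc604 rfl)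
  (tgood_s4 (tgood_s6 (tgood_s7 (gt TChk.pc605 rfl)
  (tgood_s4 (tgood_s7 (tgood_s4 (gt TChk.pc606 rfl)
  (tgood_s6 (tgood_s6 (tgood_s6 (tgood_s2 (tgood_s7 (tgood_s7 (gt TChk.pc607 rfl)
  (tgood_s4 (gt TChk.pc608 rfl)
  (tgood_s4 (tgood_s5 (gt TChk.pc609 rfl)
  (tgood_s5 (gt TChk.pc610 rfl)
  (tgood_s4 (gt TChk.pc611 rfl)
  (tgood_s3 (tgood_s7 (tgood_s5 (gt TChk.pc612 rfl)
  (tgood_s6 (tgood_s4 (gt TChk.pc613 rfl)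
  (tgood_s6 (tgood_s5 (tgood_s7 (gt TChk.pc614 rfl)
  (tgood_s2 (gt TChk.pc615 rfl)
  (tgood_s1 (tgood_s4 (gt TChk.pc616 rfl)
  (tgood_s7 (tgood_s5 (gt TChk.pc617 rfl)
  (tgood_s3 (tgood_s1 (tgood_s2 (gt TChk.pc618 rfl)
  (tgood_s6 (tgood_s1 (tgood_s7 (tgood_s4 (tgood_s3 (gt TChk.pc619 rfl)
  (tgood_s3 (tgood_s2 (gt TChk.pc620 rfl)
  (tgood_s4 (tgood_s7 (tgood_s2 (tgood_s3 (gt TChk.pc621 rfl)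
  (tgood_s4 (tgood_s6 (tgood_s7 (tgood_s7 (gt TChk.pc622 rfl)
  (tgood_s2 (gt TChk.pc623 rfl)
  (tgood_s4 (gt TChk.pc624 rfl)
  (tgood_s7 (gt TChk.pc625 rfl)
  (tgood_s2 (gt TChk.pc626 rfl)
  (tgood_s7 (gt TChk.pc627 rfl)
  (gt TChk.pc628 rfl)))))))
  (gt TChk.pc629 rfl))
  (gt TChk.pc630 rfl))
  (gt TChk.pc631 rfl)))
  (gt TChk.pc632 rfl))
  (gt TChk.pc633 rfl))
  (gt TChk.pc634 rfl)))
  (gt TChk.pc635 rfl)))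
  (gt TChk.pc636 rfl))
  (gt TChk.pc637 rfl))
  (gt TChk.pc638 rfl))
  (gt TChk.pc639 rfl)))
  (gt TChk.pc640 rfl))
  (gt TChk.pc641 rfl)))
  (gt TChk.pc642 rfl)))
  (gt TChk.pc643 rfl))))
  (gt TChk.pc644 rfl))
  (gt TChk.pc645 rfl)))
  (gt TChk.pc646 rfl)))
  (gt TChk.pc647 rfl))
  (gt TChk.pc648 rfl)))))
  (gt TChk.pc649 rfl))))
  (gt TChk.pc650 rfl))
  (gt TChk.pc651 rfl))
  (gt TChk.pc652 rfl))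
  (gt TChk.pc653 rfl))
  (gt TChk.pc654 rfl)))
  (gt TChk.pc655 rfl))
  (gt TChk.pc656 rfl)))
  (gt TChk.pc657 rfl))
  (gt TChk.pc658 rfl)))
  (gt TChk.pc659 rfl))
  (gt TChk.pc660 rfl))))
  (tgood_s2 (tgood_s7 (gt TChk.pc661 rfl)
  (gt TChk.pc662 rfl))
  (gt TChk.pc663 rfl)))
  (gt TChk.pc664 rfl)))
  (gt TChk.pc665 rfl))))
  (gt TChk.pc666 rfl))
  (tgood_s4 (gt TChk.pc667 rfl)
  (tgood_s2 (gt TChk.pc668 rfl)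
  (tgood_s2 (tgood_s4 (gt TChk.pc669 rfl)
  (tgood_s6 (tgood_s2 (tgood_s2 (gt TChk.pc670 rfl)
  (tgood_s7 (gt TChk.pc671 rfl)
  (tgood_s7 (tgood_s5 (tgood_s7 (tgood_s4 (gt TChk.pc672 rfl)
  (tgood_s2 (gt TChk.pc673 rfl)
  (tgood_s6 (gt TChk.pc674 rfl)
  (tgood_s2 (tgood_s2 (gt TChk.pc675 rfl)
  (tgood_s6 (gt TChk.pc676 rfl)
  (tgood_s7 (gt TChk.pc677 rfl)
  (gt TChk.pc678 rfl))))
  (gt TChk.pc679 rfl)))))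
  (tgood_s2 (tgood_s2 (gt TChk.pc680 rfl)
  (tgood_s2 (gt TChk.pc681 rfl)
  (tgood_s6 (gt TChk.pc682 rfl)
  (tgood_s5 (tgood_s5 (tgood_s4 (gt TChk.pc683 rfl)
  (tgood_s2 (tgood_s7 (gt TChk.pc684 rfl)
  (gt TChk.pc685 rfl))
  (gt TChk.pc686 rfl)))
  (gt TChk.pc687 rfl))
  (gt TChk.pc688 rfl)))))
  (gt TChk.pc689 rfl)))
  (gt TChk.pc690 rfl))
  (gt TChk.pc691 rfl))))
  (gt TChk.pc692 rfl))
  (tgood_s2 (gt TChk.pc693 rfl)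
  (tgood_s6 (tgood_s2 (tgood_s5 (tgood_s2 (gt TChk.pc694 rfl)
  (tgood_s2 (tgood_s7 (tgood_s7 (gt TChk.pc695 rfl)
  (tgood_s2 (gt TChk.pc696 rfl)
  (tgood_s7 (gt TChk.pc697 rfl)
  (gt TChk.pc698 rfl))))
  (gt TChk.pc699 rfl))
  (gt TChk.pc700 rfl)))
  (gt TChk.pc701 rfl))
  (gt TChk.pc702 rfl))
  (tgood_s6 (tgood_s2 (tgood_s6 (gt TChk.pc703 rfl)
  (tgood_s2 (gt TChk.pc704 rfl)
  (tgood_s7 (tgood_s7 (gt TChk.pc705 rfl)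
  (tgood_s6 (gt TChk.pc706 rfl)
  (tgood_s2 (gt TChk.pc707 rfl)
  (tgood_s7 (gt TChk.pc708 rfl)
  (tgood_s2 (tgood_s7 (gt TChk.pc709 rfl)
  (gt TChk.pc710 rfl))
  (gt TChk.pc711 rfl))))))
  (gt TChk.pc712 rfl))))
  (gt TChk.pc713 rfl))
  (tgood_s6 (tgood_s2 (tgood_s2 (gt TChk.pc714 rfl)
  (tgood_s5 (tgood_s2 (gt TChk.pc715 rfl)
  (gt TChk.pc716 rfl))
  (gt TChk.pc717 rfl)))
  (gt TChk.pc718 rfl))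
  (tgood_s6 (gt TChk.pc719 rfl)
  (gt TChk.pc720 rfl))))))))
  (gt TChk.pc721 rfl))))))))

theorem rootIII : RootIII := by
  unfold RootIII
  exact (tgood_s5 (tgood_s2 (tgood_s5 (tgood_s2 (gt TChk.qc0 rfl)
  (tgood_s5 (tgood_s2 (gt TChk.qc1 rfl)
  (tgood_s5 (tgood_s7 (gt TChk.qc2 rfl)
  (gt TChk.qc3 rfl))
  (gt TChk.qc4 rfl)))
  (tgood_s2 (gt TChk.qc5 rfl)
  (tgood_s0 (gt TChk.qc6 rfl)
  (tgood_s6 (tgood_s7 (gt TChk.qc7 rfl)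
  (tgood_s7 (gt TChk.qc8 rfl)
  (tgood_s6 (gt TChk.qc9 rfl)
  (tgood_s3 (gt TChk.qc10 rfl)
  (tgood_s7 (gt TChk.qc11 rfl)
  (gt TChk.qc12 rfl))))))
  (tgood_s7 (gt TChk.qc13 rfl)
  (tgood_s7 (tgood_s5 (gt TChk.qc14 rfl)
  (tgood_s5 (gt TChk.qc15 rfl)
  (tgood_s1 (tgood_s3 (tgood_s6 (tgood_s6 (tgood_s7 (gt TChk.qc16 rfl)
  (tgood_s6 (gt TChk.qc17 rfl)
  (tgood_s7 (gt TChk.qc18 rfl)
  (tgood_s6 (tgood_s6 (gt TChk.qc19 rfl)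
  (gt TChk.qc20 rfl))
  (gt TChk.qc21 rfl)))))
  (gt TChk.qc22 rfl))
  (gt TChk.qc23 rfl))
  (gt TChk.qc24 rfl))
  (gt TChk.qc25 rfl))))
  (gt TChk.qc26 rfl))))))))
  (tgood_s2 (gt TChk.qc27 rfl)
  (tgood_s7 (gt TChk.qc28 rfl)
  (tgood_s6 (tgood_s6 (gt TChk.qc29 rfl)
  (tgood_s6 (gt TChk.qc30 rfl)
  (tgood_s7 (gt TChk.qc31 rfl)
  (tgood_s5 (tgood_s2 (gt TChk.qc32 rfl)
  (tgood_s0 (gt TChk.qc33 rfl)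
  (tgood_s3 (gt TChk.qc34 rfl)
  (tgood_s7 (gt TChk.qc35 rfl)
  (gt TChk.qc36 rfl)))))
  (gt TChk.qc37 rfl)))))
  (gt TChk.qc38 rfl)))))
  (tgood_s5 (tgood_s2 (tgood_s7 (tgood_s7 (gt TChk.qc39 rfl)
  (tgood_s6 (tgood_s6 (gt TChk.qc40 rfl)
  (tgood_s7 (gt TChk.qc41 rfl)
  (tgood_s0 (gt TChk.qc42 rfl)
  (tgood_s7 (gt TChk.qc43 rfl)
  (gt TChk.qc44 rfl)))))
  (gt TChk.qc45 rfl)))
  (tgood_s6 (tgood_s7 (tgood_s6 (gt TChk.qc46 rfl)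
  (tgood_s5 (gt TChk.qc47 rfl)
  (gt TChk.qc48 rfl)))
  (tgood_s6 (gt TChk.qc49 rfl)
  (tgood_s3 (gt TChk.qc50 rfl)
  (tgood_s7 (tgood_s1 (tgood_s5 (gt TChk.qc51 rfl)
  (tgood_s6 (gt TChk.qc52 rfl)
  (tgood_s3 (gt TChk.qc53 rfl)
  (tgood_s3 (gt TChk.qc54 rfl)
  (gt TChk.qc55 rfl)))))
  (gt TChk.qc56 rfl))
  (gt TChk.qc57 rfl)))))
  (tgood_s0 (gt TChk.qc58 rfl)
  (tgood_s1 (tgood_s3 (tgood_s5 (gt TChk.qc59 rfl)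
  (tgood_s7 (tgood_s4 (gt TChk.qc60 rfl)
  (tgood_s6 (tgood_s6 (tgood_s7 (tgood_s6 (tgood_s7 (tgood_s4 (gt TChk.qc61 rfl)
  (tgood_s7 (tgood_s6 (tgood_s6 (tgood_s6 (tgood_s7 (tgood_s7 (gt TChk.qc62 rfl)
  (tgood_s7 (gt TChk.qc63 rfl)
  (tgood_s6 (tgood_s7 (gt TChk.qc64 rfl)
  (tgood_s6 (tgood_s7 (gt TChk.qc65 rfl)
  (tgood_s6 (tgood_s7 (gt TChk.qc66 rfl)
  (tgood_s6 (gt TChk.qc67 rfl)
  (gt TChk.qc68 rfl)))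
  (tgood_s7 (tgood_s6 (gt TChk.qc69 rfl)
  (gt TChk.qc70 rfl))
  (gt TChk.qc71 rfl))))
  (gt TChk.qc72 rfl)))
  (tgood_s6 (tgood_s7 (gt TChk.qc73 rfl)
  (tgood_s6 (tgood_s7 (gt TChk.qc74 rfl)
  (gt TChk.qc75 rfl))
  (gt TChk.qc76 rfl)))
  (tgood_s7 (tgood_s7 (gt TChk.qc77 rfl)
  (tgood_s7 (gt TChk.qc78 rfl)
  (gt TChk.qc79 rfl)))
  (gt TChk.qc80 rfl))))))
  (gt TChk.qc81 rfl))
  (tgood_s7 (tgood_s7 (tgood_s7 (gt TChk.qc82 rfl)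
  (tgood_s7 (gt TChk.qc83 rfl)
  (tgood_s7 (tgood_s6 (tgood_s7 (tgood_s6 (tgood_s6 (gt TChk.qc84 rfl)
  (gt TChk.qc85 rfl))
  (gt TChk.qc86 rfl))
  (gt TChk.qc87 rfl))
  (gt TChk.qc88 rfl))
  (tgood_s7 (gt TChk.qc89 rfl)
  (gt TChk.qc90 rfl)))))
  (tgood_s7 (tgood_s6 (tgood_s7 (gt TChk.qc91 rfl)
  (tgood_s6 (tgood_s7 (tgood_s6 (tgood_s7 (gt TChk.qc92 rfl)
  (gt TChk.qc93 rfl))
  (gt TChk.qc94 rfl))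
  (tgood_s6 (tgood_s7 (gt TChk.qc95 rfl)
  (gt TChk.qc96 rfl))
  (gt TChk.qc97 rfl)))
  (gt TChk.qc98 rfl)))
  (gt TChk.qc99 rfl))
  (gt TChk.qc100 rfl)))
  (gt TChk.qc101 rfl)))
  (gt TChk.qc102 rfl))
  (gt TChk.qc103 rfl))
  (gt TChk.qc104 rfl)))
  (gt TChk.qc105 rfl))
  (tgood_s0 (gt TChk.qc106 rfl)
  (tgood_s7 (tgood_s4 (gt TChk.qc107 rfl)
  (tgood_s6 (tgood_s6 (tgood_s6 (gt TChk.qc108 rfl)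
  (gt TChk.qc109 rfl))
  (gt TChk.qc110 rfl))
  (gt TChk.qc111 rfl)))
  (gt TChk.qc112 rfl))))
  (gt TChk.qc113 rfl))
  (gt TChk.qc114 rfl))
  (gt TChk.qc115 rfl)))
  (gt TChk.qc116 rfl)))
  (gt TChk.qc117 rfl))
  (tgood_s3 (gt TChk.qc118 rfl)
  (tgood_s3 (gt TChk.qc119 rfl)
  (tgood_s0 (gt TChk.qc120 rfl)
  (tgood_s7 (gt TChk.qc121 rfl)
  (gt TChk.qc122 rfl)))))))))
  (gt TChk.qc123 rfl))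
  (tgood_s7 (tgood_s7 (gt TChk.qc124 rfl)
  (tgood_s6 (tgood_s6 (gt TChk.qc125 rfl)
  (tgood_s7 (gt TChk.qc126 rfl)
  (tgood_s0 (gt TChk.qc127 rfl)
  (tgood_s7 (gt TChk.qc128 rfl)
  (tgood_s6 (gt TChk.qc129 rfl)
  (tgood_s2 (tgood_s5 (tgood_s3 (gt TChk.qc130 rfl)
  (tgood_s1 (gt TChk.qc131 rfl)
  (tgood_s4 (gt TChk.qc132 rfl)
  (tgood_s2 (gt TChk.qc133 rfl)
  (tgood_s1 (gt TChk.qc134 rfl)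
  (tgood_s5 (tgood_s1 (tgood_s1 (gt TChk.qc135 rfl)
  (tgood_s7 (gt TChk.qc136 rfl)
  (tgood_s6 (tgood_s7 (gt TChk.qc137 rfl)
  (tgood_s6 (gt TChk.qc138 rfl)
  (tgood_s6 (tgood_s1 (gt TChk.qc139 rfl)
  (tgood_s7 (gt TChk.qc140 rfl)
  (tgood_s6 (gt TChk.qc141 rfl)
  (tgood_s2 (tgood_s5 (tgood_s2 (gt TChk.qc142 rfl)
  (tgood_s1 (tgood_s4 (tgood_s2 (gt TChk.qc143 rfl)
  (tgood_s1 (gt TChk.qc144 rfl)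
  (tgood_s7 (gt TChk.qc145 rfl)
  (tgood_s7 (gt TChk.qc146 rfl)
  (tgood_s6 (tgood_s7 (tgood_s7 (gt TChk.qc147 rfl)
  (tgood_s6 (tgood_s7 (gt TChk.qc148 rfl)
  (gt TChk.qc149 rfl))
  (gt TChk.qc150 rfl)))
  (tgood_s6 (gt TChk.qc151 rfl)
  (gt TChk.qc152 rfl)))
  (gt TChk.qc153 rfl))))))
  (gt TChk.qc154 rfl))
  (gt TChk.qc155 rfl)))
  (gt TChk.qc156 rfl))
  (gt TChk.qc157 rfl)))))
  (tgood_s6 (tgood_s1 (gt TChk.qc158 rfl)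
  (tgood_s7 (gt TChk.qc159 rfl)
  (tgood_s6 (tgood_s7 (gt TChk.qc160 rfl)
  (tgood_s6 (gt TChk.qc161 rfl)
  (gt TChk.qc162 rfl)))
  (gt TChk.qc163 rfl))))
  (tgood_s2 (tgood_s5 (gt TChk.qc164 rfl)
  (gt TChk.qc165 rfl))
  (gt TChk.qc166 rfl))))))
  (gt TChk.qc167 rfl))))
  (gt TChk.qc168 rfl))
  (gt TChk.qc169 rfl)))))))
  (gt TChk.qc170 rfl))
  (gt TChk.qc171 rfl)))))))
  (tgood_s7 (gt TChk.qc172 rfl)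
  (tgood_s0 (gt TChk.qc173 rfl)
  (tgood_s4 (gt TChk.qc174 rfl)
  (tgood_s2 (tgood_s5 (tgood_s2 (gt TChk.qc175 rfl)
  (tgood_s0 (gt TChk.qc176 rfl)
  (tgood_s5 (tgood_s2 (gt TChk.qc177 rfl)
  (gt TChk.qc178 rfl))
  (gt TChk.qc179 rfl))))
  (gt TChk.qc180 rfl))
  (gt TChk.qc181 rfl)))))))
  (tgood_s6 (tgood_s2 (tgood_s5 (tgood_s7 (tgood_s6 (gt TChk.qc182 rfl)
  (tgood_s2 (gt TChk.qc183 rfl)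
  (tgood_s0 (gt TChk.qc184 rfl)
  (tgood_s6 (gt TChk.qc185 rfl)
  (tgood_s7 (tgood_s6 (tgood_s1 (gt TChk.qc186 rfl)
  (tgood_s6 (gt TChk.qc187 rfl)
  (tgood_s5 (tgood_s2 (gt TChk.qc188 rfl)
  (gt TChk.qc189 rfl))
  (gt TChk.qc190 rfl))))
  (tgood_s0 (gt TChk.qc191 rfl)
  (tgood_s6 (tgood_s6 (tgood_s7 (tgood_s4 (gt TChk.qc192 rfl)
  (tgood_s5 (tgood_s2 (gt TChk.qc193 rfl)
  (gt TChk.qc194 rfl))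
  (gt TChk.qc195 rfl)))
  (gt TChk.qc196 rfl))
  (tgood_s5 (tgood_s2 (gt TChk.qc197 rfl)
  (gt TChk.qc198 rfl))
  (gt TChk.qc199 rfl)))
  (tgood_s1 (gt TChk.qc200 rfl)
  (gt TChk.qc201 rfl)))))
  (gt TChk.qc202 rfl))))))
  (tgood_s6 (gt TChk.qc203 rfl)
  (tgood_s3 (gt TChk.qc204 rfl)
  (tgood_s7 (tgood_s1 (gt TChk.qc205 rfl)
  (tgood_s3 (gt TChk.qc206 rfl)
  (tgood_s3 (tgood_s3 (gt TChk.qc207 rfl)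
  (tgood_s2 (gt TChk.qc208 rfl)
  (tgood_s5 (tgood_s6 (gt TChk.qc209 rfl)
  (tgood_s3 (gt TChk.qc210 rfl)
  (tgood_s0 (gt TChk.qc211 rfl)
  (tgood_s6 (tgood_s3 (tgood_s0 (tgood_s7 (tgood_s6 (gt TChk.qc212 rfl)
  (gt TChk.qc213 rfl))
  (gt TChk.qc214 rfl))
  (gt TChk.qc215 rfl))
  (gt TChk.qc216 rfl))
  (gt TChk.qc217 rfl)))))
  (gt TChk.qc218 rfl))))
  (gt TChk.qc219 rfl))))
  (gt TChk.qc220 rfl)))))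
  (gt TChk.qc221 rfl))
  (gt TChk.qc222 rfl))
  (tgood_s0 (gt TChk.qc223 rfl)
  (tgood_s2 (tgood_s5 (tgood_s2 (gt TChk.qc224 rfl)
  (tgood_s0 (gt TChk.qc225 rfl)
  (tgood_s7 (tgood_s7 (tgood_s6 (tgood_s6 (tgood_s7 (tgood_s5 (tgood_s2 (tgood_s5 (tgood_s2 (gt TChk.qc226 rfl)
  (tgood_s2 (gt TChk.qc227 rfl)
  (tgood_s1 (gt TChk.qc228 rfl)
  (tgood_s6 (tgood_s6 (tgood_s7 (tgood_s4 (gt TChk.qc229 rfl)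
  (tgood_s7 (gt TChk.qc230 rfl)
  (tgood_s7 (tgood_s6 (tgood_s6 (tgood_s7 (gt TChk.qc231 rfl)
  (gt TChk.qc232 rfl))
  (tgood_s7 (tgood_s6 (tgood_s6 (gt TChk.qc233 rfl)
  (tgood_s0 (gt TChk.qc234 rfl)
  (tgood_s7 (tgood_s1 (gt TChk.qc235 rfl)
  (gt TChk.qc236 rfl))
  (gt TChk.qc237 rfl))))
  (gt TChk.qc238 rfl))
  (tgood_s7 (gt TChk.qc239 rfl)
  (gt TChk.qc240 rfl))))
  (gt TChk.qc241 rfl))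
  (gt TChk.qc242 rfl))))
  (gt TChk.qc243 rfl))
  (gt TChk.qc244 rfl))
  (tgood_s0 (gt TChk.qc245 rfl)
  (tgood_s7 (tgood_s4 (gt TChk.qc246 rfl)
  (tgood_s6 (tgood_s6 (gt TChk.qc247 rfl)
  (gt TChk.qc248 rfl))
  (gt TChk.qc249 rfl)))
  (gt TChk.qc250 rfl)))))))
  (tgood_s4 (gt TChk.qc251 rfl)
  (tgood_s2 (tgood_s3 (gt TChk.qc252 rfl)
  (tgood_s1 (gt TChk.qc253 rfl)
  (tgood_s5 (tgood_s2 (gt TChk.qc254 rfl)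
  (tgood_s2 (gt TChk.qc255 rfl)
  (tgood_s1 (gt TChk.qc256 rfl)
  (tgood_s1 (tgood_s4 (tgood_s5 (tgood_s0 (tgood_s4 (gt TChk.qc257 rfl)
  (tgood_s2 (gt TChk.qc258 rfl)
  (tgood_s6 (tgood_s6 (tgood_s7 (tgood_s0 (gt TChk.qc259 rfl)
  (tgood_s7 (gt TChk.qc260 rfl)
  (tgood_s7 (tgood_s6 (tgood_s6 (gt TChk.qc261 rfl)
  (tgood_s7 (tgood_s6 (tgood_s6 (gt TChk.qc262 rfl)
  (gt TChk.qc263 rfl))
  (gt TChk.qc264 rfl))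
  (gt TChk.qc265 rfl)))
  (gt TChk.qc266 rfl))
  (gt TChk.qc267 rfl))))
  (gt TChk.qc268 rfl))
  (gt TChk.qc269 rfl))
  (gt TChk.qc270 rfl))))
  (gt TChk.qc271 rfl))
  (gt TChk.qc272 rfl))
  (gt TChk.qc273 rfl))
  (gt TChk.qc274 rfl)))))
  (gt TChk.qc275 rfl))))
  (tgood_s6 (tgood_s6 (tgood_s7 (tgood_s7 (tgood_s6 (tgood_s6 (tgood_s7 (gt TChk.qc276 rfl)
  (tgood_s6 (tgood_s7 (gt TChk.qc277 rfl)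
  (tgood_s6 (tgood_s7 (tgood_s7 (gt TChk.qc278 rfl)
  (tgood_s6 (gt TChk.qc279 rfl)
  (tgood_s6 (gt TChk.qc280 rfl)
  (gt TChk.qc281 rfl))))
  (tgood_s6 (tgood_s7 (tgood_s6 (tgood_s7 (gt TChk.qc282 rfl)
  (tgood_s6 (tgood_s7 (gt TChk.qc283 rfl)
  (gt TChk.qc284 rfl))
  (gt TChk.qc285 rfl)))
  (gt TChk.qc286 rfl))
  (tgood_s6 (tgood_s7 (gt TChk.qc287 rfl)
  (tgood_s6 (gt TChk.qc288 rfl)
  (gt TChk.qc289 rfl)))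
  (gt TChk.qc290 rfl)))
  (gt TChk.qc291 rfl)))
  (gt TChk.qc292 rfl)))
  (gt TChk.qc293 rfl)))
  (tgood_s7 (tgood_s7 (gt TChk.qc294 rfl)
  (tgood_s6 (tgood_s7 (gt TChk.qc295 rfl)
  (tgood_s6 (tgood_s7 (gt TChk.qc296 rfl)
  (tgood_s6 (tgood_s7 (gt TChk.qc297 rfl)
  (gt TChk.qc298 rfl))
  (gt TChk.qc299 rfl)))
  (gt TChk.qc300 rfl)))
  (gt TChk.qc301 rfl)))
  (tgood_s7 (gt TChk.qc302 rfl)
  (tgood_s6 (tgood_s7 (gt TChk.qc303 rfl)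
  (tgood_s6 (tgood_s7 (gt TChk.qc304 rfl)
  (tgood_s6 (tgood_s7 (gt TChk.qc305 rfl)
  (tgood_s6 (gt TChk.qc306 rfl)
  (gt TChk.qc307 rfl)))
  (gt TChk.qc308 rfl)))
  (gt TChk.qc309 rfl)))
  (gt TChk.qc310 rfl)))))
  (tgood_s0 (gt TChk.qc311 rfl)
  (tgood_s6 (tgood_s7 (tgood_s7 (gt TChk.qc312 rfl)
  (tgood_s7 (gt TChk.qc313 rfl)
  (tgood_s6 (gt TChk.qc314 rfl)
  (gt TChk.qc315 rfl))))
  (tgood_s6 (tgood_s7 (tgood_s6 (gt TChk.qc316 rfl)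
  (tgood_s7 (gt TChk.qc317 rfl)
  (gt TChk.qc318 rfl)))
  (gt TChk.qc319 rfl))
  (gt TChk.qc320 rfl)))
  (gt TChk.qc321 rfl))))
  (tgood_s7 (tgood_s6 (tgood_s6 (tgood_s7 (gt TChk.qc322 rfl)
  (tgood_s6 (tgood_s7 (gt TChk.qc323 rfl)
  (tgood_s6 (tgood_s7 (gt TChk.qc324 rfl)
  (tgood_s6 (tgood_s7 (tgood_s6 (gt TChk.qc325 rfl)
  (gt TChk.qc326 rfl))
  (gt TChk.qc327 rfl))
  (gt TChk.qc328 rfl)))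
  (gt TChk.qc329 rfl)))
  (tgood_s7 (tgood_s6 (tgood_s7 (gt TChk.qc330 rfl)
  (tgood_s6 (gt TChk.qc331 rfl)
  (gt TChk.qc332 rfl)))
  (gt TChk.qc333 rfl))
  (gt TChk.qc334 rfl))))
  (tgood_s7 (tgood_s6 (tgood_s6 (tgood_s6 (tgood_s7 (tgood_s7 (tgood_s6 (tgood_s7 (gt TChk.qc335 rfl)
  (gt TChk.qc336 rfl))
  (gt TChk.qc337 rfl))
  (tgood_s7 (gt TChk.qc338 rfl)
  (gt TChk.qc339 rfl)))
  (tgood_s6 (gt TChk.qc340 rfl)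
  (gt TChk.qc341 rfl)))
  (gt TChk.qc342 rfl))
  (tgood_s0 (gt TChk.qc343 rfl)
  (tgood_s7 (gt TChk.qc344 rfl)
  (tgood_s6 (gt TChk.qc345 rfl)
  (gt TChk.qc346 rfl)))))
  (tgood_s0 (gt TChk.qc347 rfl)
  (tgood_s6 (gt TChk.qc348 rfl)
  (gt TChk.qc349 rfl))))
  (tgood_s7 (tgood_s6 (tgood_s6 (gt TChk.qc350 rfl)
  (gt TChk.qc351 rfl))
  (gt TChk.qc352 rfl))
  (tgood_s7 (gt TChk.qc353 rfl)
  (gt TChk.qc354 rfl)))))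
  (gt TChk.qc355 rfl))
  (tgood_s6 (tgood_s7 (tgood_s6 (tgood_s6 (gt TChk.qc356 rfl)
  (tgood_s1 (gt TChk.qc357 rfl)
  (tgood_s5 (tgood_s3 (gt TChk.qc358 rfl)
  (tgood_s4 (gt TChk.qc359 rfl)
  (tgood_s3 (gt TChk.qc360 rfl)
  (tgood_s0 (gt TChk.qc361 rfl)
  (tgood_s7 (gt TChk.qc362 rfl)
  (gt TChk.qc363 rfl))))))
  (gt TChk.qc364 rfl))))
  (gt TChk.qc365 rfl))
  (gt TChk.qc366 rfl))
  (gt TChk.qc367 rfl))))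
  (gt TChk.qc368 rfl))
  (gt TChk.qc369 rfl))
  (tgood_s0 (gt TChk.qc370 rfl)
  (tgood_s7 (tgood_s6 (gt TChk.qc371 rfl)
  (gt TChk.qc372 rfl))
  (gt TChk.qc373 rfl)))))))
  (gt TChk.qc374 rfl))
  (gt TChk.qc375 rfl))
  (gt TChk.qc376 rfl))
  (gt TChk.qc377 rfl))
  (gt TChk.qc378 rfl))
  (tgood_s3 (gt TChk.qc379 rfl)
  (tgood_s6 (tgood_s7 (gt TChk.qc380 rfl)
  (tgood_s3 (gt TChk.qc381 rfl)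
  (tgood_s6 (gt TChk.qc382 rfl)
  (gt TChk.qc383 rfl))))
  (gt TChk.qc384 rfl))))
  (tgood_s3 (gt TChk.qc385 rfl)
  (tgood_s6 (tgood_s5 (tgood_s3 (gt TChk.qc386 rfl)
  (tgood_s1 (gt TChk.qc387 rfl)
  (tgood_s1 (tgood_s1 (gt TChk.qc388 rfl)
  (tgood_s4 (tgood_s4 (gt TChk.qc389 rfl)
  (tgood_s5 (gt TChk.qc390 rfl)
  (tgood_s7 (tgood_s7 (tgood_s6 (tgood_s7 (tgood_s6 (gt TChk.qc391 rfl)
  (gt TChk.qc392 rfl))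
  (gt TChk.qc393 rfl))
  (gt TChk.qc394 rfl))
  (gt TChk.qc395 rfl))
  (gt TChk.qc396 rfl))))
  (gt TChk.qc397 rfl)))
  (gt TChk.qc398 rfl))))
  (gt TChk.qc399 rfl))
  (gt TChk.qc400 rfl))))))
  (gt TChk.qc401 rfl))
  (gt TChk.qc402 rfl)))))))
  (gt TChk.qc403 rfl))

end Pool.Agent.Lib.MP_be9f18_nt
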