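import Pool.Agent.Lib.MP_be9f18_nt.Iso
import Pool.Agent.Lib.MP_be9f18_nt.TCheck

/-!
Meaning of the boxes of the second kernel checker `TCheck.lean` and the statement of its
soundness.
-/

set_option autoImplicit false

namespace Pool.Agent.Lib.MP_be9f18_nt

/-- Membership of `(a, b, f, e, d, g, h, l, c)` (here `a = a0`, `c = c0`) in a box. -/
def InBoxT (al ah bl bh fl fh el eh dl dh gl gh hl hh ll lh cl ch : ℕ)
    (a b f e d g h l c : ℝ) : Prop :=
  (al : ℝ) ≤ 1073741824 * a + 1073741824 ∧ 1073741824 * a + 1073741824 ≤ (ah : ℝ)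
  ∧ (bl : ℝ) ≤ 1073741824 * b + 1073741824 ∧ 1073741824 * b + 1073741824 ≤ (bh : ℝ)
  ∧ (fl : ℝ) ≤ 1073741824 * f + 1073741824 ∧ 1073741824 * f + 1073741824 ≤ (fh : ℝ)
  ∧ (el : ℝ) ≤ 1073741824 * e + 1073741824 ∧ 1073741824 * e + 1073741824 ≤ (eh : ℝ)
  ∧ (dl : ℝ) ≤ 1073741824 * d + 1073741824 ∧ 1073741824 * d + 1073741824 ≤ (dh : ℝ)
  ∧ (gl : ℝ) ≤ 1073741824 * g + 1073741824 ∧ 1073741824 * g + 1073741824 ≤ (gh : ℝ)
  ∧ (hl : ℝ) ≤ 1073741824 * h + 1073741824 ∧ 1073741824 * h + 1073741824 ≤ (hh : ℝ)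
  ∧ (ll : ℝ) ≤ 1073741824 * l + 1073741824 ∧ 1073741824 * l + 1073741824 ≤ (lh : ℝ)
  ∧ (cl : ℝ) ≤ 1073741824 * c + 1073741824 ∧ 1073741824 * c + 1073741824 ≤ (ch : ℝ)

/-- The target boxes of the certificates II (`md = 0`), III (`md = 1`), IV (`md = 2`). -/
def Target (md : ℕ) (a b f e d g h l c : ℝ) : Prop :=
  (md = 0 ∧ InBoxT 2147483648 2147483648 1041529570 1105954078 1072668083 1074815565 987842479 1159641169 2126008812 2168958484 1072668083 1074815565 1072668083 1074815565 1072668083 1074815565 2147483648 2147483648 a b f e d g h l c) ∨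
  (md = 1 ∧ InBoxT 0 4294967296 0 4294967296 966367642 1181116006 0 4294967296 0 4294967296 966367642 1181116006 0 4294967296 0 4294967296 0 4294967296 a b f e d g h l c) ∨
  (2 ≤ md ∧ InBoxT 0 4294967296 0 4294967296 0 4294967296 0 4294967296 0 4294967296 0 4294967296 998579897 1148903751 998579897 1148903751 0 4294967296 a b f e d g h l c)

/-- The parameter `nu` of the certificate `md`. -/
noncomputable def nuT (md : ℕ) : ℝ := if md = 0 then 1 else 0

/-- Every admissible matrix of the box with determinant at most `1` lies in the target box. -/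
def TGood (md al ah bl bh fl fh el eh dl dh gl gh hl hh ll lh cl ch : ℕ) : Prop :=
  ∀ t1 t2 t3 : ℝ, Roots t1 t2 t3 → ∀ a b f e d g h l c : ℝ,
    InBoxT al ah bl bh fl fh el eh dl dh gl gh hl hh ll lh cl ch a b f e d g h l c →
    AdmT t1 t2 t3 (a - nuT md * f) b f e d g h l (c - nuT md * h) →
    detT (a - nuT md * f) b f e d g h l (c - nuT md * h) ≤ 1 → Target md a b f e d g h l c

/-- Soundness of the second checker. -/
def TSoundStatement : Prop :=
  ∀ md : ℕ, ∀ t : TChk.T,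
    ∀ al ah bl bh fl fh el eh dl dh gl gh hl hh ll lh cl ch : ℕ,
    ah ≤ 4294967296 → bh ≤ 4294967296 → fh ≤ 4294967296 → eh ≤ 4294967296 → dh ≤ 4294967296 → gh ≤ 4294967296 →
    hh ≤ 4294967296 → lh ≤ 4294967296 → ch ≤ 4294967296 →
    TChk.check md t al ah bl bh fl fh el eh dl dh gl gh hl hh ll lh cl ch = true →
    TGood md al ah bl bh fl fh el eh dl dh gl gh hl hh ll lh cl ch

/-- The three root boxes. -/
def RootII : Prop := TGood 0 2147483648 2147483648 697932185 1471026299 429496729 1556925645 268435456 1932735284 1932735283 2426656523 214748364 1975684957 1041529569 1105954079 1041529569 1105954079 2147483648 2147483648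
def RootIII : Prop := TGood 1 2120640102 2246267896 649613803 1497869845 193273528 1954210120 649613803 1497869845 2120640102 2246267896 193273528 1954210120 1072238585 1075245063 1072238585 1075245063 2146409906 2148557390
def RootIV : Prop := TGood 2 2120640102 2246267896 649613803 1497869845 1073741824 1073741824 649613803 1497869845 2120640102 2246267896 1073741824 1073741824 193273528 1954210120 193273528 1954210120 2146409906 2148557390

section
variable {md al ah bl bh fl fh el eh dl dh gl gh hl hh ll lh cl ch q : ℕ}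

/-- Split of a box along `a`. -/
theorem tgood_s0 (g1 : TGood md al q bl bh fl fh el eh dl dh gl gh hl hh ll lh cl ch)
    (g2 : TGood md q ah bl bh fl fh el eh dl dh gl gh hl hh ll lh cl ch) :
    TGood md al ah bl bh fl fh el eh dl dh gl gh hl hh ll lh cl ch := by
  intro t1 t2 t3 hr a b f e d g h l c hb hA hd
  obtain ⟨h0, k0, h1, k1, h2, k2, h3, k3, h4, k4, h5, k5, h6, k6, h7, k7, h8, k8⟩ := hb
  rcases le_total (1073741824 * a + 1073741824) (q : ℝ) with hc | hc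
  · exact g1 t1 t2 t3 hr a b f e d g h l c ⟨h0, hc, h1, k1, h2, k2, h3, k3, h4, k4, h5, k5, h6, k6, h7, k7, h8, k8⟩ hA hd
  · exact g2 t1 t2 t3 hr a b f e d g h l c ⟨hc, k0, h1, k1, h2, k2, h3, k3, h4, k4, h5, k5, h6, k6, h7, k7, h8, k8⟩ hA hd

/-- Split of a box along `b`. -/
theorem tgood_s1 (g1 : TGood md al ah bl q fl fh el eh dl dh gl gh hl hh ll lh cl ch)
    (g2 : TGood md al ah q bh fl fh el eh dl dh gl gh hl hh ll lh cl ch) :
    TGood md al ah bl bh fl fh el eh dl dh gl gh hl hh ll lh cl ch := by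
  intro t1 t2 t3 hr a b f e d g h l c hb hA hd
  obtain ⟨h0, k0, h1, k1, h2, k2, h3, k3, h4, k4, h5, k5, h6, k6, h7, k7, h8, k8⟩ := hb
  rcases le_total (1073741824 * b + 1073741824) (q : ℝ) with hc | hc
  · exact g1 t1 t2 t3 hr a b f e d g h l c ⟨h0, k0, h1, hc, h2, k2, h3, k3, h4, k4, h5, k5, h6, k6, h7, k7, h8, k8⟩ hA hd
  · exact g2 t1 t2 t3 hr a b f e d g h l c ⟨h0, k0, hc, k1, h2, k2, h3, k3, h4, k4, h5, k5, h6, k6, h7, k7, h8, k8⟩ hA hd

/-- Split of a box along `f`. -/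
theorem tgood_s2 (g1 : TGood md al ah bl bh fl q el eh dl dh gl gh hl hh ll lh cl ch)
    (g2 : TGood md al ah bl bh q fh el eh dl dh gl gh hl hh ll lh cl ch) :
    TGood md al ah bl bh fl fh el eh dl dh gl gh hl hh ll lh cl ch := by
  intro t1 t2 t3 hr a b f e d g h l c hb hA hd
  obtain ⟨h0, k0, h1, k1, h2, k2, h3, k3, h4, k4, h5, k5, h6, k6, h7, k7, h8, k8⟩ := hb
  rcases le_total (1073741824 * f + 1073741824) (q : ℝ) with hc | hc
  · exact g1 t1 t2 t3 hr a b f e d g h l c ⟨h0, k0, h1, k1, h2, hc, h3, k3, h4, k4, h5, k5, h6, k6, h7, k7, h8, k8⟩ hA hd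
  · exact g2 t1 t2 t3 hr a b f e d g h l c ⟨h0, k0, h1, k1, hc, k2, h3, k3, h4, k4, h5, k5, h6, k6, h7, k7, h8, k8⟩ hA hd

/-- Split of a box along `e`. -/
theorem tgood_s3 (g1 : TGood md al ah bl bh fl fh el q dl dh gl gh hl hh ll lh cl ch)
    (g2 : TGood md al ah bl bh fl fh q eh dl dh gl gh hl hh ll lh cl ch) :
    TGood md al ah bl bh fl fh el eh dl dh gl gh hl hh ll lh cl ch := by
  intro t1 t2 t3 hr a b f e d g h l c hb hA hd
  obtain ⟨h0, k0, h1, k1, h2, k2, h3, k3, h4, k4, h5, k5, h6, k6, h7, k7, h8, k8⟩ := hb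
  rcases le_total (1073741824 * e + 1073741824) (q : ℝ) with hc | hc
  · exact g1 t1 t2 t3 hr a b f e d g h l c ⟨h0, k0, h1, k1, h2, k2, h3, hc, h4, k4, h5, k5, h6, k6, h7, k7, h8, k8⟩ hA hd
  · exact g2 t1 t2 t3 hr a b f e d g h l c ⟨h0, k0, h1, k1, h2, k2, hc, k3, h4, k4, h5, k5, h6, k6, h7, k7, h8, k8⟩ hA hd

/-- Split of a box along `d`. -/
theorem tgood_s4 (g1 : TGood md al ah bl bh fl fh el eh dl q gl gh hl hh ll lh cl ch)
    (g2 : TGood md al ah bl bh fl fh el eh q dh gl gh hl hh ll lh cl ch) :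
    TGood md al ah bl bh fl fh el eh dl dh gl gh hl hh ll lh cl ch := by
  intro t1 t2 t3 hr a b f e d g h l c hb hA hd
  obtain ⟨h0, k0, h1, k1, h2, k2, h3, k3, h4, k4, h5, k5, h6, k6, h7, k7, h8, k8⟩ := hb
  rcases le_total (1073741824 * d + 1073741824) (q : ℝ) with hc | hc
  · exact g1 t1 t2 t3 hr a b f e d g h l c ⟨h0, k0, h1, k1, h2, k2, h3, k3, h4, hc, h5, k5, h6, k6, h7, k7, h8, k8⟩ hA hd
  · exact g2 t1 t2 t3 hr a b f e d g h l c ⟨h0, k0, h1, k1, h2, k2, h3, k3, hc, k4, h5, k5, h6, k6, h7, k7, h8, k8⟩ hA hd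

/-- Split of a box along `g`. -/
theorem tgood_s5 (g1 : TGood md al ah bl bh fl fh el eh dl dh gl q hl hh ll lh cl ch)
    (g2 : TGood md al ah bl bh fl fh el eh dl dh q gh hl hh ll lh cl ch) :
    TGood md al ah bl bh fl fh el eh dl dh gl gh hl hh ll lh cl ch := by
  intro t1 t2 t3 hr a b f e d g h l c hb hA hd
  obtain ⟨h0, k0, h1, k1, h2, k2, h3, k3, h4, k4, h5, k5, h6, k6, h7, k7, h8, k8⟩ := hb
  rcases le_total (1073741824 * g + 1073741824) (q : ℝ) with hc | hc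
  · exact g1 t1 t2 t3 hr a b f e d g h l c ⟨h0, k0, h1, k1, h2, k2, h3, k3, h4, k4, h5, hc, h6, k6, h7, k7, h8, k8⟩ hA hd
  · exact g2 t1 t2 t3 hr a b f e d g h l c ⟨h0, k0, h1, k1, h2, k2, h3, k3, h4, k4, hc, k5, h6, k6, h7, k7, h8, k8⟩ hA hd

/-- Split of a box along `h`. -/
theorem tgood_s6 (g1 : TGood md al ah bl bh fl fh el eh dl dh gl gh hl q ll lh cl ch)
    (g2 : TGood md al ah bl bh fl fh el eh dl dh gl gh q hh ll lh cl ch) :
    TGood md al ah bl bh fl fh el eh dl dh gl gh hl hh ll lh cl ch := by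
  intro t1 t2 t3 hr a b f e d g h l c hb hA hd
  obtain ⟨h0, k0, h1, k1, h2, k2, h3, k3, h4, k4, h5, k5, h6, k6, h7, k7, h8, k8⟩ := hb
  rcases le_total (1073741824 * h + 1073741824) (q : ℝ) with hc | hc
  · exact g1 t1 t2 t3 hr a b f e d g h l c ⟨h0, k0, h1, k1, h2, k2, h3, k3, h4, k4, h5, k5, h6, hc, h7, k7, h8, k8⟩ hA hd
  · exact g2 t1 t2 t3 hr a b f e d g h l c ⟨h0, k0, h1, k1, h2, k2, h3, k3, h4, k4, h5, k5, hc, k6, h7, k7, h8, k8⟩ hA hd

/-- Split of a box along `l`. -/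
theorem tgood_s7 (g1 : TGood md al ah bl bh fl fh el eh dl dh gl gh hl hh ll q cl ch)
    (g2 : TGood md al ah bl bh fl fh el eh dl dh gl gh hl hh q lh cl ch) :
    TGood md al ah bl bh fl fh el eh dl dh gl gh hl hh ll lh cl ch := by
  intro t1 t2 t3 hr a b f e d g h l c hb hA hd
  obtain ⟨h0, k0, h1, k1, h2, k2, h3, k3, h4, k4, h5, k5, h6, k6, h7, k7, h8, k8⟩ := hb
  rcases le_total (1073741824 * l + 1073741824) (q : ℝ) with hc | hc
  · exact g1 t1 t2 t3 hr a b f e d g h l c ⟨h0, k0, h1, k1, h2, k2, h3, k3, h4, k4, h5, k5, h6, k6, h7, hc, h8, k8⟩ hA hd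
  · exact g2 t1 t2 t3 hr a b f e d g h l c ⟨h0, k0, h1, k1, h2, k2, h3, k3, h4, k4, h5, k5, h6, k6, hc, k7, h8, k8⟩ hA hd

/-- Split of a box along `c`. -/
theorem tgood_s8 (g1 : TGood md al ah bl bh fl fh el eh dl dh gl gh hl hh ll lh cl q)
    (g2 : TGood md al ah bl bh fl fh el eh dl dh gl gh hl hh ll lh q ch) :
    TGood md al ah bl bh fl fh el eh dl dh gl gh hl hh ll lh cl ch := by
  intro t1 t2 t3 hr a b f e d g h l c hb hA hd
  obtain ⟨h0, k0, h1, k1, h2, k2, h3, k3, h4, k4, h5, k5, h6, k6, h7, k7, h8, k8⟩ := hb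
  rcases le_total (1073741824 * c + 1073741824) (q : ℝ) with hc | hc
  · exact g1 t1 t2 t3 hr a b f e d g h l c ⟨h0, k0, h1, k1, h2, k2, h3, k3, h4, k4, h5, k5, h6, k6, h7, k7, h8, hc⟩ hA hd
  · exact g2 t1 t2 t3 hr a b f e d g h l c ⟨h0, k0, h1, k1, h2, k2, h3, k3, h4, k4, h5, k5, h6, k6, h7, k7, hc, k8⟩ hA hd

end

end Pool.Agent.Lib.MP_be9f18_nt
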