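import Pool.Agent.Lib.MP_be9f18_nt.TRow

/-!
Induction over the rows of a leaf of the second kernel checker (problem MP_be9f18_nt).
-/

set_option autoImplicit false

namespace Pool.Agent.Lib.MP_be9f18_nt
namespace TSound

/-- The invariant of `TChk.rows`: after `N` rows, the state represents the integers `a1 … b3`, the
coefficients of the sum of the inequalities are `A1 … B3`.  `P0, G0, e0` are the contributions of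
the rows of the other face. -/
structure Inv (N : ℕ) (P0 : ℝ) (G0 : ℤ) (e0 : ℝ) (h l c φ1 φ2 φ3 : ℝ) (HC LC CC F1 F2 F3 : ℤ)
    (Gv Gf hX lY cZ xf yf zf cs es : ℕ) (a1 a2 a3 b1 b2 b3 : ℤ) (A1 A2 A3 B1 B2 B3 eA eB : ℝ) :
    Prop where
  r1 : Rep hX a1
  r2 : Rep lY a2
  r3 : Rep cZ a3
  r4 : Rep xf b1
  r5 : Rep yf b2
  r6 : Rep zf b3
  m1 : |a1| ≤ N * 2 ^ 152
  m2 : |a2| ≤ N * 2 ^ 152
  m3 : |a3| ≤ N * 2 ^ 152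
  m4 : |b1| ≤ N * 2 ^ 152
  m5 : |b2| ≤ N * 2 ^ 152
  m6 : |b3| ≤ N * 2 ^ 152
  mes : (es : ℤ) ≤ N * 2 ^ 152
  gv : (Gv : ℤ) = HC * a1 + LC * a2 + CC * a3
  gf : 2 ^ 31 * (Gf : ℤ) = G0 + (F1 * b1 + F2 * b2 + F3 * b3)
  q1 : |2 ^ 62 * A1 - (a1 : ℝ)| ≤ 2 * eA
  q2 : |2 ^ 62 * A2 - (a2 : ℝ)| ≤ eA
  q3 : |2 ^ 62 * A3 - (a3 : ℝ)| ≤ eA
  q4 : |2 ^ 62 * B1 - (b1 : ℝ)| ≤ eB
  q5 : |2 ^ 62 * B2 - (b2 : ℝ)| ≤ eB
  q6 : |2 ^ 62 * B3 - (b3 : ℝ)| ≤ 2 * eB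
  ineq : 3 * 2 ^ 20 * (cs : ℝ) ≤ A1 * h + A2 * l + A3 * c + (P0 + (B1 * φ1 + B2 * φ2 + B3 * φ3))
  hes : 2 ^ 35 * (e0 + eA + eB) ≤ (es : ℝ)

theorem step_err {A x a : ℝ} {ai xi : ℤ} {e m : ℝ} (h1 : |2 ^ 62 * A - (ai : ℝ)| ≤ e)
    (ha : 0 ≤ a) (h2 : |2 ^ 62 * x - (xi : ℝ)| ≤ m) :
    |2 ^ 62 * (A + a * x) - ((ai : ℝ) + a * (xi : ℝ))| ≤ e + a * m := by
  have e1 : 2 ^ 62 * (A + a * x) - ((ai : ℝ) + a * (xi : ℝ))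
      = (2 ^ 62 * A - (ai : ℝ)) + a * (2 ^ 62 * x - (xi : ℝ)) := by ring
  rw [e1]
  refine (abs_add_le _ _).trans (add_le_add h1 ?_)
  rw [abs_mul, abs_of_nonneg ha]
  exact mul_le_mul_of_nonneg_left h2 ha

theorem step_err' {A x a s : ℝ} {ai xi : ℤ} {e m : ℝ} (h1 : |2 ^ 62 * A - (ai : ℝ)| ≤ e)
    (ha : 0 ≤ a) (hs : |s| ≤ 1) (h2 : |2 ^ 62 * x - (xi : ℝ)| ≤ m) :
    |2 ^ 62 * (A + a * s * x) - ((ai : ℝ) + a * s * (xi : ℝ))| ≤ e + a * m := by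
  have e1 : 2 ^ 62 * (A + a * s * x) - ((ai : ℝ) + a * s * (xi : ℝ))
      = (2 ^ 62 * A - (ai : ℝ)) + a * (s * (2 ^ 62 * x - (xi : ℝ))) := by ring
  rw [e1]
  refine (abs_add_le _ _).trans (add_le_add h1 ?_)
  rw [abs_mul, abs_of_nonneg ha, abs_mul]
  refine mul_le_mul_of_nonneg_left ?_ ha
  calc |s| * |2 ^ 62 * x - (xi : ℝ)| ≤ 1 * m := mul_le_mul hs h2 (abs_nonneg _) zero_le_one
    _ = m := one_mul m

theorem step_mag {N : ℕ} {a x t : ℤ} (h : |x| ≤ N * 2 ^ 152) (ha : |a| ≤ 2 ^ 71)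
    (ht : |t| ≤ 2 ^ 81) : |x + a * t| ≤ ((N + 1 : ℕ) : ℤ) * 2 ^ 152 := by
  have h1 : |a * t| ≤ 2 ^ 71 * 2 ^ 81 := by
    rw [abs_mul]
    exact mul_le_mul ha ht (abs_nonneg _) (by norm_num)
  have h2 : (2 : ℤ) ^ 71 * 2 ^ 81 = 2 ^ 152 := by norm_num
  rw [h2] at h1
  have h3 := abs_add_le x (a * t)
  push_cast
  linarith

/-- One step. -/
theorem inv_step {X Y Z : ℤ → ℤ → ℤ → ℝ} (hA : Approx X Y Z)
    {nnu nf ng nu sf sg : ℕ} (hnu : nu ≤ 1) (hsf : sf ≤ 1) (hsg : sg ≤ 1)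
    (hnnu : Rep nnu (-(nu : ℤ))) (hnf : Rep nf (-(sf : ℤ))) (hng : Rep ng (-(sg : ℤ)))
    {φ1 φ2 φ3 γ1 γ2 γ3 h l c : ℝ}
    {f1 f2 f3 w1 w2 w3 g1 g2 g3 u1 u2 u3 hc lc cc hw lw cw : ℕ}
    {F1 F2 F3 G1 G2 G3 HC LC CC : ℤ}
    (ef1 : Ent φ1 f1 w1 F1) (ef2 : Ent φ2 f2 w2 F2) (ef3 : Ent φ3 f3 w3 F3)
    (eg1 : Ent γ1 g1 u1 G1) (eg2 : Ent γ2 g2 u2 G2) (eg3 : Ent γ3 g3 u3 G3)
    (eh : Ent h hc hw HC) (el : Ent l lc lw LC) (ec : Ent c cc cw CC)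
    (hG : ∀ k m n : ℤ, ¬(k = 0 ∧ m = 0 ∧ n = 0) →
      1 ≤ |h * (X k m n - nu * Z k m n) + l * Y k m n + c * Z k m n| *
        max ((φ1 * X k m n + φ2 * Y k m n + φ3 * (Z k m n - sf * X k m n)) ^ 2)
          ((γ1 * X k m n + γ2 * Y k m n + γ3 * (Z k m n - sg * X k m n)) ^ 2))
    {K : ℕ → ℕ → ℕ → ℕ → ℕ → ℕ → ℕ → ℕ → ℕ → ℕ → ℕ → ℕ → Bool}
    {q z Gv Gf hX lY cZ xf yf zf cs es bad : ℕ}
    (hr : TChk.rows K nnu nf ng f1 f2 f3 w1 w2 w3 g1 g2 g3 u1 u2 u3 hc lc cc hw lw cw (q + 1)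
      z Gv Gf hX lY cZ xf yf zf cs es bad = true) :
    ∃ z' Gv' Gf' hX' lY' cZ' xf' yf' zf' cs' es' bad' : ℕ,
      TChk.rows K nnu nf ng f1 f2 f3 w1 w2 w3 g1 g2 g3 u1 u2 u3 hc lc cc hw lw cw q
        z' Gv' Gf' hX' lY' cZ' xf' yf' zf' cs' es' bad' = true ∧ bad ≤ bad' ∧
      (bad' = 0 → ∀ (N : ℕ) (P0 : ℝ) (G0 : ℤ) (e0 : ℝ) (a1 a2 a3 b1 b2 b3 : ℤ)
        (A1 A2 A3 B1 B2 B3 eA eB : ℝ),
        Inv N P0 G0 e0 h l c φ1 φ2 φ3 HC LC CC F1 F2 F3 Gv Gf hX lY cZ xf yf zf cs es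
          a1 a2 a3 b1 b2 b3 A1 A2 A3 B1 B2 B3 eA eB →
        ∃ (a1' a2' a3' b1' b2' b3' : ℤ) (A1' A2' A3' B1' B2' B3' eA' eB' : ℝ),
          Inv (N + 1) P0 G0 e0 h l c φ1 φ2 φ3 HC LC CC F1 F2 F3
            Gv' Gf' hX' lY' cZ' xf' yf' zf' cs' es'
            a1' a2' a3' b1' b2' b3' A1' A2' A3' B1' B2' B3' eA' eB') := by
  obtain ⟨k0, m0, n0, k, m, n, mn, x, y, zz, er, x1, zf1, zg, r, w, ax, ay, v3c, v3w, tf, vfw, Mg,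
    rw', a, M3, af, b, d, Mf, ek0, em0, en0, ek, em, en, emn, eX, eY, eZ, eer, eX1, eZf, eZg, er',
    ew, eax, eay, ev3c, ev3w, etf, evfw, eMg, erw, ea, eM3, eaf, eb, ed, eMf, hrec⟩ := rows_step hr
  refine ⟨_, _, _, _, _, _, _, _, _, _, _, _, hrec, Nat.le_add_right _ _, ?_⟩
  intro hbad N P0 G0 e0 a1 a2 a3 b1 b2 b3 A1 A2 A3 B1 B2 B3 eA eB hI
  have hb1 := (Nat.add_eq_zero_iff.1 hbad).2
  have hb2 := Nat.add_eq_zero_iff.1 hb1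
  have hb3 := Nat.add_eq_zero_iff.1 hb2.1
  have bk : k0 < 0x20000 := by rw [ek0]; exact Nat.mod_lt _ (by norm_num)
  have bm : m0 < 0x20000 := by rw [em0]; exact Nat.mod_lt _ (by norm_num)
  have bn : n0 < 0x20000 := by rw [en0]; exact Nat.mod_lt _ (by norm_num)
  have br : r < 0x2000 := by rw [er']; exact Nat.mod_lt _ (by norm_num)
  have bw : w < 0x100000000 := by rw [ew]; exact Nat.mod_lt _ (by norm_num)
  obtain ⟨xi, yi, zi, x1i, zfi, si, xr, yr, zr, rx, ry, rz, rx1, rzf, rb, bx, by', bz, bx1, bzf,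
    bs, hv3, haf, qx, qy, qz, qx1, qzf, hin, her, hmn⟩ :=
    row_fact (r := r) hA hnu hsf hsg hnnu hnf hng ef1 ef2 ef3 eg1 eg2 eg3 eh el ec hG bk bm bn
      ek em en emn eX eY eZ eer eX1 eZf eZg eax eay ev3c ev3w etf evfw eMg eM3 eaf eb ed eMf
      hb3.1 hb3.2 hb2.2
  have ha : (a : ℤ) = (w : ℤ) * (r : ℤ) ^ 3 := by
    rw [ea]
    simp only [Nat.mul_eq]
    push_cast
    ring
  have haR : (a : ℝ) = (w : ℝ) * (r : ℝ) ^ 3 := by exact_mod_cast ha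
  have hrw : (rw' : ℝ) = (w : ℝ) * r := by
    rw [erw, Nat.mul_eq]; push_cast; ring
  have ba : |(a : ℤ)| ≤ 2 ^ 71 := by
    rw [abs_of_nonneg (Int.natCast_nonneg _), ha]
    have h1 : (w : ℤ) ≤ 2 ^ 32 := by norm_num; omega
    have h2 : (r : ℤ) ≤ 2 ^ 13 := by norm_num; omega
    have h3 : (r : ℤ) ^ 3 ≤ (2 ^ 13) ^ 3 := pow_le_pow_left₀ (Int.natCast_nonneg _) h2 3
    calc (w : ℤ) * (r : ℤ) ^ 3 ≤ 2 ^ 32 * (2 ^ 13) ^ 3 :=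
          mul_le_mul h1 h3 (pow_nonneg (Int.natCast_nonneg _) _) (by norm_num)
      _ = 2 ^ 71 := by norm_num
  have bb : |(2 ^ 31 * (w : ℤ) * si)| ≤ 2 ^ 71 := by
    rw [abs_mul, abs_of_nonneg (mul_nonneg (by norm_num) (Int.natCast_nonneg _))]
    have h1 : (w : ℤ) ≤ 2 ^ 32 := by norm_num; omega
    calc 2 ^ 31 * (w : ℤ) * |si| ≤ (2 ^ 31 * 2 ^ 32) * 1 :=
          mul_le_mul (mul_le_mul_of_nonneg_left h1 (by norm_num)) bs (abs_nonneg _) (by norm_num)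
      _ ≤ 2 ^ 71 := by norm_num
  have bsR : |(si : ℝ)| ≤ 1 := by exact_mod_cast bs
  have wn : (0 : ℝ) ≤ 2 ^ 31 * (w : ℝ) := mul_nonneg (by norm_num) (Nat.cast_nonneg _)
  have an : (0 : ℝ) ≤ (a : ℝ) := Nat.cast_nonneg _
  have herR : (er : ℝ) = 2 ^ 35 * (mn : ℝ) := by exact_mod_cast her
  refine ⟨a1 + a * x1i, a2 + a * yi, a3 + a * zi, b1 + (2 ^ 31 * w * si) * xi,
    b2 + (2 ^ 31 * w * si) * yi, b3 + (2 ^ 31 * w * si) * zfi,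
    A1 + a * (xr - nu * zr), A2 + a * yr, A3 + a * zr,
    B1 + 2 ^ 31 * w * si * xr, B2 + 2 ^ 31 * w * si * yr, B3 + 2 ^ 31 * w * si * (zr - sf * xr),
    eA + a * mn, eB + 2 ^ 31 * w * mn, ?_⟩
  constructor
  · exact rep_add hI.r1 (rep_mul (rep_nat a) rx1)
  · exact rep_add hI.r2 (rep_mul (rep_nat a) ry)
  · exact rep_add hI.r3 (rep_mul (rep_nat a) rz)
  · exact rep_add hI.r4 (rep_mul rb rx)
  · exact rep_add hI.r5 (rep_mul rb ry)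
  · exact rep_add hI.r6 (rep_mul rb rzf)
  · exact step_mag hI.m1 ba bx1
  · exact step_mag hI.m2 ba by'
  · exact step_mag hI.m3 ba bz
  · exact step_mag hI.m4 bb bx
  · exact step_mag hI.m5 bb by'
  · exact step_mag hI.m6 bb bzf
  · have h1 : ((Nat.add es (Nat.mul (Nat.add a (Nat.mul 0x80000000 w)) er) : ℕ) : ℤ)
        = es + (a + 2 ^ 31 * w) * er := by
      simp only [Nat.add_eq, Nat.mul_eq]
      push_cast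
      ring
    rw [h1]
    have h2 : (a : ℤ) ≤ 2 ^ 71 := (le_abs_self _).trans ba
    have h3 : (w : ℤ) ≤ 2 ^ 32 := by norm_num; omega
    have h4 : (er : ℤ) ≤ 2 ^ 52 := by
      rw [her]
      have : (mn : ℤ) ≤ 2 ^ 17 := by exact_mod_cast hmn
      calc 2 ^ 35 * (mn : ℤ) ≤ 2 ^ 35 * 2 ^ 17 := mul_le_mul_of_nonneg_left this (by norm_num)
        _ = 2 ^ 52 := by norm_num
    have h5 : ((a : ℤ) + 2 ^ 31 * w) * er ≤ (2 ^ 71 + 2 ^ 31 * 2 ^ 32) * 2 ^ 52 :=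
      mul_le_mul (add_le_add h2 (mul_le_mul_of_nonneg_left h3 (by norm_num))) h4
        (Int.natCast_nonneg _) (by norm_num)
    have h6 : ((2 : ℤ) ^ 71 + 2 ^ 31 * 2 ^ 32) * 2 ^ 52 ≤ 2 ^ 152 := by norm_num
    have := hI.mes
    push_cast
    linarith
  · have h1 : ((Nat.add Gv (Nat.mul a v3c) : ℕ) : ℤ) = Gv + a * v3c := by
      simp only [Nat.add_eq, Nat.mul_eq]
      push_cast
      ring
    rw [h1, hI.gv, hv3]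
    ring
  · have h1 : ((Nat.add Gf (Nat.mul w af) : ℕ) : ℤ) = Gf + w * af := by
      simp only [Nat.add_eq, Nat.mul_eq]
      push_cast
      ring
    rw [h1, haf, mul_add, hI.gf]
    ring
  · have := step_err hI.q1 an qx1
    push_cast
    refine this.trans (le_of_eq (by ring))
  · have := step_err hI.q2 an qy
    push_cast
    exact this
  · have := step_err hI.q3 an qz
    push_cast
    exact this
  · have e : ((b1 + (2 ^ 31 * w * si) * xi : ℤ) : ℝ)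
        = (b1 : ℝ) + 2 ^ 31 * (w : ℝ) * (si : ℝ) * (xi : ℝ) := by push_cast; ring
    rw [e]
    exact step_err' hI.q4 wn bsR qx
  · have e : ((b2 + (2 ^ 31 * w * si) * yi : ℤ) : ℝ)
        = (b2 : ℝ) + 2 ^ 31 * (w : ℝ) * (si : ℝ) * (yi : ℝ) := by push_cast; ring
    rw [e]
    exact step_err' hI.q5 wn bsR qy
  · have e : ((b3 + (2 ^ 31 * w * si) * zfi : ℤ) : ℝ)
        = (b3 : ℝ) + 2 ^ 31 * (w : ℝ) * (si : ℝ) * (zfi : ℝ) := by push_cast; ring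
    have e2 : 2 * (eB + 2 ^ 31 * (w : ℝ) * mn) = 2 * eB + 2 ^ 31 * (w : ℝ) * (2 * mn) := by ring
    rw [e, e2]
    exact step_err' hI.q6 wn bsR qzf
  · have h1 : ((Nat.add cs rw' : ℕ) : ℝ) = cs + (w : ℝ) * r := by
      rw [Nat.add_eq, Nat.cast_add, hrw]
    rw [h1, haR]
    have := hI.ineq
    linarith
  · have h1 : ((Nat.add es (Nat.mul (Nat.add a (Nat.mul 0x80000000 w)) er) : ℕ) : ℝ)
        = es + (a + 2 ^ 31 * w) * er := by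
      simp only [Nat.add_eq, Nat.mul_eq]
      push_cast
      ring
    rw [h1, herR]
    have := hI.hes
    linarith

/-- All rows of one face. -/
theorem inv_rows {X Y Z : ℤ → ℤ → ℤ → ℝ} (hA : Approx X Y Z)
    {nnu nf ng nu sf sg : ℕ} (hnu : nu ≤ 1) (hsf : sf ≤ 1) (hsg : sg ≤ 1)
    (hnnu : Rep nnu (-(nu : ℤ))) (hnf : Rep nf (-(sf : ℤ))) (hng : Rep ng (-(sg : ℤ)))
    {φ1 φ2 φ3 γ1 γ2 γ3 h l c : ℝ}
    {f1 f2 f3 w1 w2 w3 g1 g2 g3 u1 u2 u3 hc lc cc hw lw cw : ℕ}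
    {F1 F2 F3 G1 G2 G3 HC LC CC : ℤ}
    (ef1 : Ent φ1 f1 w1 F1) (ef2 : Ent φ2 f2 w2 F2) (ef3 : Ent φ3 f3 w3 F3)
    (eg1 : Ent γ1 g1 u1 G1) (eg2 : Ent γ2 g2 u2 G2) (eg3 : Ent γ3 g3 u3 G3)
    (eh : Ent h hc hw HC) (el : Ent l lc lw LC) (ec : Ent c cc cw CC)
    (hG : ∀ k m n : ℤ, ¬(k = 0 ∧ m = 0 ∧ n = 0) →
      1 ≤ |h * (X k m n - nu * Z k m n) + l * Y k m n + c * Z k m n| *
        max ((φ1 * X k m n + φ2 * Y k m n + φ3 * (Z k m n - sf * X k m n)) ^ 2)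
          ((γ1 * X k m n + γ2 * Y k m n + γ3 * (Z k m n - sg * X k m n)) ^ 2))
    {K : ℕ → ℕ → ℕ → ℕ → ℕ → ℕ → ℕ → ℕ → ℕ → ℕ → ℕ → ℕ → Bool}
    (hK : ∀ z Gv Gf hX lY cZ xf yf zf cs es bad : ℕ,
      K z Gv Gf hX lY cZ xf yf zf cs es bad = true → bad = 0) (q : ℕ) :
    ∀ z Gv Gf hX lY cZ xf yf zf cs es bad : ℕ,
    TChk.rows K nnu nf ng f1 f2 f3 w1 w2 w3 g1 g2 g3 u1 u2 u3 hc lc cc hw lw cw q
      z Gv Gf hX lY cZ xf yf zf cs es bad = true →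
    bad = 0 ∧ ∀ (N : ℕ) (P0 : ℝ) (G0 : ℤ) (e0 : ℝ) (a1 a2 a3 b1 b2 b3 : ℤ)
        (A1 A2 A3 B1 B2 B3 eA eB : ℝ),
        Inv N P0 G0 e0 h l c φ1 φ2 φ3 HC LC CC F1 F2 F3 Gv Gf hX lY cZ xf yf zf cs es
          a1 a2 a3 b1 b2 b3 A1 A2 A3 B1 B2 B3 eA eB →
        ∃ (z' Gv' Gf' hX' lY' cZ' xf' yf' zf' cs' es' : ℕ)
          (a1' a2' a3' b1' b2' b3' : ℤ) (A1' A2' A3' B1' B2' B3' eA' eB' : ℝ),
          K z' Gv' Gf' hX' lY' cZ' xf' yf' zf' cs' es' 0 = true ∧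
          Inv (N + q) P0 G0 e0 h l c φ1 φ2 φ3 HC LC CC F1 F2 F3
            Gv' Gf' hX' lY' cZ' xf' yf' zf' cs' es'
            a1' a2' a3' b1' b2' b3' A1' A2' A3' B1' B2' B3' eA' eB' := by
  induction q with
  | zero =>
    intro z Gv Gf hX lY cZ xf yf zf cs es bad hr
    have hr' : K z Gv Gf hX lY cZ xf yf zf cs es bad = true := hr
    have hb := hK _ _ _ _ _ _ _ _ _ _ _ _ hr'
    subst hb
    refine ⟨rfl, ?_⟩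
    intro N P0 G0 e0 a1 a2 a3 b1 b2 b3 A1 A2 A3 B1 B2 B3 eA eB hI
    exact ⟨_, _, _, _, _, _, _, _, _, _, _, _, _, _, _, _, _, _, _, _, _, _, _, _, _, hr', hI⟩
  | succ q ih =>
    intro z Gv Gf hX lY cZ xf yf zf cs es bad hr
    obtain ⟨z', Gv', Gf', hX', lY', cZ', xf', yf', zf', cs', es', bad', hr', hle, hstep⟩ :=
      inv_step hA hnu hsf hsg hnnu hnf hng ef1 ef2 ef3 eg1 eg2 eg3 eh el ec hG hr
    obtain ⟨hb, hrest⟩ := ih _ _ _ _ _ _ _ _ _ _ _ _ hr'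
    refine ⟨Nat.eq_zero_of_le_zero (hb ▸ hle), ?_⟩
    intro N P0 G0 e0 a1 a2 a3 b1 b2 b3 A1 A2 A3 B1 B2 B3 eA eB hI
    obtain ⟨a1', a2', a3', b1', b2', b3', A1', A2', A3', B1', B2', B3', eA', eB', hI'⟩ :=
      hstep hb _ _ _ _ _ _ _ _ _ _ _ _ _ _ _ _ _ _ hI
    have := hrest _ _ _ _ _ _ _ _ _ _ _ _ _ _ _ _ _ _ hI'
    have e : N + 1 + q = N + (q + 1) := by ring
    rw [e] at this
    exact this

end TSound
end Pool.Agent.Lib.MP_be9f18_nt
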