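import Pool.Agent.Lib.MP_be9f18_nt.TFin

/-!
Soundness of the `L` and `S` leaves of the second kernel checker (problem MP_be9f18_nt).
-/

set_option autoImplicit false

namespace Pool.Agent.Lib.MP_be9f18_nt
namespace TSound

theorem leafL_sound {X Y Z : ℤ → ℤ → ℤ → ℝ} (hA : Approx X Y Z)
    {nu nnu y : ℕ} (hnu : nu ≤ 1) (hnnu : Rep nnu (-(nu : ℤ)))
    {a b f e d g h l c : ℝ}
    {ac bc fc ec dc gc hc lc cc aw bw fw ew dw gw hw lw cw : ℕ}
    {AC BC FC EC DC GC HC LC CC : ℤ}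
    (ea : Ent a ac aw AC) (eb : Ent b bc bw BC) (ef : Ent f fc fw FC)
    (ee : Ent e ec ew EC) (ed : Ent d dc dw DC) (eg : Ent g gc gw GC)
    (eh : Ent h hc hw HC) (el : Ent l lc lw LC) (ecc : Ent c cc cw CC)
    (hG : ∀ k m n : ℤ, ¬(k = 0 ∧ m = 0 ∧ n = 0) →
      1 ≤ |h * (X k m n - nu * Z k m n) + l * Y k m n + c * Z k m n| *
        max ((a * X k m n + b * Y k m n + f * (Z k m n - nu * X k m n)) ^ 2)
          ((e * X k m n + d * Y k m n + g * Z k m n) ^ 2))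
    (hdet : TCore.det (a - nu * f) b f e d g h l (c - nu * h) ≤ 1)
    (hr : TChk.leafL y nu ac bc fc ec dc gc hc lc cc aw bw fw ew dw gw hw lw cw nnu = true) :
    False := by
  have h0 : Rep 0 (-((0 : ℕ) : ℤ)) := rep_of (by norm_num)
  have hG1 : ∀ k m n : ℤ, ¬(k = 0 ∧ m = 0 ∧ n = 0) →
      1 ≤ |h * (X k m n - nu * Z k m n) + l * Y k m n + c * Z k m n| *
        max ((a * X k m n + b * Y k m n + f * (Z k m n - nu * X k m n)) ^ 2)
          ((e * X k m n + d * Y k m n + g * (Z k m n - (0 : ℕ) * X k m n)) ^ 2) := by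
    intro k m n hk
    rw [Nat.cast_zero, zero_mul, sub_zero]
    exact hG k m n hk
  have hG2 : ∀ k m n : ℤ, ¬(k = 0 ∧ m = 0 ∧ n = 0) →
      1 ≤ |h * (X k m n - nu * Z k m n) + l * Y k m n + c * Z k m n| *
        max ((e * X k m n + d * Y k m n + g * (Z k m n - (0 : ℕ) * X k m n)) ^ 2)
          ((a * X k m n + b * Y k m n + f * (Z k m n - nu * X k m n)) ^ 2) := by
    intro k m n hk
    rw [max_comm]
    exact hG1 k m n hk
  have hK2 : ∀ aX bY fZ : ℕ, ∀ z Gv Gf hX lY cZ xf yf zf cs es bad : ℕ,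
      (fun _ Gv Gf hX lY cZ eX dY gZ cs es bad =>
          TChk.fin nu ac bc fc ec dc gc hc lc cc aw bw fw ew dw gw hw lw cw nnu
            (Nat.mul 0x1000000 (Nat.mod (Nat.shiftRight y 8) 0x10000000000)) Gv Gf hX lY cZ aX bY
            fZ eX dY gZ cs es bad : ℕ → ℕ → ℕ → ℕ → ℕ → ℕ → ℕ → ℕ → ℕ → ℕ → ℕ → ℕ → Bool)
        z Gv Gf hX lY cZ xf yf zf cs es bad = true → bad = 0 := by
    intro aX bY fZ z Gv Gf hX lY cZ xf yf zf cs es bad h1
    have h2 : TChk.fin nu ac bc fc ec dc gc hc lc cc aw bw fw ew dw gw hw lw cw nnu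
            (Nat.mul 0x1000000 (Nat.mod (Nat.shiftRight y 8) 0x10000000000)) Gv Gf hX lY cZ aX bY
            fZ xf yf zf cs es bad = true := h1
    obtain ⟨_, _, _, _, _, _, _, _, _, _, _, _, _, _, _, _, _, _, _, _, _, _, _, _, _, _, _, _, _,
      _, _, _, _, _, _, _, h3⟩ := fin_dec h2
    exact (Nat.add_eq_zero_iff.1 h3).1
  have key1 := inv_rows hA hnu hnu (Nat.zero_le 1) hnnu hnnu h0 ea eb ef ee ed eg eh el ecc hG1
    (K := fun z Gv Gf hX lY cZ aX bY fZ cs es bad =>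
      TChk.rows (fun _ Gv Gf hX lY cZ eX dY gZ cs es bad =>
          TChk.fin nu ac bc fc ec dc gc hc lc cc aw bw fw ew dw gw hw lw cw nnu
            (Nat.mul 0x1000000 (Nat.mod (Nat.shiftRight y 8) 0x10000000000)) Gv Gf hX lY cZ aX bY
            fZ eX dY gZ cs es bad)
        nnu 0 nnu ec dc gc ew dw gw ac bc fc aw bw fw hc lc cc hw lw cw
        (Nat.mod (Nat.shiftRight y 4) 0x10) z Gv Gf hX lY cZ 0 0 0 cs es bad)
    (fun z Gv Gf hX lY cZ aX bY fZ cs es bad h1 =>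
      (inv_rows hA hnu (Nat.zero_le 1) hnu hnnu h0 hnnu ee ed eg ea eb ef eh el ecc hG2
        (hK2 aX bY fZ) _ _ _ _ _ _ _ _ _ _ _ _ _ h1).1) (Nat.mod y 0x10)
    (Nat.shiftRight y 0x30) 0 0 0 0 0 0 0 0 0 0 0 hr
  have init : Inv 0 0 0 0 h l c a b f HC LC CC AC BC FC 0 0 0 0 0 0 0 0 0 0
      0 0 0 0 0 0 0 0 0 0 0 0 0 0 := by
    constructor <;> first
      | exact rep_of (by norm_num)
      | norm_num
  obtain ⟨z', Gv1, Gf1, hX1, lY1, cZ1, aX, bY, fZ, cs1, es1, p1, p2, p3, p4, p5, p6,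
    P1, P2, P3, P4, P5, P6, eA1, eB1, hrow2, I1⟩ := key1.2 _ _ _ _ _ _ _ _ _ _ _ _ _ _ _ _ _ _ init
  have hrow2' : TChk.rows (fun _ Gv Gf hX lY cZ eX dY gZ cs es bad =>
          TChk.fin nu ac bc fc ec dc gc hc lc cc aw bw fw ew dw gw hw lw cw nnu
            (Nat.mul 0x1000000 (Nat.mod (Nat.shiftRight y 8) 0x10000000000)) Gv Gf hX lY cZ aX bY
            fZ eX dY gZ cs es bad)
        nnu 0 nnu ec dc gc ew dw gw ac bc fc aw bw fw hc lc cc hw lw cw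
        (Nat.mod (Nat.shiftRight y 4) 0x10) z' Gv1 Gf1 hX1 lY1 cZ1 0 0 0 cs1 es1 0 = true := hrow2
  have key2 := (inv_rows hA hnu (Nat.zero_le 1) hnu hnnu h0 hnnu ee ed eg ea eb ef eh el ecc hG2
        (hK2 aX bY fZ) _ _ _ _ _ _ _ _ _ _ _ _ _ hrow2').2
  have mid : Inv (0 + Nat.mod y 0x10) (P4 * a + P5 * b + P6 * f) (AC * p4 + BC * p5 + FC * p6) eB1
      h l c e d g HC LC CC EC DC GC Gv1 Gf1 hX1 lY1 cZ1 0 0 0 cs1 es1
      p1 p2 p3 0 0 0 P1 P2 P3 0 0 0 eA1 0 := by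
    have hN : (0 : ℤ) ≤ ((0 + Nat.mod y 0x10 : ℕ) : ℤ) * 2 ^ 152 :=
      mul_nonneg (Int.natCast_nonneg _) (by norm_num)
    refine ⟨I1.r1, I1.r2, I1.r3, rep_of (by norm_num), rep_of (by norm_num), rep_of (by norm_num),
      I1.m1, I1.m2, I1.m3, by rw [abs_zero]; exact hN, by rw [abs_zero]; exact hN,
      by rw [abs_zero]; exact hN, I1.mes, I1.gv, ?_, I1.q1, I1.q2, I1.q3, by norm_num,
      by norm_num, by norm_num, ?_, ?_⟩
    · rw [I1.gf]; ring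
    · have := I1.ineq
      linarith
    · have := I1.hes
      linarith
  obtain ⟨z'', Gv2, Gf2, hX2, lY2, cZ2, eX, dY, gZ, cs2, es2, a1, a2, a3, b1, b2, b3,
    A1, A2, A3, B1, B2, B3, eA, eB, hfin, I2⟩ := key2 _ _ _ _ _ _ _ _ _ _ _ _ _ _ _ _ _ _ mid
  have bmu : Nat.mul 0x1000000 (Nat.mod (Nat.shiftRight y 8) 0x10000000000) ≤ 2 ^ 64 := by
    have h1 : Nat.mod (Nat.shiftRight y 8) 0x10000000000 < 0x10000000000 :=
      Nat.mod_lt _ (by norm_num)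
    calc Nat.mul 0x1000000 (Nat.mod (Nat.shiftRight y 8) 0x10000000000)
        ≤ 0x1000000 * 0x10000000000 := Nat.mul_le_mul le_rfl h1.le
      _ = 2 ^ 64 := by norm_num
  have n1 : Nat.mod y 0x10 < 0x10 := Nat.mod_lt _ (by norm_num)
  have n2 : Nat.mod (Nat.shiftRight y 4) 0x10 < 0x10 := Nat.mod_lt _ (by norm_num)
  exact fin_sound hnu hnnu bmu ea eb ef ee ed eg eh el ecc (by omega) (by omega) I1 I2 hdet hfin

theorem leafS_sound {X Y Z : ℤ → ℤ → ℤ → ℝ} (hA : Approx X Y Z)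
    {nu nnu y : ℕ} (hnu : nu ≤ 1) (hnnu : Rep nnu (-(nu : ℤ)))
    {a b f e d g h l c : ℝ}
    {ac bc fc ec dc gc hc lc cc aw bw fw ew dw gw hw lw cw : ℕ}
    {AC BC FC EC DC GC HC LC CC : ℤ}
    (ea : Ent a ac aw AC) (eb : Ent b bc bw BC) (ef : Ent f fc fw FC)
    (ee : Ent e ec ew EC) (ed : Ent d dc dw DC) (eg : Ent g gc gw GC)
    (eh : Ent h hc hw HC) (el : Ent l lc lw LC) (ecc : Ent c cc cw CC)
    (hr : TChk.leafS y ac bc fc ec dc gc hc lc cc aw bw fw ew dw gw hw lw cw nnu = true) :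
    ∃ k m n : ℤ, ¬(k = 0 ∧ m = 0 ∧ n = 0) ∧
      G (a * X k m n + b * Y k m n + f * (Z k m n - nu * X k m n))
        (e * X k m n + d * Y k m n + g * Z k m n)
        (h * (X k m n - nu * Z k m n) + l * Y k m n + c * Z k m n) < 1 := by
  obtain ⟨k0, m0, n0, k, m, n, mn, x, yy, z, er, X1, Zf, ax, ay, az, M3, M1, M2, ek0, em0, en0,
    ek, em, en, emn, eX, eY, eZ, eer, eX1, eZf, eax, eay, eaz, eM3, eM1, eM2, ht⟩ := leafS_dec hr
  have bk : k0 < 0x20000 := by rw [ek0]; exact Nat.mod_lt _ (by norm_num)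
  have bm : m0 < 0x20000 := by rw [em0]; exact Nat.mod_lt _ (by norm_num)
  have bn : n0 < 0x20000 := by rw [en0]; exact Nat.mod_lt _ (by norm_num)
  obtain ⟨K, M, N, hK, hM, hN, hmn, her, hmn17, rX, rY, rZ, bX, bY, bZ⟩ :=
    coords bk bm bn ek em en emn eX eY eZ eer
  obtain ⟨rX1, bX1⟩ := twist hnu hnnu rX rZ bX bZ
  obtain ⟨rZf, bZf⟩ := twist hnu hnnu rZ rX bZ bX
  rw [← eX1] at rX1
  rw [← eZf] at rZf
  have h89 : (2 : ℤ) ^ 80 ≤ 2 ^ 81 := by norm_num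
  have bX' := bX.trans h89
  have bY' := bY.trans h89
  have bZ' := bZ.trans h89
  have h9 : (2 : ℤ) ^ 81 < 2 ^ 255 := by norm_num
  have hmnR : (mn : ℝ) = |(M : ℝ)| + |(N : ℝ)| := by exact_mod_cast hmn
  have qx := hA.hx K M N
  have qy := hA.hy K M N
  have qz := hA.hz K M N
  rw [← hmnR] at qx qy qz
  have qx1 := twist_real (s := nu) hnu qx qz
  have qzf := twist_real (s := nu) hnu qz qx
  have A3 := form_abs eh.bnd el.bnd ecc.bnd bX1 bY' bZ'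
  have R3 : Rep (Nat.add (Nat.add (Nat.mul hc X1) (Nat.mul lc yy)) (Nat.mul cc z))
      (HC * (Xi K M N - nu * Zi K M N) + LC * Yi M N + CC * Zi K M N) :=
    rep_add (rep_add (rep_mul eh.rep rX1) (rep_mul el.rep rY)) (rep_mul ecc.rep rZ)
  have AF := form_abs ea.bnd eb.bnd ef.bnd bX' bY' bZf
  have RF : Rep (Nat.add (Nat.add (Nat.mul ac x) (Nat.mul bc yy)) (Nat.mul fc Zf))
      (AC * Xi K M N + BC * Yi M N + FC * (Zi K M N - nu * Xi K M N)) :=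
    rep_add (rep_add (rep_mul ea.rep rX) (rep_mul eb.rep rY)) (rep_mul ef.rep rZf)
  have AG := form_abs ee.bnd ed.bnd eg.bnd bX' bY' bZ'
  have RG : Rep (Nat.add (Nat.add (Nat.mul ec x) (Nat.mul dc yy)) (Nat.mul gc z))
      (EC * Xi K M N + DC * Yi M N + GC * Zi K M N) :=
    rep_add (rep_add (rep_mul ee.rep rX) (rep_mul ed.rep rY)) (rep_mul eg.rep rZ)
  have aX := ab_eq rX (lt_of_le_of_lt bX' h9)
  have aY := ab_eq rY (lt_of_le_of_lt bY' h9)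
  have aZ := ab_eq rZ (lt_of_le_of_lt bZ' h9)
  have aX1 := ab_eq rX1 (lt_of_le_of_lt bX1 h9)
  have aZf := ab_eq rZf (lt_of_le_of_lt bZf h9)
  have a3 := ab_eq R3 A3
  have aF := ab_eq RF AF
  have aG := ab_eq RG AG
  have B3 := form_real eh el ecc qx1 qy qz (E := (mn : ℝ)) (by linarith)
  have BF := form_real ea eb ef qx qy qzf (E := (mn : ℝ)) (by linarith)
  have mn0 : (0 : ℝ) ≤ mn := Nat.cast_nonneg _
  have BG := form_real ee ed eg qx qy qz (E := (mn : ℝ)) (by linarith)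
  have w3 : (M3 : ℝ) = |((HC * (Xi K M N - nu * Zi K M N) + LC * Yi M N + CC * Zi K M N : ℤ) : ℝ)|
      + ((hw : ℝ) * |((Xi K M N - nu * Zi K M N : ℤ) : ℝ)|
      + (lw : ℝ) * |((Yi M N : ℤ) : ℝ)| + (cw : ℝ) * |((Zi K M N : ℤ) : ℝ)|
      + 2 ^ 35 * (mn : ℝ)) := by
    have : (M3 : ℤ) = |HC * (Xi K M N - nu * Zi K M N) + LC * Yi M N + CC * Zi K M N|
        + ((hw : ℤ) * |Xi K M N - nu * Zi K M N| + (lw : ℤ) * |Yi M N|
        + (cw : ℤ) * |Zi K M N| + 2 ^ 35 * (mn : ℤ)) := by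
      rw [eM3, ← a3, ← aX1, ← aZ, ← aY, ← her, eay, eaz]
      simp only [Nat.add_eq, Nat.mul_eq]
      push_cast
      ring
    exact_mod_cast this
  have w1 : (M1 : ℝ) = |((AC * Xi K M N + BC * Yi M N + FC * (Zi K M N - nu * Xi K M N) : ℤ) : ℝ)|
      + ((aw : ℝ) * |((Xi K M N : ℤ) : ℝ)|
      + (bw : ℝ) * |((Yi M N : ℤ) : ℝ)| + (fw : ℝ) * |((Zi K M N - nu * Xi K M N : ℤ) : ℝ)|
      + 2 ^ 35 * (mn : ℝ)) := by
    have : (M1 : ℤ) = |AC * Xi K M N + BC * Yi M N + FC * (Zi K M N - nu * Xi K M N)|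
        + ((aw : ℤ) * |Xi K M N| + (bw : ℤ) * |Yi M N|
        + (fw : ℤ) * |Zi K M N - nu * Xi K M N| + 2 ^ 35 * (mn : ℤ)) := by
      rw [eM1, ← aF, ← aX, ← aZf, ← aY, ← her, eay, eax]
      simp only [Nat.add_eq, Nat.mul_eq]
      push_cast
      ring
    exact_mod_cast this
  have w2 : (M2 : ℝ) = |((EC * Xi K M N + DC * Yi M N + GC * Zi K M N : ℤ) : ℝ)|
      + ((ew : ℝ) * |((Xi K M N : ℤ) : ℝ)|
      + (dw : ℝ) * |((Yi M N : ℤ) : ℝ)| + (gw : ℝ) * |((Zi K M N : ℤ) : ℝ)|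
      + 2 ^ 35 * (mn : ℝ)) := by
    have : (M2 : ℤ) = |EC * Xi K M N + DC * Yi M N + GC * Zi K M N|
        + ((ew : ℤ) * |Xi K M N| + (dw : ℤ) * |Yi M N|
        + (gw : ℤ) * |Zi K M N| + 2 ^ 35 * (mn : ℤ)) := by
      rw [eM2, ← aG, ← aX, ← aZ, ← aY, ← her, eay, eax, eaz]
      simp only [Nat.add_eq, Nat.mul_eq]
      push_cast
      ring
    exact_mod_cast this
  obtain ⟨ht1, ht2⟩ := Nat.add_eq_zero_iff.1 ht
  obtain ⟨ht3, ht4⟩ := Nat.add_eq_zero_iff.1 ht2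
  have tst : ∀ P : ℕ, Nat.sub (Nat.mul M3 (Nat.mul P P))
        0x7fffffffffffffffffffffffffffffffffffffffffffffffffffffffffffffffffffff = 0 →
      (M3 : ℝ) * (P : ℝ) ^ 2 < ((2 : ℝ) ^ 93) ^ 3 := by
    intro P hP
    have h1 := Nat.le_of_sub_eq_zero hP
    simp only [Nat.mul_eq] at h1
    have h2 : M3 * P ^ 2 < (2 ^ 93) ^ 3 := by
      calc M3 * P ^ 2 = M3 * (P * P) := by ring
        _ ≤ _ := h1
        _ < (2 ^ 93) ^ 3 := by norm_num
    have h3 : ((M3 * P ^ 2 : ℕ) : ℝ) < (((2 ^ 93) ^ 3 : ℕ) : ℝ) := by exact_mod_cast h2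
    push_cast at h3
    norm_num at h3 ⊢
    exact h3
  refine ⟨K, M, N, ?_, ?_⟩
  · rintro ⟨hK0, hM0, hN0⟩
    have h1 := Nat.le_of_sub_eq_zero ht1
    have h2 : (((k0 - 0x10000) + (0x10000 - k0) : ℕ) : ℤ) = 0 := by
      rw [natabs_eq, ← hK, hK0]; simp
    have h3 : (mn : ℤ) = 0 := by rw [hmn, hM0, hN0]; simp
    have h4 : (Nat.add (Nat.add (Nat.sub k0 0x10000) (Nat.sub 0x10000 k0)) mn) = 0 := by
      simp only [Nat.add_eq, Nat.sub_eq]
      omega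
    rw [h4] at h1
    exact absurd h1 (by norm_num)
  · exact TCore.small_G (T := 2 ^ 93) (by norm_num) B3 BF BG
      (by rw [← w3, ← w1]; exact tst _ ht3) (by rw [← w3, ← w2]; exact tst _ ht4)

end TSound
end Pool.Agent.Lib.MP_be9f18_nt
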