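import Pool.Agent.Lib.MP_be9f18_nt.TCore
import Pool.Agent.Lib.MP_be9f18_nt.TGood

/-!
Modular arithmetic behind the second kernel checker (problem MP_be9f18_nt): signed integers are
represented by naturals modulo `2 ^ 256`.
-/

set_option autoImplicit false

namespace Pool.Agent.Lib.MP_be9f18_nt
namespace TSound

/-- `x` represents the integer `v` modulo `2 ^ 256`. -/
def Rep (x : ℕ) (v : ℤ) : Prop := (x : ℤ) ≡ v [ZMOD 2 ^ 256]

/-- the absolute value as computed by the checker -/
def ab (x : ℕ) : ℕ :=
  Nat.add
    (Nat.sub
      (Nat.mod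
        (Nat.add x 0x8000000000000000000000000000000000000000000000000000000000000000)
        0x10000000000000000000000000000000000000000000000000000000000000000)
      0x8000000000000000000000000000000000000000000000000000000000000000)
    (Nat.sub
      0x8000000000000000000000000000000000000000000000000000000000000000
      (Nat.mod
        (Nat.add x 0x8000000000000000000000000000000000000000000000000000000000000000)
        0x10000000000000000000000000000000000000000000000000000000000000000))

theorem rep_nat (x : ℕ) : Rep x (x : ℤ) := Int.ModEq.refl _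

theorem rep_add {x y : ℕ} {v w : ℤ} (h : Rep x v) (h' : Rep y w) :
    Rep (Nat.add x y) (v + w) := by
  have : ((Nat.add x y : ℕ) : ℤ) = (x : ℤ) + (y : ℤ) := by
    rw [Nat.add_eq]; push_cast; ring
  unfold Rep
  rw [this]
  exact Int.ModEq.add h h'

theorem rep_mul {x y : ℕ} {v w : ℤ} (h : Rep x v) (h' : Rep y w) :
    Rep (Nat.mul x y) (v * w) := by
  have : ((Nat.mul x y : ℕ) : ℤ) = (x : ℤ) * (y : ℤ) := by
    rw [Nat.mul_eq]; push_cast; ring
  unfold Rep
  rw [this]
  exact Int.ModEq.mul h h'

theorem rep_congr {x : ℕ} {v w : ℤ} (h : Rep x v) (e : v = w) : Rep x w := e ▸ h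

theorem rep_of {x : ℕ} {v : ℤ} (h : (x : ℤ) % 2 ^ 256 = v % 2 ^ 256) : Rep x v := h

/-- shift by half the modulus -/
theorem shift_eq {x : ℕ} {v : ℤ} (h : Rep x v) (hv : |v| < 2 ^ 255) :
    ((Nat.mod
        (Nat.add x 0x8000000000000000000000000000000000000000000000000000000000000000)
        0x10000000000000000000000000000000000000000000000000000000000000000 : ℕ) : ℤ)
      = v + 2 ^ 255 := by
  have e1 : ((Nat.mod
        (Nat.add x 0x8000000000000000000000000000000000000000000000000000000000000000)
        0x10000000000000000000000000000000000000000000000000000000000000000 : ℕ) : ℤ)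
      = ((x : ℤ) + 2 ^ 255) % 2 ^ 256 := by
    rw [Nat.add_eq]
    show (((x + _) % _ : ℕ) : ℤ) = _
    push_cast
    norm_num
  rw [e1, (Int.ModEq.add_right (2 ^ 255) h : ((x : ℤ) + 2 ^ 255) % 2 ^ 256 = _)]
  have := abs_lt.mp hv
  exact Int.emod_eq_of_lt (by linarith [this.1]) (by linarith [this.2])

theorem ab_eq {x : ℕ} {v : ℤ} (h : Rep x v) (hv : |v| < 2 ^ 255) : ((ab x : ℕ) : ℤ) = |v| := by
  have e := shift_eq h hv
  unfold ab
  generalize hy : (Nat.mod
        (Nat.add x 0x8000000000000000000000000000000000000000000000000000000000000000)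
        0x10000000000000000000000000000000000000000000000000000000000000000 : ℕ) = y at *
  rw [Nat.add_eq, Nat.sub_eq, Nat.sub_eq]
  rcases le_total 0 v with h0 | h0
  · rw [abs_of_nonneg h0]
    have : (2 : ℤ) ^ 255
      = 0x8000000000000000000000000000000000000000000000000000000000000000 := by norm_num
    rw [this] at e
    omega
  · rw [abs_of_nonpos h0]
    have : (2 : ℤ) ^ 255
      = 0x8000000000000000000000000000000000000000000000000000000000000000 := by norm_num
    rw [this] at e
    omega

/-- reduction modulo `2 ^ 256` -/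
theorem mod_eq {x : ℕ} {v : ℤ} (h : Rep x v) (h0 : 0 ≤ v) (hv : v < 2 ^ 256) :
    ((Nat.mod x 0x10000000000000000000000000000000000000000000000000000000000000000 : ℕ) : ℤ)
      = v := by
  have e1 : ((Nat.mod x 0x10000000000000000000000000000000000000000000000000000000000000000 : ℕ)
      : ℤ) = (x : ℤ) % 2 ^ 256 := by
    show (((x) % _ : ℕ) : ℤ) = _
    push_cast
    norm_num
  rw [e1, (h : (x : ℤ) % 2 ^ 256 = _)]
  exact Int.emod_eq_of_lt h0 hv

/-- if the reduction is small and the value is small, they agree -/
theorem mod_eq' {x : ℕ} {v : ℤ} (h : Rep x v) (hv : |v| < 2 ^ 255)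
    (hs : (Nat.mod x 0x10000000000000000000000000000000000000000000000000000000000000000 : ℕ)
      ≤ 0x100000000000000000000000000000000) :
    ((Nat.mod x 0x10000000000000000000000000000000000000000000000000000000000000000 : ℕ) : ℤ)
      = v := by
  have := abs_lt.mp hv
  rcases le_or_gt 0 v with h0 | h0
  · exact mod_eq h h0 (by linarith [this.2])
  · exfalso
    have e1 : ((Nat.mod x
      0x10000000000000000000000000000000000000000000000000000000000000000 : ℕ) : ℤ)
        = (x : ℤ) % 2 ^ 256 := by
      show (((x) % _ : ℕ) : ℤ) = _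
      push_cast
      norm_num
    have e2 : (x : ℤ) % 2 ^ 256 = v + 2 ^ 256 := by
      rw [(h : (x : ℤ) % 2 ^ 256 = _), ← Int.add_emod_right]
      exact Int.emod_eq_of_lt (by linarith [this.1]) (by linarith)
    rw [e2] at e1
    have h3 : ((Nat.mod x
      0x10000000000000000000000000000000000000000000000000000000000000000 : ℕ) : ℤ)
        ≤ 0x100000000000000000000000000000000 := by exact_mod_cast hs
    rw [e1] at h3
    have : (2 : ℤ) ^ 255 ≤ v + 2 ^ 256 := by linarith [this.1]
    norm_num at this h3
    linarith

/-- the final test: `v` is negative -/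
theorem neg_of_test {x : ℕ} {v : ℤ} (h : Rep x v) (hv : v < 2 ^ 255)
    (ht : Nat.sub 0x8000000000000000000000000000000000000000000000000000000000000000
      (Nat.mod x 0x10000000000000000000000000000000000000000000000000000000000000000) = 0) :
    v < 0 := by
  by_contra h0
  push Not at h0
  have e := mod_eq h h0 (by linarith)
  have h1 := Nat.le_of_sub_eq_zero ht
  have h2 : ((0x8000000000000000000000000000000000000000000000000000000000000000 : ℕ) : ℤ)
    ≤ v := by rw [← e]; exact_mod_cast h1
  norm_num at h2 hv
  linarith

end TSound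
end Pool.Agent.Lib.MP_be9f18_nt
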