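import Pool.Agent.Lib.MP_be9f18_nt.Defs

/-!
High precision enclosures of the roots, and the rounded constants of the second checker
(problem MP_be9f18_nt).
-/

set_option autoImplicit false

namespace Pool.Agent.Lib.MP_be9f18_nt
namespace TRoots

theorem aux {t a : ℝ} (ht : t ^ 3 + t ^ 2 - 2 * t - 1 = 0) :
    (t - a) * (t ^ 2 + t * a + a ^ 2 + t + a - 2) = -(a ^ 3 + a ^ 2 - 2 * a - 1) := by
  linear_combination ht

theorem lt_of_neg {t a : ℝ} (ht : t ^ 3 + t ^ 2 - 2 * t - 1 = 0)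
    (hK : 0 < t ^ 2 + t * a + a ^ 2 + t + a - 2) (ha : a ^ 3 + a ^ 2 - 2 * a - 1 < 0) : a < t := by
  have h := aux (a := a) ht
  by_contra hc
  push Not at hc
  nlinarith [mul_nonneg (sub_nonneg.2 hc) hK.le]

theorem lt_of_pos {t a : ℝ} (ht : t ^ 3 + t ^ 2 - 2 * t - 1 = 0)
    (hK : 0 < t ^ 2 + t * a + a ^ 2 + t + a - 2) (ha : 0 < a ^ 3 + a ^ 2 - 2 * a - 1) : t < a := by
  have h := aux (a := a) ht
  by_contra hc
  push Not at hc
  nlinarith [mul_nonneg (sub_nonneg.2 hc) hK.le]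

theorem lt_of_neg' {t a : ℝ} (ht : t ^ 3 + t ^ 2 - 2 * t - 1 = 0)
    (hK : t ^ 2 + t * a + a ^ 2 + t + a - 2 < 0) (ha : a ^ 3 + a ^ 2 - 2 * a - 1 < 0) : t < a := by
  have h := aux (a := a) ht
  by_contra hc
  push Not at hc
  nlinarith [mul_nonneg (sub_nonneg.2 hc) (neg_nonneg.2 hK.le)]

theorem lt_of_pos' {t a : ℝ} (ht : t ^ 3 + t ^ 2 - 2 * t - 1 = 0)
    (hK : t ^ 2 + t * a + a ^ 2 + t + a - 2 < 0) (ha : 0 < a ^ 3 + a ^ 2 - 2 * a - 1) : a < t := by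
  have h := aux (a := a) ht
  by_contra hc
  push Not at hc
  nlinarith [mul_nonneg (sub_nonneg.2 hc) (neg_nonneg.2 hK.le)]

theorem K1 {t a : ℝ} (h1 : 1246 / 1000 < t) (h3 : 1246 / 1000 < a) :
    0 < t ^ 2 + t * a + a ^ 2 + t + a - 2 := by
  nlinarith [mul_pos (by linarith : 0 < t) (by linarith : 0 < a), sq_nonneg t, sq_nonneg a]

theorem K2 {t a : ℝ} (h1 : -1802 / 1000 < t) (h2 : t < -1801 / 1000) (h3 : -1802 / 1000 < a)
    (h4 : a < -1801 / 1000) : 0 < t ^ 2 + t * a + a ^ 2 + t + a - 2 := by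
  nlinarith [mul_pos (by linarith : 0 < -1801 / 1000 - t) (by linarith : 0 < -1801 / 1000 - a),
    sq_nonneg (t + 18 / 10), sq_nonneg (a + 18 / 10)]

theorem K3 {t a : ℝ} (h1 : -446 / 1000 < t) (h2 : t < -445 / 1000) (h3 : -446 / 1000 < a)
    (h4 : a < -445 / 1000) : t ^ 2 + t * a + a ^ 2 + t + a - 2 < 0 := by
  nlinarith [mul_pos (by linarith : 0 < t + 446 / 1000) (by linarith : 0 < -445 / 1000 - t),
    mul_pos (by linarith : 0 < a + 446 / 1000) (by linarith : 0 < -445 / 1000 - a),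
    mul_pos (by linarith : 0 < a + 446 / 1000) (by linarith : 0 < -445 / 1000 - t)]

variable {t1 t2 t3 : ℝ}

theorem b1 (R : Roots t1 t2 t3) : 5888694685417438890991 / 2 ^ 72 < t1 ∧
    t1 < 5888694685417438890992 / 2 ^ 72 :=
  ⟨lt_of_neg R.r1 (K1 R.l1 (by norm_num)) (by norm_num),
    lt_of_pos R.r1 (K1 R.l1 (by norm_num)) (by norm_num)⟩

theorem b2 (R : Roots t1 t2 t3) : -8509410367782785984228 / 2 ^ 72 < t2 ∧
    t2 < -8509410367782785984227 / 2 ^ 72 :=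
  ⟨lt_of_neg R.r2 (K2 R.l2 R.u2 (by norm_num) (by norm_num)) (by norm_num),
    lt_of_pos R.r2 (K2 R.l2 R.u2 (by norm_num) (by norm_num)) (by norm_num)⟩

theorem b3 (R : Roots t1 t2 t3) : -2101650800504298120460 / 2 ^ 72 < t3 ∧
    t3 < -2101650800504298120459 / 2 ^ 72 :=
  ⟨lt_of_pos' R.r3 (K3 R.l3 R.u3 (by norm_num) (by norm_num)) (by norm_num),
    lt_of_neg' R.r3 (K3 R.l3 R.u3 (by norm_num) (by norm_num)) (by norm_num)⟩

theorem s1 (R : Roots t1 t2 t3) : (5888694685417438890991 / 2 ^ 72) ^ 2 < t1 ^ 2 ∧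
    t1 ^ 2 < (5888694685417438890992 / 2 ^ 72) ^ 2 :=
  ⟨pow_lt_pow_left₀ (b1 R).1 (by norm_num) two_ne_zero,
    pow_lt_pow_left₀ (b1 R).2 (by have := R.l1; linarith) two_ne_zero⟩

theorem s2 (R : Roots t1 t2 t3) : (8509410367782785984227 / 2 ^ 72) ^ 2 < t2 ^ 2 ∧
    t2 ^ 2 < (8509410367782785984228 / 2 ^ 72) ^ 2 := by
  have e : t2 ^ 2 = (-t2) ^ 2 := by ring
  have h := b2 R
  rw [e]
  exact ⟨pow_lt_pow_left₀ (by linarith [h.2]) (by norm_num) two_ne_zero,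
    pow_lt_pow_left₀ (by linarith [h.1]) (by have := R.u2; linarith) two_ne_zero⟩

theorem s3 (R : Roots t1 t2 t3) : (2101650800504298120459 / 2 ^ 72) ^ 2 < t3 ^ 2 ∧
    t3 ^ 2 < (2101650800504298120460 / 2 ^ 72) ^ 2 := by
  have e : t3 ^ 2 = (-t3) ^ 2 := by ring
  have h := b3 R
  rw [e]
  exact ⟨pow_lt_pow_left₀ (by linarith [h.2]) (by norm_num) two_ne_zero,
    pow_lt_pow_left₀ (by linarith [h.1]) (by have := R.u3; linarith) two_ne_zero⟩

theorem XA_err (R : Roots t1 t2 t3) :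
    |2 ^ 60 * ((t1 + t2) / 2) - (-319911582319988659)| ≤ 1 / 2 := by
  have h1 := b1 R; have h2 := b2 R
  rw [abs_le]; norm_num at h1 h2 ⊢
  constructor <;> linarith [h1.1, h1.2, h2.1, h2.2]

theorem YA_err (R : Roots t1 t2 t3) :
    |2 ^ 60 * ((t1 - t2) / 2) - 1757581183251980576| ≤ 1 / 2 := by
  have h1 := b1 R; have h2 := b2 R
  rw [abs_le]; norm_num at h1 h2 ⊢
  constructor <;> linarith [h1.1, h1.2, h2.1, h2.2]

theorem ZA_err (R : Roots t1 t2 t3) :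
    |2 ^ 60 * t3 - (-513098339966869658)| ≤ 1 / 2 := by
  have h1 := b3 R
  rw [abs_le]; norm_num at h1 ⊢
  constructor <;> linarith [h1.1, h1.2]

theorem XB_err (R : Roots t1 t2 t3) :
    |2 ^ 60 * (-(t1 ^ 2 + t2 ^ 2) / 2) - (-2768128639696255081)| ≤ 1 / 2 := by
  have h1 := s1 R; have h2 := s2 R
  rw [abs_le]; norm_num at h1 h2 ⊢
  constructor <;> linarith [h1.1, h1.2, h2.1, h2.2]

theorem YB_err (R : Roots t1 t2 t3) :
    |2 ^ 60 * (-(t1 ^ 2 - t2 ^ 2) / 2) - 975383970449430788| ≤ 1 / 2 := by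
  have h1 := s1 R; have h2 := s2 R
  rw [abs_le]; norm_num at h1 h2 ⊢
  constructor <;> linarith [h1.1, h1.2, h2.1, h2.2]

theorem ZB_err (R : Roots t1 t2 t3) :
    |2 ^ 60 * (-t3 ^ 2) - (-228350243641724718)| ≤ 1 / 2 := by
  have h1 := s3 R
  rw [abs_le]; norm_num at h1 ⊢
  constructor <;> linarith [h1.1, h1.2]

theorem comb {x a b A B : ℝ} (k m n : ℤ) (hx : x = k + m * a + n * b)
    (ha : |2 ^ 60 * a - A| ≤ 1 / 2) (hb : |2 ^ 60 * b - B| ≤ 1 / 2) :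
    |2 ^ 60 * x - ((k : ℝ) * 2 ^ 60 + m * A + n * B)| ≤ (|(m : ℝ)| + |(n : ℝ)|) / 2 := by
  have e : 2 ^ 60 * x - ((k : ℝ) * 2 ^ 60 + m * A + n * B) =
      m * (2 ^ 60 * a - A) + n * (2 ^ 60 * b - B) := by rw [hx]; ring
  rw [e]
  refine (abs_add_le _ _).trans ?_
  rw [abs_mul, abs_mul]
  have h1 := mul_le_mul_of_nonneg_left ha (abs_nonneg (m : ℝ))
  have h2 := mul_le_mul_of_nonneg_left hb (abs_nonneg (n : ℝ))
  linarith

/-- `X` -/
theorem X_err (R : Roots t1 t2 t3) (k m n : ℤ) :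
    |2 ^ 60 * ((yv t1 k m n + yv t2 k m n) / 2) -
      ((k : ℝ) * 2 ^ 60 + m * (-319911582319988659) + n * (-2768128639696255081))| ≤
      (|(m : ℝ)| + |(n : ℝ)|) / 2 :=
  comb k m n (by unfold yv; ring) (XA_err R) (XB_err R)

/-- `Y` -/
theorem Y_err (R : Roots t1 t2 t3) (k m n : ℤ) :
    |2 ^ 60 * ((yv t1 k m n - yv t2 k m n) / 2) -
      ((m : ℝ) * 1757581183251980576 + n * 975383970449430788)| ≤
      (|(m : ℝ)| + |(n : ℝ)|) / 2 := by
  have := comb (x := (yv t1 k m n - yv t2 k m n) / 2) 0 m n (by unfold yv; push_cast; ring)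
    (YA_err R) (YB_err R)
  simpa using this

/-- `Z` -/
theorem Z_err (R : Roots t1 t2 t3) (k m n : ℤ) :
    |2 ^ 60 * yv t3 k m n -
      ((k : ℝ) * 2 ^ 60 + m * (-513098339966869658) + n * (-228350243641724718))| ≤
      (|(m : ℝ)| + |(n : ℝ)|) / 2 :=
  comb k m n (by unfold yv; ring) (ZA_err R) (ZB_err R)

end TRoots
end Pool.Agent.Lib.MP_be9f18_nt
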