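import Pool.Agent.Lib.MP_be9f18_nt.TRow0

/-!
One row of the second kernel checker (problem MP_be9f18_nt): coordinates of the lattice point,
enclosures of the values of the linear forms, and the inequality obtained from a valid row.
-/

set_option autoImplicit false

namespace Pool.Agent.Lib.MP_be9f18_nt
namespace TSound

/-- integer approximation of `2 ^ 62 X` -/
def Xi (k m n : ℤ) : ℤ :=
  k * 2 ^ 62 + m * (-1279646329279954635) + n * (-11072514558785020325)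

/-- integer approximation of `2 ^ 62 Y` -/
def Yi (m n : ℤ) : ℤ := m * 7030324733007922302 + n * 3901535881797723150

/-- integer approximation of `2 ^ 62 Z` -/
def Zi (k m n : ℤ) : ℤ :=
  k * 2 ^ 62 + m * (-2052393359867478633) + n * (-913400974566898870)

/-- The real coordinates are approximated by the integer ones. -/
structure Approx (X Y Z : ℤ → ℤ → ℤ → ℝ) : Prop where
  hx : ∀ k m n : ℤ, |2 ^ 62 * X k m n - Xi k m n| ≤ |(m : ℝ)| + |(n : ℝ)|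
  hy : ∀ k m n : ℤ, |2 ^ 62 * Y k m n - Yi m n| ≤ |(m : ℝ)| + |(n : ℝ)|
  hz : ∀ k m n : ℤ, |2 ^ 62 * Z k m n - Zi k m n| ≤ |(m : ℝ)| + |(n : ℝ)|

/-- An entry `t` of the matrix with its centre `v` (represented by `x`) and half width `w`. -/
structure Ent (t : ℝ) (x w : ℕ) (v : ℤ) : Prop where
  rep : Rep x v
  bnd : |v| + w ≤ 3 * 2 ^ 31
  err : |2 ^ 31 * t - (v : ℝ)| ≤ (w : ℝ)

theorem natabs_eq {k0 : ℕ} : (((k0 - 0x10000) + (0x10000 - k0) : ℕ) : ℤ) = |(k0 : ℤ) - 65536| := by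
  rcases le_total (k0 : ℤ) 65536 with h | h
  · rw [abs_of_nonpos (by linarith)]
    omega
  · rw [abs_of_nonneg (by linarith)]
    omega

/-- Coordinates of a lattice point as computed by the checker. -/
theorem coords {k0 m0 n0 k m n mn X Y Z er : ℕ}
    (bk : k0 < 0x20000) (bm : m0 < 0x20000) (bn : n0 < 0x20000)
    (ek : k = Nat.add k0 0xffffffffffffffffffffffffffffffffffffffffffffffffffffffffffff0000)
    (em : m = Nat.add m0 0xffffffffffffffffffffffffffffffffffffffffffffffffffffffffffff0000)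
    (en : n = Nat.add n0 0xffffffffffffffffffffffffffffffffffffffffffffffffffffffffffff0000)
    (emn : mn = Nat.add (Nat.add (Nat.sub m0 0x10000) (Nat.sub 0x10000 m0)) (Nat.add (Nat.sub n0
        0x10000) (Nat.sub 0x10000 n0)))
    (eX : X = Nat.add (Nat.add (Nat.mul k 0x4000000000000000) (Nat.mul m
        0xffffffffffffffffffffffffffffffffffffffffffffffffee3dc8718122c135)) (Nat.mul n
        0xffffffffffffffffffffffffffffffffffffffffffffffff665686ac69471e5b))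
    (eY : Y = Nat.add (Nat.mul m 0x6190bb18ae94847e) (Nat.mul n 0x36250a3698fe640e))
    (eZ : Z = Nat.add (Nat.add (Nat.mul k 0x4000000000000000) (Nat.mul m
        0xffffffffffffffffffffffffffffffffffffffffffffffffe3846f1cfdba7d97)) (Nat.mul n
        0xfffffffffffffffffffffffffffffffffffffffffffffffff352f2a72d71c34a))
    (eer : er = Nat.mul 0x800000000 mn) :
    ∃ K M N : ℤ, K = (k0 : ℤ) - 65536 ∧ M = (m0 : ℤ) - 65536 ∧ N = (n0 : ℤ) - 65536 ∧
      (mn : ℤ) = |M| + |N| ∧ (er : ℤ) = 2 ^ 35 * (mn : ℤ) ∧ mn ≤ 2 ^ 17 ∧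
      Rep X (Xi K M N) ∧ Rep Y (Yi M N) ∧ Rep Z (Zi K M N) ∧
      |Xi K M N| ≤ 2 ^ 80 ∧ |Yi M N| ≤ 2 ^ 80 ∧ |Zi K M N| ≤ 2 ^ 80 := by
  have q1 : Rep 0xffffffffffffffffffffffffffffffffffffffffffffffffffffffffffff0000 (-65536) :=
    rep_of (by norm_num)
  have q2 : Rep 0x4000000000000000 (2 ^ 62) := rep_of (by norm_num)
  have q3 : Rep 0xffffffffffffffffffffffffffffffffffffffffffffffffee3dc8718122c135
    (-1279646329279954635) := rep_of (by norm_num)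
  have q4 : Rep 0xffffffffffffffffffffffffffffffffffffffffffffffff665686ac69471e5b
    (-11072514558785020325) := rep_of (by norm_num)
  have q5 : Rep 0x6190bb18ae94847e 7030324733007922302 := rep_of (by norm_num)
  have q6 : Rep 0x36250a3698fe640e 3901535881797723150 := rep_of (by norm_num)
  have q7 : Rep 0xffffffffffffffffffffffffffffffffffffffffffffffffe3846f1cfdba7d97
    (-2052393359867478633) := rep_of (by norm_num)
  have q8 : Rep 0xfffffffffffffffffffffffffffffffffffffffffffffffff352f2a72d71c34a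
    (-913400974566898870) := rep_of (by norm_num)
  have rk : Rep k ((k0 : ℤ) - 65536) := by
    rw [ek]; exact rep_congr (rep_add (rep_nat k0) q1) (by ring)
  have rm : Rep m ((m0 : ℤ) - 65536) := by
    rw [em]; exact rep_congr (rep_add (rep_nat m0) q1) (by ring)
  have rn : Rep n ((n0 : ℤ) - 65536) := by
    rw [en]; exact rep_congr (rep_add (rep_nat n0) q1) (by ring)
  have amn : (mn : ℤ) = |(m0 : ℤ) - 65536| + |(n0 : ℤ) - 65536| := by
    rw [emn, ← natabs_eq, ← natabs_eq]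
    rw [Nat.add_eq, Nat.add_eq, Nat.add_eq, Nat.sub_eq, Nat.sub_eq, Nat.sub_eq, Nat.sub_eq]
    rw [Nat.cast_add]
  have bK : |(k0 : ℤ) - 65536| ≤ 65536 := by
    rw [abs_le]; constructor <;> omega
  have bM : |(m0 : ℤ) - 65536| ≤ 65536 := by
    rw [abs_le]; constructor <;> omega
  have bN : |(n0 : ℤ) - 65536| ≤ 65536 := by
    rw [abs_le]; constructor <;> omega
  refine ⟨_, _, _, rfl, rfl, rfl, amn, ?_, ?_, ?_, ?_, ?_, ?_, ?_, ?_⟩
  · rw [eer, Nat.mul_eq]; push_cast; norm_num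
  · have : (mn : ℤ) ≤ 2 ^ 17 := by rw [amn]; norm_num; linarith
    exact_mod_cast this
  · rw [eX]; exact rep_add (rep_add (rep_mul rk q2) (rep_mul rm q3)) (rep_mul rn q4)
  · rw [eY]; exact rep_add (rep_mul rm q5) (rep_mul rn q6)
  · rw [eZ]; exact rep_add (rep_add (rep_mul rk q2) (rep_mul rm q7)) (rep_mul rn q8)
  · generalize (k0 : ℤ) - 65536 = K at *
    generalize (m0 : ℤ) - 65536 = M at *
    generalize (n0 : ℤ) - 65536 = N at *
    unfold Xi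
    rw [abs_le] at *
    constructor <;> norm_num <;> linarith [bK.1, bK.2, bM.1, bM.2, bN.1, bN.2]
  · generalize (m0 : ℤ) - 65536 = M at *
    generalize (n0 : ℤ) - 65536 = N at *
    unfold Yi
    rw [abs_le] at *
    constructor <;> norm_num <;> linarith [bM.1, bM.2, bN.1, bN.2]
  · generalize (k0 : ℤ) - 65536 = K at *
    generalize (m0 : ℤ) - 65536 = M at *
    generalize (n0 : ℤ) - 65536 = N at *
    unfold Zi
    rw [abs_le] at *
    constructor <;> norm_num <;> linarith [bK.1, bK.2, bM.1, bM.2, bN.1, bN.2]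

/-- value of `x + (-s) y` -/
theorem twist {x y nu : ℕ} {s : ℕ} {v w : ℤ} (hs : s ≤ 1) (hn : Rep nu (-(s : ℤ)))
    (hx : Rep x v) (hy : Rep y w) (bx : |v| ≤ 2 ^ 80) (by' : |w| ≤ 2 ^ 80) :
    Rep (Nat.add x (Nat.mul nu y)) (v - s * w) ∧ |v - s * w| ≤ 2 ^ 81 := by
  refine ⟨rep_congr (rep_add hx (rep_mul hn hy)) (by ring), ?_⟩
  rw [abs_le] at *
  interval_cases s <;> constructor <;> norm_num <;> norm_num at bx by' <;>
    linarith [bx.1, bx.2, by'.1, by'.2]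

theorem twist_real {x y : ℝ} {s : ℕ} {v w : ℤ} {e : ℝ} (hs : s ≤ 1)
    (hx : |2 ^ 62 * x - (v : ℝ)| ≤ e) (hy : |2 ^ 62 * y - (w : ℝ)| ≤ e) :
    |2 ^ 62 * (x - s * y) - ((v - s * w : ℤ) : ℝ)| ≤ 2 * e := by
  have e0 : 0 ≤ e := (abs_nonneg _).trans hx
  rw [abs_le] at *
  interval_cases s <;> push_cast <;> constructor <;> norm_num <;>
    linarith [hx.1, hx.2, hy.1, hy.2]

/-- bound of the centre value of a linear form -/
theorem form_abs {v1 v2 v3 x y z : ℤ} {w1 w2 w3 : ℕ} (h1 : |v1| + w1 ≤ 3 * 2 ^ 31)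
    (h2 : |v2| + w2 ≤ 3 * 2 ^ 31) (h3 : |v3| + w3 ≤ 3 * 2 ^ 31) (bx : |x| ≤ 2 ^ 81)
    (by' : |y| ≤ 2 ^ 81) (bz : |z| ≤ 2 ^ 81) : |v1 * x + v2 * y + v3 * z| < 2 ^ 255 := by
  have k : ∀ v t : ℤ, ∀ w : ℕ, |v| + w ≤ 3 * 2 ^ 31 → |t| ≤ 2 ^ 81 →
      |v * t| ≤ 3 * 2 ^ 31 * 2 ^ 81 := by
    intro v t w hv ht
    rw [abs_mul]
    have : (0 : ℤ) ≤ w := by positivity
    exact mul_le_mul (by linarith) ht (abs_nonneg _) (by norm_num)
  calc |v1 * x + v2 * y + v3 * z| ≤ |v1 * x| + |v2 * y| + |v3 * z| :=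
        (abs_add_le _ _).trans (by linarith [abs_add_le (v1 * x) (v2 * y)])
    _ ≤ 3 * 2 ^ 31 * 2 ^ 81 + 3 * 2 ^ 31 * 2 ^ 81 + 3 * 2 ^ 31 * 2 ^ 81 := by
        linarith [k _ _ _ h1 bx, k _ _ _ h2 by', k _ _ _ h3 bz]
    _ < 2 ^ 255 := by norm_num

/-- enclosure of the value of a linear form -/
theorem form_real {t1 t2 t3 x y z : ℝ} {x1 x2 x3 w1 w2 w3 : ℕ} {v1 v2 v3 xi yi zi : ℤ}
    {e1 e2 e3 E : ℝ}
    (h1 : Ent t1 x1 w1 v1) (h2 : Ent t2 x2 w2 v2) (h3 : Ent t3 x3 w3 v3)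
    (hx : |2 ^ 62 * x - (xi : ℝ)| ≤ e1) (hy : |2 ^ 62 * y - (yi : ℝ)| ≤ e2)
    (hz : |2 ^ 62 * z - (zi : ℝ)| ≤ e3) (hE : e1 + e2 + e3 ≤ 5 * E) :
    |2 ^ 93 * (t1 * x + t2 * y + t3 * z) - ((v1 * xi + v2 * yi + v3 * zi : ℤ) : ℝ)| ≤
      (w1 : ℝ) * |(xi : ℝ)| + (w2 : ℝ) * |(yi : ℝ)| + (w3 : ℝ) * |(zi : ℝ)| + 2 ^ 35 * E := by
  have key := TCore.coord_bound (S := 2 ^ 31) (D := 2 ^ 62) h1.err hx h2.err hy h3.err hz
  have b : ∀ v : ℤ, ∀ w : ℕ, |v| + w ≤ 3 * 2 ^ 31 → |(v : ℝ)| + (w : ℝ) ≤ 3 * 2 ^ 31 := by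
    intro v w h
    exact_mod_cast h
  have e : ∀ v : ℤ, ∀ w : ℕ, ∀ e : ℝ, |v| + w ≤ 3 * 2 ^ 31 → 0 ≤ e →
      (|(v : ℝ)| + (w : ℝ)) * e ≤ 3 * 2 ^ 31 * e := fun v w e h h0 =>
    mul_le_mul_of_nonneg_right (b v w h) h0
  have k1 := e _ _ _ h1.bnd ((abs_nonneg _).trans hx)
  have k2 := e _ _ _ h2.bnd ((abs_nonneg _).trans hy)
  have k3 := e _ _ _ h3.bnd ((abs_nonneg _).trans hz)
  have p : (2 : ℝ) ^ 31 * 2 ^ 62 = 2 ^ 93 := by norm_num
  rw [p] at key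
  push_cast
  refine key.trans ?_
  have E0 : 0 ≤ E := by
    have := (abs_nonneg _).trans hx
    have := (abs_nonneg _).trans hy
    have := (abs_nonneg _).trans hz
    linarith
  nlinarith [k1, k2, k3, hE, E0]

/-- Facts about a valid row. -/
theorem row_fact {X Y Z : ℤ → ℤ → ℤ → ℝ} (hA : Approx X Y Z)
    {nnu nf ng nu sf sg : ℕ} (hnu : nu ≤ 1) (hsf : sf ≤ 1) (hsg : sg ≤ 1)
    (hnnu : Rep nnu (-(nu : ℤ))) (hnf : Rep nf (-(sf : ℤ))) (hng : Rep ng (-(sg : ℤ)))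
    {φ1 φ2 φ3 γ1 γ2 γ3 h l c : ℝ}
    {f1 f2 f3 w1 w2 w3 g1 g2 g3 u1 u2 u3 hc lc cc hw lw cw : ℕ}
    {F1 F2 F3 G1 G2 G3 HC LC CC : ℤ}
    (ef1 : Ent φ1 f1 w1 F1) (ef2 : Ent φ2 f2 w2 F2) (ef3 : Ent φ3 f3 w3 F3)
    (eg1 : Ent γ1 g1 u1 G1) (eg2 : Ent γ2 g2 u2 G2) (eg3 : Ent γ3 g3 u3 G3)
    (eh : Ent h hc hw HC) (el : Ent l lc lw LC) (ec : Ent c cc cw CC)
    (hG : ∀ k m n : ℤ, ¬(k = 0 ∧ m = 0 ∧ n = 0) →
      1 ≤ |h * (X k m n - nu * Z k m n) + l * Y k m n + c * Z k m n| *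
        max ((φ1 * X k m n + φ2 * Y k m n + φ3 * (Z k m n - sf * X k m n)) ^ 2)
          ((γ1 * X k m n + γ2 * Y k m n + γ3 * (Z k m n - sg * X k m n)) ^ 2))
    {k0 m0 n0 k m n mn x y z er x1 zf zg r w ax ay v3c v3w tf vfw Mg M3 af b d Mf : ℕ}
    (bk : k0 < 0x20000) (bm : m0 < 0x20000) (bn : n0 < 0x20000)
    (ek : k = Nat.add k0 0xffffffffffffffffffffffffffffffffffffffffffffffffffffffffffff0000)
    (em : m = Nat.add m0 0xffffffffffffffffffffffffffffffffffffffffffffffffffffffffffff0000)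
    (en : n = Nat.add n0 0xffffffffffffffffffffffffffffffffffffffffffffffffffffffffffff0000)
    (emn : mn = Nat.add (Nat.add (Nat.sub m0 0x10000) (Nat.sub 0x10000 m0)) (Nat.add (Nat.sub n0
        0x10000) (Nat.sub 0x10000 n0)))
    (eX : x = Nat.add (Nat.add (Nat.mul k 0x4000000000000000) (Nat.mul m
        0xffffffffffffffffffffffffffffffffffffffffffffffffee3dc8718122c135)) (Nat.mul n
        0xffffffffffffffffffffffffffffffffffffffffffffffff665686ac69471e5b))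
    (eY : y = Nat.add (Nat.mul m 0x6190bb18ae94847e) (Nat.mul n 0x36250a3698fe640e))
    (eZ : z = Nat.add (Nat.add (Nat.mul k 0x4000000000000000) (Nat.mul m
        0xffffffffffffffffffffffffffffffffffffffffffffffffe3846f1cfdba7d97)) (Nat.mul n
        0xfffffffffffffffffffffffffffffffffffffffffffffffff352f2a72d71c34a))
    (eer : er = Nat.mul 0x800000000 mn)
    (eX1 : x1 = Nat.add x (Nat.mul nnu z))
    (eZf : zf = Nat.add z (Nat.mul nf x))
    (eZg : zg = Nat.add z (Nat.mul ng x))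
    (eax : ax = ab x) (eay : ay = ab y)
    (ev3c : v3c = Nat.mod (Nat.add (Nat.add (Nat.mul hc x1) (Nat.mul lc y)) (Nat.mul cc z))
        0x10000000000000000000000000000000000000000000000000000000000000000)
    (ev3w : v3w = Nat.add (Nat.add (Nat.mul hw (ab x1)) (Nat.mul lw ay)) (Nat.add (Nat.mul cw
        (ab z)) er))
    (etf : tf = Nat.mod (Nat.add (Nat.add (Nat.add (Nat.mul f1 x) (Nat.mul f2 y)) (Nat.mul f3 zf))
        0x8000000000000000000000000000000000000000000000000000000000000000)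
        0x10000000000000000000000000000000000000000000000000000000000000000)
    (evfw : vfw = Nat.add (Nat.add (Nat.mul w1 ax) (Nat.mul w2 ay)) (Nat.add (Nat.mul w3
        (ab zf)) er))
    (eMg : Mg = Nat.add (ab (Nat.add (Nat.add (Nat.mul g1 x) (Nat.mul g2 y)) (Nat.mul g3 zg)))
        (Nat.add (Nat.add (Nat.mul u1 ax) (Nat.mul u2 ay)) (Nat.add (Nat.mul u3 (ab zg)) er)))
    (eM3 : M3 = Nat.add v3c v3w)
    (eaf : af = Nat.add (Nat.sub tf
        0x8000000000000000000000000000000000000000000000000000000000000000) (Nat.sub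
        0x8000000000000000000000000000000000000000000000000000000000000000 tf))
    (eb : b = Nat.mul w (Nat.add
        0xffffffffffffffffffffffffffffffffffffffffffffffffffffffff80000000
        (Nat.mul (Nat.shiftRight tf 0xff) 0x100000000)))
    (ed : d = Nat.sub vfw af) (eMf : Mf = Nat.add af vfw)
    (t1 : Nat.sub 1 v3c = 0) (t2 : Nat.sub v3c 0x100000000000000000000000000000000 = 0)
    (t3 : Nat.sub (Nat.add (Nat.mul M3 (Nat.add (Nat.mul Mg Mg) (Nat.mul d d)))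
        (Nat.mul (Nat.sub v3w v3c) (Nat.mul Mf Mf)))
        0x7fffffffffffffffffffffffffffffffffffffffffffffffffffffffffffffffffffff = 0) :
    ∃ (xi yi zi x1i zfi si : ℤ) (xr yr zr : ℝ),
      Rep x xi ∧ Rep y yi ∧ Rep z zi ∧ Rep x1 x1i ∧ Rep zf zfi ∧ Rep b (2 ^ 31 * w * si) ∧
      |xi| ≤ 2 ^ 81 ∧ |yi| ≤ 2 ^ 81 ∧ |zi| ≤ 2 ^ 81 ∧ |x1i| ≤ 2 ^ 81 ∧ |zfi| ≤ 2 ^ 81 ∧
      |si| ≤ 1 ∧
      (v3c : ℤ) = HC * x1i + LC * yi + CC * zi ∧
      (af : ℤ) = si * (F1 * xi + F2 * yi + F3 * zfi) ∧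
      |2 ^ 62 * xr - (xi : ℝ)| ≤ (mn : ℝ) ∧ |2 ^ 62 * yr - (yi : ℝ)| ≤ (mn : ℝ) ∧
      |2 ^ 62 * zr - (zi : ℝ)| ≤ (mn : ℝ) ∧
      |2 ^ 62 * (xr - nu * zr) - (x1i : ℝ)| ≤ 2 * (mn : ℝ) ∧
      |2 ^ 62 * (zr - sf * xr) - (zfi : ℝ)| ≤ 2 * (mn : ℝ) ∧
      3 * 2 ^ 20 * ((w : ℝ) * r) ≤ ((w : ℝ) * r ^ 3) * (h * (xr - nu * zr) + l * yr + c * zr)
        + (2 ^ 31 * w * (si : ℝ)) * (φ1 * xr + φ2 * yr + φ3 * (zr - sf * xr)) ∧
      (er : ℤ) = 2 ^ 35 * (mn : ℤ) ∧ mn ≤ 2 ^ 17 := by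
  obtain ⟨K, M, N, hK, hM, hN, hmn, her, hmn17, rX, rY, rZ, bX, bY, bZ⟩ :=
    coords bk bm bn ek em en emn eX eY eZ eer
  obtain ⟨rX1, bX1⟩ := twist hnu hnnu rX rZ bX bZ
  obtain ⟨rZf, bZf⟩ := twist hsf hnf rZ rX bZ bX
  obtain ⟨rZg, bZg⟩ := twist hsg hng rZ rX bZ bX
  rw [← eX1] at rX1
  rw [← eZf] at rZf
  rw [← eZg] at rZg
  have h89 : (2 : ℤ) ^ 80 ≤ 2 ^ 81 := by norm_num
  have bX' := bX.trans h89
  have bY' := bY.trans h89
  have bZ' := bZ.trans h89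
  have h9 : (2 : ℤ) ^ 81 < 2 ^ 255 := by norm_num
  -- real coordinates
  have hmnR : (mn : ℝ) = |(M : ℝ)| + |(N : ℝ)| := by exact_mod_cast hmn
  have qx := hA.hx K M N
  have qy := hA.hy K M N
  have qz := hA.hz K M N
  rw [← hmnR] at qx qy qz
  have qx1 := twist_real (s := nu) hnu qx qz
  have qzf := twist_real (s := sf) hsf qz qx
  have qzg := twist_real (s := sg) hsg qz qx
  -- linear forms
  have A3 := form_abs eh.bnd el.bnd ec.bnd bX1 bY' bZ'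
  have R3 : Rep (Nat.add (Nat.add (Nat.mul hc x1) (Nat.mul lc y)) (Nat.mul cc z))
      (HC * (Xi K M N - nu * Zi K M N) + LC * Yi M N + CC * Zi K M N) :=
    rep_add (rep_add (rep_mul eh.rep rX1) (rep_mul el.rep rY)) (rep_mul ec.rep rZ)
  have AF := form_abs ef1.bnd ef2.bnd ef3.bnd bX' bY' bZf
  have RF : Rep (Nat.add (Nat.add (Nat.mul f1 x) (Nat.mul f2 y)) (Nat.mul f3 zf))
      (F1 * Xi K M N + F2 * Yi M N + F3 * (Zi K M N - sf * Xi K M N)) :=
    rep_add (rep_add (rep_mul ef1.rep rX) (rep_mul ef2.rep rY)) (rep_mul ef3.rep rZf)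
  have AG := form_abs eg1.bnd eg2.bnd eg3.bnd bX' bY' bZg
  have RG : Rep (Nat.add (Nat.add (Nat.mul g1 x) (Nat.mul g2 y)) (Nat.mul g3 zg))
      (G1 * Xi K M N + G2 * Yi M N + G3 * (Zi K M N - sg * Xi K M N)) :=
    rep_add (rep_add (rep_mul eg1.rep rX) (rep_mul eg2.rep rY)) (rep_mul eg3.rep rZg)
  -- absolute values
  have aX := ab_eq rX (lt_of_le_of_lt bX' h9)
  have aY := ab_eq rY (lt_of_le_of_lt bY' h9)
  have aZ := ab_eq rZ (lt_of_le_of_lt bZ' h9)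
  have aX1 := ab_eq rX1 (lt_of_le_of_lt bX1 h9)
  have aZf := ab_eq rZf (lt_of_le_of_lt bZf h9)
  have aZg := ab_eq rZg (lt_of_le_of_lt bZg h9)
  have aG := ab_eq RG AG
  -- v3
  have hv3 : (v3c : ℤ) = HC * (Xi K M N - nu * Zi K M N) + LC * Yi M N + CC * Zi K M N := by
    have := Nat.le_of_sub_eq_zero t2
    rw [ev3c] at this ⊢
    exact mod_eq' R3 A3 this
  have hv31 : (1 : ℕ) ≤ v3c := Nat.le_of_sub_eq_zero t1
  have htf := shift_eq RF AF
  rw [← etf] at htf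
  set VF : ℤ := F1 * Xi K M N + F2 * Yi M N + F3 * (Zi K M N - sf * Xi K M N) with hVF
  have haf : (af : ℤ) = |VF| := by
    have := ab_eq RF AF
    rw [eaf, etf]
    exact this
  -- the sign
  obtain ⟨si, hsi, hsiV, hbr⟩ : ∃ si : ℤ, (si = 1 ∨ si = -1) ∧ |VF| = si * VF ∧
      Rep b (2 ^ 31 * w * si) := by
    have p255 : (2 : ℤ) ^ 255 = ((2 ^ 255 : ℕ) : ℤ) := by push_cast
    have p256 : (2 : ℤ) ^ 256 = ((2 ^ 256 : ℕ) : ℤ) := by push_cast
    have hVb := abs_lt.mp AF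
    have q1 : Rep 0xffffffffffffffffffffffffffffffffffffffffffffffffffffffff80000000 (-(2 ^ 31)) :=
      rep_of (by norm_num)
    rcases le_or_gt 0 VF with h0 | h0
    · refine ⟨1, Or.inl rfl, by rw [abs_of_nonneg h0, one_mul], ?_⟩
      have hs : Nat.shiftRight tf 0xff = 1 := by
        show tf >>> 255 = 1
        rw [Nat.shiftRight_eq_div_pow]
        have l1 : 2 ^ 255 ≤ tf := by
          have : ((2 ^ 255 : ℕ) : ℤ) ≤ (tf : ℤ) := by rw [htf, ← p255]; linarith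
          exact_mod_cast this
        have l2 : tf < 2 ^ 256 := by
          have : (tf : ℤ) < ((2 ^ 256 : ℕ) : ℤ) := by
            rw [htf, ← p256]; linarith [hVb.2]
          exact_mod_cast this
        rw [Nat.div_eq_iff (by positivity)]
        constructor <;> omega
      rw [eb, hs]
      have : Rep (Nat.mul w (Nat.add
        0xffffffffffffffffffffffffffffffffffffffffffffffffffffffff80000000
        (Nat.mul 1 0x100000000))) ((w : ℤ) * (-(2 ^ 31) + (1 : ℕ) * (0x100000000 : ℕ))) :=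
        rep_mul (rep_nat w) (rep_add q1 (rep_mul (rep_nat 1) (rep_nat _)))
      exact rep_congr this (by push_cast; ring)
    · refine ⟨-1, Or.inr rfl, by rw [abs_of_neg h0]; ring, ?_⟩
      have hs : Nat.shiftRight tf 0xff = 0 := by
        show tf >>> 255 = 0
        rw [Nat.shiftRight_eq_div_pow]
        have l2 : tf < 2 ^ 255 := by
          have : (tf : ℤ) < ((2 ^ 255 : ℕ) : ℤ) := by rw [htf, ← p255]; linarith
          exact_mod_cast this
        exact Nat.div_eq_of_lt l2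
      rw [eb, hs]
      have : Rep (Nat.mul w (Nat.add
        0xffffffffffffffffffffffffffffffffffffffffffffffffffffffff80000000
        (Nat.mul 0 0x100000000))) ((w : ℤ) * (-(2 ^ 31) + (0 : ℕ) * (0x100000000 : ℕ))) :=
        rep_mul (rep_nat w) (rep_add q1 (rep_mul (rep_nat 0) (rep_nat _)))
      exact rep_congr this (by push_cast; ring)
  -- not the zero point
  have hne : ¬(K = 0 ∧ M = 0 ∧ N = 0) := by
    rintro ⟨rfl, rfl, rfl⟩
    have : (v3c : ℤ) = 0 := by rw [hv3]; simp [Xi, Yi, Zi]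
    have h1 : (1 : ℤ) ≤ (v3c : ℤ) := by exact_mod_cast hv31
    linarith
  have hGG := hG K M N hne
  -- real enclosures
  have B3 := form_real eh el ec qx1 qy qz (E := (mn : ℝ)) (by linarith)
  have BF := form_real ef1 ef2 ef3 qx qy qzf (E := (mn : ℝ)) (by linarith)
  have BG := form_real eg1 eg2 eg3 qx qy qzg (E := (mn : ℝ)) (by linarith)
  have hw3 : (v3w : ℝ) = (hw : ℝ) * |((Xi K M N - nu * Zi K M N : ℤ) : ℝ)|
      + (lw : ℝ) * |((Yi M N : ℤ) : ℝ)| + (cw : ℝ) * |((Zi K M N : ℤ) : ℝ)|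
      + 2 ^ 35 * (mn : ℝ) := by
    have : (v3w : ℤ) = (hw : ℤ) * |Xi K M N - nu * Zi K M N| + (lw : ℤ) * |Yi M N|
        + (cw : ℤ) * |Zi K M N| + 2 ^ 35 * (mn : ℤ) := by
      rw [ev3w, ← aX1, ← aZ, ← aY, ← her, eay]
      simp only [Nat.add_eq, Nat.mul_eq]
      push_cast
      ring
    exact_mod_cast this
  have hwf : (vfw : ℝ) = (w1 : ℝ) * |((Xi K M N : ℤ) : ℝ)|
      + (w2 : ℝ) * |((Yi M N : ℤ) : ℝ)| + (w3 : ℝ) * |((Zi K M N - sf * Xi K M N : ℤ) : ℝ)|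
      + 2 ^ 35 * (mn : ℝ) := by
    have : (vfw : ℤ) = (w1 : ℤ) * |Xi K M N| + (w2 : ℤ) * |Yi M N|
        + (w3 : ℤ) * |Zi K M N - sf * Xi K M N| + 2 ^ 35 * (mn : ℤ) := by
      rw [evfw, ← aX, ← aZf, ← aY, ← her, eay, eax]
      simp only [Nat.add_eq, Nat.mul_eq]
      push_cast
      ring
    exact_mod_cast this
  have hwg : (Mg : ℝ) = |((G1 * Xi K M N + G2 * Yi M N + G3 * (Zi K M N - sg * Xi K M N) : ℤ) : ℝ)|
      + ((u1 : ℝ) * |((Xi K M N : ℤ) : ℝ)|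
      + (u2 : ℝ) * |((Yi M N : ℤ) : ℝ)| + (u3 : ℝ) * |((Zi K M N - sg * Xi K M N : ℤ) : ℝ)|
      + 2 ^ 35 * (mn : ℝ)) := by
    have : (Mg : ℤ) = |G1 * Xi K M N + G2 * Yi M N + G3 * (Zi K M N - sg * Xi K M N)|
        + ((u1 : ℤ) * |Xi K M N| + (u2 : ℤ) * |Yi M N|
        + (u3 : ℤ) * |Zi K M N - sg * Xi K M N| + 2 ^ 35 * (mn : ℤ)) := by
      rw [eMg, ← aG, ← aX, ← aZg, ← aY, ← her, eay, eax]
      simp only [Nat.add_eq, Nat.mul_eq]
      push_cast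
      ring
    exact_mod_cast this
  rw [← hw3] at B3
  rw [← hwf] at BF
  have hv3R : ((HC * (Xi K M N - nu * Zi K M N) + LC * Yi M N + CC * Zi K M N : ℤ) : ℝ)
      = (v3c : ℝ) := by exact_mod_cast hv3.symm
  rw [hv3R] at B3
  rw [← hVF] at BF
  have hafR : (af : ℝ) = |(VF : ℝ)| := by exact_mod_cast haf
  -- the test
  have hT : ((v3c : ℝ) + v3w) * ((Mg : ℝ) ^ 2 + (d : ℝ) ^ 2)
      + (((v3w - v3c : ℕ) : ℕ) : ℝ) * (Mf : ℝ) ^ 2 < ((2 : ℝ) ^ 93) ^ 3 := by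
    have h1 := Nat.le_of_sub_eq_zero t3
    rw [eM3] at h1
    simp only [Nat.add_eq, Nat.mul_eq, Nat.sub_eq] at h1
    have h2 : (v3c + v3w) * (Mg ^ 2 + d ^ 2) + (v3w - v3c) * Mf ^ 2 < (2 ^ 93) ^ 3 := by
      calc (v3c + v3w) * (Mg ^ 2 + d ^ 2) + (v3w - v3c) * Mf ^ 2
          = (v3c + v3w) * (Mg * Mg + d * d) + (v3w - v3c) * (Mf * Mf) := by ring
        _ ≤ _ := h1
        _ < (2 ^ 93) ^ 3 := by norm_num
    have h3 : (((v3c + v3w) * (Mg ^ 2 + d ^ 2) + (v3w - v3c) * Mf ^ 2 : ℕ) : ℝ)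
        < (((2 ^ 93) ^ 3 : ℕ) : ℝ) := by exact_mod_cast h2
    push_cast at h3
    norm_num at h3 ⊢
    exact h3
  have n1 : (0 : ℝ) ≤ v3c := Nat.cast_nonneg _
  have n2 : (0 : ℝ) ≤ v3w := Nat.cast_nonneg _
  have n3 : (0 : ℝ) ≤ ((v3c : ℝ) + v3w) * (Mg : ℝ) ^ 2 := mul_nonneg (add_nonneg n1 n2) (sq_nonneg _)
  have n4 : (0 : ℝ) ≤ ((v3c : ℝ) + v3w) * (d : ℝ) ^ 2 := mul_nonneg (add_nonneg n1 n2) (sq_nonneg _)
  have n5 : (0 : ℝ) ≤ (((v3w - v3c : ℕ) : ℕ) : ℝ) * (Mf : ℝ) ^ 2 :=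
    mul_nonneg (Nat.cast_nonneg _) (sq_nonneg _)
  have hsiR : (si : ℝ) = 1 ∨ (si : ℝ) = -1 := by
    rcases hsi with h | h
    · left; rw [h]; norm_num
    · right; rw [h]; norm_num
  have hsV : (si : ℝ) * (VF : ℝ) = (af : ℝ) := by
    rw [hafR]
    exact_mod_cast hsiV.symm
  have hd : max 0 ((vfw : ℝ) - si * VF) = (d : ℝ) := by
    rw [hsV, ed, Nat.sub_eq]
    rcases le_total vfw af with h | h
    · rw [Nat.sub_eq_zero_of_le h, Nat.cast_zero]
      exact max_eq_left (by have : (vfw : ℝ) ≤ af := by exact_mod_cast h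
                            linarith)
    · rw [Nat.cast_sub h]
      exact max_eq_right (by have : (af : ℝ) ≤ vfw := by exact_mod_cast h
                             linarith)
  have hd3 : max 0 ((v3w : ℝ) - v3c) = (((v3w - v3c : ℕ) : ℕ) : ℝ) := by
    rcases le_total v3w v3c with h | h
    · rw [Nat.sub_eq_zero_of_le h, Nat.cast_zero]
      exact max_eq_left (by have : (v3w : ℝ) ≤ v3c := by exact_mod_cast h
                            linarith)
    · rw [Nat.cast_sub h]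
      exact max_eq_right (by have : (v3c : ℝ) ≤ v3w := by exact_mod_cast h
                             linarith)
  have hMf : (Mf : ℝ) = |(VF : ℝ)| + vfw := by
    rw [eMf, Nat.add_eq, ← hafR]
    push_cast
    ring
  have key := TCore.row_ineq (T := 2 ^ 93) (R := 2 ^ 10) (r := (r : ℝ)) (w := (w : ℝ))
    (by norm_num) B3 BF BG n1 hsiR
    (by rw [← hwg]; linarith) (by rw [hd]; linarith)
    (by rw [hd3, ← hMf]; linarith) hGG (by norm_num) (Nat.cast_nonneg _) (Nat.cast_nonneg _)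
  refine ⟨Xi K M N, Yi M N, Zi K M N, Xi K M N - nu * Zi K M N, Zi K M N - sf * Xi K M N, si,
    X K M N, Y K M N, Z K M N, rX, rY, rZ, rX1, rZf, hbr, bX', bY', bZ', bX1, bZf, ?_,
    hv3, ?_, qx, qy, qz, qx1, qzf, ?_, her, hmn17⟩
  · rcases hsi with h | h <;> rw [h] <;> norm_num
  · rw [haf, hsiV]
  · norm_num at key ⊢
    linarith

end TSound
end Pool.Agent.Lib.MP_be9f18_nt
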