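import Pool.Agent.Lib.MP_be9f18_nt.TMod

/-!
Decoding of one step of `TChk.rows` (generated from `TCheck.lean`; problem MP_be9f18_nt).
-/

set_option autoImplicit false
set_option linter.unusedVariables false

namespace Pool.Agent.Lib.MP_be9f18_nt
namespace TSound

noncomputable def rw0 (ih : ℕ → ℕ → ℕ → ℕ → ℕ → ℕ → ℕ → ℕ → ℕ → ℕ → ℕ → ℕ → Bool) (nnu nf ng f1
  f2 f3 w1 w2 w3 g1 g2 g3 u1 u2 u3 hc lc cc hw lw cw z Gv Gf hX lY cZ xf yf zf cs es bad : ℕ) :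
  Bool :=
  (fun k0 m0 n0 => (fun k m n mn => (fun X Y Z er => (fun X1 Zf Zg r w ax ay => (fun v3c v3w tf
    vfw Mg rw a => (fun M3 af b => (fun d Mf => ih (Nat.shiftRight z 0x60) (Nat.add Gv (Nat.mul a
    v3c)) (Nat.add Gf (Nat.mul w af)) (Nat.add hX (Nat.mul a X1)) (Nat.add lY (Nat.mul a Y))
    (Nat.add cZ (Nat.mul a Z)) (Nat.add xf (Nat.mul b X)) (Nat.add yf (Nat.mul b Y)) (Nat.add zf
    (Nat.mul b Zf)) (Nat.add cs rw) (Nat.add es (Nat.mul (Nat.add a (Nat.mul 0x80000000 w)) er))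
    (Nat.add bad (Nat.add (Nat.add (Nat.sub 1 v3c) (Nat.sub v3c
    0x100000000000000000000000000000000)) (Nat.sub (Nat.add (Nat.mul M3 (Nat.add (Nat.mul Mg Mg)
    (Nat.mul d d))) (Nat.mul (Nat.sub v3w v3c) (Nat.mul Mf Mf)))
    0x7fffffffffffffffffffffffffffffffffffffffffffffffffffffffffffffffffffff)))) (Nat.sub vfw af)
    (Nat.add af vfw)) (Nat.add v3c v3w) (Nat.add (Nat.sub tf
    0x8000000000000000000000000000000000000000000000000000000000000000) (Nat.sub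
    0x8000000000000000000000000000000000000000000000000000000000000000 tf)) (Nat.mul w (Nat.add
    0xffffffffffffffffffffffffffffffffffffffffffffffffffffffff80000000 (Nat.mul (Nat.shiftRight
    tf 0xff) 0x100000000)))) (Nat.mod (Nat.add (Nat.add (Nat.mul hc X1) (Nat.mul lc Y)) (Nat.mul
    cc Z)) 0x10000000000000000000000000000000000000000000000000000000000000000) (Nat.add (Nat.add
    (Nat.mul hw (ab X1)) (Nat.mul lw ay)) (Nat.add (Nat.mul cw (ab Z)) er)) (Nat.mod (Nat.add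
    (Nat.add (Nat.add (Nat.mul f1 X) (Nat.mul f2 Y)) (Nat.mul f3 Zf))
    0x8000000000000000000000000000000000000000000000000000000000000000)
    0x10000000000000000000000000000000000000000000000000000000000000000) (Nat.add (Nat.add
    (Nat.mul w1 ax) (Nat.mul w2 ay)) (Nat.add (Nat.mul w3 (ab Zf)) er)) (Nat.add (ab (Nat.add
    (Nat.add (Nat.mul g1 X) (Nat.mul g2 Y)) (Nat.mul g3 Zg))) (Nat.add (Nat.add (Nat.mul u1 ax)
    (Nat.mul u2 ay)) (Nat.add (Nat.mul u3 (ab Zg)) er))) (Nat.mul w r) (Nat.mul (Nat.mul w r)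
    (Nat.mul r r))) (Nat.add X (Nat.mul nnu Z)) (Nat.add Z (Nat.mul nf X)) (Nat.add Z (Nat.mul ng
    X)) (Nat.mod (Nat.shiftRight z 0x33) 0x2000) (Nat.mod (Nat.shiftRight z 0x40) 0x100000000)
    (ab X) (ab Y)) (Nat.add (Nat.add (Nat.mul k 0x4000000000000000) (Nat.mul m
    0xffffffffffffffffffffffffffffffffffffffffffffffffee3dc8718122c135)) (Nat.mul n
    0xffffffffffffffffffffffffffffffffffffffffffffffff665686ac69471e5b)) (Nat.add (Nat.mul m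
    0x6190bb18ae94847e) (Nat.mul n 0x36250a3698fe640e)) (Nat.add (Nat.add (Nat.mul k
    0x4000000000000000) (Nat.mul m
    0xffffffffffffffffffffffffffffffffffffffffffffffffe3846f1cfdba7d97)) (Nat.mul n
    0xfffffffffffffffffffffffffffffffffffffffffffffffff352f2a72d71c34a)) (Nat.mul 0x800000000
    mn)) (Nat.add k0 0xffffffffffffffffffffffffffffffffffffffffffffffffffffffffffff0000) (Nat.add
    m0 0xffffffffffffffffffffffffffffffffffffffffffffffffffffffffffff0000) (Nat.add n0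
    0xffffffffffffffffffffffffffffffffffffffffffffffffffffffffffff0000) (Nat.add (Nat.add
    (Nat.sub m0 0x10000) (Nat.sub 0x10000 m0)) (Nat.add (Nat.sub n0 0x10000) (Nat.sub 0x10000
    n0)))) (Nat.mod z 0x20000) (Nat.mod (Nat.shiftRight z 0x11) 0x20000) (Nat.mod (Nat.shiftRight
    z 0x22) 0x20000)

noncomputable def rw1 (ih : ℕ → ℕ → ℕ → ℕ → ℕ → ℕ → ℕ → ℕ → ℕ → ℕ → ℕ → ℕ → Bool) (nnu nf ng f1
  f2 f3 w1 w2 w3 g1 g2 g3 u1 u2 u3 hc lc cc hw lw cw z Gv Gf hX lY cZ xf yf zf cs es bad k0 m0 n0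
  : ℕ) : Bool :=
  (fun k m n mn => (fun X Y Z er => (fun X1 Zf Zg r w ax ay => (fun v3c v3w tf vfw Mg rw a =>
    (fun M3 af b => (fun d Mf => ih (Nat.shiftRight z 0x60) (Nat.add Gv (Nat.mul a v3c)) (Nat.add
    Gf (Nat.mul w af)) (Nat.add hX (Nat.mul a X1)) (Nat.add lY (Nat.mul a Y)) (Nat.add cZ
    (Nat.mul a Z)) (Nat.add xf (Nat.mul b X)) (Nat.add yf (Nat.mul b Y)) (Nat.add zf (Nat.mul b
    Zf)) (Nat.add cs rw) (Nat.add es (Nat.mul (Nat.add a (Nat.mul 0x80000000 w)) er)) (Nat.add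
    bad (Nat.add (Nat.add (Nat.sub 1 v3c) (Nat.sub v3c 0x100000000000000000000000000000000))
    (Nat.sub (Nat.add (Nat.mul M3 (Nat.add (Nat.mul Mg Mg) (Nat.mul d d))) (Nat.mul (Nat.sub v3w
    v3c) (Nat.mul Mf Mf)))
    0x7fffffffffffffffffffffffffffffffffffffffffffffffffffffffffffffffffffff)))) (Nat.sub vfw af)
    (Nat.add af vfw)) (Nat.add v3c v3w) (Nat.add (Nat.sub tf
    0x8000000000000000000000000000000000000000000000000000000000000000) (Nat.sub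
    0x8000000000000000000000000000000000000000000000000000000000000000 tf)) (Nat.mul w (Nat.add
    0xffffffffffffffffffffffffffffffffffffffffffffffffffffffff80000000 (Nat.mul (Nat.shiftRight
    tf 0xff) 0x100000000)))) (Nat.mod (Nat.add (Nat.add (Nat.mul hc X1) (Nat.mul lc Y)) (Nat.mul
    cc Z)) 0x10000000000000000000000000000000000000000000000000000000000000000) (Nat.add (Nat.add
    (Nat.mul hw (ab X1)) (Nat.mul lw ay)) (Nat.add (Nat.mul cw (ab Z)) er)) (Nat.mod (Nat.add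
    (Nat.add (Nat.add (Nat.mul f1 X) (Nat.mul f2 Y)) (Nat.mul f3 Zf))
    0x8000000000000000000000000000000000000000000000000000000000000000)
    0x10000000000000000000000000000000000000000000000000000000000000000) (Nat.add (Nat.add
    (Nat.mul w1 ax) (Nat.mul w2 ay)) (Nat.add (Nat.mul w3 (ab Zf)) er)) (Nat.add (ab (Nat.add
    (Nat.add (Nat.mul g1 X) (Nat.mul g2 Y)) (Nat.mul g3 Zg))) (Nat.add (Nat.add (Nat.mul u1 ax)
    (Nat.mul u2 ay)) (Nat.add (Nat.mul u3 (ab Zg)) er))) (Nat.mul w r) (Nat.mul (Nat.mul w r)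
    (Nat.mul r r))) (Nat.add X (Nat.mul nnu Z)) (Nat.add Z (Nat.mul nf X)) (Nat.add Z (Nat.mul ng
    X)) (Nat.mod (Nat.shiftRight z 0x33) 0x2000) (Nat.mod (Nat.shiftRight z 0x40) 0x100000000)
    (ab X) (ab Y)) (Nat.add (Nat.add (Nat.mul k 0x4000000000000000) (Nat.mul m
    0xffffffffffffffffffffffffffffffffffffffffffffffffee3dc8718122c135)) (Nat.mul n
    0xffffffffffffffffffffffffffffffffffffffffffffffff665686ac69471e5b)) (Nat.add (Nat.mul m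
    0x6190bb18ae94847e) (Nat.mul n 0x36250a3698fe640e)) (Nat.add (Nat.add (Nat.mul k
    0x4000000000000000) (Nat.mul m
    0xffffffffffffffffffffffffffffffffffffffffffffffffe3846f1cfdba7d97)) (Nat.mul n
    0xfffffffffffffffffffffffffffffffffffffffffffffffff352f2a72d71c34a)) (Nat.mul 0x800000000
    mn)) (Nat.add k0 0xffffffffffffffffffffffffffffffffffffffffffffffffffffffffffff0000) (Nat.add
    m0 0xffffffffffffffffffffffffffffffffffffffffffffffffffffffffffff0000) (Nat.add n0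
    0xffffffffffffffffffffffffffffffffffffffffffffffffffffffffffff0000) (Nat.add (Nat.add
    (Nat.sub m0 0x10000) (Nat.sub 0x10000 m0)) (Nat.add (Nat.sub n0 0x10000) (Nat.sub 0x10000
    n0)))

noncomputable def rw2 (ih : ℕ → ℕ → ℕ → ℕ → ℕ → ℕ → ℕ → ℕ → ℕ → ℕ → ℕ → ℕ → Bool) (nnu nf ng f1
  f2 f3 w1 w2 w3 g1 g2 g3 u1 u2 u3 hc lc cc hw lw cw z Gv Gf hX lY cZ xf yf zf cs es bad k0 m0 n0
  k m n mn : ℕ) : Bool :=
  (fun X Y Z er => (fun X1 Zf Zg r w ax ay => (fun v3c v3w tf vfw Mg rw a => (fun M3 af b => (fun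
    d Mf => ih (Nat.shiftRight z 0x60) (Nat.add Gv (Nat.mul a v3c)) (Nat.add Gf (Nat.mul w af))
    (Nat.add hX (Nat.mul a X1)) (Nat.add lY (Nat.mul a Y)) (Nat.add cZ (Nat.mul a Z)) (Nat.add xf
    (Nat.mul b X)) (Nat.add yf (Nat.mul b Y)) (Nat.add zf (Nat.mul b Zf)) (Nat.add cs rw)
    (Nat.add es (Nat.mul (Nat.add a (Nat.mul 0x80000000 w)) er)) (Nat.add bad (Nat.add (Nat.add
    (Nat.sub 1 v3c) (Nat.sub v3c 0x100000000000000000000000000000000)) (Nat.sub (Nat.add (Nat.mul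
    M3 (Nat.add (Nat.mul Mg Mg) (Nat.mul d d))) (Nat.mul (Nat.sub v3w v3c) (Nat.mul Mf Mf)))
    0x7fffffffffffffffffffffffffffffffffffffffffffffffffffffffffffffffffffff)))) (Nat.sub vfw af)
    (Nat.add af vfw)) (Nat.add v3c v3w) (Nat.add (Nat.sub tf
    0x8000000000000000000000000000000000000000000000000000000000000000) (Nat.sub
    0x8000000000000000000000000000000000000000000000000000000000000000 tf)) (Nat.mul w (Nat.add
    0xffffffffffffffffffffffffffffffffffffffffffffffffffffffff80000000 (Nat.mul (Nat.shiftRight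
    tf 0xff) 0x100000000)))) (Nat.mod (Nat.add (Nat.add (Nat.mul hc X1) (Nat.mul lc Y)) (Nat.mul
    cc Z)) 0x10000000000000000000000000000000000000000000000000000000000000000) (Nat.add (Nat.add
    (Nat.mul hw (ab X1)) (Nat.mul lw ay)) (Nat.add (Nat.mul cw (ab Z)) er)) (Nat.mod (Nat.add
    (Nat.add (Nat.add (Nat.mul f1 X) (Nat.mul f2 Y)) (Nat.mul f3 Zf))
    0x8000000000000000000000000000000000000000000000000000000000000000)
    0x10000000000000000000000000000000000000000000000000000000000000000) (Nat.add (Nat.add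
    (Nat.mul w1 ax) (Nat.mul w2 ay)) (Nat.add (Nat.mul w3 (ab Zf)) er)) (Nat.add (ab (Nat.add
    (Nat.add (Nat.mul g1 X) (Nat.mul g2 Y)) (Nat.mul g3 Zg))) (Nat.add (Nat.add (Nat.mul u1 ax)
    (Nat.mul u2 ay)) (Nat.add (Nat.mul u3 (ab Zg)) er))) (Nat.mul w r) (Nat.mul (Nat.mul w r)
    (Nat.mul r r))) (Nat.add X (Nat.mul nnu Z)) (Nat.add Z (Nat.mul nf X)) (Nat.add Z (Nat.mul ng
    X)) (Nat.mod (Nat.shiftRight z 0x33) 0x2000) (Nat.mod (Nat.shiftRight z 0x40) 0x100000000)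
    (ab X) (ab Y)) (Nat.add (Nat.add (Nat.mul k 0x4000000000000000) (Nat.mul m
    0xffffffffffffffffffffffffffffffffffffffffffffffffee3dc8718122c135)) (Nat.mul n
    0xffffffffffffffffffffffffffffffffffffffffffffffff665686ac69471e5b)) (Nat.add (Nat.mul m
    0x6190bb18ae94847e) (Nat.mul n 0x36250a3698fe640e)) (Nat.add (Nat.add (Nat.mul k
    0x4000000000000000) (Nat.mul m
    0xffffffffffffffffffffffffffffffffffffffffffffffffe3846f1cfdba7d97)) (Nat.mul n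
    0xfffffffffffffffffffffffffffffffffffffffffffffffff352f2a72d71c34a)) (Nat.mul 0x800000000 mn)

noncomputable def rw3 (ih : ℕ → ℕ → ℕ → ℕ → ℕ → ℕ → ℕ → ℕ → ℕ → ℕ → ℕ → ℕ → Bool) (nnu nf ng f1
  f2 f3 w1 w2 w3 g1 g2 g3 u1 u2 u3 hc lc cc hw lw cw z Gv Gf hX lY cZ xf yf zf cs es bad k0 m0 n0
  k m n mn X Y Z er : ℕ) : Bool :=
  (fun X1 Zf Zg r w ax ay => (fun v3c v3w tf vfw Mg rw a => (fun M3 af b => (fun d Mf => ih
    (Nat.shiftRight z 0x60) (Nat.add Gv (Nat.mul a v3c)) (Nat.add Gf (Nat.mul w af)) (Nat.add hX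
    (Nat.mul a X1)) (Nat.add lY (Nat.mul a Y)) (Nat.add cZ (Nat.mul a Z)) (Nat.add xf (Nat.mul b
    X)) (Nat.add yf (Nat.mul b Y)) (Nat.add zf (Nat.mul b Zf)) (Nat.add cs rw) (Nat.add es
    (Nat.mul (Nat.add a (Nat.mul 0x80000000 w)) er)) (Nat.add bad (Nat.add (Nat.add (Nat.sub 1
    v3c) (Nat.sub v3c 0x100000000000000000000000000000000)) (Nat.sub (Nat.add (Nat.mul M3
    (Nat.add (Nat.mul Mg Mg) (Nat.mul d d))) (Nat.mul (Nat.sub v3w v3c) (Nat.mul Mf Mf)))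
    0x7fffffffffffffffffffffffffffffffffffffffffffffffffffffffffffffffffffff)))) (Nat.sub vfw af)
    (Nat.add af vfw)) (Nat.add v3c v3w) (Nat.add (Nat.sub tf
    0x8000000000000000000000000000000000000000000000000000000000000000) (Nat.sub
    0x8000000000000000000000000000000000000000000000000000000000000000 tf)) (Nat.mul w (Nat.add
    0xffffffffffffffffffffffffffffffffffffffffffffffffffffffff80000000 (Nat.mul (Nat.shiftRight
    tf 0xff) 0x100000000)))) (Nat.mod (Nat.add (Nat.add (Nat.mul hc X1) (Nat.mul lc Y)) (Nat.mul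
    cc Z)) 0x10000000000000000000000000000000000000000000000000000000000000000) (Nat.add (Nat.add
    (Nat.mul hw (ab X1)) (Nat.mul lw ay)) (Nat.add (Nat.mul cw (ab Z)) er)) (Nat.mod (Nat.add
    (Nat.add (Nat.add (Nat.mul f1 X) (Nat.mul f2 Y)) (Nat.mul f3 Zf))
    0x8000000000000000000000000000000000000000000000000000000000000000)
    0x10000000000000000000000000000000000000000000000000000000000000000) (Nat.add (Nat.add
    (Nat.mul w1 ax) (Nat.mul w2 ay)) (Nat.add (Nat.mul w3 (ab Zf)) er)) (Nat.add (ab (Nat.add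
    (Nat.add (Nat.mul g1 X) (Nat.mul g2 Y)) (Nat.mul g3 Zg))) (Nat.add (Nat.add (Nat.mul u1 ax)
    (Nat.mul u2 ay)) (Nat.add (Nat.mul u3 (ab Zg)) er))) (Nat.mul w r) (Nat.mul (Nat.mul w r)
    (Nat.mul r r))) (Nat.add X (Nat.mul nnu Z)) (Nat.add Z (Nat.mul nf X)) (Nat.add Z (Nat.mul ng
    X)) (Nat.mod (Nat.shiftRight z 0x33) 0x2000) (Nat.mod (Nat.shiftRight z 0x40) 0x100000000)
    (ab X) (ab Y)

noncomputable def rw4 (ih : ℕ → ℕ → ℕ → ℕ → ℕ → ℕ → ℕ → ℕ → ℕ → ℕ → ℕ → ℕ → Bool) (nnu nf ng f1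
  f2 f3 w1 w2 w3 g1 g2 g3 u1 u2 u3 hc lc cc hw lw cw z Gv Gf hX lY cZ xf yf zf cs es bad k0 m0 n0
  k m n mn X Y Z er X1 Zf Zg r w ax ay : ℕ) : Bool :=
  (fun v3c v3w tf vfw Mg rw a => (fun M3 af b => (fun d Mf => ih (Nat.shiftRight z 0x60) (Nat.add
    Gv (Nat.mul a v3c)) (Nat.add Gf (Nat.mul w af)) (Nat.add hX (Nat.mul a X1)) (Nat.add lY
    (Nat.mul a Y)) (Nat.add cZ (Nat.mul a Z)) (Nat.add xf (Nat.mul b X)) (Nat.add yf (Nat.mul b
    Y)) (Nat.add zf (Nat.mul b Zf)) (Nat.add cs rw) (Nat.add es (Nat.mul (Nat.add a (Nat.mul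
    0x80000000 w)) er)) (Nat.add bad (Nat.add (Nat.add (Nat.sub 1 v3c) (Nat.sub v3c
    0x100000000000000000000000000000000)) (Nat.sub (Nat.add (Nat.mul M3 (Nat.add (Nat.mul Mg Mg)
    (Nat.mul d d))) (Nat.mul (Nat.sub v3w v3c) (Nat.mul Mf Mf)))
    0x7fffffffffffffffffffffffffffffffffffffffffffffffffffffffffffffffffffff)))) (Nat.sub vfw af)
    (Nat.add af vfw)) (Nat.add v3c v3w) (Nat.add (Nat.sub tf
    0x8000000000000000000000000000000000000000000000000000000000000000) (Nat.sub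
    0x8000000000000000000000000000000000000000000000000000000000000000 tf)) (Nat.mul w (Nat.add
    0xffffffffffffffffffffffffffffffffffffffffffffffffffffffff80000000 (Nat.mul (Nat.shiftRight
    tf 0xff) 0x100000000)))) (Nat.mod (Nat.add (Nat.add (Nat.mul hc X1) (Nat.mul lc Y)) (Nat.mul
    cc Z)) 0x10000000000000000000000000000000000000000000000000000000000000000) (Nat.add (Nat.add
    (Nat.mul hw (ab X1)) (Nat.mul lw ay)) (Nat.add (Nat.mul cw (ab Z)) er)) (Nat.mod (Nat.add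
    (Nat.add (Nat.add (Nat.mul f1 X) (Nat.mul f2 Y)) (Nat.mul f3 Zf))
    0x8000000000000000000000000000000000000000000000000000000000000000)
    0x10000000000000000000000000000000000000000000000000000000000000000) (Nat.add (Nat.add
    (Nat.mul w1 ax) (Nat.mul w2 ay)) (Nat.add (Nat.mul w3 (ab Zf)) er)) (Nat.add (ab (Nat.add
    (Nat.add (Nat.mul g1 X) (Nat.mul g2 Y)) (Nat.mul g3 Zg))) (Nat.add (Nat.add (Nat.mul u1 ax)
    (Nat.mul u2 ay)) (Nat.add (Nat.mul u3 (ab Zg)) er))) (Nat.mul w r) (Nat.mul (Nat.mul w r)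
    (Nat.mul r r))

noncomputable def rw5 (ih : ℕ → ℕ → ℕ → ℕ → ℕ → ℕ → ℕ → ℕ → ℕ → ℕ → ℕ → ℕ → Bool) (nnu nf ng f1
  f2 f3 w1 w2 w3 g1 g2 g3 u1 u2 u3 hc lc cc hw lw cw z Gv Gf hX lY cZ xf yf zf cs es bad k0 m0 n0
  k m n mn X Y Z er X1 Zf Zg r w ax ay v3c v3w tf vfw Mg rw a : ℕ) : Bool :=
  (fun M3 af b => (fun d Mf => ih (Nat.shiftRight z 0x60) (Nat.add Gv (Nat.mul a v3c)) (Nat.add
    Gf (Nat.mul w af)) (Nat.add hX (Nat.mul a X1)) (Nat.add lY (Nat.mul a Y)) (Nat.add cZ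
    (Nat.mul a Z)) (Nat.add xf (Nat.mul b X)) (Nat.add yf (Nat.mul b Y)) (Nat.add zf (Nat.mul b
    Zf)) (Nat.add cs rw) (Nat.add es (Nat.mul (Nat.add a (Nat.mul 0x80000000 w)) er)) (Nat.add
    bad (Nat.add (Nat.add (Nat.sub 1 v3c) (Nat.sub v3c 0x100000000000000000000000000000000))
    (Nat.sub (Nat.add (Nat.mul M3 (Nat.add (Nat.mul Mg Mg) (Nat.mul d d))) (Nat.mul (Nat.sub v3w
    v3c) (Nat.mul Mf Mf)))
    0x7fffffffffffffffffffffffffffffffffffffffffffffffffffffffffffffffffffff)))) (Nat.sub vfw af)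
    (Nat.add af vfw)) (Nat.add v3c v3w) (Nat.add (Nat.sub tf
    0x8000000000000000000000000000000000000000000000000000000000000000) (Nat.sub
    0x8000000000000000000000000000000000000000000000000000000000000000 tf)) (Nat.mul w (Nat.add
    0xffffffffffffffffffffffffffffffffffffffffffffffffffffffff80000000 (Nat.mul (Nat.shiftRight
    tf 0xff) 0x100000000)))

noncomputable def rw6 (ih : ℕ → ℕ → ℕ → ℕ → ℕ → ℕ → ℕ → ℕ → ℕ → ℕ → ℕ → ℕ → Bool) (nnu nf ng f1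
  f2 f3 w1 w2 w3 g1 g2 g3 u1 u2 u3 hc lc cc hw lw cw z Gv Gf hX lY cZ xf yf zf cs es bad k0 m0 n0
  k m n mn X Y Z er X1 Zf Zg r w ax ay v3c v3w tf vfw Mg rw a M3 af b : ℕ) : Bool :=
  (fun d Mf => ih (Nat.shiftRight z 0x60) (Nat.add Gv (Nat.mul a v3c)) (Nat.add Gf (Nat.mul w
    af)) (Nat.add hX (Nat.mul a X1)) (Nat.add lY (Nat.mul a Y)) (Nat.add cZ (Nat.mul a Z))
    (Nat.add xf (Nat.mul b X)) (Nat.add yf (Nat.mul b Y)) (Nat.add zf (Nat.mul b Zf)) (Nat.add cs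
    rw) (Nat.add es (Nat.mul (Nat.add a (Nat.mul 0x80000000 w)) er)) (Nat.add bad (Nat.add
    (Nat.add (Nat.sub 1 v3c) (Nat.sub v3c 0x100000000000000000000000000000000)) (Nat.sub (Nat.add
    (Nat.mul M3 (Nat.add (Nat.mul Mg Mg) (Nat.mul d d))) (Nat.mul (Nat.sub v3w v3c) (Nat.mul Mf
    Mf))) 0x7fffffffffffffffffffffffffffffffffffffffffffffffffffffffffffffffffffff)))) (Nat.sub
    vfw af) (Nat.add af vfw)

noncomputable def rw7 (ih : ℕ → ℕ → ℕ → ℕ → ℕ → ℕ → ℕ → ℕ → ℕ → ℕ → ℕ → ℕ → Bool) (nnu nf ng f1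
  f2 f3 w1 w2 w3 g1 g2 g3 u1 u2 u3 hc lc cc hw lw cw z Gv Gf hX lY cZ xf yf zf cs es bad k0 m0 n0
  k m n mn X Y Z er X1 Zf Zg r w ax ay v3c v3w tf vfw Mg rw a M3 af b d Mf : ℕ) : Bool :=
  ih (Nat.shiftRight z 0x60) (Nat.add Gv (Nat.mul a v3c)) (Nat.add Gf (Nat.mul w af)) (Nat.add hX
    (Nat.mul a X1)) (Nat.add lY (Nat.mul a Y)) (Nat.add cZ (Nat.mul a Z)) (Nat.add xf (Nat.mul b
    X)) (Nat.add yf (Nat.mul b Y)) (Nat.add zf (Nat.mul b Zf)) (Nat.add cs rw) (Nat.add es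
    (Nat.mul (Nat.add a (Nat.mul 0x80000000 w)) er)) (Nat.add bad (Nat.add (Nat.add (Nat.sub 1
    v3c) (Nat.sub v3c 0x100000000000000000000000000000000)) (Nat.sub (Nat.add (Nat.mul M3
    (Nat.add (Nat.mul Mg Mg) (Nat.mul d d))) (Nat.mul (Nat.sub v3w v3c) (Nat.mul Mf Mf)))
    0x7fffffffffffffffffffffffffffffffffffffffffffffffffffffffffffffffffffff)))

theorem rw0_dec {ih : ℕ → ℕ → ℕ → ℕ → ℕ → ℕ → ℕ → ℕ → ℕ → ℕ → ℕ → ℕ → Bool} {nnu nf ng f1 f2 f3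
  w1 w2 w3 g1 g2 g3 u1 u2 u3 hc lc cc hw lw cw z Gv Gf hX lY cZ xf yf zf cs es bad : ℕ}
    (hr : rw0 ih nnu nf ng f1 f2 f3 w1 w2 w3 g1 g2 g3 u1 u2 u3 hc lc cc hw lw cw z Gv Gf hX lY cZ
      xf yf zf cs es bad = true) :
    ∃ k0 m0 n0 : ℕ,
      k0 = Nat.mod z 0x20000 ∧
      m0 = Nat.mod (Nat.shiftRight z 0x11) 0x20000 ∧
      n0 = Nat.mod (Nat.shiftRight z 0x22) 0x20000 ∧
      rw1 ih nnu nf ng f1 f2 f3 w1 w2 w3 g1 g2 g3 u1 u2 u3 hc lc cc hw lw cw z Gv Gf hX lY cZ xf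
        yf zf cs es bad k0 m0 n0 = true :=
  ⟨_, _, _, rfl, rfl, rfl, hr⟩

theorem rw1_dec {ih : ℕ → ℕ → ℕ → ℕ → ℕ → ℕ → ℕ → ℕ → ℕ → ℕ → ℕ → ℕ → Bool} {nnu nf ng f1 f2 f3
  w1 w2 w3 g1 g2 g3 u1 u2 u3 hc lc cc hw lw cw z Gv Gf hX lY cZ xf yf zf cs es bad k0 m0 n0 : ℕ}
    (hr : rw1 ih nnu nf ng f1 f2 f3 w1 w2 w3 g1 g2 g3 u1 u2 u3 hc lc cc hw lw cw z Gv Gf hX lY cZ
      xf yf zf cs es bad k0 m0 n0 = true) :
    ∃ k m n mn : ℕ,
      k = Nat.add k0 0xffffffffffffffffffffffffffffffffffffffffffffffffffffffffffff0000 ∧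
      m = Nat.add m0 0xffffffffffffffffffffffffffffffffffffffffffffffffffffffffffff0000 ∧
      n = Nat.add n0 0xffffffffffffffffffffffffffffffffffffffffffffffffffffffffffff0000 ∧
      mn = Nat.add (Nat.add (Nat.sub m0 0x10000) (Nat.sub 0x10000 m0)) (Nat.add (Nat.sub n0
        0x10000) (Nat.sub 0x10000 n0)) ∧
      rw2 ih nnu nf ng f1 f2 f3 w1 w2 w3 g1 g2 g3 u1 u2 u3 hc lc cc hw lw cw z Gv Gf hX lY cZ xf
        yf zf cs es bad k0 m0 n0 k m n mn = true :=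
  ⟨_, _, _, _, rfl, rfl, rfl, rfl, hr⟩

theorem rw2_dec {ih : ℕ → ℕ → ℕ → ℕ → ℕ → ℕ → ℕ → ℕ → ℕ → ℕ → ℕ → ℕ → Bool} {nnu nf ng f1 f2 f3
  w1 w2 w3 g1 g2 g3 u1 u2 u3 hc lc cc hw lw cw z Gv Gf hX lY cZ xf yf zf cs es bad k0 m0 n0 k m n
  mn : ℕ}
    (hr : rw2 ih nnu nf ng f1 f2 f3 w1 w2 w3 g1 g2 g3 u1 u2 u3 hc lc cc hw lw cw z Gv Gf hX lY cZ
      xf yf zf cs es bad k0 m0 n0 k m n mn = true) :
    ∃ X Y Z er : ℕ,
      X = Nat.add (Nat.add (Nat.mul k 0x4000000000000000) (Nat.mul m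
        0xffffffffffffffffffffffffffffffffffffffffffffffffee3dc8718122c135)) (Nat.mul n
        0xffffffffffffffffffffffffffffffffffffffffffffffff665686ac69471e5b) ∧
      Y = Nat.add (Nat.mul m 0x6190bb18ae94847e) (Nat.mul n 0x36250a3698fe640e) ∧
      Z = Nat.add (Nat.add (Nat.mul k 0x4000000000000000) (Nat.mul m
        0xffffffffffffffffffffffffffffffffffffffffffffffffe3846f1cfdba7d97)) (Nat.mul n
        0xfffffffffffffffffffffffffffffffffffffffffffffffff352f2a72d71c34a) ∧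
      er = Nat.mul 0x800000000 mn ∧
      rw3 ih nnu nf ng f1 f2 f3 w1 w2 w3 g1 g2 g3 u1 u2 u3 hc lc cc hw lw cw z Gv Gf hX lY cZ xf
        yf zf cs es bad k0 m0 n0 k m n mn X Y Z er = true :=
  ⟨_, _, _, _, rfl, rfl, rfl, rfl, hr⟩

theorem rw3_dec {ih : ℕ → ℕ → ℕ → ℕ → ℕ → ℕ → ℕ → ℕ → ℕ → ℕ → ℕ → ℕ → Bool} {nnu nf ng f1 f2 f3
  w1 w2 w3 g1 g2 g3 u1 u2 u3 hc lc cc hw lw cw z Gv Gf hX lY cZ xf yf zf cs es bad k0 m0 n0 k m n
  mn X Y Z er : ℕ}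
    (hr : rw3 ih nnu nf ng f1 f2 f3 w1 w2 w3 g1 g2 g3 u1 u2 u3 hc lc cc hw lw cw z Gv Gf hX lY cZ
      xf yf zf cs es bad k0 m0 n0 k m n mn X Y Z er = true) :
    ∃ X1 Zf Zg r w ax ay : ℕ,
      X1 = Nat.add X (Nat.mul nnu Z) ∧
      Zf = Nat.add Z (Nat.mul nf X) ∧
      Zg = Nat.add Z (Nat.mul ng X) ∧
      r = Nat.mod (Nat.shiftRight z 0x33) 0x2000 ∧
      w = Nat.mod (Nat.shiftRight z 0x40) 0x100000000 ∧
      ax = ab X ∧
      ay = ab Y ∧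
      rw4 ih nnu nf ng f1 f2 f3 w1 w2 w3 g1 g2 g3 u1 u2 u3 hc lc cc hw lw cw z Gv Gf hX lY cZ xf
        yf zf cs es bad k0 m0 n0 k m n mn X Y Z er X1 Zf Zg r w ax ay = true :=
  ⟨_, _, _, _, _, _, _, rfl, rfl, rfl, rfl, rfl, rfl, rfl, hr⟩

theorem rw4_dec {ih : ℕ → ℕ → ℕ → ℕ → ℕ → ℕ → ℕ → ℕ → ℕ → ℕ → ℕ → ℕ → Bool} {nnu nf ng f1 f2 f3
  w1 w2 w3 g1 g2 g3 u1 u2 u3 hc lc cc hw lw cw z Gv Gf hX lY cZ xf yf zf cs es bad k0 m0 n0 k m n
  mn X Y Z er X1 Zf Zg r w ax ay : ℕ}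
    (hr : rw4 ih nnu nf ng f1 f2 f3 w1 w2 w3 g1 g2 g3 u1 u2 u3 hc lc cc hw lw cw z Gv Gf hX lY cZ
      xf yf zf cs es bad k0 m0 n0 k m n mn X Y Z er X1 Zf Zg r w ax ay = true) :
    ∃ v3c v3w tf vfw Mg rw a : ℕ,
      v3c = Nat.mod (Nat.add (Nat.add (Nat.mul hc X1) (Nat.mul lc Y)) (Nat.mul cc Z))
        0x10000000000000000000000000000000000000000000000000000000000000000 ∧
      v3w = Nat.add (Nat.add (Nat.mul hw (ab X1)) (Nat.mul lw ay)) (Nat.add (Nat.mul cw (ab Z))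
        er) ∧
      tf = Nat.mod (Nat.add (Nat.add (Nat.add (Nat.mul f1 X) (Nat.mul f2 Y)) (Nat.mul f3 Zf))
        0x8000000000000000000000000000000000000000000000000000000000000000)
        0x10000000000000000000000000000000000000000000000000000000000000000 ∧
      vfw = Nat.add (Nat.add (Nat.mul w1 ax) (Nat.mul w2 ay)) (Nat.add (Nat.mul w3 (ab Zf)) er) ∧
      Mg = Nat.add (ab (Nat.add (Nat.add (Nat.mul g1 X) (Nat.mul g2 Y)) (Nat.mul g3 Zg)))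
        (Nat.add (Nat.add (Nat.mul u1 ax) (Nat.mul u2 ay)) (Nat.add (Nat.mul u3 (ab Zg)) er)) ∧
      rw = Nat.mul w r ∧
      a = Nat.mul (Nat.mul w r) (Nat.mul r r) ∧
      rw5 ih nnu nf ng f1 f2 f3 w1 w2 w3 g1 g2 g3 u1 u2 u3 hc lc cc hw lw cw z Gv Gf hX lY cZ xf
        yf zf cs es bad k0 m0 n0 k m n mn X Y Z er X1 Zf Zg r w ax ay v3c v3w tf vfw Mg rw a =
        true :=
  ⟨_, _, _, _, _, _, _, rfl, rfl, rfl, rfl, rfl, rfl, rfl, hr⟩

theorem rw5_dec {ih : ℕ → ℕ → ℕ → ℕ → ℕ → ℕ → ℕ → ℕ → ℕ → ℕ → ℕ → ℕ → Bool} {nnu nf ng f1 f2 f3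
  w1 w2 w3 g1 g2 g3 u1 u2 u3 hc lc cc hw lw cw z Gv Gf hX lY cZ xf yf zf cs es bad k0 m0 n0 k m n
  mn X Y Z er X1 Zf Zg r w ax ay v3c v3w tf vfw Mg rw a : ℕ}
    (hr : rw5 ih nnu nf ng f1 f2 f3 w1 w2 w3 g1 g2 g3 u1 u2 u3 hc lc cc hw lw cw z Gv Gf hX lY cZ
      xf yf zf cs es bad k0 m0 n0 k m n mn X Y Z er X1 Zf Zg r w ax ay v3c v3w tf vfw Mg rw a =
      true) :
    ∃ M3 af b : ℕ,
      M3 = Nat.add v3c v3w ∧
      af = Nat.add (Nat.sub tf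
        0x8000000000000000000000000000000000000000000000000000000000000000) (Nat.sub
        0x8000000000000000000000000000000000000000000000000000000000000000 tf) ∧
      b = Nat.mul w (Nat.add 0xffffffffffffffffffffffffffffffffffffffffffffffffffffffff80000000
        (Nat.mul (Nat.shiftRight tf 0xff) 0x100000000)) ∧
      rw6 ih nnu nf ng f1 f2 f3 w1 w2 w3 g1 g2 g3 u1 u2 u3 hc lc cc hw lw cw z Gv Gf hX lY cZ xf
        yf zf cs es bad k0 m0 n0 k m n mn X Y Z er X1 Zf Zg r w ax ay v3c v3w tf vfw Mg rw a M3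
        af b = true :=
  ⟨_, _, _, rfl, rfl, rfl, hr⟩

theorem rw6_dec {ih : ℕ → ℕ → ℕ → ℕ → ℕ → ℕ → ℕ → ℕ → ℕ → ℕ → ℕ → ℕ → Bool} {nnu nf ng f1 f2 f3
  w1 w2 w3 g1 g2 g3 u1 u2 u3 hc lc cc hw lw cw z Gv Gf hX lY cZ xf yf zf cs es bad k0 m0 n0 k m n
  mn X Y Z er X1 Zf Zg r w ax ay v3c v3w tf vfw Mg rw a M3 af b : ℕ}
    (hr : rw6 ih nnu nf ng f1 f2 f3 w1 w2 w3 g1 g2 g3 u1 u2 u3 hc lc cc hw lw cw z Gv Gf hX lY cZ
      xf yf zf cs es bad k0 m0 n0 k m n mn X Y Z er X1 Zf Zg r w ax ay v3c v3w tf vfw Mg rw a M3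
      af b = true) :
    ∃ d Mf : ℕ,
      d = Nat.sub vfw af ∧
      Mf = Nat.add af vfw ∧
      rw7 ih nnu nf ng f1 f2 f3 w1 w2 w3 g1 g2 g3 u1 u2 u3 hc lc cc hw lw cw z Gv Gf hX lY cZ xf
        yf zf cs es bad k0 m0 n0 k m n mn X Y Z er X1 Zf Zg r w ax ay v3c v3w tf vfw Mg rw a M3
        af b d Mf = true :=
  ⟨_, _, rfl, rfl, hr⟩

/-- one step of `TChk.rows`, decoded -/
theorem rows_step
    {K : ℕ → ℕ → ℕ → ℕ → ℕ → ℕ → ℕ → ℕ → ℕ → ℕ → ℕ → ℕ → Bool}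
    {nnu nf ng f1 f2 f3 w1 w2 w3 g1 g2 g3 u1 u2 u3 hc lc cc hw lw cw q : ℕ}
    {z Gv Gf hX lY cZ xf yf zf cs es bad : ℕ}
    (hr : TChk.rows K nnu nf ng f1 f2 f3 w1 w2 w3 g1 g2 g3 u1 u2 u3 hc lc cc hw lw cw (q + 1)
      z Gv Gf hX lY cZ xf yf zf cs es bad = true) :
    ∃ k0 m0 n0 k m n mn X Y Z er X1 Zf Zg r w ax ay v3c v3w tf vfw Mg rw a M3 af b d Mf : ℕ,
      k0 = Nat.mod z 0x20000 ∧
      m0 = Nat.mod (Nat.shiftRight z 0x11) 0x20000 ∧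
      n0 = Nat.mod (Nat.shiftRight z 0x22) 0x20000 ∧
      k = Nat.add k0 0xffffffffffffffffffffffffffffffffffffffffffffffffffffffffffff0000 ∧
      m = Nat.add m0 0xffffffffffffffffffffffffffffffffffffffffffffffffffffffffffff0000 ∧
      n = Nat.add n0 0xffffffffffffffffffffffffffffffffffffffffffffffffffffffffffff0000 ∧
      mn = Nat.add (Nat.add (Nat.sub m0 0x10000) (Nat.sub 0x10000 m0)) (Nat.add (Nat.sub n0
        0x10000) (Nat.sub 0x10000 n0)) ∧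
      X = Nat.add (Nat.add (Nat.mul k 0x4000000000000000) (Nat.mul m
        0xffffffffffffffffffffffffffffffffffffffffffffffffee3dc8718122c135)) (Nat.mul n
        0xffffffffffffffffffffffffffffffffffffffffffffffff665686ac69471e5b) ∧
      Y = Nat.add (Nat.mul m 0x6190bb18ae94847e) (Nat.mul n 0x36250a3698fe640e) ∧
      Z = Nat.add (Nat.add (Nat.mul k 0x4000000000000000) (Nat.mul m
        0xffffffffffffffffffffffffffffffffffffffffffffffffe3846f1cfdba7d97)) (Nat.mul n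
        0xfffffffffffffffffffffffffffffffffffffffffffffffff352f2a72d71c34a) ∧
      er = Nat.mul 0x800000000 mn ∧
      X1 = Nat.add X (Nat.mul nnu Z) ∧
      Zf = Nat.add Z (Nat.mul nf X) ∧
      Zg = Nat.add Z (Nat.mul ng X) ∧
      r = Nat.mod (Nat.shiftRight z 0x33) 0x2000 ∧
      w = Nat.mod (Nat.shiftRight z 0x40) 0x100000000 ∧
      ax = ab X ∧
      ay = ab Y ∧
      v3c = Nat.mod (Nat.add (Nat.add (Nat.mul hc X1) (Nat.mul lc Y)) (Nat.mul cc Z))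
        0x10000000000000000000000000000000000000000000000000000000000000000 ∧
      v3w = Nat.add (Nat.add (Nat.mul hw (ab X1)) (Nat.mul lw ay)) (Nat.add (Nat.mul cw (ab Z))
        er) ∧
      tf = Nat.mod (Nat.add (Nat.add (Nat.add (Nat.mul f1 X) (Nat.mul f2 Y)) (Nat.mul f3 Zf))
        0x8000000000000000000000000000000000000000000000000000000000000000)
        0x10000000000000000000000000000000000000000000000000000000000000000 ∧
      vfw = Nat.add (Nat.add (Nat.mul w1 ax) (Nat.mul w2 ay)) (Nat.add (Nat.mul w3 (ab Zf)) er) ∧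
      Mg = Nat.add (ab (Nat.add (Nat.add (Nat.mul g1 X) (Nat.mul g2 Y)) (Nat.mul g3 Zg)))
        (Nat.add (Nat.add (Nat.mul u1 ax) (Nat.mul u2 ay)) (Nat.add (Nat.mul u3 (ab Zg)) er)) ∧
      rw = Nat.mul w r ∧
      a = Nat.mul (Nat.mul w r) (Nat.mul r r) ∧
      M3 = Nat.add v3c v3w ∧
      af = Nat.add (Nat.sub tf
        0x8000000000000000000000000000000000000000000000000000000000000000) (Nat.sub
        0x8000000000000000000000000000000000000000000000000000000000000000 tf) ∧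
      b = Nat.mul w (Nat.add 0xffffffffffffffffffffffffffffffffffffffffffffffffffffffff80000000
        (Nat.mul (Nat.shiftRight tf 0xff) 0x100000000)) ∧
      d = Nat.sub vfw af ∧
      Mf = Nat.add af vfw ∧
      TChk.rows K nnu nf ng f1 f2 f3 w1 w2 w3 g1 g2 g3 u1 u2 u3 hc lc cc hw lw cw q
        (Nat.shiftRight z 0x60) (Nat.add Gv (Nat.mul a v3c)) (Nat.add Gf (Nat.mul w af)) (Nat.add
        hX (Nat.mul a X1)) (Nat.add lY (Nat.mul a Y)) (Nat.add cZ (Nat.mul a Z)) (Nat.add xf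
        (Nat.mul b X)) (Nat.add yf (Nat.mul b Y)) (Nat.add zf (Nat.mul b Zf)) (Nat.add cs rw)
        (Nat.add es (Nat.mul (Nat.add a (Nat.mul 0x80000000 w)) er)) (Nat.add bad (Nat.add
        (Nat.add (Nat.sub 1 v3c) (Nat.sub v3c 0x100000000000000000000000000000000)) (Nat.sub
        (Nat.add (Nat.mul M3 (Nat.add (Nat.mul Mg Mg) (Nat.mul d d))) (Nat.mul (Nat.sub v3w v3c)
        (Nat.mul Mf Mf)))
        0x7fffffffffffffffffffffffffffffffffffffffffffffffffffffffffffffffffffff))) = true := by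
  have h0 : rw0 (TChk.rows K nnu nf ng f1 f2 f3 w1 w2 w3 g1 g2 g3 u1 u2 u3 hc lc cc hw lw cw q) nnu nf ng f1 f2 f3 w1 w2 w3 g1 g2 g3 u1 u2 u3 hc lc cc hw lw cw z Gv Gf hX lY cZ xf yf zf cs es bad = true := hr
  obtain ⟨k0, m0, n0, q_k0, q_m0, q_n0, h1⟩ := rw0_dec h0
  obtain ⟨k, m, n, mn, q_k, q_m, q_n, q_mn, h2⟩ := rw1_dec h1
  obtain ⟨X, Y, Z, er, q_X, q_Y, q_Z, q_er, h3⟩ := rw2_dec h2
  obtain ⟨X1, Zf, Zg, r, w, ax, ay, q_X1, q_Zf, q_Zg, q_r, q_w, q_ax, q_ay, h4⟩ := rw3_dec h3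
  obtain ⟨v3c, v3w, tf, vfw, Mg, rw, a, q_v3c, q_v3w, q_tf, q_vfw, q_Mg, q_rw, q_a, h5⟩ := rw4_dec h4
  obtain ⟨M3, af, b, q_M3, q_af, q_b, h6⟩ := rw5_dec h5
  obtain ⟨d, Mf, q_d, q_Mf, h7⟩ := rw6_dec h6
  exact ⟨k0, m0, n0, k, m, n, mn, X, Y, Z, er, X1, Zf, Zg, r, w, ax, ay, v3c, v3w, tf, vfw, Mg, rw, a, M3, af, b, d, Mf,
    q_k0, q_m0, q_n0, q_k, q_m, q_n, q_mn, q_X, q_Y, q_Z, q_er, q_X1, q_Zf, q_Zg, q_r, q_w, q_ax, q_ay, q_v3c, q_v3w, q_tf, q_vfw, q_Mg, q_rw, q_a, q_M3, q_af, q_b, q_d, q_Mf, h7⟩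

end TSound
end Pool.Agent.Lib.MP_be9f18_nt
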