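import Pool.Agent.Lib.MP_be9f18_nt.TLeaf
import Pool.Agent.Lib.MP_be9f18_nt.TRoots

/-!
Soundness of the second kernel checker (problem MP_be9f18_nt).
-/

set_option autoImplicit false

namespace Pool.Agent.Lib.MP_be9f18_nt
namespace TSound

/-- An entry known to lie in an interval of the box. -/
theorem ent_of {t : ℝ} {lo hi : ℕ} (h1 : (lo : ℝ) ≤ 1073741824 * t + 1073741824)
    (h2 : 1073741824 * t + 1073741824 ≤ (hi : ℝ)) (hh : hi ≤ 4294967296) :
    Ent t (Nat.add (Nat.add lo hi)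
      0xffffffffffffffffffffffffffffffffffffffffffffffffffffffff80000000) (Nat.sub hi lo)
      ((lo : ℤ) + hi - 2 ^ 31) := by
  have hle : lo ≤ hi := by exact_mod_cast h1.trans h2
  have hw : ((Nat.sub hi lo : ℕ) : ℤ) = (hi : ℤ) - lo := by
    rw [Nat.sub_eq]; exact Nat.cast_sub hle
  have hwR : ((Nat.sub hi lo : ℕ) : ℝ) = (hi : ℝ) - lo := by
    rw [Nat.sub_eq]; exact Nat.cast_sub hle
  refine ⟨?_, ?_, ?_⟩
  · have q : Rep 0xffffffffffffffffffffffffffffffffffffffffffffffffffffffff80000000 (-(2 ^ 31)) :=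
      rep_of (by norm_num)
    exact rep_congr (rep_add (rep_add (rep_nat _) (rep_nat _)) q) (by ring)
  · rw [hw]
    have : |(lo : ℤ) + hi - 2 ^ 31| ≤ 3 * 2 ^ 31 - ((hi : ℤ) - lo) := by
      rw [abs_le]
      constructor <;> norm_num <;> omega
    linarith
  · rw [hwR, abs_le]
    push_cast
    constructor <;> norm_num <;> linarith

theorem nnu_rep {nu : ℕ} (h : nu ≤ 1) :
    Rep (Nat.sub 0x10000000000000000000000000000000000000000000000000000000000000000 nu)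
      (-(nu : ℤ)) := by
  interval_cases nu <;> exact rep_of (by norm_num)

/-- the `S` and `L` leaves -/
theorem fr_sound {X Y Z : ℤ → ℤ → ℤ → ℝ} (hA : Approx X Y Z) {kd nu y : ℕ} (hnu : nu ≤ 1)
    {a b f e d g h l c : ℝ} {al ah bl bh fl fh el eh dl dh gl gh hl hh ll lh cl ch : ℕ}
    (hb : InBoxT al ah bl bh fl fh el eh dl dh gl gh hl hh ll lh cl ch a b f e d g h l c)
    (ka : ah ≤ 4294967296) (kb : bh ≤ 4294967296) (kf : fh ≤ 4294967296) (ke : eh ≤ 4294967296)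
    (kdd : dh ≤ 4294967296) (kg : gh ≤ 4294967296) (kh : hh ≤ 4294967296) (kl : lh ≤ 4294967296)
    (kc : ch ≤ 4294967296)
    (hG : ∀ k m n : ℤ, ¬(k = 0 ∧ m = 0 ∧ n = 0) →
      1 ≤ |h * (X k m n - nu * Z k m n) + l * Y k m n + c * Z k m n| *
        max ((a * X k m n + b * Y k m n + f * (Z k m n - nu * X k m n)) ^ 2)
          ((e * X k m n + d * Y k m n + g * Z k m n) ^ 2))
    (hdet : TCore.det (a - nu * f) b f e d g h l (c - nu * h) ≤ 1)
    (hr : TChk.fr kd y nu al ah bl bh fl fh el eh dl dh gl gh hl hh ll lh cl ch = true) :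
    False := by
  obtain ⟨h0, k0, h1, k1, h2, k2, h3, k3, h4, k4, h5, k5, h6, k6, h7, k7, h8, k8⟩ := hb
  have ea := ent_of h0 k0 ka
  have eb := ent_of h1 k1 kb
  have ef := ent_of h2 k2 kf
  have ee := ent_of h3 k3 ke
  have ed := ent_of h4 k4 kdd
  have eg := ent_of h5 k5 kg
  have ehh := ent_of h6 k6 kh
  have ell := ent_of h7 k7 kl
  have ec := ent_of h8 k8 kc
  have hn := nnu_rep hnu
  unfold TChk.fr at hr
  generalize Nat.add (Nat.add al ah)
    0xffffffffffffffffffffffffffffffffffffffffffffffffffffffff80000000 = ac at *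
  generalize Nat.add (Nat.add bl bh)
    0xffffffffffffffffffffffffffffffffffffffffffffffffffffffff80000000 = bc at *
  generalize Nat.add (Nat.add fl fh)
    0xffffffffffffffffffffffffffffffffffffffffffffffffffffffff80000000 = fc at *
  generalize Nat.add (Nat.add el eh)
    0xffffffffffffffffffffffffffffffffffffffffffffffffffffffff80000000 = ec' at *
  generalize Nat.add (Nat.add dl dh)
    0xffffffffffffffffffffffffffffffffffffffffffffffffffffffff80000000 = dc at *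
  generalize Nat.add (Nat.add gl gh)
    0xffffffffffffffffffffffffffffffffffffffffffffffffffffffff80000000 = gc at *
  generalize Nat.add (Nat.add hl hh)
    0xffffffffffffffffffffffffffffffffffffffffffffffffffffffff80000000 = hc at *
  generalize Nat.add (Nat.add ll lh)
    0xffffffffffffffffffffffffffffffffffffffffffffffffffffffff80000000 = lc at *
  generalize Nat.add (Nat.add cl ch)
    0xffffffffffffffffffffffffffffffffffffffffffffffffffffffff80000000 = cc at *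
  generalize Nat.sub 0x10000000000000000000000000000000000000000000000000000000000000000 nu
    = nnu at *
  unfold TChk.fr1 at hr
  cases kd with
  | zero =>
    obtain ⟨k, m, n, hne, hlt⟩ := leafS_sound hA hnu hn ea eb ef ee ed eg ehh ell ec
      (y := y) hr
    have := hG k m n hne
    unfold G at hlt
    linarith
  | succ kd =>
    exact leafL_sound hA hnu hn ea eb ef ee ed eg ehh ell ec hG hdet (y := y) hr

theorem inB_sound {al ah bl bh fl fh el eh dl dh gl gh hl hh ll lh cl ch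
    al' ah' bl' bh' fl' fh' el' eh' dl' dh' gl' gh' hl' hh' ll' lh' cl' ch' : ℕ}
    {a b f e d g h l c : ℝ}
    (hz : TChk.inB al ah bl bh fl fh el eh dl dh gl gh hl hh ll lh cl ch
      al' ah' bl' bh' fl' fh' el' eh' dl' dh' gl' gh' hl' hh' ll' lh' cl' ch' = 0)
    (hb : InBoxT al ah bl bh fl fh el eh dl dh gl gh hl hh ll lh cl ch a b f e d g h l c) :
    InBoxT al' ah' bl' bh' fl' fh' el' eh' dl' dh' gl' gh' hl' hh' ll' lh' cl' ch'
      a b f e d g h l c := by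
  unfold TChk.inB at hz
  simp only [Nat.add_eq, Nat.sub_eq, Nat.add_eq_zero_iff, Nat.sub_eq_zero_iff_le] at hz
  obtain ⟨⟨⟨⟨⟨⟨⟨⟨⟨p1, q1⟩, p2, q2⟩, p3, q3⟩, p4, q4⟩, p5, q5⟩, p6, q6⟩, p7, q7⟩, p8, q8⟩, p9, q9⟩ :=
    hz
  have c1 : (al' : ℝ) ≤ al := Nat.cast_le.2 p1
  have c2 : (bl' : ℝ) ≤ bl := Nat.cast_le.2 p2
  have c3 : (fl' : ℝ) ≤ fl := Nat.cast_le.2 p3
  have c4 : (el' : ℝ) ≤ el := Nat.cast_le.2 p4
  have c5 : (dl' : ℝ) ≤ dl := Nat.cast_le.2 p5
  have c6 : (gl' : ℝ) ≤ gl := Nat.cast_le.2 p6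
  have c7 : (hl' : ℝ) ≤ hl := Nat.cast_le.2 p7
  have c8 : (ll' : ℝ) ≤ ll := Nat.cast_le.2 p8
  have c9 : (cl' : ℝ) ≤ cl := Nat.cast_le.2 p9
  have d1 : (ah : ℝ) ≤ ah' := Nat.cast_le.2 q1
  have d2 : (bh : ℝ) ≤ bh' := Nat.cast_le.2 q2
  have d3 : (fh : ℝ) ≤ fh' := Nat.cast_le.2 q3
  have d4 : (eh : ℝ) ≤ eh' := Nat.cast_le.2 q4
  have d5 : (dh : ℝ) ≤ dh' := Nat.cast_le.2 q5
  have d6 : (gh : ℝ) ≤ gh' := Nat.cast_le.2 q6
  have d7 : (hh : ℝ) ≤ hh' := Nat.cast_le.2 q7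
  have d8 : (lh : ℝ) ≤ lh' := Nat.cast_le.2 q8
  have d9 : (ch : ℝ) ≤ ch' := Nat.cast_le.2 q9
  obtain ⟨h0, k0, h1, k1, h2, k2, h3, k3, h4, k4, h5, k5, h6, k6, h7, k7, h8, k8⟩ := hb
  exact ⟨c1.trans h0, k0.trans d1, c2.trans h1, k1.trans d2, c3.trans h2, k2.trans d3,
    c4.trans h3, k3.trans d4, c5.trans h4, k4.trans d5, c6.trans h5, k5.trans d6,
    c7.trans h6, k6.trans d7, c8.trans h7, k7.trans d8, c9.trans h8, k8.trans d9⟩

theorem brec {x y z : Bool} (h : @Bool.rec (fun _ => Bool) Bool.false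
    (@Bool.rec (fun _ => Bool) Bool.false y x) z = true) : z = true ∧ x = true ∧ y = true := by
  cases x <;> cases y <;> cases z <;> simp_all

theorem leafA_sound {md al ah bl bh fl fh el eh dl dh gl gh hl hh ll lh cl ch : ℕ}
    {a b f e d g h l c : ℝ}
    (hr : TChk.leafA md al ah bl bh fl fh el eh dl dh gl gh hl hh ll lh cl ch = true)
    (hb : InBoxT al ah bl bh fl fh el eh dl dh gl gh hl hh ll lh cl ch a b f e d g h l c) :
    Target md a b f e d g h l c := by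
  unfold TChk.leafA at hr
  unfold Target
  cases md with
  | zero =>
    have h := Nat.eq_of_beq_eq_true hr
    exact Or.inl ⟨rfl, inB_sound h hb⟩
  | succ md =>
    cases md with
    | zero =>
      have h := Nat.eq_of_beq_eq_true hr
      exact Or.inr (Or.inl ⟨rfl, inB_sound h hb⟩)
    | succ md =>
      have h := Nat.eq_of_beq_eq_true hr
      exact Or.inr (Or.inr ⟨by omega, inB_sound h hb⟩)

/-- `Approx` for the real coordinates. -/
def ApproxStatement : Prop := ∀ t1 t2 t3 : ℝ, Roots t1 t2 t3 →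
  Approx (fun k m n => (yv t1 k m n + yv t2 k m n) / 2)
    (fun k m n => (yv t1 k m n - yv t2 k m n) / 2) (fun k m n => yv t3 k m n)

theorem good_fr (hAp : ApproxStatement) {md kd y : ℕ}
    {al ah bl bh fl fh el eh dl dh gl gh hl hh ll lh cl ch : ℕ}
    (ka : ah ≤ 4294967296) (kb : bh ≤ 4294967296) (kf : fh ≤ 4294967296) (ke : eh ≤ 4294967296)
    (kdd : dh ≤ 4294967296) (kg : gh ≤ 4294967296) (kh : hh ≤ 4294967296) (kl : lh ≤ 4294967296)
    (kc : ch ≤ 4294967296)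
    (hr : TChk.fr kd y (Nat.sub 1 md) al ah bl bh fl fh el eh dl dh gl gh hl hh ll lh cl ch
      = true) :
    TGood md al ah bl bh fl fh el eh dl dh gl gh hl hh ll lh cl ch := by
  intro t1 t2 t3 hroots a b f e d g h l c hb hadm hdet
  exfalso
  have hnu : Nat.sub 1 md ≤ 1 := Nat.sub_le 1 md
  have hnuT : ((Nat.sub 1 md : ℕ) : ℝ) = nuT md := by
    unfold nuT
    cases md with
    | zero => simp
    | succ md =>
      rw [if_neg (Nat.succ_ne_zero md), Nat.sub_eq, Nat.sub_eq_zero_of_le (by omega)]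
      norm_num
  refine fr_sound (hAp t1 t2 t3 hroots) hnu hb ka kb kf ke kdd kg kh kl kc ?_ ?_ hr
  · intro k m n hne
    have := hadm k m n hne
    unfold GT G at this
    rw [hnuT]
    refine this.trans (le_of_eq ?_)
    congr 1
    · congr 1
      ring
    · congr 1
      congr 1
      ring
  · rw [hnuT]
    exact hdet

/-- Soundness of the second checker, given the numerical values of the conjugates. -/
theorem tcheck_sound_of (hAp : ApproxStatement) : TSoundStatement := by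
  intro md t
  induction t with
  | s0 q l r ihl ihr =>
    intro al ah bl bh fl fh el eh dl dh gl gh hl hh ll lh cl ch ka kb kf ke kd kg kh kl kc hc
    obtain ⟨h1, h2, h3⟩ := brec hc
    exact tgood_s0 (ihl _ _ _ _ _ _ _ _ _ _ _ _ _ _ _ _ _ _ ((Nat.le_of_ble_eq_true h1).trans ka)
      kb kf ke kd kg kh kl kc h2) (ihr _ _ _ _ _ _ _ _ _ _ _ _ _ _ _ _ _ _ ka kb kf ke kd kg kh
      kl kc h3)
  | s1 q l r ihl ihr =>
    intro al ah bl bh fl fh el eh dl dh gl gh hl hh ll lh cl ch ka kb kf ke kd kg kh kl kc hc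
    obtain ⟨h1, h2, h3⟩ := brec hc
    exact tgood_s1 (ihl _ _ _ _ _ _ _ _ _ _ _ _ _ _ _ _ _ _ ka
      ((Nat.le_of_ble_eq_true h1).trans kb)
      kf ke kd kg kh kl kc h2) (ihr _ _ _ _ _ _ _ _ _ _ _ _ _ _ _ _ _ _ ka kb kf ke kd kg kh
      kl kc h3)
  | s2 q l r ihl ihr =>
    intro al ah bl bh fl fh el eh dl dh gl gh hl hh ll lh cl ch ka kb kf ke kd kg kh kl kc hc
    obtain ⟨h1, h2, h3⟩ := brec hc
    exact tgood_s2 (ihl _ _ _ _ _ _ _ _ _ _ _ _ _ _ _ _ _ _ ka kb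
      ((Nat.le_of_ble_eq_true h1).trans kf)
      ke kd kg kh kl kc h2) (ihr _ _ _ _ _ _ _ _ _ _ _ _ _ _ _ _ _ _ ka kb kf ke kd kg kh
      kl kc h3)
  | s3 q l r ihl ihr =>
    intro al ah bl bh fl fh el eh dl dh gl gh hl hh ll lh cl ch ka kb kf ke kd kg kh kl kc hc
    obtain ⟨h1, h2, h3⟩ := brec hc
    exact tgood_s3 (ihl _ _ _ _ _ _ _ _ _ _ _ _ _ _ _ _ _ _ ka kb kf
      ((Nat.le_of_ble_eq_true h1).trans ke)
      kd kg kh kl kc h2) (ihr _ _ _ _ _ _ _ _ _ _ _ _ _ _ _ _ _ _ ka kb kf ke kd kg kh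
      kl kc h3)
  | s4 q l r ihl ihr =>
    intro al ah bl bh fl fh el eh dl dh gl gh hl hh ll lh cl ch ka kb kf ke kd kg kh kl kc hc
    obtain ⟨h1, h2, h3⟩ := brec hc
    exact tgood_s4 (ihl _ _ _ _ _ _ _ _ _ _ _ _ _ _ _ _ _ _ ka kb kf ke
      ((Nat.le_of_ble_eq_true h1).trans kd)
      kg kh kl kc h2) (ihr _ _ _ _ _ _ _ _ _ _ _ _ _ _ _ _ _ _ ka kb kf ke kd kg kh
      kl kc h3)
  | s5 q l r ihl ihr =>
    intro al ah bl bh fl fh el eh dl dh gl gh hl hh ll lh cl ch ka kb kf ke kd kg kh kl kc hc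
    obtain ⟨h1, h2, h3⟩ := brec hc
    exact tgood_s5 (ihl _ _ _ _ _ _ _ _ _ _ _ _ _ _ _ _ _ _ ka kb kf ke kd
      ((Nat.le_of_ble_eq_true h1).trans kg)
      kh kl kc h2) (ihr _ _ _ _ _ _ _ _ _ _ _ _ _ _ _ _ _ _ ka kb kf ke kd kg kh
      kl kc h3)
  | s6 q l r ihl ihr =>
    intro al ah bl bh fl fh el eh dl dh gl gh hl hh ll lh cl ch ka kb kf ke kd kg kh kl kc hc
    obtain ⟨h1, h2, h3⟩ := brec hc
    exact tgood_s6 (ihl _ _ _ _ _ _ _ _ _ _ _ _ _ _ _ _ _ _ ka kb kf ke kd kg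
      ((Nat.le_of_ble_eq_true h1).trans kh)
      kl kc h2) (ihr _ _ _ _ _ _ _ _ _ _ _ _ _ _ _ _ _ _ ka kb kf ke kd kg kh
      kl kc h3)
  | s7 q l r ihl ihr =>
    intro al ah bl bh fl fh el eh dl dh gl gh hl hh ll lh cl ch ka kb kf ke kd kg kh kl kc hc
    obtain ⟨h1, h2, h3⟩ := brec hc
    exact tgood_s7 (ihl _ _ _ _ _ _ _ _ _ _ _ _ _ _ _ _ _ _ ka kb kf ke kd kg kh
      ((Nat.le_of_ble_eq_true h1).trans kl)
      kc h2) (ihr _ _ _ _ _ _ _ _ _ _ _ _ _ _ _ _ _ _ ka kb kf ke kd kg kh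
      kl kc h3)
  | s8 q l r ihl ihr =>
    intro al ah bl bh fl fh el eh dl dh gl gh hl hh ll lh cl ch ka kb kf ke kd kg kh kl kc hc
    obtain ⟨h1, h2, h3⟩ := brec hc
    exact tgood_s8 (ihl _ _ _ _ _ _ _ _ _ _ _ _ _ _ _ _ _ _ ka kb kf ke kd kg kh kl
      ((Nat.le_of_ble_eq_true h1).trans kc)
      h2) (ihr _ _ _ _ _ _ _ _ _ _ _ _ _ _ _ _ _ _ ka kb kf ke kd kg kh
      kl kc h3)
  | S y =>
    intro al ah bl bh fl fh el eh dl dh gl gh hl hh ll lh cl ch ka kb kf ke kd kg kh kl kc hc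
    exact good_fr hAp (kd := 0) (y := y) ka kb kf ke kd kg kh kl kc hc
  | L y =>
    intro al ah bl bh fl fh el eh dl dh gl gh hl hh ll lh cl ch ka kb kf ke kd kg kh kl kc hc
    exact good_fr hAp (kd := 1) (y := y) ka kb kf ke kd kg kh kl kc hc
  | A =>
    intro al ah bl bh fl fh el eh dl dh gl gh hl hh ll lh cl ch ka kb kf ke kd kg kh kl kc hc
      t1 t2 t3 hroots a b f e d g h l c hb _ _
    exact leafA_sound hc hb

theorem comb {x a b : ℝ} {A B : ℤ} (k m n : ℤ) (hx : x = k + m * a + n * b)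
    (ha : |2 ^ 62 * a - (A : ℝ)| ≤ 1 / 2) (hb : |2 ^ 62 * b - (B : ℝ)| ≤ 1 / 2) :
    |2 ^ 62 * x - ((k * 2 ^ 62 + m * A + n * B : ℤ) : ℝ)| ≤ |(m : ℝ)| + |(n : ℝ)| := by
  have e : 2 ^ 62 * x - ((k * 2 ^ 62 + m * A + n * B : ℤ) : ℝ) =
      m * (2 ^ 62 * a - A) + n * (2 ^ 62 * b - B) := by rw [hx]; push_cast; ring
  rw [e]
  refine (abs_add_le _ _).trans ?_
  rw [abs_mul, abs_mul]
  have h1 := mul_le_mul_of_nonneg_left ha (abs_nonneg (m : ℝ))
  have h2 := mul_le_mul_of_nonneg_left hb (abs_nonneg (n : ℝ))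
  have h3 := abs_nonneg (m : ℝ)
  have h4 := abs_nonneg (n : ℝ)
  exact (add_le_add h1 h2).trans (by linarith)

theorem approx : ApproxStatement := by
  intro t1 t2 t3 R
  have h1 := TRoots.b1 R
  have h2 := TRoots.b2 R
  have h3 := TRoots.b3 R
  have q1 := TRoots.s1 R
  have q2 := TRoots.s2 R
  have q3 := TRoots.s3 R
  have XA : |2 ^ 62 * ((t1 + t2) / 2) - ((-1279646329279954635 : ℤ) : ℝ)| ≤ 1 / 2 := by
    rw [abs_le]; norm_num at h1 h2 ⊢
    constructor <;> linarith [h1.1, h1.2, h2.1, h2.2]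
  have YA : |2 ^ 62 * ((t1 - t2) / 2) - ((7030324733007922302 : ℤ) : ℝ)| ≤ 1 / 2 := by
    rw [abs_le]; norm_num at h1 h2 ⊢
    constructor <;> linarith [h1.1, h1.2, h2.1, h2.2]
  have ZA : |2 ^ 62 * t3 - ((-2052393359867478633 : ℤ) : ℝ)| ≤ 1 / 2 := by
    rw [abs_le]; norm_num at h3 ⊢
    constructor <;> linarith [h3.1, h3.2]
  have XB : |2 ^ 62 * (-(t1 ^ 2 + t2 ^ 2) / 2) - ((-11072514558785020325 : ℤ) : ℝ)| ≤ 1 / 2 := by
    rw [abs_le]; norm_num at q1 q2 ⊢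
    constructor <;> linarith [q1.1, q1.2, q2.1, q2.2]
  have YB : |2 ^ 62 * (-(t1 ^ 2 - t2 ^ 2) / 2) - ((3901535881797723150 : ℤ) : ℝ)| ≤ 1 / 2 := by
    rw [abs_le]; norm_num at q1 q2 ⊢
    constructor <;> linarith [q1.1, q1.2, q2.1, q2.2]
  have ZB : |2 ^ 62 * (-t3 ^ 2) - ((-913400974566898870 : ℤ) : ℝ)| ≤ 1 / 2 := by
    rw [abs_le]; norm_num at q3 ⊢
    constructor <;> linarith [q3.1, q3.2]
  refine ⟨fun k m n => ?_, fun k m n => ?_, fun k m n => ?_⟩
  · exact comb k m n (by unfold yv; ring) XA XB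
  · have h := comb (x := (yv t1 k m n - yv t2 k m n) / 2) 0 m n
      (by unfold yv; push_cast; ring) YA YB
    have e : (0 * 2 ^ 62 + m * 7030324733007922302 + n * 3901535881797723150 : ℤ) = Yi m n := by
      unfold Yi; ring
    rw [e] at h
    exact h
  · exact comb k m n (by unfold yv; ring) ZA ZB

end TSound

/-- Soundness of the second checker. -/
theorem tcheck_sound : TSoundStatement := TSound.tcheck_sound_of TSound.approx

end Pool.Agent.Lib.MP_be9f18_nt
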